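import Mathlib.NumberTheory.Chebyshev
import Mathlib.NumberTheory.LSeries.DirichletContinuation

/-!
# PROJECT E287: statements of the modules

Blueprint: `/team-store/E287_BLUEPRINT.md`.
-/

namespace Pool.Agent.MP_39a890_nt

open Finset Filter Topology ArithmeticFunction

/-- Smooth weights supported in `[1,2]`. -/
structure Wt (φ : ℝ → ℝ) : Prop where
  smooth : ContDiff ℝ (⊤ : ℕ∞) φ
  supp : ∀ x, φ x ≠ 0 → 1 ≤ x ∧ x ≤ 2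
  nonneg : ∀ x, 0 ≤ φ x
  le_one : ∀ x, φ x ≤ 1

/-- Upper bound for the number of points of a hyperelliptic curve of odd degree
(Stepanov, Bombieri). -/
def HypStmt : Prop :=
  ∀ m : ℕ, Odd m → ∃ C Q₀ : ℕ, ∀ (F : Type) [Field F] [Fintype F] [DecidableEq F] (p j : ℕ)
    [CharP F p], p.Prime → Fintype.card F = (p ^ j) ^ 2 → Q₀ ≤ p ^ j →
    ∀ f : Polynomial F, f.natDegree = m →
      (univ.filter fun P : F × F => P.2 ^ 2 = f.eval P.1).card ≤ (p ^ j) ^ 2 + C * p ^ j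

/-- Weil's bound for Kloosterman sums to prime modulus. -/
def WeilStmt : Prop :=
  ∀ (p : ℕ) [Fact p.Prime] (a b : ZMod p), a ≠ 0 → b ≠ 0 →
    ‖∑ x : (ZMod p)ˣ, ZMod.stdAddChar (a * (x : ZMod p) + b * ((x⁻¹ : (ZMod p)ˣ) : ZMod p))‖
      ≤ 2 * √(p : ℝ)

/-- Smoothed number of `n` in a residue class. -/
noncomputable def cnt₁ (φ : ℝ → ℝ) (X : ℝ) (q n₀ : ℕ) : ℝ :=
  ∑ n ∈ range ⌈3 * X⌉₊, if n ≡ n₀ [MOD q] then φ (n / X) else 0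

/-- Riemann sums along residue classes. -/
def CountStmt : Prop :=
  ∀ φ : ℝ → ℝ, Wt φ → ∃ C : ℝ, ∀ X : ℝ, 1 ≤ X → ∀ q n₀ : ℕ, 0 < q →
    |cnt₁ φ X q n₀ - X * (∫ u, φ u) / q| ≤ C

/-- Smoothed number of `n ≡ n₀ (q₀)` with `d₁ ∣ a n + 1`, `d₂ ∣ a' n + 1`. -/
noncomputable def cnt (φ : ℝ → ℝ) (X : ℝ) (a a' q₀ n₀ d₁ d₂ : ℕ) : ℝ :=
  ∑ n ∈ range ⌈3 * X⌉₊,
    if n ≡ n₀ [MOD q₀] ∧ d₁ ∣ a * n + 1 ∧ d₂ ∣ a' * n + 1 then φ (n / X) else 0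

/-- The remainder of `cnt`. -/
noncomputable def rem (φ : ℝ → ℝ) (X : ℝ) (a a' q₀ n₀ d₁ d₂ : ℕ) : ℝ :=
  cnt φ X a a' q₀ n₀ d₁ d₂ -
    if q₀.Coprime d₁ ∧ q₀.Coprime d₂ ∧ d₁.Coprime d₂ then X * (∫ u, φ u) / (q₀ * d₁ * d₂) else 0

/-- Bilinear bound for the remainders beyond the square root level. -/
def KLStmt : Prop :=
  ∀ θ σm σp η : ℝ, 0 < η → 0 ≤ θ → θ ≤ 3 / 5 → 0 ≤ σp → 7 * θ + σp ≤ 4 - 40 * η →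
    2 * θ - 1 + 40 * η ≤ σm → ∀ φ : ℝ → ℝ, Wt φ → ∀ W : ℕ, 0 < W →
    ∀ᶠ X : ℝ in atTop, ∀ (a a' q₀ n₀ : ℕ) (D₁ D₂ : Finset ℕ) (α α' : ℕ → ℝ),
      a ∣ W → a' ∣ W → (∀ p : ℕ, p.Prime → (p : ℤ) ∣ (a : ℤ) - a' → p ∣ W) →
      Squarefree q₀ → q₀.Coprime W → (q₀ : ℝ) ≤ X ^ η →
      q₀.Coprime (a * n₀ + 1) → q₀.Coprime (a' * n₀ + 1) →
      (∀ d ∈ D₁, Squarefree d ∧ d.Coprime W ∧ (d : ℝ) ≤ X ^ θ ∧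
        ∃ s : ℕ, s ∣ d ∧ X ^ σm ≤ (s : ℝ) ∧ (s : ℝ) ≤ X ^ σp) →
      (∀ d ∈ D₂, 0 < d ∧ d.Coprime W ∧ (d : ℝ) ≤ X ^ θ) →
      (∀ d, |α d| ≤ 1) → (∀ d, |α' d| ≤ 1) →
      |∑ d₁ ∈ D₁, ∑ d₂ ∈ D₂, α d₁ * α' d₂ * rem φ X a a' q₀ n₀ d₁ d₂| ≤ X ^ (1 - η)

/-- Siegel-Walfisz bound (Riesz mean) for a character whose `L(1,χ)` is not small. -/
def SWStmt : Prop :=
  ∀ (A B : ℕ) (c : ℝ), 0 < c → ∃ C : ℝ, ∀ (Q y : ℝ) (f : ℕ) [NeZero f]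
    (χ : DirichletCharacter ℂ f), χ ≠ 1 → 3 ≤ Q → (f : ℝ) ≤ Q → 3 ≤ y → Q ≤ Real.log y ^ B →
    (χ ^ 2 = 1 → c / Real.log Q ^ 3 ≤ ‖DirichletCharacter.LFunction χ 1‖) →
    ‖∑ n ∈ Ioc 0 ⌊y⌋₊, (Λ n : ℂ) * χ n * ((y : ℂ) - n)‖ ≤ C * y ^ 2 / Real.log y ^ A

/-- Landau-Page: all real primitive characters of conductor at most `Q` that can occur
have `L(1,χ)` not small, after removing one prime. -/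
def PageStmt : Prop :=
  ∀ W : ℕ, 0 < W → ∃ c : ℝ, 0 < c ∧ ∀ Q : ℝ, 3 ≤ Q → ∃ p₀ : ℕ, p₀.Prime ∧ ¬ p₀ ∣ W ∧
    ∀ (f : ℕ) [NeZero f] (χ : DirichletCharacter ℂ f), χ.IsPrimitive → χ ≠ 1 → χ ^ 2 = 1 →
      (f : ℝ) ≤ Q → (∃ q : ℕ, f ∣ W * q ∧ q.Coprime (W * p₀)) →
      c / Real.log Q ^ 3 ≤ ‖DirichletCharacter.LFunction χ 1‖

/-- The prime number theorem. -/
def PNTStmt : Prop := Tendsto (fun x : ℝ => Chebyshev.psi x / x) atTop (𝓝 1)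

/-- Smoothed count of prime values of `a n + 1` for `n` in a residue class. -/
noncomputable def pcnt (φ : ℝ → ℝ) (X : ℝ) (a q n₀ : ℕ) : ℝ :=
  ∑ n ∈ range ⌈3 * X⌉₊,
    if n ≡ n₀ [MOD q] ∧ (a * n + 1).Prime then φ (n / X) * Real.log ((a * n + 1 : ℕ) : ℝ) else 0

/-- `l^1` large sieve bound for primes over all primitive characters of small conductor. -/
def LSStmt : Prop :=
  ∀ φ : ℝ → ℝ, Wt φ → ∃ (C : ℝ) (E : ℕ), ∀ x : ℝ, 3 ≤ x →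
    ∀ S : Finset (Σ f : ℕ, DirichletCharacter ℂ f),
      (∀ z ∈ S, 0 < z.1 ∧ (z.1 : ℝ) ≤ x ^ (1 / 20 : ℝ) ∧ z.2.IsPrimitive) →
      ∑ z ∈ S, ‖∑ n ∈ range ⌈3 * x⌉₊, (Λ n : ℂ) * z.2 n * (φ (n / x) : ℂ)‖
        ≤ C * x * Real.log x ^ E

/-- Bombieri-Vinogradov at a small level, with one prime removed. -/
def BVStmt : Prop :=
  ∀ φ : ℝ → ℝ, Wt φ → ∀ W : ℕ, 0 < W → ∀ (C₀ B : ℕ) (ε : ℝ), 0 < ε →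
    ∀ᶠ X : ℝ in atTop, ∃ p₀ : ℕ, p₀.Prime ∧ ¬ p₀ ∣ W ∧ ∀ a : ℕ, a ∣ W →
      ∃ M : ℝ, (1 - ε) * (X * (∫ u, φ u) * (a / a.totient)) ≤ M ∧
        ∀ (S : Finset ℕ) (n₀ : ℕ → ℕ),
          (∀ q ∈ S, Squarefree q ∧ q.Coprime (W * p₀) ∧ (q : ℝ) ≤ X ^ (1 / 30 : ℝ) ∧
            q.Coprime (a * n₀ q + 1)) →
          ∑ q ∈ S, (C₀ : ℝ) ^ q.primeFactors.card * |pcnt φ X a q (n₀ q) - M / q.totient|
            ≤ X / Real.log X ^ B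

/-- Heath-Brown sets with prescribed shape. -/
def FormsStmt : Prop :=
  ∀ (K : ℕ) (τ : Fin K → ℝ) (ε : ℝ), 0 < ε → ∃ (D : ℝ) (A : Fin K → ℕ), 0 < D ∧ (∀ i, 0 < A i) ∧
    (∀ i j, |((A i : ℝ) - A j) - (τ i - τ j) * D| ≤ ε * D) ∧
    ∀ i j, i ≠ j → A i ≠ A j ∧ ((A i : ℤ) - A j) ∣ (A i : ℤ)

/-- Prime pairs with a bounded multiplier in every interval `[N, 2.715 N]`. -/
def MainStmt : Prop :=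
  ∃ C N₀ : ℕ, ∀ N : ℕ, N₀ ≤ N → ∃ m p q : ℕ, 1 ≤ m ∧ m ≤ C ∧ p.Prime ∧ q.Prime ∧
    (m + 1) * q = m * p + 1 ∧ N ≤ m * p ∧ 1000 * (m * p) ≤ 2715 * N

/-- Erdos problem 287 for all large `k`. -/
def ErdosStmt : Prop :=
  ∃ k₀ : ℕ, ∀ k : ℕ, k₀ ≤ k → ∀ n : ℕ → ℕ, 1 < n 0 → (∀ i, i + 1 < k → n i < n (i + 1)) →
    ∑ i ∈ range k, (1 : ℚ) / n i = 1 → ∃ i, i + 1 < k ∧ n i + 3 ≤ n (i + 1)

end Pool.Agent.MP_39a890_nt
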