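import Mathlib.Topology.Sheaves.Presheaf
import Mathlib.NumberTheory.LSeries.PrimesInAP
import Mathlib.NumberTheory.LSeries.SumCoeff
import Pool.Agent.MP_39a890_nt.Spec
import Pool.Agent.Lib.helper41.Tauber

/-! Module PAGE, second part: the prime number theorem. -/

namespace Pool.Agent.MP_39a890_nt

open MeasureTheory Filter Topology Complex Real Finset Pool.Agent.Lib.helper41
open scoped ArithmeticFunction.vonMangoldt

namespace PNT

theorem integrable_damped' {f : ℝ → ℂ} (hm : AEStronglyMeasurable f) {C : ℝ}
    (hC : ∀ u, ‖f u‖ ≤ C) (h0 : ∀ u, u < 0 → f u = 0) {s : ℂ} (hs : 0 < s.re) :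
    Integrable (fun u => f u * cexp (-(s * u))) := by
  refine (integrable_damped hm hC h0 hs).norm.mono' (hm.mul (by fun_prop))
    (Eventually.of_forall fun u => le_of_eq ?_)
  simp [Complex.norm_exp]

/-- averages over windows of fixed length tend to zero -/
theorem tauber_window {f : ℝ → ℂ} (hm : Measurable f) {C : ℝ} (hC : ∀ u, ‖f u‖ ≤ C)
    (h0 : ∀ u, u < 0 → f u = 0) {G : ℂ → ℂ} (hGc : ContinuousOn G {s | 0 ≤ s.re})
    (hG : ∀ s : ℂ, 0 < s.re → ∫ u : ℝ, f u * cexp (-(s * u)) = G s) {δ : ℝ} (hδ : 0 < δ) :
    Tendsto (fun u => ∫ v in (u - δ)..u, f v) atTop (𝓝 0) := by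
  have hi : ∀ a b : ℝ, IntervalIntegrable f volume a b := fun a b =>
    (intervalIntegrable_const (c := C)).mono_fun' hm.aestronglyMeasurable
      (Eventually.of_forall hC)
  have hb : ∀ a b : ℝ, ‖∫ v in a..b, f v‖ ≤ C * |b - a| := fun a b =>
    intervalIntegral.norm_integral_le_of_norm_le_const (fun x _ => hC x)
  have hosc : ∀ h v : ℝ, ‖(∫ w in (h + v - δ)..(h + v), f w) - ∫ w in (h - δ)..h, f w‖ ≤
      2 * C * |v| + 0 := by
    intro h v
    rw [intervalIntegral.integral_interval_sub_interval_comm' (hi _ _) (hi _ _) (hi _ _)]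
    refine (norm_sub_le _ _).trans ?_
    have h1 := hb h (h + v)
    have h2 := hb (h - δ) (h + v - δ)
    rw [show h + v - h = v by ring] at h1
    rw [show h + v - δ - (h - δ) = v by ring] at h2
    linarith
  have hcont : Continuous (fun u => ∫ v in (u - δ)..u, f v) := by
    have hC0 : 0 ≤ C := (norm_nonneg _).trans (hC 0)
    refine (LipschitzWith.of_dist_le_mul (K := ⟨2 * C, by positivity⟩) (fun x y => ?_)).continuous
    have := hosc y (x - y)
    rw [show y + (x - y) = x by ring, add_zero] at this
    rw [dist_eq_norm]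
    exact this
  refine tauber_laplace hcont.aestronglyMeasurable (C := C * δ) (fun u => ?_) (fun u hu => ?_)
    (G := fun s => G s * ∫ w in (0 : ℝ)..δ, cexp (-(s * w))) ?_ (fun s hs => ?_)
    (K := 2 * C) (η := fun _ => 0) tendsto_const_nhds hosc
  · have := hb (u - δ) u
    rwa [show u - (u - δ) = δ by ring, abs_of_pos hδ] at this
  · rw [intervalIntegral.integral_congr (g := fun _ => 0), intervalIntegral.integral_zero]
    intro x hx
    rw [Set.uIcc_of_le (by linarith)] at hx
    exact h0 x (hx.2.trans_lt hu)
  · refine hGc.mul (Continuous.continuousOn ?_)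
    exact intervalIntegral.continuous_parametric_intervalIntegral_of_continuous'
      (f := fun (s : ℂ) (w : ℝ) => cexp (-(s * w))) (by fun_prop) 0 δ
  · have h1 := integrable_damped' hm.aestronglyMeasurable hC h0 hs
    have h2 : Integrable ((Set.Ico 0 δ).indicator (fun w : ℝ => cexp (-(s * w)))) := by
      rw [integrable_indicator_iff measurableSet_Ico]
      exact ((by fun_prop : Continuous fun w : ℝ => cexp (-(s * w))).integrableOn_Icc).mono_set
        Set.Ico_subset_Icc_self
    have h3 := integral_convolution (ContinuousLinearMap.mul ℝ ℂ) h1 h2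
    rw [ContinuousLinearMap.mul_apply', hG s hs, integral_indicator measurableSet_Ico,
      integral_Ico_eq_integral_Ioo, ← integral_Ioc_eq_integral_Ioo,
      ← intervalIntegral.integral_of_le hδ.le] at h3
    rw [← h3]
    congr 1
    funext u
    rw [convolution_def, intervalIntegral.integral_of_le (by linarith), ← integral_mul_const,
      ← integral_indicator measurableSet_Ioc]
    congr 1
    funext t
    rw [ContinuousLinearMap.mul_apply']
    by_cases ht : t ∈ Set.Ioc (u - δ) u
    · rw [Set.indicator_of_mem ht, Set.indicator_of_mem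
        (show u - t ∈ Set.Ico 0 δ from ⟨by linarith [ht.2], by linarith [ht.1]⟩), mul_assoc,
        ← Complex.exp_add]
      congr 2
      push_cast
      ring
    · rw [Set.indicator_of_notMem ht, Set.indicator_of_notMem, mul_zero]
      intro hc
      exact ht ⟨by linarith [hc.2], by linarith [hc.1]⟩

/-- the normalized Chebyshev function on a logarithmic scale -/
noncomputable def r (u : ℝ) : ℝ := Chebyshev.psi (rexp u) * rexp (-u)

theorem r_nonneg (u : ℝ) : 0 ≤ r u := mul_nonneg (Chebyshev.psi_nonneg _) (Real.exp_pos _).le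

theorem r_le (u : ℝ) : r u ≤ Real.log 4 + 4 := by
  have h := Chebyshev.psi_le_const_mul_self (Real.exp_pos u).le
  have h2 := mul_le_mul_of_nonneg_right h (Real.exp_pos (-u)).le
  rwa [mul_assoc, ← Real.exp_add, add_neg_cancel, Real.exp_zero, mul_one] at h2

theorem r_meas : Measurable r :=
  (Chebyshev.psi_mono.measurable.comp Real.measurable_exp).mul (by fun_prop)

theorem r_zero {u : ℝ} (hu : u < 0) : r u = 0 := by
  rw [r, Chebyshev.psi_eq_zero_of_lt_two ((Real.exp_lt_one_iff.mpr hu).trans one_lt_two), zero_mul]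

theorem r_mono {u v : ℝ} (h : u ≤ v) : r u ≤ r v * rexp (v - u) := by
  rw [r, r, mul_assoc, ← Real.exp_add, show -v + (v - u) = -u by ring]
  exact mul_le_mul_of_nonneg_right (Chebyshev.psi_mono (Real.exp_le_exp.mpr h)) (Real.exp_pos _).le

theorem psi_eq (x : ℝ) : Chebyshev.psi x = ∑ n ∈ Icc 1 ⌊x⌋₊, Λ n := rfl

theorem laplace_r {s : ℂ} (hs : 0 < s.re) :
    ∫ u : ℝ, (r u : ℂ) * cexp (-(s * u)) = LSeries (fun n => (Λ n : ℂ)) (s + 1) / (s + 1) := by
  have hs1 : 1 < (s + 1).re := by simpa using hs
  have hne : s + 1 ≠ 0 := by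
    intro h
    rw [h] at hs1
    simp at hs1
    linarith
  rw [LSeries_eq_mul_integral_of_nonneg (fun n => Λ n) zero_le_one hs1 ?_
      (fun _ => ArithmeticFunction.vonMangoldt_nonneg), mul_div_cancel_left₀ _ hne,
    ← Real.exp_zero, ← Real.image_exp_Ioi,
    integral_image_eq_integral_abs_deriv_smul measurableSet_Ioi
      (fun x _ => (Real.hasDerivAt_exp x).hasDerivWithinAt) Real.exp_injective.injOn,
    ← setIntegral_eq_integral_of_ae_compl_eq_zero (s := Set.Ioi 0)]
  · refine setIntegral_congr_fun measurableSet_Ioi fun u _ => ?_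
    simp only [r, psi_eq, abs_of_pos (Real.exp_pos u), real_smul]
    push_cast
    rw [cpow_def_of_ne_zero (Complex.exp_ne_zero _),
      Complex.log_exp (by simp [pi_pos]) (by simpa using pi_nonneg), mul_left_comm, mul_assoc,
      ← Complex.exp_add, ← Complex.exp_add]
    congr 2
    ring
  · filter_upwards [compl_mem_ae_iff.2 (measure_singleton (μ := volume) (0 : ℝ))] with u hu hu'
    rw [r_zero (lt_of_le_of_ne (not_lt.1 hu') hu), ofReal_zero, zero_mul]
  · refine Asymptotics.IsBigO.of_bound (Real.log 4 + 4) (Eventually.of_forall fun n => ?_)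
    have h := Chebyshev.psi_le_const_mul_self (Nat.cast_nonneg n)
    rw [psi_eq, Nat.floor_natCast] at h
    rwa [Real.norm_of_nonneg (sum_nonneg fun _ _ => ArithmeticFunction.vonMangoldt_nonneg),
      Real.rpow_one, Real.norm_natCast]

theorem window {δ : ℝ} (hδ : 0 < δ) :
    Tendsto (fun u => ∫ v in (u - δ)..u, r v) atTop (𝓝 δ) := by
  let e : ℝ → ℝ := (Set.Ici 0).indicator (fun _ => 1)
  have hem : Measurable e := measurable_const.indicator measurableSet_Ici
  have he0 : ∀ u, u < 0 → e u = 0 := fun u hu => Set.indicator_of_notMem (not_le.mpr hu) _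
  have he1 : ∀ u, 0 ≤ u → e u = 1 := fun u hu => Set.indicator_of_mem hu _
  have heb : ∀ u, |e u| ≤ 1 := fun u => by
    rcases lt_or_ge u 0 with h | h
    · simp [he0 u h]
    · simp [he1 u h]
  have hrb : ∀ u, ‖(r u : ℂ)‖ ≤ Real.log 4 + 4 := fun u => by
    rw [Complex.norm_real, Real.norm_of_nonneg (r_nonneg u)]
    exact r_le u
  have heb' : ∀ u, ‖(e u : ℂ)‖ ≤ 1 := fun u => by
    rw [Complex.norm_real]
    exact heb u
  have hne : ∀ s : ℂ, 0 ≤ s.re → s + 1 ≠ 0 := by
    intro s hs h
    have := congrArg Complex.re h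
    simp at this
    linarith
  have h1 := tauber_window (f := fun u => (r u : ℂ) - (e u : ℂ))
    ((Complex.measurable_ofReal.comp r_meas).sub (Complex.measurable_ofReal.comp hem))
    (C := Real.log 4 + 4 + 1) (fun u => (norm_sub_le _ _).trans (add_le_add (hrb u) (heb' u)))
    (fun u hu => by simp [r_zero hu, he0 u hu])
    (G := fun s => (ArithmeticFunction.vonMangoldt.LFunctionResidueClassAux (1 : ZMod 1) (s + 1)
      - 1) / (s + 1)) ?_ ?_ hδ
  · have h2 := (Complex.continuous_re.tendsto 0).comp h1
    have h3 := h2.add_const δ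
    simp only [Complex.zero_re, zero_add] at h3
    refine h3.congr' ?_
    filter_upwards [eventually_ge_atTop δ] with u hu
    have hi : IntervalIntegrable r volume (u - δ) u :=
      (intervalIntegrable_const (c := Real.log 4 + 4)).mono_fun' r_meas.aestronglyMeasurable
        (Eventually.of_forall (fun x => by simpa using hrb x))
    have e1 : ∫ v in (u - δ)..u, ((r v : ℂ) - (e v : ℂ)) =
        ((∫ v in (u - δ)..u, (r v - 1) : ℝ) : ℂ) := by
      rw [← intervalIntegral.integral_ofReal]
      refine intervalIntegral.integral_congr (fun x hx => ?_)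
      rw [Set.uIcc_of_le (by linarith)] at hx
      simp [he1 x (by linarith [hx.1])]
    rw [Function.comp, e1, ofReal_re, intervalIntegral.integral_sub hi intervalIntegrable_const]
    simp
  · refine ContinuousOn.div (ContinuousOn.sub
      ((ArithmeticFunction.vonMangoldt.continuousOn_LFunctionResidueClassAux _).comp
        (by fun_prop) ?_) continuousOn_const) (by fun_prop) hne
    intro s hs
    simpa using hs
  · intro s hs
    have hs0 : s ≠ 0 := by
      rintro rfl
      simp at hs
    have hs1 : 1 < (s + 1).re := by simpa using hs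
    have a1 := integrable_damped' (Complex.measurable_ofReal.comp r_meas).aestronglyMeasurable
      hrb (fun u hu => by simp [r_zero hu]) hs
    have a2 := integrable_damped' (Complex.measurable_ofReal.comp hem).aestronglyMeasurable
      heb' (fun u hu => by simp [he0 u hu]) hs
    simp only [Function.comp] at a1 a2
    simp only [sub_mul]
    rw [integral_sub a1 a2, laplace_r hs,
      ArithmeticFunction.vonMangoldt.eqOn_LFunctionResidueClassAux isUnit_one hs1]
    have a3 : ∫ u : ℝ, (e u : ℂ) * cexp (-(s * u)) = 1 / s := by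
      have : (fun u : ℝ => (e u : ℂ) * cexp (-(s * u))) =
          (Set.Ici 0).indicator (fun u : ℝ => cexp (-s * u)) := by
        funext u
        rcases lt_or_ge u 0 with h | h
        · simp [he0 u h, Set.indicator, not_le.mpr h]
        · simp [he1 u h, Set.indicator, h]
      rw [this, integral_indicator measurableSet_Ici, integral_Ici_eq_integral_Ioi,
        integral_exp_mul_complex_Ioi (by simpa using hs)]
      simp
    have a4 : (fun n : ℕ => ((ArithmeticFunction.vonMangoldt.residueClass (1 : ZMod 1) n : ℝ) : ℂ))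
        = fun n => (Λ n : ℂ) := by
      funext n
      rw [ArithmeticFunction.vonMangoldt.residueClass, Set.indicator_of_mem]
      exact Subsingleton.elim _ _
    simp only [a3, a4, Nat.totient_one, Nat.cast_one, inv_one, add_sub_cancel_right]
    have := hne s hs.le
    field_simp
    ring

theorem r_tendsto : Tendsto r atTop (𝓝 1) := by
  have hi : ∀ a b, IntervalIntegrable r volume a b := fun a b =>
    (intervalIntegrable_const (c := Real.log 4 + 4)).mono_fun' r_meas.aestronglyMeasurable
      (Eventually.of_forall (fun x => (Real.norm_of_nonneg (r_nonneg x)).trans_le (r_le x)))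
  rw [tendsto_order]
  constructor
  · intro a ha
    obtain ⟨δ, hδ1, hδ⟩ : ∃ δ, a * rexp δ < 1 ∧ 0 < δ := by
      have : Tendsto (fun δ => a * rexp δ) (𝓝[>] 0) (𝓝 (a * rexp 0)) :=
        ((by fun_prop : Continuous fun δ => a * rexp δ).tendsto 0).mono_left nhdsWithin_le_nhds
      rw [Real.exp_zero, mul_one] at this
      exact ((this.eventually (gt_mem_nhds ha)).and self_mem_nhdsWithin).exists
    filter_upwards [(window hδ).eventually
      (lt_mem_nhds (show δ * (a * rexp δ) < δ from mul_lt_of_lt_one_right hδ hδ1))] with u hu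
    have h1 : ∫ v in (u - δ)..u, r v ≤ ∫ _ in (u - δ)..u, r u * rexp δ := by
      refine intervalIntegral.integral_mono_on (by linarith) (hi _ _) intervalIntegrable_const
        (fun x hx => (r_mono hx.2).trans ?_)
      exact mul_le_mul_of_nonneg_left (Real.exp_le_exp.mpr (by linarith [hx.1])) (r_nonneg u)
    rw [intervalIntegral.integral_const, smul_eq_mul, show u - (u - δ) = δ by ring] at h1
    exact lt_of_mul_lt_mul_right (lt_of_mul_lt_mul_left (hu.trans_le h1) hδ.le) (Real.exp_pos δ).le
  · intro a ha
    obtain ⟨δ, hδ1, hδ⟩ : ∃ δ, 1 < a * rexp (-δ) ∧ 0 < δ := by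
      have : Tendsto (fun δ => a * rexp (-δ)) (𝓝[>] 0) (𝓝 (a * rexp (-0))) :=
        ((by fun_prop : Continuous fun δ => a * rexp (-δ)).tendsto 0).mono_left nhdsWithin_le_nhds
      rw [neg_zero, Real.exp_zero, mul_one] at this
      exact ((this.eventually (lt_mem_nhds ha)).and self_mem_nhdsWithin).exists
    filter_upwards [((window hδ).comp (tendsto_atTop_add_const_right _ δ tendsto_id)).eventually
      (gt_mem_nhds (show δ < δ * (a * rexp (-δ)) from lt_mul_of_one_lt_right hδ hδ1))] with u hu
    simp only [Function.comp, id, add_sub_cancel_right] at hu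
    have h1 : ∫ _ in u..(u + δ), r u * rexp (-δ) ≤ ∫ v in u..(u + δ), r v := by
      refine intervalIntegral.integral_mono_on (by linarith) intervalIntegrable_const (hi _ _)
        (fun x hx => ?_)
      have h2 := mul_le_mul_of_nonneg_right (r_mono hx.1) (Real.exp_pos (-δ)).le
      rw [mul_assoc, ← Real.exp_add] at h2
      refine h2.trans (mul_le_of_le_one_right (r_nonneg x) ?_)
      exact Real.exp_le_one_iff.mpr (by linarith [hx.2])
    rw [intervalIntegral.integral_const, smul_eq_mul, show u + δ - u = δ by ring] at h1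
    exact lt_of_mul_lt_mul_right (lt_of_mul_lt_mul_left (h1.trans_lt hu) hδ.le)
      (Real.exp_pos (-δ)).le

end PNT

theorem pnt : PNTStmt := by
  refine (PNT.r_tendsto.comp Real.tendsto_log_atTop).congr' ?_
  filter_upwards [eventually_gt_atTop 0] with x hx
  rw [Function.comp, PNT.r, Real.exp_neg, Real.exp_log hx, div_eq_mul_inv]

end Pool.Agent.MP_39a890_nt
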