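import Mathlib.Topology.Sheaves.Presheaf
import Mathlib.Analysis.SumIntegralComparisons
import Mathlib.RingTheory.PiTensorProduct
import Pool.Agent.MP_39a890_nt.Spec
import Pool.Agent.MP_db1c88_nt.ZetaBound

/-! Module SW, part a: upper bounds for `L`-functions of periodic functions near `Re s = 1`. -/

namespace Pool.Agent.MP_39a890_nt.SW

open Finset Filter Topology Complex Pool.Agent.MP_db1c88_nt

theorem tail_sum {x0 x : ℝ} (h0 : 0 < x0) (hx : 0 < x) (n : ℕ) :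
    ∑ k ∈ range n, (x0 + ((k + 1 : ℕ) : ℝ)) ^ (-(1 + x)) ≤ x0 ^ (-x) / x := by
  have h1 : AntitoneOn (fun t : ℝ => t ^ (-(1 + x))) (Set.Icc x0 (x0 + n)) := fun a ha b _ hab =>
    Real.rpow_le_rpow_of_nonpos (h0.trans_le ha.1) hab (by linarith)
  refine h1.sum_le_integral.trans ?_
  have hn : (0 : ℝ) ≤ n := n.cast_nonneg
  rw [integral_rpow (Or.inr ⟨by linarith, by
    rw [Set.uIcc_of_le (by linarith)]
    exact fun h => h0.not_ge h.1⟩), show -(1 + x) + 1 = -x by ring, div_neg, ← neg_div, neg_sub]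
  have : 0 ≤ (x0 + n) ^ (-x) := by positivity
  gcongr
  linarith

theorem full_sum {x : ℝ} (hx : 0 < x) (n : ℕ) :
    ∑ k ∈ range n, ((k : ℝ) + 1) ^ (-(1 + x)) ≤ 1 + 1 / x := by
  rcases n with _ | n
  · simp only [range_zero, sum_empty]; positivity
  · rw [sum_range_succ']
    have := tail_sum one_pos hx n
    simp only [Real.one_rpow, Nat.cast_zero, zero_add] at this ⊢
    rw [add_comm]
    gcongr
    refine le_of_eq_of_le (sum_congr rfl fun k _ => ?_) this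
    rw [add_comm]

theorem summable_w {x : ℝ} (hx : 0 < x) : Summable fun k : ℕ => ((k : ℝ) + 1) ^ (-(1 + x)) :=
  summable_of_sum_range_le (fun _ => by positivity) (full_sum hx)

/-- `(k + 1) ^ (-s)` -/
noncomputable def w (k : ℕ) (s : ℂ) : ℂ := (((k : ℝ) + 1 : ℝ) : ℂ) ^ (-s)

theorem norm_w (k : ℕ) (s : ℂ) : ‖w k s‖ = ((k : ℝ) + 1) ^ (-s.re) := by
  rw [w, norm_cpow_eq_rpow_re_of_pos (by positivity), neg_re]

theorem norm_w_sub (k : ℕ) {s : ℂ} (hs : 0 ≤ s.re) :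
    ‖w k s - w (k + 1) s‖ ≤ ‖s‖ * ((k : ℝ) + 1) ^ (-(1 + s.re)) := by
  have hm : (0 : ℝ) < (k : ℝ) + 1 := by positivity
  have := norm_image_sub_le_of_norm_deriv_le_segment' (a := (k : ℝ) + 1) (b := (k : ℝ) + 1 + 1)
    (f := fun y : ℝ => (y : ℂ) ^ (-s)) (f' := fun y : ℝ => -s * (y : ℂ) ^ (-s - 1))
    (C := ‖s‖ * ((k : ℝ) + 1) ^ (-(1 + s.re)))
    (fun y hy => (hasDerivAt_real_cpow (by linarith [hy.1]) _).hasDerivWithinAt)
    (fun y hy => by
      have hy0 : 0 < y := by linarith [hy.1]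
      rw [norm_mul, norm_neg, norm_cpow_eq_rpow_re_of_pos hy0,
        show (-s - 1).re = -(1 + s.re) by simp; ring]
      exact mul_le_mul_of_nonneg_left (Real.rpow_le_rpow_of_nonpos hm hy.1 (by linarith))
        (norm_nonneg _)) _ ⟨by linarith, le_rfl⟩
  rw [add_sub_cancel_left, mul_one, norm_sub_rev] at this
  simpa [w] using this

theorem differentiable_w (k : ℕ) : Differentiable ℂ (w k) := fun _ =>
  DifferentiableAt.const_cpow (by fun_prop)
    (Or.inl (by exact_mod_cast (by positivity : ((k : ℝ) + 1) ≠ 0)))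

theorem abel (b : ℕ → ℂ) (s : ℂ) (n : ℕ) :
    ∑ k ∈ range n, (∑ j ∈ range (k + 1), b j) * (w k s - w (k + 1) s) =
      ∑ k ∈ range n, b k * w k s - (∑ j ∈ range n, b j) * w n s := by
  induction n with
  | zero => simp
  | succ n ih => rw [sum_range_succ, ih, sum_range_succ b, sum_range_succ _ n]; ring

theorem hasSum_w {a : ℕ → ℂ} {s : ℂ} (h : LSeriesSummable a s) :
    HasSum (fun k => a (k + 1) * w k s) (LSeries a s) := by
  have := (hasSum_nat_add_iff' 1).2 h.hasSum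
  simp only [range_one, sum_singleton, LSeries.term_zero, sub_zero] at this
  refine this.congr_fun ?_ |>.trans_eq rfl
  intro k
  rw [LSeries.term_of_ne_zero k.succ_ne_zero, w, cpow_neg, div_eq_mul_inv]
  push_cast
  rfl

section Periodic

variable {f : ℕ} [NeZero f] {Φ : ZMod f → ℂ}

theorem sum_period (Φ : ZMod f → ℂ) (a : ℕ) :
    ∑ n ∈ range f, Φ ((n + a : ℕ) : ZMod f) = ∑ x : ZMod f, Φ x := by
  rw [← Equiv.sum_comp (Equiv.addRight (a : ZMod f)) Φ]
  refine sum_nbij' (fun n => (n : ZMod f)) (fun x => x.val) (by simp)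
    (fun x _ => by simpa using ZMod.val_lt x) (fun n hn => ZMod.val_cast_of_lt (mem_range.1 hn))
    (by simp) fun n _ => by simp

theorem partial_le (h0 : ∑ x, Φ x = 0) (h2 : ∀ x, ‖Φ x‖ ≤ 2) (n : ℕ) :
    ‖∑ j ∈ range n, Φ ((j + 1 : ℕ) : ZMod f)‖ ≤ 2 * f := by
  induction n using Nat.strong_induction_on with
  | _ n ih =>
    by_cases h : n < f
    · refine (norm_sum_le _ _).trans ((sum_le_card_nsmul _ _ _ fun j _ => h2 _).trans ?_)
      have : (n : ℝ) ≤ f := by exact_mod_cast h.le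
      simp only [card_range, nsmul_eq_mul]
      linarith
    · obtain ⟨m, rfl⟩ := Nat.exists_eq_add_of_le' (not_lt.1 h)
      have hf := NeZero.pos f
      rw [sum_range_add]
      have := sum_period Φ (m + 1)
      rw [h0] at this
      rw [show ∑ x ∈ range f, Φ ((m + x + 1 : ℕ) : ZMod f) = 0 from
        (sum_congr rfl fun x _ => by rw [show m + x + 1 = x + (m + 1) by ring]).trans this,
        add_zero]
      exact ih m (by omega)

/-- the terms of the series obtained by partial summation -/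
noncomputable def trm (Φ : ZMod f → ℂ) (k : ℕ) (s : ℂ) : ℂ :=
  (∑ j ∈ range (k + 1), Φ ((j + 1 : ℕ) : ZMod f)) * (w k s - w (k + 1) s)

theorem norm_trm (h0 : ∑ x, Φ x = 0) (h2 : ∀ x, ‖Φ x‖ ≤ 2) (k : ℕ) {s : ℂ} (hs : 0 ≤ s.re) :
    ‖trm Φ k s‖ ≤ 2 * f * ‖s‖ * ((k : ℝ) + 1) ^ (-(1 + s.re)) := by
  rw [trm, norm_mul, mul_assoc (2 * (f : ℝ))]
  exact mul_le_mul (partial_le h0 h2 _) (norm_w_sub k hs) (norm_nonneg _) (by positivity)

theorem summable_trm (h0 : ∑ x, Φ x = 0) (h2 : ∀ x, ‖Φ x‖ ≤ 2) {s : ℂ} (hs : 0 < s.re) :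
    Summable fun k => trm Φ k s :=
  .of_norm_bounded ((summable_w hs).mul_left _) fun k => norm_trm h0 h2 k hs.le

theorem L_eq_of_one_lt (h0 : ∑ x, Φ x = 0) (h2 : ∀ x, ‖Φ x‖ ≤ 2) {s : ℂ} (hs : 1 < s.re) :
    ZMod.LFunction Φ s = ∑' k, trm Φ k s := by
  rw [ZMod.LFunction_eq_LSeries Φ hs]
  refine tendsto_nhds_unique ?_ (summable_trm h0 h2 (by linarith)).hasSum.tendsto_sum_nat
  simp only [trm, abel]
  rw [← sub_zero (LSeries _ s)]
  refine (hasSum_w (ZMod.LSeriesSummable_of_one_lt_re Φ hs)).tendsto_sum_nat.sub ?_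
  have h1 : Tendsto (fun n : ℕ => 2 * (f : ℝ) * ((n : ℝ) + 1) ^ (-s.re)) atTop (𝓝 (2 * f * 0)) :=
    ((tendsto_rpow_neg_atTop (by linarith)).comp
      (tendsto_atTop_add_const_right atTop 1 tendsto_natCast_atTop_atTop)).const_mul _
  rw [mul_zero] at h1
  refine squeeze_zero_norm (fun n => ?_) h1
  rw [norm_mul, norm_w]
  exact mul_le_mul_of_nonneg_right (partial_le h0 h2 n) (by positivity)

theorem L_eq (h0 : ∑ x, Φ x = 0) (h2 : ∀ x, ‖Φ x‖ ≤ 2) {s : ℂ} (hs : 1 / 2 ≤ s.re) :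
    ZMod.LFunction Φ s = ∑' k, trm Φ k s := by
  set R := ‖s‖ + 3 with hR
  set U : Set ℂ := {z | 1 / 4 < z.re} ∩ Metric.ball 0 R with hU
  have hUo : IsOpen U := (isOpen_lt continuous_const continuous_re).inter Metric.isOpen_ball
  have hUc : IsPreconnected U :=
    ((convex_halfSpace_re_gt _).inter (convex_ball _ _)).isPreconnected
  have hd : DifferentiableOn ℂ (fun z => ∑' k, trm Φ k z) U := by
    refine differentiableOn_tsum_of_summable_norm
      ((summable_w (x := 1 / 4) (by norm_num)).mul_left (2 * f * R))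
      (fun k => (((differentiable_w k).sub (differentiable_w _)).const_mul _).differentiableOn)
      hUo fun k z hz => ?_
    have hz1 : 1 / 4 < z.re := hz.1
    refine (norm_trm h0 h2 k (by linarith)).trans ?_
    have h1 : ‖z‖ ≤ R := (mem_ball_zero_iff.1 hz.2).le
    have h3 : (1 : ℝ) ≤ (k : ℝ) + 1 := by linarith [k.cast_nonneg (α := ℝ)]
    gcongr
  have h3 : (2 : ℂ) ∈ U := by
    refine ⟨by norm_num, ?_⟩
    have := norm_nonneg s
    simp; linarith
  have hev : ZMod.LFunction Φ =ᶠ[𝓝 2] fun z => ∑' k, trm Φ k z := by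
    have : {z : ℂ | 1 < z.re} ∈ 𝓝 (2 : ℂ) :=
      (isOpen_lt continuous_const continuous_re).mem_nhds (by norm_num)
    filter_upwards [this] with z hz using L_eq_of_one_lt h0 h2 hz
  exact ((ZMod.differentiable_LFunction_of_sum_zero h0).differentiableOn.analyticOnNhd
    hUo).eqOn_of_preconnected_of_eventuallyEq (hd.analyticOnNhd hUo) hUc h3 hev
    ⟨by simp only [Set.mem_ofPred_eq]; linarith, by simp [hR]⟩

end Periodic

theorem rpow_le_exp {N ℓ x a : ℝ} (hx : 0 < x) (hxN : x ≤ N) (hℓ : Real.log N ≤ ℓ) (h : 0 < ℓ)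
    (ha : 0 ≤ a) : x ^ (a / ℓ) ≤ Real.exp a := by
  rw [Real.rpow_def_of_pos hx, Real.exp_le_exp]
  have := (Real.log_le_log hx hxN).trans hℓ
  calc Real.log x * (a / ℓ) ≤ ℓ * (a / ℓ) := by gcongr
    _ = a := by field_simp

theorem head_le {N : ℕ} {ℓ : ℝ} (hℓ : Real.log N ≤ ℓ) (h2 : 2 ≤ ℓ) {s : ℂ}
    (hs : 1 - 1 / ℓ ≤ s.re) : ∑ k ∈ range N, ‖w k s‖ ≤ 12 * ℓ := by
  have hl : 0 < ℓ := by linarith
  have he : Real.exp 2 ≤ 8 := by
    have := Real.exp_one_lt_d9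
    have h := Real.exp_pos 1
    rw [show (2 : ℝ) = 1 + 1 by norm_num, Real.exp_add]
    nlinarith
  calc ∑ k ∈ range N, ‖w k s‖ ≤ ∑ k ∈ range N, 8 * ((k : ℝ) + 1) ^ (-(1 + 1 / ℓ)) := by
        refine sum_le_sum fun k hk => ?_
        have h3 : (1 : ℝ) ≤ (k : ℝ) + 1 := by linarith [k.cast_nonneg (α := ℝ)]
        have h4 : (k : ℝ) + 1 ≤ N := by exact_mod_cast mem_range.1 hk
        rw [norm_w]
        calc ((k : ℝ) + 1) ^ (-s.re) ≤ ((k : ℝ) + 1) ^ (2 / ℓ + -(1 + 1 / ℓ)) := by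
              refine Real.rpow_le_rpow_of_exponent_le h3 ?_
              rw [show 2 / ℓ = 1 / ℓ + 1 / ℓ by ring]
              linarith
          _ ≤ _ := by
              rw [Real.rpow_add (by linarith)]
              gcongr
              exact (rpow_le_exp (by linarith) h4 hℓ hl zero_le_two).trans he
    _ ≤ 8 * (1 + 1 / (1 / ℓ)) := by
        rw [← mul_sum]
        gcongr
        exact full_sum (by positivity) N
    _ ≤ 12 * ℓ := by rw [one_div_one_div]; linarith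

theorem tail_le {u : ℕ → ℂ} {K x : ℝ} (hK : 0 ≤ K) (hx : 0 < x) {N : ℕ} (hN : 0 < N)
    (h : ∀ k, ‖u k‖ ≤ K * ((k : ℝ) + 1) ^ (-(1 + x))) :
    ‖∑' k, u (k + N)‖ ≤ K * ((N : ℝ) ^ (-x) / x) := by
  have hs : Summable fun k : ℕ => K * (((k + N : ℕ) : ℝ) + 1) ^ (-(1 + x)) :=
    ((summable_nat_add_iff N).2 (summable_w hx)).mul_left K
  refine (tsum_of_norm_bounded hs.hasSum fun k => h _).trans ?_
  refine hs.tsum_le_of_sum_range_le fun n => ?_
  rw [← mul_sum]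
  gcongr
  refine le_of_eq_of_le (sum_congr rfl fun k _ => ?_) (tail_sum (by exact_mod_cast hN) hx n)
  push_cast
  ring_nf

theorem norm_L_le {f : ℕ} [NeZero f] {Φ : ZMod f → ℂ} (h0 : ∑ x, Φ x = 0) (h2 : ∀ x, ‖Φ x‖ ≤ 2)
    {N : ℕ} {ℓ : ℝ} (hℓ : Real.log N ≤ ℓ) (hl2 : 2 ≤ ℓ) {s : ℂ} (hs : 1 - 1 / ℓ ≤ s.re)
    (hN : 2 * f * (‖s‖ + 1) ≤ N) : ‖ZMod.LFunction Φ s‖ ≤ 27 * ℓ := by
  have hl : 0 < ℓ := by linarith
  have h1 : 1 / ℓ ≤ 1 / 2 := one_div_le_one_div_of_le two_pos hl2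
  have hs2 : 1 / 2 ≤ s.re := by linarith
  have hf : (0 : ℝ) < f := by exact_mod_cast NeZero.pos f
  have hN0 : (0 : ℝ) < N := lt_of_lt_of_le (by positivity) hN
  have hN1 : (1 : ℝ) ≤ N := by exact_mod_cast (show 0 < N by exact_mod_cast hN0)
  have hp : (N : ℝ) ^ (-s.re) ≤ 3 / N := by
    calc (N : ℝ) ^ (-s.re) ≤ (N : ℝ) ^ (1 / ℓ + -1) :=
          Real.rpow_le_rpow_of_exponent_le hN1 (by linarith)
      _ ≤ 3 / N := by
          rw [Real.rpow_add hN0, Real.rpow_neg_one, div_eq_mul_inv 3]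
          gcongr
          exact (rpow_le_exp hN0 le_rfl hℓ hl zero_le_one).trans
            (Real.exp_one_lt_d9.le.trans (by norm_num))
  rw [L_eq h0 h2 hs2, ← (summable_trm h0 h2 (by linarith)).sum_add_tsum_nat_add N]
  have a1 := tail_le (by positivity) (by linarith : 0 < s.re) (by exact_mod_cast hN0 : 0 < N)
    fun k => norm_trm h0 h2 k (s := s) (by linarith)
  have a2 : ‖∑ k ∈ range N, Φ ((k + 1 : ℕ) : ZMod f) * w k s‖ ≤ 2 * (12 * ℓ) := by
    refine (norm_sum_le _ _).trans ((sum_le_sum fun k _ => (norm_mul_le _ _).trans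
      (mul_le_mul_of_nonneg_right (h2 _) (norm_nonneg _))).trans ?_)
    rw [← mul_sum]
    gcongr
    exact head_le hℓ hl2 hs
  have a3 : ‖(∑ j ∈ range N, Φ ((j + 1 : ℕ) : ZMod f)) * w N s‖ ≤ 2 * f * (3 / N) := by
    rw [norm_mul, norm_w]
    refine mul_le_mul (partial_le h0 h2 N) (le_trans ?_ hp) (by positivity) (by positivity)
    exact Real.rpow_le_rpow_of_nonpos hN0 (by linarith) (by linarith)
  have a4 : (N : ℝ) ^ (-s.re) / s.re ≤ 2 * (3 / N) := by
    rw [div_le_iff₀ (by linarith)]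
    have : 0 ≤ 3 / (N : ℝ) := by positivity
    nlinarith
  have a5 : 2 * f * (‖s‖ + 1) * (6 / N) ≤ 6 := by
    rw [mul_div_assoc', div_le_iff₀ hN0]
    linarith
  have a6 := mul_le_mul_of_nonneg_left a4 (by positivity : 0 ≤ 2 * (f : ℝ) * ‖s‖)
  have a7 : 0 ≤ (f : ℝ) * (3 / N) := by positivity
  refine (norm_add_le _ _).trans ?_
  simp only [trm, abel] at a1 ⊢
  have a8 := norm_sub_le (∑ k ∈ range N, Φ ((k + 1 : ℕ) : ZMod f) * w k s)
    ((∑ j ∈ range N, Φ ((j + 1 : ℕ) : ZMod f)) * w N s)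
  have e : (6 : ℝ) / N = 2 * (3 / N) := by ring
  rw [e] at a5
  nlinarith

theorem norm_zeta_le {N : ℕ} {ℓ : ℝ} (hℓ : Real.log N ≤ ℓ) (hl2 : 2 ≤ ℓ) {s : ℂ} (hs : 1 < s.re)
    (hN : ‖s‖ ≤ N) : ‖riemannZeta s‖ ≤ 13 * ℓ + 1 / ‖s - 1‖ := by
  have hs1 : s ≠ 1 := fun h => by simp [h] at hs
  have hn : 0 < ‖s - 1‖ := norm_pos_iff.2 (sub_ne_zero.2 hs1)
  have hN0 : (0 : ℝ) < N := lt_of_lt_of_le (by linarith [re_le_norm s]) hN
  have hb : ∀ k, ‖zterm k s‖ ≤ ‖s - 1‖ * ‖s‖ * ((k : ℝ) + 1) ^ (-(1 + 1 : ℝ)) := fun k => by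
    rw [Real.rpow_neg (by positivity), ← one_div]
    exact norm_zterm_le k zero_le_one hs.le
  have hsum : Summable fun n => zterm n s :=
    .of_norm_bounded ((summable_w one_pos).mul_left _) hb
  have hpart : ∑ n ∈ range N, zterm n s =
      (s - 1) * ∑ n ∈ range N, w n s - 1 + (((N : ℝ) + 1 : ℝ) : ℂ) ^ (1 - s) := by
    clear hℓ hN hN0
    induction N with
    | zero => simp
    | succ N ih =>
      rw [sum_range_succ, sum_range_succ, ih, zterm, w]
      push_cast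
      ring
  have a1 := tail_le (by positivity) one_pos (by exact_mod_cast hN0 : 0 < N) hb
  have a2 : ‖∑ n ∈ range N, w n s‖ ≤ 12 * ℓ := (norm_sum_le _ _).trans
    (head_le hℓ hl2 (by have : 0 < 1 / ℓ := by positivity
                        linarith))
  have a3 : ‖(((N : ℝ) + 1 : ℝ) : ℂ) ^ (1 - s)‖ ≤ 1 := by
    rw [norm_cpow_eq_rpow_re_of_pos (by positivity)]
    exact Real.rpow_le_one_of_one_le_of_nonpos (by linarith) (by simp; linarith)
  have a4 : ‖s‖ * ((N : ℝ) ^ (-1 : ℝ) / 1) ≤ 1 := by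
    rw [Real.rpow_neg_one, div_one, ← div_eq_mul_inv, div_le_one hN0]
    exact hN
  rw [riemannZeta_eq_inv_sub_mul hs1, zeta1_eq_of_one_lt hs, ← hsum.sum_add_tsum_nat_add N, hpart,
    norm_mul, norm_inv, inv_mul_le_iff₀ hn, mul_add, mul_one_div_cancel hn.ne']
  have a5 := norm_add₃_le (a := (s - 1) * ∑ n ∈ range N, w n s)
    (b := (((N : ℝ) + 1 : ℝ) : ℂ) ^ (1 - s)) (c := ∑' k, zterm (k + N) s)
  rw [norm_mul] at a5
  refine le_of_eq_of_le (congrArg _ (by ring)) (a5.trans ?_)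
  rw [mul_assoc] at a1
  nlinarith [mul_le_mul_of_nonneg_left a4 hn.le, mul_le_mul_of_nonneg_left a2 hn.le]

theorem norm_L_one_le {f : ℕ} [NeZero f] {N : ℕ} {ℓ : ℝ} (hℓ : Real.log N ≤ ℓ) (hl2 : 2 ≤ ℓ)
    {s : ℂ} (hs : 1 < s.re) (hN : 2 * f * (‖s‖ + 1) ≤ N) :
    ‖DirichletCharacter.LFunction (1 : DirichletCharacter ℂ f) s‖ ≤ 40 * ℓ + 1 / ‖s - 1‖ := by
  have hf : (1 : ℝ) ≤ f := by exact_mod_cast NeZero.pos f
  set m : ℂ := (∑ x, (1 : DirichletCharacter ℂ f) x) / f with hm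
  have hm1 : ‖m‖ ≤ 1 := by
    rw [hm, norm_div, norm_natCast, div_le_one (by linarith)]
    refine (norm_sum_le _ _).trans ((sum_le_card_nsmul _ _ 1 fun j _ =>
      DirichletCharacter.norm_le_one _ _).trans ?_)
    simp
  have h0 : ∑ x, ((1 : DirichletCharacter ℂ f) x - m) = 0 := by
    have : (f : ℂ) ≠ 0 := by exact_mod_cast NeZero.ne f
    rw [sum_sub_distrib, sum_const, card_univ, ZMod.card, nsmul_eq_mul, hm]
    field_simp
    ring
  have a1 := norm_L_le h0 (fun x => (norm_sub_le _ _).trans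
    (by linarith [DirichletCharacter.norm_le_one (1 : DirichletCharacter ℂ f) x])) hℓ hl2
    (s := s) (by have : 0 < 1 / ℓ := by positivity
                 linarith) hN
  have a2 := norm_zeta_le hℓ hl2 hs (by nlinarith [norm_nonneg s])
  have e : DirichletCharacter.LFunction (1 : DirichletCharacter ℂ f) s =
      ZMod.LFunction (fun x => (1 : DirichletCharacter ℂ f) x - m) s + m * riemannZeta s := by
    rw [DirichletCharacter.LFunction_eq_LSeries _ hs, ZMod.LFunction_eq_LSeries _ hs,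
      ← LSeries_one_eq_riemannZeta hs]
    have b1 := hasSum_w (DirichletCharacter.LSeriesSummable_of_one_lt_re
      (1 : DirichletCharacter ℂ f) hs)
    have b2 := hasSum_w (ZMod.LSeriesSummable_of_one_lt_re
      (fun x => (1 : DirichletCharacter ℂ f) x - m) hs)
    have b3 := (hasSum_w (LSeriesSummable_one_iff.2 hs)).mul_left m
    refine b1.unique ?_
    convert b2.add b3 using 2 with k
    simp only [Pi.one_apply]
    ring
  rw [e]
  refine (norm_add_le _ _).trans ?_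
  rw [norm_mul]
  nlinarith [norm_nonneg (riemannZeta s), norm_nonneg m]

end Pool.Agent.MP_39a890_nt.SW
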