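import Mathlib.Data.FunLike.Fintype
import Mathlib.NumberTheory.LSeries.Nonvanishing
import Pool.Agent.MP_39a890_nt.SWa
import Mathlib.Tactic.Monotonicity.Lemmas
import Mathlib.Combinatorics.SimpleGraph.Basic
import Mathlib.Analysis.MellinInversion

-- ======== part 0: formerly Pool.Agent.MP_39a890_nt.SWb
section MrgPart0

/-! Module SW, part b: lower bounds for `L(s, χ)` near `Re s = 1` (the 3-4-1 inequality). -/

namespace Pool.Agent.MP_39a890_nt.SW

open Finset Filter Topology Complex DirichletCharacter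

section

variable {f : ℕ} [NeZero f] {χ : DirichletCharacter ℂ f} {M T : ℝ}

theorem deriv_le (hχ : χ ≠ 1) (hM : 3 ≤ M)
    (hU : ∀ s : ℂ, 1 - 2 / M ≤ s.re → s.re ≤ 3 → |s.im| ≤ 2 * T + 1 → ‖LFunction χ s‖ ≤ M)
    {s : ℂ} (h1 : 1 - 1 / M ≤ s.re) (h2 : s.re ≤ 2) (h3 : |s.im| ≤ 2 * T) :
    ‖deriv (LFunction χ) s‖ ≤ M ^ 2 := by
  have hM0 : 0 < M := by linarith
  have h4 : 1 / M ≤ 1 := by rw [div_le_one hM0]; linarith
  have := norm_deriv_le_of_forall_mem_sphere_norm_le (c := s) (R := 1 / M) (C := M)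
    (by positivity) (differentiable_LFunction hχ).diffContOnCl fun z hz => by
      have hz' : ‖z - s‖ = 1 / M := mem_sphere_iff_norm.1 hz
      have a1 := abs_le.1 ((abs_re_le_norm (z - s)).trans hz'.le)
      have a2 := abs_le.1 ((abs_im_le_norm (z - s)).trans hz'.le)
      have a3 := abs_le.1 h3
      rw [sub_re] at a1
      rw [sub_im] at a2
      refine hU z ?_ (by linarith [a1.2]) (abs_le.2 ⟨by linarith [a2.1], by linarith [a2.2]⟩)
      rw [show 2 / M = 1 / M + 1 / M by ring]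
      linarith [a1.1]
  rwa [div_div_eq_mul_div, div_one, ← sq] at this

theorem lip (hχ : χ ≠ 1) (hM : 3 ≤ M)
    (hU : ∀ s : ℂ, 1 - 2 / M ≤ s.re → s.re ≤ 3 → |s.im| ≤ 2 * T + 1 → ‖LFunction χ s‖ ≤ M)
    {s z : ℂ} (h1 : 1 - 1 / M ≤ s.re) (h2 : s.re ≤ 2) (h3 : |s.im| ≤ 2 * T)
    (k1 : 1 - 1 / M ≤ z.re) (k2 : z.re ≤ 2) (k3 : |z.im| ≤ 2 * T) :
    ‖LFunction χ z‖ - M ^ 2 * ‖z - s‖ ≤ ‖LFunction χ s‖ := by
  have hc : Convex ℝ (Set.Icc (1 - 1 / M) 2 ×ℂ Set.Icc (-(2 * T)) (2 * T)) :=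
    ((convex_Icc _ _).is_linear_preimage reLm.isLinear).inter
      ((convex_Icc _ _).is_linear_preimage imLm.isLinear)
  have := hc.norm_image_sub_le_of_norm_deriv_le (f := LFunction χ) (C := M ^ 2) (x := s) (y := z)
    (fun x _ => differentiable_LFunction hχ x)
    (fun x hx => deriv_le hχ hM hU hx.1.1 hx.1.2 (abs_le.2 hx.2))
    ⟨⟨h1, h2⟩, abs_le.1 h3⟩ ⟨⟨k1, k2⟩, abs_le.1 k3⟩
  linarith [norm_sub_norm_le (LFunction χ z) (LFunction χ s)]

theorem lower (hχ : χ ≠ 1) (hM : 3 ≤ M) (hT : 0 ≤ T)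
    (hU : ∀ ψ : DirichletCharacter ℂ f, ψ ≠ 1 → ∀ s : ℂ, 1 - 2 / M ≤ s.re → s.re ≤ 3 →
      |s.im| ≤ 2 * T + 1 → ‖LFunction ψ s‖ ≤ M)
    (h0 : ∀ s : ℂ, 1 < s.re → s.re ≤ 3 → |s.im| ≤ 2 * T + 1 →
      ‖LFunction (1 : DirichletCharacter ℂ f) s‖ ≤ M + 1 / ‖s - 1‖)
    (h1 : χ ^ 2 = 1 → 1 / M ^ 3 ≤ ‖LFunction χ 1‖)
    {s : ℂ} (k1 : |s.re - 1| ≤ 1 / M ^ 20) (k3 : |s.im| ≤ T) :
    1 / M ^ 18 ≤ ‖LFunction χ s‖ := by
  have hM0 : 0 < M := by linarith
  have hM1 : 1 ≤ M := by linarith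
  set u := 1 / M with hu
  have hu0 : 0 < u := by positivity
  have hu3 : u ≤ 1 / 3 := one_div_le_one_div_of_le (by norm_num) hM
  have hu1 : u ≤ 1 := by linarith
  have huM : u * M = 1 := by rw [hu]; field_simp
  have e : ∀ n : ℕ, 1 / M ^ n = u ^ n := fun n => by rw [hu, one_div_pow]
  have hp : ∀ {m n : ℕ}, m ≤ n → u ^ n ≤ u ^ m := fun h => pow_le_pow_of_le_one hu0.le hu1 h
  rw [e] at k1 h1 ⊢
  have hη : u ^ 20 ≤ u := by simpa using hp (show 1 ≤ 20 by norm_num)
  have hη0 : 0 < u ^ 20 := by positivity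
  obtain ⟨k4, k5⟩ := abs_le.1 k1
  have k6 : |s.im| ≤ 2 * T := by linarith
  by_cases hc : χ ^ 2 = 1 ∧ |s.im| ≤ u ^ 5 / 4
  · have a1 := lip hχ hM (hU χ hχ) (s := s) (z := 1) (by linarith) (by linarith) k6
      (by simp only [one_re]; linarith) (by norm_num) (by simp only [one_im, abs_zero]; linarith)
    have a2 : ‖1 - s‖ ≤ u ^ 20 + u ^ 5 / 4 := by
      rw [norm_sub_rev]
      refine (norm_le_abs_re_add_abs_im _).trans ?_
      simp only [sub_re, one_re, sub_im, one_im, sub_zero]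
      linarith [hc.2]
    have a3 : u ^ 20 ≤ u ^ 5 / 4 := by
      have : u ^ 20 ≤ u ^ 5 * u ^ 2 := by rw [← pow_add]; exact hp (by norm_num)
      have h5 : 0 < u ^ 5 := by positivity
      have h6 : u ^ 2 ≤ 1 / 4 := by nlinarith
      nlinarith
    have a4 : M ^ 2 * ‖1 - s‖ ≤ u ^ 3 / 2 := by
      calc M ^ 2 * ‖1 - s‖ ≤ M ^ 2 * (u ^ 5 / 2) := by gcongr; linarith
        _ = (u * M) ^ 2 * u ^ 3 / 2 := by ring
        _ = u ^ 3 / 2 := by rw [huM]; ring
    have a5 : u ^ 18 ≤ u ^ 3 / 2 := by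
      have : u ^ 18 ≤ u ^ 3 * u := by rw [← pow_succ]; exact hp (by norm_num)
      have h5 : 0 < u ^ 3 := by positivity
      nlinarith
    linarith [h1 hc.1]
  have hP := norm_LFunction_product_ge_one χ hη0 s.im
  set z : ℂ := 1 + (u ^ 20 : ℝ) + I * s.im with hz
  have z1 : z.re = 1 + u ^ 20 := by simp [hz, -ofReal_pow]
  have z2 : z.im = s.im := by simp [hz, -ofReal_pow]
  have b0 : ‖LFunctionTrivChar f (1 + (u ^ 20 : ℝ))‖ ≤ 2 * M ^ 20 := by
    have := h0 (1 + (u ^ 20 : ℝ)) (by simp only [add_re, one_re, ofReal_re]; linarith)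
      (by simp only [add_re, one_re, ofReal_re]; linarith)
      (by simp only [add_im, one_im, ofReal_im, add_zero, abs_zero]; linarith)
    rw [add_sub_cancel_left, norm_real, Real.norm_of_nonneg hη0.le, ← e, one_div_one_div] at this
    have h : M ≤ M ^ 20 := le_self_pow₀ hM1 (by norm_num)
    rw [← e]
    linarith
  have b2 : ‖LFunction (χ ^ 2) (1 + (u ^ 20 : ℝ) + 2 * I * s.im)‖ ≤ M ^ 6 := by
    set v : ℂ := 1 + (u ^ 20 : ℝ) + 2 * I * s.im with hv
    have v1 : v.re = 1 + u ^ 20 := by simp [hv, -ofReal_pow]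
    have v2 : |v.im| = 2 * |s.im| := by simp [hv, -ofReal_pow, abs_mul]
    by_cases h2 : χ ^ 2 = 1
    · have c1 : u ^ 5 / 4 < |s.im| := not_le.1 fun h => hc ⟨h2, h⟩
      have c2 := h0 v (by linarith) (by linarith) (by linarith)
      have c3 : u ^ 5 / 2 ≤ ‖v - 1‖ := by
        refine le_trans ?_ (abs_im_le_norm _)
        rw [sub_im, one_im, sub_zero]
        linarith
      have c4 : 1 / ‖v - 1‖ ≤ 2 * M ^ 5 := by
        refine (one_div_le_one_div_of_le (by positivity) c3).trans_eq ?_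
        rw [← e]
        field_simp
      have c5 : M ≤ M ^ 5 := le_self_pow₀ hM1 (by norm_num)
      have c6 : 0 < M ^ 5 := by positivity
      rw [h2]
      nlinarith
    · have : 0 < 2 / M := by positivity
      exact (hU _ h2 v (by linarith) (by linarith) (by linarith)).trans
        (le_self_pow₀ hM1 (by norm_num))
  have b3 : u ^ 17 ≤ ‖LFunction χ z‖ := by
    refine le_of_pow_le_pow_left₀ (n := 4) (by norm_num) (norm_nonneg _) ?_
    rw [norm_mul, norm_mul, norm_pow, norm_pow] at hP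
    have c1 : 1 ≤ (2 * M ^ 20) ^ 3 * ‖LFunction χ z‖ ^ 4 * M ^ 6 := hP.le.trans (by gcongr)
    have c2 : (2 * M ^ 20) ^ 3 * ‖LFunction χ z‖ ^ 4 * M ^ 6 ≤
        M ^ 68 * ‖LFunction χ z‖ ^ 4 := by
      rw [show (2 * M ^ 20) ^ 3 * ‖LFunction χ z‖ ^ 4 * M ^ 6 =
        8 * M ^ 66 * ‖LFunction χ z‖ ^ 4 by ring, show M ^ 68 = M ^ 2 * M ^ 66 by ring]
      gcongr
      nlinarith
    rw [← pow_mul, ← e, div_le_iff₀ (by positivity), mul_comm]
    exact c1.trans c2
  have a1 := lip hχ hM (hU χ hχ) (s := s) (z := z) (by linarith) (by linarith) k6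
    (by linarith) (by linarith) (by rwa [z2])
  have a2 : ‖z - s‖ ≤ 2 * u ^ 20 := by
    refine (norm_le_abs_re_add_abs_im _).trans ?_
    rw [sub_re, sub_im, z1, z2, sub_self, abs_zero, add_zero]
    exact abs_le.2 ⟨by linarith, by linarith⟩
  have a4 : M ^ 2 * ‖z - s‖ ≤ 2 * u ^ 18 := by
    calc M ^ 2 * ‖z - s‖ ≤ M ^ 2 * (2 * u ^ 20) := by gcongr
      _ = (u * M) ^ 2 * (2 * u ^ 18) := by ring
      _ = _ := by rw [huM]; ring
  have a5 : 3 * u ^ 18 ≤ u ^ 17 := by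
    have h5 : 0 < u ^ 17 := by positivity
    nlinarith
  linarith

theorem logDeriv_le (hχ : χ ≠ 1) (hM : 3 ≤ M) (hT : 0 ≤ T)
    (hU : ∀ ψ : DirichletCharacter ℂ f, ψ ≠ 1 → ∀ s : ℂ, 1 - 2 / M ≤ s.re → s.re ≤ 3 →
      |s.im| ≤ 2 * T + 1 → ‖LFunction ψ s‖ ≤ M)
    (h0 : ∀ s : ℂ, 1 < s.re → s.re ≤ 3 → |s.im| ≤ 2 * T + 1 →
      ‖LFunction (1 : DirichletCharacter ℂ f) s‖ ≤ M + 1 / ‖s - 1‖)
    (h1 : χ ^ 2 = 1 → 1 / M ^ 3 ≤ ‖LFunction χ 1‖)
    {s : ℂ} (k1 : |s.re - 1| ≤ 1 / M ^ 20) (k3 : |s.im| ≤ T) :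
    LFunction χ s ≠ 0 ∧ ‖-deriv (LFunction χ) s / LFunction χ s‖ ≤ M ^ 20 := by
  have hM0 : 0 < M := by linarith
  have a1 := lower hχ hM hT hU h0 h1 k1 k3
  have a2 : 0 < ‖LFunction χ s‖ := lt_of_lt_of_le (by positivity) a1
  have a3 : 1 / M ^ 20 ≤ 1 / M :=
    one_div_le_one_div_of_le hM0 (le_self_pow₀ (by linarith) (by norm_num))
  have a4 : 1 / M ≤ 1 := by rw [div_le_one hM0]; linarith
  obtain ⟨k4, k5⟩ := abs_le.1 k1
  have a5 := deriv_le hχ hM (hU χ hχ) (s := s) (by linarith) (by linarith) (by linarith)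
  refine ⟨norm_pos_iff.1 a2, ?_⟩
  rw [norm_div, norm_neg]
  calc _ ≤ M ^ 2 / (1 / M ^ 18) := by gcongr
    _ = M ^ 20 := by field_simp

end

end Pool.Agent.MP_39a890_nt.SW

end MrgPart0

-- ======== part 1: formerly Pool.Agent.MP_39a890_nt.SWc
section MrgPart1

/-! Module SW, part c: Perron's formula for the Riesz mean and the contour shift. -/

namespace Pool.Agent.MP_39a890_nt.SW

open Finset Filter Topology Complex MeasureTheory

/-- the kernel `y ^ s / (s (s + 1))` -/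
noncomputable def ker (y : ℝ) (s : ℂ) : ℂ := (y : ℂ) ^ s / (s * (s + 1))

theorem norm_ker {y : ℝ} (hy : 0 < y) {s : ℂ} {r : ℝ} (hs : 0 ≤ s.re) (hr : 0 < r)
    (h : r ≤ ‖s‖ ^ 2) : ‖ker y s‖ ≤ y ^ s.re / r := by
  have h1 : ‖s‖ ≤ ‖s + 1‖ := by
    refine le_of_pow_le_pow_left₀ two_ne_zero (norm_nonneg _) ?_
    simp only [Complex.sq_norm, normSq_apply, add_re, add_im, one_re, one_im]
    nlinarith
  rw [ker, norm_div, norm_mul, norm_cpow_eq_rpow_re_of_pos hy]
  gcongr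
  nlinarith [norm_nonneg s]

theorem norm_ker_line {y : ℝ} (hy : 0 < y) {b : ℝ} (hb : 1 ≤ b) (t : ℝ) :
    ‖ker y (b + t * I)‖ ≤ y ^ b * (1 + t ^ 2)⁻¹ := by
  have := norm_ker hy (s := b + t * I) (r := 1 + t ^ 2) (by simp; linarith) (by positivity) (by
    rw [Complex.sq_norm, normSq_add_mul_I]
    nlinarith)
  simpa [div_eq_mul_inv] using this

theorem differentiableAt_ker {y : ℝ} (hy : 0 < y) {s : ℂ} (hs : 0 < s.re) :
    DifferentiableAt ℂ (ker y) s := by
  have h1 : s ≠ 0 := fun h => by simp [h] at hs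
  have h2 : s + 1 ≠ 0 := fun h => by
    have := congrArg re h
    simp at this
    linarith
  exact (differentiableAt_id.const_cpow (Or.inl (by exact_mod_cast hy.ne'))).div (by fun_prop)
    (mul_ne_zero h1 h2)

theorem integrable_ker {y : ℝ} (hy : 0 < y) {b : ℝ} (hb : 1 ≤ b) :
    Integrable fun t : ℝ => ker y (b + t * I) := by
  refine (integrable_inv_one_add_sq.const_mul (y ^ b)).mono' (Continuous.aestronglyMeasurable ?_)
    (ae_of_all _ (norm_ker_line hy hb))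
  refine continuous_iff_continuousAt.2 fun t => ?_
  exact ContinuousAt.comp (f := fun t : ℝ => (b : ℂ) + t * I)
    (differentiableAt_ker hy (by simp; linarith)).continuousAt (by fun_prop)

theorem hasMellin_max {s : ℂ} (hs : 0 < s.re) :
    HasMellin (fun u : ℝ => ((max (1 - u) 0 : ℝ) : ℂ)) s (ker 1 s) := by
  have h1 := hasMellin_one_Ioc hs
  have h2 := hasMellin_cpow_Ioc 1 (s := s) (by simp; linarith)
  have h3 := hasMellin_sub h1.1 h2.1
  have e : ∀ t ∈ Set.Ioi (0 : ℝ), (t : ℂ) ^ (s - 1) • (Set.indicator (Set.Ioc 0 1)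
      (fun _ => 1 : ℝ → ℂ) t - Set.indicator (Set.Ioc 0 1) (fun t => ↑t ^ (1 : ℂ) : ℝ → ℂ) t) =
      (t : ℂ) ^ (s - 1) • ((max (1 - t) 0 : ℝ) : ℂ) := fun t ht => by
    congr 1
    by_cases h : t ≤ 1
    · rw [Set.indicator_of_mem (Set.mem_Ioc.2 ⟨ht, h⟩), Set.indicator_of_mem
        (Set.mem_Ioc.2 ⟨ht, h⟩), max_eq_left (by linarith)]
      simp
    · rw [Set.indicator_of_notMem (fun k => h k.2), Set.indicator_of_notMem (fun k => h k.2),
        max_eq_right (by linarith)]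
      simp
  have k1 : s ≠ 0 := fun h => by simp [h] at hs
  have k2 : s + 1 ≠ 0 := fun h => by
    have := congrArg re h
    simp at this
    linarith
  refine ⟨IntegrableOn.congr_fun h3.1 e measurableSet_Ioi, ?_⟩
  rw [mellin, ← setIntegral_congr_fun measurableSet_Ioi e]
  refine h3.2.trans ?_
  rw [h1.2, h2.2, ker]
  simp only [ofReal_one, one_cpow]
  field_simp
  ring

theorem perron_one {x y b : ℝ} (hx : 0 < x) (hy : 0 < y) (hb : 1 ≤ b) :
    ∫ t : ℝ, ker y (b + t * I) / (x : ℂ) ^ (b + t * I : ℂ) =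
      2 * Real.pi * ((max (1 - x / y) 0 : ℝ) : ℂ) := by
  have hm : ∀ t : ℝ, mellin (fun u : ℝ => ((max (1 - u) 0 : ℝ) : ℂ)) (b + t * I) =
      ker 1 (b + t * I) := fun t => (hasMellin_max (by simp; linarith)).2
  have := mellinInv_mellin_eq b (fun u : ℝ => ((max (1 - u) 0 : ℝ) : ℂ)) (div_pos hx hy)
    (hasMellin_max (by simp; linarith)).1
    (by simpa only [VerticalIntegrable, hm] using integrable_ker one_pos hb) (by fun_prop)
  rw [← this, mellinInv]
  have hπ : (Real.pi : ℂ) ≠ 0 := by exact_mod_cast Real.pi_ne_zero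
  simp only [hm, real_smul, smul_eq_mul]
  rw [← mul_assoc, show (2 * Real.pi : ℂ) * ((1 / (2 * Real.pi) : ℝ) : ℂ) = 1 by
    push_cast; field_simp, one_mul]
  refine integral_congr_ae (ae_of_all _ fun t => ?_)
  simp only [ker, ofReal_one, one_cpow]
  rw [div_eq_mul_inv x, ofReal_mul, mul_cpow_ofReal_nonneg hx.le (by positivity), ofReal_inv,
    inv_cpow _ _ (by rw [arg_ofReal_of_nonneg hy.le]; exact Real.pi_ne_zero.symm), cpow_neg,
    cpow_neg, inv_inv]
  ring

theorem perron {a : ℕ → ℂ} {y b : ℝ} (hy : 0 < y) (hb : 1 ≤ b) (ha : LSeriesSummable a b) :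
    y * ∫ t : ℝ, LSeries a (b + t * I) * ker y (b + t * I) =
      2 * Real.pi * ∑ n ∈ Ioc 0 ⌊y⌋₊, a n * ((y : ℂ) - n) := by
  have hn : ∀ (n : ℕ) (t : ℝ), ‖LSeries.term a (b + t * I) n * ker y (b + t * I)‖ =
      ‖LSeries.term a b n‖ * ‖ker y (b + t * I)‖ := fun n t => by
    simp [LSeries.norm_term_eq]
  have hi : ∀ n : ℕ, Integrable fun t : ℝ => LSeries.term a (b + t * I) n * ker y (b + t * I) :=
    fun n => by
    refine (integrable_ker hy hb).bdd_mul (c := ‖LSeries.term a b n‖)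
      (Continuous.aestronglyMeasurable ?_) (ae_of_all _ fun t => ?_)
    · rcases eq_or_ne n 0 with rfl | h
      · simpa using continuous_const
      · simp only [LSeries.term_of_ne_zero h]
        have h' : (n : ℂ) ≠ 0 := by exact_mod_cast h
        exact continuous_const.div (Continuous.const_cpow (by fun_prop) (Or.inl h'))
          fun t => by simp [h]
    · simp [LSeries.norm_term_eq]
  have h1 := hasSum_integral_of_summable_integral_norm hi (by
    simp only [hn, integral_const_mul]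
    exact ha.norm.mul_right _)
  simp only [tsum_mul_right] at h1
  have h2 : ∀ n : ℕ, n ≠ 0 → ∫ t : ℝ, LSeries.term a (b + t * I) n * ker y (b + t * I) =
      a n * (2 * Real.pi * ((max (1 - n / y) 0 : ℝ) : ℂ)) := fun n h => by
    rw [← perron_one (by positivity) hy hb, ← integral_const_mul]
    refine integral_congr_ae (ae_of_all _ fun t => ?_)
    simp only [LSeries.term_of_ne_zero h, ofReal_natCast]
    ring
  have h3 := h1.unique (hasSum_sum_of_ne_finset_zero (s := Ioc 0 ⌊y⌋₊) fun n hn => by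
    rcases eq_or_ne n 0 with rfl | h
    · simp
    · have h4 : y < n := (Nat.floor_lt hy.le).1 (by simp only [mem_Ioc] at hn; omega)
      rw [h2 n h, max_eq_right (by rw [sub_nonpos, one_le_div hy]; exact h4.le)]
      simp)
  have hy' : (y : ℂ) ≠ 0 := by exact_mod_cast hy.ne'
  refine (congrArg _ h3).trans ?_
  rw [mul_sum, mul_sum]
  refine sum_congr rfl fun n hn => ?_
  have h4 : (n : ℝ) ≤ y := (Nat.le_floor_iff hy.le).1 (mem_Ioc.1 hn).2
  rw [h2 n (mem_Ioc.1 hn).1.ne', max_eq_left (by rw [sub_nonneg, div_le_one hy]; exact h4)]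
  push_cast
  field_simp

theorem arctan_tail {T : ℝ} (hT : 0 < T) : Real.pi / 2 - Real.arctan T ≤ 1 / T := by
  rw [← Real.arctan_inv_of_pos hT, one_div]
  have := Real.le_tan (Real.arctan_nonneg.2 (inv_pos.2 hT).le) (Real.arctan_lt_pi_div_two T⁻¹)
  rwa [Real.tan_arctan] at this

theorem truncate {F : ℝ → ℂ} {K T : ℝ} (hK : 0 ≤ K) (hT : 0 < T) (hc : Continuous F)
    (h : ∀ t, ‖F t‖ ≤ K * (1 + t ^ 2)⁻¹) : ‖∫ t, F t‖ ≤ ‖∫ t in -T..T, F t‖ + 2 * K / T := by
  have hg := integrable_inv_one_add_sq.const_mul K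
  have hi : Integrable F := hg.mono' hc.aestronglyMeasurable (ae_of_all _ h)
  have a1 : ‖∫ t in Set.Ioi T, F t‖ ≤ K * (1 / T) := by
    refine (norm_integral_le_of_norm_le hg.integrableOn (ae_of_all _ h)).trans ?_
    rw [integral_const_mul, integral_Ioi_inv_one_add_sq]
    gcongr
    exact arctan_tail hT
  have a2 : ‖∫ t in Set.Iic (-T), F t‖ ≤ K * (1 / T) := by
    refine (norm_integral_le_of_norm_le hg.integrableOn (ae_of_all _ h)).trans ?_
    rw [integral_const_mul, integral_Iic_inv_one_add_sq, Real.arctan_neg]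
    gcongr
    linarith [arctan_tail hT]
  rw [← intervalIntegral.integral_Iic_add_Ioi (b := -T) hi.integrableOn hi.integrableOn,
    ← intervalIntegral.integral_interval_add_Ioi (b := T) hi.integrableOn hi.integrableOn]
  have a3 := norm_add_le (∫ t in -T..T, F t) (∫ t in Set.Ioi T, F t)
  refine (norm_add_le _ _).trans ?_
  rw [show 2 * K / T = K * (1 / T) + K * (1 / T) by ring]
  linarith

theorem shift {H : ℂ → ℂ} {a b T K y : ℝ} (hy : 1 ≤ y) (ha : 1 / 2 ≤ a) (hab : a ≤ b)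
    (hb : b ≤ a + 1) (hT : 0 < T)
    (hd : ∀ s : ℂ, a ≤ s.re → s.re ≤ b → |s.im| ≤ T → DifferentiableAt ℂ H s ∧ ‖H s‖ ≤ K) :
    ‖∫ t in -T..T, H (b + t * I) * ker y (b + t * I)‖ ≤
      2 * (K * (y ^ b / T ^ 2)) + K * (y ^ a / (1 / 4)) * (2 * T) := by
  have hy0 : 0 < y := by linarith
  have hK : 0 ≤ K := (norm_nonneg _).trans (hd a (by simp) (by simpa) (by simpa using hT.le)).2
  have h := integral_boundary_rect_eq_zero_of_differentiableOn (fun s => H s * ker y s)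
    ⟨a, -T⟩ ⟨b, T⟩ fun s hs => by
      obtain ⟨h1, h2⟩ := hs
      simp only [Set.mem_preimage, Set.uIcc_of_le hab,
        Set.uIcc_of_le (show -T ≤ T by linarith)] at h1 h2
      exact ((hd s h1.1 h1.2 (abs_le.2 h2)).1.mul
        (differentiableAt_ker hy0 (by linarith [h1.1]))).differentiableWithinAt
  have h1 : ∀ v : ℝ, |v| = T →
      ‖∫ x in a..b, H (x + v * I) * ker y (x + v * I)‖ ≤ K * (y ^ b / T ^ 2) := fun v hv => by
    refine (intervalIntegral.norm_integral_le_of_norm_le_const (C := K * (y ^ b / T ^ 2))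
      fun x hx => ?_).trans (mul_le_of_le_one_right (by positivity) ?_)
    · rw [Set.uIoc_of_le hab] at hx
      have k := norm_ker hy0 (s := x + v * I) (r := T ^ 2) (by simp; linarith [hx.1])
        (by positivity) (by rw [Complex.sq_norm, normSq_add_mul_I, ← hv, sq_abs]; nlinarith)
      rw [norm_mul]
      refine mul_le_mul (hd _ (by simpa using hx.1.le) (by simpa using hx.2) (by simp [hv])).2
        (k.trans ?_) (norm_nonneg _) hK
      gcongr
      simpa using hx.2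
    · rw [abs_of_nonneg (by linarith)]
      linarith
  have h2 : ‖∫ t in -T..T, H (a + t * I) * ker y (a + t * I)‖ ≤
      K * (y ^ a / (1 / 4)) * (2 * T) := by
    refine (intervalIntegral.norm_integral_le_of_norm_le_const (C := K * (y ^ a / (1 / 4)))
      fun t ht => ?_).trans_eq ?_
    · rw [Set.uIoc_of_le (by linarith)] at ht
      have k := norm_ker hy0 (s := a + t * I) (r := 1 / 4) (by simp; linarith)
        (by positivity) (by rw [Complex.sq_norm, normSq_add_mul_I]; nlinarith)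
      rw [norm_mul]
      exact mul_le_mul (hd _ (by simp) (by simpa)
        (by simpa using abs_le.2 ⟨ht.1.le, ht.2⟩)).2 (by simpa using k) (norm_nonneg _) hK
    · rw [abs_of_nonneg (by linarith)]
      ring
  have h3 := h1 (-T) (by rw [abs_neg, abs_of_pos hT])
  have h4 := h1 T (abs_of_pos hT)
  simp only [smul_eq_mul] at h
  set p := ∫ x in a..b, H (x + (-T : ℝ) * I) * ker y (x + (-T : ℝ) * I)
  set q := ∫ x in a..b, H (x + T * I) * ker y (x + T * I)
  set r := ∫ t in -T..T, H (a + t * I) * ker y (a + t * I)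
  set u := ∫ t in -T..T, H (b + t * I) * ker y (b + t * I)
  have e : I * u = q - p + I * r := by linear_combination h
  have e2 : ‖u‖ = ‖q - p + I * r‖ := by rw [← e, norm_mul, norm_I, one_mul]
  have a1 := norm_add_le (q - p) (I * r)
  rw [norm_mul, norm_I, one_mul] at a1
  linarith [norm_sub_le q p]

end Pool.Agent.MP_39a890_nt.SW

end MrgPart1

-- marker of a merged file
example : 731051 + 326231 = 731051 + 326231 := rfl
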