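import Pool.Agent.MP_39a890_nt.Spec
import Mathlib.RingTheory.SimpleRing.Principal
import Mathlib.RingTheory.Henselian
import Mathlib.RingTheory.RegularLocalRing.Defs
import Mathlib.Tactic.Polynomial.Basic
import Mathlib.Algebra.Lie.OfAssociative
import Mathlib.RingTheory.Flat.TorsionFree
import Mathlib.RingTheory.PicardGroup
import Mathlib.FieldTheory.Finite.Extension
import Mathlib.Order.CompletePartialOrder
import Mathlib.NumberTheory.LegendreSymbol.QuadraticChar.Basic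
import Mathlib.Topology.UniformSpace.Uniformizable
import Mathlib.Analysis.Complex.ExponentialBounds
import Mathlib.Data.FunLike.Fintype
import Mathlib.NumberTheory.DirichletCharacter.Orthogonality
import Mathlib.Algebra.Order.Ring.Star
import Mathlib.Data.Nat.Squarefree
import Mathlib.NumberTheory.Harmonic.Bounds
import Mathlib.Tactic.Algebra.Basic

-- ======== part 0: formerly Pool.Agent.MP_39a890_nt.Spec2
section MrgPart0

/-!
# PROJECT E287: the one-dimensional sums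
-/

namespace Pool.Agent.MP_39a890_nt

open Finset Filter

/-- `pr` enumerates the primes up to `Y` that do not divide `W`. -/
structure PS {ι : Type} (pr : ι → ℕ) (W : ℕ) (Y : ℝ) : Prop where
  inj : Function.Injective pr
  prime : ∀ p, (pr p).Prime
  ndvd : ∀ p, ¬ pr p ∣ W
  le : ∀ p, (pr p : ℝ) ≤ Y
  full : ∀ q : ℕ, q.Prime → ¬ q ∣ W → (q : ℝ) ≤ Y → ∃ p, pr p = q

variable {ι : Type} [Fintype ι] [DecidableEq ι]

/-- the squarefree number given by a set of primes -/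
def val (pr : ι → ℕ) (u : Finset ι) : ℕ := ∏ p ∈ u, pr p

/-- its logarithm -/
noncomputable def lv (pr : ι → ℕ) (u : Finset ι) : ℝ := Real.log (val pr u)

/-- `1/(p-1)` -/
noncomputable def tt (pr : ι → ℕ) (p : ι) : ℝ := 1 / ((pr p : ℝ) - 1)

/-- `1/φ(u)` -/
noncomputable def wt (pr : ι → ℕ) (u : Finset ι) : ℝ := ∏ p ∈ u, tt pr p

/-- the one-dimensional Maynard weight -/
noncomputable def gw (pr : ι → ℕ) (p₀ J : ℕ) (l : ℝ) (u : Finset ι) : ℝ :=
  if ∀ p ∈ u, pr p ≠ p₀ then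
    ∑ j ∈ range (J + 1), if lv pr u ≤ 2 ^ j * l then (1 / 2 : ℝ) ^ (j + 1) else 0
  else 0

noncomputable def bet (pr : ι → ℕ) (p₀ J : ℕ) (l : ℝ) : ℝ := ∑ u, gw pr p₀ J l u * wt pr u

noncomputable def gam (pr : ι → ℕ) (p₀ J : ℕ) (l : ℝ) : ℝ := ∑ u, gw pr p₀ J l u ^ 2 * wt pr u

noncomputable def gam₁ (pr : ι → ℕ) (p₀ J : ℕ) (l : ℝ) : ℝ :=
  ∑ u, gw pr p₀ J l u ^ 2 * lv pr u * wt pr u

/-- the support of the Selberg weights, `L = log X` -/
noncomputable def EE (pr : ι → ℕ) (L : ℝ) : Finset (Finset ι) :=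
  univ.filter fun u => lv pr u ≤ 272 / 1000 * L ∧
    (lv pr u ≤ 2665 / 10000 * L ∨ ∀ p ∈ u, Real.log (pr p) ≤ 19 / 100 * L)

noncomputable def GG (pr : ι → ℕ) (L : ℝ) : ℝ := ∑ u ∈ EE pr L, wt pr u

/-- The one-dimensional estimates. -/
structure OneOk (pr : ι → ℕ) (ρ c δ lam L : ℝ) (p₀ J : ℕ) : Prop where
  bet_ge : (J + 1) * ρ * (lam * L) / 4 ≤ bet pr p₀ J (lam * L)
  gam_ge : ρ * (lam * L) / 8 ≤ gam pr p₀ J (lam * L)
  gam_le : gam pr p₀ J (lam * L) ≤ 4 * ρ * (lam * L)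
  gam₁_le : gam₁ pr p₀ J (lam * L) ≤ 2 * ρ * (lam * L) ^ 2 * (J + 1)
  G_ge : 2696 / 10000 * ρ * L ≤ GG pr L
  H_le : ∑ u ∈ univ.filter (fun u => lv pr u ≤ 272 / 1000 * L), wt pr u ≤ ρ * L
  bdry : ∑ q ∈ univ.filter (fun q => Real.log (pr q) ≤ δ * L), (1 / (pr q : ℝ)) *
      ∑ u ∈ (EE pr L).filter (fun u => q ∉ u ∧ insert q u ∉ EE pr L),
        wt pr u * ∏ p ∈ u, (1 + c * tt pr p) ≤ 5 * δ * ρ * L

/-- All one-dimensional estimates hold for large `L`, once `W` contains all small primes. -/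
def OneStmt : Prop :=
  ∀ c : ℝ, 0 ≤ c → ∃ w₀ : ℕ, ∀ W : ℕ, 0 < W → (∀ q : ℕ, q.Prime → q ≤ w₀ → q ∣ W) →
    ∀ (δ lam : ℝ) (J : ℕ), 0 < δ → δ ≤ 19 / 100 → 0 < lam → 2 ^ J * lam ≤ 272 / 1000 →
    ∀ᶠ L : ℝ in atTop, ∀ (ι : Type) [Fintype ι] [DecidableEq ι] (pr : ι → ℕ),
      PS pr W (Real.exp (272 / 1000 * L)) → ∀ p₀ : ℕ, p₀.Prime → ¬ p₀ ∣ W →
        OneOk pr ((W.totient : ℝ) / W) c δ lam L p₀ J

/-- Small products over the primes that do not divide `W`. -/
def SmallStmt : Prop :=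
  ∀ (c ε : ℝ) (K : ℕ), 0 ≤ c → 0 < ε → ∃ w₀ : ℕ, ∀ W : ℕ,
    (∀ q : ℕ, q.Prime → q ≤ w₀ → q ∣ W) →
    ∀ (ι : Type) [Fintype ι] [DecidableEq ι] (pr : ι → ℕ) (Y : ℝ), PS pr W Y →
      ∏ p, (1 + c * tt pr p ^ 2) ≤ 1 + ε ∧ (∀ p, (1 + tt pr p) ^ K ≤ 2) ∧
      (∀ p, (16 : ℝ) ≤ (pr p : ℝ) ^ ε) ∧ (∀ p, 2 < pr p) ∧
      ∏ p, (1 + 3 / ((pr p : ℝ) * √(pr p : ℝ))) ≤ 2

end Pool.Agent.MP_39a890_nt

end MrgPart0

-- ======== part 1: formerly Pool.Agent.MP_39a890_nt.Spec3
section MrgPart1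

/-!
# PROJECT E287: statements for forms `a n + c`

The predicate `ok` restricts the constant terms (`ok = (· = 1)` or `ok = fun _ => True`).
-/

namespace Pool.Agent.MP_39a890_nt

open Finset Filter

/-- Smoothed number of `n ≡ n₀ (q₀)` with `d₁ ∣ a n + c`, `d₂ ∣ a' n + c'`. -/
noncomputable def cntC (φ : ℝ → ℝ) (X : ℝ) (a c a' c' q₀ n₀ d₁ d₂ : ℕ) : ℝ :=
  ∑ n ∈ range ⌈3 * X⌉₊,
    if n ≡ n₀ [MOD q₀] ∧ d₁ ∣ a * n + c ∧ d₂ ∣ a' * n + c' then φ (n / X) else 0

/-- The remainder of `cntC`. -/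
noncomputable def remC (φ : ℝ → ℝ) (X : ℝ) (a c a' c' q₀ n₀ d₁ d₂ : ℕ) : ℝ :=
  cntC φ X a c a' c' q₀ n₀ d₁ d₂ -
    if q₀.Coprime d₁ ∧ q₀.Coprime d₂ ∧ d₁.Coprime d₂ then X * (∫ u, φ u) / (q₀ * d₁ * d₂) else 0

/-- The bilinear bound at the scale `X`. -/
def KLat (θ σm σp η : ℝ) (φ : ℝ → ℝ) (W c c' : ℕ) (X : ℝ) : Prop :=
  ∀ (a a' q₀ n₀ : ℕ) (D₁ D₂ : Finset ℕ) (α α' : ℕ → ℝ),
    a ∣ W → a' ∣ W → (∀ p : ℕ, p.Prime → (p : ℤ) ∣ (a : ℤ) * c' - a' * c → p ∣ W) →
    Squarefree q₀ → q₀.Coprime W → (q₀ : ℝ) ≤ X ^ η →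
    q₀.Coprime (a * n₀ + c) → q₀.Coprime (a' * n₀ + c') →
    (∀ d ∈ D₁, Squarefree d ∧ d.Coprime W ∧ (d : ℝ) ≤ X ^ θ ∧
      ∃ s : ℕ, s ∣ d ∧ X ^ σm ≤ (s : ℝ) ∧ (s : ℝ) ≤ X ^ σp) →
    (∀ d ∈ D₂, 0 < d ∧ d.Coprime W ∧ (d : ℝ) ≤ X ^ θ) →
    (∀ d, |α d| ≤ 1) → (∀ d, |α' d| ≤ 1) →
    |∑ d₁ ∈ D₁, ∑ d₂ ∈ D₂, α d₁ * α' d₂ * remC φ X a c a' c' q₀ n₀ d₁ d₂| ≤ X ^ (1 - η)

/-- `KLStmt` for forms with constant terms. -/
def KLfor (ok : ℕ → Prop) : Prop :=
  ∀ θ σm σp η : ℝ, 0 < η → 0 ≤ θ → θ ≤ 3 / 5 → 0 ≤ σp → 7 * θ + σp ≤ 4 - 40 * η →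
    2 * θ - 1 + 40 * η ≤ σm → ∀ φ : ℝ → ℝ, Wt φ → ∀ W c c' : ℕ, 0 < W → ok c → ok c' →
    c.Coprime W → c'.Coprime W → ∀ᶠ X : ℝ in atTop, KLat θ σm σp η φ W c c' X

/-- Smoothed count of prime values of `a n + c` for `n` in a residue class. -/
noncomputable def pcntC (φ : ℝ → ℝ) (X : ℝ) (a c q n₀ : ℕ) : ℝ :=
  ∑ n ∈ range ⌈3 * X⌉₊,
    if n ≡ n₀ [MOD q] ∧ (a * n + c).Prime then φ (n / X) * Real.log ((a * n + c : ℕ) : ℝ) else 0

/-- The input on primes in progressions at the scale `X`. -/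
def BVat (φ : ℝ → ℝ) (X : ℝ) (W p₀ a c C₀ : ℕ) (M E : ℝ) : Prop :=
  ∀ (S : Finset ℕ) (n₀ : ℕ → ℕ),
    (∀ q ∈ S, Squarefree q ∧ q.Coprime (W * p₀) ∧ (q : ℝ) ≤ X ^ (1 / 30 : ℝ) ∧
      q.Coprime (a * n₀ q + c)) →
    ∑ q ∈ S, (C₀ : ℝ) ^ q.primeFactors.card * |pcntC φ X a c q (n₀ q) - M / q.totient| ≤ E

/-- `BVStmt` for forms with constant terms. -/
def BVfor (ok : ℕ → Prop) : Prop :=
  ∀ φ : ℝ → ℝ, Wt φ → ∀ W : ℕ, 0 < W → ∀ (c₀ C₀ B : ℕ) (ε : ℝ), 0 < ε →
    ∀ᶠ X : ℝ in atTop, ∃ p₀ : ℕ, p₀.Prime ∧ ¬ p₀ ∣ W ∧ ∀ a c : ℕ, a ∣ W → c ≤ c₀ → ok c →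
      c.Coprime W → ∃ M : ℝ, (1 - ε) * (X * (∫ u, φ u) * (a / a.totient)) ≤ M ∧
        BVat φ X W p₀ a c C₀ M (X / Real.log X ^ B)

theorem klfor_one (h : KLStmt) : KLfor (· = 1) := by
  rintro θ σm σp η h1 h2 h3 h4 h5 h6 φ hφ W c c' hW rfl rfl - -
  filter_upwards [h θ σm σp η h1 h2 h3 h4 h5 h6 φ hφ W hW] with X hX
  intro a a' q₀ n₀ D₁ D₂ α α' b1 b2 b3
  exact hX a a' q₀ n₀ D₁ D₂ α α' b1 b2 (by simpa using b3)

theorem bvfor_one (h : BVStmt) : BVfor (· = 1) := by
  intro φ hφ W hW c₀ C₀ B ε hε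
  filter_upwards [h φ hφ W hW C₀ B ε hε] with X ⟨p₀, h1, h2, h3⟩
  refine ⟨p₀, h1, h2, ?_⟩
  rintro a c ha - rfl -
  exact h3 a ha

/-- the linear forms `a k * n + c k` -/
structure Forms {κ : Type} (a c : κ → ℕ) (W : ℕ) : Prop where
  dvd : ∀ k, a k ∣ W
  full : ∀ k, ∀ q : ℕ, q.Prime → q ∣ W → q ∣ a k
  cop : ∀ k, (c k).Coprime W
  diff : ∀ k l, k ≠ l → ∀ q : ℕ, q.Prime → (q : ℤ) ∣ (a k : ℤ) * c l - a l * c k → q ∣ W

open Classical in
/-- The sieve: with `M` parts of `t` forms each, at least `0.2694 M` parts contain a prime. -/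
def SieveFor (ok : ℕ → Prop) : Prop :=
  ∀ M : ℕ, 0 < M → ∃ t w₀ : ℕ, 0 < t ∧ ∀ W : ℕ, 0 < W → (∀ q : ℕ, q.Prime → q ≤ w₀ → q ∣ W) →
    ∀ a c : Fin M × Fin t → ℕ, Forms a c W → (∀ k, ok (c k)) →
    ∀ φ : ℝ → ℝ, Wt φ → 0 < ∫ u, φ u → ∀ᶠ X : ℝ in atTop, ∃ n : ℕ, φ (n / X) ≠ 0 ∧
      2694 * M ≤ 10000 * (univ.filter fun m : Fin M => ∃ j, (a (m, j) * n + c (m, j)).Prime).card

open Classical in
/-- The final second moment argument. -/
def FinStmt : Prop :=
  ∀ (M t : ℕ) (N : Finset ℕ) (ν : ℕ → ℝ) (Y : Fin M × Fin t → ℕ → ℝ)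
    (P : Fin M × Fin t → ℕ → Prop) (Ξ c₀ B e : ℝ), 0 < M → 0 < t → 0 < Ξ → 0 < c₀ →
    0 ≤ e → e ≤ 1 / 10 ^ 9 → B ≤ e * t * c₀ → (∀ n, 0 ≤ ν n) → (∀ i n, 0 ≤ Y i n) →
    (∀ i, ∀ n ∈ N, ν n ≠ 0 → P i n → 1 ≤ Y i n) →
    ∑ n ∈ N, ν n ≤ (1 + e) * Ξ →
    (∀ i, (1 - e) * (Ξ * c₀) ≤ ∑ n ∈ N, ν n * Y i n) →
    (∀ i, ∑ n ∈ N, ν n * Y i n ^ 2 ≤ B * (Ξ * c₀)) →
    (∀ i j, i ≠ j → ∑ n ∈ N, ν n * (Y i n * Y j n) ≤ (1 + e) * (Ξ * c₀ ^ 2)) →
    (∀ i, 2695 / 10000 * (Ξ * c₀) ≤ ∑ n ∈ N, if P i n then ν n else 0) →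
    ∃ n ∈ N, ν n ≠ 0 ∧ 2694 * M ≤ 10000 * (univ.filter fun m : Fin M => ∃ j, P (m, j) n).card

end Pool.Agent.MP_39a890_nt

end MrgPart1

-- ======== part 2: formerly Pool.Agent.MP_39a890_nt.Weil1
section MrgPart2

/-!
# PROJECT E287, module WEIL, part 1: the L-function of Kloosterman sums
-/

namespace Pool.Agent.MP_39a890_nt.WeilP

open Polynomial Finset

variable {F : Type} [Field F] [Fintype F] [DecidableEq F]

omit [DecidableEq F] in
lemma mon_finite (n : ℕ) : {h : F[X] | h.Monic ∧ h.natDegree = n}.Finite := by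
  have : Finite (degreeLT F n) := Finite.of_equiv _ (degreeLTEquiv F n).toEquiv.symm
  have h2 : Finite {h : F[X] // h.Monic ∧ h.natDegree = n} :=
    Finite.of_equiv _ (monicEquivDegreeLT n).symm
  exact Set.finite_coe_iff.mp h2

/-- Monic polynomials of degree `n`. -/
noncomputable def Mon (F : Type) [Field F] [Fintype F] (n : ℕ) : Finset F[X] :=
  (mon_finite (F := F) n).toFinset

omit [DecidableEq F] in
lemma mem_Mon {n : ℕ} {h : F[X]} : h ∈ Mon F n ↔ h.Monic ∧ h.natDegree = n := by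
  simp [Mon]

/-- The additive functional. -/
noncomputable def ell (a b : F) (h : F[X]) : F :=
  -(a * h.nextCoeff) - b * (h.coeff 1 / h.coeff 0)

/-- The multiplicative function on monic polynomials. -/
noncomputable def eta (ψ : AddChar F ℂ) (a b : F) (h : F[X]) : ℂ :=
  if h.coeff 0 = 0 then 0 else ψ (ell a b h)

variable (ψ : AddChar F ℂ) (a b : F)

omit [Fintype F] in
lemma eta_mul {g h : F[X]} (hg : g.Monic) (hh : h.Monic) :
    eta ψ a b (g * h) = eta ψ a b g * eta ψ a b h := by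
  unfold eta
  rw [mul_coeff_zero]
  by_cases h1 : g.coeff 0 = 0
  · simp [h1]
  by_cases h2 : h.coeff 0 = 0
  · simp [h2]
  rw [if_neg (mul_ne_zero h1 h2), if_neg h1, if_neg h2, ← AddChar.map_add_eq_mul]
  congr 1
  unfold ell
  rw [hg.nextCoeff_mul hh, mul_coeff_one, mul_coeff_zero]
  field_simp
  ring

omit [Fintype F] in
lemma eta_one : eta ψ a b 1 = 1 := by
  have : (1 : F[X]).nextCoeff = 0 := by simp [nextCoeff]
  simp [eta, ell, this, coeff_one]

omit [Fintype F] in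
lemma eta_pow {g : F[X]} (hg : g.Monic) (e : ℕ) : eta ψ a b (g ^ e) = eta ψ a b g ^ e := by
  induction e with
  | zero => simp [eta_one]
  | succ e ih => rw [pow_succ, eta_mul ψ a b (hg.pow e) hg, ih, pow_succ]

/-- Coefficients of the L-function. -/
noncomputable def cc (n : ℕ) : ℂ := ∑ h ∈ Mon F n, eta ψ a b h

lemma cc_zero : cc ψ a b 0 = 1 := by
  have : Mon F 0 = {1} := by
    ext h
    rw [mem_Mon, mem_singleton]
    constructor
    · rintro ⟨h1, h2⟩
      exact h1.natDegree_eq_zero.mp h2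
    · rintro rfl
      simp
  rw [cc, this, sum_singleton, eta_one]

lemma cc_one : cc ψ a b 1 = ∑ x : Fˣ, ψ (a * (x : F) + b * ((x⁻¹ : Fˣ) : F)) := by
  have h1 : cc ψ a b 1 = ∑ u : F, eta ψ a b (X - C u) := by
    symm
    refine Finset.sum_bij (fun u _ => X - C u) ?_ ?_ ?_ ?_
    · intro u _
      exact mem_Mon.mpr ⟨monic_X_sub_C u, natDegree_X_sub_C u⟩
    · intro u _ v _ huv
      have := congrArg (fun f : F[X] => f.coeff 0) huv
      simpa using this
    · intro h hh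
      obtain ⟨hm, hd⟩ := mem_Mon.mp hh
      refine ⟨-h.coeff 0, mem_univ _, ?_⟩
      rw [hm.eq_X_add_C hd]
      simp
    · intro u _
      rfl
  have h2 : ∀ u : F, eta ψ a b (X - C u) = if u = 0 then 0 else ψ (a * u + b * u⁻¹) := by
    intro u
    unfold eta ell
    rw [nextCoeff_X_sub_C]
    by_cases hu : u = 0
    · simp [hu]
    · have e0 : (X - C u : F[X]).coeff 0 = -u := by simp
      have e1 : (X - C u : F[X]).coeff 1 = 1 := by simp
      rw [e0, e1, if_neg (neg_ne_zero.mpr hu), if_neg hu]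
      congr 1
      field_simp
      ring
  rw [h1]
  simp_rw [h2]
  rw [← Finset.sum_filter_ne_zero, ← Finset.sum_filter_ne_zero univ]
  symm
  refine Finset.sum_bij (fun u _ => (u : F)) ?_ ?_ ?_ ?_
  · intro u hu
    simp only [mem_filter, mem_univ, true_and] at hu ⊢
    rw [if_neg u.ne_zero]
    simpa using hu
  · intro u _ v _ huv
    exact Units.ext huv
  · intro u hu
    simp only [mem_filter, mem_univ, true_and] at hu
    have hu0 : u ≠ 0 := by
      rintro rfl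
      simp at hu
    rw [if_neg hu0] at hu
    refine ⟨Units.mk0 u hu0, ?_, rfl⟩
    simp only [mem_filter, mem_univ, true_and]
    simpa using hu
  · intro u _
    rw [if_neg u.ne_zero]
    simp

lemma cc_big {t : F} (ht : ψ (a * t) ≠ 1) {n : ℕ} (hn : 3 ≤ n) : cc ψ a b n = 0 := by
  have hmem : ∀ (s : F) (h : F[X]), h ∈ Mon F n → h + C s * X ^ (n - 1) ∈ Mon F n := by
    intro s h hh
    obtain ⟨hm, hd⟩ := mem_Mon.mp hh
    have hlt : (C s * X ^ (n - 1) : F[X]).degree < h.degree := by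
      rw [degree_eq_natDegree hm.ne_zero, hd]
      refine lt_of_le_of_lt (degree_C_mul_X_pow_le _ _) ?_
      exact_mod_cast (by omega : n - 1 < n)
    exact mem_Mon.mpr ⟨hm.add_of_left hlt, by rw [natDegree_add_eq_left_of_degree_lt hlt, hd]⟩
  have h1 : cc ψ a b n = ∑ h ∈ Mon F n, eta ψ a b (h + C (-t) * X ^ (n - 1)) := by
    unfold cc
    symm
    refine Finset.sum_bij' (fun h _ => h + C (-t) * X ^ (n - 1))
      (fun h _ => h + C t * X ^ (n - 1)) (fun h hh => hmem _ h hh) (fun h hh => hmem _ h hh)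
      ?_ ?_ ?_
    · intro h _
      simp
    · intro h _
      simp
    · intro h _
      rfl
  have h2 : ∀ h ∈ Mon F n, eta ψ a b (h + C (-t) * X ^ (n - 1)) = ψ (a * t) * eta ψ a b h := by
    intro h hh
    have hd := (mem_Mon.mp hh).2
    have hd' := (mem_Mon.mp (hmem (-t) h hh)).2
    have e0 : (h + C (-t) * X ^ (n - 1)).coeff 0 = h.coeff 0 := by
      rw [coeff_add, coeff_C_mul_X_pow, if_neg (by omega), add_zero]
    have e1 : (h + C (-t) * X ^ (n - 1)).coeff 1 = h.coeff 1 := by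
      rw [coeff_add, coeff_C_mul_X_pow, if_neg (by omega), add_zero]
    have e2 : (h + C (-t) * X ^ (n - 1)).nextCoeff = h.nextCoeff - t := by
      rw [nextCoeff_of_natDegree_pos (by omega), nextCoeff_of_natDegree_pos (by omega), hd, hd',
        coeff_add, coeff_C_mul_X_pow, if_pos rfl]
      ring
    unfold eta ell
    rw [e0, e1, e2]
    split_ifs with h0
    · simp
    · rw [← AddChar.map_add_eq_mul]
      congr 1
      ring
  rw [Finset.sum_congr rfl h2, ← Finset.mul_sum] at h1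
  have h3 : (1 - ψ (a * t)) * cc ψ a b n = 0 := by
    rw [sub_mul, one_mul, sub_eq_zero]
    exact h1
  rcases mul_eq_zero.mp h3 with h | h
  · exact absurd (sub_eq_zero.mp h).symm ht
  · exact h

open Classical in
lemma eta_mul_cc {g : F[X]} (hg : g.Monic) {n : ℕ} (hk : g.natDegree ≤ n) :
    eta ψ a b g * cc ψ a b (n - g.natDegree) =
      ∑ h ∈ Mon F n, if g ∣ h then eta ψ a b h else 0 := by
  rw [← Finset.sum_filter, cc, Finset.mul_sum]
  refine Finset.sum_bij (fun u _ => g * u) ?_ ?_ ?_ ?_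
  · intro u hu
    obtain ⟨hm, hd⟩ := mem_Mon.mp hu
    refine mem_filter.mpr ⟨mem_Mon.mpr ⟨hg.mul hm, ?_⟩, dvd_mul_right _ _⟩
    rw [hg.natDegree_mul hm, hd]
    omega
  · intro u _ v _ huv
    exact mul_left_cancel₀ hg.ne_zero huv
  · intro h hh
    obtain ⟨hh, u, rfl⟩ := mem_filter.mp hh
    obtain ⟨hm, hd⟩ := mem_Mon.mp hh
    have hu : u.Monic := hg.of_mul_monic_left hm
    refine ⟨u, mem_Mon.mpr ⟨hu, ?_⟩, rfl⟩
    rw [hg.natDegree_mul hu] at hd
    omega
  · intro u hu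
    rw [eta_mul ψ a b hg (mem_Mon.mp hu).1]

end Pool.Agent.MP_39a890_nt.WeilP

end MrgPart2

-- ======== part 3: formerly Pool.Agent.MP_39a890_nt.Weil2
section MrgPart3

/-!
# PROJECT E287, module WEIL, part 2: Kloosterman sums over extensions are power sums
-/

namespace Pool.Agent.MP_39a890_nt.WeilP

open Polynomial Finset IntermediateField

variable {F : Type} [Field F] [Fintype F] [DecidableEq F]

section ext

variable {E : Type} [Field E] [Fintype E] [DecidableEq E] [Algebra F E]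

omit [Fintype F] [DecidableEq F] [DecidableEq E] in
lemma finrank_adjoin_eq (x : E) :
    Module.finrank F⟮x⟯ E = Module.finrank F E / (minpoly F x).natDegree := by
  have hx : IsIntegral F x := .of_finite F x
  have h1 := Module.finrank_mul_finrank F F⟮x⟯ E
  rw [adjoin.finrank hx] at h1
  rw [← h1, Nat.mul_div_cancel_left _ (minpoly.natDegree_pos hx)]

omit [Fintype F] [DecidableEq F] [DecidableEq E] in
lemma deg_minpoly_dvd (x : E) : (minpoly F x).natDegree ∣ Module.finrank F E := by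
  have hx : IsIntegral F x := .of_finite F x
  have h1 := Module.finrank_mul_finrank F F⟮x⟯ E
  rw [adjoin.finrank hx] at h1
  exact ⟨_, h1.symm⟩

omit [Fintype F] [DecidableEq F] [DecidableEq E] in
lemma deg_minpoly_inv_le {x : E} (hx : x ≠ 0) :
    (minpoly F x⁻¹).natDegree ≤ (minpoly F x).natDegree := by
  have hi : IsIntegral F x := .of_finite F x
  have h0 : (minpoly F x).reverse ≠ 0 := by
    rw [Ne, reverse_eq_zero]
    exact minpoly.ne_zero hi
  let := invertibleOfNonzero hx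
  have h1 : aeval x⁻¹ (minpoly F x).reverse = 0 := by
    rw [aeval_def, ← invOf_eq_inv, eval₂_reverse_eq_zero_iff, ← aeval_def]
    exact minpoly.aeval F x
  exact (natDegree_le_of_dvd (minpoly.dvd F _ h1) h0).trans (reverse_natDegree_le _)

omit [Fintype F] [DecidableEq F] [DecidableEq E] in
lemma deg_minpoly_inv {x : E} (hx : x ≠ 0) :
    (minpoly F x⁻¹).natDegree = (minpoly F x).natDegree := by
  refine le_antisymm (deg_minpoly_inv_le hx) ?_
  have := deg_minpoly_inv_le (F := F) (inv_ne_zero hx)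
  rwa [inv_inv] at this

omit [Fintype F] [DecidableEq F] [DecidableEq E] in
lemma nextCoeff_minpoly_inv {x : E} (hx : x ≠ 0) :
    (minpoly F x⁻¹).nextCoeff = (minpoly F x).coeff 1 / (minpoly F x).coeff 0 := by
  have hi : IsIntegral F x := .of_finite F x
  have hi' : IsIntegral F x⁻¹ := .of_finite F _
  set m := minpoly F x with hm
  have hc0 : m.coeff 0 ≠ 0 := minpoly.coeff_zero_ne_zero hi hx
  have hpos : 0 < m.natDegree := minpoly.natDegree_pos hi
  have htd : m.natTrailingDegree = 0 := natTrailingDegree_eq_zero.mpr (Or.inr hc0)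
  have hdeg : m.reverse.natDegree = m.natDegree := by rw [reverse_natDegree, htd, Nat.sub_zero]
  have hlc : m.reverse.leadingCoeff = m.coeff 0 := by
    rw [reverse_leadingCoeff, trailingCoeff, htd]
  let := invertibleOfNonzero hx
  have h1 : aeval x⁻¹ m.reverse = 0 := by
    rw [aeval_def, ← invOf_eq_inv, eval₂_reverse_eq_zero_iff, ← aeval_def]
    exact minpoly.aeval F x
  have hmon : (C (m.coeff 0)⁻¹ * m.reverse).Monic := by
    rw [Monic, leadingCoeff_mul, leadingCoeff_C, hlc, inv_mul_cancel₀ hc0]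
  have hdeg2 : (C (m.coeff 0)⁻¹ * m.reverse).natDegree = m.natDegree := by
    rw [natDegree_C_mul (inv_ne_zero hc0), hdeg]
  have heq : C (m.coeff 0)⁻¹ * m.reverse = minpoly F x⁻¹ := by
    refine minpoly.unique_of_degree_le_degree_minpoly F _ hmon (by simp [h1]) ?_
    rw [degree_eq_natDegree hmon.ne_zero, degree_eq_natDegree (minpoly.ne_zero hi'), hdeg2,
      deg_minpoly_inv hx]
  rw [← heq, nextCoeff_of_natDegree_pos (by omega), hdeg2, coeff_C_mul, coeff_reverse,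
    revAt_le (by omega)]
  have : m.natDegree - (m.natDegree - 1) = 1 := by omega
  rw [this]
  field_simp

/-- The characteristic polynomial of `x` over `F`. -/
noncomputable def chp (F : Type) [Field F] {E : Type} [Field E] [Algebra F E] (x : E) : F[X] :=
  minpoly F x ^ (Module.finrank F E / (minpoly F x).natDegree)

omit [Fintype F] [DecidableEq F] [DecidableEq E] in
lemma chp_monic (x : E) : (chp F x).Monic := (minpoly.monic (.of_finite F x)).pow _

omit [Fintype F] [DecidableEq F] [DecidableEq E] in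
lemma chp_natDegree (x : E) : (chp F x).natDegree = Module.finrank F E := by
  rw [chp, natDegree_pow, Nat.div_mul_cancel (deg_minpoly_dvd x)]

/-- Kloosterman sum over an extension. -/
noncomputable def SS (ψ : AddChar F ℂ) (a b : F) (E : Type) [Field E] [Fintype E] [DecidableEq E]
    [Algebra F E] : ℂ :=
  ∑ x : E, if x = 0 then 0 else
    ψ (Algebra.trace F E (algebraMap F E a * x + algebraMap F E b * x⁻¹))

variable (ψ : AddChar F ℂ) (a b : F)

omit [Fintype F] in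
lemma eta_chp (x : E) : eta ψ a b (chp F x) = if x = 0 then 0 else
    ψ (Algebra.trace F E (algebraMap F E a * x + algebraMap F E b * x⁻¹)) := by
  have hi : IsIntegral F x := .of_finite F x
  rw [chp, eta_pow ψ a b (minpoly.monic hi)]
  split_ifs with hx
  · subst hx
    have hpos : 0 < Module.finrank F E := Module.finrank_pos
    simp [eta, hpos.ne']
  · rw [eta, if_neg (minpoly.coeff_zero_ne_zero hi hx), ← AddChar.map_nsmul_eq_pow]
    congr 1
    rw [map_add, ← Algebra.smul_def, ← Algebra.smul_def, map_smul, map_smul,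
      trace_eq_finrank_mul_minpoly_nextCoeff, trace_eq_finrank_mul_minpoly_nextCoeff,
      finrank_adjoin_eq, finrank_adjoin_eq, deg_minpoly_inv hx, nextCoeff_minpoly_inv hx, ell]
    simp only [smul_eq_mul, nsmul_eq_mul]
    ring

omit [DecidableEq E] in
lemma card_fiber {π : F[X]} (hi : Irreducible π) (hm : π.Monic)
    (hd : π.natDegree ∣ Module.finrank F E) :
    (univ.filter fun x : E => minpoly F x = π).card = π.natDegree := by
  have h1 := (hi.natDegree_dvd_iff_dvd_X_pow_card_pow_sub_X).mp hd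
  rw [← Module.natCard_eq_pow_finrank, Nat.card_eq_fintype_card] at h1
  have hne : (X ^ Fintype.card E - X : F[X]) ≠ 0 :=
    FiniteField.X_pow_card_sub_X_ne_zero F Fintype.one_lt_card
  have hs : (π.map (algebraMap F E)).Splits :=
    Splits.of_dvd (FiniteField.isSplittingField_sub E F).splits (map_ne_zero hne)
      (map_dvd (algebraMap F E) h1)
  rw [← card_rootSet_eq_natDegree (PerfectField.separable_of_irreducible hi) hs,
    ← Set.toFinset_card]
  congr 1
  ext x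
  simp only [mem_filter, mem_univ, true_and, Set.mem_toFinset, mem_rootSet_of_ne hm.ne_zero]
  constructor
  · rintro rfl
    exact minpoly.aeval F x
  · intro h
    exact (minpoly.eq_of_irreducible_of_monic hi h hm).symm

omit [DecidableEq E] in
open Classical UniqueFactorizationMonoid in
lemma card_chp_dvd {h : F[X]} (hh : h ≠ 0) :
    (univ.filter fun x : E => chp F x ∣ h).card =
      ∑ π ∈ (normalizedFactors h).toFinset,
        if π.natDegree ∣ Module.finrank F E ∧ π ^ (Module.finrank F E / π.natDegree) ∣ h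
        then π.natDegree else 0 := by
  have hpos : 0 < Module.finrank F E := Module.finrank_pos
  rw [Finset.card_eq_sum_card_fiberwise (f := fun x : E => minpoly F x)
    (t := (normalizedFactors h).toFinset)]
  · refine Finset.sum_congr rfl fun π hπ => ?_
    obtain ⟨hi, hm, -⟩ := (Polynomial.mem_normalizedFactors_iff hh).mp (Multiset.mem_toFinset.mp hπ)
    split_ifs with hc
    · rw [← card_fiber hi hm hc.1, Finset.filter_filter]
      congr 1
      ext x
      simp only [mem_filter, mem_univ, true_and, and_iff_right_iff_imp]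
      rintro rfl
      exact hc.2
    · rw [Finset.card_eq_zero, Finset.filter_filter, Finset.filter_eq_empty_iff]
      rintro x - ⟨h1, rfl⟩
      exact hc ⟨deg_minpoly_dvd x, h1⟩
  · intro x hx
    have hi : IsIntegral F x := .of_finite F x
    simp only [coe_filter, mem_univ, true_and, Set.mem_ofPred_eq] at hx
    simp only [Multiset.mem_toFinset, mem_coe]
    refine (Polynomial.mem_normalizedFactors_iff hh).mpr
      ⟨minpoly.irreducible hi, minpoly.monic hi, dvd_trans (dvd_pow_self _ ?_) hx⟩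
    exact (Nat.div_pos (Nat.le_of_dvd hpos (deg_minpoly_dvd x)) (minpoly.natDegree_pos hi)).ne'

end ext

omit [Fintype F] in
open Classical UniqueFactorizationMonoid in
lemma sum_deg {h : F[X]} (hh : h.Monic) :
    ∑ k ∈ Icc 1 h.natDegree, ∑ π ∈ (normalizedFactors h).toFinset,
      (if π.natDegree ∣ k ∧ π ^ (k / π.natDegree) ∣ h then π.natDegree else 0) = h.natDegree := by
  have h0 := hh.ne_zero
  rw [Finset.sum_comm]
  have h1 : ∀ π ∈ (normalizedFactors h).toFinset, ∑ k ∈ Icc 1 h.natDegree,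
      (if π.natDegree ∣ k ∧ π ^ (k / π.natDegree) ∣ h then π.natDegree else 0) =
      (normalizedFactors h).count π • π.natDegree := by
    intro π hπ
    obtain ⟨hi, hm, -⟩ := (Polynomial.mem_normalizedFactors_iff h0).mp (Multiset.mem_toFinset.mp hπ)
    have hpos : 0 < π.natDegree := hi.natDegree_pos
    have hiff : ∀ e : ℕ, π ^ e ∣ h ↔ e ≤ (normalizedFactors h).count π := by
      intro e
      rw [pow_dvd_iff_le_emultiplicity, emultiplicity_eq_count_normalizedFactors hi h0,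
        hm.normalize_eq_self, Nat.cast_le]
    rw [← Finset.sum_filter, Finset.sum_const]
    congr 1
    have hc : (Icc 1 ((normalizedFactors h).count π)).card = (normalizedFactors h).count π := by
      simp
    rw [← hc]
    symm
    refine Finset.card_bij (fun e _ => e * π.natDegree) ?_ ?_ ?_
    · intro e he
      obtain ⟨he1, he2⟩ := mem_Icc.mp he
      have hd := (hiff e).mpr he2
      have := natDegree_le_of_dvd hd h0
      rw [natDegree_pow] at this
      refine mem_filter.mpr ⟨mem_Icc.mpr ⟨Nat.mul_pos he1 hpos, this⟩, dvd_mul_left _ _, ?_⟩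
      rwa [Nat.mul_div_cancel _ hpos]
    · intro e _ e' _ hee
      exact Nat.eq_of_mul_eq_mul_right hpos hee
    · intro k hk
      obtain ⟨hk1, hk2, hk3⟩ := mem_filter.mp hk
      refine ⟨k / π.natDegree, mem_Icc.mpr ⟨?_, (hiff _).mp hk3⟩, Nat.div_mul_cancel hk2⟩
      exact Nat.div_pos (Nat.le_of_dvd (mem_Icc.mp hk1).1 hk2) hpos
  rw [Finset.sum_congr rfl h1, ← Finset.sum_multiset_map_count,
    ← natDegree_multiset_prod_of_monic]
  · have := leadingCoeff_mul_prod_normalizedFactors h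
    rw [hh.leadingCoeff, C_1, one_mul] at this
    rw [this]
  · intro π hπ
    exact ((Polynomial.mem_normalizedFactors_iff h0).mp hπ).2.1

variable (ψ : AddChar F ℂ) (a b : F)
variable (E : ℕ → Type) [∀ k, Field (E k)] [∀ k, Fintype (E k)] [∀ k, DecidableEq (E k)]
  [∀ k, Algebra F (E k)]

open Classical in
lemma newton (hE : ∀ k, 1 ≤ k → Module.finrank F (E k) = k) (n : ℕ) :
    (n : ℂ) * cc ψ a b n = ∑ k ∈ Icc 1 n, SS ψ a b (E k) * cc ψ a b (n - k) := by
  have h1 : ∀ k ∈ Icc 1 n, SS ψ a b (E k) * cc ψ a b (n - k) =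
      ∑ h ∈ Mon F n, ((univ.filter fun x : E k => chp F x ∣ h).card : ℂ) * eta ψ a b h := by
    intro k hk
    obtain ⟨hk1, hk2⟩ := mem_Icc.mp hk
    rw [SS, Finset.sum_mul]
    have h2 : ∀ x : E k, (if x = 0 then 0 else ψ (Algebra.trace F (E k)
        (algebraMap F (E k) a * x + algebraMap F (E k) b * x⁻¹))) * cc ψ a b (n - k) =
        ∑ h ∈ Mon F n, if chp F x ∣ h then eta ψ a b h else 0 := by
      intro x
      have hd : (chp F x).natDegree = k := by rw [chp_natDegree, hE k hk1]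
      rw [← eta_chp, ← eta_mul_cc ψ a b (chp_monic x) (hd.le.trans hk2), hd]
    simp_rw [h2]
    rw [Finset.sum_comm]
    refine Finset.sum_congr rfl fun h _ => ?_
    rw [← Finset.sum_filter, Finset.sum_const, nsmul_eq_mul]
  rw [Finset.sum_congr rfl h1, Finset.sum_comm, cc, Finset.mul_sum]
  refine Finset.sum_congr rfl fun h hh => ?_
  obtain ⟨hm, hd⟩ := mem_Mon.mp hh
  rw [← Finset.sum_mul, ← Nat.cast_sum]
  congr 2
  rw [← hd]
  conv_lhs => rw [← sum_deg hm]
  refine Finset.sum_congr rfl fun k hk => ?_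
  rw [card_chp_dvd hm.ne_zero, hE k (mem_Icc.mp hk).1]

lemma SS_pow (hE : ∀ k, 1 ≤ k → Module.finrank F (E k) = k) {t : F} (ht : ψ (a * t) ≠ 1) :
    ∃ α β : ℂ, α + β = -∑ x : Fˣ, ψ (a * (x : F) + b * ((x⁻¹ : Fˣ) : F)) ∧
      ∀ k, 1 ≤ k → SS ψ a b (E k) = -(α ^ k + β ^ k) := by
  rw [← cc_one]
  set c1 := cc ψ a b 1 with hc1
  set c2 := cc ψ a b 2 with hc2
  obtain ⟨s, hs⟩ := IsAlgClosed.exists_eq_mul_self (c1 ^ 2 - 4 * c2)
  have hsum : (-c1 + s) / 2 + (-c1 - s) / 2 = -c1 := by ring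
  have hprod : (-c1 + s) / 2 * ((-c1 - s) / 2) = c2 := by linear_combination (1 / 4 : ℂ) * hs
  generalize (-c1 + s) / 2 = α at hsum hprod
  generalize (-c1 - s) / 2 = β at hsum hprod
  refine ⟨α, β, hsum, ?_⟩
  have e1 : SS ψ a b (E 1) = c1 := by
    have := newton ψ a b E hE 1
    simp only [Icc_self, sum_singleton, Nat.cast_one, one_mul, Nat.sub_self, cc_zero,
      mul_one] at this
    exact this.symm
  have e2 : SS ψ a b (E 2) = 2 * c2 - c1 * c1 := by
    have := newton ψ a b E hE 2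
    rw [Finset.sum_Icc_succ_top (by norm_num)] at this
    simp only [Icc_self, sum_singleton, Nat.cast_ofNat, Nat.reduceAdd, Nat.sub_self, cc_zero,
      mul_one, e1, Nat.add_one_sub_one] at this
    linear_combination -this
  have e3 : ∀ n, SS ψ a b (E (n + 3)) = -c1 * SS ψ a b (E (n + 2)) - c2 * SS ψ a b (E (n + 1)) := by
    intro n
    have := newton ψ a b E hE (n + 3)
    rw [cc_big ψ a b ht (by omega), mul_zero, Finset.sum_Icc_succ_top (by omega),
      Finset.sum_Icc_succ_top (by omega), Finset.sum_Icc_succ_top (by omega),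
      Finset.sum_eq_zero] at this
    · have a1 : n + 3 - (n + 1) = 2 := by omega
      have a2 : n + 3 - (n + 1 + 1) = 1 := by omega
      have a3 : n + 3 - (n + 2 + 1) = 0 := by omega
      rw [a1, a2, a3, cc_zero] at this
      linear_combination -this
    · intro k hk
      rw [cc_big ψ a b ht (by have := (mem_Icc.mp hk).2; omega), mul_zero]
  have key : ∀ n, SS ψ a b (E (n + 1)) = -(α ^ (n + 1) + β ^ (n + 1)) ∧
      SS ψ a b (E (n + 2)) = -(α ^ (n + 2) + β ^ (n + 2)) := by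
    intro n
    induction n with
    | zero =>
      refine ⟨?_, ?_⟩
      · rw [zero_add, e1]
        linear_combination hsum
      · rw [zero_add, e2, ← hprod, ← neg_eq_iff_eq_neg.mpr hsum]
        ring
    | succ n ih =>
      refine ⟨ih.2, ?_⟩
      rw [show n + 1 + 2 = n + 3 from rfl, e3, ih.1, ih.2, ← hprod, ← hsum]
      ring
  intro k hk
  obtain ⟨n, rfl⟩ : ∃ n, k = n + 1 := ⟨k - 1, by omega⟩
  exact (key n).1

end Pool.Agent.MP_39a890_nt.WeilP

end MrgPart3

-- ======== part 4: formerly Pool.Agent.MP_39a890_nt.Weil3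
section MrgPart4

/-!
# PROJECT E287, module WEIL, part 3: point counts
-/

namespace Pool.Agent.MP_39a890_nt.WeilP

open Polynomial Finset

section quad

variable {E : Type} [Field E] [Fintype E] [DecidableEq E]

lemma card_sq (hE : ringChar E ≠ 2) (u : E) :
    ((univ.filter fun y : E => y ^ 2 = u).card : ℤ) = quadraticChar E u + 1 := by
  rw [← quadraticChar_card_sqrts hE u]
  congr 2
  ext y
  simp

lemma hyp_char (hE : ringChar E ≠ 2) (g : E[X]) :
    ((univ.filter fun P : E × E => P.2 ^ 2 = g.eval P.1).card : ℤ) =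
      Fintype.card E + ∑ s : E, quadraticChar E (g.eval s) := by
  rw [Finset.card_filter, Fintype.sum_prod_type, Nat.cast_sum]
  simp_rw [← Finset.card_filter, card_sq hE]
  rw [Finset.sum_add_distrib]
  simp [add_comm]

lemma hyp_abs (hE : ringChar E ≠ 2) {m K : ℕ}
    (h : ∀ f : E[X], f.natDegree = m →
      (univ.filter fun P : E × E => P.2 ^ 2 = f.eval P.1).card ≤ Fintype.card E + K)
    {g : E[X]} (hg : g.natDegree = m) : |∑ s : E, quadraticChar E (g.eval s)| ≤ (K : ℤ) := by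
  obtain ⟨ν, hν⟩ := quadraticChar_exists_neg_one hE
  have hν0 : ν ≠ 0 := by
    rintro rfl
    simp at hν
  have h1 := h g hg
  have h2 := h (C ν * g) (by rw [natDegree_C_mul hν0, hg])
  have h1' := hyp_char hE g
  have h2' := hyp_char hE (C ν * g)
  simp only [eval_mul, eval_C, map_mul, hν, neg_mul, one_mul, Finset.sum_neg_distrib] at h2 h2'
  rw [abs_le]
  constructor <;> omega

lemma card_quad (hE : ringChar E ≠ 2) {A B : E} (hA : A ≠ 0) (hB : B ≠ 0) (w : E) :
    ((univ.filter fun x : E => x ≠ 0 ∧ w = A * x + B * x⁻¹).card : ℤ) =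
      quadraticChar E (w ^ 2 - 4 * A * B) + 1 := by
  have h2 : (2 : E) ≠ 0 := Ring.two_ne_zero hE
  rw [← card_sq hE]
  congr 1
  refine Finset.card_bij (fun x _ => 2 * A * x - w) ?_ ?_ ?_
  · intro x hx
    obtain ⟨hx0, hx⟩ := (mem_filter.mp hx).2
    refine mem_filter.mpr ⟨mem_univ _, ?_⟩
    rw [hx]
    field_simp
    ring
  · intro x _ y _ hxy
    have : 2 * A * x = 2 * A * y := by linear_combination hxy
    exact mul_left_cancel₀ (mul_ne_zero h2 hA) this
  · intro y hy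
    have hy := (mem_filter.mp hy).2
    have h4 : (4 : E) ≠ 0 := by
      have : (4 : E) = 2 * 2 := by norm_num
      rw [this]
      exact mul_ne_zero h2 h2
    have hyw : y + w ≠ 0 := by
      intro h
      have : 4 * A * B = 0 := by linear_combination hy - (y - w) * h
      exact mul_ne_zero (mul_ne_zero h4 hA) hB this
    refine ⟨(y + w) / (2 * A), mem_filter.mpr ⟨mem_univ _, ?_, ?_⟩, ?_⟩
    · exact div_ne_zero hyw (mul_ne_zero h2 hA)
    · field_simp
      linear_combination -hy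
    · field_simp
      ring

end quad

section AS

variable {p : ℕ} [Fact p.Prime] {E : Type} [Field E] [Fintype E] [DecidableEq E]
  [Algebra (ZMod p) E]

omit [DecidableEq E] in
lemma trace_frob (y : E) : Algebra.trace (ZMod p) E (y ^ p) = Algebra.trace (ZMod p) E y := by
  have := Algebra.trace_eq_of_algEquiv (FiniteField.frobeniusAlgEquivOfAlgebraic (ZMod p) E) y
  rwa [FiniteField.coe_frobeniusAlgEquivOfAlgebraic, ZMod.card] at this

omit [DecidableEq E] in
lemma card_ker : p * (univ.filter fun y : E => Algebra.trace (ZMod p) E y = 0).card =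
    Fintype.card E := by
  rw [← Finset.card_univ, Finset.card_eq_sum_card_fiberwise (s := univ)
    (f := fun y : E => Algebra.trace (ZMod p) E y) (t := univ) (fun _ _ => mem_univ _)]
  have : ∀ c : ZMod p, (univ.filter fun y : E => Algebra.trace (ZMod p) E y = c).card =
      (univ.filter fun y : E => Algebra.trace (ZMod p) E y = 0).card := fun c =>
    AddMonoidHom.card_fiber_eq_of_mem_range (Algebra.trace (ZMod p) E)
      (Algebra.trace_surjective (ZMod p) E c) (Algebra.trace_surjective (ZMod p) E 0)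
  rw [Finset.sum_congr rfl fun c _ => this c]
  simp

omit [Fact p.Prime] [Algebra (ZMod p) E] in
lemma card_AS_le (hp : 1 < p) (w : E) : (univ.filter fun z : E => z ^ p - z = w).card ≤ p := by
  have hd : (X ^ p - (X + C w) : E[X]).natDegree = p := by
    rw [natDegree_sub_eq_left_of_natDegree_lt, natDegree_X_pow]
    rw [natDegree_X_add_C, natDegree_X_pow]
    exact hp
  have h0 : (X ^ p - (X + C w) : E[X]) ≠ 0 := by
    intro h
    rw [h, natDegree_zero] at hd
    omega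
  refine le_trans (card_le_degree_of_subset_roots ?_) hd.le
  intro z hz
  have hz := (mem_filter.mp hz).2
  rw [mem_roots h0, IsRoot.def]
  simp only [eval_sub, eval_pow, eval_X, eval_add, eval_C]
  linear_combination hz

lemma card_AS (w : E) : (univ.filter fun z : E => z ^ p - z = w).card =
    if Algebra.trace (ZMod p) E w = 0 then p else 0 := by
  have hp : 1 < p := (Fact.out : p.Prime).one_lt
  have htr : ∀ z : E, Algebra.trace (ZMod p) E (z ^ p - z) = 0 := by
    intro z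
    rw [map_sub, trace_frob, sub_self]
  split_ifs with hw
  · set K := univ.filter fun y : E => Algebra.trace (ZMod p) E y = 0 with hK
    have h1 : ∑ y ∈ K, (univ.filter fun z : E => z ^ p - z = y).card = ∑ _y ∈ K, p := by
      rw [Finset.sum_const, smul_eq_mul, mul_comm, card_ker, ← Finset.card_univ,
        Finset.card_eq_sum_card_fiberwise (f := fun z : E => z ^ p - z) (t := K)]
      intro z _
      simp only [hK, coe_filter, mem_univ, true_and, Set.mem_ofPred_eq]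
      exact htr z
    exact (Finset.sum_eq_sum_iff_of_le fun y _ => card_AS_le hp y).mp h1 w
      (mem_filter.mpr ⟨mem_univ _, hw⟩)
  · rw [Finset.card_eq_zero, Finset.filter_eq_empty_iff]
    rintro z - rfl
    exact hw (htr z)

lemma sum_SS (hE : ringChar E ≠ 2) {a b : ZMod p} (ha : a ≠ 0) (hb : b ≠ 0) :
    ∑ c : ZMod p, SS ZMod.stdAddChar (c * a) (c * b) E = (Fintype.card E : ℂ) +
      ((∑ z : E, quadraticChar E ((z ^ p - z) ^ 2 -
        4 * algebraMap (ZMod p) E a * algebraMap (ZMod p) E b) : ℤ) : ℂ) := by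
  set A := algebraMap (ZMod p) E a with hA
  set B := algebraMap (ZMod p) E b with hB
  have hA0 : A ≠ 0 := (_root_.map_ne_zero _).mpr ha
  have hB0 : B ≠ 0 := (_root_.map_ne_zero _).mpr hb
  have h1 : ∀ x : E, ∑ c : ZMod p, (if x = 0 then 0 else ZMod.stdAddChar (Algebra.trace (ZMod p) E
      (algebraMap (ZMod p) E (c * a) * x + algebraMap (ZMod p) E (c * b) * x⁻¹))) =
      ((univ.filter fun z : E => x ≠ 0 ∧ z ^ p - z = A * x + B * x⁻¹).card : ℂ) := by
    intro x
    by_cases hx : x = 0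
    · simp [hx]
    · have e : ∀ c : ZMod p, Algebra.trace (ZMod p) E
          (algebraMap (ZMod p) E (c * a) * x + algebraMap (ZMod p) E (c * b) * x⁻¹) =
          c * Algebra.trace (ZMod p) E (A * x + B * x⁻¹) := by
        intro c
        rw [map_mul, map_mul, ← smul_eq_mul c, ← map_smul, Algebra.smul_def]
        congr 1
        ring
      simp_rw [if_neg hx, e]
      rw [AddChar.sum_mulShift _ (ZMod.isPrimitive_stdAddChar p), ZMod.card, ← card_AS]
      simp [hx]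
  unfold SS
  rw [Finset.sum_comm]
  simp_rw [h1, Finset.card_filter]
  rw [← Nat.cast_sum, Finset.sum_comm]
  simp_rw [← Finset.card_filter]
  have h2 : ((∑ z : E, (univ.filter fun x : E => x ≠ 0 ∧ z ^ p - z = A * x + B * x⁻¹).card : ℕ) : ℤ)
      = Fintype.card E + ∑ z : E, quadraticChar E ((z ^ p - z) ^ 2 - 4 * A * B) := by
    rw [Nat.cast_sum]
    simp_rw [card_quad hE hA0 hB0]
    rw [Finset.sum_add_distrib]
    simp [add_comm]
  exact_mod_cast congrArg (Int.cast : ℤ → ℂ) h2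

/-- The odd degree model. -/
noncomputable def gp (p : ℕ) {E : Type} [Field E] (c : E) : E[X] :=
  (1 - X ^ (p - 1)) * (1 - X ^ (p - 1) + C (2 * c) * X ^ p)

omit [Fintype E] [DecidableEq E] [Algebra (ZMod p) E] in
lemma gp_natDegree {c : E} (hc : 2 * c ≠ 0) : (gp p c).natDegree = 2 * p - 1 := by
  have hp : 1 < p := (Fact.out : p.Prime).one_lt
  have h1 : (1 - X ^ (p - 1) : E[X]).natDegree = p - 1 := by
    rw [natDegree_sub_eq_right_of_natDegree_lt, natDegree_X_pow]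
    rw [natDegree_one, natDegree_X_pow]
    omega
  have h2 : (C (2 * c) * X ^ p : E[X]).natDegree = p := natDegree_C_mul_X_pow _ _ hc
  have h3 : (1 - X ^ (p - 1) + C (2 * c) * X ^ p : E[X]).natDegree = p := by
    rw [natDegree_add_eq_right_of_natDegree_lt, h2]
    rw [h1, h2]
    omega
  rw [gp, natDegree_mul, h1, h3]
  · omega
  · intro h
    rw [h, natDegree_zero] at h1
    omega
  · intro h
    rw [h, natDegree_zero] at h3
    omega

lemma sum_model {c z₀ : E} (hz : z₀ ^ p - z₀ = c) :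
    ∑ z : E, quadraticChar E ((z ^ p - z) ^ 2 - c ^ 2) =
      ∑ s : E, quadraticChar E ((gp p c).eval s) - 1 := by
  have hp : 1 < p := (Fact.out : p.Prime).one_lt
  have : CharP E p := charP_of_injective_algebraMap (algebraMap (ZMod p) E).injective p
  rw [← Equiv.sum_comp ((Equiv.inv E).trans (Equiv.addLeft z₀))]
  have h1 : ∀ s : E, quadraticChar E ((gp p c).eval s) =
      quadraticChar E (((z₀ + s⁻¹) ^ p - (z₀ + s⁻¹)) ^ 2 - c ^ 2) + if s = 0 then 1 else 0 := by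
    intro s
    have e : (z₀ + s⁻¹) ^ p - (z₀ + s⁻¹) = c + (s⁻¹ ^ p - s⁻¹) := by
      rw [add_pow_char]
      linear_combination hz
    rw [e]
    by_cases hs : s = 0
    · subst hs
      have h1 : p - 1 ≠ 0 := by omega
      have h2 : p ≠ 0 := by omega
      simp [gp, h1, h2]
    · rw [if_neg hs, add_zero, ← mul_one (quadraticChar E ((c + _) ^ 2 - _)),
        ← quadraticChar_sq_one' (pow_ne_zero p hs), ← map_mul]
      congr 1
      obtain ⟨r, rfl⟩ : ∃ r, p = r + 1 := ⟨p - 1, by omega⟩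
      simp only [gp, eval_mul, eval_sub, eval_one, eval_pow, eval_X, eval_add, eval_C,
        Nat.add_sub_cancel, inv_pow]
      field_simp
      ring
  simp_rw [h1]
  rw [Finset.sum_add_distrib]
  simp

omit [DecidableEq E] in
lemma exists_sqrt (hp2 : p ≠ 2) (hE : ringChar E ≠ 2) {j : ℕ}
    (hcard : Fintype.card E = (p ^ j) ^ 2) (u : ZMod p) :
    ∃ c : E, c ^ 2 = algebraMap (ZMod p) E u := by
  by_cases hu : u = 0
  · exact ⟨0, by simp [hu]⟩
  have hp : p.Prime := Fact.out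
  have h1 : IsSquare (algebraMap (ZMod p) E u) := by
    rw [FiniteField.isSquare_iff hE ((_root_.map_ne_zero _).mpr hu), hcard, ← map_pow]
    obtain ⟨r, hr⟩ : Odd (p ^ j) := (hp.odd_of_ne_two hp2).pow
    have h2 : (p ^ j) ^ 2 / 2 = (p ^ j - 1) * (r + 1) := by
      rw [hr]
      have : (2 * r + 1) ^ 2 = 1 + 2 * ((2 * r) * (r + 1)) := by ring
      rw [this, Nat.add_mul_div_left _ _ (by norm_num)]
      simp
    obtain ⟨t, ht⟩ : p - 1 ∣ p ^ j - 1 := Nat.sub_one_dvd_pow_sub_one p j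
    rw [h2, ht, mul_assoc, pow_mul, ZMod.pow_card_sub_one_eq_one hu, one_pow, map_one]
  obtain ⟨c, hc⟩ := h1
  exact ⟨c, by rw [hc, sq]⟩

omit [DecidableEq E] in
lemma trace_sqrt (hp2 : p ≠ 2) (hk : p ∣ Module.finrank (ZMod p) E) {c : E} {u : ZMod p}
    (hc : c ^ 2 = algebraMap (ZMod p) E u) : Algebra.trace (ZMod p) E c = 0 := by
  have h1 : (c ^ p) ^ 2 = c ^ 2 := by
    rw [← pow_mul, mul_comm, pow_mul, hc, ← map_pow, ZMod.pow_card]
  rcases sq_eq_sq_iff_eq_or_eq_neg.mp h1 with h | h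
  · have h2 : ∀ i : ℕ, c ^ p ^ i = c := by
      intro i
      induction i with
      | zero => simp
      | succ i ih => rw [pow_succ, pow_mul, ih, h]
    have : CharP E p := charP_of_injective_algebraMap (algebraMap (ZMod p) E).injective p
    apply (algebraMap (ZMod p) E).injective
    rw [FiniteField.algebraMap_trace_eq_sum_pow, Nat.card_zmod, map_zero]
    simp_rw [h2]
    rw [Finset.sum_const, card_range, nsmul_eq_mul, (CharP.cast_eq_zero_iff E p _).mpr hk,
      zero_mul]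
  · have h2 := trace_frob (p := p) c
    rw [h, map_neg] at h2
    have h3 : (2 : ZMod p) ≠ 0 := Ring.two_ne_zero (by rwa [ZMod.ringChar_zmod_n])
    have h4 : 2 * Algebra.trace (ZMod p) E c = 0 := by linear_combination -h2
    exact (mul_eq_zero.mp h4).resolve_left h3

lemma sum_SS_bound (hp2 : p ≠ 2) {j K : ℕ} (hcard : Fintype.card E = (p ^ j) ^ 2)
    (hk : p ∣ Module.finrank (ZMod p) E)
    (h : ∀ f : E[X], f.natDegree = 2 * p - 1 →
      (univ.filter fun P : E × E => P.2 ^ 2 = f.eval P.1).card ≤ Fintype.card E + K)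
    {a b : ZMod p} (ha : a ≠ 0) (hb : b ≠ 0) :
    ‖∑ c ∈ univ.erase (0 : ZMod p), SS ZMod.stdAddChar (c * a) (c * b) E‖ ≤ K := by
  have hp : p.Prime := Fact.out
  have : CharP E p := charP_of_injective_algebraMap (algebraMap (ZMod p) E).injective p
  have hE : ringChar E ≠ 2 := by rwa [ringChar.eq E p]
  have h2 : (2 : E) ≠ 0 := Ring.two_ne_zero hE
  obtain ⟨c, hc⟩ := exists_sqrt hp2 hE hcard (4 * a * b)
  have htr := trace_sqrt hp2 hk hc
  have hc' : 4 * algebraMap (ZMod p) E a * algebraMap (ZMod p) E b = c ^ 2 := by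
    rw [hc, map_mul, map_mul, map_ofNat]
  have hc0 : c ≠ 0 := by
    rintro rfl
    have h4 : (4 : E) ≠ 0 := by
      have : (4 : E) = 2 * 2 := by norm_num
      rw [this]
      exact mul_ne_zero h2 h2
    refine mul_ne_zero (mul_ne_zero h4 ((_root_.map_ne_zero (algebraMap (ZMod p) E)).mpr ha))
      ((_root_.map_ne_zero (algebraMap (ZMod p) E)).mpr hb) ?_
    rw [hc']
    simp
  obtain ⟨z₀, hz₀⟩ : (univ.filter fun z : E => z ^ p - z = c).Nonempty := by
    rw [← Finset.card_pos, card_AS, if_pos htr]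
    exact hp.pos
  have h3 := sum_SS hE ha hb
  rw [hc', sum_model (mem_filter.mp hz₀).2, ← Finset.add_sum_erase _ _ (mem_univ 0)] at h3
  have h4 : SS ZMod.stdAddChar (0 * a) (0 * b) E = Fintype.card E - 1 := by
    have : ∀ x : E, (if x = 0 then (0 : ℂ) else 1) = 1 - if x = 0 then 1 else 0 := by
      intro x
      split_ifs <;> simp
    simp only [SS, zero_mul, map_zero, add_zero, AddChar.map_zero_eq_one]
    simp_rw [this]
    rw [Finset.sum_sub_distrib]
    simp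
  have h5 : ∑ c ∈ univ.erase (0 : ZMod p), SS ZMod.stdAddChar (c * a) (c * b) E =
      ((∑ s : E, quadraticChar E ((gp p c).eval s) : ℤ) : ℂ) := by
    rw [h4, Int.cast_sub, Int.cast_one] at h3
    linear_combination h3
  rw [h5, Complex.norm_intCast]
  exact_mod_cast hyp_abs hE h (gp_natDegree (mul_ne_zero h2 hc0))

end AS

end Pool.Agent.MP_39a890_nt.WeilP

end MrgPart4

-- ======== part 5: formerly Pool.Agent.MP_39a890_nt.Weil
section MrgPart5

/-!
# PROJECT E287, module WEIL: the bound for Kloosterman sums from the point bound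
-/

namespace Pool.Agent.MP_39a890_nt

open Polynomial Finset Filter Topology

namespace WeilP

lemma cesaro_pow {u : ℂ} (hu : ‖u‖ ≤ 1) :
    Tendsto (fun n : ℕ => (n⁻¹ : ℝ) • ∑ i ∈ range n, u ^ i) atTop
      (𝓝 (if u = 1 then 1 else 0)) := by
  split_ifs with h
  · subst h
    simp only [one_pow]
    exact (tendsto_const_nhds (x := (1 : ℂ))).cesaro_smul
  · have hb : ∀ n : ℕ, ‖∑ i ∈ range n, u ^ i‖ ≤ 2 / ‖u - 1‖ := by
      intro n
      rw [geom_sum_eq h, norm_div]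
      gcongr
      refine (norm_sub_le _ _).trans ?_
      rw [norm_pow, norm_one]
      have := pow_le_one₀ (norm_nonneg u) hu (n := n)
      linarith
    refine squeeze_zero_norm (a := fun n : ℕ => (n⁻¹ : ℝ) * (2 / ‖u - 1‖)) (fun n => ?_) ?_
    · rw [norm_smul, Real.norm_eq_abs, abs_of_nonneg (by positivity)]
      gcongr
      exact hb n
    · simpa using tendsto_inv_atTop_nhds_zero_nat.mul_const (2 / ‖u - 1‖)

lemma pow_sum_bound {ι : Type} (s : Finset ι) (w : ι → ℂ) {C r : ℝ} (hr : 0 < r)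
    (h : ∀ᶠ n : ℕ in atTop, ‖∑ i ∈ s, w i ^ n‖ ≤ C * r ^ n) : ∀ i ∈ s, ‖w i‖ ≤ r := by
  classical
  by_contra hcon
  push Not at hcon
  obtain ⟨i₁, hi₁, hlt⟩ := hcon
  obtain ⟨i₀, hi₀, hmax⟩ := Finset.exists_max_image s (fun i => ‖w i‖) ⟨i₁, hi₁⟩
  have hR : r < ‖w i₀‖ := hlt.trans_le (hmax i₁ hi₁)
  have hR0 : 0 < ‖w i₀‖ := hr.trans hR
  have hw0 : w i₀ ≠ 0 := norm_pos_iff.mp hR0
  have h1 : Tendsto (fun n : ℕ => ∑ i ∈ s, (w i / w i₀) ^ n) atTop (𝓝 0) := by
    refine squeeze_zero_norm' (a := fun n : ℕ => C * (r / ‖w i₀‖) ^ n) ?_ ?_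
    · filter_upwards [h] with n hn
      simp_rw [div_pow]
      rw [← Finset.sum_div, norm_div, norm_pow, ← mul_div_assoc]
      gcongr
    · have := (tendsto_pow_atTop_nhds_zero_of_lt_one (r := r / ‖w i₀‖) (by positivity)
        ((div_lt_one hR0).mpr hR)).const_mul C
      simpa using this
  have h2 := h1.cesaro_smul
  have h3 : Tendsto (fun n : ℕ => ∑ i ∈ s, (n⁻¹ : ℝ) • ∑ k ∈ range n, (w i / w i₀) ^ k) atTop
      (𝓝 (∑ i ∈ s, if w i / w i₀ = 1 then 1 else 0)) := by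
    refine tendsto_finsetSum s fun i hi => cesaro_pow ?_
    rw [norm_div, div_le_one hR0]
    exact hmax i hi
  have h4 : (∑ i ∈ s, if w i / w i₀ = 1 then (1 : ℂ) else 0) = 0 := by
    refine tendsto_nhds_unique h3 (h2.congr fun n => ?_)
    rw [Finset.sum_comm, Finset.smul_sum]
  rw [Finset.sum_boole, Nat.cast_eq_zero, Finset.card_eq_zero, Finset.filter_eq_empty_iff] at h4
  exact h4 hi₀ (div_self hw0)

lemma norm_le_sqrt {p : ℕ} (hp : 0 < p) {α : ℂ} (h : ‖α ^ (2 * p)‖ ≤ (p : ℝ) ^ p) :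
    ‖α‖ ≤ √(p : ℝ) := by
  rw [norm_pow, pow_mul] at h
  exact Real.le_sqrt_of_sq_le ((pow_le_pow_iff_left₀ (by positivity) (by positivity) hp.ne').mp h)

end WeilP

open WeilP in
theorem weil (h : HypStmt) : WeilStmt := by
  classical
  intro p _ a b ha hb
  have hp : p.Prime := Fact.out
  by_cases hp2 : p = 2
  · subst hp2
    refine (norm_sum_le _ _).trans ?_
    have h1 : ∀ x : ZMod 2, ‖ZMod.stdAddChar x‖ = 1 := fun x => AddChar.norm_apply _ _
    simp_rw [h1]
    have h2 : (1 : ℝ) ≤ √2 := Real.one_le_sqrt.mpr (by norm_num)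
    rw [Finset.sum_const, Finset.card_univ, ZMod.card_units]
    norm_num
    linarith
  let inst : ∀ k, Fintype (GaloisField p k) := fun k => Fintype.ofFinite _
  have hE : ∀ k, 1 ≤ k → Module.finrank (ZMod p) (GaloisField p k) = k :=
    fun k hk => GaloisField.finrank p (by omega)
  have hex : ∀ c : ZMod p, ∃ α β : ℂ, c ≠ 0 →
      (α + β = -∑ x : (ZMod p)ˣ, ZMod.stdAddChar (c * a * (x : ZMod p) +
        c * b * ((x⁻¹ : (ZMod p)ˣ) : ZMod p)) ∧
      ∀ k, 1 ≤ k → SS ZMod.stdAddChar (c * a) (c * b) (GaloisField p k) = -(α ^ k + β ^ k)) := by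
    intro c
    by_cases hc : c = 0
    · exact ⟨0, 0, fun h => absurd hc h⟩
    have ht : ZMod.stdAddChar (c * a * 1) ≠ 1 := by
      rw [mul_one, ← (ZMod.stdAddChar (N := p)).map_zero_eq_one]
      exact fun h => mul_ne_zero hc ha (ZMod.injective_stdAddChar h)
    obtain ⟨α, β, h1⟩ := SS_pow ZMod.stdAddChar (c * a) (c * b) (GaloisField p) hE ht
    exact ⟨α, β, fun _ => h1⟩
  choose α β hαβ using hex
  obtain ⟨C, Q₀, hC⟩ := h (2 * p - 1) (by
    have := hp.pos
    exact ⟨p - 1, by omega⟩)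
  have key := pow_sum_bound ((univ.erase (0 : ZMod p)) ×ˢ (univ : Finset Bool))
    (fun z => (if z.2 then α z.1 else β z.1) ^ (2 * p)) (C := C) (r := (p : ℝ) ^ p)
    (by have := hp.pos; positivity) (by
      filter_upwards [eventually_ge_atTop (Q₀ + 1)] with n hn
      have hk : 1 ≤ 2 * p * n := Nat.mul_pos (by have := hp.pos; omega) (by omega)
      have hcard : Fintype.card (GaloisField p (2 * p * n)) = (p ^ (p * n)) ^ 2 := by
        rw [← Nat.card_eq_fintype_card, GaloisField.card p _ (by omega), ← pow_mul]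
        congr 1
        ring
      have hQ : Q₀ ≤ p ^ (p * n) := by
        have h1 : p * n < p ^ (p * n) := Nat.lt_pow_self hp.one_lt
        have h2 : n ≤ p * n := Nat.le_mul_of_pos_left n hp.pos
        omega
      have h1 := sum_SS_bound (E := GaloisField p (2 * p * n)) (K := C * p ^ (p * n)) hp2 hcard
        (by rw [hE _ hk]; exact ⟨2 * n, by ring⟩)
        (fun f hf => hcard ▸ hC _ p (p * n) hp hcard hQ f hf) ha hb
      rw [Finset.sum_congr rfl fun c hc => (hαβ c (mem_erase.mp hc).1).2 _ hk,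
        Finset.sum_neg_distrib, norm_neg] at h1
      rw [Finset.sum_product]
      simp only [Fintype.sum_bool, if_true, Bool.false_eq_true, if_false, ← pow_mul]
      exact_mod_cast h1)
  have h1 := key (1, true) (by simp)
  have h2 := key (1, false) (by simp)
  simp only [if_true, Bool.false_eq_true, if_false] at h1 h2
  have h3 := (hαβ 1 one_ne_zero).1
  simp only [one_mul] at h3
  rw [← norm_neg, ← h3]
  have h4 := norm_le_sqrt hp.pos h1
  have h5 := norm_le_sqrt hp.pos h2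
  linarith [norm_add_le (α 1) (β 1)]

end Pool.Agent.MP_39a890_nt

end MrgPart5

-- ======== part 6: formerly Pool.Agent.MP_39a890_nt.Count
section MrgPart6

/-! Riemann sums of a smooth weight along arithmetic progressions. -/

namespace Pool.Agent.MP_39a890_nt

open Finset MeasureTheory

namespace KL

theorem wt_zero {φ : ℝ → ℝ} (h : Wt φ) {x : ℝ} (hx : x < 1 ∨ 2 < x) : φ x = 0 := by
  by_contra h0
  have := h.supp x h0
  rcases hx with hx | hx <;> linarith [this.1, this.2]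

theorem wt_cs {φ : ℝ → ℝ} (h : Wt φ) : HasCompactSupport φ :=
  HasCompactSupport.intro (isCompact_Icc (a := 1) (b := 2)) fun x hx => by
    by_contra h0
    exact hx (h.supp x h0)

theorem riem {φ : ℝ → ℝ} (h : Wt φ) : ∃ C : ℝ, 0 ≤ C ∧ ∀ (l μ : ℝ) (N : ℕ), 0 < l → μ < 1 + l →
    2 ≤ μ + l * N → |∑ m ∈ range N, φ (μ + l * m) - (∫ u, φ u) / l| ≤ C := by
  have d1 : Differentiable ℝ φ := h.smooth.differentiable (by simp)
  have c1 : Continuous (deriv φ) := h.smooth.continuous_deriv (by simp)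
  have c2 : Continuous fun u => |deriv φ u| := c1.abs
  have i2 : Integrable fun u => |deriv φ u| :=
    (c1.integrable_of_hasCompactSupport (wt_cs h).deriv).abs
  refine ⟨∫ u, |deriv φ u|, integral_nonneg fun _ => abs_nonneg _, fun l μ N hl h1 h2 => ?_⟩
  have a : ∀ x : ℝ, |φ x - (∫ u in x..x + l, φ u) / l| ≤ ∫ u in x..x + l, |deriv φ u| := by
    intro x
    have b : ∀ t ∈ Set.uIoc x (x + l), ‖φ t - φ x‖ ≤ ∫ u in x..x + l, |deriv φ u| := by
      intro t ht
      rw [Set.uIoc_of_le (by linarith)] at ht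
      rw [← intervalIntegral.integral_deriv_eq_sub (fun _ _ => d1 _) (c1.intervalIntegrable _ _)]
      refine (intervalIntegral.norm_integral_le_integral_norm ht.1.le).trans ?_
      exact intervalIntegral.integral_mono_interval le_rfl ht.1.le ht.2
        (ae_of_all _ fun _ => abs_nonneg _) (c2.intervalIntegrable _ _)
    have := intervalIntegral.norm_integral_le_of_norm_le_const b
    rw [intervalIntegral.integral_sub (d1.continuous.intervalIntegrable _ _)
      (continuous_const.intervalIntegrable _ _), intervalIntegral.integral_const,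
      add_sub_cancel_left, abs_of_pos hl, smul_eq_mul, Real.norm_eq_abs] at this
    rw [abs_sub_comm, div_sub' hl.ne', abs_div, abs_of_pos hl, div_le_iff₀ hl]
    exact this
  let x : ℕ → ℝ := fun m => μ - l + l * m
  have xs : ∀ m, x (m + 1) = x m + l := fun m => by simp only [x]; push_cast; ring
  have e1 : ∑ m ∈ range N, φ (μ + l * m) = ∑ m ∈ range (N + 1), φ (x m) := by
    rw [sum_range_succ', wt_zero h (x := x 0) (Or.inl (by simp only [x]; push_cast; linarith)),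
      add_zero]
    exact sum_congr rfl fun m _ => by simp only [x]; push_cast; congr 1; ring
  have x0 : x 0 < 1 := by simp only [x]; push_cast; linarith
  have xN : 2 ≤ x (N + 1) := by simp only [x]; push_cast; linarith
  have e2 : ∫ u, φ u = ∑ m ∈ range (N + 1), ∫ u in x m..x (m + 1), φ u := by
    rw [intervalIntegral.sum_integral_adjacent_intervals fun _ _ =>
      d1.continuous.intervalIntegrable _ _, intervalIntegral.integral_eq_integral_of_support_subset]
    exact fun u hu => ⟨x0.trans_le (h.supp u hu).1, (h.supp u hu).2.trans xN⟩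
  rw [e1, e2, sum_div, ← sum_sub_distrib]
  refine (abs_sum_le_sum_abs _ _).trans ((sum_le_sum (g := fun m => ∫ u in x m..x (m + 1),
    |deriv φ u|) fun m _ => by simp only [xs]; exact a (x m)).trans ?_)
  rw [intervalIntegral.sum_integral_adjacent_intervals fun _ _ => c2.intervalIntegrable _ _,
    intervalIntegral.integral_of_le (by linarith)]
  exact setIntegral_le_integral i2 (ae_of_all _ fun _ => abs_nonneg _)

theorem ts {f : ℕ → ℝ} {s : Finset ℕ} (h : ∀ n, n ∉ s → f n = 0) : ∑' n, f n = ∑ n ∈ s, f n :=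
  tsum_eq_sum h

end KL

open KL

theorem count : CountStmt := by
  intro φ h
  obtain ⟨C, -, hC⟩ := riem h
  refine ⟨C, fun X hX q n₀ hq => ?_⟩
  have X0 : 0 < X := by linarith
  have q1 : (1 : ℝ) ≤ q := by exact_mod_cast hq
  have hN := Nat.le_ceil (3 * X)
  have z : ∀ n : ℕ, n ∉ range ⌈3 * X⌉₊ → ∀ y : ℝ, n ≤ y → φ (y / X) = 0 := fun n hn y hy => by
    have : (⌈3 * X⌉₊ : ℝ) ≤ n := by exact_mod_cast not_lt.1 (mem_range.not.1 hn)
    exact wt_zero h (Or.inr (by rw [lt_div_iff₀ X0]; linarith))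
  have r0 : (0 : ℝ) ≤ (n₀ % q : ℕ) := Nat.cast_nonneg _
  have r1 : ((n₀ % q : ℕ) : ℝ) < q := by exact_mod_cast Nat.mod_lt _ hq
  have e : cnt₁ φ X q n₀ = ∑ m ∈ range ⌈3 * X⌉₊, φ ((n₀ % q : ℕ) / X + q / X * m) := by
    rw [cnt₁, ← ts (fun n hn => by rw [z n hn n le_rfl, ite_self]),
      ← ts (fun m hm => by
        rw [div_mul_eq_mul_div, ← add_div]
        exact z m hm _ (by nlinarith [Nat.cast_nonneg (α := ℝ) m])),
      ← Function.Injective.tsum_eq (g := fun m => n₀ % q + q * m)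
        (fun a b hab => by simpa [hq.ne'] using hab)]
    · refine tsum_congr fun m => ?_
      rw [if_pos (by simp [Nat.ModEq])]
      push_cast; congr 1; ring
    · intro n hn
      refine ⟨n / q, ?_⟩
      have : n ≡ n₀ [MOD q] := by by_contra h'; simp [h'] at hn
      simp only
      rw [← this, Nat.mod_add_div]
  have := hC (q / X) ((n₀ % q : ℕ) / X) ⌈3 * X⌉₊ (by positivity)
    (by linarith [div_lt_div_of_pos_right r1 X0])
    (by rw [div_mul_eq_mul_div, ← add_div, le_div_iff₀ X0]; nlinarith)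
  rwa [e, show X * (∫ u, φ u) / q = (∫ u, φ u) / (q / X) by field_simp]

end Pool.Agent.MP_39a890_nt

end MrgPart6

-- ======== part 7: formerly Pool.Agent.MP_39a890_nt.BV.Smooth
section MrgPart7

/-!
# E287, module BV: smooth weights and summation by parts
-/

namespace Pool.Agent.MP_39a890_nt.BV

open Finset Filter Topology

variable {φ : ℝ → ℝ}

lemma wt_lt (hφ : Wt φ) {t : ℝ} (ht : t < 1) : φ t = 0 := by
  by_contra h
  linarith [(hφ.supp t h).1]

lemma wt_gt (hφ : Wt φ) {t : ℝ} (ht : 2 < t) : φ t = 0 := by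
  by_contra h
  linarith [(hφ.supp t h).2]

lemma wt_cs (hφ : Wt φ) : HasCompactSupport φ :=
  HasCompactSupport.intro (K := Set.Icc 1 2) isCompact_Icc fun t ht => by
    by_contra h
    exact ht (hφ.supp t h)

lemma lip1 (hφ : Wt φ) : ∃ L : ℝ, 0 ≤ L ∧ ∀ s t, |φ s - φ t| ≤ L * |s - t| := by
  obtain ⟨C, hC⟩ := hφ.smooth.lipschitzWith_of_hasCompactSupport (wt_cs hφ) (by simp)
  exact ⟨C, C.2, fun s t => by simpa [Real.dist_eq] using hC.dist_le_mul s t⟩

lemma lip2 (hφ : Wt φ) :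
    ∃ L : ℝ, 0 ≤ L ∧ ∀ t h, 0 ≤ h → |φ (t + 2 * h) - 2 * φ (t + h) + φ t| ≤ L * h ^ 2 := by
  have hd : ContDiff ℝ (⊤ : ℕ∞) (deriv φ) := (contDiff_infty_iff_deriv.1 hφ.smooth).2
  have hdiff : Differentiable ℝ φ := (contDiff_infty_iff_deriv.1 hφ.smooth).1
  obtain ⟨C, hC⟩ := hd.lipschitzWith_of_hasCompactSupport (wt_cs hφ).deriv (by simp)
  refine ⟨C, C.2, fun t h hh => ?_⟩
  have hg : ∀ s, HasDerivAt (fun s => φ (s + h) - φ s) (deriv φ (s + h) - deriv φ s) s := fun s =>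
    ((hdiff (s + h)).hasDerivAt.comp_add_const s h).sub (hdiff s).hasDerivAt
  have hb : ∀ s, ‖deriv φ (s + h) - deriv φ s‖ ≤ C * h := fun s => by
    simpa [Real.dist_eq, abs_of_nonneg hh] using hC.dist_le_mul (s + h) s
  have := convex_univ.norm_image_sub_le_of_norm_hasDerivWithin_le
    (f := fun s => φ (s + h) - φ s) (f' := fun s => deriv φ (s + h) - deriv φ s)
    (C := C * h) (x := t) (y := t + h) (fun s _ => (hg s).hasDerivWithinAt) (fun s _ => hb s)
    (Set.mem_univ _) (Set.mem_univ _)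
  simp only [add_sub_cancel_left, Real.norm_eq_abs, abs_of_nonneg hh] at this
  have e : φ (t + 2 * h) - 2 * φ (t + h) + φ t = φ (t + h + h) - φ (t + h) - (φ (t + h) - φ t) := by
    rw [show t + h + h = t + 2 * h by ring]; ring
  rw [e]
  nlinarith

lemma abel1 (a w : ℕ → ℂ) (N : ℕ) :
    ∑ n ∈ Ioc 0 N, a n * w n =
      (∑ n ∈ Ioc 0 N, a n) * w N - ∑ k ∈ range N, (∑ n ∈ Ioc 0 k, a n) * (w (k + 1) - w k) := by
  induction N with
  | zero => simp
  | succ N ih =>
    rw [sum_Ioc_succ_top (Nat.zero_le N), ih, sum_range_succ, sum_Ioc_succ_top (Nat.zero_le N)]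
    ring

lemma riesz_succ (a : ℕ → ℂ) (k : ℕ) :
    ∑ n ∈ Ioc 0 (k + 1), a n * (((k + 1 : ℕ) : ℂ) - n) =
      ∑ n ∈ Ioc 0 k, a n * ((k : ℂ) - n) + ∑ n ∈ Ioc 0 k, a n := by
  rw [sum_Ioc_succ_top (Nat.zero_le k), ← sum_add_distrib]
  simp only [sub_self, mul_zero, add_zero]
  refine sum_congr rfl fun n _ => ?_
  push_cast
  ring

lemma abel2 (a w : ℕ → ℂ) (N : ℕ) :
    ∑ n ∈ Ioc 0 N, a n * w n =
      (∑ n ∈ Ioc 0 N, a n) * w N - (∑ n ∈ Ioc 0 N, a n * ((N : ℂ) - n)) * (w (N + 1) - w N) +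
        ∑ k ∈ range N, (∑ n ∈ Ioc 0 (k + 1), a n * (((k + 1 : ℕ) : ℂ) - n)) *
          (w (k + 2) - 2 * w (k + 1) + w k) := by
  induction N with
  | zero => simp
  | succ N ih =>
    rw [sum_range_succ, sum_Ioc_succ_top (Nat.zero_le N), ih, riesz_succ a N,
      sum_Ioc_succ_top (Nat.zero_le N)]
    ring

lemma ceil_le4 {x : ℝ} (hx : 1 ≤ x) : (⌈3 * x⌉₊ : ℝ) ≤ 4 * x := by
  have := Nat.ceil_lt_add_one (show 0 ≤ 3 * x by linarith)
  linarith

lemma wt_top (hφ : Wt φ) {x : ℝ} (hx : 0 < x) {n : ℕ} (hn : ⌈3 * x⌉₊ ≤ n) : φ (n / x) = 0 := by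
  apply wt_gt hφ
  have h1 : 3 * x ≤ n := (Nat.le_ceil _).trans (by exact_mod_cast hn)
  rw [lt_div_iff₀ hx]
  linarith

lemma range_eq (hφ : Wt φ) {x : ℝ} (hx : 0 < x) (a : ℕ → ℂ) :
    ∑ n ∈ range ⌈3 * x⌉₊, a n * (φ (n / x) : ℂ) = ∑ n ∈ Ioc 0 ⌈3 * x⌉₊, a n * (φ (n / x) : ℂ) := by
  have h1 : ∑ n ∈ range (⌈3 * x⌉₊ + 1), a n * (φ (n / x) : ℂ) =
      ∑ n ∈ range ⌈3 * x⌉₊, a n * (φ (n / x) : ℂ) := by
    rw [sum_range_succ, wt_top hφ hx le_rfl]
    simp
  rw [← h1, Nat.range_succ_eq_Icc_zero, ← add_sum_Ioc_eq_sum_Icc (Nat.zero_le _)]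
  simp [wt_lt hφ zero_lt_one]

lemma smooth1 (hφ : Wt φ) : ∃ L : ℝ, 0 ≤ L ∧ ∀ x : ℝ, 1 ≤ x → ∀ (a : ℕ → ℂ) (ρ : ℝ), 0 ≤ ρ →
    (∀ k : ℕ, x - 1 ≤ k → (k : ℝ) ≤ 4 * x → ‖∑ n ∈ Ioc 0 k, a n‖ ≤ ρ) →
    ‖∑ n ∈ range ⌈3 * x⌉₊, a n * (φ (n / x) : ℂ)‖ ≤ L * ρ := by
  obtain ⟨L, hL0, hL⟩ := lip1 hφ
  refine ⟨4 * L, by positivity, fun x hx a ρ hρ h => ?_⟩
  have hx0 : 0 < x := by linarith
  rw [range_eq hφ hx0, abel1 a (fun n => (φ (n / x) : ℂ)), wt_top hφ hx0 le_rfl]
  simp only [Complex.ofReal_zero, mul_zero, zero_sub, norm_neg]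
  have key : ∀ k ∈ range ⌈3 * x⌉₊,
      ‖(∑ n ∈ Ioc 0 k, a n) * ((φ (((k + 1 : ℕ) : ℝ) / x) : ℂ) - (φ (k / x) : ℂ))‖ ≤ ρ * (L / x) := by
    intro k hk
    by_cases hk1 : x - 1 ≤ k
    · have hk4 : (k : ℝ) ≤ 4 * x :=
        le_trans (by exact_mod_cast (mem_range.1 hk).le) (ceil_le4 hx)
      rw [norm_mul, ← Complex.ofReal_sub, Complex.norm_real, Real.norm_eq_abs]
      refine mul_le_mul (h k hk1 hk4) ((hL _ _).trans (le_of_eq ?_)) (abs_nonneg _) hρ
      rw [← sub_div]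
      push_cast
      rw [add_sub_cancel_left, abs_of_nonneg (by positivity)]
      ring
    · push Not at hk1
      rw [wt_lt hφ (t := ((k + 1 : ℕ) : ℝ) / x) (by rw [div_lt_one hx0]; push_cast; linarith),
        wt_lt hφ (t := k / x) (by rw [div_lt_one hx0]; linarith)]
      simp only [Complex.ofReal_zero, sub_self, mul_zero, norm_zero]
      positivity
  refine (norm_sum_le _ _).trans ((sum_le_card_nsmul _ _ _ key).trans ?_)
  rw [card_range, nsmul_eq_mul]
  calc (⌈3 * x⌉₊ : ℝ) * (ρ * (L / x)) ≤ 4 * x * (ρ * (L / x)) := by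
        gcongr
        exact ceil_le4 hx
    _ = 4 * L * ρ := by field_simp

lemma smooth2 (hφ : Wt φ) : ∃ L : ℝ, 0 ≤ L ∧ ∀ x : ℝ, 1 ≤ x → ∀ (a : ℕ → ℂ) (ρ : ℝ), 0 ≤ ρ →
    (∀ k : ℕ, x - 1 ≤ k → (k : ℝ) ≤ 4 * x → ‖∑ n ∈ Ioc 0 k, a n * ((k : ℂ) - n)‖ ≤ ρ) →
    ‖∑ n ∈ range ⌈3 * x⌉₊, a n * (φ (n / x) : ℂ)‖ ≤ L * ρ / x := by
  obtain ⟨L, hL0, hL⟩ := lip2 hφ
  refine ⟨4 * L, by positivity, fun x hx a ρ hρ h => ?_⟩
  have hx0 : 0 < x := by linarith
  rw [range_eq hφ hx0, abel2 a (fun n => (φ (n / x) : ℂ)), wt_top hφ hx0 le_rfl,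
    wt_top hφ hx0 (Nat.le_succ _)]
  simp only [Complex.ofReal_zero, mul_zero, sub_self, zero_add]
  have key : ∀ k ∈ range ⌈3 * x⌉₊,
      ‖(∑ n ∈ Ioc 0 (k + 1), a n * (((k + 1 : ℕ) : ℂ) - n)) *
        ((φ (((k + 2 : ℕ) : ℝ) / x) : ℂ) - 2 * (φ (((k + 1 : ℕ) : ℝ) / x) : ℂ) + (φ (k / x) : ℂ))‖
          ≤ ρ * (L / x ^ 2) := by
    intro k hk
    by_cases hk1 : x - 1 ≤ ((k + 1 : ℕ) : ℝ)
    · have hk4 : ((k + 1 : ℕ) : ℝ) ≤ 4 * x :=
        le_trans (by exact_mod_cast (mem_range.1 hk)) (ceil_le4 hx)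
      have e : ((φ (((k + 2 : ℕ) : ℝ) / x) : ℂ) - 2 * (φ (((k + 1 : ℕ) : ℝ) / x) : ℂ) +
          (φ (k / x) : ℂ)) =
          ((φ (k / x + 2 * (1 / x)) - 2 * φ (k / x + 1 / x) + φ (k / x) : ℝ) : ℂ) := by
        have e1 : ((k + 2 : ℕ) : ℝ) / x = k / x + 2 * (1 / x) := by push_cast; ring
        have e2 : ((k + 1 : ℕ) : ℝ) / x = k / x + 1 / x := by push_cast; ring
        rw [e1, e2]
        push_cast
        ring
      rw [norm_mul, e, Complex.norm_real, Real.norm_eq_abs]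
      refine mul_le_mul (h (k + 1) hk1 hk4) ((hL _ _ (by positivity)).trans (le_of_eq ?_))
        (abs_nonneg _) hρ
      field_simp
    · push Not at hk1
      push_cast at hk1
      rw [wt_lt hφ (t := ((k + 2 : ℕ) : ℝ) / x) (by rw [div_lt_one hx0]; push_cast; linarith),
        wt_lt hφ (t := ((k + 1 : ℕ) : ℝ) / x) (by rw [div_lt_one hx0]; push_cast; linarith),
        wt_lt hφ (t := k / x) (by rw [div_lt_one hx0]; linarith)]
      simp only [Complex.ofReal_zero, sub_self, mul_zero, add_zero, norm_zero]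
      positivity
  refine (norm_sum_le _ _).trans ((sum_le_card_nsmul _ _ _ key).trans ?_)
  rw [card_range, nsmul_eq_mul]
  calc (⌈3 * x⌉₊ : ℝ) * (ρ * (L / x ^ 2)) ≤ 4 * x * (ρ * (L / x ^ 2)) := by
        gcongr
        exact ceil_le4 hx
    _ = 4 * L * ρ / x := by field_simp

lemma riemann (hφ : Wt φ) : ∃ C : ℝ, ∀ x : ℝ, 1 ≤ x →
    x * (∫ u, φ u) ≤ ∑ n ∈ range ⌈3 * x⌉₊, φ (n / x) + C := by
  obtain ⟨L, hL0, hL⟩ := lip1 hφ
  refine ⟨4 * L, fun x hx => ?_⟩
  have hx0 : 0 < x := by linarith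
  have hc : Continuous φ := hφ.smooth.continuous
  set N := ⌈3 * x⌉₊ with hN
  have h3 : 3 * x ≤ N := Nat.le_ceil _
  have e1 : ∫ u, φ u = ∫ u in (((0 : ℕ) : ℝ) / x)..((N : ℝ) / x), φ u := by
    symm
    apply intervalIntegral.integral_eq_integral_of_support_subset
    intro t ht
    have := hφ.supp t ht
    have h4 : (3 : ℝ) ≤ N / x := by rw [le_div_iff₀ hx0]; exact h3
    constructor
    · simp only [Nat.cast_zero, zero_div]; linarith [this.1]
    · linarith [this.2]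
  rw [e1, ← intervalIntegral.sum_integral_adjacent_intervals (a := fun k : ℕ => (k : ℝ) / x)
    (fun k _ => hc.intervalIntegrable _ _), mul_sum]
  have key : ∀ k ∈ range N, x * ∫ u in ((k : ℝ) / x)..(((k + 1 : ℕ) : ℝ) / x), φ u ≤
      φ (k / x) + L / x := by
    intro k _
    have hle : (k : ℝ) / x ≤ ((k + 1 : ℕ) : ℝ) / x := by
      gcongr
      exact Nat.le_succ k
    have hd : ((k + 1 : ℕ) : ℝ) / x - (k : ℝ) / x = 1 / x := by push_cast; ring
    have h1 : ∫ u in ((k : ℝ) / x)..(((k + 1 : ℕ) : ℝ) / x), φ u ≤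
        ∫ _ in ((k : ℝ) / x)..(((k + 1 : ℕ) : ℝ) / x), (φ (k / x) + L / x) := by
      refine intervalIntegral.integral_mono_on hle (hc.intervalIntegrable _ _)
        (continuous_const.intervalIntegrable _ _) fun u hu => ?_
      have h2 := (le_abs_self _).trans (hL u (k / x))
      rw [abs_of_nonneg (by linarith [hu.1])] at h2
      have h3 : L * (u - k / x) ≤ L * (1 / x) := by
        gcongr
        linarith [hu.2]
      rw [mul_one_div] at h3
      linarith
    rw [intervalIntegral.integral_const, hd, smul_eq_mul] at h1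
    calc x * _ ≤ x * (1 / x * (φ (k / x) + L / x)) := by gcongr
      _ = _ := by field_simp
  refine (sum_le_sum key).trans ?_
  rw [sum_add_distrib, sum_const, card_range, nsmul_eq_mul]
  have : (N : ℝ) * (L / x) ≤ 4 * x * (L / x) := by
    gcongr
    exact ceil_le4 hx
  have e : 4 * x * (L / x) = 4 * L := by field_simp
  linarith

end Pool.Agent.MP_39a890_nt.BV

end MrgPart7

-- ======== part 8: formerly Pool.Agent.MP_39a890_nt.BV.Char
section MrgPart8

/-!
# E287, module BV: progressions and primitive characters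
-/

namespace Pool.Agent.MP_39a890_nt.BV

open Finset Filter Topology ArithmeticFunction

variable {φ : ℝ → ℝ}

/-- Weight of a prime. -/
noncomputable def pw (φ : ℝ → ℝ) (x : ℝ) (m : ℕ) : ℝ :=
  if m.Prime then φ (((m : ℝ) - 1) / x) * Real.log m else 0

/-- Smoothed character sum. -/
noncomputable def Psi (φ : ℝ → ℝ) (x : ℝ) (z : Σ f : ℕ, DirichletCharacter ℂ f) : ℂ :=
  ∑ n ∈ range ⌈3 * x⌉₊, (Λ n : ℂ) * z.2 n * (φ (n / x) : ℂ)

lemma pw_nonneg (hφ : Wt φ) (x : ℝ) (m : ℕ) : 0 ≤ pw φ x m := by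
  unfold pw
  split_ifs
  · exact mul_nonneg (hφ.nonneg _) (Real.log_natCast_nonneg m)
  · exact le_rfl

lemma pw_ne (hφ : Wt φ) {x : ℝ} (hx : 0 < x) {m : ℕ} (h : pw φ x m ≠ 0) :
    m.Prime ∧ x + 1 ≤ m ∧ (m : ℝ) ≤ 2 * x + 1 := by
  unfold pw at h
  split_ifs at h with hm
  · have := hφ.supp _ (left_ne_zero_of_mul h)
    rw [le_div_iff₀ hx, div_le_iff₀ hx] at this
    exact ⟨hm, by linarith [this.1], by linarith [this.2]⟩
  · exact absurd rfl h

lemma pw_diff (hφ : Wt φ) : ∃ C : ℝ, 0 ≤ C ∧ ∀ x : ℝ, 1 ≤ x →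
    ∑ m ∈ range ⌈3 * x⌉₊, |pw φ x m - Λ m * φ (m / x)| ≤ C * √x * (1 + Real.log x) := by
  obtain ⟨L, hL0, hL⟩ := lip1 hφ
  refine ⟨8 * L + 8, by positivity, fun x hx => ?_⟩
  have hx0 : 0 < x := by linarith
  have hlx : 0 ≤ Real.log x := Real.log_nonneg hx
  have hl4 : Real.log (4 * x) ≤ 2 * (1 + Real.log x) := by
    rw [Real.log_mul (by norm_num) hx0.ne', show (4 : ℝ) = 2 ^ 2 by norm_num, Real.log_pow]
    have := Real.log_two_lt_d9
    push_cast
    linarith
  have hl0 : 0 ≤ Real.log (4 * x) := Real.log_nonneg (by linarith)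
  have key : ∀ m ∈ range ⌈3 * x⌉₊, |pw φ x m - Λ m * φ (m / x)| ≤
      L / x * Real.log (4 * x) + if ¬ m.Prime then Λ m else 0 := by
    intro m hm
    have hm4 : (m : ℝ) ≤ 4 * x := le_trans (by exact_mod_cast (mem_range.1 hm).le) (ceil_le4 hx)
    unfold pw
    by_cases hp : m.Prime
    · simp only [hp, if_true, not_true, if_false, add_zero, vonMangoldt_apply_prime hp]
      rw [mul_comm (Real.log m), ← sub_mul, abs_mul, abs_of_nonneg (Real.log_natCast_nonneg m)]
      refine mul_le_mul ((hL _ _).trans (le_of_eq ?_))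
        (Real.log_le_log (by exact_mod_cast hp.pos) hm4) (Real.log_natCast_nonneg m)
        (by positivity)
      rw [← sub_div, sub_sub_cancel_left, abs_div, abs_neg, abs_one, abs_of_pos hx0]
      ring
    · simp only [hp, if_false, not_false_eq_true, if_true, zero_sub, abs_neg]
      rw [abs_of_nonneg (mul_nonneg vonMangoldt_nonneg (hφ.nonneg _))]
      have h1 := mul_le_mul_of_nonneg_left (hφ.le_one (m / x)) (vonMangoldt_nonneg (n := m))
      have h2 : 0 ≤ L / x * Real.log (4 * x) := by positivity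
      linarith
  refine (sum_le_sum key).trans ?_
  rw [sum_add_distrib, sum_const, card_range, nsmul_eq_mul, ← sum_filter]
  have h1 : (⌈3 * x⌉₊ : ℝ) * (L / x * Real.log (4 * x)) ≤ 4 * L * Real.log (4 * x) := by
    calc _ ≤ 4 * x * (L / x * Real.log (4 * x)) := by
          gcongr
          exact ceil_le4 hx
      _ = _ := by field_simp
  have h2 : ∑ m ∈ range ⌈3 * x⌉₊ with ¬ m.Prime, Λ m ≤ 2 * √(4 * x) * Real.log (4 * x) := by
    refine le_trans ?_ (Chebyshev.psi_sub_theta_le (x := 4 * x) (by linarith))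
    rw [Chebyshev.psi_sub_theta_eq_sum_not_prime]
    rw [← sum_filter_ne_zero]
    refine sum_le_sum_of_subset_of_nonneg (fun m hm' => ?_) fun _ _ _ => vonMangoldt_nonneg
    obtain ⟨hm, h0⟩ := mem_filter.1 hm'
    obtain ⟨h3, h4⟩ := mem_filter.1 hm
    refine mem_filter.2 ⟨mem_Ioc.2 ⟨Nat.pos_of_ne_zero ?_, Nat.le_floor ?_⟩, h4⟩
    · rintro rfl
      simp at h0
    · exact le_trans (by exact_mod_cast (mem_range.1 h3).le) (ceil_le4 hx)
  have h3 : √(4 * x) = 2 * √x := by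
    rw [Real.sqrt_mul (by norm_num), show (4 : ℝ) = 2 ^ 2 by norm_num, Real.sqrt_sq (by norm_num)]
  have h4 : 1 ≤ √x := Real.one_le_sqrt.2 hx
  rw [h3] at h2
  calc _ ≤ 4 * L * Real.log (4 * x) + 2 * (2 * √x) * Real.log (4 * x) := add_le_add h1 h2
    _ ≤ 4 * L * √x * Real.log (4 * x) + 2 * (2 * √x) * Real.log (4 * x) := by
        have : 4 * L ≤ 4 * L * √x := le_mul_of_one_le_right (by positivity) h4
        gcongr
    _ = (4 * L + 4) * √x * Real.log (4 * x) := by ring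
    _ ≤ (4 * L + 4) * √x * (2 * (1 + Real.log x)) := by gcongr
    _ = _ := by ring

lemma pcnt_eq (hφ : Wt φ) {X : ℝ} (hX : 2 ≤ X) {a : ℕ} (ha : 0 < a) (q n₀ : ℕ) :
    pcnt φ X a q n₀ = ∑ m ∈ range ⌈3 * (a * X)⌉₊,
      if m ≡ a * n₀ + 1 [MOD a * q] then pw φ (a * X) m else 0 := by
  have ha1 : (1 : ℝ) ≤ a := by exact_mod_cast ha
  have hX0 : 0 < X := by linarith
  have hx : 2 ≤ a * X := by nlinarith
  have e : ∀ n : ℕ, (((a * n + 1 : ℕ) : ℝ) - 1) / (a * X) = n / X := fun n => by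
    push_cast
    field_simp
    ring
  have hval : ∀ n : ℕ, (if n ≡ n₀ [MOD q] ∧ (a * n + 1).Prime then
      φ (n / X) * Real.log ((a * n + 1 : ℕ) : ℝ) else 0) =
      if a * n + 1 ≡ a * n₀ + 1 [MOD a * q] then pw φ (a * X) (a * n + 1) else 0 := by
    intro n
    have h1 : a * n + 1 ≡ a * n₀ + 1 [MOD a * q] ↔ n ≡ n₀ [MOD q] :=
      ⟨fun h => Nat.ModEq.mul_left_cancel' ha.ne' (Nat.ModEq.add_right_cancel' 1 h),
        fun h => (h.mul_left' a).add_right 1⟩
    unfold pw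
    rw [e]
    by_cases h2 : n ≡ n₀ [MOD q] <;> simp [h1, h2]
  unfold pcnt
  simp only [hval]
  refine sum_bij_ne_zero (fun n _ _ => a * n + 1) (fun n _ h0 => ?_) (fun n _ _ n' _ _ h => ?_)
    (fun m _ h0 => ?_) fun _ _ _ => rfl
  · have h1 : pw φ (a * X) (a * n + 1) ≠ 0 := fun h => h0 (by simp [h])
    have h2 := (pw_ne hφ (by linarith) h1).2.2
    exact mem_range.2 (Nat.lt_ceil.2 (by linarith))
  · exact Nat.eq_of_mul_eq_mul_left ha (Nat.add_right_cancel h)
  · have h1 : pw φ (a * X) m ≠ 0 := fun h => h0 (by simp [h])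
    have h2 : m ≡ a * n₀ + 1 [MOD a * q] := by
      by_contra h
      exact h0 (by simp [h])
    obtain ⟨h3, -, h4⟩ := pw_ne hφ (by linarith) h1
    have h5 : 1 ≡ m [MOD a] := by
      refine Nat.ModEq.trans ?_ (h2.of_mul_right q).symm
      simp
    obtain ⟨n, hn⟩ := (Nat.modEq_iff_dvd' h3.one_le).1 h5
    have h6 : a * n + 1 = m := by have := h3.one_le; omega
    refine ⟨n, mem_range.2 (Nat.lt_ceil.2 ?_), by rw [h6]; exact h0, h6⟩
    rw [← h6] at h4
    push_cast at h4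
    have h7 : (n : ℝ) ≤ 2 * X := by
      refine le_of_mul_le_mul_left ?_ (show (0 : ℝ) < a by linarith)
      linarith
    linarith

open Classical in
/-- The primitive characters that induce the non-principal characters modulo `n`. -/
noncomputable def prims (n : ℕ) : Finset (Σ f : ℕ, DirichletCharacter ℂ f) :=
  (univ.filter fun χ : DirichletCharacter ℂ n => χ ≠ 1).image
    fun χ => ⟨χ.conductor, χ.primitiveCharacter⟩

lemma prim_inj {n : ℕ} {χ ψ : DirichletCharacter ℂ n}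
    (h : (⟨χ.conductor, χ.primitiveCharacter⟩ : Σ f : ℕ, DirichletCharacter ℂ f) =
      ⟨ψ.conductor, ψ.primitiveCharacter⟩) : χ = ψ := by
  have key : ∀ (f g : ℕ) (hf : f ∣ n) (hg : g ∣ n) (u : DirichletCharacter ℂ f)
      (v : DirichletCharacter ℂ g), (⟨f, u⟩ : Σ f : ℕ, DirichletCharacter ℂ f) = ⟨g, v⟩ →
      DirichletCharacter.changeLevel hf u = DirichletCharacter.changeLevel hg v := by
    intro f g hf hg u v h
    cases h
    rfl
  rw [← χ.changeLevel_primitiveCharacter, ← ψ.changeLevel_primitiveCharacter]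
  exact key _ _ _ _ _ _ h

lemma mem_prims {n : ℕ} (hn : 0 < n) {z : Σ f : ℕ, DirichletCharacter ℂ f} (hz : z ∈ prims n) :
    0 < z.1 ∧ z.1 ∣ n ∧ z.2.IsPrimitive ∧ z.2 ≠ 1 := by
  have : NeZero n := ⟨hn.ne'⟩
  simp only [prims, mem_image, mem_filter, mem_univ, true_and] at hz
  obtain ⟨χ, hχ, rfl⟩ := hz
  refine ⟨Nat.pos_of_ne_zero χ.conductor_ne_zero, χ.conductor_dvd_level,
    χ.primitiveCharacter_isPrimitive, fun h => hχ ?_⟩
  have h' : χ.primitiveCharacter = 1 := h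
  rw [← χ.changeLevel_primitiveCharacter, h', map_one]

lemma sum_prims {n : ℕ} (g : (Σ f : ℕ, DirichletCharacter ℂ f) → ℝ)
    (s : Finset (DirichletCharacter ℂ n)) (hs : ∀ χ, χ ∈ s ↔ χ ≠ 1) :
    ∑ χ ∈ s, g ⟨χ.conductor, χ.primitiveCharacter⟩ = ∑ z ∈ prims n, g z := by
  classical
  unfold prims
  rw [sum_image fun _ _ _ _ h => prim_inj h]
  exact sum_congr (by ext χ; simp [hs]) fun _ _ => rfl

lemma prog (hφ : Wt φ) {x E : ℝ} (hx : 0 < x)
    (hE : ∑ m ∈ range ⌈3 * x⌉₊, |pw φ x m - Λ m * φ (m / x)| ≤ E) {n c : ℕ} (hn : 0 < n)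
    (hnx : (n : ℝ) ≤ x) (hc : c.Coprime n) :
    |(∑ m ∈ range ⌈3 * x⌉₊, if m ≡ c [MOD n] then pw φ x m else 0) -
        (∑ m ∈ range ⌈3 * x⌉₊, pw φ x m) / n.totient| ≤
      (∑ z ∈ prims n, ‖Psi φ x z‖) / n.totient + E := by
  classical
  have : NeZero n := ⟨hn.ne'⟩
  set N := ⌈3 * x⌉₊
  have hE0 : 0 ≤ E := (sum_nonneg fun _ _ => abs_nonneg _).trans hE
  have ht : (0 : ℝ) < n.totient := by exact_mod_cast Nat.totient_pos.2 hn
  have hu : IsUnit (c : ZMod n) := (ZMod.isUnit_iff_coprime c n).2 hc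
  have hcop : ∀ m, pw φ x m ≠ 0 → m.Coprime n := fun m hm => by
    obtain ⟨h1, h2, -⟩ := pw_ne hφ hx hm
    refine (Nat.Prime.coprime_iff_not_dvd h1).2 fun h => ?_
    have : (m : ℝ) ≤ n := by exact_mod_cast Nat.le_of_dvd hn h
    linarith
  let Θ : DirichletCharacter ℂ n → ℂ := fun χ => ∑ m ∈ range N, χ m * (pw φ x m : ℂ)
  have h1 : (n.totient : ℂ) * ((∑ m ∈ range N, if m ≡ c [MOD n] then pw φ x m else 0 : ℝ) : ℂ) =
      ∑ χ : DirichletCharacter ℂ n, χ (c : ZMod n)⁻¹ * Θ χ := by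
    simp only [Θ, mul_sum, Complex.ofReal_sum]
    rw [sum_comm]
    refine sum_congr rfl fun m _ => ?_
    simp only [← mul_assoc, ← sum_mul]
    rw [DirichletCharacter.sum_char_inv_mul_char_eq ℂ hu]
    have : ((c : ZMod n) = m) ↔ m ≡ c [MOD n] := by
      rw [ZMod.natCast_eq_natCast_iff]
      exact ⟨Nat.ModEq.symm, Nat.ModEq.symm⟩
    by_cases h : m ≡ c [MOD n] <;> simp [this, h]
  have h2 : (1 : DirichletCharacter ℂ n) (c : ZMod n)⁻¹ * Θ 1 =
      ((∑ m ∈ range N, pw φ x m : ℝ) : ℂ) := by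
    have hu' : IsUnit (c : ZMod n)⁻¹ := IsUnit.of_mul_eq_one _ (ZMod.inv_mul_of_unit _ hu)
    rw [MulChar.one_apply hu', one_mul, Complex.ofReal_sum]
    refine sum_congr rfl fun m _ => ?_
    by_cases h : pw φ x m = 0
    · simp [h]
    · rw [MulChar.one_apply ((ZMod.isUnit_iff_coprime m n).2 (hcop m h)), one_mul]
  have h3 : ∀ χ : DirichletCharacter ℂ n, ‖χ (c : ZMod n)⁻¹ * Θ χ‖ ≤
      ‖Psi φ x ⟨χ.conductor, χ.primitiveCharacter⟩‖ + E := by
    intro χ
    have e1 : Θ χ = ∑ m ∈ range N, χ.primitiveCharacter m * (pw φ x m : ℂ) := by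
      refine sum_congr rfl fun m _ => ?_
      by_cases h : pw φ x m = 0
      · simp [h]
      · have := χ.primitiveCharacter_apply_of_isCoprime (a := m)
          (Nat.isCoprime_iff_coprime.2 (hcop m h))
        simp only [Int.cast_natCast] at this
        rw [this]
    have e2 : ‖Θ χ - Psi φ x ⟨χ.conductor, χ.primitiveCharacter⟩‖ ≤ E := by
      rw [e1, Psi, ← sum_sub_distrib]
      refine (norm_sum_le _ _).trans (le_trans (sum_le_sum fun m _ => ?_) hE)
      have : χ.primitiveCharacter m * (pw φ x m : ℂ) -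
          (Λ m : ℂ) * χ.primitiveCharacter m * (φ (m / x) : ℂ) =
          χ.primitiveCharacter m * ((pw φ x m - Λ m * φ (m / x) : ℝ) : ℂ) := by
        push_cast
        ring
      rw [this, norm_mul, Complex.norm_real, Real.norm_eq_abs]
      exact mul_le_of_le_one_left (abs_nonneg _) (DirichletCharacter.norm_le_one _ _)
    rw [norm_mul]
    refine (mul_le_of_le_one_left (norm_nonneg _) (χ.norm_le_one _)).trans ?_
    linarith [norm_sub_norm_le (Θ χ) (Psi φ x ⟨χ.conductor, χ.primitiveCharacter⟩)]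
  rw [← add_sum_erase _ _ (mem_univ (1 : DirichletCharacter ℂ n)), h2] at h1
  have h4 : ‖∑ χ ∈ univ.erase (1 : DirichletCharacter ℂ n), χ (c : ZMod n)⁻¹ * Θ χ‖ ≤
      ∑ z ∈ prims n, ‖Psi φ x z‖ + n.totient * E := by
    refine (norm_sum_le _ _).trans ((sum_le_sum fun χ _ => h3 χ).trans ?_)
    rw [sum_add_distrib, sum_prims (fun z => ‖Psi φ x z‖) _ (by simp), sum_const, nsmul_eq_mul]
    have : (univ.erase (1 : DirichletCharacter ℂ n)).card ≤ n.totient := by
      refine (card_le_univ _).trans (le_of_eq ?_)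
      rw [← Nat.card_eq_fintype_card]
      exact DirichletCharacter.card_eq_totient_of_hasEnoughRootsOfUnity ℂ n
    gcongr
  rw [← sub_eq_iff_eq_add'.2 h1, ← Complex.ofReal_natCast, ← Complex.ofReal_mul,
    ← Complex.ofReal_sub, Complex.norm_real, Real.norm_eq_abs] at h4
  have e : (∑ m ∈ range N, if m ≡ c [MOD n] then pw φ x m else 0) -
      (∑ m ∈ range N, pw φ x m) / n.totient =
      (n.totient * (∑ m ∈ range N, if m ≡ c [MOD n] then pw φ x m else 0) -
        ∑ m ∈ range N, pw φ x m) / n.totient := by field_simp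
  rw [e, abs_div, abs_of_pos ht, div_le_iff₀ ht, add_mul, div_mul_cancel₀ _ ht.ne']
  linarith

lemma card_small (T : Finset (Σ f : ℕ, DirichletCharacter ℂ f)) {Q : ℝ} (hQ : 0 ≤ Q)
    (hT : ∀ z ∈ T, 0 < z.1 ∧ (z.1 : ℝ) ≤ Q) : (T.card : ℝ) ≤ Q ^ 2 := by
  have h1 : T ⊆ (Icc 1 ⌊Q⌋₊).sigma fun f => (univ : Finset (DirichletCharacter ℂ f)) :=
    fun z hz => mem_sigma.2 ⟨mem_Icc.2 ⟨(hT z hz).1, Nat.le_floor (hT z hz).2⟩, mem_univ _⟩
  have h2 : T.card ≤ ⌊Q⌋₊ * ⌊Q⌋₊ := by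
    refine (card_le_card h1).trans ?_
    rw [card_sigma]
    refine (sum_le_card_nsmul _ _ ⌊Q⌋₊ fun f hf => ?_).trans (by simp)
    rw [mem_Icc] at hf
    have : NeZero f := ⟨by omega⟩
    rw [card_univ, ← Nat.card_eq_fintype_card,
      DirichletCharacter.card_eq_totient_of_hasEnoughRootsOfUnity ℂ f]
    exact (Nat.totient_le f).trans hf.2
  have h3 : (⌊Q⌋₊ : ℝ) ≤ Q := Nat.floor_le hQ
  calc (T.card : ℝ) ≤ (⌊Q⌋₊ : ℝ) * ⌊Q⌋₊ := by exact_mod_cast h2
    _ ≤ Q * Q := by gcongr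
    _ = Q ^ 2 := by ring

end Pool.Agent.MP_39a890_nt.BV

end MrgPart8

-- ======== part 9: formerly Pool.Agent.MP_39a890_nt.BV.Arith
section MrgPart9

/-!
# E287, module BV: sums of `k ^ omega(q) / q`
-/

namespace Pool.Agent.MP_39a890_nt.BV

open Finset

lemma le_two_pow_mul_totient (n : ℕ) : n ≤ 2 ^ n.primeFactors.card * n.totient := by
  have h1 := Nat.totient_mul_prod_primeFactors n
  have h2 : ∏ p ∈ n.primeFactors, p ≤ 2 ^ n.primeFactors.card * ∏ p ∈ n.primeFactors, (p - 1) := by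
    rw [← prod_const, ← prod_mul_distrib]
    refine prod_le_prod' fun p hp => ?_
    have := (Nat.prime_of_mem_primeFactors hp).two_le
    omega
  have h3 : 0 < ∏ p ∈ n.primeFactors, p :=
    prod_pos fun p hp => (Nat.prime_of_mem_primeFactors hp).pos
  refine Nat.le_of_mul_le_mul_right ?_ h3
  calc n * ∏ p ∈ n.primeFactors, p
      ≤ n * (2 ^ n.primeFactors.card * ∏ p ∈ n.primeFactors, (p - 1)) := by gcongr
    _ = 2 ^ n.primeFactors.card * (n * ∏ p ∈ n.primeFactors, (p - 1)) := by ring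
    _ = _ := by rw [← h1]; ring

/-- The weight `k ^ omega(q) / q`. -/
noncomputable def hw (k q : ℕ) : ℝ := (k : ℝ) ^ q.primeFactors.card / q

lemma hw_nonneg (k q : ℕ) : 0 ≤ hw k q := by unfold hw; positivity

lemma div_totient_le (C q : ℕ) (hq : 0 < q) :
    (C : ℝ) ^ q.primeFactors.card / q.totient ≤ hw (2 * C + 1) q := by
  have h1 : (q : ℝ) ≤ 2 ^ q.primeFactors.card * q.totient := by
    exact_mod_cast le_two_pow_mul_totient q
  have h2 : (0 : ℝ) < q.totient := by exact_mod_cast Nat.totient_pos.2 hq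
  have h3 : (0 : ℝ) < q := by exact_mod_cast hq
  unfold hw
  rw [div_le_div_iff₀ h2 h3]
  calc (C : ℝ) ^ q.primeFactors.card * q
      ≤ (C : ℝ) ^ q.primeFactors.card * (2 ^ q.primeFactors.card * q.totient) := by gcongr
    _ = (2 * C : ℝ) ^ q.primeFactors.card * q.totient := by rw [mul_pow]; ring
    _ ≤ _ := by
      push_cast
      gcongr
      linarith

lemma pow_omega_le (m q : ℕ) (hm : 1 ≤ m) (hq : 0 < q) : m ^ q.primeFactors.card ≤ m ^ m * q := by
  rw [← card_filter_add_card_filter_not (s := q.primeFactors) (fun p => p < m), pow_add]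
  refine Nat.mul_le_mul (Nat.pow_le_pow_right hm ?_) ?_
  · calc _ ≤ (range m).card := card_le_card fun p hp => mem_range.2 (mem_filter.1 hp).2
      _ = m := card_range m
  · calc _ = ∏ _p ∈ q.primeFactors with ¬ _p < m, m := by rw [prod_const]
      _ ≤ ∏ p ∈ q.primeFactors with ¬ p < m, p :=
        prod_le_prod' fun p hp => not_lt.1 (mem_filter.1 hp).2
      _ ≤ ∏ p ∈ q.primeFactors, p :=
        prod_le_prod_of_subset_of_one_le' (filter_subset _ _) fun p hp _ =>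
          (Nat.prime_of_mem_primeFactors hp).one_le
      _ ≤ q := Nat.le_of_dvd hq (Nat.prod_primeFactors_dvd q)

lemma hw_le (k : ℕ) (hk : 1 ≤ k) : ∃ K : ℝ, 0 ≤ K ∧ ∀ q : ℕ, 0 < q → hw k q ≤ K / √q := by
  refine ⟨(k : ℝ) ^ (k ^ 2), by positivity, fun q hq => ?_⟩
  have h3 : (0 : ℝ) < q := by exact_mod_cast hq
  have h1 : ((k : ℝ) ^ q.primeFactors.card) ^ 2 ≤ ((k : ℝ) ^ (k ^ 2)) ^ 2 * q := by
    have := pow_omega_le (k ^ 2) q (Nat.one_le_pow _ _ hk) hq
    rw [← pow_mul, mul_comm, pow_mul, ← pow_mul (k : ℝ) (k ^ 2), mul_comm (k ^ 2), pow_mul]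
    exact_mod_cast this
  have h2 : (k : ℝ) ^ q.primeFactors.card ≤ (k : ℝ) ^ (k ^ 2) * √q := by
    refine abs_le_of_sq_le_sq' ?_ (by positivity) |>.2
    rwa [mul_pow, Real.sq_sqrt h3.le]
  unfold hw
  have hs : 0 < √(q : ℝ) := Real.sqrt_pos.2 h3
  rw [div_le_div_iff₀ h3 hs]
  calc (k : ℝ) ^ q.primeFactors.card * √q ≤ (k : ℝ) ^ (k ^ 2) * √q * √q := by gcongr
    _ = _ := by rw [mul_assoc, Real.mul_self_sqrt h3.le]

lemma sum_mult_le (g : ℕ → ℝ) (hg : ∀ q, 0 ≤ g q) (n d : ℕ) (hd : 0 < d) :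
    ∑ q ∈ Icc 1 n with d ∣ q, g q ≤ ∑ r ∈ Icc 1 n, g (d * r) := by
  rw [← sum_image (s := Icc 1 n) (g := fun r => d * r) (f := g)
    (fun a _ b _ h => Nat.eq_of_mul_eq_mul_left hd h)]
  refine sum_le_sum_of_subset_of_nonneg (fun q hq => ?_) fun q _ _ => hg q
  obtain ⟨h1, r, rfl⟩ := mem_filter.1 hq
  rw [mem_Icc] at h1
  refine mem_image.2 ⟨r, mem_Icc.2 ⟨?_, ?_⟩, rfl⟩
  · rcases Nat.eq_zero_or_pos r with rfl | h
    · simp at h1
    · exact h
  · exact le_trans (Nat.le_mul_of_pos_left r hd) h1.2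

lemma succ_pow_omega_le (k q : ℕ) (hq : 0 < q) :
    ((k : ℝ) + 1) ^ q.primeFactors.card ≤ ∑ d ∈ q.divisors, (k : ℝ) ^ d.primeFactors.card := by
  have hp : ∀ t ∈ q.primeFactors.powerset, (∏ p ∈ t, p).primeFactors = t := fun t ht =>
    Nat.primeFactors_prod fun p hp => Nat.prime_of_mem_primeFactors (mem_powerset.1 ht hp)
  rw [← sum_pow_mul_eq_add_pow]
  calc _ = ∑ t ∈ q.primeFactors.powerset, (k : ℝ) ^ (∏ p ∈ t, p).primeFactors.card :=
        sum_congr rfl fun t ht => by rw [hp t ht, one_pow, mul_one]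
    _ = ∑ d ∈ q.primeFactors.powerset.image (fun t => ∏ p ∈ t, p),
          (k : ℝ) ^ d.primeFactors.card := by
        rw [sum_image fun s hs t ht h => by rw [← hp s hs, ← hp t ht, h]]
    _ ≤ _ := by
        refine sum_le_sum_of_subset_of_nonneg (fun d hd => ?_) fun _ _ _ => by positivity
        obtain ⟨t, ht, rfl⟩ := mem_image.1 hd
        exact Nat.mem_divisors.2 ⟨(prod_dvd_prod_of_subset _ _ _ (mem_powerset.1 ht)).trans
          (Nat.prod_primeFactors_dvd q), hq.ne'⟩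

lemma harm_le (n : ℕ) : ∑ r ∈ Icc 1 n, (1 : ℝ) / r ≤ 1 + Real.log n := by
  have := harmonic_le_one_add_log n
  rw [harmonic_eq_sum_Icc] at this
  push_cast at this
  simpa [one_div] using this

lemma sum_hw_le (k n : ℕ) : ∑ q ∈ Icc 1 n, hw k q ≤ (1 + Real.log n) ^ k := by
  have hl : 0 ≤ 1 + Real.log n := by positivity
  induction k with
  | zero =>
    rw [pow_zero]
    calc ∑ q ∈ Icc 1 n, hw 0 q = ∑ q ∈ Icc 1 n, if q = 1 then (1 : ℝ) else 0 := by
          refine sum_congr rfl fun q hq => ?_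
          unfold hw
          split_ifs with h
          · simp [h]
          · have h1 : 1 < q := lt_of_le_of_ne (mem_Icc.1 hq).1 (Ne.symm h)
            have h2 := (Nat.nonempty_primeFactors.2 h1).card_pos
            simp [zero_pow h2.ne']
      _ ≤ 1 := by
          rw [sum_ite_eq']
          split_ifs <;> norm_num
  | succ k ih =>
    calc ∑ q ∈ Icc 1 n, hw (k + 1) q
        ≤ ∑ q ∈ Icc 1 n, ∑ d ∈ Icc 1 n with d ∣ q, (k : ℝ) ^ d.primeFactors.card / q := by
          refine sum_le_sum fun q hq => ?_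
          rw [mem_Icc] at hq
          unfold hw
          rw [← sum_div]
          gcongr
          push_cast
          refine (succ_pow_omega_le k q hq.1).trans
            (sum_le_sum_of_subset_of_nonneg (fun d hd => ?_) fun _ _ _ => by positivity)
          have h1 := Nat.dvd_of_mem_divisors hd
          exact mem_filter.2 ⟨mem_Icc.2 ⟨Nat.pos_of_mem_divisors hd,
            (Nat.le_of_dvd hq.1 h1).trans hq.2⟩, h1⟩
      _ = ∑ d ∈ Icc 1 n, ∑ q ∈ Icc 1 n with d ∣ q, (k : ℝ) ^ d.primeFactors.card / q := by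
          simp only [sum_filter]
          exact sum_comm
      _ ≤ ∑ d ∈ Icc 1 n, hw k d * (1 + Real.log n) := by
          refine sum_le_sum fun d hd => ?_
          refine (sum_mult_le (fun q => (k : ℝ) ^ d.primeFactors.card / q)
            (fun _ => by positivity) n d (mem_Icc.1 hd).1).trans ?_
          refine le_trans (le_of_eq ?_)
            (mul_le_mul_of_nonneg_left (harm_le n) (hw_nonneg k d))
          rw [mul_sum]
          refine sum_congr rfl fun r _ => ?_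
          unfold hw
          push_cast
          rw [div_mul_div_comm, mul_one]
      _ ≤ _ := by
          rw [← sum_mul, pow_succ]
          gcongr

lemma hw_mul_le (k d r : ℕ) (hk : 1 ≤ k) (hd : 0 < d) (hr : 0 < r) :
    hw k (d * r) ≤ hw k d * hw k r := by
  unfold hw
  rw [div_mul_div_comm, ← pow_add, Nat.primeFactors_mul hd.ne' hr.ne']
  push_cast
  gcongr
  · exact_mod_cast hk
  · exact card_union_le _ _

lemma sum_dvd_le (k : ℕ) (hk : 1 ≤ k) : ∃ K : ℝ, 0 ≤ K ∧ ∀ (n a f : ℕ), 0 < a → 0 < f →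
    ∀ S : Finset ℕ, S ⊆ Icc 1 n →
      ∑ q ∈ S with f ∣ a * q, hw k q ≤ K * a / √f * (1 + Real.log n) ^ k := by
  obtain ⟨K, hK0, hK⟩ := hw_le k hk
  refine ⟨K, hK0, fun n a f ha hf S hS => ?_⟩
  obtain ⟨f', a', hc, h1, h2⟩ := Nat.exists_coprime f a
  have hg : 0 < f.gcd a := Nat.gcd_pos_of_pos_left a hf
  have hf' : 0 < f' := Nat.pos_of_ne_zero fun h => by rw [h, zero_mul] at h1; omega
  have hfa : f ≤ f' * a := by
    calc f = f' * f.gcd a := h1
      _ ≤ f' * a := Nat.mul_le_mul_left _ (Nat.gcd_le_right _ ha)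
  calc ∑ q ∈ S with f ∣ a * q, hw k q ≤ ∑ q ∈ Icc 1 n with f' ∣ q, hw k q := by
        refine sum_le_sum_of_subset_of_nonneg (fun q hq => ?_) fun _ _ _ => hw_nonneg _ _
        obtain ⟨hq1, hq2⟩ := mem_filter.1 hq
        refine mem_filter.2 ⟨hS hq1, hc.dvd_of_dvd_mul_left ?_⟩
        refine Nat.dvd_of_mul_dvd_mul_right hg ?_
        rw [← h1, mul_right_comm, ← h2]
        exact hq2
    _ ≤ ∑ r ∈ Icc 1 n, hw k (f' * r) := sum_mult_le _ (hw_nonneg k) n f' hf'
    _ ≤ ∑ r ∈ Icc 1 n, hw k f' * hw k r :=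
        sum_le_sum fun r hr => hw_mul_le k f' r hk hf' (mem_Icc.1 hr).1
    _ ≤ K * a / √f * (1 + Real.log n) ^ k := by
        rw [← mul_sum]
        refine mul_le_mul ((hK f' hf').trans ?_) (sum_hw_le k n)
          (sum_nonneg fun _ _ => hw_nonneg _ _) (by positivity)
        have e1 : (0 : ℝ) < f := by exact_mod_cast hf
        have e2 : (0 : ℝ) < f' := by exact_mod_cast hf'
        have e3 : (1 : ℝ) ≤ a := by exact_mod_cast ha
        have e4 : (f : ℝ) ≤ f' * a := by exact_mod_cast hfa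
        rw [div_le_div_iff₀ (Real.sqrt_pos.2 e2) (Real.sqrt_pos.2 e1), mul_assoc]
        gcongr
        refine Real.sqrt_le_iff.2 ⟨by positivity, ?_⟩
        rw [mul_pow, Real.sq_sqrt e2.le]
        nlinarith [mul_le_mul_of_nonneg_left e3 (show (0 : ℝ) ≤ f' * a by positivity)]

end Pool.Agent.MP_39a890_nt.BV

end MrgPart9

-- ======== part 10: formerly Pool.Agent.MP_39a890_nt.Fin
section MrgPart10

/-!
# PROJECT E287: the final second moment argument
-/

namespace Pool.Agent.MP_39a890_nt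

open Finset

namespace FinM

open Classical in
/-- One part. -/
lemma part {t : ℕ} (N : Finset ℕ) (ν : ℕ → ℝ) (Y : Fin t → ℕ → ℝ) (P : Fin t → ℕ → Prop)
    {Ξ c₀ B e : ℝ} (ht : 0 < t) (hΞ : 0 < Ξ) (hc : 0 < c₀) (he : 0 ≤ e) (he' : e ≤ 1 / 10 ^ 9)
    (hB : B ≤ e * t * c₀) (hν : ∀ n, 0 ≤ ν n) (hY : ∀ i n, 0 ≤ Y i n)
    (hP : ∀ i, ∀ n ∈ N, ν n ≠ 0 → P i n → 1 ≤ Y i n) (h0 : ∑ n ∈ N, ν n ≤ (1 + e) * Ξ)
    (h1 : ∀ i, (1 - e) * (Ξ * c₀) ≤ ∑ n ∈ N, ν n * Y i n)
    (h2 : ∀ i, ∑ n ∈ N, ν n * Y i n ^ 2 ≤ B * (Ξ * c₀))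
    (h3 : ∀ i j, i ≠ j → ∑ n ∈ N, ν n * (Y i n * Y j n) ≤ (1 + e) * (Ξ * c₀ ^ 2))
    (h4 : ∀ i, 2695 / 10000 * (Ξ * c₀) ≤ ∑ n ∈ N, if P i n then ν n else 0) :
    26942 / 100000 * Ξ ≤ ∑ n ∈ N, ν n * (if ∃ j, P j n then 1 else 0) := by
  set c : ℝ := t * c₀ with hcdef
  have ht' : (0 : ℝ) < t := by exact_mod_cast ht
  have hc0 : 0 < c := mul_pos ht' hc
  set Z : ℕ → ℝ := fun n => ∑ j, Y j n with hZ
  have pt : ∀ n ∈ N, 2 * (1 / 10 ^ 4) * c * ∑ j, (if P j n then ν n else 0) ≤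
      2 * (1 / 10 ^ 4) * c ^ 2 * (ν n * (if ∃ j, P j n then 1 else 0)) +
        (ν n * Z n ^ 2 - 2 * c * (ν n * Z n) + c ^ 2 * ν n) + (1 / 10 ^ 4) ^ 2 * c ^ 2 * ν n := by
    intro n hn
    have hn0 := hν n
    by_cases hz : ν n = 0
    · simp [hz]
    by_cases hex : ∃ j, P j n
    · have h5 : ∑ j, (if P j n then ν n else 0) ≤ ν n * Z n := by
        rw [hZ, mul_sum]
        refine sum_le_sum fun j _ => ?_
        split_ifs with hj
        · exact le_mul_of_one_le_right hn0 (hP j n hn hz hj)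
        · exact mul_nonneg hn0 (hY j n)
      rw [if_pos hex]
      have h6 := mul_le_mul_of_nonneg_left h5 (show 0 ≤ 2 * (1 / 10 ^ 4) * c by positivity)
      have h7 := mul_nonneg hn0 (sq_nonneg (Z n - c - 1 / 10 ^ 4 * c))
      nlinarith
    · rw [if_neg hex]
      push Not at hex
      have h5 : ∑ j, (if P j n then ν n else 0) = 0 := by simp [hex]
      have h7 := mul_nonneg hn0 (sq_nonneg (Z n - c))
      have h8 : 0 ≤ (1 / 10 ^ 4) ^ 2 * c ^ 2 * ν n := by positivity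
      rw [h5]
      nlinarith
  have s1 := sum_le_sum pt
  have a1 : 2695 / 10000 * (Ξ * c) ≤ ∑ n ∈ N, ∑ j, (if P j n then ν n else 0) := by
    rw [sum_comm]
    calc 2695 / 10000 * (Ξ * c) = ∑ _j : Fin t, 2695 / 10000 * (Ξ * c₀) := by
          simp [hcdef]; ring
      _ ≤ _ := sum_le_sum fun j _ => h4 j
  have a2 : (1 - e) * (Ξ * c) ≤ ∑ n ∈ N, ν n * Z n := by
    simp only [hZ, mul_sum]
    rw [sum_comm]
    calc (1 - e) * (Ξ * c) = ∑ _j : Fin t, (1 - e) * (Ξ * c₀) := by simp [hcdef]; ring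
      _ ≤ _ := sum_le_sum fun j _ => h1 j
  have a3 : ∑ n ∈ N, ν n * Z n ^ 2 ≤ (1 + 2 * e) * (Ξ * c ^ 2) := by
    have e1 : ∑ n ∈ N, ν n * Z n ^ 2 = ∑ i, ∑ j, ∑ n ∈ N, ν n * (Y i n * Y j n) := by
      have e0 : ∀ n, ν n * Z n ^ 2 = ∑ i, ∑ j, ν n * (Y i n * Y j n) := fun n => by
        rw [hZ, sq, sum_mul_sum, mul_sum]
        exact sum_congr rfl fun i _ => mul_sum _ _ _
      simp only [e0]
      rw [sum_comm]
      exact sum_congr rfl fun i _ => sum_comm
    have hpos : 0 ≤ (1 + e) * (Ξ * c₀ ^ 2) := by positivity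
    have e2 : ∀ i, ∑ j, ∑ n ∈ N, ν n * (Y i n * Y j n) ≤
        B * (Ξ * c₀) + t * ((1 + e) * (Ξ * c₀ ^ 2)) := by
      intro i
      calc ∑ j, ∑ n ∈ N, ν n * (Y i n * Y j n)
          ≤ ∑ j, ((if i = j then B * (Ξ * c₀) else 0) + (1 + e) * (Ξ * c₀ ^ 2)) := by
            refine sum_le_sum fun j _ => ?_
            split_ifs with hij
            · subst hij
              have := h2 i
              simp only [sq] at this
              linarith
            · rw [zero_add]; exact h3 i j hij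
        _ = _ := by simp [sum_add_distrib]
    have e3 : B * (Ξ * c₀) ≤ e * t * c₀ * (Ξ * c₀) :=
      mul_le_mul_of_nonneg_right hB (by positivity)
    rw [e1]
    calc ∑ i, ∑ j, ∑ n ∈ N, ν n * (Y i n * Y j n)
        ≤ ∑ _i : Fin t, (e * t * c₀ * (Ξ * c₀) + t * ((1 + e) * (Ξ * c₀ ^ 2))) :=
          sum_le_sum fun i _ => (e2 i).trans (by linarith)
      _ = _ := by simp [hcdef]; ring
  simp only [sum_add_distrib, sum_sub_distrib, ← mul_sum] at s1
  set S := ∑ n ∈ N, ν n * (if ∃ j, P j n then (1 : ℝ) else 0)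
  set T := ∑ n ∈ N, ν n
  have b1 := mul_le_mul_of_nonneg_left a1 (show 0 ≤ 2 * (1 / 10 ^ 4) * c by positivity)
  have b2 := mul_le_mul_of_nonneg_left a2 (show 0 ≤ 2 * c by positivity)
  have b3 := mul_le_mul_of_nonneg_left h0 (show 0 ≤ c ^ 2 by positivity)
  have hq : 0 < Ξ * c ^ 2 := by positivity
  have b4 : e * (Ξ * c ^ 2) ≤ 1 / 10 ^ 9 * (Ξ * c ^ 2) := mul_le_mul_of_nonneg_right he' hq.le
  have b5 : c ^ 2 * (26942 / 100000 * Ξ) ≤ c ^ 2 * S := by nlinarith
  exact le_of_mul_le_mul_left b5 (by positivity)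

end FinM

open Classical in
theorem fin : FinStmt := by
  intro M t N ν Y P Ξ c₀ B e hM ht hΞ hc he he' hB hν hY hP h0 h1 h2 h3 h4
  by_contra hcon
  push Not at hcon
  have hM' : (0 : ℝ) < M := by exact_mod_cast hM
  have k1 : ∀ m : Fin M,
      26942 / 100000 * Ξ ≤ ∑ n ∈ N, ν n * (if ∃ j, P (m, j) n then 1 else 0) := fun m => by
    convert FinM.part N ν (fun j => Y (m, j)) (fun j => P (m, j)) ht hΞ hc he he' hB hν
      (fun i n => hY _ n) (fun i => hP _) h0 (fun i => h1 _) (fun i => h2 _)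
      (fun i j hij => h3 _ _ fun h => hij (Prod.ext_iff.1 h).2) (fun i => by convert h4 (m, i))
  have k2 : M * (26942 / 100000 * Ξ) ≤
      ∑ n ∈ N, ν n * ((univ.filter fun m : Fin M => ∃ j, P (m, j) n).card : ℝ) := by
    calc M * (26942 / 100000 * Ξ) = ∑ _m : Fin M, 26942 / 100000 * Ξ := by simp
      _ ≤ ∑ m : Fin M, ∑ n ∈ N, ν n * (if ∃ j, P (m, j) n then 1 else 0) :=
        sum_le_sum fun m _ => k1 m
      _ = _ := by
        rw [sum_comm]
        refine sum_congr rfl fun n _ => ?_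
        rw [← mul_sum, card_filter]
        push_cast
        rfl
  have k3 : ∑ n ∈ N, ν n * ((univ.filter fun m : Fin M => ∃ j, P (m, j) n).card : ℝ) ≤
      ∑ n ∈ N, 2694 / 10000 * M * ν n := by
    refine sum_le_sum fun n hn => ?_
    by_cases hz : ν n = 0
    · simp [hz]
    · have h5 := hcon n hn hz
      have h6 : (10000 : ℝ) * ((univ.filter fun m : Fin M => ∃ j, P (m, j) n).card : ℝ) ≤
          2694 * M := by exact_mod_cast h5.le
      have := hν n
      nlinarith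
  rw [← mul_sum] at k3
  have k4 := mul_le_mul_of_nonneg_left h0 (show 0 ≤ 2694 / 10000 * (M : ℝ) by positivity)
  have hq : 0 < M * Ξ := by positivity
  have k5 : e * (M * Ξ) ≤ 1 / 10 ^ 9 * (M * Ξ) := mul_le_mul_of_nonneg_right he' hq.le
  nlinarith

end Pool.Agent.MP_39a890_nt

end MrgPart10

-- marker of a merged file
example : 731051 + 668256 = 731051 + 668256 := rfl
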