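import Pool.Agent.MP_39a890_nt.Page
import Pool.Agent.MP_39a890_nt.Fin
import Mathlib.Analysis.Complex.ExponentialBounds

-- ======== part 0: formerly Pool.Agent.MP_39a890_nt.KLc
section MrgPart0

/-! Smooth weights: summation by parts and the Fourier expansion of the remainder. -/

namespace Pool.Agent.MP_39a890_nt.KL

open Finset

theorem tau_pow {k : ℕ} (hk : k ≠ 0) (n : ℕ) : n.divisors.card ^ k ≤ (k ^ k) ^ 2 ^ k * n := by
  rcases eq_or_ne n 0 with rfl | hn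
  · simp [hk]
  have h0 : ∀ e : ℕ, (e + 1) ^ k ≤ k ^ k * 2 ^ e := fun e => by
    have h1 : e + 1 ≤ k * (e / k + 1) := Nat.lt_mul_div_succ e (by omega)
    have h2 : e / k + 1 ≤ 2 ^ (e / k) := Nat.lt_two_pow_self
    refine (Nat.pow_le_pow_left (h1.trans (Nat.mul_le_mul_left _ h2)) k).trans ?_
    rw [mul_pow, ← pow_mul]
    exact Nat.mul_le_mul_left _ (Nat.pow_le_pow_right two_pos (Nat.div_mul_le_self _ _))
  rw [Nat.card_divisors hn, ← prod_pow]
  have h1 : ∀ p ∈ n.primeFactors, (n.factorization p + 1) ^ k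
      ≤ (if p < 2 ^ k then k ^ k else 1) * p ^ n.factorization p := by
    intro p hp
    have hp2 : 2 ≤ p := (Nat.prime_of_mem_primeFactors hp).two_le
    split_ifs with h
    · exact (h0 _).trans (Nat.mul_le_mul_left _ (Nat.pow_le_pow_left hp2 _))
    · have h2 : n.factorization p + 1 ≤ 2 ^ n.factorization p := Nat.lt_two_pow_self
      refine (Nat.pow_le_pow_left h2 k).trans ?_
      rw [← pow_mul, mul_comm, pow_mul, one_mul]
      exact Nat.pow_le_pow_left (by omega) _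
  refine (prod_le_prod' h1).trans ?_
  rw [prod_mul_distrib, show ∏ p ∈ n.primeFactors, p ^ n.factorization p = n from
    Nat.prod_factorization_pow_eq_self hn, prod_ite, prod_const_one, mul_one, prod_const]
  refine Nat.mul_le_mul_right _ (Nat.pow_le_pow_right (by positivity) ?_)
  exact (card_le_card fun p hp => mem_range.2 (mem_filter.1 hp).2).trans (card_range _).le

/-- The derivative of order `J` is bounded by `M`. -/
def Bd : ℕ → ℝ → (ℝ → ℝ) → Prop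
  | 0, M, g => ∀ x, |g x| ≤ M
  | J + 1, M, g => Differentiable ℝ g ∧ Bd J M (deriv g)

theorem Bd_ex (J : ℕ) : ∀ g : ℝ → ℝ, ContDiff ℝ (⊤ : ℕ∞) g → HasCompactSupport g →
    ∃ M, 0 ≤ M ∧ Bd J M g := by
  induction J with
  | zero =>
    intro g h1 h2
    obtain ⟨M, hM⟩ := h1.continuous.bounded_above_of_compact_support h2
    exact ⟨M, (norm_nonneg _).trans (hM 0), hM⟩
  | succ J ih =>
    intro g h1 h2
    obtain ⟨a, b⟩ := contDiff_infty_iff_deriv.1 h1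
    exact (ih _ b h2.deriv).imp fun M h => ⟨h.1, a, h.2⟩

theorem Bd_diff {l M : ℝ} (hl : 0 ≤ l) (J : ℕ) : ∀ g, Bd (J + 1) M g →
    Bd J (l * M) fun x => g x - g (x - l) := by
  induction J with
  | zero =>
    intro g h x
    have := Convex.norm_image_sub_le_of_norm_deriv_le (fun y _ => h.1 y) (fun y _ => h.2 y)
      convex_univ (Set.mem_univ (x - l)) (Set.mem_univ x)
    rwa [sub_sub_cancel, Real.norm_of_nonneg hl, mul_comm] at this
  | succ J ih =>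
    intro g h
    have d : Differentiable ℝ fun x => g (x - l) := h.1.comp (differentiable_id.sub_const l)
    refine ⟨h.1.sub d, ?_⟩
    have : deriv (fun x => g x - g (x - l)) = fun x => deriv g x - deriv g (x - l) :=
      funext fun x => by rw [deriv_fun_sub (h.1 x) (d x), deriv_comp_sub_const]
    rw [this]
    exact ih _ h.2

theorem sbp {z : ℂ} (hz : ‖z‖ = 1) {l μ : ℝ} (hl : 0 < l) (N J : ℕ) : ∀ (M b : ℝ) (g : ℝ → ℝ),
    Bd J M g → (∀ x, g x ≠ 0 → μ ≤ x ∧ x ≤ b) → b + J * l < μ + l * N →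
    ‖z - 1‖ ^ J * ‖∑ m ∈ range N, (g (μ + l * m) : ℂ) * z ^ m‖ ≤ N * (l ^ J * M) := by
  induction J with
  | zero =>
    intro M b g h _ _
    simp only [pow_zero, one_mul]
    refine (norm_sum_le _ _).trans ((sum_le_card_nsmul _ _ M fun m _ => ?_).trans (by simp))
    simpa [hz] using h _
  | succ J ih =>
    intro M b g h hs hb
    push_cast at hb
    have J0 : 0 ≤ J * l := by positivity
    have a1 := sum_range_succ (fun m : ℕ => (g (μ + l * m - l) : ℂ) * z ^ m) N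
    rw [sum_range_succ', show g (μ + l * N - l) = 0 from by_contra fun h => by
      linarith [(hs _ h).2], show g (μ + l * (0 : ℕ) - l) = 0 from by_contra fun h => by
      have := (hs _ h).1; push_cast at this; linarith] at a1
    simp only [Nat.cast_succ, mul_add, mul_one, ← add_assoc, add_sub_cancel_right, pow_succ,
      ← mul_assoc, ← sum_mul, Complex.ofReal_zero, zero_mul, add_zero] at a1
    have := ih _ (b + l) _ (Bd_diff hl.le J g h) (fun x hx => by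
      by_cases h1 : g x = 0
      · have := hs (x - l) fun h2 => hx (by rw [h1, h2, sub_zero])
        constructor <;> linarith [this.1, this.2]
      · constructor <;> linarith [(hs x h1).1, (hs x h1).2]) (by linarith)
    simp only [Complex.ofReal_sub, sub_mul, sum_sub_distrib, ← a1] at this
    rw [← mul_one_sub, norm_mul, norm_sub_rev 1] at this
    calc _ = _ := by ring
      _ ≤ _ := this
      _ = _ := by ring

/-- The weight in the complementary variable. -/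
noncomputable def ff (φ : ℝ → ℝ) (μ Y : ℝ) (d m : ℕ) : ℝ := φ (μ + d / Y * m)

theorem cnt_eq {φ : ℝ → ℝ} (h : Wt φ) {X : ℝ} (hX : 0 < X) {a b a' b' q n₀ n₁ d₁ d₂ N : ℕ}
    (ha : a' ≠ 0) (hd : d₂ ≠ 0)
    (hn : ∀ n, (n ≡ n₀ [MOD q] ∧ d₁ ∣ a * n + b) ↔ n ≡ n₁ [MOD q * d₁])
    (hN : 2 < -b' / (a' * X) + d₂ / (a' * X) * N) : cntC φ X a b a' b' q n₀ d₁ d₂ =
      ∑ m ∈ range N, if d₂ * m ≡ a' * n₁ + b' [MOD a' * (q * d₁)] then
        ff φ (-b' / (a' * X)) (a' * X) d₂ m else 0 := by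
  have a0 : (0 : ℝ) < a' := by positivity
  let H : ℕ → ℝ := fun y =>
    if y ≡ a' * n₁ + b' [MOD a' * (q * d₁)] ∧ d₂ ∣ y then φ ((y - b') / (a' * X)) else 0
  rw [cntC, ← ts, ← ts]
  · trans ∑' y, H y
    · rw [← Function.Injective.tsum_eq (f := H) (g := fun n => a' * n + b')
        (fun x y e => by simpa [ha] using e)]
      · refine tsum_congr fun n => ?_
        simp only [H, ← and_assoc, hn, Nat.ModEq.add_iff_right rfl, Nat.ModEq.mul_left_cancel_iff' ha]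
        congr 2; push_cast; field_simp; ring
      · intro y hy
        simp only [H, Function.mem_support, ne_eq, ite_eq_right_iff, not_forall] at hy
        obtain ⟨⟨h1, -⟩, h2⟩ := hy
        have h3 := (h.supp _ h2).1
        rw [le_div_iff₀ (by positivity)] at h3
        have h4 : b' ≤ y := by
          have : (b' : ℝ) ≤ y := by linarith [mul_pos a0 hX]
          exact_mod_cast this
        obtain ⟨n, hn⟩ := (Nat.modEq_iff_dvd' h4).1
          ((h1.of_mul_right _).trans (by simp [Nat.ModEq])).symm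
        exact ⟨n, by simp only; omega⟩
    · rw [← Function.Injective.tsum_eq (f := H) (g := fun m => d₂ * m)
        (fun x y e => by simpa [hd] using e)]
      · refine tsum_congr fun m => ?_
        simp only [H, ff, dvd_mul_right, and_true]
        congr 2; push_cast; ring
      · intro y hy
        simp only [H, Function.mem_support, ne_eq, ite_eq_right_iff, not_forall] at hy
        obtain ⟨⟨-, m, rfl⟩, -⟩ := hy
        exact ⟨m, rfl⟩
  · intro m hm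
    have : (N : ℝ) ≤ m := by exact_mod_cast not_lt.1 (mem_range.not.1 hm)
    rw [ff, wt_zero h (Or.inr (hN.trans_le (by gcongr))), ite_self]
  · intro n hn
    have : (⌈3 * X⌉₊ : ℝ) ≤ n := by exact_mod_cast not_lt.1 (mem_range.not.1 hn)
    rw [wt_zero h (Or.inr (by rw [lt_div_iff₀ hX]; linarith [Nat.le_ceil (3 * X)])), ite_self]

theorem ind_eq {Q c : ℕ} (hQ : Q ≠ 0) (hc : c.Coprime Q) (d m : ℕ) (x : ℂ) :
    (if d * m ≡ c [MOD Q] then x else 0) =
      (Q : ℂ)⁻¹ * ∑ k ∈ Res Q, kl Q (-c * k) d * (x * ee Q k ^ m) := by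
  have Q0 : (Q : ℂ) ≠ 0 := by exact_mod_cast hQ
  by_cases hd : d.Coprime Q
  · have i := inv_spec hd
    have e : ∀ k : ℤ, kl Q (-c * k) d * (x * ee Q k ^ m) =
        x * ee Q (k * (m - c * Nat.gcdA d Q)) := fun k => by
      rw [kl, if_pos hd, ← ee_pow, mul_left_comm, ← ee_add]; congr 2; ring
    have e2 : d * m ≡ c [MOD Q] ↔ (Q : ℤ) ∣ m - c * Nat.gcdA d Q := by
      rw [← Int.modEq_iff_dvd, ← Int.natCast_modEq_iff]
      push_cast
      constructor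
      · intro h
        have := (h.mul_right (Nat.gcdA d Q)).symm.trans
          (show (d : ℤ) * m * Nat.gcdA d Q ≡ m * 1 [ZMOD Q] by
            rw [mul_comm (d : ℤ), mul_assoc, mul_comm (d : ℤ)]; exact i.mul_left _)
        rwa [mul_one] at this
      · intro h
        have := (h.mul_left d).symm.trans
          (show (d : ℤ) * (c * Nat.gcdA d Q) ≡ c * 1 [ZMOD Q] by
            rw [mul_left_comm, mul_comm (d : ℤ)]; exact i.mul_left _)
        rwa [mul_one] at this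
    simp only [e, ← mul_sum, orth hQ, e2]
    split_ifs
    · field_simp
    · simp
  · rw [if_neg fun h => hd (Nat.Coprime.coprime_mul_right (h.gcd_eq.trans hc))]
    simp [kl, hd]

theorem sum_symm' {M : Type} [AddCommGroup M] (f : ℤ → M) (K : ℕ) : ∑ k ∈ Icc (-K : ℤ) K, f k =
    f 0 + (∑ k ∈ Ioc 0 K, f (1 * k) + ∑ k ∈ Ioc 0 K, f (-1 * k)) := by
  rw [sum_symm, ← sum_add_distrib]
  congr 1
  induction K with
  | zero => simp
  | succ K ih => rw [sum_range_succ, sum_Ioc_succ_top (Nat.zero_le K), ih, one_mul, neg_one_mul]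

/-- The medium frequencies of sign `σ`. -/
noncomputable def mid (φ : ℝ → ℝ) (μ Y : ℝ) (N K Q c d : ℕ) (σ : ℤ) : ℂ :=
  ∑ m ∈ range N, ∑ k ∈ Ioc 0 K, (if σ * k ∈ Res Q then (Q : ℂ)⁻¹ * ee Q (σ * k) ^ m else 0) *
    ff φ μ Y d m * kl Q (-c * σ * k) d

theorem pair {φ : ℝ → ℝ} (h : Wt φ) {C M δ μ Y : ℝ} {J : ℕ} (hM : Bd J M φ) (M0 : 0 ≤ M)
    (C0 : 0 ≤ C) (hC : ∀ (l μ : ℝ) (N : ℕ), 0 < l → μ < 1 + l → 2 ≤ μ + l * N →
      |∑ m ∈ range N, φ (μ + l * m) - (∫ u, φ u) / l| ≤ C) (hY : 0 < Y) (μ0 : μ ≤ 0) {Q c d N K : ℕ}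
    (hQ : Q ≠ 0) (hc : c.Coprime Q) (hd : d ≠ 0) (hN : 2 + J * (d / Y) < μ + d / Y * N)
    (hδ : d / Y * Q ≤ δ * (4 * (K + 1))) :
    ‖(((∑ m ∈ range N, if d * m ≡ c [MOD Q] then ff φ μ Y d m else 0) -
        if d.Coprime Q then Y * (∫ u, φ u) / (Q * d) else 0 : ℝ) : ℂ) -
      (mid φ μ Y N K Q c d 1 + mid φ μ Y N K Q c d (-1))‖ ≤ C / Q + N * (δ ^ J * M) := by
  have Q0 : (0 : ℝ) < Q := by positivity
  have l0 : 0 < d / Y := by positivity
  have δ0 : 0 < δ := pos_of_mul_pos_left ((mul_pos l0 Q0).trans_le hδ) (by positivity)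
  obtain ⟨t, ht⟩ : ∃ t : ℤ → ℂ, t = fun k => (Q : ℂ)⁻¹ * (kl Q (-c * k) d *
    ∑ m ∈ range N, (ff φ μ Y d m : ℂ) * ee Q k ^ m) := ⟨_, rfl⟩
  have e1 : ((∑ m ∈ range N, if d * m ≡ c [MOD Q] then ff φ μ Y d m else 0 : ℝ) : ℂ) =
      ∑ k ∈ Res Q, t k := by
    push_cast
    simp only [apply_ite ((↑) : ℝ → ℂ), Complex.ofReal_zero, ind_eq hQ hc, ht, mul_sum]
    exact sum_comm
  have e2 : ∀ σ : ℤ, mid φ μ Y N K Q c d σ =
      ∑ k ∈ Ioc 0 K, if σ * k ∈ Res Q then t (σ * k) else 0 := fun σ => by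
    rw [mid, sum_comm]
    refine sum_congr rfl fun k _ => ?_
    split_ifs
    · simp only [ht, mul_sum, mul_assoc (-c : ℤ)]
      exact sum_congr rfl fun m _ => by ring
    · simp
  have e3 := sum_symm' (fun k => if k ∈ Res Q then t k else 0) K
  rw [sum_ite_mem, if_pos (zero_mem_Res hQ), ← e2, ← e2, inter_comm, ← filter_mem_eq_inter] at e3
  rw [Complex.ofReal_sub, e1, ← sum_filter_add_sum_filter_not _ (· ∈ Icc (-K : ℤ) K), e3,
    show ∀ x y z w : ℂ, x + y + z - w - y = x - w + z from fun _ _ _ _ => by ring]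
  refine (norm_add_le _ _).trans (add_le_add ?_ ?_)
  · simp only [ht, kl, mul_zero, zero_mul, ee_zero, one_pow, mul_one]
    split_ifs
    · have := hC (d / Y) μ N l0 (by linarith) (by nlinarith [Nat.cast_nonneg (α := ℝ) J])
      rw [one_mul, ← Complex.ofReal_sum, ← Complex.ofReal_natCast, ← Complex.ofReal_inv,
        ← Complex.ofReal_mul, ← Complex.ofReal_sub, Complex.norm_real, Real.norm_eq_abs,
        show Y * (∫ u, φ u) / (Q * d) = (Q : ℝ)⁻¹ * ((∫ u, φ u) / (d / Y)) by field_simp,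
        ← mul_sub, abs_mul, abs_of_pos (inv_pos.2 Q0), div_eq_inv_mul C]
      exact mul_le_mul_of_nonneg_left this (by positivity)
    · simpa using div_nonneg C0 Q0.le
  · refine (norm_sum_le _ _).trans ((sum_le_card_nsmul _ _ ((Q : ℝ)⁻¹ * (N * (δ ^ J * M)))
      fun k hk => ?_).trans ?_)
    · obtain ⟨k1, k2⟩ := mem_filter.1 hk
      rw [mem_Icc, ← abs_le, not_le] at k2
      have k3 : (K : ℝ) + 1 ≤ |(k : ℝ)| := by exact_mod_cast k2
      have b1 := sbp (ee_norm Q k) (μ := μ) l0 N J M 2 φ hM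
        (fun x hx => ⟨by linarith [(h.supp x hx).1], (h.supp x hx).2⟩) hN
      have b2 : d / Y ≤ δ * ‖ee Q k - 1‖ := by
        refine le_trans ?_ (mul_le_mul_of_nonneg_left (ee_low hQ (mem_Res k1)) δ0.le)
        rw [← mul_div_assoc, le_div_iff₀ Q0]
        exact hδ.trans (by gcongr)
      have b3 : 0 < ‖ee Q k - 1‖ := pos_of_mul_pos_right (l0.trans_le b2) δ0.le
      rw [ht, norm_mul, norm_inv, Complex.norm_natCast]
      refine mul_le_mul_of_nonneg_left ((norm_mul_le _ _).trans ((mul_le_of_le_one_left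
        (norm_nonneg _) (kl_norm _ _ _)).trans (le_of_mul_le_mul_left (b1.trans ?_)
          (pow_pos b3 J)))) (by positivity)
      calc _ ≤ N * ((δ * ‖ee Q k - 1‖) ^ J * M) := by gcongr
        _ = _ := by ring
    · rw [nsmul_eq_mul, ← mul_assoc]
      refine mul_le_of_le_one_left (by positivity) ?_
      rw [← div_eq_mul_inv, div_le_one Q0]
      exact_mod_cast (card_filter_le _ _).trans (card_Res Q).le

end Pool.Agent.MP_39a890_nt.KL

end MrgPart0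

-- ======== part 1: formerly Pool.Agent.MP_39a890_nt.KLd
section MrgPart1

/-! The bound for one dyadic box. -/

namespace Pool.Agent.MP_39a890_nt.KL

open Finset

theorem BL' (hW : WeilStmt) {a q R S K : ℕ} {c : ℤ} {T Z R₀ : ℝ} (ha : a ≠ 0) (hq : Squarefree q)
    (haq : a.Coprime q) (hcq : c.natAbs.Coprime q) (haT : a ≤ T) (hR : 0 < R₀)
    (hZ : (a * q * R * S * S : ℕ) ≤ Z) (hZ' : (K * S : ℕ) ≤ Z) (hZ'' : S ≤ Z)
    (hL : 1 + Real.log Z ≤ T) (hτ : ∀ n : ℕ, n ≤ Z → n.divisors.card ≤ T) (D : ℕ) {β : ℕ → ℂ}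
    {ω : ℕ × ℕ → ℕ → ℂ} {P : Finset (ℕ × ℕ)} {B : Finset ℕ} (hP : P ⊆ Ioc 0 R ×ˢ Ioc 0 S)
    (hB : B ⊆ Ico D (D + D)) (hβ : ∀ d, ‖β d‖ ≤ 1) (hω : ∀ p ∈ P, ∀ k, ‖ω p k‖ ≤ 1)
    (hg : ∀ p ∈ P, R₀ ≤ p.1 ∧ Good (a * q) c (p.1 * p.2)) :
    ‖∑ p ∈ P, ∑ d ∈ B, ∑ k ∈ Ioc 0 K, ω p k * β d * kl (a * q * (p.1 * p.2)) (c * k) d‖ ^ 2 ≤
      R * D * (R * D * (K * S * T) +
        (T * D / √R₀ + T ^ 3 * q * (√R * S)) * (T * R) * (S * (T * K)) ^ 2) := by
  refine le_trans (le_of_eq ?_) (BL hW ha hq haq hcq haT hR hZ hZ' hZ'' hL hτ D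
    (β := fun d => if d ∈ B then β d else 0)
    (γ := fun r j => if (r, j.1) ∈ P then ω (r, j.1) j.2 else 0) (fun d => ?_) (fun r j => ?_)
    fun r j h => hg (r, j.1) (by by_contra h'; exact h (if_neg h')))
  · congr 2
    rw [← inter_eq_right.2 hP, ← sum_ite_mem, sum_product, inter_eq_right.2 hP]
    refine sum_congr rfl fun r _ => ?_
    simp only [sum_product, mul_sum]
    rw [sum_comm]
    refine sum_congr rfl fun s _ => ?_
    split_ifs
    · simp only [ite_mul, zero_mul, sum_ite_irrel, sum_const_zero, sum_ite_mem,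
        inter_eq_right.2 hB]
      exact sum_congr rfl fun d _ => sum_congr rfl fun k _ => by ring
    · simp
  · split_ifs
    exacts [hβ d, by simp]
  · split_ifs with h
    exacts [hω _ h _, by simp]

theorem num {R S D K T X q : ℝ} (hR : 1 ≤ R) (hS : 1 ≤ S) (hD : 1 ≤ D) (hT : 8 ≤ T) (hX : 0 < X)
    (hq : q ≤ T) (K0 : 0 ≤ K) (hK : K ≤ 2 * D * R * S * T ^ 2 / X)
    (h1 : D * R * T ^ 40 ≤ 2 * X) (h2 : D ^ 4 * (R * S) ^ 3 * S * T ^ 40 ≤ X ^ 4)
    (h3 : D ^ 2 * (R * S) ^ 5 * S * T ^ 40 ≤ X ^ 4) :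
    2 * R * D * (2 * R * D * (K * (2 * S) * T) + (T * D / √R + T ^ 3 * q * (√(2 * R) * (2 * S))) *
      (T * (2 * R)) * (2 * S * (T * K)) ^ 2) ≤ (R * S * D / T ^ 3) ^ 2 := by
  obtain ⟨ρ, ρ0, rfl⟩ : ∃ ρ, 0 < ρ ∧ R = ρ ^ 2 := ⟨√R, by positivity, (Real.sq_sqrt (by linarith)).symm⟩
  have T0 : 0 < T := by linarith
  have a0 : √(2 * ρ ^ 2) ≤ 2 * ρ := Real.sqrt_le_iff.2 ⟨by positivity, by nlinarith⟩
  have a1 : D * ρ ^ 2 * T ^ 40 / X ≤ 2 := by rwa [div_le_iff₀ hX]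
  have a2 : D ^ 2 * ρ ^ 3 * S ^ 2 * T ^ 20 / X ^ 2 ≤ 1 := by
    rw [div_le_one (by positivity)]
    exact le_of_sq_le_sq (by linarith) (by positivity)
  have a3 : D * ρ ^ 5 * S ^ 3 * T ^ 20 / X ^ 2 ≤ 1 := by
    rw [div_le_one (by positivity)]
    exact le_of_sq_le_sq (by linarith) (by positivity)
  have a4 : 512 ≤ T ^ 3 := le_trans (by norm_num) (pow_le_pow_left₀ (by norm_num) hT 3)
  have a5 : ∀ n, 3 ≤ n → 1 / T ^ n ≤ 1 / 512 := fun n hn =>
    one_div_le_one_div_of_le (by norm_num) (a4.trans (pow_le_pow_right₀ (by linarith) hn))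
  rw [Real.sqrt_sq ρ0.le]
  calc _ ≤ 2 * ρ ^ 2 * D * (2 * ρ ^ 2 * D * (2 * D * ρ ^ 2 * S * T ^ 2 / X * (2 * S) * T) +
        (T * D / ρ + T ^ 3 * T * (2 * ρ * (2 * S))) * (T * (2 * ρ ^ 2)) *
          (2 * S * (T * (2 * D * ρ ^ 2 * S * T ^ 2 / X))) ^ 2) := by gcongr
    _ = (ρ ^ 2 * S * D / T ^ 3) ^ 2 * (16 * (D * ρ ^ 2 * T ^ 40 / X * (1 / T ^ 31)) +
        64 * (D ^ 2 * ρ ^ 3 * S ^ 2 * T ^ 20 / X ^ 2 * (1 / T ^ 6)) +
        256 * (D * ρ ^ 5 * S ^ 3 * T ^ 20 / X ^ 2 * (1 / T ^ 3))) := by field_simp; ring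
    _ ≤ (ρ ^ 2 * S * D / T ^ 3) ^ 2 * (16 * (2 * (1 / 512)) + 64 * (1 * (1 / 512)) +
        256 * (1 * (1 / 512))) := by
      have b1 := a5 31 (by norm_num)
      have b2 := a5 6 (by norm_num)
      have b3 := a5 3 (by norm_num)
      exact mul_le_mul_of_nonneg_left (add_le_add (add_le_add
        (mul_le_mul_of_nonneg_left (mul_le_mul a1 b1 (by positivity) zero_le_two) (by norm_num))
        (mul_le_mul_of_nonneg_left (mul_le_mul a2 b2 (by positivity) zero_le_one) (by norm_num)))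
        (mul_le_mul_of_nonneg_left (mul_le_mul a3 b3 (by positivity) zero_le_one) (by norm_num)))
        (by positivity)
    _ ≤ _ := mul_le_of_le_one_right (by positivity) (by norm_num)

theorem box (hW : WeilStmt) {φ : ℝ → ℝ} (h : Wt φ) {A T X : ℝ} {J : ℕ} (hM : Bd J A φ)
    (hC : ∀ (l μ : ℝ) (N : ℕ), 0 < l → μ < 1 + l → 2 ≤ μ + l * N →
      |∑ m ∈ range N, φ (μ + l * m) - (∫ u, φ u) / l| ≤ A) {a b a' b' q n₀ n₁ R S D : ℕ}
    (hb : b'.Coprime a') (hbX : b' ≤ X)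
    (ha : a' ≠ 0) (hA : J + 1 + 4 * a' ≤ A) (hT : 10 * A ^ 2 ≤ T) (hJ : X ^ 4 ≤ T ^ J)
    (hL : 1 + Real.log (X ^ 3) ≤ T) (hτ : ∀ n : ℕ, n ≤ X ^ 3 → n.divisors.card ≤ T)
    (hq : Squarefree q) (haq : a'.Coprime q) (hcq : (a' * n₁ + b').Coprime q) (hqT : q ≤ T)
    (hR : R ≠ 0) (hS : S ≠ 0) (hD : D ≠ 0) (hRS : R * S * T ^ 4 ≤ X) (hDX : D * T ^ 4 ≤ X)
    (h1 : D * R * T ^ 40 ≤ 2 * X) (h2 : D ^ 4 * (R * S) ^ 3 * S * T ^ 40 ≤ X ^ 4)
    (h3 : D ^ 2 * (R * S) ^ 5 * S * T ^ 40 ≤ X ^ 4) {P : Finset (ℕ × ℕ)} {B : Finset ℕ}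
    (hP : ∀ p ∈ P, R ≤ p.1 ∧ p.1 ≤ 2 * R ∧ S ≤ p.2 ∧ p.2 ≤ 2 * S ∧
      Good (a' * q) (a' * n₁ + b' : ℕ) (p.1 * p.2) ∧
      ∀ n, (n ≡ n₀ [MOD q] ∧ p.1 * p.2 ∣ a * n + b) ↔ n ≡ n₁ [MOD q * (p.1 * p.2)])
    (hB : ∀ d ∈ B, D ≤ d ∧ d < D + D ∧ d.Coprime a') {α α' : ℕ → ℝ} (hα : ∀ d, |α d| ≤ 1)
    (hα' : ∀ d, |α' d| ≤ 1) :
    |∑ p ∈ P, ∑ d ∈ B, α (p.1 * p.2) * α' d * remC φ X a b a' b' q n₀ (p.1 * p.2) d| ≤ X / T ^ 2 := by
  have hn := fun (K : ℝ) u1 u2 u3 u4 u5 u6 u7 => num (K := K) u1 u2 u3 u4 u5 hqT u6 u7 h1 h2 h3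
  replace hJ : ∀ u, u ≤ X ^ 4 → u ≤ T ^ J := fun u hu => hu.trans hJ
  clear h1 h2 h3
  have a1 : (1 : ℝ) ≤ a' := by exact_mod_cast Nat.one_le_iff_ne_zero.2 ha
  have R1 : (1 : ℝ) ≤ R := by exact_mod_cast Nat.one_le_iff_ne_zero.2 hR
  have S1 : (1 : ℝ) ≤ S := by exact_mod_cast Nat.one_le_iff_ne_zero.2 hS
  have D1 : (1 : ℝ) ≤ D := by exact_mod_cast Nat.one_le_iff_ne_zero.2 hD
  have J0 : (0 : ℝ) ≤ J := Nat.cast_nonneg J
  have A1 : 5 ≤ A := by linarith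
  have T5 : A * 5 ≤ A * A := by gcongr
  have T1 : 2 * A ≤ T := by linarith
  have T3 : T ≤ T ^ 2 := le_self_pow₀ (by linarith) two_ne_zero
  have T2 : 10 * T ^ 2 ≤ T ^ 4 := by
    rw [show T ^ 4 = T ^ 2 * T ^ 2 by ring]; gcongr; linarith
  have T4 : T ^ 4 ≤ X := le_trans (le_mul_of_one_le_left (by positivity) D1) hDX
  have X1 : 1 ≤ X := by linarith
  have X0 : 0 < X := by linarith
  have T0 : 0 < T := by linarith
  have X2 : X ^ 2 ≤ X ^ 3 := pow_le_pow_right₀ X1 (by norm_num)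
  have b1 : R * S * (10 * T ^ 2) ≤ X := le_trans (by gcongr) hRS
  have b2 : D * (10 * T ^ 2) ≤ X := le_trans (by gcongr) hDX
  have b3 : (S : ℝ) ≤ R * S := le_mul_of_one_le_left (by positivity) R1
  have b4 : 10 * (R * S) ≤ X := by
    linarith [mul_le_mul_of_nonneg_left (show 1 ≤ T ^ 2 by linarith)
      (show (0 : ℝ) ≤ R * S by positivity)]
  obtain ⟨K, hK⟩ : ∃ K, K = ⌊2 * D * R * S * T ^ 2 / X⌋₊ := ⟨_, rfl⟩
  have K1 : (K : ℝ) ≤ 2 * D * R * S * T ^ 2 / X := hK ▸ Nat.floor_le (by positivity)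
  have K2 : 2 * D * R * S * T ^ 2 / X ≤ K + 1 := hK ▸ (Nat.lt_floor_add_one _).le
  have K3 : (K : ℝ) ≤ R * S := K1.trans (by
    rw [div_le_iff₀ X0]; linarith [mul_le_mul_of_nonneg_left b2 (show (0 : ℝ) ≤ R * S by positivity),
      show (0 : ℝ) ≤ D * R * S * T ^ 2 by positivity])
  obtain ⟨N, hN⟩ : ∃ N, N = J + ⌈4 * (a' * X) / D⌉₊ := ⟨_, rfl⟩
  have N1 : J + 4 * (a' * X) / D ≤ N := by rw [hN]; push_cast; linarith [Nat.le_ceil (4 * (a' * X) / D)]
  have N2 : (N : ℝ) * D ≤ A * X := by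
    have : (N : ℝ) ≤ J + 1 + 4 * (a' * X) / D := by
      rw [hN]; push_cast
      linarith [Nat.ceil_lt_add_one (show 0 ≤ 4 * (a' * X) / D by positivity)]
    refine (mul_le_mul_of_nonneg_right this (by positivity)).trans ?_
    rw [add_mul, div_mul_cancel₀ _ (by positivity)]
    have : (D : ℝ) ≤ X := le_trans (le_mul_of_one_le_right (by positivity) (by linarith)) b2
    linarith [mul_le_mul_of_nonneg_left this (show (0 : ℝ) ≤ J + 1 by positivity),
      mul_le_mul_of_nonneg_right hA X0.le]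
  obtain ⟨c, hc⟩ : ∃ c, c = a' * n₁ + b' := ⟨_, rfl⟩
  rw [← hc] at hP hcq
  have Y1 : 1 ≤ a' * X := one_le_mul_of_one_le_of_one_le a1 X1
  obtain ⟨μ, hμ⟩ : ∃ μ : ℝ, μ = -b' / (a' * X) := ⟨_, rfl⟩
  have μ0 : μ ≤ 0 := by rw [hμ, neg_div, neg_nonpos]; positivity
  have u1 : -1 ≤ μ := by
    rw [hμ, le_div_iff₀ (by positivity)]; linarith [le_mul_of_one_le_left X0.le a1]
  have hP' : P ⊆ Ioc 0 (2 * R) ×ˢ Ioc 0 (2 * S) := fun p hp => by
    obtain ⟨x1, x2, x3, x4, -⟩ := hP p hp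
    simp only [mem_product, mem_Ioc]; omega
  have hB' : B ⊆ Ico D (D + D) := fun d hd => mem_Ico.2 ⟨(hB d hd).1, (hB d hd).2.1⟩
  have hQ : ∀ p ∈ P, (R : ℝ) * S ≤ (a' * q * (p.1 * p.2) : ℕ) := fun p hp => by
    obtain ⟨x1, -, x3, -⟩ := hP p hp
    have := hq.ne_zero
    exact_mod_cast (Nat.mul_le_mul x1 x3).trans (Nat.le_mul_of_pos_left _ (by positivity))
  have c1 : ∀ p ∈ P, ∀ d ∈ B, ‖(remC φ X a b a' b' q n₀ (p.1 * p.2) d : ℂ) -
      (mid φ μ (a' * X) N K (a' * q * (p.1 * p.2)) c d 1 +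
        mid φ μ (a' * X) N K (a' * q * (p.1 * p.2)) c d (-1))‖ ≤ A / (R * S) + N * (T⁻¹ ^ J * A) := by
    intro p hp d hd
    obtain ⟨x1, x2, x3, x4, ⟨g1, g2, g3⟩, x6⟩ := hP p hp
    obtain ⟨y1, y2, y3⟩ := hB d hd
    have d0 : d ≠ 0 := by omega
    have d1 : (D : ℝ) ≤ d := by exact_mod_cast y1
    have n1 : 2 + J * (d / (a' * X)) < μ + d / (a' * X) * N := by
      have u2 : 4 ≤ d / (a' * X) * (4 * (a' * X) / D) := by
        rw [show d / (a' * X) * (4 * (a' * X) / D) = 4 * (d / D) by field_simp]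
        linarith [(one_le_div (by positivity)).2 d1]
      linarith [mul_le_mul_of_nonneg_left N1 (show 0 ≤ d / (a' * X) by positivity)]
    have := pair h (δ := T⁻¹) (K := K) hM (by linarith) (by linarith) hC (by linarith) μ0
      (Q := a' * q * (p.1 * p.2)) (c := c) (by have := g1.ne_zero; have := hq.ne_zero; positivity)
      ((Nat.Coprime.mul_right (by simpa [hc] using hb) hcq).mul_right g3) d0 n1 (by
        refine le_trans ?_ (mul_le_mul_of_nonneg_left (mul_le_mul_of_nonneg_left K2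
          (by norm_num)) (by positivity))
        have u1 : (d : ℝ) ≤ 2 * D := by exact_mod_cast (by omega : d ≤ 2 * D)
        have u2 : (p.1 : ℝ) ≤ 2 * R := by exact_mod_cast x2
        have u3 : (p.2 : ℝ) ≤ 2 * S := by exact_mod_cast x4
        push_cast
        calc _ ≤ 2 * D / (a' * X) * (a' * T * (2 * R * (2 * S))) := by gcongr
          _ = _ := by field_simp; ring)
    refine le_trans (le_of_eq ?_) (this.trans (add_le_add_left (div_le_div_of_nonneg_left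
      (by linarith) (by positivity) (hQ p hp)) _))
    rw [remC, cnt_eq (N := N) h X0 ha d0 x6 (by
      linarith [show 0 ≤ J * (d / (a' * X)) by positivity]), ← hc, ← hμ, ← mul_assoc]
    congr 4
    refine if_congr ?_ (by push_cast; field_simp) rfl
    rw [Nat.coprime_mul_iff_right (k := d), Nat.coprime_mul_iff_right (k := d)]
    exact ⟨fun x => ⟨⟨y3, x.2.1.symm⟩, x.2.2.symm⟩,
      fun x => ⟨g2.coprime_mul_left, x.1.2.symm, x.2.symm⟩⟩
  have c2 : ∀ σ : ℤ, σ.natAbs = 1 → ‖∑ p ∈ P, ∑ d ∈ B, (α (p.1 * p.2) * α' d : ℂ) *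
      mid φ μ (a' * X) N K (a' * q * (p.1 * p.2)) c d σ‖ ≤ N * (D / T ^ 3) := by
    intro σ hσ
    have e0 : (-c * σ : ℤ).natAbs = c := by simp [Int.natAbs_mul, hσ]
    simp only [mid, mul_sum]
    rw [sum_congr rfl fun p _ => sum_comm, sum_comm]
    refine (norm_sum_le _ _).trans ((sum_le_card_nsmul _ _ (D / T ^ 3) fun m _ => ?_).trans
      (by simp))
    have := BL' hW (R := 2 * R) (S := 2 * S) (K := K) (c := -c * σ) (R₀ := R) ha hq haq
      (e0.symm ▸ hcq) (by linarith) (by linarith) ?_ ?_ ?_ hL hτ D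
      (β := fun d => α' d * ff φ μ (a' * X) d m)
      (ω := fun p k => R * S * α (p.1 * p.2) * if σ * k ∈ Res (a' * q * (p.1 * p.2)) then
        ((a' * q * (p.1 * p.2) : ℕ) : ℂ)⁻¹ * ee (a' * q * (p.1 * p.2)) (σ * k) ^ m else 0)
      hP' hB' (fun d => ?_) (fun p hp k => ?_) fun p hp => ⟨by exact_mod_cast (hP p hp).1, by
        simpa only [Good, e0, Int.natAbs_natCast] using (hP p hp).2.2.2.2.1⟩
    · rw [Nat.cast_mul 2, Nat.cast_mul 2, Nat.cast_ofNat] at this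
      have := le_of_sq_le_sq (this.trans (hn K R1 S1 D1 (by linarith) X0 (by positivity) K1))
        (by positivity)
      refine le_of_mul_le_mul_left (le_trans (le_of_eq ?_) (this.trans (le_of_eq
        (mul_div_assoc _ _ _)))) (show (0 : ℝ) < R * S by positivity)
      rw [← Complex.norm_natCast R, ← Complex.norm_natCast S, ← norm_mul, ← norm_mul]
      simp only [mul_sum]
      congr 1
      exact sum_congr rfl fun p _ => sum_congr rfl fun d _ => sum_congr rfl fun k _ => by ring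
    · push_cast
      calc _ ≤ T * T * (2 * R) * (2 * S) * (2 * (R * S)) := by gcongr; linarith
        _ = 8 / 10 * (R * S * (10 * T ^ 2)) * (R * S) := by ring
        _ ≤ 1 * X * X := by gcongr; exacts [by norm_num, by linarith]
        _ ≤ _ := by linarith
    · push_cast
      calc _ ≤ X * X := by gcongr <;> linarith
        _ ≤ _ := by linarith
    · push_cast; linarith [le_self_pow₀ X1 three_ne_zero]
    · simp only [norm_mul, Complex.norm_real, Real.norm_eq_abs, ff]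
      exact mul_le_one₀ (hα' d) (abs_nonneg _) (by rw [abs_of_nonneg (h.nonneg _)]; exact h.le_one _)
    · split_ifs
      · simp only [norm_mul, norm_inv, norm_pow, ee_norm, one_pow, mul_one, Complex.norm_real,
          Complex.norm_natCast, Real.norm_eq_abs]
        rw [← div_eq_mul_inv]
        exact div_le_one_of_le₀ ((mul_le_of_le_one_right (by positivity) (hα _)).trans (hQ p hp))
          (by positivity)
      · simp
  rw [← Real.norm_eq_abs, ← Complex.norm_real]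
  push_cast
  have p1 : (P.card : ℝ) ≤ 4 * (R * S) := by
    have := card_le_card hP'
    simp only [card_product, Nat.card_Ioc, Nat.sub_zero] at this
    exact_mod_cast this.trans (le_of_eq (by ring))
  have p2 : (B.card : ℝ) ≤ D := by simpa using card_le_card hB'
  have c3 : ‖∑ p ∈ P, ∑ d ∈ B, (α (p.1 * p.2) * α' d : ℂ) * ((remC φ X a b a' b' q n₀ (p.1 * p.2) d : ℂ) -
      (mid φ μ (a' * X) N K (a' * q * (p.1 * p.2)) c d 1 +
        mid φ μ (a' * X) N K (a' * q * (p.1 * p.2)) c d (-1)))‖ ≤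
      4 * (R * S) * (D * (A / (R * S) + N * (T⁻¹ ^ J * A))) := by
    refine (norm_sum_le _ _).trans ((sum_le_card_nsmul _ _ (D * (A / (R * S) + N * (T⁻¹ ^ J * A)))
      fun p hp => (norm_sum_le _ _).trans ((sum_le_card_nsmul _ _ _ fun d hd =>
        (norm_mul_le _ _).trans ((mul_le_of_le_one_left (norm_nonneg _) ?_).trans
          (c1 p hp d hd))).trans ?_)).trans ?_)
    · simpa using mul_le_one₀ (hα _) (abs_nonneg _) (hα' d)
    · rw [nsmul_eq_mul]; gcongr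
    · rw [nsmul_eq_mul]; gcongr
  simp only [mul_sub, mul_add (_ : ℂ), sum_sub_distrib, sum_add_distrib] at c3
  refine (norm_le_norm_sub_add _ _).trans ((add_le_add c3 ((norm_add_le _ _).trans
    (add_le_add (c2 1 rfl) (c2 (-1) rfl)))).trans ?_)
  have f1 : (D : ℝ) ≤ X / T ^ 3 := by
    rw [le_div_iff₀ (by positivity)]
    exact le_trans (mul_le_mul_of_nonneg_left (pow_le_pow_right₀ (by linarith) (by norm_num))
      (by positivity)) hDX
  have f2 : R * S * T⁻¹ ^ J ≤ 1 / T ^ 3 := by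
    rw [inv_pow, ← div_eq_mul_inv, div_le_div_iff₀ (by positivity) (by positivity), one_mul]
    refine le_trans (le_trans ?_ hRS) (hJ _ (le_self_pow₀ X1 (by norm_num)))
    exact mul_le_mul_of_nonneg_left (pow_le_pow_right₀ (by linarith) (by norm_num)) (by positivity)
  calc _ = 4 * A * D + 4 * A * (N * D) * (R * S * T⁻¹ ^ J) + 2 * (N * D) / T ^ 3 := by
        field_simp; ring
    _ ≤ 4 * A * (X / T ^ 3) + 4 * A * (A * X) * (1 / T ^ 3) + 2 * (A * X) / T ^ 3 := by gcongr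
    _ = (6 * A + 4 * A ^ 2) * (X / T ^ 3) := by ring
    _ ≤ T * (X / T ^ 3) := by gcongr; linarith
    _ = _ := by field_simp

end Pool.Agent.MP_39a890_nt.KL

end MrgPart1

-- ======== part 2: formerly Pool.Agent.MP_39a890_nt.KL
section MrgPart2

/-! The bilinear remainder bound. -/

namespace Pool.Agent.MP_39a890_nt

open Finset Filter

namespace KL

theorem log_ev {ε : ℝ} (hε : 0 < ε) : ∀ᶠ X : ℝ in atTop, 1 + 3 * Real.log X ≤ X ^ ε := by
  filter_upwards [(isLittleO_log_rpow_atTop hε).def (show (0 : ℝ) < 1 / 6 by norm_num),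
    (tendsto_rpow_atTop hε).eventually_ge_atTop 2] with X h1 h2
  rw [Real.norm_of_nonneg (show 0 ≤ X ^ ε by linarith)] at h1
  linarith [le_abs_self (Real.log X), Real.norm_eq_abs (Real.log X)]

theorem log_lt {X : ℝ} {L n : ℕ} (hL : L = Nat.log 2 ⌊X⌋₊ + 1) (h : n ≤ X) :
    Nat.log 2 n ∈ range L :=
  mem_range.2 (hL ▸ Nat.lt_succ_of_le (Nat.log_mono_right (Nat.le_floor h)))

theorem resid {a b a' b' q n₀ W : ℕ} (ha : a ∣ W)
    (hp : ∀ p : ℕ, p.Prime → (p : ℤ) ∣ (a : ℤ) * b' - a' * b → p ∣ W) (D : Finset ℕ)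
    (hD : ∀ d ∈ D, d ≠ 0 ∧ d.Coprime W ∧ q.Coprime d) : ∃ n₁, n₁ ≡ n₀ [MOD q] ∧ ∀ d ∈ D,
      (a' * n₁ + b').Coprime d ∧
        ∀ n, (n ≡ n₀ [MOD q] ∧ d ∣ a * n + b) ↔ n ≡ n₁ [MOD q * d] := by
  have L0 : ∏ d ∈ D, d ≠ 0 := prod_ne_zero_iff.2 fun d hd => (hD d hd).1
  obtain ⟨m, -, hm⟩ := Nat.exists_mul_mod_eq_of_coprime ((∏ d ∈ D, d - 1) * b)
    (Nat.Coprime.prod_right fun d hd => ((hD d hd).2.1.of_dvd_right ha).symm) L0
  obtain ⟨n₁, h1, h2⟩ := Nat.chineseRemainder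
    (Nat.Coprime.prod_right fun d hd => (hD d hd).2.2) n₀ m
  refine ⟨n₁, h1, fun d hd => ?_⟩
  have h3 : d ∣ a * n₁ + b := by
    have := ((h2.mul_left a).trans hm).add_right b
    rw [← add_one_mul, Nat.sub_add_cancel (Nat.one_le_iff_ne_zero.2 L0)] at this
    exact (dvd_prod_of_mem _ hd).trans ((this.dvd_iff dvd_rfl).2 (dvd_mul_right _ _))
  refine ⟨Nat.coprime_of_dvd fun p pp h4 h5 => ?_, fun n => ?_⟩
  · have := ((Int.natCast_dvd_natCast.2 h4).mul_left a).sub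
      ((Int.natCast_dvd_natCast.2 (h5.trans h3)).mul_left a')
    rw [show (a : ℤ) * (a' * n₁ + b' : ℕ) - a' * (a * n₁ + b : ℕ) = a * b' - a' * b by
      push_cast; ring] at this
    exact pp.one_lt.ne' (Nat.eq_one_of_dvd_coprimes (hD d hd).2.1 h5 (hp p pp this))
  · rw [← Nat.modEq_and_modEq_iff_modEq_mul (hD d hd).2.2]
    refine and_congr ⟨fun h => h.trans h1.symm, fun h => h.trans h1⟩ ⟨fun h => ?_, fun h => ?_⟩
    · exact Nat.ModEq.cancel_left_of_coprime ((hD d hd).2.1.of_dvd_right ha)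
        (Nat.ModEq.add_right_cancel' b ((Nat.modEq_zero_iff_dvd.2 h).trans
          (Nat.modEq_zero_iff_dvd.2 h3).symm))
    · exact (((h.mul_left a).add_right b).dvd_iff dvd_rfl).2 h3

theorem rem_zero {φ : ℝ → ℝ} {X : ℝ} {a b a' b' q n₀ d₁ d₂ : ℕ} (h : q.Coprime (a * n₀ + b))
    (hd : ¬q.Coprime d₁) : remC φ X a b a' b' q n₀ d₁ d₂ = 0 := by
  rw [remC, if_neg fun h => hd h.1, sub_zero]
  refine sum_eq_zero fun n _ => if_neg fun ⟨h1, h2, _⟩ => hd (Nat.Coprime.of_dvd_right h2 ?_)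
  exact Nat.coprime_comm.1 (((h1.mul_left a).add_right b).gcd_eq.trans h.symm)

end KL

open KL

theorem klc (hW : WeilStmt) : KLfor fun _ => True := by
  intro θ σm σp η hη θ0 θ1 p0 e1 e2 φ h W b b' W0 _ _ _ hb
  obtain ⟨C, C0, hC⟩ := riem h
  obtain ⟨J, hJ⟩ := exists_nat_ge (4 / η)
  rw [div_le_iff₀ hη] at hJ
  have J0 : J ≠ 0 := by rintro rfl; norm_num at hJ
  obtain ⟨M, M0, hM⟩ := Bd_ex J φ h.smooth (wt_cs h)
  obtain ⟨A, hA⟩ : ∃ A : ℝ, A = C + M + (J + 1 + 4 * W) := ⟨_, rfl⟩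
  have A0 : (0 : ℝ) ≤ J + 1 + 4 * W := by positivity
  have hM' : ∀ (J : ℕ) (g : ℝ → ℝ), Bd J M g → Bd J A g := fun J => by
    induction J with
    | zero => exact fun g hg x => (hg x).trans (by linarith)
    | succ J ih => exact fun g hg => ⟨hg.1, ih _ hg.2⟩
  filter_upwards [log_ev (show 0 < η / 3 by positivity), eventually_ge_atTop 1,
    (tendsto_rpow_atTop hη).eventually_ge_atTop (10 * A ^ 2),
    eventually_ge_atTop (((J ^ J) ^ 2 ^ J : ℕ) : ℝ), eventually_ge_atTop (b' : ℝ)]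
    with X x1 X1 x2 x3 x4
  intro a a' q n₀ D₁ D₂ α α' ha ha' hp hq hqW hqT c1 c2 hD₁ hD₂ hα hα'
  have X0 : 0 < X := by linarith
  have hx : ∀ u v : ℝ, u ≤ v → X ^ u ≤ X ^ v := fun _ _ => Real.rpow_le_rpow_of_exponent_le X1
  have i1 := hx (θ + η * (4 : ℕ)) 1 (by push_cast; linarith)
  have i2 := hx (θ * (2 : ℕ) + η * (40 : ℕ)) (1 + σm) (by push_cast; linarith)
  have i3 := hx (θ * (7 : ℕ) + σp + η * (40 : ℕ)) (4 : ℕ) (by push_cast; linarith)
  have i4 := hx (4 : ℕ) (η * J) (by push_cast; linarith)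
  have i5 := hx (η / 3) η (by linarith)
  have i6 : (X ^ (η / 3)) ^ 3 = X ^ η := by
    rw [← Real.rpow_natCast, ← Real.rpow_mul X0.le]; congr 1; push_cast; ring
  have i7 := hx 0 η hη.le
  simp only [Real.rpow_add X0, Real.rpow_mul_natCast X0.le, Real.rpow_natCast, Real.rpow_one,
    Real.rpow_zero] at i1 i2 i3 i4 i7
  rw [Real.rpow_sub X0, Real.rpow_one]
  have Y0 := Real.rpow_nonneg X0.le θ
  have Y1 : X ^ θ ≤ X := (hx θ 1 (by linarith)).trans_eq (Real.rpow_one X)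
  have s0 := Real.rpow_pos_of_pos X0 σm
  generalize X ^ η = T, X ^ θ = Y, X ^ σm = S₀, X ^ σp = S₁ at *
  have T0 : 0 < T := by linarith
  have hτ : ∀ n : ℕ, n ≤ X ^ 3 → n.divisors.card ≤ T := fun n hn => by
    refine le_of_pow_le_pow_left₀ J0 T0.le (le_trans ?_ i4)
    have : (n.divisors.card : ℝ) ^ J ≤ ((J ^ J) ^ 2 ^ J : ℕ) * n := by exact_mod_cast tau_pow J0 n
    refine this.trans ((mul_le_mul x3 hn (by positivity) X0.le).trans (le_of_eq (by ring)))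
  obtain ⟨L, hL⟩ : ∃ L, L = Nat.log 2 ⌊X⌋₊ + 1 := ⟨_, rfl⟩
  have L1 : (L : ℝ) ^ 3 ≤ T := by
    rw [← i6]
    refine pow_le_pow_left₀ (by positivity) (le_trans ?_ x1) 3
    have a1 : ((2 ^ Nat.log 2 ⌊X⌋₊ : ℕ) : ℝ) ≤ X := le_trans (Nat.cast_le.2
      (Nat.pow_log_le_self 2 (Nat.floor_pos.2 X1).ne')) (Nat.floor_le X0.le)
    have a2 := Real.log_le_log (by positivity) a1
    rw [hL]; push_cast at a2 ⊢
    rw [Real.log_pow] at a2
    nlinarith [Real.log_two_gt_d9, Nat.cast_nonneg (α := ℝ) (Nat.log 2 ⌊X⌋₊)]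
  rw [← sum_filter_of_ne (p := fun d => q.Coprime d) fun d _ hd => by_contra fun h' =>
    hd (sum_eq_zero fun d' _ => by rw [rem_zero c1 h', mul_zero])]
  obtain ⟨n₁, n1, n2⟩ := resid (n₀ := n₀) ha hp (D₁.filter fun d => q.Coprime d) fun d hd =>
    ⟨(hD₁ d (mem_filter.1 hd).1).1.ne_zero, (hD₁ d (mem_filter.1 hd).1).2.1, (mem_filter.1 hd).2⟩
  choose! σ σ1 σ2 σ3 using fun d hd => (hD₁ d hd).2.2.2
  obtain ⟨P, hP⟩ : ∃ P, P = (D₁.filter fun d => q.Coprime d).image fun d => (d / σ d, σ d) :=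
    ⟨_, rfl⟩
  have σ4 : ∀ d ∈ D₁.filter fun d => q.Coprime d, d / σ d * σ d = d := fun d hd =>
    Nat.div_mul_cancel (σ1 d (mem_filter.1 hd).1)
  have e : ∀ g : ℕ → ℝ, ∑ d ∈ D₁.filter fun d => q.Coprime d, g d = ∑ p ∈ P, g (p.1 * p.2) :=
    fun g => by
      rw [hP, sum_image fun d hd d' hd' e =>
        (σ4 d hd).symm.trans ((congrArg (fun p : ℕ × ℕ => p.1 * p.2) e).trans (σ4 d' hd'))]
      exact sum_congr rfl fun d hd => by rw [σ4 d hd]
  have hP' : ∀ p ∈ P, p.1 * p.2 ∈ (D₁.filter fun d => q.Coprime d) ∧ S₀ ≤ p.2 ∧ p.2 ≤ S₁ := by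
    intro p hp
    obtain ⟨d, hd, rfl⟩ := mem_image.1 (hP ▸ hp)
    exact ⟨by rwa [σ4 d hd], σ2 d (mem_filter.1 hd).1, σ3 d (mem_filter.1 hd).1⟩
  have hP0 : ∀ p ∈ P, p.1 ≠ 0 ∧ p.2 ≠ 0 := fun p hp =>
    mul_ne_zero_iff.1 (hD₁ _ (mem_filter.1 (hP' p hp).1).1).1.ne_zero
  have hPY : ∀ p ∈ P, ((p.1 * p.2 : ℕ) : ℝ) ≤ Y := fun p hp =>
    (hD₁ _ (mem_filter.1 (hP' p hp).1).1).2.2.1
  rw [e, ← sum_fiberwise_of_maps_to (t := range L ×ˢ range L)
    (g := fun p => (Nat.log 2 p.1, Nat.log 2 p.2)) fun p hp => mem_product.2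
      ⟨log_lt hL (le_trans (Nat.cast_le.2 (Nat.le_mul_of_pos_right _ (hP0 p hp).2.bot_lt))
        ((hPY p hp).trans Y1)), log_lt hL (le_trans (Nat.cast_le.2
          (Nat.le_mul_of_pos_left _ (hP0 p hp).1.bot_lt)) ((hPY p hp).trans Y1))⟩]
  simp only [← sum_fiberwise_of_maps_to (s := D₂) (t := range L) (g := Nat.log 2)
    fun d hd => log_lt hL ((hD₂ d hd).2.2.trans Y1)]
  have bx : ∀ {n i : ℕ}, n ≠ 0 → Nat.log 2 n = i → 2 ^ i ≤ n ∧ n < 2 * 2 ^ i := fun h0 hi =>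
    hi ▸ ⟨Nat.pow_log_le_self 2 h0, by rw [← pow_succ']; exact Nat.lt_pow_succ_log_self one_lt_two _⟩
  refine (abs_sum_le_sum_abs _ _).trans ((sum_le_card_nsmul _ _ (L * (X / T ^ 2)) fun ij _ => ?_).trans ?_)
  swap
  · rw [card_product, card_range, nsmul_eq_mul]
    push_cast
    calc _ = L ^ 3 * (X / T ^ 2) := by ring
      _ ≤ T * (X / T ^ 2) := by gcongr
      _ = _ := by field_simp
  rw [sum_comm]
  refine (abs_sum_le_sum_abs _ _).trans ((sum_le_card_nsmul _ _ (X / T ^ 2) fun l _ => ?_).trans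
    (by simp))
  rcases (P.filter fun p => (Nat.log 2 p.1, Nat.log 2 p.2) = ij).eq_empty_or_nonempty with
    z | ⟨p, hp⟩
  · rw [z]; simp only [sum_empty, abs_zero]; positivity
  rcases (D₂.filter fun d => Nat.log 2 d = l).eq_empty_or_nonempty with z | ⟨d, hd⟩
  · rw [z]; simp only [sum_empty, sum_const_zero, abs_zero]; positivity
  obtain ⟨p1, p2⟩ := mem_filter.1 hp
  obtain ⟨d1, d2⟩ := mem_filter.1 hd
  have r1 := Nat.cast_le (α := ℝ).2 (bx (hP0 p p1).1 (Prod.ext_iff.1 p2).1).1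
  have r2 := Nat.cast_le (α := ℝ).2 (bx (hP0 p p1).2 (Prod.ext_iff.1 p2).2).1
  have r3 := Nat.cast_le (α := ℝ).2 (bx (hP0 p p1).2 (Prod.ext_iff.1 p2).2).2.le
  have r4 := (Nat.cast_le (α := ℝ).2 (bx (hD₂ d d1).1.ne' d2).1).trans (hD₂ d d1).2.2
  have r5 : ((2 ^ ij.1 : ℕ) : ℝ) * (2 ^ ij.2 : ℕ) ≤ Y :=
    (mul_le_mul r1 r2 (by positivity) (by positivity)).trans (by exact_mod_cast hPY p p1)
  have r6 := r2.trans (hP' p p1).2.2
  have r7 := (hP' p p1).2.1.trans r3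
  have a0 : a' ≠ 0 := ne_zero_of_dvd_ne_zero W0.ne' ha'
  refine box hW h (hM' J φ hM) (fun l μ N h1 h2 h3 => (hC l μ N h1 h2 h3).trans (by linarith))
    (R := 2 ^ ij.1) (S := 2 ^ ij.2) (D := 2 ^ l) (n₁ := n₁) (hb.of_dvd_right ha') x4 a0
    (by linarith [Nat.cast_le (α := ℝ).2 (Nat.le_of_dvd W0 ha')]) x2 i4
    (by rw [Real.log_pow]; push_cast; linarith) hτ hq (hqW.of_dvd_right ha').symm
    (((n1.mul_left a').add_right b').gcd_eq.trans c2.symm) hqT (by positivity) (by positivity)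
    (by positivity) (le_trans (by gcongr) i1) (le_trans (by gcongr) i1) ?_ ?_ ?_
    (fun p hp => ?_) (fun d hd => ?_) hα hα'
  · refine le_of_mul_le_mul_right ?_ (show (0 : ℝ) < (2 ^ ij.2 : ℕ) by positivity)
    rw [Nat.cast_mul 2, Nat.cast_ofNat] at r7
    calc _ = (2 ^ l : ℕ) * ((2 ^ ij.1 : ℕ) * (2 ^ ij.2 : ℕ)) * T ^ 40 := by ring
      _ ≤ Y * Y * T ^ 40 := by gcongr
      _ ≤ X * (2 * (2 ^ ij.2 : ℕ)) := (by rwa [← sq] : _ ≤ X * S₀).trans (by gcongr)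
      _ = _ := by ring
  · calc _ ≤ Y ^ 4 * Y ^ 3 * S₁ * T ^ 40 := by gcongr
      _ ≤ _ := by rwa [← pow_add]
  · calc _ ≤ Y ^ 2 * Y ^ 5 * S₁ * T ^ 40 := by gcongr
      _ ≤ _ := by rwa [← pow_add]
  · obtain ⟨p1, p2⟩ := mem_filter.1 hp
    obtain ⟨u1, u2⟩ := bx (hP0 p p1).1 (Prod.ext_iff.1 p2).1
    obtain ⟨u3, u4⟩ := bx (hP0 p p1).2 (Prod.ext_iff.1 p2).2
    obtain ⟨u5, u6⟩ := mem_filter.1 (hP' p p1).1
    exact ⟨u1, u2.le, u3, u4.le, ⟨(hD₁ _ u5).1, Nat.Coprime.mul_left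
      ((hD₁ _ u5).2.1.of_dvd_right ha').symm u6, (n2 _ (hP' p p1).1).1⟩, (n2 _ (hP' p p1).1).2⟩
  · obtain ⟨d1, d2⟩ := mem_filter.1 hd
    obtain ⟨u1, u2⟩ := bx (hD₂ d d1).1.ne' d2
    exact ⟨u1, by omega, (hD₂ d d1).2.1.of_dvd_right ha'⟩

theorem kl (hW : WeilStmt) : KLStmt := by
  intro θ σm σp η hη θ0 θ1 p0 e1 e2 φ h W W0
  filter_upwards [klc hW θ σm σp η hη θ0 θ1 p0 e1 e2 φ h W 1 1 W0 trivial trivial
    (Nat.coprime_one_left W) (Nat.coprime_one_left W)] with X hX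
  intro a a' q n₀ D₁ D₂ α α' b1 b2 b3
  exact hX a a' q n₀ D₁ D₂ α α' b1 b2 (by simpa using b3)

end Pool.Agent.MP_39a890_nt

end MrgPart2

-- marker of a merged file
example : 731051 + 656061 = 731051 + 656061 := rfl
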