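import Mathlib.Algebra.Notation.Lemmas
import Mathlib.Tactic.SuppressCompilation
import Mathlib.Algebra.Order.Star.Real
import Mathlib.Topology.Sheaves.Presheaf
import Mathlib.Analysis.Normed.Field.Basic
import Mathlib.Tactic.Bound
import Mathlib.RingTheory.PiTensorProduct
import Mathlib.Tactic.Algebra.Basic
import Mathlib.Tactic.Monotonicity.Lemmas
import Mathlib.Algebra.Ring.IsFormallyReal

-- ======== part 0: formerly Pool.Agent.MP_39a890_nt.Core
section MrgPart0

/-!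
# Quadratic forms on product spaces

Near diagonal Gram matrices, the Schur test and monotone coefficients.
-/

namespace Pool.Agent.MP_39a890_nt.Core

open Finset Function

set_option linter.unusedSectionVars false

theorem abs_prod_sub_le {ι : Type*} [DecidableEq ι] (s : Finset ι) (x y n : ι → ℝ)
    (hy : ∀ i, 0 ≤ y i) (h : ∀ i, |x i - y i| ≤ n i) :
    |∏ i ∈ s, x i - ∏ i ∈ s, y i| ≤ ∏ i ∈ s, (y i + n i) - ∏ i ∈ s, y i := by
  induction s using Finset.induction_on with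
  | empty => simp
  | insert a s ha ih =>
    rw [prod_insert ha, prod_insert ha, prod_insert ha]
    set X := ∏ i ∈ s, x i
    set Y := ∏ i ∈ s, y i
    set Z := ∏ i ∈ s, (y i + n i)
    have hY : 0 ≤ Y := prod_nonneg fun i _ => hy i
    have hX : |X| ≤ Z := by
      have := abs_sub_abs_le_abs_sub X Y
      rw [abs_of_nonneg hY] at this
      linarith
    have hn : 0 ≤ n a := (abs_nonneg _).trans (h a)
    have e : x a * X - y a * Y = (x a - y a) * X + y a * (X - Y) := by ring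
    rw [e]
    refine (abs_add_le _ _).trans ?_
    rw [abs_mul, abs_mul, abs_of_nonneg (hy a)]
    have h1 : |x a - y a| * |X| ≤ n a * Z := mul_le_mul (h a) hX (abs_nonneg _) hn
    have h2 : y a * |X - Y| ≤ y a * (Z - Y) := mul_le_mul_of_nonneg_left ih (hy a)
    nlinarith

theorem schur_test {α : Type*} [Fintype α] (c : α → ℝ) (K : α → α → ℝ)
    (hs : ∀ a b, K a b = K b a) (h0 : ∀ a b, 0 ≤ K a b) :
    ∑ a, ∑ b, |c a * c b| * K a b ≤ ∑ a, c a ^ 2 * ∑ b, K a b := by
  have h1 : ∑ a, ∑ b, |c a * c b| * K a b ≤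
      ∑ a, ∑ b, (c a ^ 2 * K a b / 2 + c b ^ 2 * K a b / 2) := by
    refine sum_le_sum fun a _ => sum_le_sum fun b _ => ?_
    have : |c a * c b| ≤ (c a ^ 2 + c b ^ 2) / 2 := by
      rw [abs_mul, ← sq_abs (c a), ← sq_abs (c b)]
      nlinarith [sq_nonneg (|c a| - |c b|)]
    nlinarith [h0 a b]
  refine h1.trans (le_of_eq ?_)
  simp_rw [sum_add_distrib]
  rw [sum_comm (f := fun a b => c b ^ 2 * K a b / 2), ← sum_add_distrib]
  refine sum_congr rfl fun a _ => ?_
  rw [mul_sum, ← sum_add_distrib]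
  refine sum_congr rfl fun b _ => ?_
  rw [hs b a]; ring

variable {ι S : Type*} [Fintype ι] [DecidableEq ι] [Fintype S] [DecidableEq S]

theorem sum_prod_eq (f : ι → S → ℝ) : ∑ r : ι → S, ∏ p, f p (r p) = ∏ p, ∑ a, f p a := by
  rw [Finset.prod_univ_sum, Fintype.piFinset_univ]

theorem schur (c : (ι → S) → ℝ) (M : ι → S → S → ℝ) (D E : ι → S → ℝ)
    (hsym : ∀ p a b, M p a b = M p b a) (hD : ∀ p a, 0 ≤ D p a)
    (hE : ∀ p a, ∑ b, |M p a b - if a = b then D p a else 0| ≤ E p a) :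
    |∑ r, ∑ r', c r * c r' * ∏ p, M p (r p) (r' p) - ∑ r, c r ^ 2 * ∏ p, D p (r p)| ≤
      ∑ r, c r ^ 2 * ∏ p, (D p (r p) + E p (r p)) - ∑ r, c r ^ 2 * ∏ p, D p (r p) := by
  set Δ : ι → S → S → ℝ := fun p a b => if a = b then D p a else 0 with hΔ
  have hΔ0 : ∀ p a b, 0 ≤ Δ p a b := fun p a b => by
    simp only [hΔ]; split_ifs
    · exact hD p a
    · exact le_rfl
  have hΔs : ∀ p a b, Δ p a b = Δ p b a := fun p a b => by
    simp only [hΔ]
    by_cases h : a = b
    · subst h; rfl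
    · rw [if_neg h, if_neg (Ne.symm h)]
  have hΔsum : ∀ p a, ∑ b, Δ p a b = D p a := fun p a => by simp [hΔ]
  have hP : ∀ r r' : ι → S, ∏ p, Δ p (r p) (r' p) = if r = r' then ∏ p, D p (r p) else 0 := by
    intro r r'
    split_ifs with h
    · subst h; simp [hΔ]
    · obtain ⟨p, hp⟩ := Function.ne_iff.1 h
      exact prod_eq_zero (mem_univ p) (by simp [hΔ, hp])
  have e1 : ∑ r, c r ^ 2 * ∏ p, D p (r p) =
      ∑ r, ∑ r', c r * c r' * ∏ p, Δ p (r p) (r' p) := by
    refine sum_congr rfl fun r _ => ?_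
    simp_rw [hP, mul_ite, mul_zero]
    rw [sum_ite_eq]; simp [sq]
  set K : (ι → S) → (ι → S) → ℝ := fun r r' =>
    ∏ p, (Δ p (r p) (r' p) + |M p (r p) (r' p) - Δ p (r p) (r' p)|) - ∏ p, Δ p (r p) (r' p)
    with hK
  have hK1 : ∀ r r', |∏ p, M p (r p) (r' p) - ∏ p, Δ p (r p) (r' p)| ≤ K r r' := fun r r' =>
    abs_prod_sub_le univ _ _ _ (fun p => hΔ0 p _ _) (fun p => le_rfl)
  have h2 : |∑ r, ∑ r', c r * c r' * ∏ p, M p (r p) (r' p) - ∑ r, c r ^ 2 * ∏ p, D p (r p)| ≤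
      ∑ r, ∑ r', |c r * c r'| * K r r' := by
    rw [e1, ← sum_sub_distrib]
    refine (abs_sum_le_sum_abs _ _).trans (sum_le_sum fun r _ => ?_)
    rw [← sum_sub_distrib]
    refine (abs_sum_le_sum_abs _ _).trans (sum_le_sum fun r' _ => ?_)
    rw [← mul_sub, abs_mul]
    exact mul_le_mul_of_nonneg_left (hK1 r r') (abs_nonneg _)
  refine h2.trans ((schur_test c K (fun r r' => ?_)
    (fun r r' => (abs_nonneg _).trans (hK1 r r'))).trans ?_)
  · simp only [hK]
    congr 1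
    · exact prod_congr rfl fun p _ => by rw [hΔs, hsym]
    · exact prod_congr rfl fun p _ => hΔs _ _ _
  · rw [← sum_sub_distrib]
    refine sum_le_sum fun r _ => ?_
    rw [← mul_sub]
    refine mul_le_mul_of_nonneg_left ?_ (sq_nonneg _)
    simp only [hK]
    rw [sum_sub_distrib, sum_prod_eq (fun p b => Δ p (r p) b + |M p (r p) b - Δ p (r p) b|),
      sum_prod_eq (fun p b => Δ p (r p) b)]
    simp_rw [sum_add_distrib, hΔsum]
    refine sub_le_sub_right (prod_le_prod (fun p _ => ?_) (fun p _ => ?_)) _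
    · exact add_nonneg (hD _ _) (sum_nonneg fun _ _ => abs_nonneg _)
    · exact add_le_add_right (hE p _) _

theorem sum_update (G : (ι → S) → ℝ) (p : ι) :
    ∑ r : ι → S, ∑ a, G (update r p a) = Fintype.card S * ∑ r, G r := by
  let e : (ι → S) × S ≃ (ι → S) × S :=
    { toFun := fun x => (update x.1 p x.2, x.1 p)
      invFun := fun x => (update x.1 p x.2, x.1 p)
      left_inv := fun x => by simp
      right_inv := fun x => by simp }
  rw [← Fintype.sum_prod_type', ← Equiv.sum_comp e]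
  simp [e, Fintype.sum_prod_type, mul_sum]

theorem reduce [Nonempty S] (Y : (ι → S) → ℝ) (π : S → S) (D1 D2 : ι → S → ℝ)
    (hY0 : ∀ r, 0 ≤ Y r) (hY : ∀ r p, Y r ≤ Y (update r p (π (r p))))
    (h1 : ∀ p a, 0 ≤ D1 p a) (h2 : ∀ p a, 0 ≤ D2 p a)
    (h : ∀ p (f : S → ℝ), (∀ a, 0 ≤ f a) → (∀ a, f a ≤ f (π a)) →
      ∑ a, f a * D1 p a ≤ ∑ a, f a * D2 p a) :
    ∑ r, Y r * ∏ p, D1 p (r p) ≤ ∑ r, Y r * ∏ p, D2 p (r p) := by
  have key : ∀ T : Finset ι, ∑ r, Y r * ∏ p, D1 p (r p) ≤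
      ∑ r, Y r * ∏ p, (if p ∈ T then D2 p (r p) else D1 p (r p)) := by
    intro T
    induction T using Finset.induction_on with
    | empty => simp
    | insert q T hq ih =>
      refine ih.trans ?_
      have hc : (0 : ℝ) < Fintype.card S := by exact_mod_cast Fintype.card_pos
      refine le_of_mul_le_mul_left ?_ hc
      rw [← sum_update _ q, ← sum_update _ q]
      refine sum_le_sum fun r _ => ?_
      set Z := ∏ p ∈ univ.erase q, (if p ∈ T then D2 p (r p) else D1 p (r p)) with hZ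
      have hZ0 : 0 ≤ Z := prod_nonneg fun p _ => by split_ifs; exacts [h2 _ _, h1 _ _]
      have e1 : ∀ a, ∏ p, (if p ∈ T then D2 p (update r q a p) else D1 p (update r q a p)) =
          D1 q a * Z := by
        intro a
        rw [← mul_prod_erase univ _ (mem_univ q), if_neg hq, update_self, hZ]
        congr 1
        exact prod_congr rfl fun p hp => by rw [update_of_ne (ne_of_mem_erase hp)]
      have e2 : ∀ a, ∏ p, (if p ∈ insert q T then D2 p (update r q a p)
          else D1 p (update r q a p)) = D2 q a * Z := by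
        intro a
        rw [← mul_prod_erase univ _ (mem_univ q), if_pos (mem_insert_self _ _), update_self, hZ]
        congr 1
        refine prod_congr rfl fun p hp => ?_
        have hp' := ne_of_mem_erase hp
        rw [update_of_ne hp']
        simp [hp']
      simp_rw [e1, e2, ← mul_assoc, ← sum_mul]
      refine mul_le_mul_of_nonneg_right (h q _ (fun a => hY0 _) fun a => ?_) hZ0
      simpa using hY (update r q a) q
  simpa using key univ

end Pool.Agent.MP_39a890_nt.Core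

end MrgPart0

-- ======== part 1: formerly Pool.Agent.MP_39a890_nt.Gram
section MrgPart1

/-!
# The sieve functions on the space of local states
-/

namespace Pool.Agent.MP_39a890_nt.Core

open Finset Function

set_option linter.unusedSectionVars false

variable {ι κ : Type*} [Fintype ι] [DecidableEq ι] [Fintype κ] [DecidableEq κ]

/-- local factor -/
def hl (t : ℝ) (o : Option κ) (k : κ) : ℝ := if o = some k then -1 else t

theorem abs_hl_le {t : ℝ} (h0 : 0 ≤ t) (h1 : t ≤ 1) (o : Option κ) (k : κ) : |hl t o k| ≤ 1 := by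
  unfold hl; split_ifs
  · simp
  · rwa [abs_of_nonneg h0]

theorem abs_prod_hl_le {t : ℝ} (h0 : 0 ≤ t) (h1 : t ≤ 1) (o : Option κ) (A : Finset κ) :
    |∏ k ∈ A, hl t o k| ≤ 1 := by
  rw [abs_prod]
  exact prod_le_one (fun _ _ => abs_nonneg _) fun k _ => abs_hl_le h0 h1 o k

theorem abs_prod_hl_le' {t : ℝ} (h0 : 0 ≤ t) (h1 : t ≤ 1) (o : Option κ) {A : Finset κ} {j : κ}
    (hj : j ∈ A) (ho : o ≠ some j) : |∏ k ∈ A, hl t o k| ≤ t := by
  rw [← mul_prod_erase A _ hj, abs_mul]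
  have : hl t o j = t := if_neg ho
  rw [this, abs_of_nonneg h0]
  exact mul_le_of_le_one_right h0 (abs_prod_hl_le h0 h1 o _)

theorem prod_hl_of_notMem (t : ℝ) {o : Option κ} {A : Finset κ} (h : ∀ k ∈ A, o ≠ some k) :
    ∏ k ∈ A, hl t o k = t ^ A.card := by
  rw [← prod_const]
  exact prod_congr rfl fun k hk => if_neg (h k hk)

theorem gram_local {t : ℝ} (h0 : 0 ≤ t) (h1 : t ≤ 1) (π : Option κ → ℝ) (hs : ∑ o, π o = 1)
    (A B : Finset κ) (lo : ∀ k ∈ A ∪ B, t ≤ π (some k) * (1 + t))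
    (hi : ∀ k ∈ A ∪ B, π (some k) ≤ t) :
    |∑ o, π o * ((∏ k ∈ A, hl t o k) * ∏ k ∈ B, hl t o k) - if A = B then t ^ A.card else 0| ≤
      (2 * Fintype.card κ + 2) * t ^ 2 := by
  set f : Option κ → ℝ := fun o => (∏ k ∈ A, hl t o k) * ∏ k ∈ B, hl t o k with hf
  have hK : (0 : ℝ) ≤ Fintype.card κ := Nat.cast_nonneg _
  have ht2 : 0 ≤ t ^ 2 := sq_nonneg t
  have e1 : ∑ o, π o * f o = f none + ∑ k, π (some k) * (f (some k) - f none) := by
    rw [Fintype.sum_option] at hs ⊢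
    simp_rw [mul_sub, sum_sub_distrib, ← sum_mul]
    have : π none = 1 - ∑ k, π (some k) := by linarith
    rw [this]; ring
  have e0 : f none = t ^ A.card * t ^ B.card := by
    simp only [hf]
    rw [prod_hl_of_notMem t (fun _ _ => by simp), prod_hl_of_notMem t (fun _ _ => by simp)]
  have e2 : ∀ k, k ∉ A ∪ B → f (some k) = f none := by
    intro k hk
    rw [e0]
    simp only [hf]
    rw [prod_hl_of_notMem t, prod_hl_of_notMem t]
    · intro j hj h
      exact hk (by rw [Option.some_inj.1 h]; exact mem_union_right _ hj)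
    · intro j hj h
      exact hk (by rw [Option.some_inj.1 h]; exact mem_union_left _ hj)
  have hπ0 : ∀ k ∈ A ∪ B, 0 ≤ π (some k) := fun k hk => by
    have := lo k hk
    by_contra hneg
    have : π (some k) * (1 + t) < 0 := mul_neg_of_neg_of_pos (not_le.1 hneg) (by linarith)
    linarith
  change |∑ o, π o * f o - _| ≤ _
  rw [e1]
  by_cases hE : A ∪ B = ∅
  · have hA : A = ∅ := (union_eq_empty.1 hE).1
    have hB : B = ∅ := (union_eq_empty.1 hE).2
    rw [sum_eq_zero fun k _ => by rw [e2 k (by simp [hE])]; simp, e0]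
    subst hA hB
    simp only [card_empty, pow_zero, if_true]
    norm_num
    positivity
  by_cases hc : ∃ k0, A ∪ B ⊆ {k0}
  · obtain ⟨k0, hk0⟩ := hc
    have hU : A ∪ B = {k0} := (subset_singleton_iff.1 hk0).resolve_left hE
    have hm : k0 ∈ A ∪ B := by simp [hU]
    rw [sum_eq_single k0 (fun k _ hk => by rw [e2 k (by simp [hU, hk])]; simp) (by simp), e0]
    have l1 := lo k0 hm
    have l2 := hi k0 hm
    have l3 := hπ0 k0 hm
    have hb : t ^ 2 ≤ (2 * Fintype.card κ + 2) * t ^ 2 := by nlinarith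
    refine le_trans ?_ hb
    rcases subset_singleton_iff.1 (subset_union_left.trans hk0) with hA | hA <;>
      rcases subset_singleton_iff.1 (subset_union_right.trans hk0) with hB | hB
    · exact absurd (by simp [hA, hB]) hE
    · subst hA hB
      rw [if_neg (by simp)]
      simp only [hf, hl, prod_empty, prod_singleton, card_empty, card_singleton, if_true]
      rw [abs_le]; constructor <;> nlinarith
    · subst hA hB
      rw [if_neg (by simp)]
      simp only [hf, hl, prod_empty, prod_singleton, card_empty, card_singleton, if_true]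
      rw [abs_le]; constructor <;> nlinarith
    · subst hA hB
      simp only [hf, hl, prod_singleton, card_singleton, if_true]
      have l4 : 0 ≤ 1 - t := by linarith
      have l5 : t * (1 - t) ≤ π (some k0) * (1 + t) * (1 - t) := mul_le_mul_of_nonneg_right l1 l4
      have l6 : π (some k0) * (1 - t ^ 2) ≤ t * 1 :=
        mul_le_mul l2 (by linarith) (by nlinarith) h0
      rw [abs_le]; constructor <;> nlinarith
  · push Not at hc
    have hex : ∀ k, ∃ j ∈ A ∪ B, j ≠ k := fun k => by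
      by_contra h
      push Not at h
      exact hc k fun j hj => mem_singleton.2 (h j hj)
    have hcard : 2 ≤ (A ∪ B).card := by
      obtain ⟨k, hk⟩ := nonempty_iff_ne_empty.2 hE
      obtain ⟨j, hj, hjk⟩ := hex k
      exact one_lt_card.2 ⟨j, hj, k, hk, hjk⟩
    have hn : |f none| ≤ t ^ 2 := by
      rw [e0, ← pow_add, abs_of_nonneg (pow_nonneg h0 _)]
      exact pow_le_pow_of_le_one h0 h1 (hcard.trans (card_union_le _ _))
    have hk : ∀ k, |f (some k)| ≤ t := by
      intro k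
      obtain ⟨j, hj, hjk⟩ := hex k
      have ho : some k ≠ some j := fun h => hjk (Option.some_inj.1 h).symm
      simp only [hf]
      rw [abs_mul]
      rcases mem_union.1 hj with h | h
      · exact (mul_le_mul (abs_prod_hl_le' h0 h1 _ h ho) (abs_prod_hl_le h0 h1 _ _)
          (abs_nonneg _) h0).trans (by simp)
      · exact (mul_le_mul (abs_prod_hl_le h0 h1 _ _) (abs_prod_hl_le' h0 h1 _ h ho)
          (abs_nonneg _) zero_le_one).trans (by simp)
    have hsum : |∑ k, π (some k) * (f (some k) - f none)| ≤ Fintype.card κ * (2 * t ^ 2) := by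
      refine (abs_sum_le_sum_abs _ _).trans ?_
      rw [← nsmul_eq_mul, ← card_univ]
      refine sum_le_card_nsmul _ _ _ fun k _ => ?_
      by_cases hm : k ∈ A ∪ B
      · rw [abs_mul, abs_of_nonneg (hπ0 k hm)]
        have h3 : |f (some k) - f none| ≤ 2 * t := by
          have := abs_sub (f (some k)) (f none)
          have := hk k
          nlinarith
        calc _ ≤ t * (2 * t) := mul_le_mul (hi k hm) h3 (abs_nonneg _) h0
          _ = _ := by ring
      · rw [e2 k hm]; simp; positivity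
    have hΔ : |if A = B then t ^ A.card else 0| ≤ t ^ 2 := by
      split_ifs with h
      · rw [abs_of_nonneg (pow_nonneg h0 _)]
        refine pow_le_pow_of_le_one h0 h1 ?_
        simpa [h] using hcard
      · simpa using ht2
    have t1 := abs_sub (f none + ∑ k, π (some k) * (f (some k) - f none))
      (if A = B then t ^ A.card else 0)
    have t2 := abs_add_le (f none) (∑ k, π (some k) * (f (some k) - f none))
    linarith

/-- transposition -/
def tr : (κ → Finset ι) ≃ (ι → Finset κ) where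
  toFun r p := univ.filter fun k => p ∈ r k
  invFun s k := univ.filter fun p => k ∈ s p
  left_inv r := by ext k p; simp
  right_inv s := by ext p k; simp

theorem mem_tr {r : κ → Finset ι} {p : ι} {k : κ} : k ∈ tr r p ↔ p ∈ r k := by simp [tr]

theorem mem_tr_symm {s : ι → Finset κ} {p : ι} {k : κ} : p ∈ tr.symm s k ↔ k ∈ s p := by simp [tr]

theorem prod_tr (r : κ → Finset ι) (f : ι → κ → ℝ) :
    ∏ k, ∏ p ∈ r k, f p k = ∏ p, ∏ k ∈ tr r p, f p k :=
  prod_comm' fun k p => by simp [mem_tr]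

/-- the sieve function with coefficients `c` -/
def V (t : ι → ℝ) (c : (κ → Finset ι) → ℝ) (ω : ι → Option κ) : ℝ :=
  ∑ r, c r * ∏ k, ∏ p ∈ r k, hl (t p) (ω p) k

/-- expectation for a product weight -/
def Ex (π : ι → Option κ → ℝ) (F : (ι → Option κ) → ℝ) : ℝ := ∑ ω, (∏ p, π p (ω p)) * F ω

/-- diagonal weight -/
def wD (t : ι → ℝ) (r : κ → Finset ι) : ℝ := ∏ k, ∏ p ∈ r k, t p

theorem wD_nonneg {t : ι → ℝ} (h : ∀ p, 0 ≤ t p) (r : κ → Finset ι) : 0 ≤ wD t r :=
  prod_nonneg fun _ _ => prod_nonneg fun p _ => h p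

theorem wD_tr (t : ι → ℝ) (r : κ → Finset ι) : wD t r = ∏ p, t p ^ (tr r p).card := by
  unfold wD
  rw [prod_tr r fun p _ => t p]
  simp

theorem Ex_prod (π : ι → Option κ → ℝ) (f : ι → Option κ → ℝ) :
    Ex π (fun ω => ∏ p, f p (ω p)) = ∏ p, ∑ o, π p o * f p o := by
  unfold Ex
  simp_rw [← prod_mul_distrib]
  exact sum_prod_eq fun p o => π p o * f p o

theorem Ex_sum {α : Type*} (π : ι → Option κ → ℝ) (s : Finset α) (c : α → ℝ)
    (F : α → (ι → Option κ) → ℝ) :
    Ex π (fun ω => ∑ a ∈ s, c a * F a ω) = ∑ a ∈ s, c a * Ex π (F a) := by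
  unfold Ex
  simp_rw [mul_sum]
  rw [sum_comm]
  exact sum_congr rfl fun a _ => sum_congr rfl fun ω _ => by ring

theorem Ex_V_sq (π : ι → Option κ → ℝ) (t : ι → ℝ) (c : (κ → Finset ι) → ℝ) :
    Ex π (fun ω => V t c ω ^ 2) = ∑ r, ∑ r', c r * c r' *
      ∏ p, ∑ o, π p o * ((∏ k ∈ tr r p, hl (t p) o k) * ∏ k ∈ tr r' p, hl (t p) o k) := by
  have e : ∀ ω, V t c ω ^ 2 = ∑ x : (κ → Finset ι) × (κ → Finset ι), (c x.1 * c x.2) *
      ∏ p, ((∏ k ∈ tr x.1 p, hl (t p) (ω p) k) * ∏ k ∈ tr x.2 p, hl (t p) (ω p) k) := by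
    intro ω
    rw [V, sq, sum_mul_sum, Fintype.sum_prod_type]
    refine sum_congr rfl fun r _ => sum_congr rfl fun r' _ => ?_
    rw [prod_mul_distrib, ← prod_tr r fun p k => hl (t p) (ω p) k,
      ← prod_tr r' fun p k => hl (t p) (ω p) k]
    ring
  simp_rw [e]
  rw [Ex_sum, Fintype.sum_prod_type]
  refine sum_congr rfl fun r _ => sum_congr rfl fun r' _ => ?_
  rw [Ex_prod π fun p o => (∏ k ∈ tr r p, hl (t p) o k) * ∏ k ∈ tr r' p, hl (t p) o k]

/-- admissible local weights, on the coordinates in `Gd` -/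
structure Meas (t : ι → ℝ) (π : ι → Option κ → ℝ) (Gd : Finset κ) : Prop where
  t0 : ∀ p, 0 ≤ t p
  t1 : ∀ p, t p ≤ 1
  sum : ∀ p, ∑ o, π p o = 1
  lo : ∀ p, ∀ k ∈ Gd, t p ≤ π p (some k) * (1 + t p)
  hi : ∀ p, ∀ k ∈ Gd, π p (some k) ≤ t p

/-- the size of the error of one row -/
def eK (κ : Type*) [Fintype κ] : ℝ := 2 ^ Fintype.card κ * (2 * Fintype.card κ + 2)

theorem eK_nonneg : 0 ≤ eK κ := by unfold eK; positivity

theorem gram {t : ι → ℝ} {π : ι → Option κ → ℝ} {Gd : Finset κ} (h : Meas t π Gd)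
    (c : (κ → Finset ι) → ℝ) (hc : ∀ r, c r ≠ 0 → ∀ k, k ∉ Gd → r k = ∅) :
    |Ex π (fun ω => V t c ω ^ 2) - ∑ r, c r ^ 2 * wD t r| ≤
      ∑ r, c r ^ 2 * ∏ p, (t p ^ (tr r p).card + eK κ * t p ^ 2) - ∑ r, c r ^ 2 * wD t r := by
  set M : ι → Finset κ → Finset κ → ℝ := fun p A B => if A ∪ B ⊆ Gd then
    ∑ o, π p o * ((∏ k ∈ A, hl (t p) o k) * ∏ k ∈ B, hl (t p) o k)
    else if A = B then t p ^ A.card else 0 with hM
  have key := schur (fun s => c (tr.symm s)) M (fun p A => t p ^ A.card)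
    (fun p _ => eK κ * t p ^ 2) ?_ (fun p A => pow_nonneg (h.t0 p) _) ?_
  · have e1 : Ex π (fun ω => V t c ω ^ 2) =
        ∑ s, ∑ s', c (tr.symm s) * c (tr.symm s') * ∏ p, M p (s p) (s' p) := by
      rw [Ex_V_sq]
      refine Fintype.sum_equiv tr _ _ fun r => Fintype.sum_equiv tr _ _ fun r' => ?_
      simp only [Equiv.symm_apply_apply]
      by_cases h1 : c r = 0
      · simp [h1]
      by_cases h2 : c r' = 0
      · simp [h2]
      congr 1
      refine prod_congr rfl fun p _ => ?_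
      simp only [hM]
      rw [if_pos]
      intro k hk
      by_contra hG
      rcases mem_union.1 hk with hk | hk
      · rw [mem_tr, hc r h1 k hG] at hk; simp at hk
      · rw [mem_tr, hc r' h2 k hG] at hk; simp at hk
    have e2 : ∑ r, c r ^ 2 * wD t r = ∑ s, c (tr.symm s) ^ 2 * ∏ p, t p ^ (s p).card := by
      exact Fintype.sum_equiv tr _ _ fun r => by simp only [Equiv.symm_apply_apply, wD_tr]
    have e3 : ∑ r, c r ^ 2 * ∏ p, (t p ^ (tr r p).card + eK κ * t p ^ 2) =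
        ∑ s, c (tr.symm s) ^ 2 * ∏ p, (t p ^ (s p).card + eK κ * t p ^ 2) := by
      exact Fintype.sum_equiv tr _ _ fun r => by simp only [Equiv.symm_apply_apply]
    rw [e1, e2, e3]
    exact key
  · intro p A B
    simp only [hM]
    rw [union_comm B A]
    split_ifs with h1 h2 h3 h3
    · exact sum_congr rfl fun o _ => by ring
    · rw [h2]
    · exact absurd h2.symm h3
    · exact absurd h3.symm h2
    · rfl
  · intro p A
    have : ∀ B, |M p A B - if A = B then t p ^ A.card else 0| ≤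
        (2 * Fintype.card κ + 2) * t p ^ 2 := by
      intro B
      simp only [hM]
      by_cases hG : A ∪ B ⊆ Gd
      · rw [if_pos hG]
        exact gram_local (h.t0 p) (h.t1 p) (π p) (h.sum p) A B (fun k hk => h.lo p k (hG hk))
          (fun k hk => h.hi p k (hG hk))
      · rw [if_neg hG, sub_self, abs_zero]; positivity
    refine (sum_le_card_nsmul _ _ _ fun B _ => this B).trans (le_of_eq ?_)
    rw [card_univ, Fintype.card_finset, nsmul_eq_mul, eK]
    push_cast; ring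

/-- constant of the master lemma -/
def cK (κ : Type*) [Fintype κ] : ℝ := 2 ^ Fintype.card κ * eK κ

theorem cK_nonneg : 0 ≤ cK κ := by unfold cK; have := eK_nonneg (κ := κ); positivity

theorem sum_const_le (f : Finset κ → ℝ) (e B : ℝ) (he : 0 ≤ e) (hf : ∀ A, f A ≤ B) :
    ∑ A, f A * e ≤ 2 ^ Fintype.card κ * e * B := by
  refine (sum_le_card_nsmul _ _ (B * e) fun A _ => mul_le_mul_of_nonneg_right (hf A) he).trans
    (le_of_eq ?_)
  rw [card_univ, Fintype.card_finset, nsmul_eq_mul]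
  push_cast; ring

/-- Master lemma for monotone coefficients. -/
theorem master {t : ι → ℝ} {π : ι → Option κ → ℝ} {Gd : Finset κ} (h : Meas t π Gd)
    (c : (κ → Finset ι) → ℝ) (hc : ∀ r, c r ≠ 0 → ∀ k, k ∉ Gd → r k = ∅) (hc0 : ∀ r, 0 ≤ c r)
    (hm : ∀ r r', (∀ k, r' k ⊆ r k) → c r ≤ c r') {ε : ℝ}
    (hε : ∏ p, (1 + cK κ * t p ^ 2) ≤ 1 + ε) :
    |Ex π (fun ω => V t c ω ^ 2) - ∑ r, c r ^ 2 * wD t r| ≤ ε * ∑ r, c r ^ 2 * wD t r := by
  refine (gram h c hc).trans ?_
  have he : ∀ p, 0 ≤ eK κ * t p ^ 2 := fun p => mul_nonneg eK_nonneg (sq_nonneg _)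
  have hc' : ∀ p, 0 ≤ cK κ * t p ^ 2 := fun p => mul_nonneg cK_nonneg (sq_nonneg _)
  have key := reduce (fun s : ι → Finset κ => c (tr.symm s) ^ 2) (fun _ => ∅)
    (fun p A => t p ^ A.card + eK κ * t p ^ 2) (fun p A => (1 + cK κ * t p ^ 2) * t p ^ A.card)
    (fun _ => sq_nonneg _) ?_ (fun p A => add_nonneg (pow_nonneg (h.t0 p) _) (he p))
    (fun p A => mul_nonneg (by linarith [hc' p]) (pow_nonneg (h.t0 p) _)) ?_
  · have e3 : ∑ r, c r ^ 2 * ∏ p, (t p ^ (tr r p).card + eK κ * t p ^ 2) =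
        ∑ s, c (tr.symm s) ^ 2 * ∏ p, (t p ^ (s p).card + eK κ * t p ^ 2) := by
      exact Fintype.sum_equiv tr _ _ fun r => by simp only [Equiv.symm_apply_apply]
    have e4 : ∑ s : ι → Finset κ, c (tr.symm s) ^ 2 *
        ∏ p, ((1 + cK κ * t p ^ 2) * t p ^ (s p).card) =
        (∏ p, (1 + cK κ * t p ^ 2)) * ∑ r, c r ^ 2 * wD t r := by
      rw [mul_sum]
      refine (Fintype.sum_equiv tr _ _ fun r => ?_).symm
      simp only [Equiv.symm_apply_apply, wD_tr, prod_mul_distrib]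
      ring
    have hT : 0 ≤ ∑ r, c r ^ 2 * wD t r :=
      sum_nonneg fun r _ => mul_nonneg (sq_nonneg _) (wD_nonneg h.t0 r)
    rw [e3]
    rw [e4] at key
    nlinarith [mul_le_mul_of_nonneg_right hε hT]
  · intro s p
    refine pow_le_pow_left₀ (hc0 _) (hm _ _ fun k q hq => ?_) 2
    rw [mem_tr_symm] at hq ⊢
    by_cases hqp : q = p
    · subst hqp; simp at hq
    · rwa [update_of_ne hqp] at hq
  · intro p f hf0 hf
    simp_rw [mul_add, add_mul, one_mul, mul_add, sum_add_distrib]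
    refine add_le_add_right ((sum_const_le f _ _ (he p) hf).trans ?_) _
    refine le_trans (le_of_eq ?_) (single_le_sum (f := fun A => f A * (cK κ * t p ^ 2 * t p ^ A.card))
      (fun A _ => mul_nonneg (hf0 A) (mul_nonneg (hc' p) (pow_nonneg (h.t0 p) _))) (mem_univ ∅))
    simp only [cK, card_empty, pow_zero]; ring

/-- Upper bound for coefficients that are monotone off the coordinate `i`. -/
theorem master_free {t : ι → ℝ} {π : ι → Option κ → ℝ} (h : Meas t π univ) (i : κ)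
    (c cb : (κ → Finset ι) → ℝ) (hcb : ∀ r, |c r| ≤ cb r)
    (hm : ∀ r r', (∀ k, r' k ⊆ r k) → r' i = r i → cb r ≤ cb r') {ε : ℝ}
    (hε : ∏ p, (1 + cK κ * t p ^ 2) ≤ 1 + ε) :
    Ex π (fun ω => V t c ω ^ 2) ≤
      (1 + ε) * ∑ r, cb r ^ 2 * (wD t r * ∏ p ∈ r i, (1 + cK κ * t p)) := by
  have g := gram h c (fun r _ k hk => absurd (mem_univ k) hk)
  have g1 : Ex π (fun ω => V t c ω ^ 2) ≤
      ∑ r, c r ^ 2 * ∏ p, (t p ^ (tr r p).card + eK κ * t p ^ 2) := by
    have := le_abs_self (Ex π (fun ω => V t c ω ^ 2) - ∑ r, c r ^ 2 * wD t r)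
    linarith
  have he : ∀ p, 0 ≤ eK κ * t p ^ 2 := fun p => mul_nonneg eK_nonneg (sq_nonneg _)
  have hc' : ∀ p, 0 ≤ cK κ * t p ^ 2 := fun p => mul_nonneg cK_nonneg (sq_nonneg _)
  have hc1 : ∀ p, 0 ≤ cK κ * t p := fun p => mul_nonneg cK_nonneg (h.t0 p)
  have hcb0 : ∀ r, 0 ≤ cb r := fun r => (abs_nonneg _).trans (hcb r)
  have g2 : ∑ r, c r ^ 2 * ∏ p, (t p ^ (tr r p).card + eK κ * t p ^ 2) ≤
      ∑ s, cb (tr.symm s) ^ 2 * ∏ p, (t p ^ (s p).card + eK κ * t p ^ 2) := by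
    rw [← (tr (ι := ι) (κ := κ)).sum_comp (fun s => cb (tr.symm s) ^ 2 * _)]
    simp only [Equiv.symm_apply_apply]
    refine sum_le_sum fun r _ => mul_le_mul_of_nonneg_right ?_
      (prod_nonneg fun p _ => add_nonneg (pow_nonneg (h.t0 p) _) (he p))
    rw [← sq_abs (c r)]
    exact pow_le_pow_left₀ (abs_nonneg _) (hcb r) 2
  have hD2 : ∀ p (A : Finset κ), 0 ≤ (1 + cK κ * t p ^ 2) * t p ^ A.card *
      (if i ∈ A then 1 + cK κ * t p else 1) := fun p A =>
    mul_nonneg (mul_nonneg (by linarith [hc' p]) (pow_nonneg (h.t0 p) _))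
      (by split_ifs <;> linarith [hc1 p])
  have key := reduce (fun s : ι → Finset κ => cb (tr.symm s) ^ 2) (fun A => A ∩ {i})
    (fun p A => t p ^ A.card + eK κ * t p ^ 2)
    (fun p A => (1 + cK κ * t p ^ 2) * t p ^ A.card * (if i ∈ A then 1 + cK κ * t p else 1))
    (fun _ => sq_nonneg _) ?_ (fun p A => add_nonneg (pow_nonneg (h.t0 p) _) (he p)) hD2 ?_
  · refine g1.trans (g2.trans (key.trans ?_))
    rw [← (tr (ι := ι) (κ := κ)).sum_comp (fun s => cb (tr.symm s) ^ 2 * _), mul_sum]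
    refine sum_le_sum fun r _ => ?_
    simp only [Equiv.symm_apply_apply, prod_mul_distrib, ← wD_tr, mem_tr]
    rw [prod_ite_mem, univ_inter]
    have h0 : 0 ≤ cb r ^ 2 * (wD t r * ∏ p ∈ r i, (1 + cK κ * t p)) :=
      mul_nonneg (sq_nonneg _) (mul_nonneg (wD_nonneg h.t0 r)
        (prod_nonneg fun p _ => by linarith [hc1 p]))
    calc _ = (∏ p, (1 + cK κ * t p ^ 2)) *
          (cb r ^ 2 * (wD t r * ∏ p ∈ r i, (1 + cK κ * t p))) := by ring
      _ ≤ _ := mul_le_mul_of_nonneg_right hε h0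
  · intro s p
    refine pow_le_pow_left₀ (hcb0 _) (hm _ _ (fun k q hq => ?_) ?_) 2
    · rw [mem_tr_symm] at hq ⊢
      by_cases hqp : q = p
      · subst hqp
        rw [update_self] at hq
        exact (mem_inter.1 hq).1
      · rwa [update_of_ne hqp] at hq
    · ext q
      rw [mem_tr_symm, mem_tr_symm]
      by_cases hqp : q = p
      · subst hqp; simp
      · rw [update_of_ne hqp]
  · intro p f hf0 hf
    have hB : ∀ A, f A ≤ f ∅ + f {i} := by
      intro A
      refine (hf A).trans ?_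
      rcases subset_singleton_iff.1 (inter_subset_right (s₁ := A) (s₂ := {i})) with h1 | h1 <;>
        rw [h1] <;> linarith [hf0 ∅, hf0 {i}]
    simp_rw [mul_add, sum_add_distrib]
    refine (add_le_add_right (sum_const_le f _ _ (he p) hB) _).trans ?_
    have e : ∀ A : Finset κ, f A * t p ^ A.card +
        ((if A = ∅ then cK κ * t p ^ 2 * f ∅ else 0) + if A = {i} then cK κ * t p ^ 2 * f {i} else 0) ≤
        f A * ((1 + cK κ * t p ^ 2) * t p ^ A.card * (if i ∈ A then 1 + cK κ * t p else 1)) := by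
      intro A
      have a0 := hf0 A
      have a1 := pow_nonneg (h.t0 p) A.card
      have a2 := hc' p
      have a3 := hc1 p
      by_cases h1 : A = ∅
      · subst h1
        rw [if_pos rfl, if_neg (by simp), if_neg (by simp)]
        simp only [card_empty, pow_zero]; nlinarith
      by_cases h2 : A = {i}
      · subst h2
        rw [if_neg h1, if_pos rfl, if_pos (by simp)]
        simp only [card_singleton, pow_one] at a1 ⊢
        have a4 := mul_nonneg (mul_nonneg a0 a1) (mul_nonneg a2 (by linarith : 0 ≤ 1 + cK κ * t p))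
        nlinarith
      · rw [if_neg h1, if_neg h2]
        have a4 := mul_nonneg a0 a1
        split_ifs
        · nlinarith [mul_nonneg a4 a2, mul_nonneg a4 a3, mul_nonneg (mul_nonneg a4 a2) a3]
        · nlinarith [mul_nonneg a4 a2]
    refine le_trans (le_of_eq ?_) (sum_le_sum fun A _ => e A)
    simp only [sum_add_distrib, sum_ite_eq', mem_univ, if_true, cK]
    ring

end Pool.Agent.MP_39a890_nt.Core

end MrgPart1

-- ======== part 2: formerly Pool.Agent.MP_39a890_nt.Expand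
section MrgPart2

/-!
# Expansion of the sieve functions into indicator functions
-/

namespace Pool.Agent.MP_39a890_nt.Core

open Finset Function

set_option linter.unusedSectionVars false

theorem sum_split {α S : Type*} [Fintype α] [DecidableEq α] [Fintype S] [DecidableEq S]
    (G : (α → S) → ℝ) (i : α) (a0 : S) :
    ∑ r, G r = ∑ s : α → S, ∑ a, if s i = a0 then G (update s i a) else 0 := by
  let e : (α → S) × S ≃ (α → S) × S :=
    { toFun := fun x => (update x.1 i x.2, x.1 i)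
      invFun := fun x => (update x.1 i x.2, x.1 i)
      left_inv := fun x => by simp
      right_inv := fun x => by simp }
  rw [← Fintype.sum_prod_type', ← Equiv.sum_comp e]
  simp [e, Fintype.sum_prod_type]

variable {ι κ : Type*} [Fintype ι] [DecidableEq ι] [Fintype κ] [DecidableEq κ]

/-- indicator in one coordinate -/
def ind1 (e : Finset ι) (i : κ) (ω : ι → Option κ) : ℝ := ∏ p ∈ e, if ω p = some i then 1 else 0

/-- indicator of a cylinder -/
def ind (T : κ → Finset ι) (ω : ι → Option κ) : ℝ := ∏ k, ind1 (T k) k ω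

theorem ind1_eq (e : Finset ι) (i : κ) (ω : ι → Option κ) :
    ind1 e i ω = if ∀ p ∈ e, ω p = some i then 1 else 0 := by
  unfold ind1; rw [prod_ite_zero]; simp

theorem ind_eq (T : κ → Finset ι) (ω : ι → Option κ) :
    ind T ω = if ∀ k, ∀ p ∈ T k, ω p = some k then 1 else 0 := by
  unfold ind; simp_rw [ind1_eq]; rw [prod_ite_zero]; simp

theorem ind1_mul (e e' : Finset ι) (i : κ) (ω : ι → Option κ) :
    ind1 e i ω * ind1 e' i ω = ind1 (e ∪ e') i ω := by
  simp only [ind1_eq, forall_mem_union, ite_zero_mul_ite_zero, mul_one]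

theorem ind_mul (T T' : κ → Finset ι) (ω : ι → Option κ) :
    ind T ω * ind T' ω = ind (T ⊔ T') ω := by
  unfold ind
  rw [← prod_mul_distrib]
  exact prod_congr rfl fun k _ => ind1_mul _ _ _ _

theorem ind_update {T : κ → Finset ι} {i : κ} (h : T i = ∅) (e : Finset ι) (ω : ι → Option κ) :
    ind (update T i e) ω = ind T ω * ind1 e i ω := by
  unfold ind
  rw [← mul_prod_erase univ _ (mem_univ i), ← mul_prod_erase univ (fun k => ind1 (T k) k ω)
    (mem_univ i), update_self, h, prod_congr rfl fun k hk => by rw [update_of_ne (ne_of_mem_erase hk)]]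
  simp [ind1, mul_comm]

/-- pairwise disjoint coordinates -/
def Fn (T : κ → Finset ι) : Prop := ∀ k l, k ≠ l → Disjoint (T k) (T l)

theorem ind_of_not_Fn {T : κ → Finset ι} (h : ¬ Fn T) (ω : ι → Option κ) : ind T ω = 0 := by
  rw [ind_eq, if_neg]
  intro h'
  refine h fun k l hkl => disjoint_left.2 fun p hk hl => hkl ?_
  exact Option.some_inj.1 ((h' k p hk).symm.trans (h' l p hl))

theorem Ex_ind_of_not_Fn (π : ι → Option κ → ℝ) {T : κ → Finset ι} (h : ¬ Fn T) :
    Ex π (ind T) = 0 := by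
  unfold Ex; simp [ind_of_not_Fn h]

theorem Ex_ind {π : ι → Option κ → ℝ} (hs : ∀ p, ∑ o, π p o = 1) {T : κ → Finset ι} (h : Fn T) :
    Ex π (ind T) = ∏ k, ∏ p ∈ T k, π p (some k) := by
  have e : ind T = fun ω => ∏ p, ∏ k ∈ tr T p, if ω p = some k then (1 : ℝ) else 0 := by
    funext ω
    exact prod_tr T fun p k => if ω p = some k then (1 : ℝ) else 0
  rw [e, Ex_prod π fun p o => ∏ k ∈ tr T p, if o = some k then (1 : ℝ) else 0,
    prod_tr T fun p k => π p (some k)]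
  refine prod_congr rfl fun p _ => ?_
  rcases (tr T p).eq_empty_or_nonempty with h0 | ⟨k, hk⟩
  · simp [h0, hs p]
  · have : tr T p = {k} := by
      refine eq_singleton_iff_unique_mem.2 ⟨hk, fun l hl => ?_⟩
      by_contra hne
      exact disjoint_left.1 (h l k hne) (mem_tr.1 hl) (mem_tr.1 hk)
    simp [this]

/-- coefficient of the indicator of `e` in the product over `u` -/
def cf (t : ι → ℝ) (u e : Finset ι) : ℝ :=
  if e ⊆ u then (∏ p ∈ e, -(1 + t p)) * ∏ p ∈ u \ e, t p else 0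

theorem sum_ite_subset (u : Finset ι) (f : Finset ι → ℝ) :
    ∑ e, (if e ⊆ u then f e else 0) = ∑ e ∈ u.powerset, f e := by
  rw [← sum_filter]
  exact sum_congr (by ext e; simp) fun _ _ => rfl

theorem prod_hl_eq (t : ι → ℝ) (u : Finset ι) (k : κ) (ω : ι → Option κ) :
    ∏ p ∈ u, hl (t p) (ω p) k = ∑ e, cf t u e * ind1 e k ω := by
  have e1 : ∀ p, hl (t p) (ω p) k = -(1 + t p) * (if ω p = some k then 1 else 0) + t p := by
    intro p; unfold hl; split_ifs <;> ring
  simp_rw [e1, cf, ite_mul, zero_mul]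
  rw [sum_ite_subset, prod_add]
  refine sum_congr rfl fun e _ => ?_
  rw [prod_mul_distrib, ind1]; ring

theorem abs_cf (t : ι → ℝ) (h0 : ∀ p, 0 ≤ t p) (u e : Finset ι) :
    |cf t u e| = if e ⊆ u then (∏ p ∈ e, (1 + t p)) * ∏ p ∈ u \ e, t p else 0 := by
  unfold cf
  split_ifs
  · rw [abs_mul, abs_prod, abs_prod]
    congr 1
    · exact prod_congr rfl fun p _ => by rw [abs_neg, abs_of_nonneg (by linarith [h0 p])]
    · exact prod_congr rfl fun p _ => abs_of_nonneg (h0 p)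
  · simp

theorem sum_abs_cf (t : ι → ℝ) (h0 : ∀ p, 0 ≤ t p) (u : Finset ι) :
    ∑ e, |cf t u e| = ∏ p ∈ u, (1 + 2 * t p) := by
  simp_rw [abs_cf t h0]
  rw [sum_ite_subset, ← prod_add]
  exact prod_congr rfl fun p _ => by ring

theorem sum_abs_cf_le (t : ι → ℝ) (h0 : ∀ p, 0 ≤ t p) (h1 : ∀ p, t p ≤ 1) (U : Finset (Finset ι))
    (hU : ∀ u ∈ U, ∀ v ⊆ u, v ∈ U) (e : Finset ι) :
    ∑ u ∈ U, |cf t u e| ≤ 2 ^ e.card * ∑ u ∈ U, ∏ p ∈ u, t p := by
  simp_rw [abs_cf t h0]
  rw [← sum_filter, ← mul_sum]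
  refine mul_le_mul ?_ ?_ (sum_nonneg fun u _ => prod_nonneg fun p _ => h0 p) (by positivity)
  · rw [← prod_const]
    exact prod_le_prod (fun p _ => by linarith [h0 p]) fun p _ => by linarith [h1 p]
  · rw [← sum_image (s := U.filter fun u => e ⊆ u) (g := fun u => u \ e)
      (f := fun v => ∏ p ∈ v, t p)]
    · refine sum_le_sum_of_subset_of_nonneg (fun v hv => ?_) fun v _ _ =>
        prod_nonneg fun p _ => h0 p
      obtain ⟨u, hu, rfl⟩ := mem_image.1 hv
      exact hU u (mem_filter.1 hu).1 _ sdiff_subset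
    · intro u hu v hv huv
      have h2 := (mem_filter.1 hu).2
      have h3 := (mem_filter.1 hv).2
      rw [← sdiff_union_of_subset h2, ← sdiff_union_of_subset h3]
      exact congrArg (· ∪ e) huv

/-- coefficients of the indicator expansion -/
def lam (t : ι → ℝ) (c : (κ → Finset ι) → ℝ) (T : κ → Finset ι) : ℝ :=
  ∑ r, c r * ∏ k, cf t (r k) (T k)

theorem V_eq (t : ι → ℝ) (c : (κ → Finset ι) → ℝ) (ω : ι → Option κ) :
    V t c ω = ∑ T, lam t c T * ind T ω := by
  unfold V lam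
  simp_rw [sum_mul]
  rw [sum_comm]
  refine sum_congr rfl fun r _ => ?_
  simp_rw [prod_hl_eq, mul_assoc]
  rw [← mul_sum, ← sum_prod_eq fun k e => cf t (r k) e * ind1 e k ω]
  congr 1
  exact sum_congr rfl fun T _ => by rw [prod_mul_distrib, ind]

theorem lam_supp {t : ι → ℝ} {c : (κ → Finset ι) → ℝ} {T : κ → Finset ι} (h : lam t c T ≠ 0) :
    ∃ r, c r ≠ 0 ∧ ∀ k, T k ⊆ r k := by
  obtain ⟨r, _, hr⟩ := exists_ne_zero_of_sum_ne_zero h
  refine ⟨r, left_ne_zero_of_mul hr, fun k => ?_⟩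
  by_contra hk
  exact right_ne_zero_of_mul hr (prod_eq_zero (mem_univ k) (if_neg hk))

theorem sum_abs_lam (t : ι → ℝ) (h0 : ∀ p, 0 ≤ t p) (c : (κ → Finset ι) → ℝ) :
    ∑ T, |lam t c T| ≤ ∑ r, |c r| * ∏ k, ∏ p ∈ r k, (1 + 2 * t p) := by
  refine (sum_le_sum fun T _ => abs_sum_le_sum_abs _ _).trans (le_of_eq ?_)
  rw [sum_comm]
  refine sum_congr rfl fun r _ => ?_
  simp_rw [abs_mul, abs_prod, ← mul_sum, ← sum_abs_cf t h0]
  rw [sum_prod_eq fun k e => |cf t (r k) e|]

theorem sum_prod_univ (f : ι → ℝ) : ∑ u : Finset ι, ∏ p ∈ u, f p = ∏ p, (1 + f p) := by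
  rw [prod_one_add, powerset_univ]

theorem sum_abs_lam_le (t x : ι → ℝ) (h0 : ∀ p, 0 ≤ t p) (h1 : ∀ p, t p ≤ 1) (hx : ∀ p, 0 < x p)
    (c : (κ → Finset ι) → ℝ) {cm Y : ℝ} (hc : ∀ r, |c r| ≤ cm) (hY0 : 0 ≤ Y)
    (hY : ∀ r, c r ≠ 0 → ∏ k, ∏ p ∈ r k, x p ≤ Y) :
    ∑ T, |lam t c T| ≤ cm * Y * (∏ p, (1 + 3 / x p)) ^ Fintype.card κ := by
  refine (sum_abs_lam t h0 c).trans ?_
  have hcm : 0 ≤ cm := (abs_nonneg _).trans (hc fun _ => ∅)
  rw [← sum_prod_univ, ← card_univ, ← prod_const, ← sum_prod_eq fun (_ : κ) u => ∏ p ∈ u, 3 / x p,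
    mul_sum]
  refine sum_le_sum fun r _ => ?_
  have hP : 0 ≤ ∏ k, ∏ p ∈ r k, 3 / x p :=
    prod_nonneg fun _ _ => prod_nonneg fun p _ => by have := hx p; positivity
  by_cases hr : c r = 0
  · rw [hr, abs_zero, zero_mul]; positivity
  have h3 : ∏ k, ∏ p ∈ r k, (1 + 2 * t p) ≤ (∏ k, ∏ p ∈ r k, x p) * ∏ k, ∏ p ∈ r k, 3 / x p := by
    simp_rw [← prod_mul_distrib]
    refine prod_le_prod (fun k _ => prod_nonneg fun p _ => by linarith [h0 p]) fun k _ =>
      prod_le_prod (fun p _ => by linarith [h0 p]) fun p _ => ?_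
    rw [mul_div_cancel₀ _ (hx p).ne']; linarith [h1 p]
  calc _ ≤ cm * (Y * ∏ k, ∏ p ∈ r k, 3 / x p) :=
        mul_le_mul (hc r) (h3.trans (mul_le_mul_of_nonneg_right (hY r hr) hP))
          (prod_nonneg fun k _ => prod_nonneg fun p _ => by linarith [h0 p]) hcm
    _ = _ := by ring

theorem abs_lam_le (t : ι → ℝ) (h0 : ∀ p, 0 ≤ t p) (h1 : ∀ p, t p ≤ 1)
    (c : (κ → Finset ι) → ℝ) {cm : ℝ} (hc : ∀ r, |c r| ≤ cm) (U : Finset (Finset ι))
    (hU : ∀ u ∈ U, ∀ v ⊆ u, v ∈ U) (hcU : ∀ r, c r ≠ 0 → ∀ k, r k ∈ U) (T : κ → Finset ι) :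
    |lam t c T| ≤ cm * (∏ k, 2 ^ (T k).card) * (∑ u ∈ U, ∏ p ∈ u, t p) ^ Fintype.card κ := by
  have hcm : 0 ≤ cm := (abs_nonneg _).trans (hc fun _ => ∅)
  refine (abs_sum_le_sum_abs _ _).trans ?_
  have h2 : ∑ r, |c r * ∏ k, cf t (r k) (T k)| ≤
      ∑ r : κ → Finset ι, cm * ∏ k, if r k ∈ U then |cf t (r k) (T k)| else 0 := by
    refine sum_le_sum fun r _ => ?_
    by_cases hr : c r = 0
    · rw [hr, zero_mul, abs_zero]
      exact mul_nonneg hcm (prod_nonneg fun k _ => by split_ifs <;> simp)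
    · rw [abs_mul, abs_prod]
      simp only [hcU r hr, if_true]
      exact mul_le_mul_of_nonneg_right (hc r) (prod_nonneg fun k _ => abs_nonneg _)
  refine h2.trans ?_
  rw [← mul_sum, sum_prod_eq fun k u => if u ∈ U then |cf t u (T k)| else 0, mul_assoc,
    ← card_univ, ← prod_const, ← prod_mul_distrib]
  refine mul_le_mul_of_nonneg_left (prod_le_prod (fun k _ => sum_nonneg fun u _ => by
    split_ifs <;> simp) fun k _ => ?_) hcm
  rw [sum_ite_mem, univ_inter]
  exact sum_abs_cf_le t h0 h1 U hU _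

/-- sieve function in one coordinate -/
def sig (t : ι → ℝ) (η : Finset ι → ℝ) (i : κ) (ω : ι → Option κ) : ℝ :=
  ∑ u, η u * ∏ p ∈ u, hl (t p) (ω p) i

/-- its coefficients -/
def rho (t : ι → ℝ) (η : Finset ι → ℝ) (e : Finset ι) : ℝ := ∑ u, η u * cf t u e

theorem sig_eq (t : ι → ℝ) (η : Finset ι → ℝ) (i : κ) (ω : ι → Option κ) :
    sig t η i ω = ∑ e, rho t η e * ind1 e i ω := by
  unfold sig rho
  simp_rw [sum_mul, prod_hl_eq, mul_sum, mul_assoc]
  exact sum_comm

theorem prod_update_split (f : κ → Finset ι → ℝ) {s : κ → Finset ι} {i : κ} (hs : s i = ∅)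
    (h1 : f i ∅ = 1) (u : Finset ι) :
    ∏ k, f k (update s i u k) = (∏ k, f k (s k)) * f i u := by
  rw [← mul_prod_erase univ _ (mem_univ i), ← mul_prod_erase univ (fun k => f k (s k))
    (mem_univ i), update_self, hs, h1, prod_congr rfl fun k hk => by
      rw [update_of_ne (ne_of_mem_erase hk)]]
  ring

theorem V_mul_sig (t : ι → ℝ) (z : (κ → Finset ι) → ℝ) (η : Finset ι → ℝ) (i : κ)
    (hz : ∀ r, z r ≠ 0 → r i = ∅) (ω : ι → Option κ) :
    V t z ω * sig t η i ω = V t (fun r => z (update r i ∅) * η (r i)) ω := by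
  unfold V sig
  rw [sum_mul_sum, sum_split (fun r => z (update r i ∅) * η (r i) * _) i ∅]
  refine sum_congr rfl fun s _ => sum_congr rfl fun u _ => ?_
  split_ifs with hs
  · rw [prod_update_split (fun k u => ∏ p ∈ u, hl (t p) (ω p) k) hs (by simp), update_idem,
      update_self, ← hs, update_eq_self]
    ring
  · have : z s = 0 := by_contra fun h => hs (hz s h)
    simp [this]

/-- summing out the coordinate `i` -/
def zed (t : ι → ℝ) (y : (κ → Finset ι) → ℝ) (i : κ) (s : κ → Finset ι) : ℝ :=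
  if s i = ∅ then ∑ u, y (update s i u) * ∏ p ∈ u, t p else 0

theorem V_eq_zed (t : ι → ℝ) (y : (κ → Finset ι) → ℝ) (i : κ) (ω : ι → Option κ)
    (h : ∀ r, y r ≠ 0 → ∀ p ∈ r i, ω p ≠ some i) : V t y ω = V t (zed t y i) ω := by
  unfold V zed
  rw [sum_split _ i ∅]
  refine sum_congr rfl fun s _ => ?_
  by_cases hs : s i = ∅
  · simp only [hs, if_true]
    rw [sum_mul]
    refine sum_congr rfl fun u _ => ?_
    rw [prod_update_split (fun k u => ∏ p ∈ u, hl (t p) (ω p) k) hs (by simp)]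
    by_cases hy : y (update s i u) = 0
    · simp [hy]
    · have : ∏ p ∈ u, hl (t p) (ω p) i = ∏ p ∈ u, t p :=
        prod_congr rfl fun p hp => if_neg (h _ hy p (by simpa using hp))
      rw [this]; ring
  · simp [hs]

/-- fixing the state at the prime `q` -/
def res (t : ι → ℝ) (c : (κ → Finset ι) → ℝ) (q : ι) (o : Option κ) (s : κ → Finset ι) : ℝ :=
  if tr s q = ∅ then ∑ A, c (tr.symm (update (tr s) q A)) * ∏ k ∈ A, hl (t q) o k else 0

theorem V_eq_res (t : ι → ℝ) (c : (κ → Finset ι) → ℝ) (q : ι) (ω : ι → Option κ) :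
    V t c ω = V t (res t c q (ω q)) ω := by
  unfold V
  simp_rw [prod_tr _ fun p k => hl (t p) (ω p) k]
  rw [Fintype.sum_equiv tr _ (fun s => c (tr.symm s) * ∏ p, ∏ k ∈ s p, hl (t p) (ω p) k)
    (fun r => by simp), sum_split _ q ∅]
  refine (Fintype.sum_equiv tr _ _ fun s => ?_).symm
  unfold res
  by_cases hs : tr s q = ∅
  · simp only [hs, if_true]
    rw [sum_mul]
    refine sum_congr rfl fun A _ => ?_
    rw [prod_update_split (fun p A => ∏ k ∈ A, hl (t p) (ω p) k) hs (by simp)]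
    ring
  · simp [hs]

theorem sig_eq_res (t : ι → ℝ) (η : Finset ι → ℝ) (i : κ) (q : ι) (ω : ι → Option κ)
    (h : ω q = some i) :
    sig t η i ω = sig t (fun u => if q ∈ u then 0 else η u - η (insert q u)) i ω := by
  unfold sig
  have e : ∀ F : Finset ι → ℝ, ∑ u, F u =
      ∑ u ∈ (univ.erase q).powerset, F u + ∑ u ∈ (univ.erase q).powerset, F (insert q u) := by
    intro F
    rw [← sum_powerset_insert (notMem_erase q univ), insert_erase (mem_univ q), powerset_univ]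
  rw [e, e (fun u => (if q ∈ u then 0 else η u - η (insert q u)) * _), ← sum_add_distrib,
    ← sum_add_distrib]
  refine sum_congr rfl fun u hu => ?_
  have hq : q ∉ u := fun h' => notMem_erase q univ (mem_powerset.1 hu h')
  rw [prod_insert hq, if_neg hq, if_pos (mem_insert_self q u), hl, if_pos h]
  ring

/-- weighted sum over integers -/
def Sm (N : Finset ℕ) (μ : ℕ → ℝ) (ω : ℕ → ι → Option κ) (F : (ι → Option κ) → ℝ) : ℝ :=
  ∑ n ∈ N, μ n * F (ω n)

/-- remainder -/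
def Rm (N : Finset ℕ) (μ : ℕ → ℝ) (ω : ℕ → ι → Option κ) (m : ℝ) (π : ι → Option κ → ℝ)
    (T : κ → Finset ι) : ℝ := Sm N μ ω (ind T) - m * Ex π (ind T)

theorem Rm_of_not_Fn (N : Finset ℕ) (μ : ℕ → ℝ) (ω : ℕ → ι → Option κ) (m : ℝ)
    (π : ι → Option κ → ℝ) {T : κ → Finset ι} (h : ¬ Fn T) : Rm N μ ω m π T = 0 := by
  simp [Rm, Sm, Ex_ind_of_not_Fn π h, ind_of_not_Fn h]

theorem disc {α : Type*} (N : Finset ℕ) (μ : ℕ → ℝ) (ω : ℕ → ι → Option κ) (m : ℝ)
    (π : ι → Option κ → ℝ) (s : Finset α) (c : α → ℝ) (T : α → κ → Finset ι)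
    (F : (ι → Option κ) → ℝ) (hF : ∀ w, F w = ∑ a ∈ s, c a * ind (T a) w) :
    Sm N μ ω F - m * Ex π F = ∑ a ∈ s, c a * Rm N μ ω m π (T a) := by
  have : F = fun w => ∑ a ∈ s, c a * ind (T a) w := funext hF
  rw [this, Ex_sum]
  unfold Rm Sm
  simp_rw [mul_sub, sum_sub_distrib, mul_sum]
  rw [sum_comm]
  congr 1
  · exact sum_congr rfl fun a _ => sum_congr rfl fun n _ => by ring
  · exact sum_congr rfl fun a _ => by ring

theorem V_sq_eq (t : ι → ℝ) (c : (κ → Finset ι) → ℝ) (w : ι → Option κ) :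
    V t c w ^ 2 = ∑ x : (κ → Finset ι) × (κ → Finset ι),
      (lam t c x.1 * lam t c x.2) * ind (x.1 ⊔ x.2) w := by
  rw [V_eq, sq, sum_mul_sum, Fintype.sum_prod_type]
  exact sum_congr rfl fun T _ => sum_congr rfl fun T' _ => by rw [← ind_mul]; ring

theorem abs_sum_pair_le {α : Type*} [Fintype α] (l : α → ℝ) (R : α × α → ℝ) {C : ℝ}
    (h : ∀ x : α × α, l x.1 ≠ 0 → l x.2 ≠ 0 → |R x| ≤ C) :
    |∑ x : α × α, (l x.1 * l x.2) * R x| ≤ C * (∑ a, |l a|) ^ 2 := by
  refine (abs_sum_le_sum_abs _ _).trans ?_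
  rw [sq, sum_mul_sum, ← Fintype.sum_prod_type', mul_sum]
  refine sum_le_sum fun x _ => ?_
  by_cases h1 : l x.1 = 0
  · simp [h1]
  by_cases h2 : l x.2 = 0
  · simp [h2]
  rw [abs_mul, abs_mul, mul_comm]
  exact mul_le_mul_of_nonneg_right (h x h1 h2) (by positivity)

theorem disc_sq (N : Finset ℕ) (μ : ℕ → ℝ) (ω : ℕ → ι → Option κ) (m : ℝ)
    (π : ι → Option κ → ℝ) (t : ι → ℝ) (c : (κ → Finset ι) → ℝ) {C : ℝ}
    (h : ∀ T, |Rm N μ ω m π T| ≤ C) :
    |Sm N μ ω (fun w => V t c w ^ 2) - m * Ex π (fun w => V t c w ^ 2)| ≤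
      C * (∑ T, |lam t c T|) ^ 2 := by
  rw [disc N μ ω m π univ _ _ _ (V_sq_eq t c)]
  exact abs_sum_pair_le _ (fun x => Rm N μ ω m π (x.1 ⊔ x.2)) fun x _ _ => h _

theorem disc_sq_res (N : Finset ℕ) (μ : ℕ → ℝ) (ω : ℕ → ι → Option κ) (m : ℝ)
    {π : ι → Option κ → ℝ} (hs : ∀ p, ∑ o, π p o = 1) (t : ι → ℝ) (c : (κ → Finset ι) → ℝ)
    (q : ι) (i : κ) (hc : ∀ r, c r ≠ 0 → ∀ k, q ∉ r k) {C : ℝ} (h : ∀ T, |Rm N μ ω m π T| ≤ C) :
    Sm N μ ω (fun w => V t c w ^ 2 * ind1 {q} i w) ≤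
      m * (π q (some i) * Ex π (fun w => V t c w ^ 2)) + C * (∑ T, |lam t c T|) ^ 2 := by
  set T0 : κ → Finset ι := update (fun _ => ∅) i {q} with hT0
  have hi : ∀ w, ind1 {q} i w = ind T0 w := fun w => by
    rw [hT0, ind_update (T := fun _ => ∅) rfl]; simp [ind, ind1]
  have hF : ∀ w, V t c w ^ 2 * ind1 {q} i w = ∑ x : (κ → Finset ι) × (κ → Finset ι),
      (lam t c x.1 * lam t c x.2) * ind (x.1 ⊔ x.2 ⊔ T0) w := by
    intro w
    rw [V_sq_eq, sum_mul, hi]
    exact sum_congr rfl fun x _ => by rw [← ind_mul (x.1 ⊔ x.2)]; ring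
  have h1 := disc N μ ω m π univ _ _ _ hF
  have h2 := abs_sum_pair_le (lam t c) (fun x => Rm N μ ω m π (x.1 ⊔ x.2 ⊔ T0)) fun x _ _ => h _
  have h3 : Ex π (fun w => V t c w ^ 2 * ind1 {q} i w) =
      π q (some i) * Ex π (fun w => V t c w ^ 2) := by
    simp_rw [hF, V_sq_eq]
    rw [Ex_sum, Ex_sum, mul_sum]
    refine sum_congr rfl fun x _ => ?_
    by_cases h1 : lam t c x.1 = 0
    · simp [h1]
    by_cases h2 : lam t c x.2 = 0
    · simp [h2]
    have hq : ∀ k, q ∉ (x.1 ⊔ x.2) k := by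
      intro k hk
      obtain ⟨r1, a1, b1⟩ := lam_supp h1
      obtain ⟨r2, a2, b2⟩ := lam_supp h2
      rcases mem_union.1 hk with hk | hk
      exacts [hc r1 a1 k (b1 k hk), hc r2 a2 k (b2 k hk)]
    have hmem : ∀ k p, p ∈ T0 k ↔ k = i ∧ p = q := by
      intro k p
      by_cases hk : k = i
      · subst hk; simp [hT0]
      · simp [hT0, hk]
    have key : Ex π (ind (x.1 ⊔ x.2 ⊔ T0)) = π q (some i) * Ex π (ind (x.1 ⊔ x.2)) := by
      generalize x.1 ⊔ x.2 = T at hq
      by_cases hT : Fn T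
      · have hT' : Fn (T ⊔ T0) := by
          intro k l hkl
          refine disjoint_left.2 fun p hk hl => ?_
          rcases mem_union.1 hk with hk | hk <;> rcases mem_union.1 hl with hl | hl
          · exact disjoint_left.1 (hT k l hkl) hk hl
          · exact hq k (((hmem _ _).1 hl).2 ▸ hk)
          · exact hq l (((hmem _ _).1 hk).2 ▸ hl)
          · exact hkl (((hmem _ _).1 hk).1.trans ((hmem _ _).1 hl).1.symm)
        rw [Ex_ind hs hT, Ex_ind hs hT']
        have e : ∀ k, ∏ p ∈ (T ⊔ T0) k, π p (some k) =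
            (∏ p ∈ T k, π p (some k)) * ∏ p ∈ T0 k, π p (some k) := fun k =>
          prod_union (disjoint_left.2 fun p hp hp' => hq k (((hmem _ _).1 hp').2 ▸ hp))
        simp_rw [e]
        rw [prod_mul_distrib, mul_comm, hT0,
          prod_update_split (fun k u => ∏ p ∈ u, π p (some k)) rfl (by simp)]
        simp
      · rw [Ex_ind_of_not_Fn π hT, Ex_ind_of_not_Fn π, mul_zero]
        exact fun h' => hT fun k l hkl =>
          (h' k l hkl).mono subset_union_left subset_union_left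
    rw [key]; ring
  rw [h3] at h1
  have := le_abs_self (∑ x : (κ → Finset ι) × (κ → Finset ι),
    (lam t c x.1 * lam t c x.2) * Rm N μ ω m π (x.1 ⊔ x.2 ⊔ T0))
  linarith

end Pool.Agent.MP_39a890_nt.Core

end MrgPart2

-- ======== part 3: formerly Pool.Agent.MP_39a890_nt.Weights
section MrgPart3

/-!
# The multidimensional weights and their diagonal sums
-/

namespace Pool.Agent.MP_39a890_nt.Core

open Finset Function

set_option linter.unusedSectionVars false

variable {ι κ : Type*} [Fintype ι] [DecidableEq ι] [Fintype κ] [DecidableEq κ]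

/-- decreasing in the tuple -/
def Anti (c : (κ → Finset ι) → ℝ) : Prop := ∀ r r', (∀ k, r' k ⊆ r k) → c r ≤ c r'

/-- product weights -/
def PM (G : κ → Finset ι → ℝ) (r : κ → Finset ι) : ℝ := ∏ k, G k (r k)

/-- point mass at the empty set -/
def dl (B : ℝ) (u : Finset ι) : ℝ := if u = ∅ then B else 0

theorem update_subset {r r' : κ → Finset ι} (h : ∀ k, r' k ⊆ r k) (i : κ) (u : Finset ι) (k : κ) :
    update r' i u k ⊆ update r i u k := by
  by_cases hk : k = i
  · subst hk; simp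
  · simp [hk, h k]

theorem zed_nonneg {t : ι → ℝ} (h0 : ∀ p, 0 ≤ t p) {y : (κ → Finset ι) → ℝ} (hy : ∀ r, 0 ≤ y r)
    (i : κ) (s : κ → Finset ι) : 0 ≤ zed t y i s := by
  unfold zed; split_ifs
  · exact sum_nonneg fun u _ => mul_nonneg (hy _) (prod_nonneg fun p _ => h0 p)
  · exact le_rfl

theorem zed_mono {t : ι → ℝ} (h0 : ∀ p, 0 ≤ t p) {y y' : (κ → Finset ι) → ℝ}
    (hy : ∀ r, y r ≤ y' r) (i : κ) (s : κ → Finset ι) : zed t y i s ≤ zed t y' i s := by
  unfold zed; split_ifs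
  · exact sum_le_sum fun u _ => mul_le_mul_of_nonneg_right (hy _) (prod_nonneg fun p _ => h0 p)
  · exact le_rfl

theorem zed_supp {t : ι → ℝ} {y : (κ → Finset ι) → ℝ} {i : κ} {s : κ → Finset ι}
    (h : zed t y i s ≠ 0) : s i = ∅ ∧ ∃ u, y (update s i u) ≠ 0 := by
  unfold zed at h
  split_ifs at h with hs
  · obtain ⟨u, _, hu⟩ := exists_ne_zero_of_sum_ne_zero h
    exact ⟨hs, u, left_ne_zero_of_mul hu⟩
  · exact absurd rfl h

theorem zed_anti {t : ι → ℝ} (h0 : ∀ p, 0 ≤ t p) {y : (κ → Finset ι) → ℝ} (hy : ∀ r, 0 ≤ y r)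
    (ha : Anti y) (i : κ) : Anti (zed t y i) := by
  intro s s' h
  by_cases hs : s i = ∅
  · have hs' : s' i = ∅ := subset_empty.1 (hs ▸ h i)
    unfold zed
    rw [if_pos hs, if_pos hs']
    exact sum_le_sum fun u _ => mul_le_mul_of_nonneg_right (ha _ _ (update_subset h i u))
      (prod_nonneg fun p _ => h0 p)
  · refine le_trans (le_of_eq ?_) (zed_nonneg h0 hy i s')
    exact if_neg hs

theorem prod_update_eq (f : κ → Finset ι → ℝ) (s : κ → Finset ι) (i : κ) (u : Finset ι) :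
    ∏ k, f k (update s i u k) = f i u * ∏ k ∈ univ.erase i, f k (s k) := by
  rw [← mul_prod_erase univ _ (mem_univ i), update_self]
  congr 1
  exact prod_congr rfl fun k hk => by rw [update_of_ne (ne_of_mem_erase hk)]

theorem PM_update (G : κ → Finset ι → ℝ) (i : κ) (f : Finset ι → ℝ) (s : κ → Finset ι) :
    PM (update G i f) s = f (s i) * ∏ k ∈ univ.erase i, G k (s k) := by
  rw [PM, ← mul_prod_erase univ _ (mem_univ i), update_self]
  congr 1
  exact prod_congr rfl fun k hk => by rw [update_of_ne (ne_of_mem_erase hk)]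

theorem zed_PM (t : ι → ℝ) (G : κ → Finset ι → ℝ) (i : κ) :
    zed t (PM G) i = PM (update G i (dl (∑ u, G i u * ∏ p ∈ u, t p))) := by
  funext s
  rw [PM_update, zed, dl]
  split_ifs
  · rw [sum_mul]
    exact sum_congr rfl fun u _ => by rw [PM, prod_update_eq]; ring
  · simp

theorem PM_nonneg {G : κ → Finset ι → ℝ} (h : ∀ k u, 0 ≤ G k u) (r : κ → Finset ι) :
    0 ≤ PM G r := prod_nonneg fun k _ => h k _

theorem PM_anti {G : κ → Finset ι → ℝ} (h : ∀ k u, 0 ≤ G k u)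
    (ha : ∀ k u v, v ⊆ u → G k u ≤ G k v) : Anti (PM G) := fun _ _ hr =>
  prod_le_prod (fun k _ => h k _) fun k _ => ha k _ _ (hr k)

theorem sum_PM_sq (t : ι → ℝ) (G h : κ → Finset ι → ℝ) :
    ∑ r, PM G r ^ 2 * wD t r * PM h r = ∏ k, ∑ u, G k u ^ 2 * (∏ p ∈ u, t p) * h k u := by
  rw [← sum_prod_eq fun k u => G k u ^ 2 * (∏ p ∈ u, t p) * h k u]
  refine sum_congr rfl fun r _ => ?_
  rw [PM, wD, PM, ← prod_pow, ← prod_mul_distrib, ← prod_mul_distrib]

theorem sum_dl_sq (t : ι → ℝ) (B : ℝ) (h : Finset ι → ℝ) :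
    ∑ u, dl B u ^ 2 * (∏ p ∈ u, t p) * h u = B ^ 2 * h ∅ := by
  rw [sum_eq_single ∅ (fun u _ hu => by simp [dl, hu]) (by simp)]
  simp [dl]

theorem dl_nonneg {B : ℝ} (hB : 0 ≤ B) (u : Finset ι) : 0 ≤ dl B u := by
  unfold dl; split_ifs <;> simp [hB]

theorem dl_anti {B : ℝ} (hB : 0 ≤ B) {u v : Finset ι} (h : v ⊆ u) : dl B u ≤ dl B v := by
  by_cases hu : u = ∅
  · rw [hu] at h ⊢; rw [subset_empty.1 h]
  · exact le_trans (le_of_eq (if_neg hu)) (dl_nonneg hB v)

theorem sum_split_sq (t : ι → ℝ) (z : (κ → Finset ι) → ℝ) (η h : Finset ι → ℝ) (i : κ)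
    (hz : ∀ r, z r ≠ 0 → r i = ∅) :
    ∑ r, (z (update r i ∅) * η (r i)) ^ 2 * (wD t r * h (r i)) =
      (∑ s, z s ^ 2 * wD t s) * ∑ u, η u ^ 2 * (∏ p ∈ u, t p) * h u := by
  rw [sum_mul_sum, sum_split (fun r => (z (update r i ∅) * η (r i)) ^ 2 * _) i ∅]
  refine sum_congr rfl fun s _ => sum_congr rfl fun u _ => ?_
  split_ifs with hs
  · rw [wD, prod_update_split (fun _ u => ∏ p ∈ u, t p) hs (by simp), update_idem,
      update_self, ← hs, update_eq_self, wD]
    ring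
  · have : z s = 0 := by_contra fun h => hs (hz s h)
    simp [this]

theorem anti_mul {z : (κ → Finset ι) → ℝ} {η : Finset ι → ℝ} (hz0 : ∀ r, 0 ≤ z r) (hz : Anti z)
    (h0 : ∀ u, 0 ≤ η u) (ha : ∀ u v, v ⊆ u → η u ≤ η v) (i : κ) :
    Anti fun r => z (update r i ∅) * η (r i) := fun _ _ hr =>
  mul_le_mul (hz _ _ (update_subset hr i ∅)) (ha _ _ (hr i)) (h0 _) (hz0 _)

/-- the data of the one-dimensional weight -/
structure GOk (t : ι → ℝ) (lv g : Finset ι → ℝ) (lR : ℝ) : Prop where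
  t0 : ∀ p, 0 ≤ t p
  lv0 : ∀ u, 0 ≤ lv u
  lve : lv ∅ = 0
  lvm : ∀ u v, v ⊆ u → lv v ≤ lv u
  g0 : ∀ u, 0 ≤ g u
  g1 : ∀ u, g u ≤ 1
  ga : ∀ u v, v ⊆ u → g u ≤ g v
  gs : ∀ u, g u ≠ 0 → lv u ≤ lR / 2

/-- the truncated product weight -/
noncomputable def yy (lv g : Finset ι → ℝ) (lR : ℝ) (r : κ → Finset ι) : ℝ :=
  if ∑ k, lv (r k) ≤ lR then PM (fun _ => g) r else 0

variable {t : ι → ℝ} {lv g : Finset ι → ℝ} {lR : ℝ}

theorem GOk.yy_nonneg (h : GOk t lv g lR) (r : κ → Finset ι) : 0 ≤ yy lv g lR r := by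
  unfold yy; split_ifs
  · exact PM_nonneg (fun _ => h.g0) r
  · exact le_rfl

theorem GOk.yy_le (h : GOk t lv g lR) (r : κ → Finset ι) : yy lv g lR r ≤ PM (fun _ => g) r := by
  unfold yy; split_ifs
  · exact le_rfl
  · exact PM_nonneg (fun _ => h.g0) r

theorem GOk.yy_le_one (h : GOk t lv g lR) (r : κ → Finset ι) : yy lv g lR r ≤ 1 :=
  (h.yy_le r).trans (prod_le_one (fun _ _ => h.g0 _) fun _ _ => h.g1 _)

theorem GOk.yy_anti (h : GOk t lv g lR) : Anti (yy (κ := κ) lv g lR) := by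
  intro r r' hr
  by_cases h1 : ∑ k, lv (r k) ≤ lR
  · unfold yy
    rw [if_pos h1, if_pos ((sum_le_sum fun k _ => h.lvm _ _ (hr k)).trans h1)]
    exact PM_anti (fun _ => h.g0) (fun _ => h.ga) _ _ hr
  · exact le_trans (le_of_eq (if_neg h1)) (h.yy_nonneg r')

theorem yy_supp {r : κ → Finset ι} (h : yy lv g lR r ≠ 0) :
    ∑ k, lv (r k) ≤ lR ∧ ∀ k, g (r k) ≠ 0 := by
  unfold yy at h
  split_ifs at h with h1
  · exact ⟨h1, fun k => prod_ne_zero_iff.1 h k (mem_univ k)⟩
  · exact absurd rfl h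

/-- first moment of the one-dimensional weight -/
def be (t : ι → ℝ) (g : Finset ι → ℝ) : ℝ := ∑ u, g u * ∏ p ∈ u, t p

/-- second moment of the one-dimensional weight -/
def ga (t : ι → ℝ) (g : Finset ι → ℝ) : ℝ := ∑ u, g u ^ 2 * ∏ p ∈ u, t p

/-- logarithmic moment -/
def ga₁ (t : ι → ℝ) (lv g : Finset ι → ℝ) : ℝ := ∑ u, g u ^ 2 * lv u * ∏ p ∈ u, t p

theorem GOk.be_nonneg (h : GOk t lv g lR) : 0 ≤ be t g :=
  sum_nonneg fun u _ => mul_nonneg (h.g0 u) (prod_nonneg fun p _ => h.t0 p)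

theorem GOk.ga_nonneg (h : GOk t lv g lR) : 0 ≤ Core.ga t g :=
  sum_nonneg fun _ _ => mul_nonneg (sq_nonneg _) (prod_nonneg fun p _ => h.t0 p)

theorem GOk.ga₁_nonneg (h : GOk t lv g lR) : 0 ≤ ga₁ t lv g :=
  sum_nonneg fun u _ => mul_nonneg (mul_nonneg (sq_nonneg _) (h.lv0 u))
    (prod_nonneg fun p _ => h.t0 p)

theorem sum_PM_sq' (t : ι → ℝ) (G : κ → Finset ι → ℝ) :
    ∑ r, PM G r ^ 2 * wD t r = ∏ k, ∑ u, G k u ^ 2 * ∏ p ∈ u, t p := by
  simpa [PM] using sum_PM_sq t G fun _ _ => 1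

theorem sum_sq_le (h0 : ∀ p, 0 ≤ t p) {c c' : (κ → Finset ι) → ℝ} (hc : ∀ r, 0 ≤ c r)
    (hcc : ∀ r, c r ≤ c' r) : ∑ r, c r ^ 2 * wD t r ≤ ∑ r, c' r ^ 2 * wD t r :=
  sum_le_sum fun r _ => mul_le_mul_of_nonneg_right (pow_le_pow_left₀ (hc r) (hcc r) 2)
    (wD_nonneg h0 r)

theorem GOk.sum_yy (h : GOk t lv g lR) :
    ∑ r : κ → Finset ι, yy lv g lR r ^ 2 * wD t r ≤ Core.ga t g ^ Fintype.card κ := by
  refine (sum_sq_le h.t0 h.yy_nonneg h.yy_le).trans (le_of_eq ?_)
  rw [sum_PM_sq', prod_const, card_univ, Core.ga]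

/-- majorant after summing out one coordinate -/
def G1 (t : ι → ℝ) (g : Finset ι → ℝ) (i : κ) : κ → Finset ι → ℝ :=
  update (fun _ => g) i (dl (be t g))

/-- majorant after summing out two coordinates -/
def G2 (t : ι → ℝ) (g : Finset ι → ℝ) (i j : κ) : κ → Finset ι → ℝ :=
  update (G1 t g i) j (dl (be t g))

theorem GOk.G1_nonneg (h : GOk t lv g lR) (i k : κ) (u : Finset ι) : 0 ≤ G1 t g i k u := by
  by_cases hk : k = i
  · subst hk; simp [G1, dl_nonneg h.be_nonneg]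
  · simp [G1, hk, h.g0]

theorem GOk.G1_anti (h : GOk t lv g lR) (i k : κ) (u v : Finset ι) (huv : v ⊆ u) :
    G1 t g i k u ≤ G1 t g i k v := by
  by_cases hk : k = i
  · subst hk; simp [G1, dl_anti h.be_nonneg huv]
  · simp [G1, hk, h.ga u v huv]

theorem GOk.zed_le (h : GOk t lv g lR) (i : κ) (s : κ → Finset ι) :
    zed t (yy lv g lR) i s ≤ PM (G1 t g i) s := by
  refine (zed_mono h.t0 h.yy_le i s).trans (le_of_eq ?_)
  rw [zed_PM]; rfl

theorem GOk.PM_G1_le (h : GOk t lv g lR) (i : κ) (s : κ → Finset ι) :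
    PM (G1 t g i) s ≤ be t g := by
  rw [G1, PM_update]
  refine (mul_le_of_le_one_right (dl_nonneg h.be_nonneg _)
    (prod_le_one (fun _ _ => h.g0 _) fun _ _ => h.g1 _)).trans ?_
  simpa [dl] using dl_anti h.be_nonneg (empty_subset (s i))

theorem PM_G1_supp {i : κ} {s : κ → Finset ι} (h : PM (G1 t g i) s ≠ 0) : s i = ∅ := by
  rw [G1, PM_update] at h
  by_contra hs
  exact left_ne_zero_of_mul h (if_neg hs)

theorem GOk.zed2_le (h : GOk t lv g lR) {i j : κ} (hij : i ≠ j) (s : κ → Finset ι) :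
    zed t (zed t (yy lv g lR) i) j s ≤ PM (G2 t g i j) s := by
  refine (zed_mono h.t0 (h.zed_le i) j s).trans (le_of_eq ?_)
  rw [zed_PM, G2]
  simp only [G1, update_of_ne hij.symm, be]

theorem GOk.zed2_le' (h : GOk t lv g lR) {i j : κ} (hij : i ≠ j) (s : κ → Finset ι) :
    zed t (zed t (yy lv g lR) i) j s ≤ be t g ^ 2 := by
  refine (h.zed2_le hij s).trans ?_
  rw [G2, PM_update, ← mul_prod_erase _ _ (mem_erase.2 ⟨hij, mem_univ i⟩), sq]
  have hd : ∀ u : Finset ι, dl (be t g) u ≤ be t g := fun u => by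
    simpa [dl] using dl_anti h.be_nonneg (empty_subset u)
  refine mul_le_mul (hd _) ?_ (mul_nonneg (h.G1_nonneg _ _ _)
    (prod_nonneg fun _ _ => h.G1_nonneg _ _ _)) h.be_nonneg
  refine (mul_le_of_le_one_right (h.G1_nonneg _ _ _)
    (prod_le_one (fun _ _ => h.G1_nonneg _ _ _) fun k hk => ?_)).trans ?_
  · simp [G1, ne_of_mem_erase hk, h.g1]
  · simp [G1, hd]

theorem prod_G1 (t : ι → ℝ) (g : Finset ι → ℝ) (i : κ) (h : κ → Finset ι → ℝ) :
    ∏ k, ∑ u, G1 t g i k u ^ 2 * (∏ p ∈ u, t p) * h k u =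
      be t g ^ 2 * h i ∅ * ∏ k ∈ univ.erase i, ∑ u, g u ^ 2 * (∏ p ∈ u, t p) * h k u := by
  rw [← mul_prod_erase univ _ (mem_univ i)]
  congr 1
  · simp only [G1, update_self, sum_dl_sq]
  · exact prod_congr rfl fun k hk => by simp only [G1, update_of_ne (ne_of_mem_erase hk)]

theorem mul_prod_erase_const {s : Finset κ} {i : κ} (hi : i ∈ s) (x : ℝ) :
    x * ∏ _k ∈ s.erase i, x = ∏ _k ∈ s, x := mul_prod_erase s (fun _ => x) hi

theorem sum_G1 (t : ι → ℝ) (g : Finset ι → ℝ) (i : κ) :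
    ga t g * ∑ s, PM (G1 t g i) s ^ 2 * wD t s = be t g ^ 2 * ga t g ^ Fintype.card κ := by
  have h1 := sum_PM_sq t (G1 t g i) fun _ _ => 1
  rw [prod_G1] at h1
  simp only [PM, prod_const_one, mul_one] at h1
  simp only [PM]
  rw [h1, ← card_univ, ← prod_const, ← mul_prod_erase_const (mem_univ i)]
  unfold ga; ring

theorem GOk.sum_zed_le (h : GOk t lv g lR) (i : κ) :
    Core.ga t g * ∑ s, zed t (yy lv g lR) i s ^ 2 * wD t s ≤
      be t g ^ 2 * Core.ga t g ^ Fintype.card κ := by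
  rw [← sum_G1 t g i]
  exact mul_le_mul_of_nonneg_left
    (sum_sq_le h.t0 (zed_nonneg h.t0 h.yy_nonneg i) (h.zed_le i)) h.ga_nonneg

theorem GOk.sum_zed2_le (h : GOk t lv g lR) {i j : κ} (hij : i ≠ j) :
    Core.ga t g ^ 2 * ∑ s, zed t (zed t (yy lv g lR) i) j s ^ 2 * wD t s ≤
      be t g ^ 4 * Core.ga t g ^ Fintype.card κ := by
  refine (mul_le_mul_of_nonneg_left (sum_sq_le h.t0
    (zed_nonneg h.t0 (zed_nonneg h.t0 h.yy_nonneg i) j) (h.zed2_le hij)) (sq_nonneg _)).trans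
    (le_of_eq ?_)
  have hi : i ∈ univ.erase j := mem_erase.2 ⟨hij, mem_univ i⟩
  rw [sum_PM_sq', ← mul_prod_erase univ _ (mem_univ j), ← mul_prod_erase _ _ hi, ← card_univ,
    ← prod_const, ← mul_prod_erase_const (mem_univ j), ← mul_prod_erase_const hi]
  have e1 : ∑ u : Finset ι, dl (be t g) u ^ 2 * ∏ p ∈ u, t p = be t g ^ 2 := by
    simpa using sum_dl_sq t (be t g) fun _ => 1
  have e2 : ∏ k ∈ (univ.erase j).erase i, ∑ u, G2 t g i j k u ^ 2 * ∏ p ∈ u, t p =
      ∏ _k ∈ (univ.erase j).erase i, Core.ga t g := by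
    refine prod_congr rfl fun k hk => ?_
    simp only [G2, G1, update_of_ne (ne_of_mem_erase hk),
      update_of_ne (ne_of_mem_erase (mem_of_mem_erase hk)), Core.ga]
  rw [e2]
  simp only [G2, G1, update_self, update_of_ne hij, e1]
  ring

theorem GOk.sum_zed_ge (h : GOk t lv g lR) (hR : 0 < lR) (i : κ) {ε : ℝ}
    (hε : 2 * Fintype.card κ * ga₁ t lv g ≤ ε * Core.ga t g * lR) :
    (1 - ε) * (be t g ^ 2 * Core.ga t g ^ Fintype.card κ) ≤
      Core.ga t g * ∑ s, zed t (yy lv g lR) i s ^ 2 * wD t s := by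
  have hz : ∀ s, PM (G1 t g i) s ^ 2 * (1 - 2 / lR * ∑ k, lv (s k)) ≤
      zed t (yy lv g lR) i s ^ 2 := by
    intro s
    by_cases hs : ∑ k, lv (s k) ≤ lR / 2
    · have e : zed t (yy lv g lR) i s = PM (G1 t g i) s := by
        rw [G1, be, ← zed_PM t (fun _ => g) i]
        unfold zed
        split_ifs with hi
        · refine sum_congr rfl fun u _ => ?_
          congr 1
          unfold yy
          split_ifs with h1
          · rfl
          · by_contra h2
            have h3 : g u ≠ 0 := by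
              simpa using prod_ne_zero_iff.1 (Ne.symm h2) i (mem_univ i)
            refine h1 ?_
            rw [← add_sum_erase univ _ (mem_univ i), update_self,
              sum_congr rfl fun k hk => by rw [update_of_ne (ne_of_mem_erase hk)]]
            have h4 := h.gs u h3
            have h5 : ∑ k ∈ univ.erase i, lv (s k) ≤ ∑ k, lv (s k) :=
              sum_le_sum_of_subset_of_nonneg (erase_subset _ _) fun k _ _ => h.lv0 _
            linarith
        · rfl
      rw [e]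
      refine mul_le_of_le_one_right (sq_nonneg _) ?_
      have : 0 ≤ 2 / lR * ∑ k, lv (s k) :=
        mul_nonneg (by positivity) (sum_nonneg fun k _ => h.lv0 _)
      linarith
    · refine le_trans (mul_nonpos_of_nonneg_of_nonpos (sq_nonneg _) ?_) (sq_nonneg _)
      have : 2 / lR * (lR / 2) ≤ 2 / lR * ∑ k, lv (s k) :=
        mul_le_mul_of_nonneg_left (not_le.1 hs).le (by positivity)
      have e : 2 / lR * (lR / 2) = 1 := by field_simp
      linarith
  set A : ℝ := ∏ _k ∈ univ.erase i, Core.ga t g with hA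
  have hA0 : 0 ≤ A := prod_nonneg fun _ _ => h.ga_nonneg
  have hAK : Core.ga t g ^ Fintype.card κ = Core.ga t g * A := by
    rw [← card_univ, ← prod_const, ← mul_prod_erase_const (mem_univ i)]
  have hk : ∀ k, Core.ga t g * ∑ s, PM (G1 t g i) s ^ 2 * wD t s * lv (s k) ≤
      be t g ^ 2 * A * ga₁ t lv g := by
    intro k
    have h1 := sum_PM_sq t (G1 t g i) (update (fun _ _ => 1) k lv)
    rw [prod_G1] at h1
    simp only [PM_update, prod_const_one, mul_one] at h1
    rw [h1]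
    by_cases hki : k = i
    · subst hki
      rw [update_self, h.lve]
      simp only [mul_zero, zero_mul]
      exact mul_nonneg (mul_nonneg (sq_nonneg _) hA0) h.ga₁_nonneg
    · have hm : k ∈ univ.erase i := mem_erase.2 ⟨hki, mem_univ k⟩
      rw [update_of_ne (Ne.symm hki), ← mul_prod_erase _ _ hm, update_self, hA,
        ← mul_prod_erase_const hm, prod_congr rfl fun l hl => by
          rw [update_of_ne (ne_of_mem_erase hl)]]
      refine le_of_eq ?_
      have e : ∑ u, g u ^ 2 * (∏ p ∈ u, t p) * lv u = ga₁ t lv g :=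
        sum_congr rfl fun u _ => by ring
      simp only [mul_one, e, Core.ga]
      ring
  have h2 : ∑ s, PM (G1 t g i) s ^ 2 * wD t s -
      2 / lR * ∑ k, ∑ s, PM (G1 t g i) s ^ 2 * wD t s * lv (s k) ≤
      ∑ s, zed t (yy lv g lR) i s ^ 2 * wD t s := by
    rw [sum_comm, mul_sum, ← sum_sub_distrib]
    refine sum_le_sum fun s _ => le_trans (le_of_eq ?_)
      (mul_le_mul_of_nonneg_right (hz s) (wD_nonneg h.t0 s))
    rw [← mul_sum]; ring
  have h3 : Core.ga t g * ∑ k, ∑ s, PM (G1 t g i) s ^ 2 * wD t s * lv (s k) ≤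
      Fintype.card κ * (be t g ^ 2 * A * ga₁ t lv g) := by
    rw [mul_sum, ← nsmul_eq_mul, ← card_univ]
    exact sum_le_card_nsmul _ _ _ fun k _ => hk k
  have h4 := sum_G1 t g i
  have h5 : 2 / lR * (Fintype.card κ * (be t g ^ 2 * A * ga₁ t lv g)) ≤
      ε * (be t g ^ 2 * (Core.ga t g * A)) := by
    have := mul_le_mul_of_nonneg_right hε (mul_nonneg (sq_nonneg (be t g)) hA0)
    rw [div_mul_eq_mul_div, div_le_iff₀ hR]
    linarith
  have h6 := mul_le_mul_of_nonneg_left h2 h.ga_nonneg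
  have h7 := mul_le_mul_of_nonneg_left h3 (by positivity : 0 ≤ 2 / lR)
  rw [hAK] at h4 ⊢
  nlinarith

theorem res_supp {c : (κ → Finset ι) → ℝ} {q : ι} {o : Option κ} {s : κ → Finset ι}
    (h : res t c q o s ≠ 0) : (∀ k, q ∉ s k) ∧ ∃ r, c r ≠ 0 ∧ ∀ k, s k ⊆ r k := by
  unfold res at h
  split_ifs at h with hs
  · obtain ⟨A, _, hA⟩ := exists_ne_zero_of_sum_ne_zero h
    refine ⟨fun k hk => by simpa [hs] using mem_tr.2 hk, _, left_ne_zero_of_mul hA, fun k p hp => ?_⟩
    rw [mem_tr_symm]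
    by_cases hpq : p = q
    · subst hpq; simpa [hs] using mem_tr.2 hp
    · rw [update_of_ne hpq]; exact mem_tr.2 hp
  · exact absurd rfl h

theorem abs_res_le (h0 : ∀ p, 0 ≤ t p) {c cb : (κ → Finset ι) → ℝ} {i : κ} (hc0 : ∀ r, 0 ≤ c r)
    (hc : ∀ r, c r ≤ cb r) (ha : Anti cb) (hi : ∀ r, c r ≠ 0 → r i = ∅) (q : ι)
    (s : κ → Finset ι) : |res t c q (some i) s| ≤ (1 + t q) ^ Fintype.card κ * cb s := by
  have hb0 : 0 ≤ cb s := (hc0 s).trans (hc s)
  have hq := h0 q
  unfold res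
  split_ifs with hs
  · refine (abs_sum_le_sum_abs _ _).trans ?_
    rw [← card_univ, ← prod_const, ← sum_prod_univ fun _ : κ => t q, sum_mul]
    refine sum_le_sum fun A _ => ?_
    by_cases h1 : c (tr.symm (update (tr s) q A)) = 0
    · rw [h1, zero_mul, abs_zero]
      exact mul_nonneg (prod_nonneg fun _ _ => hq) hb0
    have h2 : i ∉ A := fun hA => by
      have : q ∈ tr.symm (update (tr s) q A) i := by rw [mem_tr_symm, update_self]; exact hA
      rw [hi _ h1] at this; simp at this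
    rw [prod_hl_of_notMem (t q) fun k hk e => h2 (by rwa [Option.some_inj.1 e]), abs_mul,
      abs_of_nonneg (hc0 _), abs_of_nonneg (pow_nonneg hq _), prod_const, mul_comm]
    refine mul_le_mul_of_nonneg_left ((hc _).trans (ha _ _ fun k p hp => ?_)) (pow_nonneg hq _)
    rw [mem_tr_symm]
    by_cases hpq : p = q
    · subst hpq; simpa [hs] using mem_tr.2 hp
    · rw [update_of_ne hpq]; exact mem_tr.2 hp
  · rw [abs_zero]; positivity

end Pool.Agent.MP_39a890_nt.Core

end MrgPart3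

-- marker of a merged file
example : 731051 + 301533 = 731051 + 301533 := rfl
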