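import Mathlib.Data.Nat.ChineseRemainder
import Pool.Agent.MP_39a890_nt.Fin
import Pool.Agent.MP_39a890_nt.Weights
import Mathlib.Topology.Sheaves.Presheaf
import Mathlib.RingTheory.PiTensorProduct
import Mathlib.Algebra.Ring.IsFormallyReal
import Mathlib.Analysis.Complex.ExponentialBounds

-- ======== part 0: formerly Pool.Agent.MP_39a890_nt.Arith
section MrgPart0

/-!
# From integers to local states
-/

namespace Pool.Agent.MP_39a890_nt.Sums

open Finset Function Pool.Agent.MP_39a890_nt.Core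

set_option linter.unusedSectionVars false

variable {ι : Type} [Fintype ι] [DecidableEq ι] {pr : ι → ℕ} {W : ℕ} {Y : ℝ}

theorem val_eq_image (h : PS pr W Y) (u : Finset ι) : val pr u = ∏ q ∈ u.image pr, q := by
  rw [val, prod_image fun a _ b _ hab => h.inj hab]

theorem val_pos (h : PS pr W Y) (u : Finset ι) : 0 < val pr u :=
  prod_pos fun p _ => (h.prime p).pos

theorem cop (h : PS pr W Y) {p q : ι} (hpq : p ≠ q) : (pr p).Coprime (pr q) :=
  (Nat.coprime_primes (h.prime p) (h.prime q)).2 fun e => hpq (h.inj e)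

theorem primeFactors_val (h : PS pr W Y) (u : Finset ι) :
    (val pr u).primeFactors = u.image pr := by
  rw [val_eq_image h]
  refine Nat.primeFactors_prod fun q hq => ?_
  obtain ⟨p, _, rfl⟩ := mem_image.1 hq
  exact h.prime p

theorem card_primeFactors_val (h : PS pr W Y) (u : Finset ι) :
    (val pr u).primeFactors.card = u.card := by
  rw [primeFactors_val h, card_image_of_injective _ h.inj]

theorem val_inj (h : PS pr W Y) : Injective (val pr) := fun u v e => by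
  have := congrArg Nat.primeFactors e
  rw [primeFactors_val h, primeFactors_val h] at this
  exact image_injective h.inj this

theorem squarefree_val (h : PS pr W Y) (u : Finset ι) : Squarefree (val pr u) :=
  Finset.squarefree_prod_of_pairwise_isCoprime
    (fun _ _ _ _ hpq => Nat.coprime_iff_isRelPrime.1 (cop h hpq))
    fun p _ => (h.prime p).squarefree

theorem val_dvd_iff (h : PS pr W Y) (u : Finset ι) (m : ℕ) :
    val pr u ∣ m ↔ ∀ p ∈ u, pr p ∣ m := by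
  refine ⟨fun hd p hp => (dvd_prod_of_mem pr hp).trans hd, fun hd => ?_⟩
  exact Finset.prod_dvd_of_isRelPrime
    (fun p _ q _ hpq => Nat.coprime_iff_isRelPrime.1 (cop h hpq)) hd

theorem modEq_val (h : PS pr W Y) (u : Finset ι) (n n' : ℕ) :
    n ≡ n' [MOD val pr u] ↔ ∀ p ∈ u, n ≡ n' [MOD pr p] := by
  simp_rw [Nat.modEq_iff_dvd, Int.natCast_dvd]
  exact val_dvd_iff h u _

theorem coprime_val_iff (h : PS pr W Y) (u : Finset ι) (m : ℕ) :
    (val pr u).Coprime m ↔ ∀ p ∈ u, ¬ pr p ∣ m := by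
  rw [val, Nat.coprime_prod_left_iff]
  exact forall₂_congr fun p _ => (h.prime p).coprime_iff_not_dvd

theorem coprime_val_W (h : PS pr W Y) (u : Finset ι) : (val pr u).Coprime W :=
  (coprime_val_iff h u W).2 fun p _ => h.ndvd p

theorem dvd_val_iff (h : PS pr W Y) (p : ι) (u : Finset ι) : pr p ∣ val pr u ↔ p ∈ u := by
  refine ⟨fun hd => ?_, fun hp => dvd_prod_of_mem pr hp⟩
  obtain ⟨q, hq, hd⟩ := ((h.prime p).prime.dvd_finsetProd_iff _).1 hd
  rwa [h.inj ((Nat.prime_dvd_prime_iff_eq (h.prime p) (h.prime q)).1 hd)]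

theorem coprime_val_val (h : PS pr W Y) (u v : Finset ι) :
    (val pr u).Coprime (val pr v) ↔ Disjoint u v := by
  rw [coprime_val_iff h, disjoint_left]
  simp_rw [dvd_val_iff h]

theorem val_dvd_val {u v : Finset ι} (huv : u ⊆ v) : val pr u ∣ val pr v :=
  prod_dvd_prod_of_subset _ _ _ huv

theorem val_mono (h : PS pr W Y) {u v : Finset ι} (huv : u ⊆ v) : val pr u ≤ val pr v :=
  Nat.le_of_dvd (val_pos h v) (val_dvd_val huv)

theorem val_union_le (h : PS pr W Y) (u v : Finset ι) :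
    val pr (u ∪ v) ≤ val pr u * val pr v := by
  have := prod_union_inter (s₁ := u) (s₂ := v) (f := pr)
  unfold val
  rw [← this]
  exact Nat.le_mul_of_pos_right _ (val_pos h _)

theorem lv_nonneg (u : Finset ι) : 0 ≤ lv pr u := Real.log_natCast_nonneg _

theorem lv_mono (h : PS pr W Y) {u v : Finset ι} (huv : u ⊆ v) : lv pr u ≤ lv pr v :=
  Real.log_le_log (by exact_mod_cast val_pos h u) (by exact_mod_cast val_mono h huv)

theorem lv_empty : lv pr ∅ = 0 := by simp [lv, val]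

theorem val_eq_exp (h : PS pr W Y) (u : Finset ι) : (val pr u : ℝ) = Real.exp (lv pr u) :=
  (Real.exp_log (by exact_mod_cast val_pos h u)).symm

theorem cast_val (u : Finset ι) : (val pr u : ℝ) = ∏ p ∈ u, (pr p : ℝ) := by simp [val]

theorem two_le (h : PS pr W Y) (p : ι) : (2 : ℝ) ≤ pr p := by exact_mod_cast (h.prime p).two_le

theorem tt_pos (h : PS pr W Y) (p : ι) : 0 < tt pr p := by
  have := two_le h p
  unfold tt; exact one_div_pos.2 (by linarith)

theorem tt_le_one (h : PS pr W Y) (p : ι) : tt pr p ≤ 1 := by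
  have := two_le h p
  unfold tt; rw [div_le_one (by linarith)]; linarith

theorem wt_pos (h : PS pr W Y) (u : Finset ι) : 0 < wt pr u := prod_pos fun p _ => tt_pos h p

theorem wt_eq (h : PS pr W Y) (u : Finset ι) : wt pr u = 1 / ((val pr u).totient : ℝ) := by
  induction u using Finset.induction_on with
  | empty => simp [wt, val]
  | insert p u hp ih =>
    have e : val pr (insert p u) = pr p * val pr u := prod_insert hp
    have hc : (pr p).Coprime (val pr u) :=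
      (h.prime p).coprime_iff_not_dvd.2 fun hd => hp ((dvd_val_iff h p u).1 hd)
    rw [wt, prod_insert hp, ← wt, ih, e, Nat.totient_mul hc, Nat.totient_prime (h.prime p), tt,
      Nat.cast_mul, Nat.cast_pred (h.prime p).pos, div_mul_div_comm, one_mul]

variable {κ : Type} [Fintype κ] [DecidableEq κ]

/-- the local states of `n` -/
noncomputable def om (pr : ι → ℕ) (a c : κ → ℕ) (n : ℕ) (p : ι) : Option κ :=
  if h : ∃ k, pr p ∣ a k * n + c k then some h.choose else none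

variable {a c : κ → ℕ}

theorem form_unique (h : PS pr W Y) (hF : Forms a c W) {p : ι} {n : ℕ} {k l : κ}
    (hk : pr p ∣ a k * n + c k) (hl : pr p ∣ a l * n + c l) : k = l := by
  by_contra hkl
  have h1 : (pr p : ℤ) ∣ (a k : ℤ) * n + c k := by exact_mod_cast hk
  have h2 : (pr p : ℤ) ∣ (a l : ℤ) * n + c l := by exact_mod_cast hl
  have h3 := dvd_sub (h2.mul_left (a k)) (h1.mul_left (a l))
  rw [show (a k : ℤ) * (a l * n + c l) - a l * (a k * n + c k) = a k * c l - a l * c k by ring] at h3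
  exact h.ndvd p (hF.diff k l hkl _ (h.prime p) h3)

theorem om_eq (h : PS pr W Y) (hF : Forms a c W) {n : ℕ} {p : ι} {k : κ} :
    om pr a c n p = some k ↔ pr p ∣ a k * n + c k := by
  unfold om
  split_ifs with he
  · rw [Option.some_inj]
    exact ⟨fun e => e ▸ he.choose_spec, fun hk => form_unique h hF he.choose_spec hk⟩
  · simp only [false_iff]
    exact fun hk => he ⟨k, hk⟩

theorem ind1_om (h : PS pr W Y) (hF : Forms a c W) (e : Finset ι) (i : κ) (n : ℕ) :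
    ind1 e i (om pr a c n) = if val pr e ∣ a i * n + c i then 1 else 0 := by
  rw [ind1_eq]
  simp_rw [om_eq h hF, val_dvd_iff h]

theorem not_dvd_a (h : PS pr W Y) (hF : Forms a c W) (p : ι) (k : κ) : ¬ pr p ∣ a k :=
  fun hd => h.ndvd p (hd.trans (hF.dvd k))

/-- all primes used by `T` -/
def un (T : κ → Finset ι) : Finset ι := univ.biUnion T

theorem mem_un {T : κ → Finset ι} {p : ι} : p ∈ un T ↔ ∃ k, p ∈ T k := by simp [un]

theorem prod_un {T : κ → Finset ι} (hT : Fn T) (f : ι → ℝ) :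
    ∏ p ∈ un T, f p = ∏ k, ∏ p ∈ T k, f p :=
  prod_biUnion fun k _ l _ hkl => hT k l hkl

theorem crt (h : PS pr W Y) (hF : Forms a c W) {T : κ → Finset ι} (hT : Fn T) :
    ∃ n₀ : ℕ, (∀ k, ∀ p ∈ T k, pr p ∣ a k * n₀ + c k) ∧
      ∀ n, ind T (om pr a c n) = if n ≡ n₀ [MOD val pr (un T)] then 1 else 0 := by
  have h1 : ∀ p : ι, ∃ r : ℕ, ∀ k, p ∈ T k → pr p ∣ a k * r + c k := by
    intro p
    by_cases hp : ∃ k, p ∈ T k
    · obtain ⟨k, hk⟩ := hp
      have hc : (a k).Coprime (pr p) :=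
        ((h.prime p).coprime_iff_not_dvd.2 (not_dvd_a h hF p k)).symm
      obtain ⟨r, -, hr⟩ :=
        Nat.exists_mul_mod_eq_of_coprime ((pr p - 1) * c k) hc (h.prime p).ne_zero
      refine ⟨r, fun l hl => ?_⟩
      have : l = k := by
        by_contra hne
        exact disjoint_left.1 (hT l k hne) hl hk
      subst this
      have h2 : a l * r + c l ≡ (pr p - 1) * c l + c l [MOD pr p] := Nat.ModEq.add_right _ hr
      rw [← add_one_mul, Nat.sub_add_cancel (h.prime p).one_le] at h2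
      exact (Nat.modEq_zero_iff_dvd.1 (h2.trans (Nat.modEq_zero_iff_dvd.2 (dvd_mul_right _ _))))
    · exact ⟨0, fun k hk => absurd ⟨k, hk⟩ hp⟩
  choose r hr using h1
  obtain ⟨n₀, hn₀⟩ := Nat.chineseRemainderOfFinset r pr univ (fun p _ => (h.prime p).ne_zero)
    (fun p _ q _ hpq => cop h hpq)
  have key : ∀ k, ∀ p ∈ T k, ∀ n, pr p ∣ a k * n + c k ↔ n ≡ n₀ [MOD pr p] := by
    intro k p hp n
    have h2 : a k * n₀ + c k ≡ 0 [MOD pr p] :=
      (((hn₀ p (mem_univ p)).mul_left (a k)).add_right (c k)).trans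
        (Nat.modEq_zero_iff_dvd.2 (hr p k hp))
    constructor
    · intro hd
      have h3 : a k * n + c k ≡ a k * n₀ + c k [MOD pr p] :=
        (Nat.modEq_zero_iff_dvd.2 hd).trans h2.symm
      exact Nat.ModEq.cancel_left_of_coprime
        ((h.prime p).coprime_iff_not_dvd.2 (not_dvd_a h hF p k)) (Nat.ModEq.add_right_cancel' _ h3)
    · intro hm
      exact Nat.modEq_zero_iff_dvd.1 (((hm.mul_left (a k)).add_right (c k)).trans h2)
  refine ⟨n₀, fun k p hp => (key k p hp n₀).2 rfl, fun n => ?_⟩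
  rw [ind_eq]
  refine if_congr ?_ rfl rfl
  rw [modEq_val h]
  constructor
  · intro h' p hp
    obtain ⟨k, hk⟩ := mem_un.1 hp
    exact (key k p hk n).1 ((om_eq h hF).1 (h' k p hk))
  · intro h' k p hp
    exact (om_eq h hF).2 ((key k p hp n).2 (h' p (mem_un.2 ⟨k, hp⟩)))

theorem crt_coprime (h : PS pr W Y) (hF : Forms a c W) {T : κ → Finset ι} {n₀ : ℕ}
    (h0 : ∀ k, ∀ p ∈ T k, pr p ∣ a k * n₀ + c k) {i : κ} (hi : T i = ∅) :
    (val pr (un T)).Coprime (a i * n₀ + c i) := by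
  refine (coprime_val_iff h _ _).2 fun p hp hd => ?_
  obtain ⟨k, hk⟩ := mem_un.1 hp
  have := form_unique h hF (h0 k p hk) hd
  subst this
  simp [hi] at hk

/-- local weights of the integers -/
noncomputable def πU (pr : ι → ℕ) (p : ι) (o : Option κ) : ℝ :=
  o.elim (1 - ∑ _k : κ, 1 / (pr p : ℝ)) fun _ => 1 / (pr p : ℝ)

/-- local weights when the form `i` is prime -/
noncomputable def πP (pr : ι → ℕ) (i : κ) (p : ι) (o : Option κ) : ℝ :=
  o.elim (1 - ∑ k : κ, if k = i then 0 else tt pr p) fun k => if k = i then 0 else tt pr p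

theorem meas_U (h : PS pr W Y) : Meas (tt pr) (πU (κ := κ) pr) univ := by
  refine ⟨fun p => (tt_pos h p).le, tt_le_one h, fun p => ?_, fun p k _ => ?_, fun p k _ => ?_⟩
  · rw [Fintype.sum_option]; simp [πU]
  · have := two_le h p
    have h1 : (pr p : ℝ) - 1 ≠ 0 := by linarith
    simp only [πU, Option.elim, tt]
    refine le_of_eq ?_
    field_simp; ring
  · have := two_le h p
    simp only [πU, Option.elim, tt]
    exact one_div_le_one_div_of_le (by linarith) (by linarith)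

theorem meas_P (h : PS pr W Y) (i : κ) : Meas (tt pr) (πP pr i) (univ.erase i) := by
  refine ⟨fun p => (tt_pos h p).le, tt_le_one h, fun p => ?_, fun p k hk => ?_, fun p k hk => ?_⟩
  · rw [Fintype.sum_option]; simp [πP]
  · have := tt_pos h p
    simp only [πP, Option.elim, if_neg (ne_of_mem_erase hk)]
    nlinarith
  · simp only [πP, Option.elim, if_neg (ne_of_mem_erase hk), le_refl]

theorem Ex_U (h : PS pr W Y) {T : κ → Finset ι} (hT : Fn T) :
    Ex (πU pr) (ind T) = 1 / (val pr (un T) : ℝ) := by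
  rw [Ex_ind (meas_U h).sum hT, cast_val, one_div, ← prod_inv_distrib, prod_un hT]
  simp [πU]

theorem Ex_P (h : PS pr W Y) {T : κ → Finset ι} (hT : Fn T) {i : κ} (hi : T i = ∅) :
    Ex (πP pr i) (ind T) = 1 / ((val pr (un T)).totient : ℝ) := by
  rw [Ex_ind (meas_P h i).sum hT, ← wt_eq h, wt, prod_un hT]
  refine prod_congr rfl fun k _ => prod_congr rfl fun p hp => ?_
  have : k ≠ i := fun e => by subst e; simp [hi] at hp
  simp [πP, this]

/-- the range of summation -/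
noncomputable def NN (X : ℝ) : Finset ℕ := range ⌈3 * X⌉₊

/-- weight on the integers -/
noncomputable def μU (φ : ℝ → ℝ) (X : ℝ) (n : ℕ) : ℝ := φ (n / X)

/-- weight on the integers with `a n + c` prime -/
noncomputable def μP (φ : ℝ → ℝ) (X : ℝ) (a c : ℕ) (n : ℕ) : ℝ :=
  if (a * n + c).Prime then φ (n / X) * Real.log ((a * n + c : ℕ) : ℝ) else 0

theorem Rm_U (h : PS pr W Y) (hF : Forms a c W) {φ : ℝ → ℝ} {X C : ℝ} (hC0 : 0 ≤ C)
    (hC : ∀ q n₀ : ℕ, 0 < q → |cnt₁ φ X q n₀ - X * (∫ u, φ u) / q| ≤ C) (T : κ → Finset ι) :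
    |Rm (NN X) (μU φ X) (om pr a c) (X * ∫ u, φ u) (πU pr) T| ≤ C := by
  by_cases hT : Fn T
  · obtain ⟨n₀, -, hn⟩ := crt h hF hT
    have := hC _ n₀ (val_pos h (un T))
    rw [Rm, Ex_U h hT, Sm, mul_one_div]
    simpa only [hn, mul_ite, mul_one, mul_zero, cnt₁, NN, μU] using this
  · rwa [Rm_of_not_Fn _ _ _ _ _ hT, abs_zero]

theorem Rm_P (h : PS pr W Y) (hF : Forms a c W) (φ : ℝ → ℝ) (X M : ℝ) {T : κ → Finset ι}
    (hT : Fn T) {i : κ} (hi : T i = ∅) :
    ∃ n₀ : ℕ, (val pr (un T)).Coprime (a i * n₀ + c i) ∧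
      Rm (NN X) (μP φ X (a i) (c i)) (om pr a c) M (πP pr i) T =
        pcntC φ X (a i) (c i) (val pr (un T)) n₀ - M / (val pr (un T)).totient := by
  obtain ⟨n₀, h0, hn⟩ := crt h hF hT
  refine ⟨n₀, crt_coprime h hF h0 hi, ?_⟩
  rw [Rm, Ex_P h hT hi, Sm, mul_one_div, pcntC, NN]
  congr 1
  refine sum_congr rfl fun n _ => ?_
  rw [hn, μP]
  by_cases h1 : n ≡ n₀ [MOD val pr (un T)] <;> simp [h1]

theorem Rm_pair (h : PS pr W Y) (hF : Forms a c W) (φ : ℝ → ℝ) (X : ℝ) {T : κ → Finset ι}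
    (hT : Fn T) {i j : κ} (hij : i ≠ j) (hi : T i = ∅) (hj : T j = ∅) :
    ∃ n₀ : ℕ, (val pr (un T)).Coprime (a i * n₀ + c i) ∧ (val pr (un T)).Coprime (a j * n₀ + c j) ∧
      ∀ e f : Finset ι, Rm (NN X) (μU φ X) (om pr a c) (X * ∫ u, φ u) (πU pr)
        (update (update T i e) j f) =
        remC φ X (a i) (c i) (a j) (c j) (val pr (un T)) n₀ (val pr e) (val pr f) := by
  obtain ⟨n₀, h0, hn⟩ := crt h hF hT
  refine ⟨n₀, crt_coprime h hF h0 hi, crt_coprime h hF h0 hj, fun e f => ?_⟩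
  have hj' : update T i e j = ∅ := by rw [update_of_ne hij.symm, hj]
  set T' := update (update T i e) j f with hT'
  have hmem : ∀ k p, p ∈ T' k ↔ p ∈ T k ∨ (k = i ∧ p ∈ e) ∨ (k = j ∧ p ∈ f) := by
    intro k p
    by_cases h1 : k = j
    · subst h1; simp [hT', hj, hij.symm]
    by_cases h2 : k = i
    · subst h2; simp [hT', hi, hij]
    · simp [hT', h1, h2]
  rw [Rm, remC]
  congr 1
  · rw [Sm, cntC, NN]
    refine sum_congr rfl fun n _ => ?_
    rw [hT', ind_update hj', ind_update hi, hn, ind1_om h hF, ind1_om h hF, μU]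
    rw [ite_zero_mul_ite_zero, ite_zero_mul_ite_zero]
    simp only [mul_one, mul_ite, mul_zero, and_assoc]
  · simp_rw [coprime_val_val h]
    split_ifs with hc
    · obtain ⟨c1, c2, c3⟩ := hc
      have hT2 : Fn T' := by
        intro k l hkl
        refine disjoint_left.2 fun p hk hl => ?_
        rcases (hmem k p).1 hk with h1 | ⟨e1, h1⟩ | ⟨e1, h1⟩ <;>
          rcases (hmem l p).1 hl with h2 | ⟨e2, h2⟩ | ⟨e2, h2⟩
        · exact disjoint_left.1 (hT k l hkl) h1 h2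
        · exact disjoint_left.1 c1 (mem_un.2 ⟨k, h1⟩) h2
        · exact disjoint_left.1 c2 (mem_un.2 ⟨k, h1⟩) h2
        · exact disjoint_left.1 c1 (mem_un.2 ⟨l, h2⟩) h1
        · exact hkl (e1.trans e2.symm)
        · exact disjoint_left.1 c3 h1 h2
        · exact disjoint_left.1 c2 (mem_un.2 ⟨l, h2⟩) h1
        · exact disjoint_left.1 c3 h2 h1
        · exact hkl (e1.trans e2.symm)
      have hun : un T' = un T ∪ e ∪ f := by
        ext p
        simp only [mem_un, mem_union, hmem]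
        constructor
        · rintro ⟨k, h1 | ⟨-, h1⟩ | ⟨-, h1⟩⟩
          exacts [Or.inl (Or.inl ⟨k, h1⟩), Or.inl (Or.inr h1), Or.inr h1]
        · rintro ((⟨k, h1⟩ | h1) | h1)
          exacts [⟨k, Or.inl h1⟩, ⟨i, Or.inr (Or.inl ⟨rfl, h1⟩)⟩, ⟨j, Or.inr (Or.inr ⟨rfl, h1⟩)⟩]
      rw [Ex_U h hT2, hun, mul_one_div, cast_val, cast_val, cast_val, cast_val,
        prod_union (disjoint_union_left.2 ⟨c2, c3⟩), prod_union c1]
    · rw [Ex_ind_of_not_Fn, mul_zero]
      refine fun hT2 => hc ⟨?_, ?_, ?_⟩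
      · refine disjoint_left.2 fun p hp he => ?_
        obtain ⟨k, hk⟩ := mem_un.1 hp
        have : k ≠ i := fun e => by subst e; simp [hi] at hk
        exact disjoint_left.1 (hT2 k i this) ((hmem _ _).2 (Or.inl hk))
          ((hmem _ _).2 (Or.inr (Or.inl ⟨rfl, he⟩)))
      · refine disjoint_left.2 fun p hp he => ?_
        obtain ⟨k, hk⟩ := mem_un.1 hp
        have : k ≠ j := fun e => by subst e; simp [hj] at hk
        exact disjoint_left.1 (hT2 k j this) ((hmem _ _).2 (Or.inl hk))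
          ((hmem _ _).2 (Or.inr (Or.inr ⟨rfl, he⟩)))
      · exact disjoint_left.2 fun p he hf => disjoint_left.1 (hT2 i j hij)
          ((hmem _ _).2 (Or.inr (Or.inl ⟨rfl, he⟩))) ((hmem _ _).2 (Or.inr (Or.inr ⟨rfl, hf⟩)))

end Pool.Agent.MP_39a890_nt.Sums

end MrgPart0

-- ======== part 1: formerly Pool.Agent.MP_39a890_nt.Sums1
section MrgPart1

/-!
# The sums over integers with a trivial remainder
-/

namespace Pool.Agent.MP_39a890_nt.Sums

open Finset Function Pool.Agent.MP_39a890_nt.Core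

set_option linter.unusedSectionVars false

variable {ι : Type} [Fintype ι] [DecidableEq ι] {pr : ι → ℕ} {W : ℕ} {Y : ℝ}
variable {κ : Type} [Fintype κ] [DecidableEq κ] {a b : κ → ℕ}

theorem gok (h : PS pr W Y) (p₀ J : ℕ) {l lR : ℝ} (hl : 0 ≤ l) (hJ : 2 ^ J * l ≤ lR / 2) :
    GOk (tt pr) (lv pr) (gw pr p₀ J l) lR := by
  have g0 : ∀ u, 0 ≤ gw pr p₀ J l u := fun u => by
    unfold gw; split_ifs
    · exact sum_nonneg fun j _ => by split_ifs <;> positivity
    · exact le_rfl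
  refine ⟨fun p => (tt_pos h p).le, lv_nonneg, lv_empty, fun u v => lv_mono h, g0, fun u => ?_,
    fun u v huv => ?_, fun u hu => ?_⟩
  · unfold gw; split_ifs
    · have h1 : ∀ n : ℕ, ∑ j ∈ range n, (1 / 2 : ℝ) ^ (j + 1) = 1 - (1 / 2) ^ n := by
        intro n
        induction n with
        | zero => simp
        | succ n ih => rw [sum_range_succ, ih]; ring
      refine (sum_le_sum (g := fun j => (1 / 2 : ℝ) ^ (j + 1)) fun j _ => ?_).trans ?_
      · split_ifs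
        · exact le_rfl
        · positivity
      · rw [h1]; have : (0 : ℝ) ≤ (1 / 2) ^ (J + 1) := by positivity
        linarith
    · exact zero_le_one
  · by_cases hu : ∀ p ∈ u, pr p ≠ p₀
    · unfold gw
      rw [if_pos hu, if_pos fun p hp => hu p (huv hp)]
      refine sum_le_sum fun j _ => ?_
      by_cases h1 : lv pr u ≤ 2 ^ j * l
      · rw [if_pos h1, if_pos ((lv_mono h huv).trans h1)]
      · rw [if_neg h1]; split_ifs <;> positivity
    · exact le_trans (le_of_eq (if_neg hu)) (g0 v)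
  · unfold gw at hu
    split_ifs at hu
    · obtain ⟨j, hj, hj'⟩ := exists_ne_zero_of_sum_ne_zero hu
      have h1 : lv pr u ≤ 2 ^ j * l := by
        by_contra h1; exact hj' (if_neg h1)
      refine h1.trans (le_trans (mul_le_mul_of_nonneg_right ?_ hl) hJ)
      exact pow_le_pow_right₀ one_le_two (Nat.lt_succ_iff.1 (mem_range.1 hj))
    · exact absurd rfl hu

theorem gw_supp {p₀ J : ℕ} {l : ℝ} {u : Finset ι} (h : gw pr p₀ J l u ≠ 0) :
    ∀ p ∈ u, pr p ≠ p₀ := by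
  by_contra h1; exact h (if_neg h1)

theorem log_le_lv (h : PS pr W Y) {p : ι} {u : Finset ι} (hp : p ∈ u) :
    Real.log (pr p) ≤ lv pr u := by
  have := lv_mono h (singleton_subset_iff.2 hp)
  simpa [lv, val] using this

theorem EE_down (h : PS pr W Y) (L : ℝ) : ∀ u ∈ EE pr L, ∀ v ⊆ u, v ∈ EE pr L := by
  intro u hu v hv
  simp only [EE, mem_filter, mem_univ, true_and] at hu ⊢
  have := lv_mono h hv
  exact ⟨this.trans hu.1, hu.2.imp (fun h1 => this.trans h1) fun h1 p hp => h1 p (hv hp)⟩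

theorem one_le_GG (h : PS pr W Y) {L : ℝ} (hL : 0 ≤ L) : 1 ≤ GG pr L := by
  have : (∅ : Finset ι) ∈ EE pr L := by
    simp only [EE, mem_filter, mem_univ, true_and, lv_empty]
    exact ⟨by positivity, Or.inl (by positivity)⟩
  simpa [wt, GG] using single_le_sum (f := wt pr) (fun u _ => (wt_pos h u).le) this

/-- the Selberg weights -/
noncomputable def eta (pr : ι → ℕ) (L : ℝ) (u : Finset ι) : ℝ :=
  if u ∈ EE pr L then 1 / GG pr L else 0

theorem eta_nonneg (h : PS pr W Y) {L : ℝ} (hL : 0 ≤ L) (u : Finset ι) : 0 ≤ eta pr L u := by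
  have := one_le_GG h hL
  unfold eta; split_ifs <;> positivity

theorem eta_le (h : PS pr W Y) {L : ℝ} (hL : 0 ≤ L) (u : Finset ι) : eta pr L u ≤ 1 := by
  have := one_le_GG h hL
  unfold eta; split_ifs
  · rw [div_le_one (by linarith)]; exact this
  · exact zero_le_one

theorem eta_anti (h : PS pr W Y) {L : ℝ} (hL : 0 ≤ L) (u v : Finset ι) (huv : v ⊆ u) :
    eta pr L u ≤ eta pr L v := by
  by_cases hu : u ∈ EE pr L
  · unfold eta; rw [if_pos hu, if_pos (EE_down h L u hu v huv)]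
  · exact le_trans (le_of_eq (if_neg hu)) (eta_nonneg h hL v)

theorem eta_supp {L : ℝ} {u : Finset ι} (hu : eta pr L u ≠ 0) : u ∈ EE pr L := by
  by_contra h1; exact hu (if_neg h1)

theorem lv_of_EE {L : ℝ} {u : Finset ι} (hu : u ∈ EE pr L) : lv pr u ≤ 272 / 1000 * L :=
  (mem_filter.1 hu).2.1

theorem sum_eta (h : PS pr W Y) {L : ℝ} (hL : 0 ≤ L) :
    ∑ u, eta pr L u * ∏ p ∈ u, tt pr p = 1 := by
  have := one_le_GG h hL
  simp only [eta, ite_mul, zero_mul, sum_ite_mem, univ_inter]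
  rw [← mul_sum]
  change 1 / GG pr L * GG pr L = 1
  field_simp

theorem sum_eta_sq (h : PS pr W Y) {L : ℝ} (hL : 0 ≤ L) :
    ∑ u, eta pr L u ^ 2 * (∏ p ∈ u, tt pr p) * 1 = 1 / GG pr L := by
  have := one_le_GG h hL
  have e : ∀ u, eta pr L u ^ 2 * (∏ p ∈ u, tt pr p) * 1 =
      1 / GG pr L * (eta pr L u * ∏ p ∈ u, tt pr p) := fun u => by
    unfold eta; split_ifs <;> ring
  simp_rw [e]
  rw [← mul_sum, sum_eta h hL, mul_one]

theorem rho_supp {t : ι → ℝ} {η : Finset ι → ℝ} {e : Finset ι} (h : rho t η e ≠ 0) :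
    ∃ u, η u ≠ 0 ∧ e ⊆ u := by
  obtain ⟨u, _, hu⟩ := exists_ne_zero_of_sum_ne_zero h
  refine ⟨u, left_ne_zero_of_mul hu, ?_⟩
  by_contra h1
  exact right_ne_zero_of_mul hu (if_neg h1)

theorem abs_rho_le (h : PS pr W Y) {L : ℝ} (hL : 0 ≤ L) (e : Finset ι) :
    |rho (tt pr) (eta pr L) e| ≤ 2 ^ e.card := by
  have hG := one_le_GG h hL
  have h1 := sum_abs_cf_le (tt pr) (fun p => (tt_pos h p).le) (tt_le_one h) (EE pr L)
    (EE_down h L) e
  simp only [rho, eta, ite_mul, zero_mul, sum_ite_mem, univ_inter]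
  rw [← mul_sum, abs_mul, abs_of_nonneg (by positivity : 0 ≤ 1 / GG pr L), one_div,
    inv_mul_le_iff₀ (by linarith), mul_comm]
  exact (abs_sum_le_sum_abs _ _).trans h1

theorem norm_lam (h : PS pr W Y) (hs : ∏ p, (1 + 3 / ((pr p : ℝ) * √(pr p : ℝ))) ≤ 2)
    (c : (κ → Finset ι) → ℝ) {cm Λ : ℝ} (hc : ∀ r, |c r| ≤ cm)
    (hΛ : ∀ r, c r ≠ 0 → ∑ k, lv pr (r k) ≤ Λ) :
    ∑ T, |lam (tt pr) c T| ≤ cm * Real.exp (3 / 2 * Λ) * 2 ^ Fintype.card κ := by
  have hx : ∀ p, 0 < (pr p : ℝ) * √(pr p : ℝ) := fun p => by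
    have := two_le h p
    have : (0 : ℝ) < pr p := by linarith
    positivity
  have hcm : 0 ≤ cm := (abs_nonneg _).trans (hc fun _ => ∅)
  refine (sum_abs_lam_le (tt pr) (fun p => (pr p : ℝ) * √(pr p : ℝ)) (fun p => (tt_pos h p).le)
    (tt_le_one h) hx c hc (Real.exp_pos (3 / 2 * Λ)).le fun r hr => ?_).trans ?_
  · have e : ∀ u : Finset ι, ∏ p ∈ u, (pr p : ℝ) * √(pr p : ℝ) = Real.exp (3 / 2 * lv pr u) := by
      intro u
      rw [prod_mul_distrib, ← Real.sqrt_prod _ fun p _ => Nat.cast_nonneg _, ← cast_val,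
        val_eq_exp h, ← Real.exp_half, ← Real.exp_add]
      congr 1; ring
    simp_rw [e]
    rw [← Real.exp_sum, ← mul_sum]
    exact Real.exp_le_exp.2 (by linarith [hΛ r hr])
  · refine mul_le_mul_of_nonneg_left (pow_le_pow_left₀ (prod_nonneg fun p _ => ?_) hs _)
      (by positivity)
    have := hx p
    positivity

theorem sum_lv_update (r : κ → Finset ι) (i : κ) (u : Finset ι) :
    ∑ k, lv pr (update r i u k) = lv pr u + ∑ k ∈ univ.erase i, lv pr (r k) := by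
  rw [← add_sum_erase univ _ (mem_univ i), update_self,
    sum_congr rfl fun k hk => by rw [update_of_ne (ne_of_mem_erase hk)]]

theorem sum_lv_split (r : κ → Finset ι) (i : κ) :
    ∑ k, lv pr (r k) = ∑ k, lv pr (update r i ∅ k) + lv pr (r i) := by
  rw [sum_lv_update, lv_empty, ← add_sum_erase univ _ (mem_univ i)]; ring

theorem zed_lv {t : ι → ℝ} {y : (κ → Finset ι) → ℝ} {Λ : ℝ}
    (hy : ∀ r, y r ≠ 0 → ∑ k, lv pr (r k) ≤ Λ) (i : κ) (s : κ → Finset ι)
    (hs : zed t y i s ≠ 0) : ∑ k, lv pr (s k) ≤ Λ := by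
  obtain ⟨h1, u, hu⟩ := zed_supp hs
  have := hy _ hu
  rw [sum_lv_update] at this
  rw [← add_sum_erase univ _ (mem_univ i), h1, lv_empty]
  linarith [lv_nonneg (pr := pr) u]

/-- The hypotheses at a fixed scale `X = exp L`. -/
structure Ctx (pr : ι → ℕ) (a b : κ → ℕ) (W : ℕ) (φ : ℝ → ℝ) (L δ lam ε C : ℝ) (p₀ J : ℕ) :
    Prop where
  ps : PS pr W (Real.exp (272 / 1000 * L))
  fo : Forms a b W
  wt : Wt φ
  L0 : 0 < L
  δ0 : 0 < δ
  lam0 : 0 ≤ lam
  hJ : 2 ^ J * lam ≤ δ / 2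
  ε0 : 0 ≤ ε
  C0 : 0 ≤ C
  cnt : ∀ q n₀ : ℕ, 0 < q →
    |cnt₁ φ (Real.exp L) q n₀ - Real.exp L * (∫ u, φ u) / q| ≤ C
  s1 : ∏ p, (1 + cK κ * tt pr p ^ 2) ≤ 1 + ε
  s2 : ∀ p, (1 + tt pr p) ^ Fintype.card κ ≤ 2
  s3 : ∏ p, (1 + 3 / ((pr p : ℝ) * √(pr p : ℝ))) ≤ 2

/-- the Maynard weights -/
noncomputable def yw (pr : ι → ℕ) (L δ lam : ℝ) (p₀ J : ℕ) : (κ → Finset ι) → ℝ :=
  yy (lv pr) (gw pr p₀ J (lam * L)) (δ * L)

/-- weighted sum over the integers -/
noncomputable def SU (pr : ι → ℕ) (a b : κ → ℕ) (φ : ℝ → ℝ) (L : ℝ) (F : (ι → Option κ) → ℝ) : ℝ :=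
  Sm (NN (Real.exp L)) (μU φ (Real.exp L)) (om pr a b) F

/-- total mass -/
noncomputable def mass (φ : ℝ → ℝ) (L : ℝ) : ℝ := Real.exp L * ∫ u, φ u

variable {φ : ℝ → ℝ} {L δ lam ε C : ℝ} {p₀ J : ℕ}

theorem Ctx.gok (h : Ctx pr a b W φ L δ lam ε C p₀ J) :
    GOk (tt pr) (lv pr) (gw pr p₀ J (lam * L)) (δ * L) :=
  Sums.gok h.ps p₀ J (mul_nonneg h.lam0 h.L0.le) (by
    have := mul_le_mul_of_nonneg_right h.hJ h.L0.le
    linarith)

theorem Ctx.mass_nonneg (h : Ctx pr a b W φ L δ lam ε C p₀ J) : 0 ≤ mass φ L :=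
  mul_nonneg (Real.exp_pos _).le (MeasureTheory.integral_nonneg h.wt.nonneg)

theorem Ctx.rm (h : Ctx pr a b W φ L δ lam ε C p₀ J) (T : κ → Finset ι) :
    |Rm (NN (Real.exp L)) (μU φ (Real.exp L)) (om pr a b) (mass φ L) (πU pr) T| ≤ C :=
  Rm_U h.ps h.fo h.C0 h.cnt T

theorem Ctx.SU_mono (h : Ctx pr a b W φ L δ lam ε C p₀ J) {F F' : (ι → Option κ) → ℝ}
    (hF : ∀ w, F w ≤ F' w) : SU pr a b φ L F ≤ SU pr a b φ L F' := by
  unfold SU Sm μU
  exact sum_le_sum fun _ _ => mul_le_mul_of_nonneg_left (hF _) (h.wt.nonneg _)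

theorem Ctx.yw_lv (r : κ → Finset ι) (hr : yw pr L δ lam p₀ J r ≠ 0) :
    ∑ k, lv pr (r k) ≤ δ * L := (yy_supp hr).1

/-- main term and remainder for monotone coefficients -/
theorem Ctx.sq_est (h : Ctx pr a b W φ L δ lam ε C p₀ J) (c : (κ → Finset ι) → ℝ) {cm Λ : ℝ}
    (hc0 : ∀ r, 0 ≤ c r) (hc : ∀ r, c r ≤ cm) (ha : Anti c)
    (hΛ : ∀ r, c r ≠ 0 → ∑ k, lv pr (r k) ≤ Λ) :
    |SU pr a b φ L (fun w => V (tt pr) c w ^ 2) - mass φ L * ∑ r, c r ^ 2 * wD (tt pr) r| ≤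
      ε * (mass φ L * ∑ r, c r ^ 2 * wD (tt pr) r) +
        C * (cm * Real.exp (3 / 2 * Λ) * 2 ^ Fintype.card κ) ^ 2 := by
  have h1 := disc_sq _ _ _ _ _ (tt pr) c h.rm
  have h2 := master (meas_U h.ps) c (fun r _ k hk => absurd (mem_univ k) hk) hc0 ha h.s1
  have h3 := norm_lam h.ps h.s3 c (fun r => by rw [abs_of_nonneg (hc0 r)]; exact hc r) hΛ
  have h4 := mul_le_mul_of_nonneg_left
    (pow_le_pow_left₀ (sum_nonneg fun _ _ => abs_nonneg _) h3 2) h.C0
  have h5 := mul_le_mul_of_nonneg_left h2 h.mass_nonneg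
  rw [← abs_of_nonneg h.mass_nonneg, ← abs_mul, abs_of_nonneg h.mass_nonneg, mul_sub] at h5
  have h6 := abs_sub_le (SU pr a b φ L fun w => V (tt pr) c w ^ 2)
    (mass φ L * Ex (πU pr) fun w => V (tt pr) c w ^ 2) (mass φ L * ∑ r, c r ^ 2 * wD (tt pr) r)
  unfold SU at h6 ⊢
  linarith

theorem Ctx.S0 (h : Ctx pr a b W φ L δ lam ε C p₀ J) :
    SU pr a b φ L (fun w => V (tt pr) (yw pr L δ lam p₀ J) w ^ 2) ≤
      (1 + ε) * (mass φ L * gam pr p₀ J (lam * L) ^ Fintype.card κ) +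
        C * (Real.exp (3 / 2 * (δ * L)) * 2 ^ Fintype.card κ) ^ 2 := by
  have h1 := h.sq_est (yw pr L δ lam p₀ J) h.gok.yy_nonneg h.gok.yy_le_one h.gok.yy_anti Ctx.yw_lv
  have h2 := mul_le_mul_of_nonneg_left (h.gok.sum_yy (κ := κ)) h.mass_nonneg
  have h3 := mul_le_mul_of_nonneg_left h2 (by linarith [h.ε0] : 0 ≤ 1 + ε)
  rw [one_mul] at h1
  have h4 := (abs_le.1 h1).2
  change (1 + ε) * (mass φ L * ∑ r, yw pr L δ lam p₀ J r ^ 2 * _) ≤
    (1 + ε) * (mass φ L * gam pr p₀ J (lam * L) ^ _) at h3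
  linarith

/-- the weights with coordinate `i` summed out -/
noncomputable def zw (pr : ι → ℕ) (L δ lam : ℝ) (p₀ J : ℕ) (i : κ) : (κ → Finset ι) → ℝ :=
  zed (tt pr) (yw pr L δ lam p₀ J) i

theorem Ctx.zw_nonneg (h : Ctx pr a b W φ L δ lam ε C p₀ J) (i : κ) (r : κ → Finset ι) :
    0 ≤ zw pr L δ lam p₀ J i r := zed_nonneg h.gok.t0 h.gok.yy_nonneg i r

theorem Ctx.zw_le (h : Ctx pr a b W φ L δ lam ε C p₀ J) (i : κ) (r : κ → Finset ι) :
    zw pr L δ lam p₀ J i r ≤ bet pr p₀ J (lam * L) :=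
  (h.gok.zed_le i r).trans (h.gok.PM_G1_le i r)

theorem Ctx.zw_anti (h : Ctx pr a b W φ L δ lam ε C p₀ J) (i : κ) : Anti (zw pr L δ lam p₀ J i) :=
  zed_anti h.gok.t0 h.gok.yy_nonneg h.gok.yy_anti i

theorem zw_lv (i : κ) (r : κ → Finset ι) (hr : zw pr L δ lam p₀ J i r ≠ 0) :
    ∑ k, lv pr (r k) ≤ δ * L := zed_lv Ctx.yw_lv i r hr

theorem zw_supp (i : κ) (r : κ → Finset ι) (hr : zw pr L δ lam p₀ J i r ≠ 0) : r i = ∅ :=
  (zed_supp hr).1

/-- remainder at the level of the Selberg weights -/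
noncomputable def err₂ (κ : Type) [Fintype κ] (β L δ C : ℝ) : ℝ :=
  C * (β * Real.exp (3 / 2 * (δ * L + 272 / 1000 * L)) * 2 ^ Fintype.card κ) ^ 2

theorem Ctx.S2 (h : Ctx pr a b W φ L δ lam ε C p₀ J) (i : κ) :
    |SU pr a b φ L (fun w => (V (tt pr) (zw pr L δ lam p₀ J i) w * sig (tt pr) (eta pr L) i w) ^ 2) -
      mass φ L * ((∑ s, zw pr L δ lam p₀ J i s ^ 2 * wD (tt pr) s) * (1 / GG pr L))| ≤
      ε * (mass φ L * ((∑ s, zw pr L δ lam p₀ J i s ^ 2 * wD (tt pr) s) * (1 / GG pr L))) +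
        err₂ κ (bet pr p₀ J (lam * L)) L δ C := by
  simp_rw [V_mul_sig _ _ _ _ (zw_supp i)]
  have e := sum_split_sq (tt pr) (zw pr L δ lam p₀ J i) (eta pr L) (fun _ => 1) i (zw_supp i)
  rw [sum_eta_sq h.ps h.L0.le] at e
  simp only [mul_one] at e
  rw [← e]
  refine h.sq_est _ (fun r => mul_nonneg (h.zw_nonneg i _) (eta_nonneg h.ps h.L0.le _))
    (fun r => (mul_le_of_le_one_right (h.zw_nonneg i _) (eta_le h.ps h.L0.le _)).trans
      (h.zw_le i _))
    (anti_mul (h.zw_nonneg i) (h.zw_anti i) (eta_nonneg h.ps h.L0.le) (eta_anti h.ps h.L0.le) i)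
    fun r hr => ?_
  rw [sum_lv_split r i]
  exact add_le_add (zw_lv i _ (left_ne_zero_of_mul hr))
    (lv_of_EE (eta_supp (right_ne_zero_of_mul hr)))

theorem Ctx.S3_one (h : Ctx pr a b W φ L δ lam ε C p₀ J) (i : κ) (q : ι) :
    SU pr a b φ L (fun w => (V (tt pr) (zw pr L δ lam p₀ J i) w * sig (tt pr) (eta pr L) i w) ^ 2 *
      ind1 {q} i w) ≤
      mass φ L * ((1 + ε) * 4 *
        (∑ s, PM (G1 (tt pr) (gw pr p₀ J (lam * L)) i) s ^ 2 * wD (tt pr) s) * (1 / GG pr L) ^ 2) *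
        (1 / (pr q : ℝ) * ∑ u ∈ (EE pr L).filter (fun u => q ∉ u ∧ insert q u ∉ EE pr L),
          Pool.Agent.MP_39a890_nt.wt pr u * ∏ p ∈ u, (1 + cK κ * tt pr p)) +
        4 * err₂ κ (bet pr p₀ J (lam * L)) L δ C := by
  set z := zw pr L δ lam p₀ J i with hz
  set z' := res (tt pr) z q (some i) with hz'
  set η' : Finset ι → ℝ := fun u => if q ∈ u then 0 else eta pr L u - eta pr L (insert q u) with hη'
  set zb := PM (G1 (tt pr) (gw pr p₀ J (lam * L)) i) with hzb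
  have hL := h.L0.le
  have hz'i : ∀ r, z' r ≠ 0 → r i = ∅ := fun r hr => by
    obtain ⟨-, r', h1, h2⟩ := res_supp hr
    exact subset_empty.1 (zw_supp i r' h1 ▸ h2 i)
  have hη'e : ∀ u, η' u =
      if u ∈ (EE pr L).filter (fun u => q ∉ u ∧ insert q u ∉ EE pr L) then 1 / GG pr L else 0 := by
    intro u
    simp only [hη', eta, mem_filter]
    by_cases h1 : q ∈ u
    · simp [h1]
    by_cases h2 : insert q u ∈ EE pr L
    · simp [h1, h2, EE_down h.ps L _ h2 u (subset_insert q u)]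
    · simp [h1, h2]
  have hG := one_le_GG h.ps hL
  have hη0 : ∀ u, 0 ≤ η' u := fun u => by rw [hη'e]; split_ifs <;> positivity
  have hη1 : ∀ u, η' u ≤ 1 := fun u => by
    rw [hη'e]; split_ifs
    · rw [div_le_one (by linarith)]; exact hG
    · exact zero_le_one
  have hzb0 : ∀ s, 0 ≤ zb s := PM_nonneg (h.gok.G1_nonneg i)
  have hzba : Anti zb := PM_anti (h.gok.G1_nonneg i) (h.gok.G1_anti i)
  have hz'b : ∀ s, |z' s| ≤ 2 * zb s := fun s =>
    (abs_res_le h.gok.t0 (h.zw_nonneg i) (h.gok.zed_le i) hzba (zw_supp i) q s).trans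
      (mul_le_mul_of_nonneg_right (h.s2 q) (hzb0 s))
  set c : (κ → Finset ι) → ℝ := fun r => z' (update r i ∅) * η' (r i) with hc
  have e1 : (fun w => (V (tt pr) z w * sig (tt pr) (eta pr L) i w) ^ 2 * ind1 {q} i w) =
      fun w => V (tt pr) c w ^ 2 * ind1 {q} i w := by
    funext w
    by_cases hw : w q = some i
    · rw [V_eq_res _ z q, sig_eq_res _ _ i q w hw, hw, V_mul_sig _ _ _ _ hz'i]
    · simp [ind1, hw]
  have hcb : ∀ r, |c r| ≤ 2 * zb (update r i ∅) * η' (r i) := fun r => by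
    rw [hc, abs_mul, abs_of_nonneg (hη0 _)]
    exact mul_le_mul_of_nonneg_right (hz'b _) (hη0 _)
  have h1 := disc_sq_res _ _ _ _ (meas_U h.ps).sum (tt pr) c q i (fun r hr k hk => by
    by_cases hki : k = i
    · subst hki
      exact right_ne_zero_of_mul hr (if_pos hk)
    · exact (res_supp (left_ne_zero_of_mul hr)).1 k (by rwa [update_of_ne hki])) h.rm
  have h2 := master_free (meas_U h.ps) i c (fun r => 2 * zb (update r i ∅) * η' (r i)) hcb
    (fun r r' hr hi => by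
      rw [hi]
      exact mul_le_mul_of_nonneg_right (mul_le_mul_of_nonneg_left
        (hzba _ _ (update_subset hr i ∅)) zero_le_two) (hη0 _)) h.s1
  have e2 := sum_split_sq (tt pr) (fun s => 2 * zb s) η' (fun u => ∏ p ∈ u, (1 + cK κ * tt pr p)) i
    (fun r hr => PM_G1_supp (right_ne_zero_of_mul hr))
  have e3 : ∑ u, η' u ^ 2 * (∏ p ∈ u, tt pr p) * ∏ p ∈ u, (1 + cK κ * tt pr p) =
      (1 / GG pr L) ^ 2 * ∑ u ∈ (EE pr L).filter (fun u => q ∉ u ∧ insert q u ∉ EE pr L),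
        Pool.Agent.MP_39a890_nt.wt pr u * ∏ p ∈ u, (1 + cK κ * tt pr p) := by
    rw [mul_sum, ← univ_inter (filter _ _), ← sum_ite_mem]
    refine sum_congr rfl fun u _ => ?_
    rw [hη'e]; split_ifs
    · unfold Pool.Agent.MP_39a890_nt.wt; ring
    · simp
  have e4 : ∑ s, (2 * zb s) ^ 2 * wD (tt pr) s = 4 * ∑ s, zb s ^ 2 * wD (tt pr) s := by
    rw [mul_sum]; exact sum_congr rfl fun s _ => by ring
  rw [e2, e3, e4] at h2
  have h3 := norm_lam (cm := 2 * bet pr p₀ J (lam * L)) (Λ := δ * L + 272 / 1000 * L) h.ps h.s3 c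
    (fun r => (hcb r).trans ((mul_le_of_le_one_right (mul_nonneg zero_le_two (hzb0 _)) (hη1 _)).trans
      (mul_le_mul_of_nonneg_left (h.gok.PM_G1_le i _) zero_le_two))) fun r hr => by
    rw [sum_lv_split r i]
    refine add_le_add ?_ ?_
    · obtain ⟨-, r', a1, a2⟩ := res_supp (left_ne_zero_of_mul hr)
      exact (sum_le_sum fun k _ => lv_mono h.ps (a2 k)).trans (zw_lv i r' a1)
    · have := right_ne_zero_of_mul hr
      rw [hη'e] at this
      split_ifs at this with h5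
      · exact lv_of_EE (mem_filter.1 h5).1
      · exact absurd rfl this
  have h4 := mul_le_mul_of_nonneg_left
    (pow_le_pow_left₀ (sum_nonneg fun _ _ => abs_nonneg _) h3 2) h.C0
  have hq : (0 : ℝ) ≤ 1 / pr q := by positivity
  have h5 := mul_le_mul_of_nonneg_left (mul_le_mul_of_nonneg_left h2 hq) h.mass_nonneg
  rw [e1]
  unfold SU err₂
  have e5 : πU (κ := κ) pr q (some i) = 1 / pr q := rfl
  rw [e5] at h1
  nlinarith

end Pool.Agent.MP_39a890_nt.Sums

end MrgPart1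

-- ======== part 2: formerly Pool.Agent.MP_39a890_nt.BV.Core
section MrgPart2

/-!
# E287, module BV: the bound for fixed `X`, the main term and the small conductors
-/

namespace Pool.Agent.MP_39a890_nt.BV

open Finset Filter Topology ArithmeticFunction

variable {φ : ℝ → ℝ}

lemma core (hφ : Wt φ) {X : ℝ} (hX : 2 ≤ X) {a : ℕ} (ha : 0 < a) (C₀ : ℕ) {K P E Y R s U : ℝ}
    (S : Finset ℕ) (n₀ : ℕ → ℕ) (hs : 0 < s) (hR : 0 ≤ R) (hK0 : 0 ≤ K) (hY : 0 ≤ Y)
    (hE : ∑ m ∈ range ⌈3 * (a * X)⌉₊, |pw φ (a * X) m - Λ m * φ (m / (a * X))| ≤ E)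
    (hS : ∀ q ∈ S, 0 < q ∧ q.Coprime a ∧ (q : ℝ) ≤ Y ∧ (q : ℝ) ≤ X ∧ q.Coprime (a * n₀ q + 1))
    (hP : ∑ q ∈ S, hw (2 * C₀ + 1) q ≤ P)
    (hK : ∀ f : ℕ, 0 < f → ∑ q ∈ S with f ∣ a * q, hw (2 * C₀ + 1) q ≤ K / √f)
    (hsm : ∀ q ∈ S, ∀ z ∈ prims (a * q), (z.1 : ℝ) ≤ s ^ 2 → ‖Psi φ (a * X) z‖ ≤ R)
    (hLS : ∀ T : Finset (Σ f : ℕ, DirichletCharacter ℂ f),
      (∀ z ∈ T, ∃ q ∈ S, z ∈ prims (a * q)) → ∑ z ∈ T, ‖Psi φ (a * X) z‖ ≤ U) :
    ∑ q ∈ S, (C₀ : ℝ) ^ q.primeFactors.card * |pcnt φ X a q (n₀ q) -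
        (∑ m ∈ range ⌈3 * (a * X)⌉₊, pw φ (a * X) m) / a.totient / q.totient| ≤
      K * (s ^ 4 * R + U / s) + Y * E * P := by
  classical
  have ha1 : (1 : ℝ) ≤ a := by exact_mod_cast ha
  have hx : (0 : ℝ) < a * X := by positivity
  have hE0 : 0 ≤ E := (sum_nonneg fun _ _ => abs_nonneg _).trans hE
  set T := S.biUnion fun q => prims (a * q) with hT
  have hTm : ∀ z ∈ T, ∃ q ∈ S, z ∈ prims (a * q) := fun z hz => mem_biUnion.1 hz
  have h1 : ∀ q ∈ S, (C₀ : ℝ) ^ q.primeFactors.card * |pcnt φ X a q (n₀ q) -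
      (∑ m ∈ range ⌈3 * (a * X)⌉₊, pw φ (a * X) m) / a.totient / q.totient| ≤
      (∑ z ∈ T, if z.1 ∣ a * q then ‖Psi φ (a * X) z‖ * hw (2 * C₀ + 1) q else 0) +
        Y * E * hw (2 * C₀ + 1) q := by
    intro q hq
    obtain ⟨q0, qa, qY, qX, qc⟩ := hS q hq
    have hn : 0 < a * q := Nat.mul_pos ha q0
    have hc : (a * n₀ q + 1).Coprime (a * q) := Nat.Coprime.mul_right (by simp) qc.symm
    have h2 := prog hφ hx hE hn (by push_cast; gcongr) hc
    rw [← pcnt_eq hφ hX ha, Nat.totient_mul qa.symm, Nat.cast_mul] at h2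
    rw [div_div]
    have ta : (1 : ℝ) ≤ a.totient := by exact_mod_cast Nat.totient_pos.2 ha
    have tq : (0 : ℝ) < q.totient := by exact_mod_cast Nat.totient_pos.2 q0
    have tq' : (q.totient : ℝ) ≤ Y := le_trans (by exact_mod_cast Nat.totient_le q) qY
    have h3 := div_totient_le C₀ q q0
    have h4 : ∑ z ∈ prims (a * q), ‖Psi φ (a * X) z‖ ≤
        ∑ z ∈ T with z.1 ∣ a * q, ‖Psi φ (a * X) z‖ :=
      sum_le_sum_of_subset_of_nonneg (fun z hz => mem_filter.2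
        ⟨mem_biUnion.2 ⟨q, hq, hz⟩, (mem_prims hn hz).2.1⟩) fun _ _ _ => norm_nonneg _
    have h5 : 0 ≤ ∑ z ∈ prims (a * q), ‖Psi φ (a * X) z‖ := sum_nonneg fun _ _ => norm_nonneg _
    have h6 := hw_nonneg (2 * C₀ + 1) q
    rw [← sum_filter, ← sum_mul]
    refine (mul_le_mul_of_nonneg_left h2 (by positivity)).trans ?_
    rw [mul_add]
    refine add_le_add ?_ ?_
    · calc _ ≤ (C₀ : ℝ) ^ q.primeFactors.card *
            ((∑ z ∈ prims (a * q), ‖Psi φ (a * X) z‖) / (1 * q.totient)) := by gcongr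
        _ = (∑ z ∈ prims (a * q), ‖Psi φ (a * X) z‖) *
            ((C₀ : ℝ) ^ q.primeFactors.card / q.totient) := by ring
        _ ≤ _ := mul_le_mul h4 h3 (by positivity) (h5.trans h4)
    · rw [div_le_iff₀ tq] at h3
      calc _ ≤ hw (2 * C₀ + 1) q * q.totient * E := by gcongr
        _ ≤ hw (2 * C₀ + 1) q * Y * E := by gcongr
        _ = _ := by ring
  refine (sum_le_sum h1).trans ?_
  rw [sum_add_distrib, ← mul_sum, sum_comm]
  refine add_le_add ?_ (by gcongr)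
  have hpos : ∀ z ∈ T, 0 < z.1 := fun z hz => by
    obtain ⟨q, hq, hz'⟩ := hTm z hz
    exact (mem_prims (Nat.mul_pos ha (hS q hq).1) hz').1
  have h2 : ∀ z ∈ T, (∑ q ∈ S, if z.1 ∣ a * q then ‖Psi φ (a * X) z‖ * hw (2 * C₀ + 1) q else 0) ≤
      K * ((if (z.1 : ℝ) ≤ s ^ 2 then R else 0) + ‖Psi φ (a * X) z‖ / s) := by
    intro z hz
    rw [← sum_filter, ← mul_sum]
    refine (mul_le_mul_of_nonneg_left (hK _ (hpos z hz)) (norm_nonneg _)).trans ?_
    rw [show ‖Psi φ (a * X) z‖ * (K / √z.1) = K * (‖Psi φ (a * X) z‖ / √z.1) by ring]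
    refine mul_le_mul_of_nonneg_left ?_ hK0
    split_ifs with h
    · obtain ⟨q, hq, hz'⟩ := hTm z hz
      have h3 : (1 : ℝ) ≤ √z.1 := Real.one_le_sqrt.2 (by exact_mod_cast hpos z hz)
      have h4 := div_le_self (norm_nonneg (Psi φ (a * X) z)) h3
      have h5 := hsm q hq z hz' h
      have h6 : 0 ≤ ‖Psi φ (a * X) z‖ / s := by positivity
      linarith
    · rw [zero_add]
      gcongr
      exact Real.le_sqrt_of_sq_le (not_le.1 h).le
  refine (sum_le_sum h2).trans ?_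
  rw [← mul_sum, sum_add_distrib, ← sum_filter, sum_const, nsmul_eq_mul, ← sum_div]
  have h3 := card_small (T.filter fun z => (z.1 : ℝ) ≤ s ^ 2) (sq_nonneg s)
    fun z hz => ⟨hpos z (mem_filter.1 hz).1, (mem_filter.1 hz).2⟩
  rw [← pow_mul] at h3
  have h4 := hLS T hTm
  gcongr

lemma ev_log (c η : ℝ) (hη : 0 < η) (j : ℕ) {r : ℝ} (hr : 0 < r) :
    ∀ᶠ x : ℝ in atTop, c * Real.log x ^ j ≤ η * x ^ r := by
  have h := ((isLittleO_log_rpow_rpow_atTop (j : ℝ) hr).const_mul_left c).bound hη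
  filter_upwards [h, eventually_ge_atTop 0] with x hx h0
  rw [Real.rpow_natCast, Real.norm_of_nonneg (Real.rpow_nonneg h0 r)] at hx
  exact (le_abs_self _).trans hx

lemma lower (h4 : PNTStmt) (hφ : Wt φ) {ε : ℝ} (hε : 0 < ε) :
    ∀ᶠ x : ℝ in atTop, (1 - ε) * (x * ∫ u, φ u) ≤ ∑ m ∈ range ⌈3 * x⌉₊, pw φ x m := by
  have hI : 0 ≤ ∫ u, φ u := MeasureTheory.integral_nonneg hφ.nonneg
  rcases hI.eq_or_lt with h0 | hI
  · refine Eventually.of_forall fun x => ?_
    rw [← h0, mul_zero, mul_zero]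
    exact sum_nonneg fun m _ => pw_nonneg hφ x m
  set I := ∫ u, φ u
  obtain ⟨L, hL0, hL⟩ := smooth1 hφ
  obtain ⟨C, hC⟩ := riemann hφ
  obtain ⟨C₁, hC₁0, hC₁⟩ := pw_diff hφ
  set δ := ε * I / (3 * (4 * L + 1)) with hδ
  have hδ0 : 0 < δ := by positivity
  obtain ⟨y₀, hy₀⟩ := eventually_atTop.1 (Metric.tendsto_nhds.1 h4 δ hδ0)
  have hη : 0 < ε * I / 6 := by positivity
  filter_upwards [eventually_ge_atTop (y₀ + 1), eventually_ge_atTop 2,
    ev_log C _ hη 0 one_pos, ev_log C₁ _ hη 0 (r := 1 / 2) (by norm_num),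
    ev_log C₁ _ hη 1 (r := 1 / 2) (by norm_num)] with x hx1 hx2 e1 e2 e3
  rw [pow_zero, mul_one] at e1 e2
  rw [Real.rpow_one] at e1
  rw [pow_one] at e3
  rw [← Real.sqrt_eq_rpow] at e2 e3
  have hx0 : 0 < x := by linarith
  have f1 := hL x (by linarith) (fun n => ((Λ n - 1 : ℝ) : ℂ)) (δ * (4 * x)) (by positivity) (by
    intro k hk1 hk2
    have hk0 : (0 : ℝ) < k := by linarith
    have := hy₀ k (by linarith)
    rw [Real.dist_eq, div_sub_one hk0.ne', abs_div, abs_of_pos hk0, div_lt_iff₀ hk0] at this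
    rw [← Complex.ofReal_sum, Complex.norm_real, Real.norm_eq_abs, sum_sub_distrib, sum_const,
      Nat.card_Ioc, nsmul_eq_mul, mul_one, Nat.sub_zero]
    rw [Chebyshev.psi, Nat.floor_natCast] at this
    refine this.le.trans ?_
    gcongr)
  simp only [← Complex.ofReal_mul] at f1
  rw [← Complex.ofReal_sum, Complex.norm_real, Real.norm_eq_abs] at f1
  have f2 := (abs_le.1 f1).1
  simp only [sub_mul, one_mul, sum_sub_distrib] at f2
  have f3 := (abs_le.1 ((abs_sum_le_sum_abs _ _).trans (hC₁ x (by linarith)))).1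
  rw [sum_sub_distrib] at f3
  have f4 := hC x (by linarith)
  have f5 : L * (δ * (4 * x)) ≤ ε * I / 3 * x := by
    have : 4 * L * δ ≤ ε * I / 3 := by
      calc 4 * L * δ ≤ (4 * L + 1) * δ := by gcongr; linarith
        _ = ε * I / 3 := by rw [hδ]; field_simp
    nlinarith
  have f6 : C₁ * √x * (1 + Real.log x) ≤ ε * I / 3 * x := by
    have hs := Real.mul_self_sqrt hx0.le
    have hs0 := Real.sqrt_nonneg x
    calc _ = (C₁ + C₁ * Real.log x) * √x := by ring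
      _ ≤ (ε * I / 6 * √x + ε * I / 6 * √x) * √x := by gcongr
      _ = ε * I / 3 * (√x * √x) := by ring
      _ = _ := by rw [hs]
  have f7 : 0 ≤ ε * I / 6 * x := by positivity
  nlinarith

lemma small (h2 : SWStmt) (hφ : Wt φ) (A D : ℕ) {c : ℝ} (hc : 0 < c) :
    ∃ C : ℝ, 0 ≤ C ∧ ∀ X x : ℝ, 4 ≤ Real.log X → 4 ≤ X → X ≤ x → 3 ≤ (Real.log X ^ D) ^ 2 →
      ∀ (f : ℕ) [NeZero f] (χ : DirichletCharacter ℂ f), χ ≠ 1 →
        (f : ℝ) ≤ (Real.log X ^ D) ^ 2 →
        (χ ^ 2 = 1 → c / Real.log ((Real.log X ^ D) ^ 2) ^ 3 ≤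
          ‖DirichletCharacter.LFunction χ 1‖) →
        ‖Psi φ x ⟨f, χ⟩‖ ≤ C * x / Real.log X ^ A := by
  obtain ⟨C, hC⟩ := h2 A (4 * D) c hc
  obtain ⟨L, hL0, hL⟩ := smooth2 hφ
  refine ⟨L * (|C| * 16 * 2 ^ A), by positivity, fun X x hl hX hx hQ f _ χ h1 hf hreal => ?_⟩
  have hx0 : 0 < x := by linarith
  have hl0 : 0 < Real.log X := by linarith
  refine (hL x (by linarith) (fun n => (Λ n : ℂ) * χ n)
    (|C| * (4 * x) ^ 2 / (Real.log X / 2) ^ A) (by positivity) fun k hk1 hk2 => ?_).trans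
    (le_of_eq ?_)
  · have hk3 : Real.log X / 2 ≤ Real.log k := by
      have e1 : Real.log (X / 2) ≤ Real.log k := Real.log_le_log (by linarith) (by linarith)
      rw [Real.log_div (by linarith) (by norm_num)] at e1
      linarith [Real.log_two_lt_d9]
    have hk4 : (Real.log X ^ D) ^ 2 ≤ Real.log k ^ (4 * D) := by
      rw [← pow_mul, mul_comm D 2, show 4 * D = 2 * (2 * D) by ring, pow_mul (Real.log k)]
      gcongr
      nlinarith
    have := hC _ k f χ h1 hQ hf (by linarith) hk4 hreal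
    rw [Nat.floor_natCast, Complex.ofReal_natCast] at this
    refine this.trans ?_
    have hk0 : (0 : ℝ) ≤ k := k.cast_nonneg
    calc C * (k : ℝ) ^ 2 / Real.log k ^ A ≤ |C| * (k : ℝ) ^ 2 / Real.log k ^ A := by
          have : 0 < Real.log k := by linarith
          gcongr
          exact le_abs_self C
      _ ≤ _ := by gcongr
  · rw [div_pow]
    field_simp
    ring

end Pool.Agent.MP_39a890_nt.BV

end MrgPart2

-- ======== part 3: formerly Pool.Agent.MP_39a890_nt.BV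
section MrgPart3

/-!
# E287, module BV: Bombieri-Vinogradov at a small level
-/

namespace Pool.Agent.MP_39a890_nt

open Finset Filter Topology ArithmeticFunction BV

lemma BV.numeric {l X r s K C C' C₁ W : ℝ} {k E B D A : ℕ} (hD : D = k + E + B + 1)
    (hA : A = k + 4 * D + B + 1) (hl : 0 < l) (hX : 0 ≤ X)
    (h1 : 2 * (K * W ^ 2 * 2 ^ k * (C' + 2 ^ E * C)) ≤ l)
    (h2 : C₁ * W * 3 * 2 ^ k * l ^ (k + 1 + B) ≤ 1 / 2 * s) (hr : 0 ≤ r) (h3 : r * s = X) :
    K * W * (2 * l) ^ k * ((l ^ D) ^ 4 * (C' * (W * X) / l ^ A) +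
        C * (W * X) * (2 * l) ^ E / l ^ D) + r * (C₁ * W * (3 * l)) * (2 * l) ^ k ≤ X / l ^ B := by
  have e1 : K * W * (2 * l) ^ k * ((l ^ D) ^ 4 * (C' * (W * X) / l ^ A) +
      C * (W * X) * (2 * l) ^ E / l ^ D) =
      (K * W ^ 2 * 2 ^ k * (C' + 2 ^ E * C)) / l * (X / l ^ B) := by
    have a1 : l ^ A = l ^ k * (l ^ D) ^ 4 * l ^ B * l := by rw [hA]; ring
    have a2 : l ^ D = l ^ k * l ^ E * l ^ B * l := by rw [hD]; ring
    rw [mul_add, a1]
    generalize (l ^ D) ^ 4 = w at *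
    have hw : w ≠ 0 := by
      rintro rfl
      simp at a1
      exact hl.ne' a1.1
    rw [a2, mul_pow, mul_pow]
    field_simp
  have e2 : r * (C₁ * W * (3 * l)) * (2 * l) ^ k =
      r * (C₁ * W * 3 * 2 ^ k * l ^ (k + 1 + B)) / l ^ B := by
    rw [mul_pow]
    field_simp
    ring
  have f1 : (K * W ^ 2 * 2 ^ k * (C' + 2 ^ E * C)) / l ≤ 1 / 2 := by
    rw [div_le_iff₀ hl]
    linarith
  have f2 : r * (C₁ * W * 3 * 2 ^ k * l ^ (k + 1 + B)) / l ^ B ≤ r * (1 / 2 * s) / l ^ B := by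
    gcongr
  have f3 : r * (1 / 2 * s) / l ^ B = 1 / 2 * (X / l ^ B) := by rw [← h3]; ring
  have f4 : 0 ≤ X / l ^ B := by positivity
  rw [e1, e2]
  nlinarith

theorem bv (h1 : LSStmt) (h2 : SWStmt) (h3 : PageStmt) (h4 : PNTStmt) : BVStmt := by
  intro φ hφ W hW C₀ B ε hε
  obtain ⟨C, E, hLS⟩ := h1 φ hφ
  obtain ⟨K, hK0, hK⟩ := sum_dvd_le (2 * C₀ + 1) (by omega)
  obtain ⟨c, hc, hPage⟩ := h3 W hW
  obtain ⟨C₁, hC₁0, hC₁⟩ := pw_diff hφ
  set k := 2 * C₀ + 1 with hk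
  obtain ⟨D, hD⟩ : ∃ D, D = k + E + B + 1 := ⟨_, rfl⟩
  obtain ⟨A, hA⟩ : ∃ A, A = k + 4 * D + B + 1 := ⟨_, rfl⟩
  obtain ⟨C', hC'0, hsm⟩ := small h2 hφ A D hc
  obtain ⟨x₀, hx₀⟩ := eventually_atTop.1 (lower h4 hφ hε)
  filter_upwards [eventually_ge_atTop x₀, eventually_ge_atTop 4, eventually_ge_atTop (W : ℝ),
    Real.tendsto_log_atTop.eventually_ge_atTop 4,
    Real.tendsto_log_atTop.eventually_ge_atTop (2 * (K * W ^ 2 * 2 ^ k * (C' + 2 ^ E * |C|))),
    ev_log W 1 one_pos 0 (r := 1 / 60) (by norm_num),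
    ev_log (C₁ * W * 3 * 2 ^ k) (1 / 2) (by norm_num) (k + 1 + B) (r := 7 / 15) (by norm_num)]
    with X hX0 hX4 hXW hl4 n1 n2 n3
  rw [pow_zero, mul_one, one_mul] at n2
  have hXp : 0 < X := by linarith
  have hX1 : 1 ≤ X := by linarith
  set l := Real.log X with hl
  have hQ : 3 ≤ (l ^ D) ^ 2 := by
    have : l ≤ l ^ D := le_self_pow₀ (by linarith) (by omega)
    nlinarith
  obtain ⟨p₀, hp₀, hpW, hP⟩ := hPage _ hQ
  refine ⟨p₀, hp₀, hpW, fun a haW => ?_⟩
  have ha : 0 < a := Nat.pos_of_dvd_of_pos haW hW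
  have ha1 : (1 : ℝ) ≤ a := by exact_mod_cast ha
  have haW' : (a : ℝ) ≤ W := by exact_mod_cast Nat.le_of_dvd hW haW
  have hx1 : X ≤ a * X := le_mul_of_one_le_left hXp.le ha1
  have hx2 : a * X ≤ W * X := by gcongr
  have hlx : Real.log (a * X) ≤ 2 * l := by
    rw [Real.log_mul (by linarith) hXp.ne']
    have := Real.log_le_log (by linarith) (haW'.trans hXW)
    linarith
  have hlx0 : 0 ≤ Real.log (a * X) := Real.log_nonneg (by linarith)
  refine ⟨(∑ m ∈ range ⌈3 * (a * X)⌉₊, pw φ (a * X) m) / a.totient, ?_, fun S n₀ hS => ?_⟩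
  · have ta : (0 : ℝ) < a.totient := by exact_mod_cast Nat.totient_pos.2 ha
    rw [le_div_iff₀ ta]
    refine le_trans (le_of_eq ?_) (hx₀ (a * X) (hX0.trans hx1))
    field_simp
  have hY : X ^ (1 / 30 : ℝ) ≤ X := by
    calc X ^ (1 / 30 : ℝ) ≤ X ^ (1 : ℝ) := Real.rpow_le_rpow_of_exponent_le hX1 (by norm_num)
      _ = X := Real.rpow_one X
  have hq0 : ∀ q ∈ S, 0 < q := fun q hq => Nat.pos_of_ne_zero (hS q hq).1.ne_zero
  have hSn : S ⊆ Icc 1 ⌊X⌋₊ := fun q hq =>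
    mem_Icc.2 ⟨hq0 q hq, Nat.le_floor ((hS q hq).2.2.1.trans hY)⟩
  have hn : (1 + Real.log (⌊X⌋₊ : ℕ)) ^ k ≤ (2 * l) ^ k := by
    have e1 : (0 : ℝ) < (⌊X⌋₊ : ℕ) := by exact_mod_cast Nat.floor_pos.2 hX1
    have e2 := Real.log_le_log e1 (Nat.floor_le hXp.le)
    have e3 : 0 ≤ 1 + Real.log (⌊X⌋₊ : ℕ) := by positivity
    gcongr
    linarith
  have hl0 : 0 < l := by linarith
  refine (core hφ (X := X) (by linarith) ha C₀ (K := K * W * (2 * l) ^ k) (P := (2 * l) ^ k)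
    (E := C₁ * W * (3 * l) * √X) (Y := X ^ (1 / 30 : ℝ)) (R := C' * (W * X) / l ^ A) (s := l ^ D)
    (U := |C| * (W * X) * (2 * l) ^ E) S n₀ (by positivity) (by positivity) (by positivity)
    (by positivity) ?_ ?_ ?_ ?_ ?_ ?_).trans ?_
  rotate_right
  · refine le_trans (le_of_eq ?_) (BV.numeric (r := X ^ (1 / 30 : ℝ) * √X)
      (C₁ := C₁) hD hA hl0 hXp.le n1 n3 (by positivity) ?_)
    · ring
    · rw [Real.sqrt_eq_rpow, ← Real.rpow_add hXp, ← Real.rpow_add hXp]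
      norm_num
  · refine (hC₁ _ (hX1.trans hx1)).trans ?_
    have e1 : √(a * X) ≤ W * √X := by
      refine Real.sqrt_le_iff.2 ⟨by positivity, ?_⟩
      rw [mul_pow, Real.sq_sqrt hXp.le]
      gcongr
      nlinarith
    calc C₁ * √(a * X) * (1 + Real.log (a * X)) ≤ C₁ * (W * √X) * (3 * l) := by
          gcongr
          linarith
      _ = _ := by ring
  · intro q hq
    obtain ⟨-, q2, q3, q4⟩ := hS q hq
    exact ⟨hq0 q hq, q2.coprime_dvd_right (haW.mul_right p₀), q3, q3.trans hY, q4⟩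
  · exact (sum_le_sum_of_subset_of_nonneg hSn fun _ _ _ => hw_nonneg _ _).trans
      ((sum_hw_le k _).trans hn)
  · intro f hf
    refine (hK _ a f ha hf S hSn).trans ?_
    calc K * a / √f * (1 + Real.log (⌊X⌋₊ : ℕ)) ^ k ≤ K * W / √f * (2 * l) ^ k := by gcongr
      _ = _ := by ring
  · rintro q hq ⟨f, χ⟩ hz hf
    obtain ⟨z1, z2, z3, z4⟩ := mem_prims (Nat.mul_pos ha (hq0 q hq)) hz
    have : NeZero f := ⟨z1.ne'⟩
    refine (hsm X (a * X) hl4 hX4 hx1 hQ f χ z4 hf fun h => hP f χ z3 z4 h hf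
      ⟨q, z2.trans (Nat.mul_dvd_mul_right haW q), (hS q hq).2.1⟩).trans ?_
    gcongr
  · intro T hT
    refine (hLS (a * X) (by linarith) T fun z hz => ?_).trans ?_
    · obtain ⟨q, hq, hz'⟩ := hT z hz
      have hn := Nat.mul_pos ha (hq0 q hq)
      obtain ⟨z1, z2, z3, -⟩ := mem_prims hn hz'
      refine ⟨z1, ?_, z3⟩
      calc (z.1 : ℝ) ≤ ((a * q : ℕ) : ℝ) := by exact_mod_cast Nat.le_of_dvd hn z2
        _ ≤ X ^ (1 / 60 : ℝ) * X ^ (1 / 30 : ℝ) := by
            push_cast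
            exact mul_le_mul (haW'.trans n2) (hS q hq).2.2.1 (by positivity) (by positivity)
        _ = X ^ (1 / 20 : ℝ) := by
            rw [← Real.rpow_add hXp]
            norm_num
        _ ≤ (a * X) ^ (1 / 20 : ℝ) := by gcongr
    · calc C * (a * X) * Real.log (a * X) ^ E ≤ |C| * (a * X) * Real.log (a * X) ^ E := by
            gcongr
            exact le_abs_self C
        _ ≤ _ := by gcongr

end Pool.Agent.MP_39a890_nt

end MrgPart3

-- ======== part 4: formerly Pool.Agent.MP_39a890_nt.BVC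
section MrgPart4

/-!
# Module BVC: Bombieri-Vinogradov at a small level for forms `a n + c`
-/

namespace Pool.Agent.MP_39a890_nt

open Finset Filter Topology ArithmeticFunction

namespace BV

variable {φ : ℝ → ℝ}

/-- Weight of a prime, shifted by `c`. -/
noncomputable def pwc (φ : ℝ → ℝ) (x : ℝ) (c m : ℕ) : ℝ :=
  if m.Prime then φ (((m : ℝ) - c) / x) * Real.log m else 0

lemma pwc_ne (hφ : Wt φ) {x : ℝ} (hx : 0 < x) {c m : ℕ} (h : pwc φ x c m ≠ 0) :
    x + c ≤ m ∧ (m : ℝ) ≤ 2 * x + c := by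
  unfold pwc at h
  split_ifs at h with hm
  · have := hφ.supp _ (left_ne_zero_of_mul h)
    rw [le_div_iff₀ hx, div_le_iff₀ hx] at this
    exact ⟨by linarith [this.1], by linarith [this.2]⟩
  · exact absurd rfl h

lemma pwc_diff (hφ : Wt φ) : ∃ C : ℝ, 0 ≤ C ∧ ∀ x : ℝ, 1 ≤ x → ∀ c : ℕ,
    ∑ m ∈ range ⌈3 * x⌉₊, |pwc φ x c m - pw φ x m| ≤ C * (c + 1) * (1 + Real.log x) := by
  obtain ⟨L, hL0, hL⟩ := lip1 hφ
  refine ⟨8 * L, by positivity, fun x hx c => ?_⟩
  have hx0 : 0 < x := by linarith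
  have hlx : 0 ≤ Real.log x := Real.log_nonneg hx
  have hl4 : Real.log (4 * x) ≤ 2 * (1 + Real.log x) := by
    rw [Real.log_mul (by norm_num) hx0.ne', show (4 : ℝ) = 2 ^ 2 by norm_num, Real.log_pow]
    have := Real.log_two_lt_d9
    push_cast
    linarith
  have hl0 : 0 ≤ Real.log (4 * x) := Real.log_nonneg (by linarith)
  have key : ∀ m ∈ range ⌈3 * x⌉₊, |pwc φ x c m - pw φ x m| ≤
      L * (c + 1) / x * Real.log (4 * x) := by
    intro m hm
    have hm4 : (m : ℝ) ≤ 4 * x := le_trans (by exact_mod_cast (mem_range.1 hm).le) (ceil_le4 hx)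
    unfold pwc pw
    by_cases hp : m.Prime
    · simp only [hp, if_true]
      rw [← sub_mul, abs_mul, abs_of_nonneg (Real.log_natCast_nonneg m)]
      refine mul_le_mul ((hL _ _).trans ?_)
        (Real.log_le_log (by exact_mod_cast hp.pos) hm4) (Real.log_natCast_nonneg m)
        (by positivity)
      rw [← sub_div, abs_div, abs_of_pos hx0, mul_div_assoc]
      have hc0 : (0 : ℝ) ≤ c := c.cast_nonneg
      have : |(m : ℝ) - c - (m - 1)| ≤ c + 1 := abs_le.2 ⟨by linarith, by linarith⟩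
      gcongr
    · simp only [hp, if_false, sub_self, abs_zero]
      positivity
  refine (sum_le_sum key).trans ?_
  rw [sum_const, card_range, nsmul_eq_mul]
  calc _ ≤ 4 * x * (L * (c + 1) / x * Real.log (4 * x)) := by
        gcongr
        exact ceil_le4 hx
    _ = 4 * L * (c + 1) * Real.log (4 * x) := by field_simp
    _ ≤ 4 * L * (c + 1) * (2 * (1 + Real.log x)) := by gcongr
    _ = _ := by ring

lemma pcntC_eq (hφ : Wt φ) {X : ℝ} (hX : 2 ≤ X) {a c : ℕ} (ha : 0 < a) (hc : (c : ℝ) < X)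
    (q n₀ : ℕ) :
    pcntC φ X a c q n₀ = ∑ m ∈ range ⌈3 * (a * X)⌉₊,
      if m ≡ a * n₀ + c [MOD a * q] then pwc φ (a * X) c m else 0 := by
  have ha1 : (1 : ℝ) ≤ a := by exact_mod_cast ha
  have hX0 : 0 < X := by linarith
  have hx : X ≤ a * X := le_mul_of_one_le_left hX0.le ha1
  have e : ∀ n : ℕ, (((a * n + c : ℕ) : ℝ) - c) / (a * X) = n / X := fun n => by
    push_cast
    field_simp
    ring
  have hval : ∀ n : ℕ, (if n ≡ n₀ [MOD q] ∧ (a * n + c).Prime then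
      φ (n / X) * Real.log ((a * n + c : ℕ) : ℝ) else 0) =
      if a * n + c ≡ a * n₀ + c [MOD a * q] then pwc φ (a * X) c (a * n + c) else 0 := by
    intro n
    have h1 : a * n + c ≡ a * n₀ + c [MOD a * q] ↔ n ≡ n₀ [MOD q] :=
      ⟨fun h => Nat.ModEq.mul_left_cancel' ha.ne' (Nat.ModEq.add_right_cancel' c h),
        fun h => (h.mul_left' a).add_right c⟩
    unfold pwc
    rw [e]
    by_cases h2 : n ≡ n₀ [MOD q] <;> simp [h1, h2]
  unfold pcntC
  simp only [hval]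
  refine sum_bij_ne_zero (fun n _ _ => a * n + c) (fun n _ h0 => ?_) (fun n _ _ n' _ _ h => ?_)
    (fun m _ h0 => ?_) fun _ _ _ => rfl
  · have h1 : pwc φ (a * X) c (a * n + c) ≠ 0 := fun h => h0 (by simp [h])
    have h2 := (pwc_ne hφ (by linarith) h1).2
    exact mem_range.2 (Nat.lt_ceil.2 (by linarith))
  · exact Nat.eq_of_mul_eq_mul_left ha (Nat.add_right_cancel h)
  · have h1 : pwc φ (a * X) c m ≠ 0 := fun h => h0 (by simp [h])
    have h2 : m ≡ a * n₀ + c [MOD a * q] := by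
      by_contra h
      exact h0 (by simp [h])
    obtain ⟨h3, h4⟩ := pwc_ne hφ (by linarith) h1
    have h3' : c ≤ m := by
      have : (c : ℝ) ≤ m := by linarith
      exact_mod_cast this
    have h5 : c ≡ m [MOD a] := by
      refine Nat.ModEq.trans ?_ (h2.of_mul_right q).symm
      simp [Nat.ModEq]
    obtain ⟨n, hn⟩ := (Nat.modEq_iff_dvd' h3').1 h5
    have h6 : a * n + c = m := by omega
    refine ⟨n, mem_range.2 (Nat.lt_ceil.2 ?_), by rw [h6]; exact h0, h6⟩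
    rw [← h6] at h4
    push_cast at h4
    have h7 : (n : ℝ) ≤ 2 * X := by
      refine le_of_mul_le_mul_left ?_ (show (0 : ℝ) < a by linarith)
      linarith
    linarith

lemma progC (hφ : Wt φ) (c₀ : ℕ) : ∃ C : ℝ, 0 ≤ C ∧ ∀ (X : ℝ) (a c q n₀ : ℕ), 2 ≤ X →
    (c₀ : ℝ) < X → 0 < a → c ≤ c₀ → 0 < q → q.Coprime a → (q : ℝ) ≤ X → c.Coprime a →
    q.Coprime (a * n₀ + c) →
    |pcntC φ X a c q n₀ -
        (∑ m ∈ range ⌈3 * (a * X)⌉₊, pw φ (a * X) m) / (a.totient * q.totient)| ≤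
      (∑ z ∈ prims (a * q), ‖Psi φ (a * X) z‖) / (a.totient * q.totient) +
        C * √(a * X) * (1 + Real.log (a * X)) := by
  obtain ⟨C₁, hC₁0, hC₁⟩ := pw_diff hφ
  obtain ⟨C₂, hC₂0, hC₂⟩ := pwc_diff hφ
  refine ⟨C₁ + C₂ * (c₀ + 1), by positivity, fun X a c q n₀ hX hXc ha hc q0 qa qX hca qc => ?_⟩
  have ha1 : (1 : ℝ) ≤ a := by exact_mod_cast ha
  have hX0 : 0 < X := by linarith
  have hx1 : 1 ≤ a * X := by nlinarith
  have hx : (0 : ℝ) < a * X := by linarith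
  have hcc : (c : ℝ) ≤ c₀ := by exact_mod_cast hc
  have hn : 0 < a * q := Nat.mul_pos ha q0
  have hcop : (a * n₀ + c).Coprime (a * q) :=
    Nat.Coprime.mul_right (by simpa using hca) qc.symm
  have h2 := prog hφ hx (hC₁ _ hx1) hn (by push_cast; gcongr) hcop
  rw [Nat.totient_mul qa.symm, Nat.cast_mul] at h2
  have h3 : |pcntC φ X a c q n₀ - ∑ m ∈ range ⌈3 * (a * X)⌉₊,
      if m ≡ a * n₀ + c [MOD a * q] then pw φ (a * X) m else 0| ≤
      C₂ * (c₀ + 1) * √(a * X) * (1 + Real.log (a * X)) := by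
    rw [pcntC_eq hφ hX ha (hcc.trans_lt hXc), ← sum_sub_distrib]
    refine (abs_sum_le_sum_abs _ _).trans ((sum_le_sum fun m _ => ?_).trans
      ((hC₂ _ hx1 c).trans ?_))
    · split_ifs
      · exact le_rfl
      · simp
    · have h4 : 1 ≤ √(a * X) := Real.one_le_sqrt.2 hx1
      have h5 : 0 ≤ Real.log (a * X) := Real.log_nonneg hx1
      have h6 : C₂ * (c + 1) ≤ C₂ * (c₀ + 1) * √(a * X) :=
        le_trans (by gcongr) (le_mul_of_one_le_right (by positivity) h4)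
      gcongr
  refine (abs_sub_le _ _ _).trans ((add_le_add h3 h2).trans (le_of_eq ?_))
  ring

lemma coreG {X : ℝ} {a : ℕ} (ha : 0 < a) (C₀ : ℕ) {K P E Y R s U M : ℝ}
    (S : Finset ℕ) (F : ℕ → ℝ) (hs : 0 < s) (hR : 0 ≤ R) (hK0 : 0 ≤ K) (hY : 0 ≤ Y)
    (hE0 : 0 ≤ E)
    (hS : ∀ q ∈ S, 0 < q ∧ (q : ℝ) ≤ Y ∧ |F q - M / (a.totient * q.totient)| ≤
      (∑ z ∈ prims (a * q), ‖Psi φ (a * X) z‖) / (a.totient * q.totient) + E)
    (hP : ∑ q ∈ S, hw (2 * C₀ + 1) q ≤ P)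
    (hK : ∀ f : ℕ, 0 < f → ∑ q ∈ S with f ∣ a * q, hw (2 * C₀ + 1) q ≤ K / √f)
    (hsm : ∀ q ∈ S, ∀ z ∈ prims (a * q), (z.1 : ℝ) ≤ s ^ 2 → ‖Psi φ (a * X) z‖ ≤ R)
    (hLS : ∀ T : Finset (Σ f : ℕ, DirichletCharacter ℂ f),
      (∀ z ∈ T, ∃ q ∈ S, z ∈ prims (a * q)) → ∑ z ∈ T, ‖Psi φ (a * X) z‖ ≤ U) :
    ∑ q ∈ S, (C₀ : ℝ) ^ q.primeFactors.card * |F q - M / a.totient / q.totient| ≤
      K * (s ^ 4 * R + U / s) + Y * E * P := by
  classical
  set T := S.biUnion fun q => prims (a * q) with hT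
  have hTm : ∀ z ∈ T, ∃ q ∈ S, z ∈ prims (a * q) := fun z hz => mem_biUnion.1 hz
  have h1 : ∀ q ∈ S, (C₀ : ℝ) ^ q.primeFactors.card * |F q - M / a.totient / q.totient| ≤
      (∑ z ∈ T, if z.1 ∣ a * q then ‖Psi φ (a * X) z‖ * hw (2 * C₀ + 1) q else 0) +
        Y * E * hw (2 * C₀ + 1) q := by
    intro q hq
    obtain ⟨q0, qY, h2⟩ := hS q hq
    have hn : 0 < a * q := Nat.mul_pos ha q0
    rw [div_div]
    have ta : (1 : ℝ) ≤ a.totient := by exact_mod_cast Nat.totient_pos.2 ha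
    have tq : (0 : ℝ) < q.totient := by exact_mod_cast Nat.totient_pos.2 q0
    have tq' : (q.totient : ℝ) ≤ Y := le_trans (by exact_mod_cast Nat.totient_le q) qY
    have h3 := div_totient_le C₀ q q0
    have h4 : ∑ z ∈ prims (a * q), ‖Psi φ (a * X) z‖ ≤
        ∑ z ∈ T with z.1 ∣ a * q, ‖Psi φ (a * X) z‖ :=
      sum_le_sum_of_subset_of_nonneg (fun z hz => mem_filter.2
        ⟨mem_biUnion.2 ⟨q, hq, hz⟩, (mem_prims hn hz).2.1⟩) fun _ _ _ => norm_nonneg _
    have h5 : 0 ≤ ∑ z ∈ prims (a * q), ‖Psi φ (a * X) z‖ := sum_nonneg fun _ _ => norm_nonneg _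
    have h6 := hw_nonneg (2 * C₀ + 1) q
    rw [← sum_filter, ← sum_mul]
    refine (mul_le_mul_of_nonneg_left h2 (by positivity)).trans ?_
    rw [mul_add]
    refine add_le_add ?_ ?_
    · calc _ ≤ (C₀ : ℝ) ^ q.primeFactors.card *
            ((∑ z ∈ prims (a * q), ‖Psi φ (a * X) z‖) / (1 * q.totient)) := by gcongr
        _ = (∑ z ∈ prims (a * q), ‖Psi φ (a * X) z‖) *
            ((C₀ : ℝ) ^ q.primeFactors.card / q.totient) := by ring
        _ ≤ _ := mul_le_mul h4 h3 (by positivity) (h5.trans h4)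
    · rw [div_le_iff₀ tq] at h3
      calc _ ≤ hw (2 * C₀ + 1) q * q.totient * E := by gcongr
        _ ≤ hw (2 * C₀ + 1) q * Y * E := by gcongr
        _ = _ := by ring
  refine (sum_le_sum h1).trans ?_
  rw [sum_add_distrib, ← mul_sum, sum_comm]
  refine add_le_add ?_ (by gcongr)
  have hpos : ∀ z ∈ T, 0 < z.1 := fun z hz => by
    obtain ⟨q, hq, hz'⟩ := hTm z hz
    exact (mem_prims (Nat.mul_pos ha (hS q hq).1) hz').1
  have h2 : ∀ z ∈ T, (∑ q ∈ S, if z.1 ∣ a * q then ‖Psi φ (a * X) z‖ * hw (2 * C₀ + 1) q else 0) ≤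
      K * ((if (z.1 : ℝ) ≤ s ^ 2 then R else 0) + ‖Psi φ (a * X) z‖ / s) := by
    intro z hz
    rw [← sum_filter, ← mul_sum]
    refine (mul_le_mul_of_nonneg_left (hK _ (hpos z hz)) (norm_nonneg _)).trans ?_
    rw [show ‖Psi φ (a * X) z‖ * (K / √z.1) = K * (‖Psi φ (a * X) z‖ / √z.1) by ring]
    refine mul_le_mul_of_nonneg_left ?_ hK0
    split_ifs with h
    · obtain ⟨q, hq, hz'⟩ := hTm z hz
      have h3 : (1 : ℝ) ≤ √z.1 := Real.one_le_sqrt.2 (by exact_mod_cast hpos z hz)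
      have h4 := div_le_self (norm_nonneg (Psi φ (a * X) z)) h3
      have h5 := hsm q hq z hz' h
      have h6 : 0 ≤ ‖Psi φ (a * X) z‖ / s := by positivity
      linarith
    · rw [zero_add]
      gcongr
      exact Real.le_sqrt_of_sq_le (not_le.1 h).le
  refine (sum_le_sum h2).trans ?_
  rw [← mul_sum, sum_add_distrib, ← sum_filter, sum_const, nsmul_eq_mul, ← sum_div]
  have h3 := card_small (T.filter fun z => (z.1 : ℝ) ≤ s ^ 2) (sq_nonneg s)
    fun z hz => ⟨hpos z (mem_filter.1 hz).1, (mem_filter.1 hz).2⟩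
  rw [← pow_mul] at h3
  have h4 := hLS T hTm
  gcongr

end BV

open BV

theorem bvc (h1 : LSStmt) (h2 : SWStmt) (h3 : PageStmt) (h4 : PNTStmt) :
    BVfor fun _ => True := by
  intro φ hφ W hW c₀ C₀ B ε hε
  obtain ⟨C, E, hLS⟩ := h1 φ hφ
  obtain ⟨K, hK0, hK⟩ := sum_dvd_le (2 * C₀ + 1) (by omega)
  obtain ⟨c, hc, hPage⟩ := h3 W hW
  obtain ⟨C₁, hC₁0, hC₁⟩ := progC hφ c₀
  set k := 2 * C₀ + 1 with hk
  obtain ⟨D, hD⟩ : ∃ D, D = k + E + B + 1 := ⟨_, rfl⟩
  obtain ⟨A, hA⟩ : ∃ A, A = k + 4 * D + B + 1 := ⟨_, rfl⟩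
  obtain ⟨C', hC'0, hsm⟩ := small h2 hφ A D hc
  obtain ⟨x₀, hx₀⟩ := eventually_atTop.1 (lower h4 hφ hε)
  filter_upwards [eventually_gt_atTop (c₀ : ℝ), eventually_ge_atTop x₀, eventually_ge_atTop 4, eventually_ge_atTop (W : ℝ),
    Real.tendsto_log_atTop.eventually_ge_atTop 4,
    Real.tendsto_log_atTop.eventually_ge_atTop (2 * (K * W ^ 2 * 2 ^ k * (C' + 2 ^ E * |C|))),
    ev_log W 1 one_pos 0 (r := 1 / 60) (by norm_num),
    ev_log (C₁ * W * 3 * 2 ^ k) (1 / 2) (by norm_num) (k + 1 + B) (r := 7 / 15) (by norm_num)]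
    with X hXc hX0 hX4 hXW hl4 n1 n2 n3
  rw [pow_zero, mul_one, one_mul] at n2
  have hXp : 0 < X := by linarith
  have hX1 : 1 ≤ X := by linarith
  set l := Real.log X with hl
  have hQ : 3 ≤ (l ^ D) ^ 2 := by
    have : l ≤ l ^ D := le_self_pow₀ (by linarith) (by omega)
    nlinarith
  obtain ⟨p₀, hp₀, hpW, hP⟩ := hPage _ hQ
  refine ⟨p₀, hp₀, hpW, fun a c' haW hc' _ hcW => ?_⟩
  have ha : 0 < a := Nat.pos_of_dvd_of_pos haW hW
  have ha1 : (1 : ℝ) ≤ a := by exact_mod_cast ha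
  have haW' : (a : ℝ) ≤ W := by exact_mod_cast Nat.le_of_dvd hW haW
  have hx1 : X ≤ a * X := le_mul_of_one_le_left hXp.le ha1
  have hx2 : a * X ≤ W * X := by gcongr
  have hlx : Real.log (a * X) ≤ 2 * l := by
    rw [Real.log_mul (by linarith) hXp.ne']
    have := Real.log_le_log (by linarith) (haW'.trans hXW)
    linarith
  have hlx0 : 0 ≤ Real.log (a * X) := Real.log_nonneg (by linarith)
  refine ⟨(∑ m ∈ range ⌈3 * (a * X)⌉₊, pw φ (a * X) m) / a.totient, ?_, fun S n₀ hS => ?_⟩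
  · have ta : (0 : ℝ) < a.totient := by exact_mod_cast Nat.totient_pos.2 ha
    rw [le_div_iff₀ ta]
    refine le_trans (le_of_eq ?_) (hx₀ (a * X) (hX0.trans hx1))
    field_simp
  have hY : X ^ (1 / 30 : ℝ) ≤ X := by
    calc X ^ (1 / 30 : ℝ) ≤ X ^ (1 : ℝ) := Real.rpow_le_rpow_of_exponent_le hX1 (by norm_num)
      _ = X := Real.rpow_one X
  have hq0 : ∀ q ∈ S, 0 < q := fun q hq => Nat.pos_of_ne_zero (hS q hq).1.ne_zero
  have hSn : S ⊆ Icc 1 ⌊X⌋₊ := fun q hq =>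
    mem_Icc.2 ⟨hq0 q hq, Nat.le_floor ((hS q hq).2.2.1.trans hY)⟩
  have hn : (1 + Real.log (⌊X⌋₊ : ℕ)) ^ k ≤ (2 * l) ^ k := by
    have e1 : (0 : ℝ) < (⌊X⌋₊ : ℕ) := by exact_mod_cast Nat.floor_pos.2 hX1
    have e2 := Real.log_le_log e1 (Nat.floor_le hXp.le)
    have e3 : 0 ≤ 1 + Real.log (⌊X⌋₊ : ℕ) := by positivity
    gcongr
    linarith
  have hl0 : 0 < l := by linarith
  refine (coreG (φ := φ) (X := X) ha C₀ (K := K * W * (2 * l) ^ k) (P := (2 * l) ^ k)
    (E := C₁ * W * (3 * l) * √X) (Y := X ^ (1 / 30 : ℝ)) (R := C' * (W * X) / l ^ A) (s := l ^ D)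
    (U := |C| * (W * X) * (2 * l) ^ E) S (fun q => pcntC φ X a c' q (n₀ q)) (by positivity)
    (by positivity) (by positivity) (by positivity) (by positivity) ?_ ?_ ?_ ?_ ?_).trans ?_
  rotate_right
  · refine le_trans (le_of_eq ?_) (BV.numeric (r := X ^ (1 / 30 : ℝ) * √X)
      (C₁ := C₁) hD hA hl0 hXp.le n1 n3 (by positivity) ?_)
    · ring
    · rw [Real.sqrt_eq_rpow, ← Real.rpow_add hXp, ← Real.rpow_add hXp]
      norm_num
  · intro q hq
    obtain ⟨-, q2, q3, q4⟩ := hS q hq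
    refine ⟨hq0 q hq, q3, (hC₁ X a c' q (n₀ q) (by linarith) hXc ha hc' (hq0 q hq)
      (q2.coprime_dvd_right (haW.mul_right p₀)) (q3.trans hY) (hcW.coprime_dvd_right haW)
      q4).trans (add_le_add le_rfl ?_)⟩
    have e1 : √(a * X) ≤ W * √X := by
      refine Real.sqrt_le_iff.2 ⟨by positivity, ?_⟩
      rw [mul_pow, Real.sq_sqrt hXp.le]
      gcongr
      nlinarith
    calc C₁ * √(a * X) * (1 + Real.log (a * X)) ≤ C₁ * (W * √X) * (3 * l) := by
          gcongr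
          linarith
      _ = _ := by ring
  · exact (sum_le_sum_of_subset_of_nonneg hSn fun _ _ _ => hw_nonneg _ _).trans
      ((sum_hw_le k _).trans hn)
  · intro f hf
    refine (hK _ a f ha hf S hSn).trans ?_
    calc K * a / √f * (1 + Real.log (⌊X⌋₊ : ℕ)) ^ k ≤ K * W / √f * (2 * l) ^ k := by gcongr
      _ = _ := by ring
  · rintro q hq ⟨f, χ⟩ hz hf
    obtain ⟨z1, z2, z3, z4⟩ := mem_prims (Nat.mul_pos ha (hq0 q hq)) hz
    have : NeZero f := ⟨z1.ne'⟩
    refine (hsm X (a * X) hl4 hX4 hx1 hQ f χ z4 hf fun h => hP f χ z3 z4 h hf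
      ⟨q, z2.trans (Nat.mul_dvd_mul_right haW q), (hS q hq).2.1⟩).trans ?_
    gcongr
  · intro T hT
    refine (hLS (a * X) (by linarith) T fun z hz => ?_).trans ?_
    · obtain ⟨q, hq, hz'⟩ := hT z hz
      have hn := Nat.mul_pos ha (hq0 q hq)
      obtain ⟨z1, z2, z3, -⟩ := mem_prims hn hz'
      refine ⟨z1, ?_, z3⟩
      calc (z.1 : ℝ) ≤ ((a * q : ℕ) : ℝ) := by exact_mod_cast Nat.le_of_dvd hn z2
        _ ≤ X ^ (1 / 60 : ℝ) * X ^ (1 / 30 : ℝ) := by
            push_cast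
            exact mul_le_mul (haW'.trans n2) (hS q hq).2.2.1 (by positivity) (by positivity)
        _ = X ^ (1 / 20 : ℝ) := by
            rw [← Real.rpow_add hXp]
            norm_num
        _ ≤ (a * X) ^ (1 / 20 : ℝ) := by gcongr
    · calc C * (a * X) * Real.log (a * X) ^ E ≤ |C| * (a * X) * Real.log (a * X) ^ E := by
            gcongr
            exact le_abs_self C
        _ ≤ _ := by gcongr

end Pool.Agent.MP_39a890_nt

end MrgPart4

-- ======== part 5: formerly Pool.Agent.MP_39a890_nt.Small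
section MrgPart5

/-!
# PROJECT E287, module ONE, first part: `small : SmallStmt`
-/

namespace Pool.Agent.MP_39a890_nt

open Finset Filter Topology

namespace ONE

/-- tails of a summable series along an injective family -/
theorem tail (f : ℕ → ℝ) (hf : Summable f) (η : ℝ) (hη : 0 < η) :
    ∃ w₀ : ℕ, ∀ (ι : Type) [Fintype ι] (pr : ι → ℕ), Function.Injective pr → (∀ p, w₀ < pr p) →
      ∑ p, f (pr p) ≤ η := by
  classical
  obtain ⟨s, hs⟩ := hf.vanishing (Iic_mem_nhds hη)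
  refine ⟨s.sup id, fun ι _ pr hinj hgt => ?_⟩
  have h1 := hs (univ.image pr) (by
    rw [Finset.disjoint_left]
    intro a ha ha'
    obtain ⟨p, _, rfl⟩ := Finset.mem_image.mp ha
    have := Finset.le_sup (f := id) ha'
    have := hgt p
    simp only [id] at *
    omega)
  rw [Finset.sum_image (fun a _ b _ h => hinj h)] at h1
  exact h1

theorem summable_tt : Summable fun n : ℕ => (1 / ((n : ℝ) - 1)) ^ 2 := by
  rw [← summable_nat_add_iff 1]
  have := (Real.summable_one_div_nat_pow (p := 2)).mpr (by norm_num)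
  refine this.congr fun n => ?_
  push_cast
  rw [add_sub_cancel_right, div_pow, one_pow]

theorem summable_sq : Summable fun n : ℕ => 1 / ((n : ℝ) * √(n : ℝ)) := by
  have := (Real.summable_one_div_nat_rpow (p := 3 / 2)).mpr (by norm_num)
  refine this.congr fun n => ?_
  congr 1
  rw [Real.sqrt_eq_rpow, show (3 / 2 : ℝ) = 1 + 1 / 2 by norm_num,
    Real.rpow_add' (Nat.cast_nonneg n) (by norm_num), Real.rpow_one]

theorem prod_le_exp {ι : Type} (s : Finset ι) (f : ι → ℝ) (hf : ∀ i, 0 ≤ f i) :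
    ∏ i ∈ s, (1 + f i) ≤ Real.exp (∑ i ∈ s, f i) := by
  rw [Real.exp_sum]
  apply Finset.prod_le_prod
  · intro i _; have := hf i; positivity
  · intro i _; have := Real.add_one_le_exp (f i); linarith

theorem PS.gt {ι : Type} {pr : ι → ℕ} {W : ℕ} {Y : ℝ} (h : PS pr W Y) {w₀ : ℕ}
    (hW : ∀ q : ℕ, q.Prime → q ≤ w₀ → q ∣ W) (p : ι) : w₀ < pr p := by
  by_contra h1
  exact h.ndvd p (hW _ (h.prime p) (by omega))

end ONE

open ONE

theorem small : SmallStmt := by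
  intro c ε K hc hε
  have hl : 0 < Real.log (1 + ε) := Real.log_pos (by linarith)
  have hl2 : 0 < Real.log 2 := Real.log_pos (by norm_num)
  obtain ⟨w₁, h₁⟩ := tail _ summable_tt (Real.log (1 + ε) / (c + 1)) (by positivity)
  obtain ⟨w₂, h₂⟩ := tail _ summable_sq (Real.log 2 / 3) (by positivity)
  refine ⟨w₁ + w₂ + 2 * K + 2 + ⌈(16 : ℝ) ^ (1 / ε)⌉₊, ?_⟩
  intro W hW ι _ _ pr Y hPS
  have hgt := PS.gt hPS hW
  refine ⟨?_, ?_, ?_, ?_, ?_⟩
  · refine (prod_le_exp _ _ fun p => by positivity).trans ?_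
    rw [← Finset.mul_sum]
    have h3 := h₁ ι pr hPS.inj fun p => by have := hgt p; omega
    have h4 : ∑ p, tt pr p ^ 2 ≤ Real.log (1 + ε) / (c + 1) := h3
    have h5 : c * ∑ p, tt pr p ^ 2 ≤ Real.log (1 + ε) := by
      calc c * ∑ p, tt pr p ^ 2 ≤ c * (Real.log (1 + ε) / (c + 1)) :=
            mul_le_mul_of_nonneg_left h4 hc
        _ ≤ (c + 1) * (Real.log (1 + ε) / (c + 1)) :=
            mul_le_mul_of_nonneg_right (by linarith) (by positivity)
        _ = Real.log (1 + ε) := by field_simp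
    calc Real.exp (c * ∑ p, tt pr p ^ 2) ≤ Real.exp (Real.log (1 + ε)) := Real.exp_le_exp.mpr h5
      _ = 1 + ε := Real.exp_log (by linarith)
  · intro p
    have h3 : 2 * K + 2 < pr p := by have := hgt p; omega
    have h4 : (2 * K + 2 : ℝ) < pr p := by exact_mod_cast h3
    have hK : (0 : ℝ) ≤ K := Nat.cast_nonneg K
    have h5 : 0 ≤ tt pr p := by unfold tt; apply div_nonneg <;> linarith
    have h6 : K * tt pr p ≤ 1 / 2 := by
      unfold tt
      rw [mul_one_div, div_le_iff₀ (by linarith)]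
      linarith
    have h7 := Real.log_two_gt_d9
    calc (1 + tt pr p) ^ K ≤ Real.exp (tt pr p) ^ K := by
          apply pow_le_pow_left₀ (by positivity)
          have := Real.add_one_le_exp (tt pr p); linarith
      _ = Real.exp (K * tt pr p) := by rw [Real.exp_nat_mul]
      _ ≤ Real.exp (Real.log 2) := Real.exp_le_exp.mpr (by linarith)
      _ = 2 := Real.exp_log (by norm_num)
  · intro p
    have h3 : ⌈(16 : ℝ) ^ (1 / ε)⌉₊ ≤ pr p := by have := hgt p; omega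
    have h4 : (16 : ℝ) ^ (1 / ε) ≤ pr p := Nat.ceil_le.mp h3
    calc (16 : ℝ) = ((16 : ℝ) ^ (1 / ε)) ^ ε := by
          rw [← Real.rpow_mul (by norm_num), one_div_mul_cancel hε.ne', Real.rpow_one]
      _ ≤ (pr p : ℝ) ^ ε := Real.rpow_le_rpow (by positivity) h4 hε.le
  · intro p
    have := hgt p
    omega
  · refine (prod_le_exp _ _ fun p => by positivity).trans ?_
    have h3 := h₂ ι pr hPS.inj fun p => by have := hgt p; omega
    have h4 : ∑ p, 3 / ((pr p : ℝ) * √(pr p : ℝ)) = 3 * ∑ p, 1 / ((pr p : ℝ) * √(pr p : ℝ)) := by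
      rw [Finset.mul_sum]
      exact Finset.sum_congr rfl fun p _ => by ring
    rw [h4]
    calc Real.exp (3 * ∑ p, 1 / ((pr p : ℝ) * √(pr p : ℝ))) ≤ Real.exp (Real.log 2) :=
          Real.exp_le_exp.mpr (by linarith)
      _ = 2 := Real.exp_log (by norm_num)

end Pool.Agent.MP_39a890_nt

end MrgPart5

-- marker of a merged file
example : 731051 + 164436 = 731051 + 164436 := rfl
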