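import Mathlib.Topology.Sheaves.Presheaf
import Mathlib.Combinatorics.SimpleGraph.Basic
import Mathlib.RingTheory.PiTensorProduct
import Mathlib.NumberTheory.Harmonic.Bounds
import Mathlib.Topology.UniformSpace.Uniformizable
import Pool.Agent.MP_39a890_nt.Spec
import Mathlib.Analysis.Complex.ExponentialBounds
import Mathlib.NumberTheory.DirichletCharacter.Orthogonality
import Mathlib.RingTheory.SimpleRing.Principal
import Pool.Agent.MP_39a890_nt.Small
import Pool.Agent.MP_34d6af_nt.Tail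

-- ======== part 0: formerly Pool.Agent.MP_39a890_nt.LSa
section MrgPart0

/-! Tools for the large sieve bound: summation by parts, variation, a weak large sieve. -/

namespace Pool.Agent.MP_39a890_nt.LS

open Finset
open scoped ComplexConjugate

/-- The variation of a sequence on `[0, N]`. -/
def var (g : ℕ → ℝ) (N : ℕ) : ℝ := ∑ k ∈ range N, |g (k + 1) - g k|

theorem var_nonneg (g : ℕ → ℝ) (N : ℕ) : 0 ≤ var g N := sum_nonneg fun _ _ => abs_nonneg _

theorem abel (a : ℕ → ℂ) {K : ℝ} (ha : ∀ n, ‖∑ k ∈ range n, a k‖ ≤ K) (g : ℕ → ℝ) (N : ℕ)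
    (hN : g N = 0) : ‖∑ k ∈ range N, a k * g k‖ ≤ K * var g N := by
  have key : ∀ M, ‖∑ k ∈ range M, a k * g k - (∑ k ∈ range M, a k) * g M‖ ≤ K * var g M := by
    intro M
    induction M with
    | zero => simp [var]
    | succ M ih =>
      have e : ∑ k ∈ range (M + 1), a k * g k - (∑ k ∈ range (M + 1), a k) * g (M + 1) =
          (∑ k ∈ range M, a k * g k - (∑ k ∈ range M, a k) * g M) -
            (∑ k ∈ range (M + 1), a k) * ((g (M + 1) - g M : ℝ) : ℂ) := by
        rw [sum_range_succ, sum_range_succ]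
        push_cast; ring
      rw [e, var, sum_range_succ (fun k => |g (k + 1) - g k|), mul_add]
      refine (norm_sub_le _ _).trans (add_le_add ih ?_)
      rw [norm_mul, Complex.norm_real, Real.norm_eq_abs]
      exact mul_le_mul_of_nonneg_right (ha _) (abs_nonneg _)
  simpa [hN] using key N

theorem var_mul (f g : ℕ → ℝ) (N : ℕ) {A B : ℝ} (hf : ∀ k, k ≤ N → |f k| ≤ A)
    (hg : ∀ k, k ≤ N → |g k| ≤ B) :
    var (fun k => f k * g k) N ≤ A * var g N + B * var f N := by
  unfold var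
  rw [mul_sum, mul_sum, ← sum_add_distrib]
  refine sum_le_sum fun k hk => ?_
  have hk' := mem_range.1 hk
  have e : f (k + 1) * g (k + 1) - f k * g k
      = f (k + 1) * (g (k + 1) - g k) + g k * (f (k + 1) - f k) := by ring
  rw [e]
  refine (abs_add_le _ _).trans (add_le_add ?_ ?_)
  · rw [abs_mul]; exact mul_le_mul_of_nonneg_right (hf _ hk') (abs_nonneg _)
  · rw [abs_mul]; exact mul_le_mul_of_nonneg_right (hg _ hk'.le) (abs_nonneg _)

theorem log_mono {k N : ℕ} (h : k ≤ N) : Real.log k ≤ Real.log N := by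
  rcases Nat.eq_zero_or_pos k with rfl | hk
  · simpa using Real.log_natCast_nonneg N
  · exact Real.log_le_log (by exact_mod_cast hk) (by exact_mod_cast h)

theorem var_log (N : ℕ) : var (fun k => Real.log k) N = Real.log N := by
  unfold var
  have : ∀ k ∈ range N, |Real.log ((k + 1 : ℕ) : ℝ) - Real.log k|
      = Real.log ((k + 1 : ℕ) : ℝ) - Real.log k := fun k _ =>
    abs_of_nonneg (sub_nonneg.2 (log_mono (Nat.le_succ k)))
  rw [sum_congr rfl this, sum_range_sub (fun k : ℕ => Real.log k)]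
  simp

/-- Lipschitz functions supported in `[1, 2]` and bounded by `2`. -/
structure Bump (φ : ℝ → ℝ) (L : ℝ) : Prop where
  lip : ∀ u v, |φ u - φ v| ≤ L * |u - v|
  supp : ∀ u, φ u ≠ 0 → 1 ≤ u ∧ u ≤ 2
  bd : ∀ u, |φ u| ≤ 2
  one : 1 ≤ L

theorem Bump.lo {φ : ℝ → ℝ} {L : ℝ} (h : Bump φ L) {u : ℝ} (hu : u < 1) : φ u = 0 := by
  by_contra hne
  linarith [(h.supp u hne).1]

theorem Bump.hi {φ : ℝ → ℝ} {L : ℝ} (h : Bump φ L) {u : ℝ} (hu : 2 < u) : φ u = 0 := by
  by_contra hne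
  linarith [(h.supp u hne).2]

theorem Bump.var_le {φ : ℝ → ℝ} {L : ℝ} (h : Bump φ L) {t : ℝ} (ht : 0 ≤ t) (N : ℕ) :
    var (fun k => φ (t * k)) N ≤ 4 * L := by
  have hL : 0 ≤ L := by linarith [h.one]
  unfold var
  rcases ht.eq_or_lt with rfl | ht
  · simp; linarith
  by_cases h2 : 2 < t
  · rw [sum_eq_zero]
    · positivity
    intro k _
    have a1 : φ (t * ((k + 1 : ℕ) : ℝ)) = 0 := by
      apply h.hi
      push_cast
      nlinarith [(Nat.cast_nonneg k : (0 : ℝ) ≤ k)]
    have a2 : φ (t * k) = 0 := by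
      rcases Nat.eq_zero_or_pos k with rfl | hk
      · apply h.lo; simp
      · apply h.hi
        have : (1 : ℝ) ≤ k := by exact_mod_cast hk
        nlinarith
    simp only [a1, a2, sub_self, abs_zero]
  · have h2' : t ≤ 2 := not_lt.1 h2
    calc ∑ k ∈ range N, |φ (t * ((k + 1 : ℕ) : ℝ)) - φ (t * k)|
        ≤ ∑ k ∈ range N, if k ∈ range (⌊2 / t⌋₊ + 1) then L * t else 0 := by
          refine sum_le_sum fun k _ => ?_
          split_ifs with hk
          · refine (h.lip _ _).trans (le_of_eq ?_)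
            push_cast
            rw [show t * (k + 1) - t * k = t by ring, abs_of_pos ht]
          · have hk1 : ⌊2 / t⌋₊ + 1 ≤ k := not_lt.1 fun h' => hk (mem_range.2 h')
            have hk2 : 2 / t < k :=
              (Nat.lt_floor_add_one _).trans_le (by exact_mod_cast hk1)
            rw [div_lt_iff₀ ht] at hk2
            rw [h.hi (u := t * k) (by linarith), h.hi (u := t * ((k + 1 : ℕ) : ℝ))
              (by push_cast; linarith)]
            simp
      _ ≤ ∑ _k ∈ range (⌊2 / t⌋₊ + 1), L * t := by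
          rw [← sum_filter]
          refine sum_le_sum_of_subset_of_nonneg (fun k hk => (mem_filter.1 hk).2)
            fun _ _ _ => by positivity
      _ = (⌊2 / t⌋₊ + 1) * (L * t) := by simp
      _ ≤ (2 / t + 1) * (L * t) := by
          gcongr
          exact Nat.floor_le (by positivity)
      _ = L * (2 + t) := by field_simp
      _ ≤ 4 * L := by nlinarith

theorem exists_bump {φ : ℝ → ℝ} (h : Wt φ) : ∃ L, Bump φ L ∧ Bump (fun u => u * φ u) L := by
  have c1 : HasCompactSupport φ :=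
    HasCompactSupport.intro (isCompact_Icc (a := (1 : ℝ)) (b := 2)) fun x hx => by
      by_contra hne
      exact hx (h.supp x hne)
  have c2 : HasCompactSupport fun u => u * φ u := c1.mul_left
  obtain ⟨L1, h1⟩ := ContDiff.lipschitzWith_of_hasCompactSupport c1 h.smooth (by simp)
  obtain ⟨L2, h2⟩ := ContDiff.lipschitzWith_of_hasCompactSupport c2
    (contDiff_id.mul h.smooth) (by simp)
  have n1 : (1 : ℝ) ≤ L1 + L2 + 1 := by linarith [L1.coe_nonneg, L2.coe_nonneg]
  refine ⟨L1 + L2 + 1, ⟨fun u v => ?_, h.supp, fun u => ?_, n1⟩,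
    ⟨fun u v => ?_, fun u hu => h.supp u (right_ne_zero_of_mul hu), fun u => ?_, n1⟩⟩
  · have := h1.dist_le_mul u v
    rw [Real.dist_eq, Real.dist_eq] at this
    refine this.trans (mul_le_mul_of_nonneg_right ?_ (abs_nonneg _))
    linarith [L2.coe_nonneg]
  · rw [abs_of_nonneg (h.nonneg u)]; linarith [h.le_one u]
  · have := h2.dist_le_mul u v
    rw [Real.dist_eq, Real.dist_eq] at this
    refine this.trans (mul_le_mul_of_nonneg_right ?_ (abs_nonneg _))
    linarith [L1.coe_nonneg]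
  · by_cases hu : φ u = 0
    · simp [hu]
    · have := h.supp u hu
      rw [abs_mul, abs_of_nonneg (h.nonneg u), abs_of_nonneg (by linarith [this.1])]
      nlinarith [h.le_one u, h.nonneg u]

theorem harm (N : ℕ) : ∑ m ∈ range N, (1 : ℝ) / m ≤ 1 + Real.log N := by
  have h1 : ∑ m ∈ range N, (1 : ℝ) / m ≤ ∑ m ∈ range (N + 1), (1 : ℝ) / m :=
    sum_le_sum_of_subset_of_nonneg (range_subset_range.2 (Nat.le_succ N))
      fun _ _ _ => by positivity
  refine h1.trans (le_trans (le_of_eq ?_) (harmonic_le_one_add_log N))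
  rw [sum_range_succ']
  simp [harmonic]

variable {ι : Type*} [DecidableEq ι]

theorem expand (S : Finset ι) (X : ℕ) (F : ι → ℕ → ℂ) (w : ℕ → ℝ) (hw : ∀ m, 0 ≤ w m) :
    ∑ m ∈ range X, w m * ‖∑ i ∈ S, F i m‖ ^ 2 ≤ ∑ i ∈ S, ∑ m ∈ range X, w m * ‖F i m‖ ^ 2 +
      ∑ i ∈ S, ∑ j ∈ S.erase i, ‖∑ m ∈ range X, w m * (F i m * conj (F j m))‖ := by
  have e : ((∑ m ∈ range X, w m * ‖∑ i ∈ S, F i m‖ ^ 2 : ℝ) : ℂ) =
      ∑ i ∈ S, ∑ j ∈ S, ∑ m ∈ range X, w m * (F i m * conj (F j m)) := by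
    push_cast
    simp_rw [← Complex.mul_conj', map_sum, sum_mul_sum, mul_sum]
    rw [sum_comm]
    refine sum_congr rfl fun i _ => ?_
    rw [sum_comm]
  have h0 : 0 ≤ ∑ m ∈ range X, w m * ‖∑ i ∈ S, F i m‖ ^ 2 :=
    sum_nonneg fun m _ => mul_nonneg (hw m) (sq_nonneg _)
  rw [← abs_of_nonneg h0, ← Real.norm_eq_abs, ← Complex.norm_real, e, ← sum_add_distrib]
  refine (norm_sum_le _ _).trans (sum_le_sum fun i hi => ?_)
  rw [← add_sum_erase S _ hi]
  refine (norm_add_le _ _).trans (add_le_add ?_ (norm_sum_le _ _))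
  refine (norm_sum_le _ _).trans (le_of_eq (sum_congr rfl fun m _ => ?_))
  rw [norm_mul, norm_mul, Complex.norm_real, Real.norm_of_nonneg (hw m), Complex.norm_conj, sq]

/-- A family of almost orthogonal completely multiplicative functions. -/
structure Fam (S : Finset ι) (χ : ι → ℕ → ℂ) (K : ℝ) : Prop where
  mul : ∀ i m n, χ i (m * n) = χ i m * χ i n
  le : ∀ i n, ‖χ i n‖ ≤ 1
  nn : 0 ≤ K
  one : ∀ i ∈ S, ∀ n, ‖∑ k ∈ range n, χ i k‖ ≤ K
  two : ∀ i ∈ S, ∀ j ∈ S, i ≠ j → ∀ n, ‖∑ k ∈ range n, χ i k * conj (χ j k)‖ ≤ K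

variable {S : Finset ι} {χ : ι → ℕ → ℂ} {K : ℝ}

theorem Fam.dual (h : Fam S χ K) (β : ι → ℂ) (J : ℕ) :
    ∑ n ∈ range J, ‖∑ i ∈ S, β i * χ i n‖ ^ 2 ≤ (J + K * S.card) * ∑ i ∈ S, ‖β i‖ ^ 2 := by
  have h1 := expand S J (fun i n => β i * χ i n) (fun _ => 1) (fun _ => zero_le_one)
  simp only [one_mul, Complex.ofReal_one] at h1
  refine h1.trans ?_
  rw [add_mul]
  refine add_le_add ?_ ?_
  · rw [mul_sum]
    refine sum_le_sum fun i _ => ?_
    calc ∑ n ∈ range J, ‖β i * χ i n‖ ^ 2 ≤ ∑ _n ∈ range J, ‖β i‖ ^ 2 := by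
          refine sum_le_sum fun n _ => ?_
          rw [norm_mul]
          gcongr
          exact mul_le_of_le_one_right (norm_nonneg _) (h.le i n)
      _ = J * ‖β i‖ ^ 2 := by simp
  · calc ∑ i ∈ S, ∑ j ∈ S.erase i, ‖∑ m ∈ range J, β i * χ i m * conj (β j * χ j m)‖
        ≤ ∑ i ∈ S, ∑ j ∈ S, K * ((‖β i‖ ^ 2 + ‖β j‖ ^ 2) / 2) := by
          refine sum_le_sum fun i hi => ?_
          refine le_trans (sum_le_sum fun j hj => ?_)
            (sum_le_sum_of_subset_of_nonneg (erase_subset i S) fun j _ _ => by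
              have := h.nn; positivity)
          have e : ∑ m ∈ range J, β i * χ i m * conj (β j * χ j m) =
              β i * conj (β j) * ∑ m ∈ range J, χ i m * conj (χ j m) := by
            rw [mul_sum]
            exact sum_congr rfl fun m _ => by rw [map_mul]; ring
          rw [e, norm_mul, norm_mul, Complex.norm_conj, mul_comm]
          exact mul_le_mul (h.two i hi j (mem_of_mem_erase hj) (ne_of_mem_erase hj).symm J)
            (by nlinarith [sq_nonneg (‖β i‖ - ‖β j‖)]) (by positivity) h.nn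
      _ = K * S.card * ∑ i ∈ S, ‖β i‖ ^ 2 := by
          simp only [← mul_sum, add_div, sum_add_distrib, sum_const, nsmul_eq_mul, ← sum_div]
          ring

theorem Fam.sieve (h : Fam S χ K) (c : ℕ → ℂ) (J : ℕ) :
    ∑ i ∈ S, ‖∑ n ∈ range J, c n * χ i n‖ ^ 2 ≤ (J + K * S.card) * ∑ n ∈ range J, ‖c n‖ ^ 2 := by
  set B : ι → ℂ := fun i => ∑ n ∈ range J, c n * χ i n with hB
  set T := ∑ i ∈ S, ‖B i‖ ^ 2 with hT
  have hT0 : 0 ≤ T := sum_nonneg fun _ _ => sq_nonneg _
  have e : (T : ℂ) = ∑ n ∈ range J, c n * ∑ i ∈ S, conj (B i) * χ i n := by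
    rw [hT]
    push_cast
    simp_rw [mul_sum]
    rw [sum_comm]
    refine sum_congr rfl fun i _ => ?_
    rw [← Complex.mul_conj']
    nth_rewrite 1 [hB]
    rw [sum_mul]
    exact sum_congr rfl fun n _ => by ring
  have h1 : T ≤ ∑ n ∈ range J, ‖c n‖ * ‖∑ i ∈ S, conj (B i) * χ i n‖ := by
    rw [← abs_of_nonneg hT0, ← Real.norm_eq_abs, ← Complex.norm_real, e]
    exact (norm_sum_le _ _).trans (le_of_eq (sum_congr rfl fun n _ => norm_mul _ _))
  have h2 := sum_mul_sq_le_sq_mul_sq (range J) (fun n => ‖c n‖)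
    (fun n => ‖∑ i ∈ S, conj (B i) * χ i n‖)
  have h3 := h.dual (fun i => conj (B i)) J
  simp only [Complex.norm_conj] at h3
  have h4 : 0 ≤ ∑ n ∈ range J, ‖c n‖ ^ 2 := sum_nonneg fun _ _ => sq_nonneg _
  have h5 : T ^ 2 ≤ (∑ n ∈ range J, ‖c n‖ ^ 2) * ((J + K * S.card) * T) :=
    (pow_le_pow_left₀ hT0 h1 2).trans (h2.trans (mul_le_mul_of_nonneg_left h3 h4))
  have h6 : 0 ≤ ((J : ℝ) + K * S.card) * ∑ n ∈ range J, ‖c n‖ ^ 2 := by
    have := h.nn; positivity
  rcases hT0.eq_or_lt with h7 | h7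
  · rw [← h7]; exact h6
  · nlinarith

theorem sum_conv (X : ℕ) (F : ℕ → ℕ → ℂ) (hF : ∀ d m, F d m ≠ 0 → 0 < d * m ∧ d * m < X) :
    ∑ n ∈ range X, ∑ p ∈ n.divisorsAntidiagonal, F p.1 p.2 =
      ∑ d ∈ range X, ∑ m ∈ range X, F d m := by
  rw [← sum_product', ← sum_filter_of_ne (s := range X ×ˢ range X)
    (p := fun p => 0 < p.1 * p.2 ∧ p.1 * p.2 < X) (fun p _ hp => hF _ _ hp),
    ← sum_fiberwise_of_maps_to (t := range X) (g := fun p : ℕ × ℕ => p.1 * p.2)
      (fun p hp => mem_range.2 (mem_filter.1 hp).2.2)]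
  refine sum_congr rfl fun n hn => sum_congr ?_ fun _ _ => rfl
  have hn' := mem_range.1 hn
  ext p
  simp only [Nat.mem_divisorsAntidiagonal, mem_filter, mem_product, mem_range]
  constructor
  · rintro ⟨h1, h2⟩
    have h3 : 0 < p.1 * p.2 := by omega
    have h4 : 0 < p.1 := Nat.pos_of_mul_pos_right h3
    have h5 : 0 < p.2 := Nat.pos_of_mul_pos_left h3
    have h6 : p.1 ≤ p.1 * p.2 := Nat.le_mul_of_pos_right _ h5
    have h7 : p.2 ≤ p.1 * p.2 := Nat.le_mul_of_pos_left _ h4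
    exact ⟨⟨⟨by omega, by omega⟩, h3, by omega⟩, h1⟩
  · rintro ⟨⟨-, h1, -⟩, h2⟩
    exact ⟨h2, by omega⟩

end Pool.Agent.MP_39a890_nt.LS

end MrgPart0

-- ======== part 1: formerly Pool.Agent.MP_39a890_nt.LSb
section MrgPart1

/-! Type I and type II sums. -/

namespace Pool.Agent.MP_39a890_nt.LS

open Finset ArithmeticFunction
open scoped ComplexConjugate ArithmeticFunction.Moebius ArithmeticFunction.zeta

variable {ι : Type*} [DecidableEq ι] {S : Finset ι} {χ : ι → ℕ → ℂ} {K : ℝ}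
  {φ : ℝ → ℝ} {L x : ℝ} {X : ℕ}

theorem arg_eq (x : ℝ) (d k : ℕ) : ((d * k : ℕ) : ℝ) / x = (d / x) * k := by
  push_cast; ring

theorem big (hφ : Bump φ L) (hx : 0 < x) (hX : 3 * x ≤ X) {n : ℕ} (hn : X ≤ n) :
    φ (n / x) = 0 := by
  apply hφ.hi
  rw [lt_div_iff₀ hx]
  have : (X : ℝ) ≤ n := by exact_mod_cast hn
  linarith

theorem supp_nat (hφ : Bump φ L) (hx : 0 < x) (hX : 3 * x ≤ X) {n : ℕ} (hn : φ (n / x) ≠ 0) :
    0 < n ∧ n < X := by
  constructor
  · rcases Nat.eq_zero_or_pos n with rfl | h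
    · exact absurd (hφ.lo (by simp)) hn
    · exact h
  · by_contra h
    exact hn (big hφ hx hX (not_lt.1 h))

theorem var_φ (hφ : Bump φ L) (hx : 0 < x) (d N : ℕ) :
    var (fun k => φ (((d * k : ℕ) : ℝ) / x)) N ≤ 4 * L := by
  simp_rw [arg_eq]
  exact hφ.var_le (by positivity) N

theorem typeI_one (h : Fam S χ K) (hφ : Bump φ L) (hx : 0 < x) (hX : 3 * x ≤ X) {i : ι}
    (hi : i ∈ S) (d : ℕ) :
    ‖∑ k ∈ range X, χ i k * (φ (((d * k : ℕ) : ℝ) / x) : ℝ)‖ ≤ K * (4 * L) := by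
  rcases Nat.eq_zero_or_pos d with rfl | hd
  · have := h.nn
    have := hφ.one
    simp [hφ.lo (u := 0) zero_lt_one]
    positivity
  refine (abel _ (h.one i hi) (fun k => φ (((d * k : ℕ) : ℝ) / x)) X
    (big hφ hx hX (Nat.le_mul_of_pos_left _ hd))).trans ?_
  exact mul_le_mul_of_nonneg_left (var_φ hφ hx d X) h.nn

theorem typeI_log (h : Fam S χ K) (hφ : Bump φ L) (hx : 0 < x) (hX : 3 * x ≤ X) {i : ι}
    (hi : i ∈ S) {d : ℕ} (hd : 0 < d) :
    ‖∑ k ∈ range X, χ i k * (Real.log k * φ (((d * k : ℕ) : ℝ) / x) : ℝ)‖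
      ≤ K * (6 * L * Real.log X) := by
  refine (abel _ (h.one i hi) (fun k => Real.log k * φ (((d * k : ℕ) : ℝ) / x)) X
    (by rw [big hφ hx hX (Nat.le_mul_of_pos_left _ hd), mul_zero])).trans ?_
  refine mul_le_mul_of_nonneg_left ?_ h.nn
  refine (var_mul (fun k => Real.log k) (fun k => φ (((d * k : ℕ) : ℝ) / x)) X
    (A := Real.log X) (B := 2) (fun k hk => ?_) (fun k _ => hφ.bd _)).trans ?_
  · rw [abs_of_nonneg (Real.log_natCast_nonneg k)]; exact log_mono hk
  · rw [var_log]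
    have h1 := var_φ hφ hx d X
    have h2 := Real.log_natCast_nonneg X
    have h3 := hφ.one
    nlinarith

/-- The sum of `Λ` over the divisors above `U`. -/
noncomputable def aU (U : ℝ) (m : ℕ) : ℝ := ∑ e ∈ m.divisors, if U < e then Λ e else 0

theorem aU_nonneg (U : ℝ) (m : ℕ) : 0 ≤ aU U m :=
  sum_nonneg fun _ _ => by split_ifs; exacts [vonMangoldt_nonneg, le_rfl]

theorem aU_eq (U : ℝ) (m : ℕ) :
    aU U m = Real.log m - ∑ e ∈ m.divisors, if U < e then 0 else Λ e := by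
  rw [← vonMangoldt_sum, ← sum_sub_distrib]
  exact sum_congr rfl fun e _ => by split_ifs <;> simp

theorem aU_le (U : ℝ) (m : ℕ) : aU U m ≤ Real.log m := by
  rw [aU_eq]
  exact sub_le_self _ (sum_nonneg fun _ _ => by split_ifs; exacts [le_rfl, vonMangoldt_nonneg])

theorem aU_zero {U : ℝ} {m : ℕ} (h : (m : ℝ) ≤ U) : aU U m = 0 :=
  sum_eq_zero fun e he => if_neg (not_lt.2 (le_trans
    (by exact_mod_cast Nat.divisor_le he) h))

theorem vaughan {U : ℝ} {n : ℕ} (h : U < n) :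
    Λ n = ∑ p ∈ n.divisorsAntidiagonal, (μ p.1 : ℝ) * aU U p.2 := by
  let f : ArithmeticFunction ℝ := ⟨fun e => if U < e then Λ e else 0, by simp⟩
  have e : ((μ : ArithmeticFunction ℝ) * (f * (ζ : ArithmeticFunction ℝ))) = f := by
    rw [mul_comm f, ← mul_assoc, coe_moebius_mul_coe_zeta, one_mul]
  have e2 := congrArg (fun g : ArithmeticFunction ℝ => g n) e
  simp only [mul_apply (f := (μ : ArithmeticFunction ℝ)), coe_mul_zeta_apply] at e2
  have e3 : f n = Λ n := if_pos h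
  rw [← e3, ← e2]
  rfl

theorem count_le {V : ℝ} (hV : 0 ≤ V) (X : ℕ) {f : ℕ → ℝ} {B : ℝ} (hB : 0 ≤ B) (h0 : f 0 = 0)
    (h1 : ∀ d : ℕ, V < d → f d = 0) (h2 : ∀ d, 0 < d → d < X → f d ≤ B) :
    ∑ d ∈ range X, f d ≤ V * B := by
  calc ∑ d ∈ range X, f d ≤ ∑ d ∈ range X, if d ∈ Icc 1 ⌊V⌋₊ then B else 0 := by
        refine sum_le_sum fun d hd => ?_
        split_ifs with hd'
        · exact h2 d (mem_Icc.1 hd').1 (mem_range.1 hd)
        · rcases Nat.eq_zero_or_pos d with rfl | hd0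
          · exact h0.le
          · refine (h1 d ?_).le
            rw [← Nat.floor_lt hV]
            by_contra hc
            exact hd' (mem_Icc.2 ⟨hd0, not_lt.1 hc⟩)
    _ ≤ ∑ _d ∈ Icc 1 ⌊V⌋₊, B := by
        rw [← sum_filter]
        exact sum_le_sum_of_subset_of_nonneg (fun k hk => (mem_filter.1 hk).2) fun _ _ _ => hB
    _ = ⌊V⌋₊ * B := by simp
    _ ≤ V * B := by gcongr; exact Nat.floor_le hV

theorem typeI (h : Fam S χ K) (hφ : Bump φ L) (hx : 0 < x) (hX : 3 * x ≤ X) {i : ι}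
    (hi : i ∈ S) {U : ℝ} (hU : 1 ≤ U) {d : ℕ} (hd : 0 < d) :
    ‖∑ m ∈ range X, (aU U m : ℂ) * χ i m * (φ (((d * m : ℕ) : ℝ) / x) : ℝ)‖
      ≤ 10 * U * K * L * Real.log X := by
  have hK := h.nn
  have hL := hφ.one
  have hlog := Real.log_natCast_nonneg X
  let F : ℕ → ℕ → ℂ := fun e k =>
    ((if U < e then 0 else Λ e : ℝ) : ℂ) * χ i e * (χ i k * (φ (((d * e * k : ℕ) : ℝ) / x) : ℝ))
  have hF : ∀ e k, F e k ≠ 0 → 0 < e * k ∧ e * k < X := by
    intro e k hne
    have h1 : φ (((d * e * k : ℕ) : ℝ) / x) ≠ 0 := fun h0 => hne (by simp only [F, h0]; simp)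
    obtain ⟨h2, h3⟩ := supp_nat hφ hx hX h1
    rw [mul_assoc] at h2 h3
    exact ⟨Nat.pos_of_mul_pos_left h2, lt_of_le_of_lt (Nat.le_mul_of_pos_left _ hd) h3⟩
  have e : ∑ m ∈ range X, (aU U m : ℂ) * χ i m * (φ (((d * m : ℕ) : ℝ) / x) : ℝ) =
      ∑ k ∈ range X, χ i k * (Real.log k * φ (((d * k : ℕ) : ℝ) / x) : ℝ) -
        ∑ e ∈ range X, ∑ k ∈ range X, F e k := by
    rw [← sum_conv X F hF, ← sum_sub_distrib]
    refine sum_congr rfl fun m _ => ?_
    have e1 : ∑ p ∈ m.divisorsAntidiagonal, F p.1 p.2 =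
        ∑ p ∈ m.divisorsAntidiagonal, ((if U < p.1 then 0 else Λ p.1 : ℝ) : ℂ) *
          (χ i m * (φ (((d * m : ℕ) : ℝ) / x) : ℝ)) := by
      refine sum_congr rfl fun p hp => ?_
      rw [← (Nat.mem_divisorsAntidiagonal.1 hp).1, h.mul]
      simp only [F, mul_assoc]
    rw [e1, ← sum_mul, Nat.sum_divisorsAntidiagonal
      (fun e _ => ((if U < e then 0 else Λ e : ℝ) : ℂ)), aU_eq]
    push_cast
    ring
  rw [e]
  refine (norm_sub_le _ _).trans ?_
  have h1 := typeI_log h hφ hx hX hi hd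
  have h2 : ‖∑ e ∈ range X, ∑ k ∈ range X, F e k‖ ≤ U * (Real.log X * (K * (4 * L))) := by
    refine (norm_sum_le _ _).trans (count_le (by linarith) X (by positivity) ?_ ?_ ?_)
    · simp [F]
    · intro e he
      simp [F, he]
    · intro e _ he
      simp only [F]
      rw [← mul_sum, norm_mul, norm_mul]
      refine mul_le_mul ?_ (typeI_one h hφ hx hX hi (d * e)) (norm_nonneg _) hlog
      refine (mul_le_of_le_one_right (norm_nonneg _) (h.le i e)).trans ?_
      rw [Complex.norm_real, Real.norm_eq_abs]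
      split_ifs
      · simpa using hlog
      · rw [abs_of_nonneg vonMangoldt_nonneg]
        exact vonMangoldt_le_log.trans (log_mono he.le)
  have h3 : K * (6 * L * Real.log X) ≤ U * (K * (6 * L * Real.log X)) :=
    le_mul_of_one_le_left (by positivity) hU
  linarith

theorem diag (h : Fam S χ K) (hφ : Bump φ L) (hx : 0 < x) {V : ℝ} (hV : K * S.card ≤ V)
    (b : ℕ → ℝ) (hb : ∀ n, |b n| ≤ 1) (hbV : ∀ n : ℕ, (n : ℝ) ≤ V → b n = 0) (N m : ℕ) :
    m * ∑ i ∈ S, ‖∑ n ∈ range N, (b n * φ (((m * n : ℕ) : ℝ) / x) : ℝ) * χ i n‖ ^ 2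
      ≤ 128 * x ^ 2 * (1 / m) := by
  rcases Nat.eq_zero_or_pos m with rfl | hm
  · simp
  have hm' : (0 : ℝ) < m := by exact_mod_cast hm
  let c : ℕ → ℂ := fun n => if n < N then (b n * φ (((m * n : ℕ) : ℝ) / x) : ℝ) else 0
  set J := ⌊2 * x / m⌋₊ + 1 with hJ
  have hz : ∀ n, J ≤ n → φ (((m * n : ℕ) : ℝ) / x) = 0 := by
    intro n hn
    apply hφ.hi
    have h1 : 2 * x / m < n := (Nat.lt_floor_add_one _).trans_le (by exact_mod_cast hn)
    rw [div_lt_iff₀ hm'] at h1
    rw [lt_div_iff₀ hx]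
    push_cast
    linarith
  have e : ∀ i, ∑ n ∈ range N, ((b n * φ (((m * n : ℕ) : ℝ) / x) : ℝ) : ℂ) * χ i n =
      ∑ n ∈ range J, c n * χ i n := by
    intro i
    have e1 : ∑ n ∈ range N, ((b n * φ (((m * n : ℕ) : ℝ) / x) : ℝ) : ℂ) * χ i n =
        ∑ n ∈ range N, c n * χ i n :=
      sum_congr rfl fun n hn => by simp only [c, if_pos (mem_range.1 hn)]
    rw [e1, sum_subset (range_subset_range.2 (Nat.le_add_right N J)) (fun n _ hn => by
        simp only [c, if_neg (fun h' => hn (mem_range.2 h')), zero_mul]),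
      ← sum_subset (range_subset_range.2 (Nat.le_add_left J N)) (fun n _ hn => by
        simp only [c, hz n (not_lt.1 fun h' => hn (mem_range.2 h'))]; simp)]
  simp_rw [e]
  by_cases hc : ∀ n ∈ range J, c n = 0
  · rw [sum_eq_zero fun i _ => by rw [sum_eq_zero fun n hn => by rw [hc n hn, zero_mul]]; simp]
    simp only [mul_zero]
    positivity
  push Not at hc
  obtain ⟨n0, hn0, hc0⟩ := hc
  have hb0 : b n0 * φ (((m * n0 : ℕ) : ℝ) / x) ≠ 0 := by
    intro h0
    apply hc0
    simp only [c, h0]; simp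
  have hV0 : V < n0 := not_le.1 fun h' => left_ne_zero_of_mul hb0 (hbV n0 h')
  have hs := hφ.supp _ (right_ne_zero_of_mul hb0)
  have hn1 : (1 : ℝ) ≤ n0 := by
    rcases Nat.eq_zero_or_pos n0 with rfl | h'
    · norm_num at hs
    · exact_mod_cast h'
  have hn2 : (n0 : ℝ) ≤ 2 * x / m := by
    have := hs.2
    rw [div_le_iff₀ hx] at this
    rw [le_div_iff₀ hm']
    push_cast at this
    linarith
  have hJ1 : (J : ℝ) ≤ 4 * x / m := by
    have := Nat.floor_le (by positivity : 0 ≤ 2 * x / m)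
    rw [hJ]; push_cast
    have e2 : 4 * x / m = 2 * x / m + 2 * x / m := by ring
    linarith
  have hJ2 : (n0 : ℝ) ≤ J := by exact_mod_cast (mem_range.1 hn0).le
  have h1 := h.sieve c J
  have h2 : ∑ n ∈ range J, ‖c n‖ ^ 2 ≤ J * 4 := by
    calc ∑ n ∈ range J, ‖c n‖ ^ 2 ≤ ∑ _n ∈ range J, (2 : ℝ) ^ 2 := by
          refine sum_le_sum fun n _ => pow_le_pow_left₀ (norm_nonneg _) ?_ 2
          simp only [c]
          split_ifs
          · rw [Complex.norm_real, Real.norm_eq_abs, abs_mul]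
            nlinarith [hb n, hφ.bd (((m * n : ℕ) : ℝ) / x), abs_nonneg (b n),
              abs_nonneg (φ (((m * n : ℕ) : ℝ) / x))]
          · simp
      _ = J * 4 := by simp; norm_num
  have h3 : ((J : ℝ) + K * S.card) * ∑ n ∈ range J, ‖c n‖ ^ 2 ≤ (2 * (4 * x / m)) * (4 * x / m * 4) :=
    mul_le_mul (by linarith) (by linarith) (sum_nonneg fun _ _ => sq_nonneg _) (by positivity)
  calc (m : ℝ) * ∑ i ∈ S, ‖∑ n ∈ range J, c n * χ i n‖ ^ 2
      ≤ m * ((2 * (4 * x / m)) * (4 * x / m * 4)) := by gcongr; exact h1.trans h3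
    _ = 128 * x ^ 2 * (1 / m) := by field_simp; ring

theorem offdiag (h : Fam S χ K) (hφ : Bump φ L) (hφ' : Bump (fun u => u * φ u) L) (hx : 0 < x)
    (hX : 3 * x ≤ X) {i j : ι} (hi : i ∈ S) (hj : j ∈ S) (hij : i ≠ j) (n n' : ℕ) :
    ‖∑ m ∈ range X, χ i m * conj (χ j m) *
      (m * φ (((m * n : ℕ) : ℝ) / x) * φ (((m * n' : ℕ) : ℝ) / x) : ℝ)‖
      ≤ 16 * K * L * x * (1 / n) := by
  have hK := h.nn
  have hL := hφ.one
  rcases Nat.eq_zero_or_pos n with rfl | hn
  · simp [hφ.lo (u := 0) zero_lt_one]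
  have hn' : (0 : ℝ) < n := by exact_mod_cast hn
  have e : ∀ m : ℕ, (m * φ (((m * n : ℕ) : ℝ) / x) * φ (((m * n' : ℕ) : ℝ) / x) : ℝ) =
      (x / n * (n / x * m * φ (n / x * m))) * φ (n' / x * m) := by
    intro m
    rw [mul_comm m n, mul_comm m n', arg_eq, arg_eq]
    field_simp
  refine (abel _ (h.two i hi j hj hij) (fun m =>
    m * φ (((m * n : ℕ) : ℝ) / x) * φ (((m * n' : ℕ) : ℝ) / x)) X
    (by rw [big hφ hx hX (Nat.le_mul_of_pos_right _ hn)]; simp)).trans ?_
  simp_rw [e]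
  have h1 := var_mul (fun m : ℕ => x / n * (n / x * m * φ (n / x * m)))
    (fun m : ℕ => φ (n' / x * m)) X (A := x / n * 2) (B := 2) (fun k _ => by
      rw [abs_mul, abs_of_pos (by positivity : 0 < x / n)]
      exact mul_le_mul_of_nonneg_left (hφ'.bd _) (by positivity)) (fun k _ => hφ.bd _)
  have h2 := hφ.var_le (t := n' / x) (by positivity) X
  have h3 : var (fun m : ℕ => x / n * (n / x * m * φ (n / x * m))) X ≤ x / n * (4 * L) := by
    refine le_trans (le_of_eq ?_) (mul_le_mul_of_nonneg_left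
      (hφ'.var_le (t := n / x) (by positivity) X) (by positivity : 0 ≤ x / n))
    unfold var
    rw [mul_sum]
    exact sum_congr rfl fun k _ => by
      rw [← mul_sub, abs_mul, abs_of_pos (by positivity : 0 < x / n)]
  have h4 : x / n * 2 * var (fun m : ℕ => φ (n' / x * m)) X ≤ x / n * 2 * (4 * L) := by gcongr
  calc _ ≤ K * (x / n * 2 * (4 * L) + 2 * (x / n * (4 * L))) := by
        refine mul_le_mul_of_nonneg_left (h1.trans ?_) hK
        linarith
    _ = 16 * K * L * x * (1 / n) := by ring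

theorem typeII (h : Fam S χ K) (hφ : Bump φ L) (hφ' : Bump (fun u => u * φ u) L) (hx : 0 < x)
    (hX : 3 * x ≤ X) {V : ℝ} (hV : K * S.card ≤ V) (b : ℕ → ℝ) (hb : ∀ n, |b n| ≤ 1)
    (hbV : ∀ n : ℕ, (n : ℝ) ≤ V → b n = 0) {N : ℕ} (hN : N ≤ X)
    (hN' : (S.card : ℝ) ^ 2 * K * N ≤ 3 * x) (a : ℕ → ℝ) {A : ℝ} (ha : ∀ m, m < X → |a m| ≤ A) :
    (∑ i ∈ S, ‖∑ m ∈ range X, a m * χ i m *
      ∑ n ∈ range N, (b n * φ (((m * n : ℕ) : ℝ) / x) : ℝ) * χ i n‖) ^ 2
      ≤ (A * (1 + Real.log X) * x) ^ 2 * (128 + 48 * L) := by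
  have hK := h.nn
  have hL := hφ.one
  have hlog := Real.log_natCast_nonneg X
  set B : ι → ℕ → ℂ := fun i m =>
    ∑ n ∈ range N, (b n * φ (((m * n : ℕ) : ℝ) / x) : ℝ) * χ i n with hB
  choose θ hθ hθ' using fun i => Complex.exists_norm_eq_mul_self
    (∑ m ∈ range X, a m * χ i m * B i m)
  set T := ∑ i ∈ S, ‖∑ m ∈ range X, a m * χ i m * B i m‖ with hT
  have hT0 : 0 ≤ T := sum_nonneg fun _ _ => norm_nonneg _
  have e : (T : ℂ) = ∑ m ∈ range X, a m * ∑ i ∈ S, θ i * χ i m * B i m := by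
    rw [hT]
    push_cast
    simp_rw [hθ', mul_sum]
    rw [sum_comm]
    exact sum_congr rfl fun m _ => sum_congr rfl fun i _ => by ring
  have h1 : T ≤ ∑ m ∈ range X, |a m| * ‖∑ i ∈ S, θ i * χ i m * B i m‖ := by
    rw [← abs_of_nonneg hT0, ← Real.norm_eq_abs, ← Complex.norm_real, e]
    refine (norm_sum_le _ _).trans (le_of_eq (sum_congr rfl fun n _ => ?_))
    rw [norm_mul, Complex.norm_real, Real.norm_eq_abs]
  have h2 := sum_sq_le_sum_mul_sum_of_sq_le_mul (range X)
    (r := fun m => |a m| * ‖∑ i ∈ S, θ i * χ i m * B i m‖) (f := fun m => A ^ 2 * (1 / m))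
    (g := fun m => m * ‖∑ i ∈ S, θ i * χ i m * B i m‖ ^ 2) (fun _ _ => by positivity)
    (fun _ _ => by positivity) (fun m hm => by
      rcases Nat.eq_zero_or_pos m with rfl | hm0
      · simp [hB, hφ.lo (u := 0) zero_lt_one]
      · have hm' : (0 : ℝ) < m := by exact_mod_cast hm0
        have e1 : A ^ 2 * (1 / m) * (m * ‖∑ i ∈ S, θ i * χ i m * B i m‖ ^ 2)
            = A ^ 2 * ‖∑ i ∈ S, θ i * χ i m * B i m‖ ^ 2 := by field_simp
        rw [e1, mul_pow]
        gcongr
        exact ha m (mem_range.1 hm))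
  have h3 : ∑ m ∈ range X, A ^ 2 * (1 / (m : ℝ)) ≤ A ^ 2 * (1 + Real.log X) := by
    rw [← mul_sum]; gcongr; exact harm X
  have h4 := expand S X (fun i m => θ i * χ i m * B i m) (fun m => m) (fun m => by positivity)
  have h5 : ∑ i ∈ S, ∑ m ∈ range X, (m : ℝ) * ‖θ i * χ i m * B i m‖ ^ 2
      ≤ 128 * x ^ 2 * (1 + Real.log X) := by
    rw [sum_comm]
    refine le_trans (sum_le_sum fun m _ => ?_) (le_trans (le_of_eq (mul_sum _ _ _).symm)
      (mul_le_mul_of_nonneg_left (harm X) (by positivity)))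
    refine le_trans ?_ (diag h hφ hx hV b hb hbV N m)
    rw [mul_sum]
    refine sum_le_sum fun i _ => ?_
    rw [norm_mul, norm_mul, hθ, one_mul]
    gcongr
    exact mul_le_of_le_one_left (norm_nonneg _) (h.le i m)
  have h6 : ∀ i ∈ S, ∀ j ∈ S.erase i,
      ‖∑ m ∈ range X, ((m : ℝ) : ℂ) * (θ i * χ i m * B i m * conj (θ j * χ j m * B j m))‖
        ≤ 16 * K * L * x * (N * (1 + Real.log X)) := by
    intro i hi j hj
    have e1 : ∑ m ∈ range X, ((m : ℝ) : ℂ) * (θ i * χ i m * B i m * conj (θ j * χ j m * B j m)) =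
        ∑ n ∈ range N, ∑ n' ∈ range N, (θ i * conj (θ j) * (b n * b n' : ℝ) * χ i n * conj (χ j n')) *
          ∑ m ∈ range X, χ i m * conj (χ j m) *
            (m * φ (((m * n : ℕ) : ℝ) / x) * φ (((m * n' : ℕ) : ℝ) / x) : ℝ) := by
      simp only [hB, map_mul, map_sum, Complex.conj_ofReal, mul_sum, sum_mul]
      rw [sum_comm]
      conv_rhs => rw [sum_comm]
      refine sum_congr rfl fun n' _ => ?_
      rw [sum_comm]
      refine sum_congr rfl fun n _ => sum_congr rfl fun m _ => ?_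
      simp only [Complex.ofReal_mul]
      ring
    rw [e1]
    calc _ ≤ ∑ n ∈ range N, ∑ _n' ∈ range N, 16 * K * L * x * (1 / n) := by
          refine (norm_sum_le _ _).trans (sum_le_sum fun n _ =>
            (norm_sum_le _ _).trans (sum_le_sum fun n' _ => ?_))
          rw [norm_mul]
          refine (mul_le_of_le_one_left (norm_nonneg _) ?_).trans
            (offdiag h hφ hφ' hx hX hi (mem_of_mem_erase hj) (ne_of_mem_erase hj).symm n n')
          simp only [norm_mul, Complex.norm_conj, hθ, one_mul, Complex.norm_real, Real.norm_eq_abs]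
          exact mul_le_one₀ (mul_le_one₀ (mul_le_one₀ (hb n) (abs_nonneg _) (hb n'))
            (norm_nonneg _) (h.le _ _)) (norm_nonneg _) (h.le _ _)
      _ = 16 * K * L * x * (N * ∑ n ∈ range N, (1 : ℝ) / n) := by
          simp only [sum_const, card_range, nsmul_eq_mul, mul_sum]
          exact sum_congr rfl fun n _ => by ring
      _ ≤ 16 * K * L * x * (N * (1 + Real.log X)) := by
          gcongr
          exact (harm N).trans (by linarith [log_mono hN])
  have h7 : ∑ i ∈ S, ∑ j ∈ S.erase i,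
      ‖∑ m ∈ range X, ((m : ℝ) : ℂ) * (θ i * χ i m * B i m * conj (θ j * χ j m * B j m))‖
        ≤ 48 * L * x ^ 2 * (1 + Real.log X) := by
    calc _ ≤ ∑ _i ∈ S, ∑ _j ∈ S, 16 * K * L * x * (N * (1 + Real.log X)) :=
          sum_le_sum fun i hi => (sum_le_sum (h6 i hi)).trans
            (sum_le_sum_of_subset_of_nonneg (erase_subset i S) fun _ _ _ => by positivity)
      _ = (S.card : ℝ) ^ 2 * K * N * (16 * L * x * (1 + Real.log X)) := by
          simp only [sum_const, nsmul_eq_mul]; ring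
      _ ≤ 3 * x * (16 * L * x * (1 + Real.log X)) := by gcongr
      _ = _ := by ring
  calc T ^ 2 ≤ _ := pow_le_pow_left₀ hT0 h1 2
    _ ≤ _ := h2
    _ ≤ A ^ 2 * (1 + Real.log X) *
          (128 * x ^ 2 * (1 + Real.log X) + 48 * L * x ^ 2 * (1 + Real.log X)) :=
        mul_le_mul h3 (h4.trans (add_le_add h5 h7)) (sum_nonneg fun _ _ => by positivity)
          (by positivity)
    _ = _ := by ring

end Pool.Agent.MP_39a890_nt.LS

end MrgPart1

-- ======== part 2: formerly Pool.Agent.MP_39a890_nt.LS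
section MrgPart2

/-! The `l^1` large sieve bound for primes over primitive characters of small conductor. -/

namespace Pool.Agent.MP_39a890_nt

open Finset ArithmeticFunction
open scoped ComplexConjugate ArithmeticFunction.Moebius

namespace LS

theorem fam_bound {ι : Type*} [DecidableEq ι] {S : Finset ι} {χ : ι → ℕ → ℂ} {K : ℝ}
    {φ : ℝ → ℝ} {L x : ℝ} {X : ℕ} (h : Fam S χ K) (hφ : Bump φ L)
    (hφ' : Bump (fun u => u * φ u) L) (hx : 1 ≤ x) (hX : 3 * x ≤ X) {U V : ℝ} (hU : 1 ≤ U)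
    (hUx : U < x) (hV : K * S.card ≤ V) (hU' : (S.card : ℝ) ^ 2 * K ≤ U)
    (hI : S.card * V * U * K ≤ x) :
    ∑ i ∈ S, ‖∑ n ∈ range X, (Λ n : ℂ) * χ i n * (φ (n / x) : ℂ)‖
      ≤ 10 * L * x * Real.log X + Real.log X * (1 + Real.log X) * x * (128 + 48 * L) := by
  have hK := h.nn
  have hL := hφ.one
  have hx0 : 0 < x := by linarith
  have hU0 : 0 < U := by linarith
  have hV0 : 0 ≤ V := le_trans (by positivity) hV
  have hlog := Real.log_natCast_nonneg X
  set N := ⌊2 * x / U⌋₊ + 1 with hN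
  have hN1 : (N : ℝ) ≤ 2 * x / U + 1 := by
    rw [hN]; push_cast
    linarith [Nat.floor_le (by positivity : 0 ≤ 2 * x / U)]
  have hNX : N ≤ X := by
    have : 2 * x / U ≤ 2 * x := div_le_self (by positivity) hU
    have : (N : ℝ) ≤ X := by linarith
    exact_mod_cast this
  have hN2 : (S.card : ℝ) ^ 2 * K * N ≤ 3 * x := by
    calc (S.card : ℝ) ^ 2 * K * N ≤ U * (2 * x / U + 1) := by gcongr
      _ = 2 * x + U := by field_simp
      _ ≤ 3 * x := by linarith
  let b : ℕ → ℝ := fun n => if V < n then (μ n : ℝ) else 0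
  let b' : ℕ → ℝ := fun n => if V < n then 0 else (μ n : ℝ)
  have hμ : ∀ n, |(μ n : ℝ)| ≤ 1 := fun n => by exact_mod_cast abs_moebius_le_one
  have hb : ∀ n, |b n| ≤ 1 := fun n => by
    simp only [b]; split_ifs; exacts [hμ n, by simp]
  have hb' : ∀ n, |b' n| ≤ 1 := fun n => by
    simp only [b']; split_ifs; exacts [by simp, hμ n]
  have e : ∀ i, ∑ n ∈ range X, (Λ n : ℂ) * χ i n * (φ (n / x) : ℂ) =
      ∑ d ∈ range X, (b' d : ℂ) * χ i d *
        ∑ m ∈ range X, (aU U m : ℂ) * χ i m * (φ (((d * m : ℕ) : ℝ) / x) : ℝ) +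
      ∑ m ∈ range X, aU U m * χ i m *
        ∑ n ∈ range N, (b n * φ (((m * n : ℕ) : ℝ) / x) : ℝ) * χ i n := by
    intro i
    let F : ℕ → ℕ → ℂ := fun d m =>
      ((μ d : ℝ) * aU U m : ℝ) * (χ i (d * m) * (φ (((d * m : ℕ) : ℝ) / x) : ℝ))
    have hF : ∀ d m, F d m ≠ 0 → 0 < d * m ∧ d * m < X := fun d m hne =>
      supp_nat hφ hx0 hX fun h0 => hne (by simp only [F, h0]; simp)
    have e1 : ∑ n ∈ range X, (Λ n : ℂ) * χ i n * (φ (n / x) : ℂ) =
        ∑ n ∈ range X, ∑ p ∈ n.divisorsAntidiagonal, F p.1 p.2 := by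
      refine sum_congr rfl fun n _ => ?_
      have e2 : ∑ p ∈ n.divisorsAntidiagonal, F p.1 p.2 =
          ∑ p ∈ n.divisorsAntidiagonal, (((μ p.1 : ℝ) * aU U p.2 : ℝ) : ℂ) *
            (χ i n * (φ (n / x) : ℝ)) :=
        sum_congr rfl fun p hp => by
          simp only [F]; rw [(Nat.mem_divisorsAntidiagonal.1 hp).1]
      rw [e2, ← sum_mul]
      by_cases h0 : φ (n / x) = 0
      · simp [h0]
      · have h1 := (hφ.supp _ h0).1
        rw [le_div_iff₀ hx0] at h1
        rw [vaughan (U := U) (by linarith), Complex.ofReal_sum, mul_assoc]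
    have e3 : ∀ m, (aU U m : ℂ) * χ i m *
        ∑ n ∈ range N, (b n * φ (((m * n : ℕ) : ℝ) / x) : ℝ) * χ i n = aU U m * χ i m *
        ∑ n ∈ range X, (b n * φ (((m * n : ℕ) : ℝ) / x) : ℝ) * χ i n := by
      intro m
      by_cases hm : (m : ℝ) ≤ U
      · simp [aU_zero hm]
      congr 1
      refine sum_subset (range_subset_range.2 hNX) fun n _ hn => ?_
      have h1 : N ≤ n := not_lt.1 fun h' => hn (mem_range.2 h')
      have h2 : 2 * x / U < n := (Nat.lt_floor_add_one _).trans_le (by exact_mod_cast h1)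
      rw [div_lt_iff₀ hU0] at h2
      have h3 : (n : ℝ) * U ≤ n * m := by gcongr; exact (not_le.1 hm).le
      rw [hφ.hi (u := ((m * n : ℕ) : ℝ) / x) (by rw [lt_div_iff₀ hx0]; push_cast; linarith)]
      simp
    rw [e1, sum_conv X F hF]
    simp_rw [e3, mul_sum]
    rw [sum_comm (s := range X) (t := range X) (f := fun m n => (aU U m : ℂ) * χ i m *
      ((b n * φ (((m * n : ℕ) : ℝ) / x) : ℝ) * χ i n)), ← sum_add_distrib]
    refine sum_congr rfl fun d _ => ?_
    rw [← sum_add_distrib]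
    refine sum_congr rfl fun m _ => ?_
    simp only [F, b, b', h.mul, mul_comm m d]
    split_ifs <;> simp only [Complex.ofReal_mul, Complex.ofReal_zero, zero_mul] <;> ring
  simp_rw [e]
  refine (sum_le_sum fun i _ => norm_add_le _ _).trans ?_
  rw [sum_add_distrib]
  refine add_le_add ?_ ?_
  · calc _ ≤ ∑ _i ∈ S, V * (10 * U * K * L * Real.log X) := by
          refine sum_le_sum fun i hi => (norm_sum_le _ _).trans
            (count_le hV0 X (by positivity) ?_ ?_ ?_)
          · simp [b']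
          · intro d hd
            simp [b', hd]
          · intro d hd _
            rw [norm_mul]
            refine (mul_le_of_le_one_left (norm_nonneg _) ?_).trans (typeI h hφ hx0 hX hi hU hd)
            rw [norm_mul, Complex.norm_real, Real.norm_eq_abs]
            exact mul_le_one₀ (hb' d) (norm_nonneg _) (h.le _ _)
      _ = (S.card * V * U * K) * (10 * L * Real.log X) := by
          simp only [sum_const, nsmul_eq_mul]; ring
      _ ≤ x * (10 * L * Real.log X) := by gcongr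
      _ = _ := by ring
  · have h1 := typeII h hφ hφ' hx0 hX hV b hb (fun n hn => if_neg (not_lt.2 hn)) hNX hN2 (aU U)
      (A := Real.log X) (fun m hm => by
        rw [abs_of_nonneg (aU_nonneg U m)]
        exact (aU_le U m).trans (log_mono hm.le))
    refine le_of_sq_le_sq (h1.trans ?_) (by positivity)
    rw [mul_pow _ (128 + 48 * L)]
    gcongr
    nlinarith

theorem char_sum {q : ℕ} [NeZero q] {χ : DirichletCharacter ℂ q} (hχ : χ ≠ 1) (n : ℕ) :
    ‖∑ k ∈ range n, χ k‖ ≤ q := by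
  have hq : 0 < q := Nat.pos_of_ne_zero (NeZero.ne q)
  have h0 : ∑ k ∈ range q, χ k = 0 := by
    rw [← MulChar.sum_eq_zero_of_ne_one hχ]
    refine sum_nbij' (fun n => (n : ZMod q)) (fun x => x.val) ?_ ?_ ?_ ?_ ?_
    · intro n _; simp
    · intro x _; simpa using ZMod.val_lt x
    · intro n hn; exact ZMod.val_cast_of_lt (mem_range.mp hn)
    · intro x _; simp
    · intro n _; rfl
  induction n using Nat.strong_induction_on with
  | _ n ih =>
    by_cases h : n ≤ q
    · calc ‖∑ k ∈ range n, χ k‖ ≤ ∑ k ∈ range n, ‖χ k‖ := norm_sum_le _ _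
        _ ≤ ∑ _k ∈ range n, (1 : ℝ) := sum_le_sum fun k _ => χ.norm_le_one _
        _ = n := by simp
        _ ≤ q := by exact_mod_cast h
    · obtain ⟨m, rfl⟩ : ∃ m, n = q + m := ⟨n - q, by omega⟩
      rw [sum_range_add, h0, zero_add]
      simpa using ih m (by omega)

theorem char_two {f f' : ℕ} (hf : 0 < f) (hf' : 0 < f') {χ : DirichletCharacter ℂ f}
    {χ' : DirichletCharacter ℂ f'} (h : χ.IsPrimitive) (h' : χ'.IsPrimitive)
    (hne : (⟨f, χ⟩ : Σ f : ℕ, DirichletCharacter ℂ f) ≠ ⟨f', χ'⟩) (n : ℕ) :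
    ‖∑ k ∈ range n, χ k * conj (χ' k)‖ ≤ f * f' := by
  have : NeZero (f * f') := ⟨(Nat.mul_pos hf hf').ne'⟩
  let ψ : DirichletCharacter ℂ (f * f') := DirichletCharacter.changeLevel (dvd_mul_right f f') χ *
    (DirichletCharacter.changeLevel (dvd_mul_left f' f) χ')⁻¹
  have hψ : ψ ≠ 1 := by
    intro h1
    have h2 := mul_inv_eq_one.1 h1
    have h3 := congrArg DirichletCharacter.conductor h2
    rw [DirichletCharacter.conductor_changeLevel, DirichletCharacter.conductor_changeLevel,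
      h, h'] at h3
    subst h3
    exact hne (by rw [DirichletCharacter.changeLevel_injective _ h2])
  have e : ∀ k : ℕ, χ k * conj (χ' k) = ψ k := by
    intro k
    by_cases hk : IsCoprime (k : ℤ) ((f * f' : ℕ) : ℤ)
    · have a1 := DirichletCharacter.changeLevel_eq_cast_of_dvd' χ (dvd_mul_right f f') hk
      have a2 := DirichletCharacter.changeLevel_eq_cast_of_dvd' χ' (dvd_mul_left f' f) hk
      simp only [Int.cast_natCast] at a1 a2
      simp only [ψ, MulChar.mul_apply]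
      rw [← MulChar.star_apply', a1, a2]
      rfl
    · have a1 := (DirichletCharacter.apply_eq_zero_iff ψ k).2 hk
      simp only [Int.cast_natCast] at a1
      rw [a1]
      push_cast at hk
      rw [IsCoprime.mul_right_iff, not_and_or] at hk
      rcases hk with hk | hk
      · have a2 := (DirichletCharacter.apply_eq_zero_iff χ k).2 hk
        simp only [Int.cast_natCast] at a2
        rw [a2, zero_mul]
      · have a2 := (DirichletCharacter.apply_eq_zero_iff χ' k).2 hk
        simp only [Int.cast_natCast] at a2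
        rw [a2, _root_.map_zero, mul_zero]
  simp_rw [e]
  exact_mod_cast char_sum hψ n

theorem card_le {Q : ℝ} (hQ : 0 ≤ Q) (S : Finset (Σ f : ℕ, DirichletCharacter ℂ f))
    (hS : ∀ z ∈ S, 0 < z.1 ∧ (z.1 : ℝ) ≤ Q) : (S.card : ℝ) ≤ Q ^ 2 := by
  have h1 : S ⊆ (Icc 1 ⌊Q⌋₊).sigma fun f => (univ : Finset (DirichletCharacter ℂ f)) :=
    fun z hz => mem_sigma.2 ⟨mem_Icc.2 ⟨(hS z hz).1, Nat.le_floor (hS z hz).2⟩, mem_univ _⟩
  have h2 : S.card ≤ ⌊Q⌋₊ * ⌊Q⌋₊ := by
    refine (card_le_card h1).trans ?_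
    rw [card_sigma]
    calc _ ≤ ∑ _f ∈ Icc 1 ⌊Q⌋₊, ⌊Q⌋₊ := by
          refine sum_le_sum fun f hf => ?_
          have : NeZero f := ⟨by have := (mem_Icc.1 hf).1; omega⟩
          rw [card_univ, ← Nat.card_eq_fintype_card,
            DirichletCharacter.card_eq_totient_of_hasEnoughRootsOfUnity]
          exact (Nat.totient_le f).trans (mem_Icc.1 hf).2
      _ = _ := by simp
  have h3 := Nat.floor_le hQ
  calc (S.card : ℝ) ≤ (⌊Q⌋₊ : ℝ) * ⌊Q⌋₊ := by exact_mod_cast h2
    _ ≤ Q * Q := by gcongr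
    _ = Q ^ 2 := by ring

end LS

open LS in
theorem ls : LSStmt := by
  classical
  intro φ hφ
  obtain ⟨L, h1, h2⟩ := exists_bump hφ
  have hL := h1.one
  refine ⟨24 + 30 * L + 12 * (128 + 48 * L), 2, fun x hx S hS => ?_⟩
  set Q := x ^ (1 / 20 : ℝ) with hQ
  have hQ1 : 1 < Q := Real.one_lt_rpow (by linarith) (by norm_num)
  have hQ20 : Q ^ 20 = x := by
    rw [hQ, ← Real.rpow_natCast, ← Real.rpow_mul (by linarith)]; norm_num
  set X := ⌈3 * x⌉₊ with hXd
  have hX : 3 * x ≤ X := Nat.le_ceil _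
  have hX' : (X : ℝ) ≤ 4 * x := by
    have := Nat.ceil_lt_add_one (by linarith : 0 ≤ 3 * x)
    linarith
  have hl1 : 1 ≤ Real.log x := by
    rw [Real.le_log_iff_exp_le (by linarith)]
    linarith [Real.exp_one_lt_d9]
  have hl0 := Real.log_natCast_nonneg X
  have hl3 : Real.log X ≤ 3 * Real.log x := by
    have a1 : (X : ℝ) ≤ x ^ 3 := by nlinarith [mul_le_mul hx hx (by norm_num) (by linarith)]
    calc Real.log X ≤ Real.log (x ^ 3) := Real.log_le_log (by linarith) a1
      _ = 3 * Real.log x := by rw [Real.log_pow]; norm_num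
  rw [← sum_filter_add_sum_filter_not S (fun z => z.1 = 1)]
  have p1 : ∑ z ∈ S.filter (fun z => z.1 = 1),
      ‖∑ n ∈ range X, (Λ n : ℂ) * z.2 n * (φ (n / x) : ℂ)‖ ≤ 24 * x * Real.log x := by
    have c1 : S.filter (fun z => z.1 = 1) ⊆ {⟨1, 1⟩} := by
      rintro ⟨f, χ⟩ hz
      have : f = 1 := (mem_filter.1 hz).2
      subst this
      rw [DirichletCharacter.level_one χ]
      exact mem_singleton_self _
    refine (sum_le_sum_of_subset_of_nonneg c1 fun _ _ _ => norm_nonneg _).trans ?_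
    rw [sum_singleton]
    refine (norm_sum_le _ _).trans ?_
    calc _ ≤ ∑ _n ∈ range X, Real.log X * 1 * 2 := by
          refine sum_le_sum fun n hn => ?_
          rw [norm_mul, norm_mul, Complex.norm_real, Complex.norm_real,
            Real.norm_of_nonneg vonMangoldt_nonneg]
          exact mul_le_mul (mul_le_mul (vonMangoldt_le_log.trans (log_mono (mem_range.1 hn).le))
            (DirichletCharacter.norm_le_one _ _) (norm_nonneg _) hl0) (h1.bd _) (norm_nonneg _)
            (by positivity)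
      _ = X * (Real.log X * 2) := by simp
      _ ≤ 4 * x * (3 * Real.log x * 2) := by gcongr
      _ = _ := by ring
  set S' := S.filter (fun z => ¬ z.1 = 1) with hS'
  have hsub : ∀ z ∈ S', z ∈ S := fun z hz => (mem_filter.1 hz).1
  have hc := card_le (by linarith) S' fun z hz => ⟨(hS z (hsub z hz)).1, (hS z (hsub z hz)).2.1⟩
  have hfam : Fam S' (fun z n => z.2 n) (Q ^ 2) := by
    refine ⟨fun z m n => by push_cast; rw [map_mul], fun z n => z.2.norm_le_one _, by positivity,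
      fun z hz n => ?_, fun z hz z' hz' hne n => ?_⟩
    · obtain ⟨a1, a2, a3⟩ := hS z (hsub z hz)
      have : NeZero z.1 := ⟨a1.ne'⟩
      refine (char_sum (fun h0 => (mem_filter.1 hz).2 ?_) n).trans (by nlinarith)
      rw [← a3, h0, DirichletCharacter.conductor_one]
    · obtain ⟨a1, a2, a3⟩ := hS z (hsub z hz)
      obtain ⟨b1, b2, b3⟩ := hS z' (hsub z' hz')
      refine (char_two a1 b1 a3 b3 hne n).trans ?_
      rw [sq]; gcongr
  have p2 := fam_bound hfam h1 h2 (by linarith) hX (U := Q ^ 6) (V := Q ^ 4)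
    (one_le_pow₀ hQ1.le) (by rw [← hQ20]; exact pow_lt_pow_right₀ hQ1 (by norm_num))
    (by calc Q ^ 2 * S'.card ≤ Q ^ 2 * Q ^ 2 := by gcongr
      _ = Q ^ 4 := by ring)
    (by calc (S'.card : ℝ) ^ 2 * Q ^ 2 ≤ (Q ^ 2) ^ 2 * Q ^ 2 := by gcongr
      _ = Q ^ 6 := by ring)
    (by calc (S'.card : ℝ) * Q ^ 4 * Q ^ 6 * Q ^ 2 ≤ Q ^ 2 * Q ^ 4 * Q ^ 6 * Q ^ 2 := by gcongr
      _ = Q ^ 14 := by ring
      _ ≤ x := by rw [← hQ20]; exact pow_le_pow_right₀ hQ1.le (by norm_num))
  have hx0 : 0 < x := by linarith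
  have q1 : 24 * x * Real.log x ≤ 24 * x * Real.log x ^ 2 := by gcongr; nlinarith
  have q2 : 10 * L * x * Real.log X ≤ 10 * L * x * (3 * Real.log x ^ 2) := by gcongr; nlinarith
  have q3 : Real.log X * (1 + Real.log X) * x * (128 + 48 * L)
      ≤ (3 * Real.log x) * (4 * Real.log x) * x * (128 + 48 * L) := by gcongr; linarith
  calc _ ≤ 24 * x * Real.log x ^ 2 + (10 * L * x * (3 * Real.log x ^ 2) +
        (3 * Real.log x) * (4 * Real.log x) * x * (128 + 48 * L)) :=
        add_le_add (p1.trans q1) (p2.trans (add_le_add q2 q3))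
    _ = _ := by ring

end Pool.Agent.MP_39a890_nt

end MrgPart2

-- ======== part 3: formerly Pool.Agent.MP_39a890_nt.OneA
section MrgPart3

/-!
# PROJECT E287, module ONE: harmonic sums and Mertens sums
-/

namespace Pool.Agent.MP_39a890_nt

open Finset Filter Topology
open scoped ArithmeticFunction.vonMangoldt

namespace ONE

/-- harmonic sum over the integers coprime to `W` -/
noncomputable def Sn (W n : ℕ) : ℝ := ∑ m ∈ Ico 1 (n + 1), if W.Coprime m then (1 : ℝ) / m else 0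

theorem Sn_mono (W : ℕ) {n n' : ℕ} (h : n ≤ n') : Sn W n ≤ Sn W n' := by
  apply Finset.sum_le_sum_of_subset_of_nonneg (Finset.Ico_subset_Ico_right (by omega))
  intro i _ _
  split_ifs <;> positivity

theorem Sn_block (W k : ℕ) : Sn W ((k + 1) * W) = Sn W (k * W) +
    ∑ m ∈ (Ico (k * W + 1) (k * W + 1 + W)).filter (fun m => W.Coprime m), (1 : ℝ) / m := by
  unfold Sn
  rw [Finset.sum_filter, Finset.sum_Ico_consecutive _ (by omega) (by omega)]
  congr 2
  ring

theorem Sn_ge (W : ℕ) (hW : 0 < W) (k : ℕ) :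
    (W.totient : ℝ) / W * Real.log (k + 1) ≤ Sn W (k * W) := by
  have hW' : (0 : ℝ) < W := by exact_mod_cast hW
  induction k with
  | zero => simp [Sn]
  | succ k ih =>
    rw [Sn_block]
    have hk : (0 : ℝ) ≤ k := Nat.cast_nonneg k
    have h1 : ((Ico (k * W + 1) (k * W + 1 + W)).filter (fun m => W.Coprime m)).card •
        ((1 : ℝ) / ((k + 1) * W)) ≤
        ∑ m ∈ (Ico (k * W + 1) (k * W + 1 + W)).filter (fun m => W.Coprime m), (1 : ℝ) / m := by
      apply Finset.card_nsmul_le_sum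
      intro m hm
      rw [mem_filter, mem_Ico] at hm
      have h2 : m ≤ (k + 1) * W := by have := hm.1.2; rw [add_mul]; omega
      have h3 : 0 < m := by have := hm.1.1; omega
      apply one_div_le_one_div_of_le (by exact_mod_cast h3)
      exact_mod_cast h2
    rw [Nat.filter_coprime_Ico_eq_totient, nsmul_eq_mul] at h1
    have h2 : Real.log (((k : ℝ) + 1 + 1) / (k + 1)) ≤ ((k : ℝ) + 1 + 1) / (k + 1) - 1 :=
      Real.log_le_sub_one_of_pos (by positivity)
    rw [Real.log_div (by positivity) (by positivity)] at h2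
    have h3 : ((k : ℝ) + 1 + 1) / (k + 1) - 1 = 1 / (k + 1) := by field_simp; ring
    have h4 : (W.totient : ℝ) * (1 / ((k + 1) * W)) = (W.totient : ℝ) / W * (1 / (k + 1)) := by
      field_simp
    have h5 : (0 : ℝ) ≤ (W.totient : ℝ) / W := by positivity
    rw [h3] at h2
    have h6 := mul_le_mul_of_nonneg_left h2 h5
    push_cast
    linarith

theorem Sn_le (W : ℕ) (hW : 0 < W) (k : ℕ) :
    Sn W ((k + 1) * W) ≤ W + (W.totient : ℝ) / W * ∑ n ∈ Ioc 0 k, (1 : ℝ) / n := by
  have hW' : (0 : ℝ) < W := by exact_mod_cast hW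
  induction k with
  | zero =>
    simp only [zero_add, one_mul, Ioc_self, sum_empty, mul_zero, add_zero]
    unfold Sn
    have : ∑ m ∈ Ico 1 (W + 1), (if W.Coprime m then (1 : ℝ) / m else 0) ≤
        (Ico 1 (W + 1)).card • (1 : ℝ) := by
      apply Finset.sum_le_card_nsmul
      intro m hm
      rw [mem_Ico] at hm
      have : (1 : ℝ) ≤ m := by exact_mod_cast hm.1
      split_ifs
      · rw [div_le_one (by linarith)]; exact this
      · norm_num
    simpa using this
  | succ k ih =>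
    rw [Sn_block, Finset.sum_Ioc_succ_top (Nat.zero_le _)]
    have hk : (0 : ℝ) ≤ k := Nat.cast_nonneg k
    have h1 : ∑ m ∈ (Ico ((k + 1) * W + 1) ((k + 1) * W + 1 + W)).filter (fun m => W.Coprime m),
        (1 : ℝ) / m ≤
        ((Ico ((k + 1) * W + 1) ((k + 1) * W + 1 + W)).filter (fun m => W.Coprime m)).card •
        ((1 : ℝ) / ((k + 1) * W)) := by
      apply Finset.sum_le_card_nsmul
      intro m hm
      rw [mem_filter, mem_Ico] at hm
      have h2 : (k + 1) * W ≤ m := by have := hm.1.1; omega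
      apply one_div_le_one_div_of_le (by positivity)
      exact_mod_cast h2
    rw [Nat.filter_coprime_Ico_eq_totient, nsmul_eq_mul] at h1
    have h4 : (W.totient : ℝ) * (1 / ((k + 1) * W)) = (W.totient : ℝ) / W * (1 / (k + 1)) := by
      field_simp
    push_cast
    rw [mul_add]
    linarith

/-- integers coprime to `W` with logarithm at most `t` -/
noncomputable def MM (W : ℕ) (t : ℝ) : Finset ℕ :=
  (Ico 1 (⌊Real.exp t⌋₊ + 1)).filter fun m => W.Coprime m

theorem mem_MM {W : ℕ} {t : ℝ} {m : ℕ} :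
    m ∈ MM W t ↔ 0 < m ∧ Real.log m ≤ t ∧ W.Coprime m := by
  unfold MM
  rw [mem_filter, mem_Ico]
  constructor
  · rintro ⟨⟨h1, h2⟩, h3⟩
    refine ⟨h1, ?_, h3⟩
    rw [Real.log_le_iff_le_exp (by exact_mod_cast h1)]
    exact (Nat.le_floor_iff (Real.exp_pos t).le).mp (by omega)
  · rintro ⟨h1, h2, h3⟩
    refine ⟨⟨h1, ?_⟩, h3⟩
    rw [Real.log_le_iff_le_exp (by exact_mod_cast h1)] at h2
    have := (Nat.le_floor_iff (Real.exp_pos t).le).mpr h2
    omega

noncomputable def TT (W : ℕ) (t : ℝ) : ℝ := ∑ m ∈ MM W t, (1 : ℝ) / m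

theorem TT_eq (W : ℕ) (t : ℝ) : TT W t = Sn W ⌊Real.exp t⌋₊ := by
  unfold TT MM Sn
  rw [Finset.sum_filter]

theorem TT_nonneg (W : ℕ) (t : ℝ) : 0 ≤ TT W t := Finset.sum_nonneg fun _ _ => by positivity

theorem rho_le_one (W : ℕ) (hW : 0 < W) : (W.totient : ℝ) / W ≤ 1 := by
  rw [div_le_one (by exact_mod_cast hW)]
  exact_mod_cast Nat.totient_le W

theorem rho_pos (W : ℕ) (hW : 0 < W) : 0 < (W.totient : ℝ) / W :=
  div_pos (by exact_mod_cast Nat.totient_pos.mpr hW) (by exact_mod_cast hW)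

theorem TT_ge (W : ℕ) (hW : 0 < W) (t : ℝ) : (W.totient : ℝ) / W * t - W ≤ TT W t := by
  have hW' : (0 : ℝ) < W := by exact_mod_cast hW
  rw [TT_eq]
  set n := ⌊Real.exp t⌋₊ with hn
  have h1 := Sn_ge W hW (n / W)
  have h2 := Sn_mono W (Nat.div_mul_le_self n W)
  have h3 : n + 1 ≤ (n / W + 1) * W := by
    have := Nat.lt_div_mul_add (a := n) hW
    rw [add_mul]; omega
  have h4 : Real.exp t ≤ (((n / W : ℕ) : ℝ) + 1) * W := by
    have h5 : Real.exp t < n + 1 := Nat.lt_floor_add_one _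
    have h6 : (n : ℝ) + 1 ≤ (((n / W : ℕ) : ℝ) + 1) * W := by exact_mod_cast h3
    linarith
  have h5 : t ≤ Real.log (((n / W : ℕ) : ℝ) + 1) + Real.log W := by
    rw [← Real.log_mul (by positivity) hW'.ne', Real.le_log_iff_exp_le (by positivity)]
    exact h4
  have h6 : Real.log W ≤ W := (Real.log_le_sub_one_of_pos hW').trans (by linarith)
  have h7 : 0 ≤ Real.log W := Real.log_natCast_nonneg W
  have h8 := rho_le_one W hW
  have h9 := rho_pos W hW
  have h10 := mul_le_mul_of_nonneg_left h5 h9.le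
  nlinarith

theorem TT_le (W : ℕ) (hW : 0 < W) (t : ℝ) (ht : 0 ≤ t) :
    TT W t ≤ (W.totient : ℝ) / W * t + (W + 1) := by
  rw [TT_eq]
  set n := ⌊Real.exp t⌋₊ with hn
  have h1 := Sn_le W hW (n / W)
  have h3 : n ≤ (n / W + 1) * W := by
    have := Nat.lt_div_mul_add (a := n) hW
    rw [add_mul]; omega
  have h2 := Sn_mono W h3
  have h4 := Pool.Agent.MP_34d6af_nt.harm_le (n / W)
  have h5 : Real.log ((n / W : ℕ) : ℝ) ≤ t := by
    rcases Nat.eq_zero_or_pos (n / W) with e | e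
    · rw [e]; simpa using ht
    · rw [Real.log_le_iff_le_exp (by exact_mod_cast e)]
      have h6 : ((n / W : ℕ) : ℝ) ≤ n := by exact_mod_cast Nat.div_le_self n W
      exact h6.trans (Nat.floor_le (Real.exp_pos t).le)
  have h8 := rho_le_one W hW
  have h9 := rho_pos W hW
  have h10 := mul_le_mul_of_nonneg_left (h4.trans (add_le_add_right h5 1)) h9.le
  nlinarith

theorem harm (W : ℕ) (hW : 0 < W) {s t : ℝ} (hst : s ≤ t) (A : Finset ℕ)
    (hA : ∀ m ∈ A, 0 < m ∧ W.Coprime m ∧ s < Real.log m ∧ Real.log m ≤ t) :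
    ∑ m ∈ A, (1 : ℝ) / m ≤ (W.totient : ℝ) / W * (t - s) + (2 * W + 1) := by
  have h9 := rho_pos W hW
  rcases A.eq_empty_or_nonempty with rfl | ⟨m₀, hm₀⟩
  · rw [sum_empty]
    have : 0 ≤ t - s := by linarith
    positivity
  have ht : 0 ≤ t := (Real.log_natCast_nonneg m₀).trans (hA m₀ hm₀).2.2.2
  have hsub : MM W s ⊆ MM W t := fun m hm => by
    rw [mem_MM] at hm ⊢
    exact ⟨hm.1, hm.2.1.trans hst, hm.2.2⟩
  have h1 : A ⊆ MM W t \ MM W s := fun m hm => by
    obtain ⟨h1, h2, h3, h4⟩ := hA m hm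
    rw [Finset.mem_sdiff, mem_MM, mem_MM]
    exact ⟨⟨h1, h4, h2⟩, fun h => absurd h.2.1 (not_le.mpr h3)⟩
  have h2 : ∑ m ∈ A, (1 : ℝ) / m ≤ ∑ m ∈ MM W t \ MM W s, (1 : ℝ) / m :=
    Finset.sum_le_sum_of_subset_of_nonneg h1 fun _ _ _ => by positivity
  have h3 : ∑ m ∈ MM W t \ MM W s, (1 : ℝ) / m + TT W s = TT W t := Finset.sum_sdiff hsub
  have h4 := TT_ge W hW s
  have h5 := TT_le W hW t ht
  linarith

theorem mult_le (W : ℕ) (t : ℝ) (k : ℕ) (hk : 0 < k) :
    ∑ m ∈ MM W t, (if k ∣ m then (1 : ℝ) / m else 0) ≤ 1 / k * TT W t := by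
  rw [← Finset.sum_filter]
  have h1 : ∑ m ∈ (MM W t).filter (fun m => k ∣ m), (1 : ℝ) / m =
      1 / k * ∑ m ∈ (MM W t).filter (fun m => k ∣ m), (1 : ℝ) / ((m / k : ℕ) : ℝ) := by
    rw [Finset.mul_sum]
    apply Finset.sum_congr rfl
    intro m hm
    rw [mem_filter] at hm
    obtain ⟨r, hr⟩ := hm.2
    rw [hr, Nat.mul_div_cancel_left r hk]
    push_cast
    rw [one_div_mul_one_div]
  rw [h1]
  apply mul_le_mul_of_nonneg_left _ (by positivity)
  rw [← Finset.sum_image (s := (MM W t).filter fun m => k ∣ m) (g := fun m => m / k)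
    (f := fun r : ℕ => (1 : ℝ) / r)]
  · apply Finset.sum_le_sum_of_subset_of_nonneg _ fun _ _ _ => by positivity
    intro r hr
    obtain ⟨m, hm, rfl⟩ := Finset.mem_image.mp hr
    rw [mem_filter, mem_MM] at hm
    obtain ⟨⟨h1, h2, h3⟩, r, rfl⟩ := hm
    rw [Nat.mul_div_cancel_left r hk, mem_MM]
    have hr0 : 0 < r := Nat.pos_of_mul_pos_left h1
    refine ⟨hr0, le_trans ?_ h2, Nat.Coprime.coprime_mul_left_right h3⟩
    apply Real.log_le_log (by exact_mod_cast hr0)
    exact_mod_cast Nat.le_mul_of_pos_left r hk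
  · intro a ha b hb hab
    have ha' := (mem_filter.mp ha).2
    have hb' := (mem_filter.mp hb).2
    have h3 : a / k = b / k := hab
    rw [← Nat.div_mul_cancel ha', ← Nat.div_mul_cancel hb', h3]

/-- Mertens on a range -/
theorem mertens_range {s t : ℝ} (hs : 0 ≤ s) (hst : s ≤ t) (A : Finset ℕ)
    (hA : ∀ p ∈ A, p.Prime ∧ s < Real.log p ∧ Real.log p ≤ t) :
    ∑ p ∈ A, Real.log p / p ≤ t - s + 8 := by
  have h1 : (1 : ℝ) ≤ Real.exp s := Real.one_le_exp hs
  set a := ⌊Real.exp s⌋₊ with ha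
  set b := ⌊Real.exp t⌋₊ with hb
  have ha1 : 1 ≤ a := Nat.le_floor (by exact_mod_cast h1)
  have hab : a ≤ b := Nat.floor_le_floor (Real.exp_le_exp.mpr hst)
  have h2 := Pool.Agent.MP_34d6af_nt.mertens_ge a ha1
  have h3 := Pool.Agent.MP_34d6af_nt.mertens_le b (by omega)
  have h4 : ∑ d ∈ Ioc 0 a, Λ d / d + ∑ d ∈ Ioc a b, Λ d / d = ∑ d ∈ Ioc 0 b, (Λ d / d : ℝ) :=
    Finset.sum_Ioc_consecutive _ (Nat.zero_le a) hab
  have h5 : ∑ p ∈ A, Real.log p / p ≤ ∑ d ∈ Ioc a b, (Λ d / d : ℝ) := by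
    calc ∑ p ∈ A, Real.log p / p = ∑ p ∈ A, (Λ p / p : ℝ) :=
          Finset.sum_congr rfl fun p hp => by
            rw [ArithmeticFunction.vonMangoldt_apply_prime (hA p hp).1]
      _ ≤ _ := by
          apply Finset.sum_le_sum_of_subset_of_nonneg
          · intro p hp
            obtain ⟨q1, q2, q3⟩ := hA p hp
            have q0 : (0 : ℝ) < p := by exact_mod_cast q1.pos
            rw [Real.lt_log_iff_exp_lt q0] at q2
            rw [Real.log_le_iff_le_exp q0] at q3
            rw [mem_Ioc]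
            exact ⟨(Nat.floor_lt (Real.exp_pos s).le).mpr q2, Nat.le_floor q3⟩
          · intro d _ _
            have := ArithmeticFunction.vonMangoldt_nonneg (n := d)
            positivity
  have ha' : (1 : ℝ) ≤ a := by exact_mod_cast ha1
  have h6 : s ≤ Real.log 2 + Real.log a := by
    rw [← Real.log_mul (by norm_num) (by linarith), Real.le_log_iff_exp_le (by linarith)]
    have : Real.exp s < a + 1 := Nat.lt_floor_add_one _
    linarith
  have h7 : Real.log b ≤ t := by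
    rw [Real.log_le_iff_le_exp (by exact_mod_cast (by omega : 0 < b))]
    exact Nat.floor_le (Real.exp_pos t).le
  have h8 := Real.log_two_lt_d9
  linarith

/-- the sum of reciprocals of primes is small compared to the logarithm -/
theorem recip_le {t η : ℝ} (ht : 0 ≤ t) (hη : 0 < η) (A : Finset ℕ)
    (hA : ∀ p ∈ A, p.Prime ∧ Real.log p ≤ t) :
    ∑ p ∈ A, (1 : ℝ) / p ≤ 1 + 1 / η + η * (t + 8) := by
  have h1 := mertens_range le_rfl ht A fun p hp =>
    ⟨(hA p hp).1, Real.log_pos (by exact_mod_cast (hA p hp).1.one_lt), (hA p hp).2⟩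
  have h2 : ∑ p ∈ A, (1 : ℝ) / p ≤
      ∑ p ∈ A, ((if Real.log p ≤ 1 / η then (1 : ℝ) / p else 0) + η * (Real.log p / p)) := by
    apply Finset.sum_le_sum
    intro p hp
    have q0 : (0 : ℝ) < p := by exact_mod_cast (hA p hp).1.pos
    have q1 := Real.log_natCast_nonneg p
    split_ifs with h
    · have : 0 ≤ η * (Real.log p / p) := by positivity
      linarith
    · rw [zero_add, ← mul_div_assoc]
      apply div_le_div_of_nonneg_right _ q0.le
      rw [not_le, div_lt_iff₀ hη] at h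
      linarith
  rw [Finset.sum_add_distrib, ← Finset.mul_sum, ← Finset.sum_filter] at h2
  have h3 : ∑ p ∈ A.filter (fun p : ℕ => Real.log p ≤ 1 / η), (1 : ℝ) / p ≤
      ∑ n ∈ Ioc 0 ⌊Real.exp (1 / η)⌋₊, (1 : ℝ) / n := by
    apply Finset.sum_le_sum_of_subset_of_nonneg _ fun _ _ _ => by positivity
    intro p hp
    rw [mem_filter] at hp
    have q0 := (hA p hp.1).1.pos
    rw [mem_Ioc]
    exact ⟨q0, Nat.le_floor ((Real.log_le_iff_le_exp (by exact_mod_cast q0)).mp hp.2)⟩
  have h4 := Pool.Agent.MP_34d6af_nt.harm_le ⌊Real.exp (1 / η)⌋₊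
  have h5 : Real.log (⌊Real.exp (1 / η)⌋₊ : ℝ) ≤ 1 / η := by
    have h6 : 1 ≤ ⌊Real.exp (1 / η)⌋₊ :=
      Nat.le_floor (by exact_mod_cast Real.one_le_exp (by positivity))
    rw [Real.log_le_iff_le_exp (by exact_mod_cast h6)]
    exact Nat.floor_le (Real.exp_pos _).le
  have h6 := mul_le_mul_of_nonneg_left h1 hη.le
  rw [sub_zero] at h6
  linarith

end ONE

end Pool.Agent.MP_39a890_nt

end MrgPart3

-- ======== part 4: formerly Pool.Agent.MP_39a890_nt.OneB
section MrgPart4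

/-!
# PROJECT E287, module ONE: sums over squarefree numbers
-/

namespace Pool.Agent.MP_39a890_nt

open Finset Filter Topology

namespace ONE

variable {ι : Type} [Fintype ι] [DecidableEq ι] {pr : ι → ℕ} {W : ℕ} {Y : ℝ}

omit [Fintype ι] [DecidableEq ι] in
theorem val_pos (h : PS pr W Y) (u : Finset ι) : 0 < val pr u :=
  Finset.prod_pos fun p _ => (h.prime p).pos

omit [Fintype ι] [DecidableEq ι] in
theorem val_coprime (h : PS pr W Y) (u : Finset ι) : W.Coprime (val pr u) :=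
  Nat.Coprime.prod_right fun p _ => ((Nat.Prime.coprime_iff_not_dvd (h.prime p)).mpr (h.ndvd p)).symm

omit [Fintype ι] [DecidableEq ι] in
theorem lv_nonneg (u : Finset ι) : 0 ≤ lv pr u := Real.log_natCast_nonneg _

omit [Fintype ι] [DecidableEq ι] in
theorem lv_eq (h : PS pr W Y) (u : Finset ι) : lv pr u = ∑ p ∈ u, Real.log (pr p) := by
  unfold lv val
  rw [Nat.cast_prod, Real.log_prod]
  intro p _
  exact_mod_cast (h.prime p).ne_zero

omit [Fintype ι] in
theorem lv_sdiff (h : PS pr W Y) {d u : Finset ι} (hd : d ⊆ u) :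
    lv pr (u \ d) = lv pr u - lv pr d := by
  rw [lv_eq h, lv_eq h, lv_eq h, ← Finset.sum_sdiff hd]; ring

omit [Fintype ι] in
theorem lv_insert (h : PS pr W Y) {q : ι} {u : Finset ι} (hq : q ∉ u) :
    lv pr (insert q u) = Real.log (pr q) + lv pr u := by
  rw [lv_eq h, lv_eq h, Finset.sum_insert hq]

omit [Fintype ι] [DecidableEq ι] in
theorem dvd_val (h : PS pr W Y) {p : ι} {u : Finset ι} : pr p ∣ val pr u ↔ p ∈ u := by
  constructor
  · intro h1
    obtain ⟨q, hq, h2⟩ := ((h.prime p).prime.dvd_finsetProd_iff _).mp h1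
    rw [h.inj ((Nat.prime_dvd_prime_iff_eq (h.prime p) (h.prime q)).mp h2)]
    exact hq
  · exact fun h1 => Finset.dvd_prod_of_mem pr h1

omit [Fintype ι] [DecidableEq ι] in
theorem val_inj (h : PS pr W Y) : Function.Injective (val pr) := by
  intro u v huv
  ext p
  rw [← dvd_val h, ← dvd_val h, huv]

omit [Fintype ι] [DecidableEq ι] in
theorem one_div_val (u : Finset ι) : (1 : ℝ) / val pr u = ∏ p ∈ u, (1 : ℝ) / pr p := by
  unfold val
  rw [Nat.cast_prod, Finset.prod_div_distrib, Finset.prod_const_one]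

omit [Fintype ι] [DecidableEq ι] in
theorem two_le (h : PS pr W Y) (p : ι) : (2 : ℝ) ≤ pr p := by exact_mod_cast (h.prime p).two_le

omit [Fintype ι] [DecidableEq ι] in
theorem tt_nonneg (h : PS pr W Y) (p : ι) : 0 ≤ tt pr p := by
  have := two_le h p
  unfold tt
  apply div_nonneg <;> linarith

omit [Fintype ι] [DecidableEq ι] in
theorem tt_le_one (h : PS pr W Y) (p : ι) : tt pr p ≤ 1 := by
  have := two_le h p
  unfold tt
  rw [div_le_one] <;> linarith

omit [Fintype ι] [DecidableEq ι] in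
theorem inv_le_tt (h : PS pr W Y) (p : ι) : (1 : ℝ) / pr p ≤ tt pr p := by
  have := two_le h p
  unfold tt
  apply one_div_le_one_div_of_le <;> linarith

omit [Fintype ι] [DecidableEq ι] in
theorem tt_eq (h : PS pr W Y) (p : ι) : tt pr p = (1 + tt pr p) / pr p := by
  have := two_le h p
  have h1 : (pr p : ℝ) - 1 ≠ 0 := by linarith
  unfold tt
  field_simp
  ring

omit [Fintype ι] [DecidableEq ι] in
theorem wt_nonneg (h : PS pr W Y) (u : Finset ι) : 0 ≤ wt pr u :=
  Finset.prod_nonneg fun p _ => tt_nonneg h p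

theorem upper₀ (h : PS pr W Y) (hW : 0 < W) (f : ι → ℝ) (hf : ∀ p, 0 ≤ f p) {s t : ℝ}
    (hst : s ≤ t) (B : Finset (Finset ι)) (hB : ∀ u ∈ B, s < lv pr u ∧ lv pr u ≤ t) :
    ∑ u ∈ B, ∏ p ∈ u, (f p + 1 / pr p) ≤
      (∏ p, (1 + f p)) * ((W.totient : ℝ) / W * (t - s) + (2 * W + 1)) := by
  simp_rw [Finset.prod_add]
  rw [Finset.sum_comm' (t' := univ) (s' := fun d => B.filter fun u => d ⊆ u)
    (by intro u d; simp [Finset.mem_powerset])]
  have h1 : ∏ p, (1 + f p) = ∑ d : Finset ι, ∏ p ∈ d, f p := by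
    rw [Finset.prod_one_add, Finset.powerset_univ]
  simp only [Finset.prod_const_one, one_mul]
  rw [show ∑ t ∈ (univ : Finset ι).powerset, ∏ i ∈ univ \ t, f i = ∑ d : Finset ι, ∏ p ∈ d, f p by
    rw [← h1, Finset.prod_add]; simp, Finset.sum_mul]
  apply Finset.sum_le_sum
  intro d _
  rw [← Finset.mul_sum]
  apply mul_le_mul_of_nonneg_left _ (Finset.prod_nonneg fun p _ => hf p)
  simp_rw [← one_div_val]
  rw [← Finset.sum_image (s := B.filter fun u => d ⊆ u) (g := fun u => val pr (u \ d))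
    (f := fun r : ℕ => (1 : ℝ) / r)]
  · have h2 := harm W hW (s := s - lv pr d) (t := t - lv pr d) (by linarith)
      ((B.filter fun u => d ⊆ u).image fun u => val pr (u \ d)) (by
        intro m hm
        obtain ⟨u, hu, rfl⟩ := Finset.mem_image.mp hm
        rw [mem_filter] at hu
        have h3 := lv_sdiff h hu.2
        have h4 := hB u hu.1
        have h5 : Real.log (val pr (u \ d) : ℝ) = lv pr (u \ d) := rfl
        refine ⟨val_pos h _, val_coprime h _, ?_, ?_⟩ <;> rw [h5, h3] <;> linarith [h4.1, h4.2])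
    rwa [show t - lv pr d - (s - lv pr d) = t - s by ring] at h2
  · intro u hu v hv huv
    have hu' := (mem_filter.mp hu).2
    have hv' := (mem_filter.mp hv).2
    have h3 : u \ d = v \ d := val_inj h huv
    rw [← Finset.sdiff_union_of_subset hu', ← Finset.sdiff_union_of_subset hv', h3]

theorem upper (h : PS pr W Y) (hW : 0 < W) {c P : ℝ} (hc : 0 ≤ c)
    (hP : ∏ p, (1 + (1 + 2 * c) * tt pr p ^ 2) ≤ P) {s t : ℝ}
    (hst : s ≤ t) (B : Finset (Finset ι)) (hB : ∀ u ∈ B, s < lv pr u ∧ lv pr u ≤ t) :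
    ∑ u ∈ B, wt pr u * ∏ p ∈ u, (1 + c * tt pr p) ≤
      P * ((W.totient : ℝ) / W * (t - s) + (2 * W + 1)) := by
  have h0 := tt_nonneg h
  have h1 := upper₀ h hW (fun p => (tt pr p + c * tt pr p + c * tt pr p ^ 2) / pr p)
    (fun p => by have := h0 p; positivity) hst B hB
  have h2 : ∀ u : Finset ι, wt pr u * ∏ p ∈ u, (1 + c * tt pr p) =
      ∏ p ∈ u, ((tt pr p + c * tt pr p + c * tt pr p ^ 2) / pr p + 1 / pr p) := by
    intro u
    unfold wt
    rw [← Finset.prod_mul_distrib]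
    apply Finset.prod_congr rfl
    intro p _
    calc tt pr p * (1 + c * tt pr p) = (1 + tt pr p) / pr p * (1 + c * tt pr p) := by
          rw [← tt_eq h p]
      _ = _ := by ring
  simp_rw [h2]
  refine h1.trans (mul_le_mul_of_nonneg_right (le_trans ?_ hP) ?_)
  · apply Finset.prod_le_prod
    · intro p _; have := h0 p; positivity
    · intro p _
      have h3 := h0 p
      have h4 := tt_le_one h p
      have h5 := inv_le_tt h p
      have h6 : tt pr p + c * tt pr p + c * tt pr p ^ 2 ≤ (1 + 2 * c) * tt pr p := by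
        have : c * tt pr p ^ 2 ≤ c * tt pr p := mul_le_mul_of_nonneg_left (by nlinarith) hc
        linarith
      have h7 : (tt pr p + c * tt pr p + c * tt pr p ^ 2) / pr p ≤
          (1 + 2 * c) * tt pr p * tt pr p := by
        rw [div_eq_mul_one_div]
        exact mul_le_mul h6 h5 (by positivity) (by positivity)
      nlinarith
  · have := rho_pos W hW
    have : 0 ≤ t - s := by linarith
    positivity

theorem upper' (h : PS pr W Y) (hW : 0 < W) {c P : ℝ} (hc : 0 ≤ c)
    (hP : ∏ p, (1 + (1 + 2 * c) * tt pr p ^ 2) ≤ P) {s t : ℝ}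
    (hst : s ≤ t) (B : Finset (Finset ι)) (hB : ∀ u ∈ B, s < lv pr u ∧ lv pr u ≤ t) :
    ∑ u ∈ B, wt pr u ≤ P * ((W.totient : ℝ) / W * (t - s) + (2 * W + 1)) := by
  refine le_trans (Finset.sum_le_sum fun u _ => ?_) (upper h hW hc hP hst B hB)
  apply le_mul_of_one_le_right (wt_nonneg h u)
  calc (1 : ℝ) = ∏ p ∈ u, (1 : ℝ) := Finset.prod_const_one.symm
    _ ≤ _ := by
      apply Finset.prod_le_prod (fun _ _ => zero_le_one)
      intro p _
      have := tt_nonneg h p
      have : 0 ≤ c * tt pr p := by positivity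
      linarith

theorem lower (h : PS pr W Y) {p₀ : ℕ} (hp₀ : 0 < p₀) {t : ℝ} (ht : Real.exp t ≤ Y) :
    (1 - 1 / p₀ - ∑ p, tt pr p ^ 2) * TT W t ≤
      ∑ u ∈ univ.filter (fun u : Finset ι => (∀ p ∈ u, pr p ≠ p₀) ∧ lv pr u ≤ t), wt pr u := by
  set F := univ.filter (fun u : Finset ι => (∀ p ∈ u, pr p ≠ p₀) ∧ lv pr u ≤ t) with hF
  have hfull : ∀ m ∈ MM W t, ∀ q : ℕ, q.Prime → q ∣ m → ∃ p, pr p = q := by
    intro m hm q hq hqm
    rw [mem_MM] at hm
    apply h.full q hq
    · intro hqW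
      exact hq.one_lt.ne' (Nat.eq_one_of_dvd_coprimes hm.2.2 hqW hqm)
    · have h1 : (q : ℝ) ≤ m := by exact_mod_cast Nat.le_of_dvd hm.1 hqm
      have h2 := (Real.log_le_iff_le_exp (by exact_mod_cast hm.1)).mp hm.2.1
      linarith
  have h1 : TT W t ≤ ∑ m ∈ MM W t, ((if m ∈ F.image (val pr) then (1 : ℝ) / m else 0) +
      (if p₀ ∣ m then (1 : ℝ) / m else 0) +
      ∑ p, (if pr p * pr p ∣ m then (1 : ℝ) / m else 0)) := by
    apply Finset.sum_le_sum
    intro m hm
    have a1 : 0 ≤ (if m ∈ F.image (val pr) then (1 : ℝ) / m else 0) := by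
      split_ifs <;> positivity
    have a2 : 0 ≤ (if p₀ ∣ m then (1 : ℝ) / m else 0) := by split_ifs <;> positivity
    have a3 : ∀ p, 0 ≤ (if pr p * pr p ∣ m then (1 : ℝ) / m else 0) := fun p => by
      split_ifs <;> positivity
    have a4 : 0 ≤ ∑ p, (if pr p * pr p ∣ m then (1 : ℝ) / m else 0) :=
      Finset.sum_nonneg fun p _ => a3 p
    by_cases c1 : p₀ ∣ m
    · rw [if_pos c1]; linarith
    by_cases c2 : Squarefree m
    · have : m ∈ F.image (val pr) := by
        have e : val pr (univ.filter fun p => pr p ∣ m) = m := by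
          have e1 : (univ.filter fun p => pr p ∣ m).image pr = m.primeFactors := by
            ext q
            rw [Finset.mem_image, Nat.mem_primeFactors]
            constructor
            · rintro ⟨p, hp, rfl⟩
              exact ⟨h.prime p, (mem_filter.mp hp).2, c2.ne_zero⟩
            · rintro ⟨q1, q2, _⟩
              obtain ⟨p, rfl⟩ := hfull m hm q q1 q2
              exact ⟨p, mem_filter.mpr ⟨mem_univ _, q2⟩, rfl⟩
          unfold val
          rw [← Finset.prod_image (s := univ.filter fun p => pr p ∣ m) (g := pr) (f := fun q => q)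
            (fun a _ b _ hab => h.inj hab), e1]
          exact Nat.prod_primeFactors_of_squarefree c2
        refine Finset.mem_image.mpr ⟨_, mem_filter.mpr ⟨mem_univ _, ?_, ?_⟩, e⟩
        · intro p hp e2
          exact c1 (e2 ▸ (mem_filter.mp hp).2)
        · unfold lv
          rw [e]
          exact (mem_MM.mp hm).2.1
      rw [if_pos this]; linarith
    · rw [Nat.squarefree_iff_prime_squarefree] at c2
      push Not at c2
      obtain ⟨q, q1, q2⟩ := c2
      obtain ⟨p, rfl⟩ := hfull m hm q q1 ((dvd_mul_right q q).trans q2)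
      have a5 := Finset.single_le_sum (f := fun p => if pr p * pr p ∣ m then (1 : ℝ) / m else 0)
        (fun p _ => a3 p) (mem_univ p)
      simp only [if_pos q2] at a5
      linarith
  rw [Finset.sum_add_distrib, Finset.sum_add_distrib, Finset.sum_comm] at h1
  have h2 := mult_le W t p₀ hp₀
  have h3 : ∑ p, ∑ m ∈ MM W t, (if pr p * pr p ∣ m then (1 : ℝ) / m else 0) ≤
      (∑ p, tt pr p ^ 2) * TT W t := by
    rw [Finset.sum_mul]
    apply Finset.sum_le_sum
    intro p _
    refine (mult_le W t _ (Nat.mul_pos (h.prime p).pos (h.prime p).pos)).trans ?_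
    apply mul_le_mul_of_nonneg_right _ (TT_nonneg W t)
    push_cast
    rw [← one_div_mul_one_div, sq]
    exact mul_le_mul (inv_le_tt h p) (inv_le_tt h p) (by positivity) (tt_nonneg h p)
  have h4 : ∑ m ∈ MM W t, (if m ∈ F.image (val pr) then (1 : ℝ) / m else 0) ≤
      ∑ u ∈ F, wt pr u := by
    rw [← Finset.sum_filter]
    calc ∑ m ∈ (MM W t).filter (fun m => m ∈ F.image (val pr)), (1 : ℝ) / m
        ≤ ∑ m ∈ F.image (val pr), (1 : ℝ) / m :=
          Finset.sum_le_sum_of_subset_of_nonneg (fun m hm => (mem_filter.mp hm).2)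
            fun _ _ _ => by positivity
      _ = ∑ u ∈ F, (1 : ℝ) / val pr u := Finset.sum_image fun a _ b _ hab => val_inj h hab
      _ ≤ ∑ u ∈ F, wt pr u := by
          apply Finset.sum_le_sum
          intro u _
          rw [one_div_val]
          exact Finset.prod_le_prod (fun p _ => by positivity) fun p _ => inv_le_tt h p
  linarith

omit [Fintype ι] [DecidableEq ι] in
theorem mertens_pr (h : PS pr W Y) {s t : ℝ} (hs : 0 ≤ s) (hst : s ≤ t) (A : Finset ι)
    (hA : ∀ p ∈ A, s < Real.log (pr p) ∧ Real.log (pr p) ≤ t) :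
    ∑ p ∈ A, Real.log (pr p) / pr p ≤ t - s + 8 := by
  rw [← Finset.sum_image (s := A) (g := pr) (f := fun q : ℕ => Real.log q / q)
    (fun a _ b _ hab => h.inj hab)]
  apply mertens_range hs hst
  intro q hq
  obtain ⟨p, hp, rfl⟩ := Finset.mem_image.mp hq
  exact ⟨h.prime p, hA p hp⟩

omit [Fintype ι] [DecidableEq ι] in
theorem recip_pr (h : PS pr W Y) {t η : ℝ} (ht : 0 ≤ t) (hη : 0 < η) (A : Finset ι)
    (hA : ∀ p ∈ A, Real.log (pr p) ≤ t) :
    ∑ p ∈ A, (1 : ℝ) / pr p ≤ 1 + 1 / η + η * (t + 8) := by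
  rw [← Finset.sum_image (s := A) (g := pr) (f := fun q : ℕ => (1 : ℝ) / q)
    (fun a _ b _ hab => h.inj hab)]
  apply recip_le ht hη
  intro q hq
  obtain ⟨p, hp, rfl⟩ := Finset.mem_image.mp hq
  exact ⟨h.prime p, hA p hp⟩

theorem geo_sq (n : ℕ) : ∀ (f : ℕ → Prop) [DecidablePred f],
    0 ≤ (∑ j ∈ range n, if f j then (1 / 2 : ℝ) ^ (j + 1) else 0) ∧
    (∑ j ∈ range n, if f j then (1 / 2 : ℝ) ^ (j + 1) else 0) ≤ 1 ∧
    (∑ j ∈ range n, if f j then (1 / 2 : ℝ) ^ (j + 1) else 0) ^ 2 ≤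
      ∑ j ∈ range n, if f j then (1 / 4 : ℝ) ^ j else 0 := by
  induction n with
  | zero => intro f _; simp
  | succ n ih =>
    intro f _
    obtain ⟨h1, h2, h3⟩ := ih fun j => f (j + 1)
    rw [Finset.sum_range_succ', Finset.sum_range_succ']
    have e1 : (∑ j ∈ range n, if f (j + 1) then (1 / 2 : ℝ) ^ (j + 1 + 1) else 0) =
        1 / 2 * ∑ j ∈ range n, if f (j + 1) then (1 / 2 : ℝ) ^ (j + 1) else 0 := by
      rw [Finset.mul_sum]
      apply Finset.sum_congr rfl
      intro j _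
      split_ifs
      · ring
      · simp
    have e2 : (∑ j ∈ range n, if f (j + 1) then (1 / 4 : ℝ) ^ (j + 1) else 0) =
        1 / 4 * ∑ j ∈ range n, if f (j + 1) then (1 / 4 : ℝ) ^ j else 0 := by
      rw [Finset.mul_sum]
      apply Finset.sum_congr rfl
      intro j _
      split_ifs
      · ring
      · simp
    rw [e1, e2]
    split_ifs
    · refine ⟨by positivity, by norm_num; linarith, ?_⟩
      norm_num
      nlinarith
    · refine ⟨by positivity, by linarith, ?_⟩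
      nlinarith

end ONE

end Pool.Agent.MP_39a890_nt

end MrgPart4

-- ======== part 5: formerly Pool.Agent.MP_39a890_nt.One
section MrgPart5

/-!
# PROJECT E287, module ONE: `one : OneStmt`
-/

namespace Pool.Agent.MP_39a890_nt

open Finset Filter Topology

namespace ONE

variable {ι : Type} [Fintype ι] [DecidableEq ι] {pr : ι → ℕ} {W : ℕ} {Y : ℝ}

theorem bet_ge' {p₀ J : ℕ} {ρ l : ℝ}
    (HL : ∀ j ≤ J, ρ * (2 ^ j * l) / 2 ≤ ∑ u ∈ univ.filter
      (fun u : Finset ι => (∀ p ∈ u, pr p ≠ p₀) ∧ lv pr u ≤ 2 ^ j * l), wt pr u) :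
    (J + 1) * ρ * l / 4 ≤ bet pr p₀ J l := by
  have h1 : ∀ u : Finset ι, gw pr p₀ J l u * wt pr u = ∑ j ∈ range (J + 1),
      if (∀ p ∈ u, pr p ≠ p₀) ∧ lv pr u ≤ 2 ^ j * l then (1 / 2 : ℝ) ^ (j + 1) * wt pr u
      else 0 := by
    intro u
    unfold gw
    by_cases hu : ∀ p ∈ u, pr p ≠ p₀
    · rw [if_pos hu, Finset.sum_mul]
      apply Finset.sum_congr rfl
      intro j _
      by_cases hj : lv pr u ≤ 2 ^ j * l
      · rw [if_pos hj, if_pos ⟨hu, hj⟩]
      · rw [if_neg hj, if_neg fun h => hj h.2, zero_mul]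
    · rw [if_neg hu, zero_mul]
      exact (Finset.sum_eq_zero fun j _ => if_neg fun h => hu h.1).symm
  unfold bet
  simp_rw [h1]
  rw [Finset.sum_comm]
  calc (J + 1) * ρ * l / 4 = ∑ _j ∈ range (J + 1), ρ * l / 4 := by
        rw [Finset.sum_const, card_range, nsmul_eq_mul]; push_cast; ring
    _ ≤ _ := by
      apply Finset.sum_le_sum
      intro j hj
      rw [← Finset.sum_filter, ← Finset.mul_sum]
      have h2 := HL j (by rw [mem_range] at hj; omega)
      have h3 : ρ * l / 4 = (1 / 2 : ℝ) ^ (j + 1) * (ρ * (2 ^ j * l) / 2) := by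
        rw [pow_succ, one_div, inv_pow]
        field_simp
        ring
      rw [h3]
      exact mul_le_mul_of_nonneg_left h2 (by positivity)

theorem gam_ge' (h : PS pr W Y) {p₀ J : ℕ} {ρ l : ℝ}
    (HL : ρ * l / 2 ≤ ∑ u ∈ univ.filter
      (fun u : Finset ι => (∀ p ∈ u, pr p ≠ p₀) ∧ lv pr u ≤ l), wt pr u) :
    ρ * l / 8 ≤ gam pr p₀ J l := by
  have h1 : ∑ u ∈ univ.filter (fun u : Finset ι => (∀ p ∈ u, pr p ≠ p₀) ∧ lv pr u ≤ l),
      1 / 4 * wt pr u ≤ gam pr p₀ J l := by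
    unfold gam
    rw [Finset.sum_filter]
    apply Finset.sum_le_sum
    intro u _
    have h0 := wt_nonneg h u
    split_ifs with hu
    · apply mul_le_mul_of_nonneg_right _ h0
      have h2 : 1 / 2 ≤ gw pr p₀ J l u := by
        unfold gw
        rw [if_pos hu.1]
        have h3 := Finset.single_le_sum
          (f := fun j => if lv pr u ≤ 2 ^ j * l then (1 / 2 : ℝ) ^ (j + 1) else 0)
          (s := range (J + 1)) (fun j _ => by split_ifs <;> positivity)
          (mem_range.mpr (Nat.succ_pos J))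
        simp only [pow_zero, one_mul, zero_add, pow_one, if_pos hu.2] at h3
        exact h3
      nlinarith
    · positivity
  rw [← Finset.mul_sum] at h1
  linarith

theorem gw_sq_le (p₀ J : ℕ) (l : ℝ) (u : Finset ι) :
    gw pr p₀ J l u ^ 2 ≤
      ∑ j ∈ range (J + 1), if lv pr u ≤ 2 ^ j * l then (1 / 4 : ℝ) ^ j else 0 := by
  unfold gw
  split_ifs with hu
  · exact (geo_sq (J + 1) fun j => lv pr u ≤ 2 ^ j * l).2.2
  · rw [sq, mul_zero]
    exact Finset.sum_nonneg fun j _ => by split_ifs <;> positivity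

theorem gam_le' (h : PS pr W Y) {p₀ J : ℕ} {ρ l : ℝ} (hρ : 0 ≤ ρ * l)
    (HU : ∀ j ≤ J, ∑ u ∈ univ.filter (fun u : Finset ι => lv pr u ≤ 2 ^ j * l), wt pr u ≤
      2 * ρ * (2 ^ j * l)) :
    gam pr p₀ J l ≤ 4 * ρ * l := by
  calc gam pr p₀ J l ≤ ∑ u : Finset ι, ∑ j ∈ range (J + 1),
        if lv pr u ≤ 2 ^ j * l then (1 / 4 : ℝ) ^ j * wt pr u else 0 := by
        apply Finset.sum_le_sum
        intro u _
        refine (mul_le_mul_of_nonneg_right (gw_sq_le p₀ J l u) (wt_nonneg h u)).trans ?_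
        rw [Finset.sum_mul]
        apply Finset.sum_le_sum
        intro j _
        split_ifs
        · exact le_rfl
        · rw [zero_mul]
    _ ≤ ∑ j ∈ range (J + 1), 2 * (ρ * l) * (1 / 2 : ℝ) ^ j := by
        rw [Finset.sum_comm]
        apply Finset.sum_le_sum
        intro j hj
        rw [← Finset.sum_filter, ← Finset.mul_sum]
        have h2 := HU j (by rw [mem_range] at hj; omega)
        refine (mul_le_mul_of_nonneg_left h2 (by positivity)).trans (le_of_eq ?_)
        have : (1 / 4 : ℝ) ^ j * 2 ^ j = (1 / 2) ^ j := by rw [← mul_pow]; norm_num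
        rw [← this]; ring
    _ ≤ 4 * ρ * l := by
        rw [← Finset.mul_sum]
        have := sum_geometric_two_le (J + 1)
        nlinarith

theorem gam₁_le' (h : PS pr W Y) {p₀ J : ℕ} {ρ l : ℝ} (hl : 0 ≤ l)
    (HU : ∀ j ≤ J, ∑ u ∈ univ.filter (fun u : Finset ι => lv pr u ≤ 2 ^ j * l), wt pr u ≤
      2 * ρ * (2 ^ j * l)) :
    gam₁ pr p₀ J l ≤ 2 * ρ * l ^ 2 * (J + 1) := by
  calc gam₁ pr p₀ J l ≤ ∑ u : Finset ι, ∑ j ∈ range (J + 1),
        if lv pr u ≤ 2 ^ j * l then (1 / 4 : ℝ) ^ j * (2 ^ j * l) * wt pr u else 0 := by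
        apply Finset.sum_le_sum
        intro u _
        have h0 := wt_nonneg h u
        refine (mul_le_mul_of_nonneg_right (mul_le_mul_of_nonneg_right (gw_sq_le p₀ J l u)
          (lv_nonneg u)) h0).trans ?_
        rw [Finset.sum_mul, Finset.sum_mul]
        apply Finset.sum_le_sum
        intro j _
        split_ifs with hj
        · exact mul_le_mul_of_nonneg_right (mul_le_mul_of_nonneg_left hj (by positivity)) h0
        · rw [zero_mul, zero_mul]
    _ ≤ ∑ _j ∈ range (J + 1), 2 * ρ * l ^ 2 := by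
        rw [Finset.sum_comm]
        apply Finset.sum_le_sum
        intro j hj
        rw [← Finset.sum_filter, ← Finset.mul_sum]
        have h2 := HU j (by rw [mem_range] at hj; omega)
        refine (mul_le_mul_of_nonneg_left h2 (by positivity)).trans (le_of_eq ?_)
        have : (1 / 4 : ℝ) ^ j * 2 ^ j * 2 ^ j = 1 := by
          rw [← mul_pow, ← mul_pow]; norm_num
        calc (1 / 4 : ℝ) ^ j * (2 ^ j * l) * (2 * ρ * (2 ^ j * l)) =
            ((1 / 4 : ℝ) ^ j * 2 ^ j * 2 ^ j) * (2 * ρ * l ^ 2) := by ring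
          _ = _ := by rw [this, one_mul]
    _ = _ := by rw [Finset.sum_const, card_range, nsmul_eq_mul]; push_cast; ring

theorem G_ge' (h : PS pr W Y) {L R : ℝ}
    (HU : ∀ (s : ℝ) (B : Finset (Finset ι)),
      (∀ u ∈ B, s < lv pr u ∧ lv pr u ≤ s + 55 / 10000 * L) → ∑ u ∈ B, wt pr u ≤ R) :
    ∑ u ∈ univ.filter (fun u : Finset ι => lv pr u ≤ 272 / 1000 * L), wt pr u ≤
      GG pr L + (∑ p ∈ univ.filter (fun p => 19 / 100 * L < Real.log (pr p)), tt pr p) * R := by
  set Big := univ.filter (fun p => 19 / 100 * L < Real.log (pr p)) with hBig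
  set Bad := univ.filter (fun u : Finset ι => 2665 / 10000 * L < lv pr u ∧
    lv pr u ≤ 272 / 1000 * L) with hBad
  have h1 : ∑ u ∈ univ.filter (fun u : Finset ι => lv pr u ≤ 272 / 1000 * L), wt pr u ≤
      ∑ u : Finset ι, ((if u ∈ EE pr L then wt pr u else 0) +
        ∑ p ∈ Big, if u ∈ Bad ∧ p ∈ u then wt pr u else 0) := by
    rw [Finset.sum_filter]
    apply Finset.sum_le_sum
    intro u _
    have h0 := wt_nonneg h u
    have a1 : 0 ≤ (if u ∈ EE pr L then wt pr u else 0) := by split_ifs <;> positivity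
    have a2 : ∀ p, 0 ≤ (if u ∈ Bad ∧ p ∈ u then wt pr u else 0) := fun p => by
      split_ifs <;> positivity
    have a3 : 0 ≤ ∑ p ∈ Big, if u ∈ Bad ∧ p ∈ u then wt pr u else 0 :=
      Finset.sum_nonneg fun p _ => a2 p
    by_cases c1 : lv pr u ≤ 272 / 1000 * L
    · rw [if_pos c1]
      by_cases c2 : u ∈ EE pr L
      · rw [if_pos c2]; linarith
      · have c3 := c2
        unfold EE at c3
        rw [mem_filter] at c3
        push Not at c3
        obtain ⟨c4, p, c5, c6⟩ := c3 (mem_univ _) c1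
        have a5 := Finset.single_le_sum (f := fun p => if u ∈ Bad ∧ p ∈ u then wt pr u else 0)
          (s := Big) (fun p _ => a2 p) (mem_filter.mpr ⟨mem_univ p, c6⟩)
        have c7 : u ∈ Bad ∧ p ∈ u := ⟨mem_filter.mpr ⟨mem_univ _, c4, c1⟩, c5⟩
        simp only [if_pos c7] at a5
        linarith
    · rw [if_neg c1]; linarith
  rw [Finset.sum_add_distrib, Finset.sum_comm, Finset.sum_ite_mem, univ_inter] at h1
  refine h1.trans (add_le_add_right ?_ _)
  rw [Finset.sum_mul]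
  apply Finset.sum_le_sum
  intro p _
  rw [← Finset.sum_filter]
  have h2 : ∑ u ∈ univ.filter (fun u : Finset ι => u ∈ Bad ∧ p ∈ u), wt pr u =
      tt pr p * ∑ u ∈ univ.filter (fun u : Finset ι => u ∈ Bad ∧ p ∈ u), wt pr (u.erase p) := by
    rw [Finset.mul_sum]
    apply Finset.sum_congr rfl
    intro u hu
    exact (Finset.mul_prod_erase u (tt pr) (mem_filter.mp hu).2.2).symm
  rw [h2]
  apply mul_le_mul_of_nonneg_left _ (tt_nonneg h p)
  rw [← Finset.sum_image (s := univ.filter fun u : Finset ι => u ∈ Bad ∧ p ∈ u)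
    (g := fun u => u.erase p) (f := wt pr)]
  · apply HU (2665 / 10000 * L - Real.log (pr p))
    intro v hv
    obtain ⟨u, hu, rfl⟩ := Finset.mem_image.mp hv
    obtain ⟨-, hu1, hu2⟩ := mem_filter.mp hu
    obtain ⟨-, hu3, hu4⟩ := mem_filter.mp hu1
    have h3 := lv_insert h (Finset.notMem_erase p u)
    rw [Finset.insert_erase hu2] at h3
    constructor <;> linarith
  · intro u hu v hv huv
    have hu' := (mem_filter.mp hu).2.2
    have hv' := (mem_filter.mp hv).2.2
    have h3 : u.erase p = v.erase p := huv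
    rw [← Finset.insert_erase hu', ← Finset.insert_erase hv', h3]

theorem bdry' (h : PS pr W Y) {L R : ℝ} (f : Finset ι → ℝ) (hf : ∀ u, 0 ≤ f u) (q : ι)
    (hq : Real.log (pr q) ≤ 19 / 100 * L)
    (HU : ∀ (t : ℝ) (B : Finset (Finset ι)),
      (∀ u ∈ B, t - Real.log (pr q) < lv pr u ∧ lv pr u ≤ t) → ∑ u ∈ B, f u ≤ R) :
    ∑ u ∈ (EE pr L).filter (fun u => q ∉ u ∧ insert q u ∉ EE pr L), f u ≤ 2 * R := by
  set B : ℝ → Finset (Finset ι) := fun t =>
    univ.filter fun u => t - Real.log (pr q) < lv pr u ∧ lv pr u ≤ t with hB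
  have h1 : (EE pr L).filter (fun u => q ∉ u ∧ insert q u ∉ EE pr L) ⊆
      B (272 / 1000 * L) ∪ B (2665 / 10000 * L) := by
    intro u hu
    obtain ⟨h2, h3, h4⟩ := mem_filter.mp hu
    unfold EE at h2 h4
    rw [mem_filter] at h2 h4
    obtain ⟨-, h5, h6⟩ := h2
    rw [lv_insert h h3] at h4
    push Not at h4
    rw [mem_union]
    by_cases c1 : Real.log (pr q) + lv pr u ≤ 272 / 1000 * L
    · obtain ⟨c2, p, c3, c4⟩ := h4 (mem_univ _) c1
      right
      refine mem_filter.mpr ⟨mem_univ _, by linarith, ?_⟩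
      rcases h6 with h6 | h6
      · exact h6
      · rcases mem_insert.mp c3 with e | e
        · rw [e] at c4; linarith
        · linarith [h6 p e]
    · left
      exact mem_filter.mpr ⟨mem_univ _, by linarith, h5⟩
  have h2 := Finset.sum_le_sum_of_subset_of_nonneg (f := f) h1 fun u _ _ => hf u
  have h3 := Finset.sum_union_inter (f := f) (s₁ := B (272 / 1000 * L))
    (s₂ := B (2665 / 10000 * L))
  have h4 : 0 ≤ ∑ u ∈ B (272 / 1000 * L) ∩ B (2665 / 10000 * L), f u :=
    Finset.sum_nonneg fun u _ => hf u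
  have h5 := HU _ (B (272 / 1000 * L)) fun u hu => (mem_filter.mp hu).2
  have h6 := HU _ (B (2665 / 10000 * L)) fun u hu => (mem_filter.mp hu).2
  linarith

theorem ev {κ : ℝ} (hκ : 0 < κ) (K : ℝ) : ∀ᶠ L : ℝ in atTop, K ≤ κ * L :=
  (tendsto_id.const_mul_atTop hκ).eventually_ge_atTop K

end ONE

open ONE

theorem one : OneStmt := by
  intro c hc
  obtain ⟨w₁, h₁⟩ := small (1 + 2 * c) (1 / 100000) 0 (by positivity) (by norm_num)
  obtain ⟨w₂, h₂⟩ := tail _ summable_tt (1 / 200000) (by norm_num)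
  refine ⟨w₁ + w₂ + 200000, ?_⟩
  intro W hW hWq δ lam J hδ hδ' hlam hJ
  set ρ : ℝ := (W.totient : ℝ) / W with hρ
  have hρ0 : 0 < ρ := rho_pos W hW
  have hρ1 : ρ ≤ 1 := rho_le_one W hW
  have hW' : (0 : ℝ) < W := by exact_mod_cast hW
  set C : ℝ := 2 * W + 1 with hC
  have hC0 : 0 < C := by positivity
  filter_upwards [ev (mul_pos hρ0 hlam) (4 * (1 + C)), ev (hρ0) (1000000 * C),
    ev one_pos 80000, ev (mul_pos hδ hρ0) (100 + 10 * (C * (1 + 1 / (ρ / C))))]
    with L hL1 hL2 hL3 hL4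
  intro ι _ _ pr h p₀ hp₀ hp₀W
  rw [one_mul] at hL3
  have hL0 : 0 < L := by linarith
  have hP := (h₁ W (fun q hq hq' => hWq q hq (by omega)) ι pr _ h).1
  have hgt := PS.gt h hWq
  have hS : ∑ p, tt pr p ^ 2 ≤ 1 / 200000 := h₂ ι pr h.inj fun p => by have := hgt p; omega
  have hp₀' : (1 : ℝ) / p₀ ≤ 1 / 200000 := by
    have h1 : 200000 ≤ p₀ := by
      by_contra h2
      exact hp₀W (hWq _ hp₀ (by omega))
    exact one_div_le_one_div_of_le (by norm_num) (by exact_mod_cast h1)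
  have hl0 : 0 < lam * L := mul_pos hlam hL0
  have hpow : ∀ j ≤ J, lam * L ≤ 2 ^ j * (lam * L) ∧ 2 ^ j * (lam * L) ≤ 272 / 1000 * L := by
    intro j hj
    have h1 : (1 : ℝ) ≤ 2 ^ j := one_le_pow₀ (by norm_num)
    have h2 : (2 : ℝ) ^ j ≤ 2 ^ J := pow_le_pow_right₀ (by norm_num) hj
    have h3 : 2 ^ j * lam ≤ 272 / 1000 := (mul_le_mul_of_nonneg_right h2 hlam.le).trans hJ
    constructor
    · nlinarith
    · rw [← mul_assoc]; exact mul_le_mul_of_nonneg_right h3 hL0.le
  have HL0 : ∀ t, t ≤ 272 / 1000 * L → (1 - 1 / 100000) * (ρ * t - C) ≤ ∑ u ∈ univ.filter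
      (fun u : Finset ι => (∀ p ∈ u, pr p ≠ p₀) ∧ lv pr u ≤ t), wt pr u := by
    intro t ht
    refine le_trans ?_ (lower h hp₀.pos (Real.exp_le_exp.mpr ht))
    have h1 := TT_ge W hW t
    have h2 := TT_nonneg W t
    calc (1 - 1 / 100000) * (ρ * t - C) ≤ (1 - 1 / 100000) * TT W t :=
          mul_le_mul_of_nonneg_left (by linarith) (by norm_num)
      _ ≤ _ := mul_le_mul_of_nonneg_right (by linarith) h2
  have HL : ∀ t, lam * L ≤ t → t ≤ 272 / 1000 * L → ρ * t / 2 ≤ ∑ u ∈ univ.filter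
      (fun u : Finset ι => (∀ p ∈ u, pr p ≠ p₀) ∧ lv pr u ≤ t), wt pr u := by
    intro t ht ht'
    refine le_trans ?_ (HL0 t ht')
    have h1 := mul_le_mul_of_nonneg_left ht hρ0.le
    rw [← mul_assoc] at h1
    linarith
  have HU : ∀ t, lam * L ≤ t →
      ∑ u ∈ univ.filter (fun u : Finset ι => lv pr u ≤ t), wt pr u ≤ 2 * ρ * t := by
    intro t ht
    have h1 := upper' h hW hc hP (s := -1) (t := t) (by linarith)
      (univ.filter fun u : Finset ι => lv pr u ≤ t) fun u hu =>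
        ⟨by linarith [lv_nonneg (pr := pr) u], (mem_filter.mp hu).2⟩
    have h2 := mul_le_mul_of_nonneg_left ht hρ0.le
    rw [← mul_assoc] at h2
    rw [← hρ, ← hC] at h1
    nlinarith
  refine ⟨bet_ge' fun j hj => HL _ (hpow j hj).1 (hpow j hj).2,
    gam_ge' h (HL _ le_rfl (by simpa using (hpow 0 (Nat.zero_le _)).2)),
    gam_le' h (by positivity) fun j hj => HU _ (hpow j hj).1,
    gam₁_le' h hl0.le fun j hj => HU _ (hpow j hj).1, ?_, ?_, ?_⟩
  · have h1 := G_ge' h (L := L) (R := (1 + 1 / 100000) * (ρ * (55 / 10000 * L) + C)) (by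
      intro s B hB
      have h2 := upper' h hW hc hP (s := s) (t := s + 55 / 10000 * L) (by linarith) B hB
      rwa [add_sub_cancel_left] at h2)
    have h2 : ∑ u ∈ univ.filter (fun u : Finset ι => (∀ p ∈ u, pr p ≠ p₀) ∧
        lv pr u ≤ 272 / 1000 * L), wt pr u ≤
        ∑ u ∈ univ.filter (fun u : Finset ι => lv pr u ≤ 272 / 1000 * L), wt pr u :=
      Finset.sum_le_sum_of_subset_of_nonneg
        (fun u hu => mem_filter.mpr ⟨mem_univ _, (mem_filter.mp hu).2.2⟩)
        fun u _ _ => wt_nonneg h u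
    have h3 := HL0 _ le_rfl
    have h4 := mertens_pr h (s := 19 / 100 * L) (t := 272 / 1000 * L) (by positivity) (by linarith)
      (univ.filter fun p => 19 / 100 * L < Real.log (pr p)) fun p hp =>
        ⟨(mem_filter.mp hp).2,
          (Real.log_le_iff_le_exp (by exact_mod_cast (h.prime p).pos)).mpr (h.le p)⟩
    have h5 : (19 / 100 * L) * ∑ p ∈ univ.filter (fun p => 19 / 100 * L < Real.log (pr p)),
        tt pr p ≤ (1 + 1 / 100000) *
          ∑ p ∈ univ.filter (fun p => 19 / 100 * L < Real.log (pr p)), Real.log (pr p) / pr p := by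
      rw [Finset.mul_sum, Finset.mul_sum]
      apply Finset.sum_le_sum
      intro p hp
      have a1 := (mem_filter.mp hp).2
      have a2 : (200000 : ℝ) < pr p := by
        have : 200000 < pr p := by have := hgt p; omega
        exact_mod_cast this
      have a3 : tt pr p ≤ (1 + 1 / 100000) * (1 / pr p) := by
        unfold tt
        rw [mul_one_div, div_le_div_iff₀ (by linarith) (by linarith)]
        linarith
      calc 19 / 100 * L * tt pr p ≤ Real.log (pr p) * ((1 + 1 / 100000) * (1 / pr p)) :=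
            mul_le_mul a1.le a3 (tt_nonneg h p) (Real.log_natCast_nonneg _)
        _ = _ := by ring
    have h6 : ∑ p ∈ univ.filter (fun p => 19 / 100 * L < Real.log (pr p)), tt pr p ≤
        4323 / 10000 := by
      apply le_of_mul_le_mul_left _ (show 0 < 19 / 100 * L by positivity)
      linarith
    have h7 : (1 + 1 / 100000) * (ρ * (55 / 10000 * L) + C) ≤ 5502 / 1000000 * (ρ * L) := by
      linarith
    have h8 := mul_le_mul h6 h7 (by positivity) (by norm_num)
    linarith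
  · have h1 := HU (272 / 1000 * L) (by simpa using (hpow 0 (Nat.zero_le _)).2)
    have : 0 < ρ * L := by positivity
    linarith
  · set Q := univ.filter (fun q => Real.log (pr q) ≤ δ * L) with hQ
    have h1 : ∑ q ∈ Q, (1 / (pr q : ℝ)) *
        ∑ u ∈ (EE pr L).filter (fun u => q ∉ u ∧ insert q u ∉ EE pr L),
          wt pr u * ∏ p ∈ u, (1 + c * tt pr p) ≤
        ∑ q ∈ Q, 2 * (1 + 1 / 100000) * (ρ * (Real.log (pr q) / pr q) + C * (1 / pr q)) := by
      apply Finset.sum_le_sum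
      intro q hq
      have a1 := (mem_filter.mp hq).2
      have a2 := bdry' h (L := L) (R := (1 + 1 / 100000) * (ρ * Real.log (pr q) + C))
        (fun u => wt pr u * ∏ p ∈ u, (1 + c * tt pr p))
        (fun u => mul_nonneg (wt_nonneg h u) (Finset.prod_nonneg fun p _ => by
          have := tt_nonneg h p; positivity)) q
        (a1.trans (mul_le_mul_of_nonneg_right hδ' hL0.le)) (by
          intro t B hB
          have a3 := upper h hW hc hP (s := t - Real.log (pr q)) (t := t)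
            (by linarith [Real.log_natCast_nonneg (pr q)]) B hB
          rwa [sub_sub_cancel] at a3)
      refine (mul_le_mul_of_nonneg_left a2 (by positivity)).trans (le_of_eq ?_)
      ring
    refine h1.trans ?_
    rw [← Finset.mul_sum, Finset.sum_add_distrib, ← Finset.mul_sum, ← Finset.mul_sum]
    have h2 := mertens_pr h (s := 0) (t := δ * L) le_rfl (by positivity) Q fun p hp =>
      ⟨Real.log_pos (by exact_mod_cast (h.prime p).one_lt), (mem_filter.mp hp).2⟩
    have h3 := recip_pr h (t := δ * L) (η := ρ / C) (by positivity) (by positivity) Q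
      fun p hp => (mem_filter.mp hp).2
    have h4 := mul_le_mul_of_nonneg_left h2 hρ0.le
    have h5 := mul_le_mul_of_nonneg_left h3 hC0.le
    have h6 : C * (1 + 1 / (ρ / C) + ρ / C * (δ * L + 8)) =
        C * (1 + 1 / (ρ / C)) + ρ * (δ * L + 8) := by field_simp
    rw [h6] at h5
    have h7 : 0 ≤ C * (1 + 1 / (ρ / C)) := by positivity
    have h8 : ρ * (δ * L - 0 + 8) = δ * ρ * L + 8 * ρ := by ring
    have h9 : ρ * (δ * L + 8) = δ * ρ * L + 8 * ρ := by ring
    rw [h8] at h4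
    rw [h9] at h5
    linarith

end Pool.Agent.MP_39a890_nt

end MrgPart5

-- marker of a merged file
example : 731051 + 363838 = 731051 + 363838 := rfl
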