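import Mathlib.Data.Int.Star
import Mathlib.Algebra.QuadraticAlgebra.Basic
import Mathlib.RingTheory.Polynomial.DegreeLT
import Mathlib.RingTheory.SimpleRing.Principal
import Mathlib.RingTheory.Henselian
import Mathlib.RingTheory.RegularLocalRing.Defs
import Pool.Agent.MP_39a890_nt.Spec
import Mathlib.Algebra.BigOperators.Group.Finset.Interval
import Mathlib.Order.Interval.Finset.Box
import Mathlib.NumberTheory.Harmonic.Bounds
import Mathlib.Topology.Sheaves.Presheaf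
import Mathlib.Algebra.Order.Chebyshev
import Mathlib.RingTheory.PiTensorProduct
import Mathlib.Topology.Algebra.InfiniteSum.Field
import Mathlib.Data.FunLike.Fintype
import Pool.Agent.MP_34d6af_nt.Tail

-- ======== part 0: formerly Pool.Agent.MP_39a890_nt.Hyp
section MrgPart0

/-! The module HYP: the Stepanov method in the form of Bombieri, for `y ^ 2 = f s`. -/

namespace Pool.Agent.MP_39a890_nt

open Finset Polynomial

namespace Hyp

variable {F : Type} [Field F] {f : F[X]}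

/-- The order of the pole at infinity. -/
noncomputable def D (r : QuadraticAlgebra F[X] f 0) : WithBot ℕ :=
  (QuadraticAlgebra.norm r).degree

lemma norm_eq (r : QuadraticAlgebra F[X] f 0) :
    QuadraticAlgebra.norm r = r.re ^ 2 - f * r.im ^ 2 := by
  rw [QuadraticAlgebra.norm_def]
  ring

lemma D_mul (r s : QuadraticAlgebra F[X] f 0) : D (r * s) = D r + D s := by
  simp only [D, map_mul, degree_mul]

lemma D_pow (r : QuadraticAlgebra F[X] f 0) (n : ℕ) : D (r ^ n) = n • D r := by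
  simp only [D, map_pow, degree_pow]

lemma D_zero : D (0 : QuadraticAlgebra F[X] f 0) = ⊥ := by
  simp only [D, QuadraticAlgebra.norm_zero, degree_zero]

lemma D_neg (r : QuadraticAlgebra F[X] f 0) : D (-r) = D r := by
  simp only [D, QuadraticAlgebra.norm_neg]

lemma D_eq (hf : Odd f.natDegree) (r : QuadraticAlgebra F[X] f 0) :
    D r = max (r.re ^ 2).degree (f * r.im ^ 2).degree := by
  have hf0 : f ≠ 0 := by
    rintro rfl
    simp at hf
  rw [D, norm_eq]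
  by_cases h2 : r.im = 0
  · simp [h2]
  by_cases h1 : r.re = 0
  · simp [h1]
  have hne : (r.re ^ 2).degree ≠ (f * r.im ^ 2).degree := by
    intro h
    have := natDegree_eq_of_degree_eq h
    rw [natDegree_mul hf0 (pow_ne_zero _ h2), natDegree_pow, natDegree_pow] at this
    obtain ⟨k, hk⟩ := hf
    omega
  rcases lt_or_gt_of_ne hne with h | h
  · rw [degree_sub_eq_right_of_degree_lt h, max_eq_right h.le]
  · rw [degree_sub_eq_left_of_degree_lt h, max_eq_left h.le]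

lemma degree_add_sq (a b : F[X]) :
    ((a + b) ^ 2).degree ≤ max (a ^ 2).degree (b ^ 2).degree := by
  simp only [sq, degree_mul]
  rcases le_max_iff.1 (degree_add_le a b) with h | h
  · exact le_max_of_le_left (add_le_add h h)
  · exact le_max_of_le_right (add_le_add h h)

lemma D_add_le (hf : Odd f.natDegree) (r s : QuadraticAlgebra F[X] f 0) :
    D (r + s) ≤ max (D r) (D s) := by
  rw [D_eq hf, D_eq hf, D_eq hf, QuadraticAlgebra.re_add, QuadraticAlgebra.im_add]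
  refine max_le ((degree_add_sq _ _).trans (max_le_max (le_max_left _ _) (le_max_left _ _))) ?_
  refine le_trans ?_ (max_le_max (le_max_right _ _) (le_max_right _ _))
  simp only [degree_mul]
  rcases le_max_iff.1 (degree_add_sq r.im s.im) with h | h
  · exact le_max_of_le_left (add_le_add_right h _)
  · exact le_max_of_le_right (add_le_add_right h _)

lemma D_sum_lt (hf : Odd f.natDegree) {ι : Type} (s : Finset ι)
    (g : ι → QuadraticAlgebra F[X] f 0) (n : ℕ) (h : ∀ i ∈ s, D (g i) < n) :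
    D (∑ i ∈ s, g i) < n :=
  Finset.sum_induction g (fun r => D r < n)
    (fun a b ha hb => (D_add_le hf a b).trans_lt (max_lt ha hb))
    (by rw [D_zero]; exact WithBot.bot_lt_coe n) h

/-- The constants. -/
noncomputable def cst (f : F[X]) (c : F) : QuadraticAlgebra F[X] f 0 := ⟨C c, 0⟩

lemma D_cst {c : F} (hc : c ≠ 0) : D (cst f c) = 0 := by
  rw [D, norm_eq]
  simp [cst, degree_C hc]

lemma D_cst_mul_le (c : F) (r : QuadraticAlgebra F[X] f 0) : D (cst f c * r) ≤ D r := by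
  by_cases hc : c = 0
  · have : cst f c = 0 := by ext <;> simp [cst, hc]
    rw [this, zero_mul, D_zero]
    exact bot_le
  · rw [D_mul, D_cst hc, zero_add]

/-- A function with a pole of order `m + k`. -/
noncomputable def e (f : F[X]) (k : ℕ) : QuadraticAlgebra F[X] f 0 :=
  if Even k then ⟨0, X ^ (k / 2)⟩ else ⟨X ^ ((f.natDegree + k) / 2), 0⟩

lemma D_e (hf : Odd f.natDegree) (k : ℕ) : D (e f k) = (f.natDegree + k : ℕ) := by
  have hf0 : f ≠ 0 := by
    rintro rfl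
    simp at hf
  rw [D, norm_eq, e]
  split_ifs with hk
  · obtain ⟨l, rfl⟩ := hk
    have : (l + l) / 2 * 2 = l + l := by omega
    simp only [← pow_mul, this]
    rw [zero_pow (by norm_num), zero_sub, degree_neg, degree_mul, degree_X_pow,
      degree_eq_natDegree hf0, Nat.cast_add f.natDegree]
  · obtain ⟨l, hl⟩ := hf.add_odd (Nat.not_even_iff_odd.1 hk)
    have : (f.natDegree + k) / 2 * 2 = f.natDegree + k := by omega
    simp only [← pow_mul, this]
    rw [zero_pow (by norm_num), mul_zero, sub_zero, degree_X_pow]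

/-- Evaluation at a point of the curve. -/
noncomputable def ev {s y : F} (h : y ^ 2 = f.eval s) : QuadraticAlgebra F[X] f 0 →+* F where
  toFun r := r.re.eval s + r.im.eval s * y
  map_one' := by
    rw [QuadraticAlgebra.re_one, QuadraticAlgebra.im_one, eval_one, eval_zero, zero_mul, add_zero]
  map_zero' := by simp
  map_add' a b := by simp; ring
  map_mul' a b := by
    simp only [QuadraticAlgebra.re_mul, QuadraticAlgebra.im_mul, eval_add, eval_mul, eval_zero]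
    linear_combination (-(a.im.eval s * b.im.eval s)) * h

lemma ev_apply {s y : F} (h : y ^ 2 = f.eval s) (r : QuadraticAlgebra F[X] f 0) :
    ev h r = r.re.eval s + r.im.eval s * y := rfl

lemma ev_cst {s y : F} (h : y ^ 2 = f.eval s) (c : F) : ev h (cst f c) = c := by
  simp [ev_apply, cst]

/-- A function has at most as many zeros as poles. -/
lemma card_le [Fintype F] [DecidableEq F] (G : QuadraticAlgebra F[X] f 0)
    (hG : QuadraticAlgebra.norm G ≠ 0) (h : ∀ (s y : F) (h : y ^ 2 = f.eval s), ev h G = 0) :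
    (univ.filter fun P : F × F => P.2 ^ 2 = f.eval P.1).card
      ≤ (QuadraticAlgebra.norm G).natDegree := by
  have fib : ∀ s : F, (univ.filter fun y : F => y ^ 2 = f.eval s).card
      ≤ (QuadraticAlgebra.norm G).roots.count s := by
    intro s
    rw [count_roots]
    rcases (univ.filter fun y : F => y ^ 2 = f.eval s).eq_empty_or_nonempty with h0 | ⟨y, hy⟩
    · rw [h0]; exact Nat.zero_le _
    have hy' : y ^ 2 = f.eval s := (mem_filter.1 hy).2
    have h1 := h s y hy'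
    rw [ev_apply] at h1
    by_cases h2 : (univ.filter fun y : F => y ^ 2 = f.eval s).card ≤ 1
    · refine h2.trans ((rootMultiplicity_pos hG).2 ?_)
      rw [IsRoot.def, norm_eq, eval_sub, eval_mul, eval_pow, eval_pow, ← hy']
      linear_combination (G.re.eval s - G.im.eval s * y) * h1
    · obtain ⟨z, hz, hzy⟩ := Finset.exists_mem_ne (not_le.1 h2) y
      have h3 := h s z (mem_filter.1 hz).2
      rw [ev_apply] at h3
      have h4 : G.im.eval s = 0 := by
        have : G.im.eval s * (z - y) = 0 := by linear_combination h3 - h1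
        exact (mul_eq_zero.1 this).resolve_right (sub_ne_zero.2 hzy)
      have h5 : G.re.eval s = 0 := by rw [h4, zero_mul, add_zero] at h1; exact h1
      have h6 : 2 ≤ rootMultiplicity s (QuadraticAlgebra.norm G) := by
        rw [le_rootMultiplicity_iff hG, norm_eq]
        exact dvd_sub (pow_dvd_pow_of_dvd (dvd_iff_isRoot.2 h5) 2)
          ((pow_dvd_pow_of_dvd (dvd_iff_isRoot.2 h4) 2).mul_left f)
      refine le_trans ?_ h6
      refine (card_le_card (t := {y, -y}) fun w hw => ?_).trans card_le_two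
      have : w ^ 2 = y ^ 2 := by rw [(mem_filter.1 hw).2, hy']
      simpa using sq_eq_sq_iff_eq_or_eq_neg.1 this
  have e1 : (univ.filter fun P : F × F => P.2 ^ 2 = f.eval P.1).card
      = ∑ s : F, (univ.filter fun y : F => y ^ 2 = f.eval s).card := by
    simp only [card_filter]
    rw [Fintype.sum_prod_type]
  rw [e1]
  refine (sum_le_sum fun s _ => fib s).trans ?_
  rw [Multiset.sum_count_eq_card fun s _ => mem_univ s]
  exact card_roots' _

/-- Many functions with a small pole are linearly dependent. -/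
lemma exists_rel (hf : Odd f.natDegree) {ι : Type} [Fintype ι]
    (g : ι → QuadraticAlgebra F[X] f 0) (n : ℕ) (hg : ∀ i, D (g i) < (2 * n : ℕ))
    (hn : 2 * n < Fintype.card ι) :
    ∃ c : ι → F, ∑ i, cst f (c i) * g i = 0 ∧ ∃ i, c i ≠ 0 := by
  have hf0 : f ≠ 0 := by
    rintro rfl
    simp at hf
  have half : ∀ a : F[X], (a ^ 2).degree < (2 * n : ℕ) → a ∈ degreeLT F n := by
    intro a ha
    rw [mem_degreeLT]
    by_contra hc
    rw [not_lt] at hc
    rw [sq, degree_mul, two_mul, Nat.cast_add] at ha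
    exact absurd (add_le_add hc hc) (not_le.2 ha)
  have m1 : ∀ i, (g i).re ∈ degreeLT F n := fun i =>
    half _ ((le_max_left _ _).trans_lt (D_eq hf (g i) ▸ hg i))
  have m2 : ∀ i, (g i).im ∈ degreeLT F n := fun i =>
    half _ (((degree_le_mul_left _ hf0).trans (by rw [mul_comm]; exact le_max_right _ _)).trans_lt
      (D_eq hf (g i) ▸ hg i))
  let v : ι → degreeLT F n × degreeLT F n := fun i => (⟨_, m1 i⟩, ⟨_, m2 i⟩)
  have hv : ¬ LinearIndependent F v := by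
    intro h
    have := h.fintype_card_le_finrank
    rw [Module.finrank_prod, (degreeLTEquiv F n).finrank_eq, Module.finrank_fin_fun] at this
    omega
  obtain ⟨c, hc, hi⟩ := Fintype.not_linearIndependent_iff.1 hv
  refine ⟨c, ?_, hi⟩
  have a1 := congrArg (fun x : degreeLT F n × degreeLT F n => (x.1 : F[X])) hc
  have a2 := congrArg (fun x : degreeLT F n × degreeLT F n => (x.2 : F[X])) hc
  simp only [Prod.fst_sum, Prod.snd_sum, Prod.smul_fst, Prod.smul_snd, Submodule.coe_sum,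
    Submodule.coe_smul, Prod.fst_zero, Prod.snd_zero, Submodule.coe_zero, v, smul_eq_C_mul] at a1 a2
  ext1
  · have := map_sum (QuadraticAlgebra.reₗ f 0) (fun i => cst f (c i) * g i) univ
    simp only [QuadraticAlgebra.reₗ_apply] at this
    rw [this, QuadraticAlgebra.re_zero]
    exact (sum_congr rfl fun i _ => by simp [cst]).trans a1
  · have := map_sum (QuadraticAlgebra.imₗ f 0) (fun i => cst f (c i) * g i) univ
    simp only [QuadraticAlgebra.imₗ_apply] at this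
    rw [this, QuadraticAlgebra.im_zero]
    exact (sum_congr rfl fun i _ => by simp [cst]).trans a2

end Hyp

open Hyp in
theorem hyp : HypStmt := by
  intro m hm
  refine ⟨2 * m + 3, m ^ 2 + 5 * m + 5, fun F _ _ _ p j _ hp hcard hQ f hfm => ?_⟩
  have : Fact p.Prime := ⟨hp⟩
  subst hfm
  set m := f.natDegree with hmdef
  set Q := p ^ j with hQdef
  obtain ⟨a, ha⟩ : ∃ a, Q = m + a := ⟨Q - m, by nlinarith [Nat.sub_add_cancel (by nlinarith : m ≤ Q)]⟩
  have DE : ∀ i k u w : ℕ, D (e f i ^ u * e f k ^ w) = (u * (m + i) + w * (m + k) : ℕ) := by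
    intro i k u w
    rw [D_mul, D_pow, D_pow, D_e hm, D_e hm, nsmul_eq_mul, nsmul_eq_mul]
    push_cast
    rfl
  obtain ⟨n, hn1, hn2⟩ : ∃ n, Q * Q + 2 * m + 3 ≤ 2 * n ∧ 2 * n ≤ Q * Q + 2 * m + 4 :=
    ⟨(Q * Q + 2 * m + 4) / 2, by omega, by omega⟩
  obtain ⟨c, hc, hi⟩ := exists_rel hm (ι := Fin a × Fin (Q + m + 2))
    (fun x => e f x.1 ^ Q * e f x.2 ^ 1) n (fun x => by
      rw [DE, Nat.cast_lt]
      have h1 : m + x.1 + 1 ≤ Q := by have := x.1.2; omega
      have h2 := x.2.2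
      have h3 := Nat.mul_le_mul_left Q h1
      nlinarith) (by
      rw [Fintype.card_prod, Fintype.card_fin, Fintype.card_fin]
      have h1 : a * (Q + m + 2) + m * (Q + m + 2) = Q * (Q + m + 2) := by rw [ha]; ring
      nlinarith)
  set t : Fin a × Fin (Q + m + 2) → QuadraticAlgebra F[X] f 0 :=
    fun x => cst f (c x ^ Q) * (e f x.1 ^ 1 * e f x.2 ^ Q) with ht
  set w : Fin a × Fin (Q + m + 2) → ℕ := fun x => 1 * (m + x.1) + Q * (m + x.2) with hw
  have winj : Function.Injective w := by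
    intro x y hxy
    simp only [hw, one_mul] at hxy
    have h1 : m + x.1 < Q := by have := x.1.2; omega
    have h2 : m + y.1 < Q := by have := y.1.2; omega
    have h3 := congrArg (· % Q) hxy
    simp only [Nat.add_mul_mod_self_left, Nat.mod_eq_of_lt h1, Nat.mod_eq_of_lt h2] at h3
    rw [h3] at hxy
    have h4 := Nat.eq_of_mul_eq_mul_left (by omega) (Nat.add_left_cancel hxy)
    ext <;> omega
  have tle : ∀ x, D (t x) ≤ w x := fun x => (D_cst_mul_le _ _).trans (DE _ _ _ _).le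
  have hG : QuadraticAlgebra.norm (∑ x, t x) ≠ 0 := by
    obtain ⟨x, hx, hmax⟩ := exists_max_image (univ.filter fun x => c x ≠ 0) w
      (by obtain ⟨i, hi⟩ := hi; exact ⟨i, mem_filter.2 ⟨mem_univ _, hi⟩⟩)
    have h1 : D (t x) = w x := by
      rw [ht, D_mul, D_cst (pow_ne_zero _ (mem_filter.1 hx).2), zero_add, DE]
    have h2 : D (∑ y ∈ univ.erase x, t y) < w x := by
      refine D_sum_lt hm _ _ _ fun y hy => ?_
      by_cases hy0 : c y = 0
      · have : cst f (c y ^ Q) = 0 := by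
          rw [hy0, zero_pow (pow_pos hp.pos j).ne']
          ext <;> simp [cst]
        simp only [ht, this, zero_mul, D_zero]
        exact WithBot.bot_lt_coe _
      · refine (tle y).trans_lt (Nat.cast_lt.2 (lt_of_le_of_ne
          (hmax y (mem_filter.2 ⟨mem_univ _, hy0⟩)) fun h => (mem_erase.1 hy).1 (winj h)))
    intro h0
    have h3 : D (∑ x, t x) = ⊥ := by rw [D, h0, degree_zero]
    have h4 := D_add_le hm (∑ x, t x) (-∑ y ∈ univ.erase x, t y)
    rw [D_neg, h3, ← add_sum_erase univ t (mem_univ x), add_neg_cancel_right, h1,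
      max_eq_right bot_le] at h4
    exact absurd h4 (not_le.2 h2)
  refine (card_le _ hG fun s y h => ?_).trans ?_
  · have hq : ∀ z : F, (z ^ Q) ^ Q = z := fun z => by
      rw [← pow_mul, ← sq, ← hcard, FiniteField.pow_card]
    have h1 := congrArg (ev h) hc
    rw [map_sum, map_zero] at h1
    refine (pow_eq_zero_iff (pow_pos hp.pos j).ne').1 ?_
    rw [map_sum, sum_pow_char_pow, ← h1]
    refine sum_congr rfl fun x _ => ?_
    simp only [ht, map_mul, map_pow, ev_cst, pow_one, mul_pow, ← hQdef, hq]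
  · have h1 : D (∑ x, t x) < (Q ^ 2 + (2 * m + 3) * Q : ℕ) := by
      refine D_sum_lt hm _ _ _ fun x _ => (tle x).trans_lt (Nat.cast_lt.2 ?_)
      have h1 : m + x.1 < Q := by have := x.1.2; omega
      have h2 : m + x.2 + 1 ≤ Q + 2 * m + 2 := by have := x.2.2; omega
      have h3 := Nat.mul_le_mul_left Q h2
      simp only [hw]
      nlinarith
    exact ((natDegree_lt_iff_degree_lt hG).2 h1).le

end Pool.Agent.MP_39a890_nt

end MrgPart0

-- ======== part 1: formerly Pool.Agent.MP_39a890_nt.KLa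
section MrgPart1

/-! Exponential sums: orthogonality, completion, and Kloosterman sums to squarefree modulus. -/

namespace Pool.Agent.MP_39a890_nt.KL

open Finset Real Complex

/-- `e(t / q)`. -/
noncomputable def ee (q : ℕ) (t : ℤ) : ℂ := Complex.exp (2 * π * I * t / q)

theorem ee_add (q : ℕ) (s t : ℤ) : ee q (s + t) = ee q s * ee q t := by
  rw [ee, ee, ee, ← Complex.exp_add]; congr 1; push_cast; ring

theorem ee_zero (q : ℕ) : ee q 0 = 1 := by simp [ee]

theorem ee_eq (q : ℕ) (t : ℤ) : ee q t = Complex.exp (I * (2 * π * t / q : ℝ)) := by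
  rw [ee]; congr 1; push_cast; ring

theorem ee_norm (q : ℕ) (t : ℤ) : ‖ee q t‖ = 1 := by rw [ee_eq, norm_exp_I_mul_ofReal]

theorem ee_dvd {q : ℕ} {t : ℤ} (h : (q : ℤ) ∣ t) : ee q t = 1 := by
  obtain ⟨k, rfl⟩ := h
  rcases eq_or_ne q 0 with rfl | hq
  · simp [ee]
  · have : (q : ℂ) ≠ 0 := by exact_mod_cast hq
    rw [ee, ← Complex.exp_int_mul_two_pi_mul_I k]; congr 1; push_cast; field_simp

theorem ee_congr {q : ℕ} {s t : ℤ} (h : s ≡ t [ZMOD q]) : ee q s = ee q t := by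
  rw [show t = s + (t - s) by ring, ee_add, ee_dvd h.dvd, mul_one]

theorem ee_conj (q : ℕ) (t : ℤ) : (starRingEnd ℂ) (ee q t) = ee q (-t) := by
  rw [ee_eq, ee_eq, ← Complex.exp_conj, map_mul, conj_I, conj_ofReal]; congr 1; push_cast; ring

theorem ee_scale (q : ℕ) {q' : ℕ} (h : q' ≠ 0) (t : ℤ) : ee (q * q') (t * q') = ee q t := by
  have : (q' : ℂ) ≠ 0 := by exact_mod_cast h
  rw [ee, ee]; congr 1; push_cast
  rw [← mul_assoc, mul_div_mul_right _ _ this]

theorem ee_pow (q : ℕ) (t : ℤ) (n : ℕ) : ee q (t * n) = ee q t ^ n := by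
  rw [ee, ee, ← Complex.exp_nat_mul]; congr 1; push_cast; ring

theorem ee_low {q : ℕ} (hq : q ≠ 0) {t : ℤ} (h : 2 * |t| ≤ q) :
    4 * |(t : ℝ)| / q ≤ ‖ee q t - 1‖ := by
  have q0 : (0 : ℝ) < q := by positivity
  have h' : 2 * |(t : ℝ)| ≤ q := by exact_mod_cast h
  have e : |2 * π * t / q / 2| = π * |(t : ℝ)| / q := by
    rw [abs_div, abs_div, abs_mul, abs_of_pos two_pi_pos, abs_of_pos q0, abs_two]; ring
  have := Real.mul_abs_le_abs_sin (x := 2 * π * t / q / 2) (by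
    rw [e, div_le_div_iff₀ q0 two_pos]; nlinarith [pi_pos])
  rw [ee_eq, norm_exp_I_mul_ofReal_sub_one, Real.norm_eq_abs, abs_mul, abs_two]
  rw [e] at this
  refine le_trans (le_of_eq ?_) (mul_le_mul_of_nonneg_left this zero_le_two)
  field_simp; ring

/-- The centred residue system. -/
noncomputable def Res (q : ℕ) : Finset ℤ := Ico (-(q / 2 : ℕ) : ℤ) (q - (q / 2 : ℕ))

theorem mem_Res {q : ℕ} {k : ℤ} (h : k ∈ Res q) : 2 * |k| ≤ q := by
  rw [Res, mem_Ico] at h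
  rcases abs_cases k with h' | h' <;> omega

theorem card_Res (q : ℕ) : (Res q).card = q := by simp [Res]

theorem zero_mem_Res {q : ℕ} (hq : q ≠ 0) : 0 ∈ Res q := by rw [Res, mem_Ico]; omega

theorem orth {q : ℕ} (hq : q ≠ 0) (t : ℤ) :
    ∑ k ∈ Res q, ee q (k * t) = if (q : ℤ) ∣ t then (q : ℂ) else 0 := by
  split_ifs with h
  · simp [ee_dvd (h.mul_left _), card_Res]
  have h1 : ee q t ≠ 1 := fun h1 => by
    obtain ⟨n, hn⟩ := Complex.exp_eq_one_iff.1 h1
    have : (q : ℂ) ≠ 0 := by exact_mod_cast hq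
    have h2 := Complex.two_pi_I_ne_zero
    refine h ⟨n, ?_⟩
    have : (t : ℂ) = q * n := by
      rw [div_eq_iff this] at hn
      exact mul_left_cancel₀ h2 (by rw [hn]; ring)
    exact_mod_cast this
  rw [Res, Int.Ico_eq_finset_map, sum_map]
  simp only [Function.Embedding.trans_apply, Nat.castEmbedding_apply, addLeftEmbedding_apply,
    mul_add, ee_add, mul_comm (_ : ℤ) t, ee_pow, ← mul_sum, sub_neg_eq_add, sub_add_cancel,
    Int.toNat_natCast]
  rw [geom_sum_eq h1, ← ee_pow, ee_dvd (Dvd.intro_left _ rfl)]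
  simp

theorem sum_symm {M : Type} [AddCommGroup M] (f : ℤ → M) (K : ℕ) : ∑ k ∈ Icc (-K : ℤ) K, f k =
    f 0 + ∑ k ∈ range K, (f (k + 1 : ℕ) + f (-(k + 1 : ℕ))) := by
  induction K with
  | zero => simp
  | succ K ih =>
    rw [sum_range_succ, ← add_assoc, ← ih]
    exact (sum_Icc_succ_eq_add_endpoints f).trans (add_comm _ _)

theorem harm (n : ℕ) : ∑ i ∈ range n, ((i : ℝ) + 1)⁻¹ ≤ 1 + Real.log n := by
  simpa [harmonic] using harmonic_le_one_add_log n

theorem complete {q : ℕ} (hq : q ≠ 0) {g : ℕ → ℂ} (hg : ∀ x, g (x % q) = g x) {B : ℝ}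
    (hB : ∀ l : ℤ, ‖∑ y ∈ range q, g y * ee q (l * y)‖ ≤ B) (a n : ℕ) :
    ‖∑ x ∈ Ico a (a + n), g x‖ ≤ (n / q + (1 + Real.log q)) * B := by
  have q0 : (0 : ℝ) < q := by positivity
  have q1 : (q : ℂ) ≠ 0 := by exact_mod_cast hq
  have B0 : 0 ≤ B := (norm_nonneg _).trans (hB 0)
  have e1 : ∀ x : ℕ, q * g x =
      ∑ l ∈ Res q, (∑ y ∈ range q, g y * ee q (l * y)) * ee q (-l) ^ x := by
    intro x
    simp only [sum_mul, ← ee_pow, mul_assoc, ← ee_add]
    rw [sum_comm]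
    simp only [← mul_sum, show ∀ l y : ℤ, l * y + -l * x = l * (y - x) from fun _ _ => by ring,
      orth hq]
    rw [sum_eq_single_of_mem (x % q) (mem_range.2 (Nat.mod_lt _ (by omega))), hg,
      if_pos ((Nat.modEq_iff_dvd.1 (Nat.mod_modEq x q).symm)), mul_comm]
    intro y hy h
    rw [if_neg, mul_zero]
    intro h'
    exact h (by rw [Nat.modEq_iff_dvd.2 h', Nat.mod_eq_of_lt (mem_range.1 hy)])
  have e2 : ∀ l ∈ Res q, ‖∑ x ∈ Ico a (a + n), ee q (-l) ^ x‖ ≤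
      (if l = 0 then (n : ℝ) else 0) + q / 2 * |(l : ℝ)|⁻¹ := by
    intro l hl
    split_ifs with h
    · simp [h, ee_zero]
    have l0 : 0 < |(l : ℝ)| := abs_pos.2 (by exact_mod_cast h)
    have h1 := ee_low hq (t := -l) (by rw [abs_neg]; exact mem_Res hl)
    rw [Int.cast_neg, abs_neg] at h1
    have h2 : 0 < ‖ee q (-l) - 1‖ := lt_of_lt_of_le (by positivity) h1
    rw [geom_sum_Ico (sub_ne_zero.1 (norm_pos_iff.1 h2)) (Nat.le_add_right _ _), norm_div,
      div_le_iff₀ h2, zero_add]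
    refine (norm_sub_le _ _).trans (le_trans (le_of_eq ?_)
      (mul_le_mul_of_nonneg_left h1 (by positivity)))
    simp only [norm_pow, ee_norm, one_pow]; field_simp; norm_num
  have e3 : ∑ l ∈ Res q, |(l : ℝ)|⁻¹ ≤ 2 * (1 + Real.log q) := by
    refine (sum_le_sum_of_subset_of_nonneg (t := Icc (-q : ℤ) q) (fun l hl => ?_)
      fun _ _ _ => by positivity).trans ?_
    · have := mem_Res hl
      rw [mem_Icc, ← abs_le]; linarith [abs_nonneg l]
    · rw [sum_symm (fun l => |(l : ℝ)|⁻¹)]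
      simp only [Int.cast_zero, abs_zero, inv_zero, zero_add, Int.cast_neg, abs_neg,
        Int.cast_natCast, Nat.abs_cast, ← two_mul, ← mul_sum]
      push_cast
      linarith [harm q]
  refine le_of_mul_le_mul_left ?_ q0
  rw [← Complex.norm_natCast, ← norm_mul, mul_sum]
  simp only [e1]
  rw [sum_comm]
  simp only [← mul_sum]
  refine (norm_sum_le _ _).trans ((sum_le_sum fun l hl => (norm_mul_le _ _).trans
    (mul_le_mul (hB l) (e2 l hl) (norm_nonneg _) B0)).trans ?_)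
  rw [← mul_sum, sum_add_distrib, ← mul_sum, sum_ite_eq', if_pos (zero_mem_Res hq),
    Complex.norm_natCast]
  calc _ ≤ B * (n + q / 2 * (2 * (1 + Real.log q))) := by gcongr
    _ = _ := by field_simp

/-- `e(h d⁻¹ / q)`. -/
noncomputable def kl (q : ℕ) (h : ℤ) (d : ℕ) : ℂ :=
  if d.Coprime q then ee q (h * Nat.gcdA d q) else 0

theorem inv_spec {q d : ℕ} (hd : d.Coprime q) : Nat.gcdA d q * d ≡ 1 [ZMOD q] := by
  have := Nat.gcd_eq_gcd_ab d q
  rw [hd.gcd_eq_one] at this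
  exact Int.modEq_iff_dvd.2 ⟨Nat.gcdB d q, by push_cast at this; linarith⟩

theorem kl_eq {q d : ℕ} (hd : d.Coprime q) {u : ℤ} (hu : u * d ≡ 1 [ZMOD q]) (h : ℤ) :
    kl q h d = ee q (h * u) := by
  rw [kl, if_pos hd]
  refine ee_congr (Int.ModEq.mul_left _ ?_)
  have a := (hu.mul_left (Nat.gcdA d q)).symm
  have b := (inv_spec hd).mul_left u
  rw [mul_one] at a b
  exact a.trans (by rwa [mul_left_comm])

theorem kl_norm (q : ℕ) (h : ℤ) (d : ℕ) : ‖kl q h d‖ ≤ 1 := by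
  rw [kl]; split_ifs <;> simp [ee_norm]

theorem kl_mod (q : ℕ) (h : ℤ) (d : ℕ) : kl q h (d % q) = kl q h d := by
  by_cases hd : d.Coprime q
  · rw [kl_eq ((ZMod.coprime_mod_iff_coprime d q).2 hd) (u := Nat.gcdA d q), kl, if_pos hd]
    refine (Int.ModEq.mul_left _ ?_).trans (inv_spec hd)
    push_cast; exact Int.mod_modEq _ _
  · rw [kl, kl, if_neg hd, if_neg ((ZMod.coprime_mod_iff_coprime d q).not.2 hd)]

theorem crt_sum {q₁ q₂ : ℕ} (hc : q₁.Coprime q₂) (h₁ : q₁ ≠ 0) (h₂ : q₂ ≠ 0) {F G : ℕ → ℂ}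
    (hF : ∀ x, F (x % q₁) = F x) (hG : ∀ x, G (x % q₂) = G x) :
    ∑ x ∈ range (q₁ * q₂), F x * G x = (∑ x ∈ range q₁, F x) * ∑ x ∈ range q₂, G x := by
  rw [sum_mul_sum, ← sum_product']
  refine sum_nbij (fun x => (x % q₁, x % q₂)) (fun x _ => ?_) (fun x hx y hy h => ?_)
    (fun z hz => ?_) fun x _ => by rw [hF, hG]
  · simp only [mem_product, mem_range]
    exact ⟨Nat.mod_lt _ (by omega), Nat.mod_lt _ (by omega)⟩
  · exact ((Nat.modEq_and_modEq_iff_modEq_mul hc).1 (Prod.ext_iff.1 h)).eq_of_lt_of_lt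
      (by simpa using hx) (by simpa using hy)
  · simp only [coe_product, Set.mem_prod, mem_coe, mem_range] at hz
    obtain ⟨a, b⟩ := (Nat.chineseRemainder hc z.1 z.2).2
    refine ⟨Nat.chineseRemainder hc z.1 z.2,
      by simpa using Nat.chineseRemainder_lt_mul hc _ _ h₁ h₂, Prod.ext ?_ ?_⟩
    · exact Eq.trans a (Nat.mod_eq_of_lt hz.1)
    · exact Eq.trans b (Nat.mod_eq_of_lt hz.2)

/-- Complete Kloosterman sum. -/
noncomputable def KS (q : ℕ) (h l : ℤ) : ℂ := ∑ x ∈ range q, kl q h x * ee q (l * x)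

theorem KS_triv (q : ℕ) (h l : ℤ) : ‖KS q h l‖ ≤ q := by
  refine (norm_sum_le _ _).trans ((sum_le_card_nsmul _ _ 1 fun x _ => ?_).trans (by simp))
  rw [norm_mul, ee_norm, mul_one]; exact kl_norm _ _ _

theorem KS_mul {q₁ q₂ : ℕ} (hc : q₁.Coprime q₂) (h₁ : q₁ ≠ 0) (h₂ : q₂ ≠ 0) (h l : ℤ) :
    ∃ h' l' h'' l'', h'.natAbs.gcd q₁ = h.natAbs.gcd q₁ ∧ h''.natAbs.gcd q₂ = h.natAbs.gcd q₂ ∧
      KS (q₁ * q₂) h l = KS q₁ h' l' * KS q₂ h'' l'' := by
  obtain ⟨v, u, huv⟩ := Nat.isCoprime_iff_coprime.2 hc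
  have e : ∀ t, ee (q₁ * q₂) t = ee q₁ (t * u) * ee q₂ (t * v) := fun t => by
    rw [← ee_scale q₁ h₂, ← ee_scale q₂ h₁, mul_comm q₂, ← ee_add]
    congr 1; linear_combination (-t) * huv
  have p : ∀ (q : ℕ) (a b : ℤ) x, kl q a (x % q) * ee q (b * (x % q : ℕ)) =
      kl q a x * ee q (b * x) := fun q a b x => by
    rw [kl_mod, ee_congr (Int.ModEq.mul_left b (by push_cast; exact Int.mod_modEq _ _))]
  refine ⟨h * u, l * u, h * v, l * v, ?_, ?_, ?_⟩
  · rw [Int.natAbs_mul, Nat.Coprime.gcd_mul_right_cancel]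
    exact Int.isCoprime_iff_gcd_eq_one.1 (⟨q₂, v, by linarith⟩ : IsCoprime u q₁)
  · rw [Int.natAbs_mul, Nat.Coprime.gcd_mul_right_cancel]
    exact Int.isCoprime_iff_gcd_eq_one.1 (⟨q₁, u, by linarith⟩ : IsCoprime v q₂)
  rw [KS, KS, KS, ← crt_sum hc h₁ h₂ (p _ _ _) (p _ _ _)]
  refine sum_congr rfl fun x _ => ?_
  by_cases hx : x.Coprime (q₁ * q₂)
  · have i := inv_spec hx
    push_cast at i
    rw [kl_eq hx.coprime_mul_right_right i.of_mul_right, kl_eq hx.coprime_mul_left_right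
      i.of_mul_left, kl, if_pos hx, e, e, mul_right_comm h u, mul_right_comm h v,
      mul_right_comm l u, mul_right_comm l v]
    ring
  · rw [kl, if_neg hx, kl, kl]
    split_ifs with a b
    · exact absurd (Nat.Coprime.mul_right a b) hx
    all_goals simp

theorem KS_prime (hW : WeilStmt) {p : ℕ} (hp : p.Prime) (h l : ℤ) :
    ‖KS p h l‖ ≤ 2 * √(p * h.natAbs.gcd p) := by
  have := Fact.mk hp
  have p1 : (1 : ℝ) ≤ p := by exact_mod_cast hp.one_le
  by_cases hh : (p : ℤ) ∣ h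
  · rw [Nat.gcd_eq_right (Int.natCast_dvd.1 hh), Real.sqrt_mul_self (by positivity)]
    linarith [KS_triv p h l]
  rw [(Nat.coprime_comm.1 (hp.coprime_iff_not_dvd.2 (Int.natCast_dvd.not.1 hh))).gcd_eq_one,
    Nat.cast_one, mul_one]
  have e : ∑ x : (ZMod p)ˣ, ZMod.stdAddChar ((l : ZMod p) * (x : ZMod p) +
      (h : ZMod p) * ((x⁻¹ : (ZMod p)ˣ) : ZMod p)) = KS p h l := by
    refine sum_of_injOn (fun x : (ZMod p)ˣ => (x : ZMod p).val)
      (fun x _ y _ e => Units.ext (ZMod.val_injective _ e))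
      (fun x _ => by simpa using ZMod.val_lt _) (fun i hi hi' => ?_) fun x _ => ?_
    · rw [kl, if_neg, zero_mul]
      exact fun c => hi' ⟨ZMod.unitOfCoprime i c, by simp,
        by simpa using ZMod.val_cast_of_lt (mem_range.1 hi)⟩
    · rw [kl_eq (ZMod.val_coe_unit_coprime x) (u := ((x⁻¹ : (ZMod p)ˣ) : ZMod p).val)
        ((ZMod.intCast_eq_intCast_iff _ _ _).1 (by
          simp only [Int.cast_mul, Int.cast_natCast, ZMod.natCast_zmod_val, Units.inv_mul,
            Int.cast_one])), ← ee_add, ee, ← ZMod.stdAddChar_coe]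
      simp only [Int.cast_mul, Int.cast_add, Int.cast_natCast, ZMod.natCast_zmod_val, add_comm]
  have h0 : (h : ZMod p) ≠ 0 := (ZMod.intCast_zmod_eq_zero_iff_dvd _ _).not.2 hh
  rw [← e]
  by_cases hl : (l : ZMod p) = 0
  · have s := AddChar.sum_mulShift (h : ZMod p) (ZMod.isPrimitive_stdAddChar p)
    rw [if_neg h0, ← add_sum_erase _ _ (mem_univ 0), zero_mul, AddChar.map_zero_eq_one] at s
    have : ∑ x : (ZMod p)ˣ, ZMod.stdAddChar ((l : ZMod p) * (x : ZMod p) +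
        (h : ZMod p) * ((x⁻¹ : (ZMod p)ˣ) : ZMod p)) =
        ∑ x ∈ univ.erase (0 : ZMod p), ZMod.stdAddChar (x * (h : ZMod p)) := by
      refine sum_nbij (fun x => ((x⁻¹ : (ZMod p)ˣ) : ZMod p)) (fun x _ => mem_erase.2 ⟨Units.ne_zero _, mem_univ _⟩)
        (fun x _ y _ e => inv_injective (Units.ext e)) (fun y hy => ?_) fun x _ => by
          rw [hl, zero_mul, zero_add, mul_comm]
      exact ⟨(Units.mk0 y (by simpa using hy))⁻¹, by simp, by simp⟩
    rw [this, eq_neg_of_add_eq_zero_right (s.trans Nat.cast_zero), norm_neg, norm_one]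
    linarith [Real.one_le_sqrt.2 p1]
  · exact hW p _ _ hl h0

theorem KS_sqf (hW : WeilStmt) (q : ℕ) : Squarefree q → ∀ h l : ℤ,
    ‖KS q h l‖ ≤ q.divisors.card * √(q * h.natAbs.gcd q) := by
  induction q using induction_on_primes with
  | zero => simp
  | one => intro _ h l; simpa using KS_triv 1 h l
  | prime_mul p q hp ih =>
    intro hs h l
    obtain ⟨hc, -, hq⟩ := Nat.squarefree_mul_iff.1 hs
    obtain ⟨h', l', h'', l'', e1, e2, e⟩ := KS_mul hc hp.ne_zero hq.ne_zero h l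
    rw [e, norm_mul, hc.card_divisors_mul, hc.gcd_mul, hp.divisors,
      card_pair hp.one_lt.ne]
    refine (mul_le_mul (KS_prime hW hp h' l') (ih hq h'' l'') (norm_nonneg _)
      (by positivity)).trans (le_of_eq ?_)
    rw [e1, e2, mul_mul_mul_comm, ← Real.sqrt_mul (by positivity)]
    push_cast; ring_nf

theorem kl_sum (hW : WeilStmt) {a q : ℕ} (ha : a ≠ 0) (hq : Squarefree q) (hc : a.Coprime q)
    (h : ℤ) (D n : ℕ) : ‖∑ x ∈ Ico D (D + n), kl (a * q) h x‖ ≤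
      (n / (a * q) + (1 + Real.log (a * q))) * (a * (q.divisors.card * √(q * h.natAbs.gcd q))) := by
  have := complete (B := a * (q.divisors.card * √(q * h.natAbs.gcd q)))
    (mul_ne_zero ha hq.ne_zero) (kl_mod (a * q) h) (fun l => by
    obtain ⟨h', l', h'', l'', -, e2, e⟩ := KS_mul hc ha hq.ne_zero h l
    refine (congrArg norm e).trans_le ((norm_mul_le _ _).trans ?_)
    exact mul_le_mul (KS_triv _ _ _) (e2 ▸ KS_sqf hW q hq h'' l'') (norm_nonneg _)
      (by positivity)) D n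
  exact_mod_cast this

end Pool.Agent.MP_39a890_nt.KL

end MrgPart1

-- ======== part 2: formerly Pool.Agent.MP_39a890_nt.KLb
section MrgPart2

/-! The bilinear bound for Kloosterman fractions in a dyadic box. -/

namespace Pool.Agent.MP_39a890_nt.KL

open Finset

theorem gcd_sum {h : ℕ} (hh : h ≠ 0) (N : ℕ) :
    ∑ r ∈ Ioc 0 N, (h.gcd r : ℝ) ≤ h.divisors.card * N := by
  have : ∑ r ∈ Ioc 0 N, h.gcd r ≤ h.divisors.card * N := by
    refine (sum_le_sum (g := fun r => ∑ e ∈ h.divisors, if e ∣ r then e else 0)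
      fun r _ => ?_).trans ?_
    · refine le_trans (le_of_eq (if_pos (Nat.gcd_dvd_right h r)).symm)
        (single_le_sum (f := fun e => if e ∣ r then e else 0) (fun _ _ => Nat.zero_le _)
          (Nat.mem_divisors.2 ⟨Nat.gcd_dvd_left _ _, hh⟩))
    · rw [sum_comm]
      refine sum_le_card_nsmul _ _ _ fun e _ => ?_
      rw [← sum_filter, sum_const, Nat.Ioc_filter_dvd_card_eq_div]
      exact Nat.div_mul_le_self _ _
  exact_mod_cast this

theorem diag_sum {n : ℕ} (hn : n ≠ 0) (A B : Finset ℕ) :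
    ∑ s ∈ A, ∑ k ∈ B, (if n = k * s then (1 : ℝ) else 0) ≤ n.divisors.card := by
  rw [← sum_product', sum_boole, Nat.cast_le]
  refine card_le_card_of_injOn Prod.fst (fun x hx => ?_) fun x hx y hy e => ?_
  · have := (mem_filter.1 hx).2
    exact Nat.mem_divisors.2 ⟨Dvd.intro_left _ this.symm, hn⟩
  · have a := (mem_filter.1 hx).2
    have b := (mem_filter.1 hy).2
    refine Prod.ext e (Nat.eq_of_mul_eq_mul_right (m := y.1) ?_ (by rw [← b, a, e]))
    rcases Nat.eq_zero_or_pos y.1 with h | h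
    · rw [h, mul_zero] at b; exact absurd b hn
    · exact h

theorem expand {ι : Type} (J : Finset ι) (I : Finset ℕ) (γ : ι → ℂ) (w : ι → ℕ → ℂ) :
    ∑ d ∈ I, ‖∑ j ∈ J, γ j * w j d‖ ^ 2 ≤ ∑ j ∈ J, ∑ j' ∈ J,
      ‖γ j‖ * ‖γ j'‖ * ‖∑ d ∈ I, w j d * (starRingEnd ℂ) (w j' d)‖ := by
  have e : ((∑ d ∈ I, ‖∑ j ∈ J, γ j * w j d‖ ^ 2 : ℝ) : ℂ) = ∑ j ∈ J, ∑ j' ∈ J,
      γ j * (starRingEnd ℂ) (γ j') * ∑ d ∈ I, w j d * (starRingEnd ℂ) (w j' d) := by
    push_cast
    simp only [← Complex.mul_conj', map_sum, map_mul, sum_mul_sum]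
    simp only [mul_sum]
    rw [sum_comm]
    refine sum_congr rfl fun j _ => sum_comm.trans (sum_congr rfl fun j' _ =>
      sum_congr rfl fun d _ => by ring)
  refine (le_abs_self _).trans ((Complex.norm_real _).symm.le.trans ?_)
  rw [e]
  refine (norm_sum_le _ _).trans (sum_le_sum fun j _ => (norm_sum_le _ _).trans
    (sum_le_sum fun j' _ => le_of_eq ?_))
  simp

/-- Admissible moduli. -/
def Good (q : ℕ) (c : ℤ) (d : ℕ) : Prop := Squarefree d ∧ q.Coprime d ∧ c.natAbs.Coprime d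

theorem gcd_mul_le (h : ℕ) {x y : ℕ} (hx : x ≠ 0) (hy : y ≠ 0) :
    h.gcd (x * y) ≤ h.gcd x * h.gcd y :=
  Nat.le_of_dvd (by positivity) (gcd_mul_dvd_mul_gcd h x y)

theorem gcd_cross {k k' s t g : ℕ} (hc : s.Coprime t) (hs : s * g ≠ 0) :
    ((k * t : ℤ) - k' * s).natAbs.gcd s ≤ k.gcd (s * g) := by
  refine Nat.le_of_dvd (by positivity) (Nat.dvd_gcd ?_ ((Nat.gcd_dvd_right _ _).mul_right _))
  have a : (_ : ℤ) ∣ _ := Int.natCast_dvd.2 (Nat.gcd_dvd_left ((k * t : ℤ) - k' * s).natAbs s)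
  have b := Nat.gcd_dvd_right ((k * t : ℤ) - k' * s).natAbs s
  refine (hc.of_dvd_left b).dvd_of_dvd_mul_right ?_
  have := a.add ((Int.natCast_dvd_natCast.2 b).mul_left k')
  rw [sub_add_cancel] at this
  exact_mod_cast this

theorem Tb (hW : WeilStmt) {a q r s s' : ℕ} {c : ℤ} {T Z : ℝ} (ha : a ≠ 0) (hq : Squarefree q)
    (haq : a.Coprime q) (hcq : c.natAbs.Coprime q) (h1 : Good (a * q) c (r * s))
    (h2 : Good (a * q) c (r * s')) (haT : a ≤ T) (hZ : (a * q * r * s * s' : ℕ) ≤ Z)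
    (hL : 1 + Real.log Z ≤ T) (hτ : ∀ n : ℕ, n ≤ Z → n.divisors.card ≤ T) (k k' D n : ℕ) :
    ‖∑ d ∈ Ico D (D + n), kl (a * q * (r * s)) (c * k) d *
        (starRingEnd ℂ) (kl (a * q * (r * s')) (c * k') d)‖ ≤
      (T * n / √r + T ^ 3 * q * √(r * s * s')) *
        (((k * s' : ℤ) - k' * s).natAbs.gcd r * (k.gcd s * k'.gcd s')) := by
  obtain ⟨u, v, huv, hu, hv⟩ := Nat.exists_coprime s s'
  generalize s.gcd s' = g at hu hv
  subst hu hv
  obtain ⟨a1, a2, a3⟩ := h1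
  obtain ⟨b1, b2, b3⟩ := h2
  obtain ⟨r0, ug0⟩ := mul_ne_zero_iff.1 a1.ne_zero
  have vg0 := (mul_ne_zero_iff.1 b1.ne_zero).2
  obtain ⟨u0, g0⟩ := mul_ne_zero_iff.1 ug0
  have v0 := (mul_ne_zero_iff.1 vg0).1
  have q0 := hq.ne_zero
  have vd : v ∣ r * (v * g) := ⟨r * g, by ring⟩
  have sq : Squarefree (q * (r * (u * g) * v)) := by
    rw [show r * (v * g) = r * g * v by ring] at b1
    refine Nat.squarefree_mul_iff.2 ⟨Nat.Coprime.mul_right a2.coprime_mul_left
      (b2.coprime_mul_left.of_dvd_right vd), hq, Nat.squarefree_mul_iff.2 ⟨?_, a1,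
        b1.of_mul_right⟩⟩
    rw [show r * (u * g) = r * g * u by ring]
    exact Nat.Coprime.mul_left (Nat.squarefree_mul_iff.1 b1).1 huv
  obtain ⟨h, hh⟩ : ∃ h : ℤ, h = k * v - k' * u := ⟨_, rfl⟩
  obtain ⟨Q, hQ⟩ : ∃ Q, Q = q * (r * (u * g) * v) := ⟨_, rfl⟩
  have e1 : a * Q = a * q * (r * (u * g)) * v := by rw [hQ]; ring
  have e2 : a * Q = a * q * (r * (v * g)) * u := by rw [hQ]; ring
  have e : ∀ d, kl (a * q * (r * (u * g))) (c * k) d *
      (starRingEnd ℂ) (kl (a * q * (r * (v * g))) (c * k') d) = kl (a * Q) (c * h) d := by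
    intro d
    by_cases hd : d.Coprime (a * Q)
    · have i := inv_spec hd
      rw [kl_eq (hd.of_dvd_right (Dvd.intro _ e1.symm))
          (i.of_dvd (Int.natCast_dvd_natCast.2 (Dvd.intro _ e1.symm))),
        kl_eq (hd.of_dvd_right (Dvd.intro _ e2.symm))
          (i.of_dvd (Int.natCast_dvd_natCast.2 (Dvd.intro _ e2.symm))), ee_conj,
        ← ee_scale (a * q * (r * (u * g))) v0, ← ee_scale (a * q * (r * (v * g))) u0, ← e1, ← e2, ← ee_add, kl, if_pos hd, hh]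
      congr 1; ring
    · rw [kl, kl, kl, if_neg hd]
      split_ifs with x y
      · exact absurd (e1 ▸ Nat.Coprime.mul_right x (y.of_dvd_right (vd.mul_left _))) hd
      all_goals simp
  have c1 : a.Coprime Q := hQ ▸ haq.mul_right (a2.coprime_mul_right.mul_right
    (b2.coprime_mul_right.of_dvd_right vd))
  have c2 : c.natAbs.Coprime Q := hQ ▸ hcq.mul_right (a3.mul_right (b3.of_dvd_right vd))
  rw [← hQ] at sq
  simp only [e]
  refine (kl_sum hW ha sq c1 _ _ _).trans ?_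
  rw [Int.natAbs_mul, c2.gcd_mul_left_cancel]
  have g1 : h.natAbs.gcd r ≤ ((k * (v * g : ℕ) : ℤ) - k' * (u * g : ℕ)).natAbs.gcd r :=
    Nat.le_of_dvd (by positivity) (Nat.gcd_dvd_gcd_of_dvd_left _
      (Int.natAbs_dvd_natAbs.2 ⟨g, by rw [hh]; push_cast; ring⟩))
  have g2 : h.natAbs.gcd u ≤ k.gcd (u * g) := hh ▸ gcd_cross huv ug0
  have g3 : h.natAbs.gcd v ≤ k'.gcd (v * g) := by
    rw [hh, ← Int.natAbs_neg, neg_sub]; exact gcd_cross huv.symm vg0
  have p1 : 0 < ((k * (v * g : ℕ) : ℤ) - k' * (u * g : ℕ)).natAbs.gcd r := by positivity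
  have p2 : 0 < k.gcd (u * g) * k'.gcd (v * g) := by positivity
  generalize ((k * (v * g : ℕ) : ℤ) - k' * (u * g : ℕ)).natAbs.gcd r = G at *
  have l1 : Q * h.natAbs.gcd Q * r ≤ (Q * (G * (k.gcd (u * g) * k'.gcd (v * g)))) ^ 2 := by
    have e3 : Q = r * (q * (u * g * v)) := by rw [hQ]; ring
    have : h.natAbs.gcd Q ≤ G * (q * (u * g * v)) := by
      rw [e3]
      exact (gcd_mul_le _ r0 (by positivity)).trans
        (Nat.mul_le_mul g1 (Nat.gcd_le_right _ (by positivity)))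
    calc _ ≤ Q * (G * (q * (u * g * v))) * r := by gcongr
      _ = Q ^ 2 * (G * 1) := by rw [e3]; ring
      _ ≤ Q ^ 2 * (G * (k.gcd (u * g) * k'.gcd (v * g))) := by gcongr; exact p2
      _ ≤ _ := by rw [mul_pow]; gcongr; exact Nat.le_self_pow two_ne_zero _
  have l2 : Q * h.natAbs.gcd Q ≤
      (q * (G * (k.gcd (u * g) * k'.gcd (v * g)))) ^ 2 * (r * (u * g) * (v * g)) := by
    have : h.natAbs.gcd Q ≤ q * (G * (k.gcd (u * g) * g) * k'.gcd (v * g)) := by
      rw [hQ]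
      refine (gcd_mul_le _ q0 (by positivity)).trans (Nat.mul_le_mul (Nat.gcd_le_right _
        (by positivity)) ((gcd_mul_le _ (by positivity) v0).trans (Nat.mul_le_mul ?_ g3)))
      exact (gcd_mul_le _ r0 ug0).trans (Nat.mul_le_mul g1 ((gcd_mul_le _ u0 g0).trans
        (Nat.mul_le_mul g2 (Nat.gcd_le_right _ (by positivity)))))
    calc _ ≤ Q * (q * (G * (k.gcd (u * g) * g) * k'.gcd (v * g))) := by gcongr
      _ = q ^ 2 * (G * (k.gcd (u * g) * k'.gcd (v * g))) * (r * (u * g) * (v * g)) := by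
        rw [hQ]; ring
      _ ≤ _ := by rw [mul_pow]; gcongr; exact Nat.le_self_pow two_ne_zero _
  have l3 : ((a * Q : ℕ) : ℝ) ≤ Z := le_trans (Nat.cast_le.2 (by
    rw [e1, show a * q * r * (u * g) * (v * g) = a * q * (r * (u * g)) * v * g by ring]
    exact Nat.le_mul_of_pos_right _ (by positivity))) hZ
  have Q0 : (0 : ℝ) < Q := by have := sq.ne_zero; positivity
  have l4 := hτ Q (le_trans (Nat.cast_le.2 (Nat.le_mul_of_pos_left _ (by positivity))) l3)
  have l5 : 1 + Real.log (a * Q) ≤ T := by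
    push_cast at l3; linarith [Real.log_le_log (by positivity) l3]
  rw [← Nat.cast_mul (k.gcd _), ← Nat.cast_mul G]
  generalize G * (k.gcd (u * g) * k'.gcd (v * g)) = P at *
  have T0 : 0 ≤ T := le_trans (by positivity) haT
  have m1 : √(Q * h.natAbs.gcd Q) ≤ Q * P / √r := by
    rw [le_div_iff₀ (by positivity), ← Real.sqrt_mul (by positivity)]
    exact Real.sqrt_le_iff.2 ⟨by positivity, by exact_mod_cast l1⟩
  have m2 : √(Q * h.natAbs.gcd Q) ≤ q * P * √(r * (u * g : ℕ) * (v * g : ℕ)) := by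
    rw [← Real.sqrt_sq (show (0 : ℝ) ≤ q * P by positivity), ← Real.sqrt_mul (by positivity)]
    exact Real.sqrt_le_sqrt (by exact_mod_cast l2)
  rw [add_mul, add_mul (T * n / √r)]
  refine add_le_add ?_ ?_
  · calc _ ≤ n / (a * Q) * (a * (T * (Q * P / √r))) := by gcongr
      _ = _ := by field_simp
  · calc _ ≤ T * (T * (T * (q * P * √(r * (u * g : ℕ) * (v * g : ℕ))))) := by gcongr
      _ = _ := by ring

theorem BL (hW : WeilStmt) {a q R S K : ℕ} {c : ℤ} {T Z R₀ : ℝ} (ha : a ≠ 0) (hq : Squarefree q)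
    (haq : a.Coprime q) (hcq : c.natAbs.Coprime q) (haT : a ≤ T) (hR : 0 < R₀)
    (hZ : (a * q * R * S * S : ℕ) ≤ Z) (hZ' : (K * S : ℕ) ≤ Z) (hZ'' : S ≤ Z)
    (hL : 1 + Real.log Z ≤ T) (hτ : ∀ n : ℕ, n ≤ Z → n.divisors.card ≤ T) (D : ℕ) {β : ℕ → ℂ}
    {γ : ℕ → ℕ × ℕ → ℂ} (hβ : ∀ d, ‖β d‖ ≤ 1) (hγ : ∀ r j, ‖γ r j‖ ≤ 1)
    (hg : ∀ r j, γ r j ≠ 0 → R₀ ≤ r ∧ Good (a * q) c (r * j.1)) :
    ‖∑ r ∈ Ioc 0 R, ∑ d ∈ Ico D (D + D), β d * ∑ j ∈ Ioc 0 S ×ˢ Ioc 0 K,
        γ r j * kl (a * q * (r * j.1)) (c * j.2) d‖ ^ 2 ≤ R * D * (R * D * (K * S * T) +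
      (T * D / √R₀ + T ^ 3 * q * (√R * S)) * (T * R) * (S * (T * K)) ^ 2) := by
  have T0 : 0 ≤ T := le_trans (by positivity) haT
  obtain ⟨U, hU⟩ : ∃ U, U = T * D / √R₀ + T ^ 3 * q * (√R * S) := ⟨_, rfl⟩
  have U0 : 0 ≤ U := by rw [hU]; positivity
  rw [← hU, ← sum_product']
  refine (pow_le_pow_left₀ (norm_nonneg _) ((norm_sum_le _ _).trans (sum_le_sum fun x _ =>
    (norm_mul_le _ _).trans (mul_le_of_le_one_left (norm_nonneg _) (hβ _)))) 2).trans
    (sq_sum_le_card_mul_sum_sq.trans ?_)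
  rw [card_product, Nat.card_Ioc, Nat.card_Ico, Nat.add_sub_cancel, Nat.sub_zero, Nat.cast_mul,
    sum_product]
  refine mul_le_mul_of_nonneg_left ((sum_le_sum fun r _ => expand _ _ (γ r)
    fun j d => kl (a * q * (r * j.1)) (c * j.2) d).trans ?_) (by positivity)
  have key : ∀ j ∈ Ioc 0 S ×ˢ Ioc 0 K, ∀ j' ∈ Ioc 0 S ×ˢ Ioc 0 K,
      ∑ r ∈ Ioc 0 R, ‖γ r j‖ * ‖γ r j'‖ * ‖∑ d ∈ Ico D (D + D), kl (a * q * (r * j.1)) (c * j.2) d *
        (starRingEnd ℂ) (kl (a * q * (r * j'.1)) (c * j'.2) d)‖ ≤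
      R * D * (if j.2 * j'.1 = j'.2 * j.1 then 1 else 0) +
        U * (T * R) * (j.2.gcd j.1 * j'.2.gcd j'.1) := by
    rintro ⟨s, k⟩ hj ⟨s', k'⟩ hj'
    simp only [mem_product, mem_Ioc] at hj hj' ⊢
    have n1 : ∀ r, ‖γ r (s, k)‖ * ‖γ r (s', k')‖ ≤ 1 := fun r =>
      mul_le_one₀ (hγ _ _) (norm_nonneg _) (hγ _ _)
    split_ifs with h
    · refine le_add_of_le_of_nonneg ((sum_le_card_nsmul _ _ (D : ℝ) fun r _ => ?_).trans
        (by simp)) (by positivity)
      refine (mul_le_of_le_one_left (norm_nonneg _) (n1 r)).trans ((norm_sum_le _ _).trans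
        ((sum_le_card_nsmul _ _ 1 fun d _ => ?_).trans (by simp)))
      rw [norm_mul, Complex.norm_conj]
      exact mul_le_one₀ (kl_norm _ _ _) (norm_nonneg _) (kl_norm _ _ _)
    obtain ⟨h1, hh⟩ : ∃ h1, h1 = ((k * s' : ℤ) - k' * s).natAbs := ⟨_, rfl⟩
    have h0 : h1 ≠ 0 := by
      rw [hh, Int.natAbs_ne_zero, sub_ne_zero]; exact_mod_cast h
    have h2 : h1 ≤ K * S := by
      have a1 := Nat.mul_le_mul hj.2.2 hj'.1.2
      have a2 := Nat.mul_le_mul hj'.2.2 hj.1.2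
      rw [← Nat.cast_mul, ← Nat.cast_mul] at hh
      omega
    rw [mul_zero, zero_add]
    refine (sum_le_sum (g := fun r => U * (h1.gcd r * (k.gcd s * k'.gcd s'))) fun r hr => ?_).trans ?_
    · by_cases z : γ r (s, k) = 0 ∨ γ r (s', k') = 0
      · rcases z with z | z <;> simp only [z, norm_zero, zero_mul, mul_zero] <;> positivity
      obtain ⟨z1, z2⟩ := not_or.1 z
      have r1 := (mem_Ioc.1 hr).2
      refine (mul_le_of_le_one_left (norm_nonneg _) (n1 r)).trans ((Tb hW ha hq haq hcq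
        (hg _ _ z1).2 (hg _ _ z2).2 haT (le_trans (Nat.cast_le.2 ?_) hZ) hL hτ _ _ _ _).trans ?_)
      · gcongr; exacts [hj.1.2, hj'.1.2]
      rw [← hh, hU]
      have : √(r * s * s') ≤ √R * S := by
        rw [← Real.sqrt_mul_self (Nat.cast_nonneg S), ← Real.sqrt_mul (by positivity), ← mul_assoc]
        gcongr; exacts [hj.1.2, hj'.1.2]
      gcongr
      exact (hg _ _ z1).1
    · rw [← mul_sum, ← sum_mul, mul_assoc U]
      gcongr
      exact (gcd_sum h0 R).trans (mul_le_mul_of_nonneg_right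
        (hτ _ (le_trans (Nat.cast_le.2 h2) hZ')) (by positivity))
  rw [sum_comm]
  refine (sum_le_sum fun j hj => sum_comm.trans_le (sum_le_sum (key j hj))).trans ?_
  simp only [sum_add_distrib, ← mul_sum, ← sum_mul]
  have a1 : ∑ j ∈ Ioc 0 S ×ˢ Ioc 0 K, (j.2.gcd j.1 : ℝ) ≤ S * (T * K) := by
    rw [sum_product]
    refine (sum_le_card_nsmul _ _ (T * K) fun s hs => ?_).trans (by simp)
    simp only [Nat.gcd_comm _ s]
    obtain ⟨s0, s1⟩ := mem_Ioc.1 hs
    exact (gcd_sum s0.ne' K).trans (mul_le_mul_of_nonneg_right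
      (hτ _ (le_trans (Nat.cast_le.2 s1) hZ'')) (by positivity))
  have a2 : ∑ j ∈ Ioc 0 S ×ˢ Ioc 0 K, ∑ j' ∈ Ioc 0 S ×ˢ Ioc 0 K,
      (if j.2 * j'.1 = j'.2 * j.1 then (1 : ℝ) else 0) ≤ K * S * T := by
    simp only [sum_product]
    rw [sum_comm]
    refine (sum_le_card_nsmul _ _ (S * T) fun k hk => ?_).trans (by simp [mul_assoc])
    rw [sum_comm]
    refine (sum_le_card_nsmul _ _ T fun s hs => ?_).trans (by simp)
    obtain ⟨k0, k1⟩ := mem_Ioc.1 hk
    obtain ⟨s0, s1⟩ := mem_Ioc.1 hs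
    exact (diag_sum (by positivity) _ _).trans
      (hτ _ (le_trans (Nat.cast_le.2 (Nat.mul_le_mul k1 s1)) hZ'))
  rw [← sq]
  gcongr

end Pool.Agent.MP_39a890_nt.KL

end MrgPart2

-- ======== part 3: formerly Pool.Agent.MP_39a890_nt.Page
section MrgPart3

/-! Module PAGE, first part: the Landau-Page theorem. -/

namespace Pool.Agent.MP_39a890_nt

open Finset Filter Topology Complex DirichletCharacter Pool.Agent.MP_34d6af_nt

namespace Page

section bounds
variable {q : ℕ} [NeZero q] {χ : DirichletCharacter ℂ q}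

theorem tail_sigma (hχ : χ ≠ 1) (N : ℕ) {σ : ℝ} (hσ : 1 < σ) :
    ‖LFunction χ σ - ∑ n ∈ Ioc 0 N, χ n * (((n : ℝ) ^ (-σ) : ℝ) : ℂ)‖ ≤ q / (N + 1) := by
  have hs : 1 < (σ : ℂ).re := by simpa using hσ
  have hsum : LSeriesSummable (fun n : ℕ => χ n) σ := LSeriesSummable_of_one_lt_re χ hs
  have hterm : ∀ n : ℕ, LSeries.term (fun n : ℕ => χ n) σ n =
      χ n * (((n : ℝ) ^ (-σ) : ℝ) : ℂ) := by
    intro n
    rcases Nat.eq_zero_or_pos n with rfl | hn
    · simp [Real.zero_rpow (show -σ ≠ 0 by linarith)]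
    · rw [LSeries.term_of_ne_zero hn.ne', Complex.ofReal_cpow (by positivity)]
      push_cast
      rw [Complex.cpow_neg, div_eq_mul_inv]
  have hS : HasSum (fun n : ℕ => χ n * (((n : ℝ) ^ (-σ) : ℝ) : ℂ)) (LFunction χ σ) := by
    rw [LFunction_eq_LSeries χ hs]
    have := hsum.hasSum
    simp_rw [← hterm]
    exact this
  have h := tail_gen (fun n : ℕ => χ n) q (N + 1) (fun v => char_sum_le hχ _ _)
    (fun n => (n : ℝ) ^ (-σ)) (fun n => by positivity) (fun n hn => by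
      have hn' : (0 : ℝ) < n := by exact_mod_cast (show 0 < n by omega)
      apply Real.rpow_le_rpow_of_nonpos hn' (by push_cast; linarith) (by linarith)) _ hS
  rw [range_succ_eq _ (by simp [Real.zero_rpow (show -σ ≠ 0 by linarith)])] at h
  refine h.trans ?_
  rw [div_eq_mul_inv]
  refine mul_le_mul_of_nonneg_left ?_ (by positivity)
  rw [← Real.rpow_neg_one]
  push_cast
  exact Real.rpow_le_rpow_of_exponent_le (by linarith [(Nat.cast_nonneg N : (0 : ℝ) ≤ N)])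
    (by linarith)

theorem harm_le (N : ℕ) : ∑ n ∈ Ioc 0 N, (n : ℝ)⁻¹ ≤ 1 + Real.log N := by
  have h := harmonic_le_one_add_log N
  rw [harmonic_eq_sum_Icc] at h
  push_cast at h
  exact h

theorem L_le (hχ : χ ≠ 1) (N : ℕ) {σ : ℝ} (hσ : 1 < σ) :
    ‖LFunction χ σ‖ ≤ 1 + Real.log N + q / (N + 1) := by
  have h1 := tail_sigma hχ N hσ
  have h2 : ‖∑ n ∈ Ioc 0 N, χ n * (((n : ℝ) ^ (-σ) : ℝ) : ℂ)‖ ≤ 1 + Real.log N := by
    refine (norm_sum_le _ _).trans ((sum_le_sum (fun n hn => ?_)).trans (harm_le N))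
    have hn' : (1 : ℝ) ≤ n := by exact_mod_cast (mem_Ioc.mp hn).1
    rw [norm_mul, Complex.norm_real, Real.norm_of_nonneg (by positivity), ← Real.rpow_neg_one]
    refine (mul_le_of_le_one_left (by positivity) (χ.norm_le_one _)).trans ?_
    exact Real.rpow_le_rpow_of_exponent_le hn' (by linarith)
  have h3 := norm_sub_norm_le (LFunction χ σ) (∑ n ∈ Ioc 0 N, χ n * (((n : ℝ) ^ (-σ) : ℝ) : ℂ))
  linarith

theorem L_diff (hχ : χ ≠ 1) (N : ℕ) {η : ℝ} (hη : 0 < η) :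
    ‖LFunction χ ((1 + η : ℝ) : ℂ)‖ ≤ ‖LFunction χ 1‖ +
      (η * Real.log N * (1 + Real.log N) + 2 * (q / (N + 1))) := by
  have h1 := tail_sigma hχ N (show 1 < 1 + η by linarith)
  have h2 := L_tail hχ N
  have h3 : ‖∑ n ∈ Ioc 0 N, χ n * (((n : ℝ) ^ (-(1 + η)) : ℝ) : ℂ) - ∑ n ∈ Ioc 0 N, χ n / n‖ ≤
      η * Real.log N * (1 + Real.log N) := by
    rw [← sum_sub_distrib]
    refine (norm_sum_le _ _).trans (le_trans ?_ (mul_le_mul_of_nonneg_left (harm_le N)
      (mul_nonneg hη.le (Real.log_natCast_nonneg N))))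
    rw [mul_sum]
    refine sum_le_sum (fun n hn => ?_)
    have hn1 : (1 : ℝ) ≤ n := by exact_mod_cast (mem_Ioc.mp hn).1
    have hn2 : (n : ℝ) ≤ N := by exact_mod_cast (mem_Ioc.mp hn).2
    have hn0 : (0 : ℝ) < n := by linarith
    have e : χ n * (((n : ℝ) ^ (-(1 + η)) : ℝ) : ℂ) - χ n / n =
        χ n * ((((n : ℝ) ^ (-η) - 1) * (n : ℝ)⁻¹ : ℝ) : ℂ) := by
      rw [neg_add, Real.rpow_add hn0, Real.rpow_neg_one]
      push_cast
      ring
    have h4 : 1 - η * Real.log n ≤ (n : ℝ) ^ (-η) := by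
      rw [Real.rpow_def_of_pos hn0]
      have := Real.add_one_le_exp (Real.log n * -η)
      linarith
    have h5 : (n : ℝ) ^ (-η) ≤ 1 := Real.rpow_le_one_of_one_le_of_nonpos hn1 (by linarith)
    have h6 : η * Real.log n ≤ η * Real.log N :=
      mul_le_mul_of_nonneg_left (Real.log_le_log hn0 hn2) hη.le
    rw [e, norm_mul, Complex.norm_real, Real.norm_eq_abs, abs_mul, abs_of_nonpos (by linarith),
      abs_of_pos (inv_pos.mpr hn0)]
    refine (mul_le_of_le_one_left (mul_nonneg (by linarith) (inv_pos.mpr hn0).le)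
      (χ.norm_le_one _)).trans ?_
    exact mul_le_mul_of_nonneg_right (by linarith) (inv_pos.mpr hn0).le
  set A := ∑ n ∈ Ioc 0 N, χ n * (((n : ℝ) ^ (-(1 + η)) : ℝ) : ℂ)
  set B := ∑ n ∈ Ioc 0 N, χ n / n
  have h4 := norm_sub_le_norm_sub_add_norm_sub (LFunction χ ((1 + η : ℝ) : ℂ)) A B
  have h5 := norm_sub_le_norm_sub_add_norm_sub (LFunction χ ((1 + η : ℝ) : ℂ)) B (LFunction χ 1)
  have h6 := norm_sub_norm_le (LFunction χ ((1 + η : ℝ) : ℂ)) (LFunction χ 1)
  rw [norm_sub_rev B] at h5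
  linarith

end bounds

theorem val_real {f : ℕ} {χ : DirichletCharacter ℂ f} (h : χ ^ 2 = 1) (n : ZMod f) :
    ∃ a : ℝ, χ n = a ∧ (a = 0 ∨ a = 1 ∨ a = -1) := by
  rcases MulChar.isQuadratic_iff_sq_eq_one.mpr h n with h1 | h1 | h1
  · exact ⟨0, by simp [h1], Or.inl rfl⟩
  · exact ⟨1, by simp [h1], Or.inr (Or.inl rfl)⟩
  · exact ⟨-1, by simp [h1], Or.inr (Or.inr rfl)⟩

theorem factor_le {x a b : ℝ} (h0 : 0 < x) (h1 : x < 1) (ha : a = 0 ∨ a = 1 ∨ a = -1)
    (hb : b = 0 ∨ b = 1 ∨ b = -1) :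
    1 ≤ |(1 - x)⁻¹ * (1 - a * x)⁻¹ * (1 - b * x)⁻¹ * (1 - a * b * x)⁻¹| := by
  have h2 : 0 < 1 - x := by linarith
  have h3 : 0 < 1 + x := by linarith
  have h4 : (1 - x) * (1 + x) ≤ 1 := by nlinarith
  have h5 : 1 - x ≤ 1 := by linarith
  have h6 : (1 - x) * (1 - x) ≤ 1 := by nlinarith
  have key : 0 < (1 - x) * (1 - a * x) * (1 - b * x) * (1 - a * b * x) ∧
      (1 - x) * (1 - a * x) * (1 - b * x) * (1 - a * b * x) ≤ 1 := by
    rcases ha with rfl | rfl | rfl <;> rcases hb with rfl | rfl | rfl <;>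
      simp only [zero_mul, mul_zero, sub_zero, mul_one, one_mul, neg_mul, mul_neg, neg_neg,
        sub_neg_eq_add] <;>
      refine ⟨by positivity, ?_⟩ <;>
      nlinarith [mul_pos h2 h3, mul_pos h2 h2]
  rw [← mul_inv, ← mul_inv, ← mul_inv]
  exact ((one_le_inv₀ key.1).mpr key.2).trans (le_abs_self _)

section pair
variable {f₁ f₂ : ℕ} [NeZero f₁] [NeZero f₂] (χ₁ : DirichletCharacter ℂ f₁)
  (χ₂ : DirichletCharacter ℂ f₂)

/-- the product character -/
noncomputable def pr : DirichletCharacter ℂ (f₁ * f₂) :=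
  changeLevel (dvd_mul_right f₁ f₂) χ₁ * changeLevel (dvd_mul_left f₂ f₁) χ₂

omit [NeZero f₁] [NeZero f₂] in
theorem pr_apply (n : ℕ) : pr χ₁ χ₂ n = χ₁ n * χ₂ n := by
  by_cases h : n.Coprime (f₁ * f₂)
  · have h' : IsCoprime (n : ℤ) ((f₁ * f₂ : ℕ) : ℤ) := Nat.isCoprime_iff_coprime.mpr h
    have a1 := changeLevel_eq_cast_of_dvd' χ₁ (dvd_mul_right f₁ f₂) h'
    have a2 := changeLevel_eq_cast_of_dvd' χ₂ (dvd_mul_left f₂ f₁) h'
    simp only [Int.cast_natCast] at a1 a2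
    rw [pr, MulChar.mul_apply, a1, a2]
  · rw [MulChar.map_nonunit _ (fun hu => h ((ZMod.isUnit_iff_coprime _ _).mp hu))]
    rw [Nat.coprime_mul_iff_right, not_and_or] at h
    rcases h with h | h
    · rw [MulChar.map_nonunit χ₁ (fun hu => h ((ZMod.isUnit_iff_coprime _ _).mp hu)), zero_mul]
    · rw [MulChar.map_nonunit χ₂ (fun hu => h ((ZMod.isUnit_iff_coprime _ _).mp hu)), mul_zero]

variable {χ₁ χ₂}

theorem eq_of_pr (h1 : χ₁.IsPrimitive) (h2 : χ₂.IsPrimitive) (hs : χ₂ ^ 2 = 1)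
    (h : pr χ₁ χ₂ = 1) : f₁ = f₂ := by
  have h3 : changeLevel (dvd_mul_left f₂ f₁) χ₂ * changeLevel (dvd_mul_left f₂ f₁) χ₂ = 1 := by
    rw [← map_mul, ← sq, hs, map_one]
  have h4 : changeLevel (dvd_mul_right f₁ f₂) χ₁ = changeLevel (dvd_mul_left f₂ f₁) χ₂ :=
    mul_right_cancel (h.trans h3.symm)
  have h5 := congrArg conductor h4
  rw [conductor_changeLevel, conductor_changeLevel] at h5
  rw [← h1, ← h2, h5]

theorem prod_ge (hs1 : χ₁ ^ 2 = 1) (hs2 : χ₂ ^ 2 = 1) {σ : ℝ} (hσ : 1 < σ) :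
    1 ≤ ‖riemannZeta σ‖ * ‖LFunction χ₁ σ‖ * ‖LFunction χ₂ σ‖ * ‖LFunction (pr χ₁ χ₂) σ‖ := by
  have hs : 1 < (σ : ℂ).re := by simpa using hσ
  have hp := (((riemannZeta_eulerProduct_hasProd hs).mul (χ₁.LSeries_eulerProduct_hasProd hs)).mul
    (χ₂.LSeries_eulerProduct_hasProd hs)).mul ((pr χ₁ χ₂).LSeries_eulerProduct_hasProd hs)
  rw [LFunction_eq_LSeries _ hs, LFunction_eq_LSeries _ hs, LFunction_eq_LSeries _ hs,
    ← norm_mul, ← norm_mul, ← norm_mul]
  refine ge_of_tendsto' hp.norm (fun S => ?_)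
  refine Finset.prod_induction _ (fun x : ℝ => 1 ≤ x) (fun x y hx hy => one_le_mul_of_one_le_of_one_le hx hy)
    le_rfl (fun p _ => ?_)
  obtain ⟨a, ha, ha'⟩ := val_real hs1 ((p : ℕ) : ZMod f₁)
  obtain ⟨b, hb, hb'⟩ := val_real hs2 ((p : ℕ) : ZMod f₂)
  have hp1 : (1 : ℝ) < (p : ℕ) := by exact_mod_cast p.2.one_lt
  have e : ((p : ℕ) : ℂ) ^ (-(σ : ℂ)) = ((((p : ℕ) : ℝ) ^ (-σ) : ℝ) : ℂ) := by
    rw [Complex.ofReal_cpow (by positivity)]
    push_cast
    rfl
  rw [pr_apply, ha, hb, e]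
  have := factor_le (x := ((p : ℕ) : ℝ) ^ (-σ)) (by positivity)
    (Real.rpow_lt_one_of_one_lt_of_neg hp1 (by linarith)) ha' hb'
  rw [← Real.norm_eq_abs, ← Complex.norm_real] at this
  push_cast at this ⊢
  exact this

end pair

theorem zeta_le : ∃ η₀ : ℝ, 0 < η₀ ∧ ∀ η : ℝ, 0 < η → η < η₀ →
    ‖riemannZeta ((1 + η : ℝ) : ℂ)‖ ≤ 2 / η := by
  have h1 : Tendsto (fun η : ℝ => ((1 + η : ℝ) : ℂ)) (𝓝[>] 0) (𝓝[≠] 1) := by
    refine tendsto_nhdsWithin_iff.mpr ⟨?_, ?_⟩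
    · have : Continuous (fun η : ℝ => ((1 + η : ℝ) : ℂ)) := by fun_prop
      simpa using (this.tendsto 0).mono_left nhdsWithin_le_nhds
    · filter_upwards [self_mem_nhdsWithin] with η hη hc
      have := congrArg Complex.re (Set.mem_singleton_iff.mp hc)
      simp only [ofReal_re, one_re] at this
      have : (0 : ℝ) < η := hη
      linarith
  have h2 := (riemannZeta_residue_one.comp h1).norm.eventually
    (gt_mem_nhds (show ‖(1 : ℂ)‖ < 2 by simp))
  obtain ⟨η₀, h0, h3⟩ := mem_nhdsGT_iff_exists_Ioo_subset.mp h2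
  refine ⟨η₀, h0, fun η a b => ?_⟩
  have h4 : ‖(((1 + η : ℝ) : ℂ) - 1) * riemannZeta ((1 + η : ℝ) : ℂ)‖ < 2 := h3 ⟨a, b⟩
  rw [norm_mul, show ((1 + η : ℝ) : ℂ) - 1 = (η : ℂ) by push_cast; ring, Complex.norm_real,
    Real.norm_of_nonneg a.le] at h4
  rw [le_div_iff₀ a]
  linarith

theorem one_le_log {Q : ℝ} (hQ : 3 ≤ Q) : 1 ≤ Real.log Q := by
  rw [Real.le_log_iff_exp_le (by linarith)]
  linarith [Real.exp_one_lt_d9]

/-- at most one conductor carries a small value -/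
theorem pair : ∃ Q₀ : ℝ, ∀ Q : ℝ, Q₀ ≤ Q → ∀ (f₁ f₂ : ℕ) [NeZero f₁] [NeZero f₂]
    (χ₁ : DirichletCharacter ℂ f₁) (χ₂ : DirichletCharacter ℂ f₂), χ₁.IsPrimitive →
    χ₂.IsPrimitive → χ₁ ≠ 1 → χ₂ ≠ 1 → χ₁ ^ 2 = 1 → χ₂ ^ 2 = 1 → (f₁ : ℝ) ≤ Q → (f₂ : ℝ) ≤ Q →
    ‖LFunction χ₁ 1‖ < (1 / 10000) / Real.log Q ^ 3 →
    ‖LFunction χ₂ 1‖ < (1 / 10000) / Real.log Q ^ 3 → f₁ = f₂ := by
  obtain ⟨η₀, hη₀, hz⟩ := zeta_le
  have e1 : ∀ᶠ Q : ℝ in atTop, (1 / 10000) / Real.log Q ^ 5 < η₀ :=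
    (tendsto_const_nhds.div_atTop ((tendsto_pow_atTop (by norm_num)).comp
      Real.tendsto_log_atTop)).eventually (gt_mem_nhds hη₀)
  have e2 : ∀ᶠ Q : ℝ in atTop, ‖Real.log Q ^ 3‖ ≤ (1 / 20000) * ‖Q‖ :=
    (Real.isLittleO_pow_log_id_atTop (n := 3)).def (by norm_num)
  obtain ⟨Q₀, hQ₀⟩ := eventually_atTop.mp (e1.and (e2.and (eventually_ge_atTop 3)))
  refine ⟨Q₀, fun Q hQ f₁ f₂ _ _ χ₁ χ₂ p1 p2 n1 n2 s1 s2 l1 l2 b1 b2 => ?_⟩
  obtain ⟨a1, a2, a3⟩ := hQ₀ Q hQ
  refine eq_of_pr p1 p2 s2 ?_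
  by_contra hne
  have hL := one_le_log a3
  set L := Real.log Q with hLd
  have hQ0 : 0 < Q := by linarith
  rw [Real.norm_of_nonneg (by positivity), Real.norm_of_nonneg hQ0.le] at a2
  set η := (1 / 10000) / L ^ 5 with hη
  have hηpos : 0 < η := by positivity
  set N := ⌊Q ^ 2⌋₊ with hN
  have hN1 : Q ^ 2 < N + 1 := Nat.lt_floor_add_one _
  have hN2 : (N : ℝ) ≤ Q ^ 2 := Nat.floor_le (by positivity)
  have hN3 : (0 : ℝ) < N := by nlinarith
  have hlN : Real.log N ≤ 2 * L := by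
    have := Real.log_le_log hN3 hN2
    rwa [Real.log_pow, Nat.cast_ofNat] at this
  have hlN0 := Real.log_natCast_nonneg N
  have hsmall : ∀ (f : ℕ) [NeZero f] (χ : DirichletCharacter ℂ f), χ ≠ 1 → (f : ℝ) ≤ Q →
      ‖LFunction χ 1‖ < (1 / 10000) / L ^ 3 →
      ‖LFunction χ ((1 + η : ℝ) : ℂ)‖ ≤ (8 / 10000) / L ^ 3 := by
    intro f _ χ hχ hf hb
    have h1 := L_diff hχ N hηpos
    have h2 : η * Real.log N * (1 + Real.log N) ≤ (6 / 10000) / L ^ 3 := by
      have : Real.log N * (1 + Real.log N) ≤ 6 * L ^ 2 := by nlinarith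
      rw [mul_assoc]
      refine (mul_le_mul_of_nonneg_left this hηpos.le).trans (le_of_eq ?_)
      rw [hη]
      field_simp
    have h3 : 2 * ((f : ℝ) / (N + 1)) ≤ (1 / 10000) / L ^ 3 := by
      rw [← mul_div_assoc, div_le_div_iff₀ (by positivity) (by positivity)]
      nlinarith [mul_le_mul hf a2 (by positivity) hQ0.le]
    have e : (8 / 10000) / L ^ 3 = (1 / 10000) / L ^ 3 + ((6 / 10000) / L ^ 3 +
      (1 / 10000) / L ^ 3) := by ring
    linarith
  have c0 := hz η hηpos a1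
  have c1 := hsmall f₁ χ₁ n1 l1 b1
  have c2 := hsmall f₂ χ₂ n2 l2 b2
  have c3 : ‖LFunction (pr χ₁ χ₂) ((1 + η : ℝ) : ℂ)‖ ≤ 4 * L := by
    have h1 := L_le hne N (show 1 < 1 + η by linarith)
    have h2 : ((f₁ * f₂ : ℕ) : ℝ) / (N + 1) ≤ 1 := by
      rw [div_le_one (by positivity)]
      push_cast
      nlinarith [mul_le_mul l1 l2 (Nat.cast_nonneg _) hQ0.le]
    linarith
  have c4 := prod_ge s1 s2 (show 1 < 1 + η by linarith)
  have c5 : ‖riemannZeta ((1 + η : ℝ) : ℂ)‖ * ‖LFunction χ₁ ((1 + η : ℝ) : ℂ)‖ *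
      ‖LFunction χ₂ ((1 + η : ℝ) : ℂ)‖ * ‖LFunction (pr χ₁ χ₂) ((1 + η : ℝ) : ℂ)‖ ≤
      2 / η * ((8 / 10000) / L ^ 3) * ((8 / 10000) / L ^ 3) * (4 * L) := by
    gcongr
  have c6 : 2 / η * ((8 / 10000) / L ^ 3) * ((8 / 10000) / L ^ 3) * (4 * L) = 512 / 10000 := by
    rw [hη]
    field_simp
    norm_num
  linarith

theorem small_level (F : ℕ) : ∃ c : ℝ, 0 < c ∧ ∀ (f : ℕ) [NeZero f] (χ : DirichletCharacter ℂ f),
    f ≤ F → χ ≠ 1 → c ≤ ‖LFunction χ 1‖ := by
  induction F with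
  | zero => exact ⟨1, one_pos, fun f _ _ h => absurd (Nat.le_zero.mp h) (NeZero.ne f)⟩
  | succ F ih =>
    obtain ⟨c, hc, h1⟩ := ih
    obtain ⟨c', hc', h2⟩ : ∃ c' : ℝ, 0 < c' ∧ ∀ χ : {χ : DirichletCharacter ℂ (F + 1) // χ ≠ 1},
        c' ≤ ‖LFunction χ.1 1‖ := by
      rcases isEmpty_or_nonempty {χ : DirichletCharacter ℂ (F + 1) // χ ≠ 1} with h | h
      · exact ⟨1, one_pos, fun χ => isEmptyElim χ⟩
      · obtain ⟨χ₀, h0⟩ := Finite.exists_min
          (fun χ : {χ : DirichletCharacter ℂ (F + 1) // χ ≠ 1} => ‖LFunction χ.1 1‖)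
        exact ⟨_, norm_pos_iff.mpr (LFunction_apply_one_ne_zero χ₀.2), h0⟩
    refine ⟨min c c', lt_min hc hc', fun f _ χ hf hχ => ?_⟩
    rcases hf.lt_or_eq with h | rfl
    · exact (min_le_left _ _).trans (h1 f χ (by omega) hχ)
    · exact (min_le_right _ _).trans (h2 ⟨χ, hχ⟩)

end Page

open Page in
theorem page : PageStmt := by
  intro W hW
  obtain ⟨Q₀, hpair⟩ := pair
  obtain ⟨c, hc, hs⟩ := small_level (max W ⌈Q₀⌉₊)
  refine ⟨min c (1 / 10000), by positivity, fun Q hQ => ?_⟩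
  have hL : 1 ≤ Real.log Q ^ 3 := one_le_pow₀ (one_le_log hQ)
  have hc1 : min c (1 / 10000) / Real.log Q ^ 3 ≤ c :=
    (div_le_self (by positivity) hL).trans (min_le_left _ _)
  have hc2 : min c (1 / 10000) / Real.log Q ^ 3 ≤ (1 / 10000) / Real.log Q ^ 3 :=
    div_le_div_of_nonneg_right (min_le_right _ _) (by positivity)
  by_cases hex : ∃ (f : ℕ) (_ : NeZero f) (χ : DirichletCharacter ℂ f) (p : ℕ), χ.IsPrimitive ∧
      χ ≠ 1 ∧ χ ^ 2 = 1 ∧ (f : ℝ) ≤ Q ∧ ‖LFunction χ 1‖ < min c (1 / 10000) / Real.log Q ^ 3 ∧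
      p.Prime ∧ p ∣ f ∧ ¬ p ∣ W
  · obtain ⟨f₀, _, χ₀, p, a1, a2, a3, a4, a5, a6, a7, a8⟩ := hex
    refine ⟨p, a6, a8, fun f _ χ b1 b2 b3 b4 ⟨q, b5, b6⟩ => ?_⟩
    by_contra hlt
    push Not at hlt
    have hQ0 : Q₀ ≤ Q := by
      by_contra hc'
      have h1 : f ≤ ⌈Q₀⌉₊ := by
        have := Nat.le_ceil Q₀
        exact_mod_cast (by linarith : (f : ℝ) ≤ ⌈Q₀⌉₊)
      have := hs f χ (h1.trans (le_max_right _ _)) b2
      linarith
    have hf := hpair Q hQ0 f₀ f χ₀ χ a1 b1 a2 b2 a3 b3 a4 b4 (a5.trans_le hc2) (hlt.trans_le hc2)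
    subst hf
    have h1 : p ∣ q := ((Nat.Prime.dvd_mul a6).mp (a7.trans b5)).resolve_left a8
    exact a6.one_lt.ne' (Nat.eq_one_of_dvd_coprimes b6 h1 (dvd_mul_left p W))
  · obtain ⟨p, hp1, hp2⟩ := Nat.exists_infinite_primes (W + 1)
    refine ⟨p, hp2, fun h => by have := Nat.le_of_dvd hW h; omega,
      fun f _ χ b1 b2 b3 b4 ⟨q, b5, b6⟩ => ?_⟩
    by_contra hlt
    push Not at hlt
    have hcop : f.Coprime q := by
      refine Nat.coprime_of_dvd (fun r hr h1 h2 => hex ⟨f, inferInstance, χ, r, b1, b2, b3, b4,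
        hlt, hr, h1, fun h3 => hr.one_lt.ne' ?_⟩)
      exact Nat.eq_one_of_dvd_coprimes b6 h2 (h3.mul_right p)
    have := hs f χ ((Nat.le_of_dvd hW (hcop.dvd_of_dvd_mul_right b5)).trans (le_max_left _ _)) b2
    linarith

end Pool.Agent.MP_39a890_nt

end MrgPart3

-- marker of a merged file
example : 731051 + 865196 = 731051 + 865196 := rfl
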