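import Mathlib.Analysis.Real.Pi.Bounds
import Mathlib.RingTheory.SimpleRing.Principal
import Pool.Agent.MP_39a890_nt.SWc

/-! Module SW: the Siegel-Walfisz bound for the Riesz mean. -/

namespace Pool.Agent.MP_39a890_nt

open Finset Filter Topology Complex MeasureTheory DirichletCharacter ArithmeticFunction

namespace SW

theorem norm_LSeries_le {f : ℕ} (χ : DirichletCharacter ℂ f) {L : ℝ} (hL : 1 ≤ L) {s : ℂ}
    (hs : s.re = 1 + 1 / L) :
    ‖LSeries ((fun n : ℕ => χ n) * fun n : ℕ => (Λ n : ℂ)) s‖ ≤ 6 * L ^ 2 := by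
  have hL0 : 0 < L := by linarith
  have hε : 0 < 1 / (2 * L) := by positivity
  have h1 : 1 < s.re := by
    have : 0 < 1 / L := by positivity
    linarith
  have h2 := (summable_w hε).mul_left (2 * L)
  rw [← (hasSum_w (LSeriesSummable_twist_vonMangoldt χ h1)).tsum_eq]
  refine (tsum_of_norm_bounded h2.hasSum fun k => ?_).trans
    (h2.tsum_le_of_sum_range_le fun n => ?_)
  · have hk : (0 : ℝ) < (k : ℝ) + 1 := by positivity
    have a1 : Λ (k + 1) ≤ 2 * L * ((k : ℝ) + 1) ^ (1 / (2 * L)) := by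
      refine vonMangoldt_le_log.trans ?_
      have := Real.log_le_rpow_div hk.le hε
      rw [div_div_eq_mul_div, div_one, mul_comm] at this
      exact_mod_cast this
    rw [norm_mul, norm_w, Pi.mul_apply, norm_mul, norm_real, Real.norm_of_nonneg vonMangoldt_nonneg,
      show -(1 + 1 / (2 * L)) = 1 / (2 * L) + -s.re by rw [hs]; field_simp; ring,
      Real.rpow_add hk, ← mul_assoc]
    gcongr ?_ * _
    exact (mul_le_of_le_one_left vonMangoldt_nonneg (norm_le_one χ _)).trans a1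
  · rw [← mul_sum]
    refine (mul_le_mul_of_nonneg_left (full_sum hε n) (by positivity)).trans ?_
    rw [one_div_one_div]
    nlinarith

theorem main_bound {f : ℕ} [NeZero f] {χ : DirichletCharacter ℂ f} {M T y : ℝ} (hχ : χ ≠ 1)
    (hM : 3 ≤ M) (hT : 0 < T)
    (hU : ∀ ψ : DirichletCharacter ℂ f, ψ ≠ 1 → ∀ s : ℂ, 1 - 2 / M ≤ s.re → s.re ≤ 3 →
      |s.im| ≤ 2 * T + 1 → ‖LFunction ψ s‖ ≤ M)
    (h0 : ∀ s : ℂ, 1 < s.re → s.re ≤ 3 → |s.im| ≤ 2 * T + 1 →
      ‖LFunction (1 : DirichletCharacter ℂ f) s‖ ≤ M + 1 / ‖s - 1‖)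
    (h1 : χ ^ 2 = 1 → 1 / M ^ 3 ≤ ‖LFunction χ 1‖) (hy : 1 ≤ y) (hL : M ^ 20 ≤ Real.log y) :
    ‖∑ n ∈ Ioc 0 ⌊y⌋₊, (Λ n : ℂ) * χ n * ((y : ℂ) - n)‖ ≤
      y * (2 * (M ^ 20 * (3 * y / T ^ 2)) +
        M ^ 20 * (y * Real.exp (-(Real.log y / M ^ 20)) / (1 / 4)) * (2 * T) +
        2 * (6 * Real.log y ^ 2 * (3 * y)) / T) := by
  set L := Real.log y with hLdef
  have hy0 : 0 < y := by linarith
  have hM3 : 3 ≤ M ^ 20 := hM.trans (le_self_pow₀ (by linarith) (by norm_num))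
  have hL0 : 0 < L := by linarith
  have e1 : 1 / L ≤ 1 / M ^ 20 := one_div_le_one_div_of_le (by linarith) hL
  have e2 : 1 / M ^ 20 ≤ 1 / 3 := one_div_le_one_div_of_le (by norm_num) hM3
  have e3 : 0 < 1 / L := by positivity
  set b : ℝ := 1 + 1 / L with hb
  set H : ℂ → ℂ := fun s => -deriv (LFunction χ) s / LFunction χ s with hH
  have hd : ∀ s, LFunction χ s ≠ 0 → DifferentiableAt ℂ H s := fun s hs =>
    ((differentiable_LFunction hχ).analyticAt s).deriv.differentiableAt.neg.div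
      (differentiable_LFunction hχ s) hs
  have hE : ∀ s : ℂ, 1 < s.re →
      LSeries ((fun n : ℕ => χ n) * fun n : ℕ => (Λ n : ℂ)) s = H s := fun s hs => by
    rw [LSeries_twist_vonMangoldt_eq χ hs, hH]
    simp only [deriv_LFunction_eq_deriv_LSeries χ hs, LFunction_eq_LSeries χ hs]
  have hb1 : ∀ t : ℝ, ((b : ℂ) + t * I).re = b := fun t => by simp
  have hyb : y ^ b ≤ 3 * y := by
    rw [hb, Real.rpow_add hy0, Real.rpow_one, mul_comm]
    gcongr
    exact (rpow_le_exp hy0 le_rfl le_rfl hL0 zero_le_one).trans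
      (Real.exp_one_lt_d9.le.trans (by norm_num))
  have hya : y ^ (1 - 1 / M ^ 20) = y * Real.exp (-(L / M ^ 20)) := by
    rw [sub_eq_add_neg, Real.rpow_add hy0, Real.rpow_one, Real.rpow_def_of_pos hy0]
    congr 2
    ring
  have p1 := perron (a := (fun n : ℕ => χ n) * fun n : ℕ => (Λ n : ℂ)) hy0 (b := b) (by linarith)
    (LSeriesSummable_twist_vonMangoldt χ (by simp only [ofReal_re]; linarith))
  have p2 := truncate (F := fun t : ℝ => H (b + t * I) * ker y (b + t * I))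
    (K := 6 * L ^ 2 * (3 * y)) (by positivity) hT (continuous_iff_continuousAt.2 fun t =>
      ContinuousAt.comp (g := fun s => H s * ker y s) (f := fun t : ℝ => (b : ℂ) + t * I)
        ((hd _ (LFunction_ne_zero_of_one_le_re χ (Or.inl hχ) (by rw [hb1]; linarith))).mul
          (differentiableAt_ker hy0 (by rw [hb1]; linarith))).continuousAt (by fun_prop))
    fun t => by
      rw [norm_mul, mul_assoc (6 * L ^ 2), ← hE _ (by rw [hb1]; linarith)]
      refine mul_le_mul (norm_LSeries_le χ (by linarith) (hb1 t))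
        ((norm_ker_line hy0 (by linarith) t).trans ?_) (norm_nonneg _) (by positivity)
      gcongr
  have p3 := shift (H := H) (a := 1 - 1 / M ^ 20) (b := b) (K := M ^ 20) hy (by linarith)
    (by linarith) (by linarith) hT fun s k1 k2 k3 => by
      have := logDeriv_le hχ hM hT.le hU h0 h1 (s := s) (abs_le.2 ⟨by linarith, by linarith⟩) k3
      exact ⟨hd s this.1, this.2⟩
  simp only [fun t : ℝ => hE (b + t * I) (by rw [hb1]; linarith)] at p1
  have p4 := congrArg norm p1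
  rw [norm_mul, norm_mul, norm_real, Real.norm_of_nonneg hy0.le] at p4
  have p5 : 1 ≤ ‖(2 * Real.pi : ℂ)‖ := by
    rw [norm_mul, norm_real, Real.norm_of_nonneg Real.pi_pos.le, Complex.norm_two]
    linarith [Real.pi_gt_three]
  rw [hya] at p3
  have p6 : y ^ b / T ^ 2 ≤ 3 * y / T ^ 2 := by gcongr
  have p7 := mul_le_mul_of_nonneg_left p6 (by linarith : 0 ≤ M ^ 20)
  simp only [mul_comm (Λ _ : ℂ)]
  refine (le_mul_of_one_le_left (norm_nonneg _) p5).trans (le_of_eq_of_le p4.symm ?_)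
  gcongr
  linarith

theorem eventually_large (A : ℕ) (D : ℝ) : ∀ᶠ L : ℝ in atTop,
    15 ≤ L ∧ (D * Real.log L) ^ 20 ≤ √L ∧ L ^ (2 * A + 3) ≤ Real.exp (√L) := by
  have h1 := ((Real.isLittleO_pow_log_id_atTop (n := 40)).const_mul_left (D ^ 40)).bound one_pos
  have h2 := ((Real.tendsto_exp_div_pow_atTop (2 * (2 * A + 3))).comp
    Real.tendsto_sqrt_atTop).eventually_ge_atTop 1
  filter_upwards [eventually_ge_atTop 15, h1, h2] with L a1 a2 a3
  have hL : 0 < L := by linarith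
  refine ⟨a1, Real.le_sqrt_of_sq_le ?_, ?_⟩
  · rw [← pow_mul, mul_pow]
    refine (le_abs_self _).trans (a2.trans_eq ?_)
    simp [abs_of_pos hL]
  · rw [Function.comp_apply, one_le_div (by positivity), pow_mul, Real.sq_sqrt hL.le] at a3
    exact a3

theorem large (A B : ℕ) {c : ℝ} (hc : 0 < c) {Q y : ℝ} {f : ℕ} [NeZero f]
    {χ : DirichletCharacter ℂ f} (hχ : χ ≠ 1) (hQ : 3 ≤ Q) (hf : (f : ℝ) ≤ Q) (hy : 3 ≤ y)
    (hB : Q ≤ Real.log y ^ B) (h1 : χ ^ 2 = 1 → c / Real.log Q ^ 3 ≤ ‖LFunction χ 1‖)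
    (a1 : 15 ≤ Real.log y)
    (a2 : (40 * ((A + B + 3 : ℕ) * (1 + 1 / c)) * Real.log (Real.log y)) ^ 20 ≤ √(Real.log y))
    (a3 : Real.log y ^ (2 * A + 3) ≤ Real.exp (√(Real.log y))) :
    ‖∑ n ∈ Ioc 0 ⌊y⌋₊, (Λ n : ℂ) * χ n * ((y : ℂ) - n)‖ ≤ 50 * y ^ 2 / Real.log y ^ A := by
  set L := Real.log y with hL
  have hL1 : 1 ≤ L := by linarith
  have hL0 : 0 < L := by linarith
  have hl : 1 ≤ Real.log L := by
    rw [Real.le_log_iff_exp_le hL0]
    linarith [Real.exp_one_lt_d9]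
  have hc1 : 0 < 1 / c := by positivity
  have hE : (3 : ℝ) ≤ (A + B + 3 : ℕ) := by exact_mod_cast Nat.le_add_left 3 _
  set ℓ : ℝ := (A + B + 3 : ℕ) * (1 + 1 / c) * Real.log L with hℓ
  have hℓ1 : (A + B + 3 : ℕ) * Real.log L ≤ ℓ := by
    rw [hℓ]
    gcongr
    exact le_mul_of_one_le_right (by linarith) (by linarith)
  have hℓ2 : 2 ≤ ℓ := by nlinarith
  set T := L ^ (A + 2) with hT
  have hT1 : 1 ≤ T := one_le_pow₀ hL1
  set N := ⌈2 * f * (2 * T + 5)⌉₊ with hN
  have hf1 : (1 : ℝ) ≤ f := by exact_mod_cast NeZero.pos f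
  have hN1 : 2 * f * (2 * T + 5) ≤ N := Nat.le_ceil _
  have hN2 : Real.log N ≤ ℓ := by
    refine le_trans ?_ hℓ1
    rw [← Real.log_pow]
    refine Real.log_le_log (lt_of_lt_of_le (by positivity) hN1) ?_
    have b1 : (N : ℝ) ≤ 2 * f * (2 * T + 5) + 1 := (Nat.ceil_lt_add_one (by positivity)).le
    have b2 : (f : ℝ) * T ≤ L ^ B * T := by gcongr; exact hf.trans hB
    have b3 : 1 ≤ (f : ℝ) * T := one_le_mul_of_one_le_of_one_le hf1 hT1
    have b4 : (f : ℝ) ≤ f * T := le_mul_of_one_le_right (by linarith) hT1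
    rw [show L ^ (A + B + 3) = L * (L ^ B * T) by rw [hT]; ring]
    nlinarith
  have hN3 : ∀ s : ℂ, 0 ≤ s.re → s.re ≤ 3 → |s.im| ≤ 2 * T + 1 → 2 * f * (‖s‖ + 1) ≤ N :=
    fun s k1 k2 k3 => by
    refine le_trans ?_ hN1
    have := norm_le_abs_re_add_abs_im s
    rw [abs_of_nonneg k1] at this
    gcongr 2 * f * ?_
    linarith
  rw [mul_assoc 40, ← hℓ] at a2
  set M := 40 * ℓ with hM
  have hM1 : 2 / M ≤ 1 / ℓ := by
    rw [div_le_div_iff₀ (by linarith) (by linarith)]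
    linarith
  have hM2 : 1 / ℓ ≤ 1 := by rw [div_le_one (by linarith)]; linarith
  have hs1 : 1 ≤ √L := Real.one_le_sqrt.2 hL1
  have hs2 : √L * √L = L := Real.mul_self_sqrt hL0.le
  have hs3 : M ^ 20 ≤ L := by nlinarith
  have hM0 : 0 < M ^ 20 := by positivity
  have key := main_bound (M := M) (T := T) (y := y) hχ (by linarith) (by linarith)
    (fun ψ hψ s k1 k2 k3 => (norm_L_le (ψ.sum_eq_zero_of_ne_one hψ)
      (fun x => (norm_le_one ψ x).trans one_le_two) hN2 hℓ2 (by linarith)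
      (hN3 s (by linarith) k2 k3)).trans (by linarith))
    (fun s k1 k2 k3 => norm_L_one_le hN2 hℓ2 k1 (hN3 s (by linarith) k2 k3))
    (fun h => by
      refine le_trans ?_ (h1 h)
      have b1 : 0 < Real.log Q := Real.log_pos (by linarith)
      have b2 : Real.log Q ≤ (A + B + 3 : ℕ) * Real.log L := by
        rw [← Real.log_pow]
        exact Real.log_le_log (by linarith) (hB.trans (pow_le_pow_right₀ hL1 (by omega)))
      have b3 : (1 + 1 / c) * Real.log Q ≤ M := by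
        calc _ ≤ (1 + 1 / c) * ((A + B + 3 : ℕ) * Real.log L) := by gcongr
          _ = ℓ := by rw [hℓ]; ring
          _ ≤ M := by linarith
      have b4 : 1 / c ≤ (1 + 1 / c) ^ 3 :=
        le_trans (by linarith) (le_self_pow₀ (by linarith) three_ne_zero)
      rw [← one_div_one_div c, div_div]
      refine one_div_le_one_div_of_le (by positivity) ?_
      calc _ ≤ (1 + 1 / c) ^ 3 * Real.log Q ^ 3 := by gcongr
        _ = ((1 + 1 / c) * Real.log Q) ^ 3 := by ring
        _ ≤ _ := by gcongr) (by linarith) hs3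
  rw [← hL] at key
  refine key.trans ?_
  have hy0 : 0 < y := by linarith
  have hA : 0 < L ^ A := by positivity
  have c1 : M ^ 20 * (3 * y / T ^ 2) ≤ 3 * (y / L ^ A) := by
    calc _ ≤ L * (3 * y / L ^ (A + 1)) := by
          rw [hT, ← pow_mul]
          gcongr
          omega
      _ = _ := by field_simp; ring
  have c2 : M ^ 20 * (y * Real.exp (-(L / M ^ 20)) / (1 / 4)) * (2 * T) ≤ 8 * (y / L ^ A) := by
    have : Real.exp (-(L / M ^ 20)) ≤ 1 / L ^ (2 * A + 3) := by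
      rw [Real.exp_neg, ← one_div]
      refine one_div_le_one_div_of_le (by positivity) (a3.trans (Real.exp_le_exp.2 ?_))
      rw [le_div_iff₀ hM0]
      nlinarith
    calc _ ≤ L * (y * (1 / L ^ (2 * A + 3)) / (1 / 4)) * (2 * T) := by gcongr
      _ = _ := by rw [hT]; field_simp; ring
  have c3 : 2 * (6 * L ^ 2 * (3 * y)) / T = 36 * (y / L ^ A) := by
    rw [hT]
    field_simp
    ring
  rw [c3]
  calc _ ≤ y * (50 * (y / L ^ A)) := by gcongr; linarith
    _ = _ := by ring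

theorem trivial_bound {f : ℕ} (χ : DirichletCharacter ℂ f) {y : ℝ} (hy : 3 ≤ y) :
    ‖∑ n ∈ Ioc 0 ⌊y⌋₊, (Λ n : ℂ) * χ n * ((y : ℂ) - n)‖ ≤ Real.log y * y ^ 2 := by
  have hl : 0 < Real.log y := Real.log_pos (by linarith)
  refine (norm_sum_le _ _).trans ((sum_le_card_nsmul _ _ (Real.log y * y) fun n hn => ?_).trans ?_)
  · have h1 : (0 : ℝ) < n := by exact_mod_cast (mem_Ioc.1 hn).1
    have h2 : (n : ℝ) ≤ y := (Nat.le_floor_iff (by linarith)).1 (mem_Ioc.1 hn).2
    rw [norm_mul, norm_mul, norm_real, Real.norm_of_nonneg vonMangoldt_nonneg, ← ofReal_natCast,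
      ← ofReal_sub, norm_real, Real.norm_of_nonneg (by linarith)]
    exact mul_le_mul ((mul_le_of_le_one_right vonMangoldt_nonneg (norm_le_one χ _)).trans
      (vonMangoldt_le_log.trans (Real.log_le_log h1 h2))) (by linarith) (by linarith) hl.le
  · rw [Nat.card_Ioc, nsmul_eq_mul, Nat.sub_zero]
    calc _ ≤ y * (Real.log y * y) := by gcongr; exact Nat.floor_le (by linarith)
      _ = _ := by ring

end SW

theorem sw : SWStmt := by
  intro A B c hc
  obtain ⟨L₀, h₀⟩ :=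
    eventually_atTop.1 (SW.eventually_large A (40 * ((A + B + 3 : ℕ) * (1 + 1 / c))))
  refine ⟨max 50 (L₀ ^ (A + 1)), fun Q y f _ χ hχ hQ hf hy hB h1 => ?_⟩
  have hl : 0 < Real.log y := Real.log_pos (by linarith)
  rcases le_total L₀ (Real.log y) with h | h
  · obtain ⟨a1, a2, a3⟩ := h₀ _ h
    refine (SW.large A B hc hχ hQ hf hy hB h1 a1 a2 a3).trans ?_
    gcongr
    exact le_max_left _ _
  · refine (SW.trivial_bound χ hy).trans ?_
    rw [le_div_iff₀ (by positivity), mul_right_comm, ← pow_succ']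
    gcongr
    exact le_max_of_le_right (by gcongr)

end Pool.Agent.MP_39a890_nt
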