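import Mathlib.Analysis.Calculus.BumpFunction.Normed
import Pool.Agent.MP_39a890_nt.Fin
import Pool.Agent.MP_39a890_nt.Spec
import Pool.Agent.MP_39a890_nt.Sieve
import Pool.Agent.MP_39a890_nt.Page
import Pool.Agent.MP_39a890_nt.KL
import Pool.Agent.MP_39a890_nt.SW
import Pool.Agent.MP_39a890_nt.PNT
import Pool.Agent.MP_39a890_nt.One
import Pool.Agent.MP_39a890_nt.Small

-- ======== part 0: formerly Pool.Agent.MP_39a890_nt.Top
section MrgPart0

/-!
# PROJECT E287: from the sieve to the main statement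
-/

namespace Pool.Agent.MP_39a890_nt

open Finset Filter

namespace TopM

/-- Eight elements of `{0, …, 25}` contain a pair with difference in `[7, 19]`. -/
lemma pair (S : Finset (Fin 26)) (hS : 8 ≤ S.card) :
    ∃ m ∈ S, ∃ m' ∈ S, (m' : ℕ) + 7 ≤ m ∧ (m : ℕ) ≤ m' + 19 := by
  by_contra hcon
  push Not at hcon
  have hne : S.Nonempty := card_pos.1 (by omega)
  obtain ⟨x, hx, hmin⟩ := S.exists_min_image (fun y => (y : ℕ)) hne
  have h1 : S.card ≤ (range 7).card := by
    refine card_le_card_of_injOn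
      (fun y : Fin 26 => if (y : ℕ) ≤ x + 6 then (y : ℕ) - x else (y : ℕ) - x - 19) ?_ ?_
    · intro y hy
      have := y.2
      simp only [coe_range, Set.mem_Iio]
      split_ifs <;> omega
    · intro y hy y' hy' h
      have a1 := hmin y hy
      have a2 := hmin y' hy'
      have a3 := hcon y hy x hx
      have a4 := hcon y' hy' x hx
      have a5 := hcon y hy y' hy'
      have a6 := hcon y' hy' y hy
      simp only at h
      apply Fin.ext
      split_ifs at h <;> omega
  rw [card_range] at h1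
  omega

/-- A weight with small support. -/
lemma exists_wt : ∃ φ : ℝ → ℝ, Wt φ ∧ 0 < ∫ u, φ u ∧
    ∀ x, φ x ≠ 0 → 1 ≤ x ∧ x ≤ 1 + 1 / 10 ^ 5 := by
  let b : ContDiffBump (1 + 1 / (2 * 10 ^ 5) : ℝ) :=
    ⟨1 / (4 * 10 ^ 5), 1 / (2 * 10 ^ 5), by norm_num, by norm_num⟩
  have hs : ∀ x, b x ≠ 0 → 1 ≤ x ∧ x ≤ 1 + 1 / 10 ^ 5 := fun x hx => by
    have h1 : x ∈ Function.support b := hx
    rw [b.support_eq, Metric.mem_ball, Real.dist_eq, abs_lt] at h1
    have h2 : b.rOut = 1 / (2 * 10 ^ 5) := rfl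
    rw [h2] at h1
    constructor <;> linarith [h1.1, h1.2]
  exact ⟨b, ⟨b.contDiff, fun x hx => ⟨(hs x hx).1, by linarith [(hs x hx).2]⟩,
    fun x => b.nonneg, fun x => b.le_one⟩, b.integral_pos, hs⟩

/-- The forms built from a Heath-Brown set. -/
lemma forms_ok {κ : Type} (A a : κ → ℕ) (V : ℕ) (hdv : ∀ i, V ∣ a i)
    (ha : ∀ i, a i * A i = V ^ 2)
    (hA : ∀ i j, i ≠ j → A i ≠ A j ∧ ((A i : ℤ) - A j) ∣ (A i : ℤ)) :
    Forms a (fun _ => 1) (V ^ 2) where
  dvd k := ⟨A k, (ha k).symm⟩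
  full k q hq h := (hq.dvd_of_dvd_pow h).trans (hdv k)
  cop k := Nat.coprime_one_left _
  diff k l hkl q hq h := by
    obtain ⟨h1, r, hr⟩ := hA l k hkl.symm
    have hd : (A l : ℤ) - A k ≠ 0 := sub_ne_zero.2 (by exact_mod_cast h1)
    have e1 : (a k : ℤ) * A k = (V : ℤ) ^ 2 := by exact_mod_cast ha k
    have e2 : (a l : ℤ) * A l = (V : ℤ) ^ 2 := by exact_mod_cast ha l
    have e3 : ((a k : ℤ) - a l) * (A k * r) = (V : ℤ) ^ 2 := by
      refine mul_left_cancel₀ hd ?_
      calc ((A l : ℤ) - A k) * (((a k : ℤ) - a l) * (A k * r))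
          = ((a k : ℤ) - a l) * A k * (((A l : ℤ) - A k) * r) := by ring
        _ = ((a k : ℤ) - a l) * A k * A l := by rw [← hr]
        _ = ((a k : ℤ) * A k) * A l - ((a l : ℤ) * A l) * A k := by ring
        _ = _ := by rw [e1, e2]; ring
    have h2 : (q : ℤ) ∣ (a k : ℤ) - a l := by simpa using h
    have h3 : (q : ℤ) ∣ (V : ℤ) ^ 2 := e3 ▸ h2.mul_right _
    exact_mod_cast h3

/-- Two prime values give a pair with a bounded multiplier. -/
lemma pair_of {A A' a a' W n : ℕ} (hA' : 0 < A') (hlt : A' < A) (h1 : a * A = W)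
    (h2 : a' * A' = W) (hd : ((A' : ℤ) - A) ∣ (A' : ℤ)) :
    ∃ m : ℕ, 1 ≤ m ∧ m ≤ A' ∧ (m + 1) * (a * n + 1) = m * (a' * n + 1) + 1 ∧
      (A - A') * (m * (a' * n + 1)) = W * n + A' := by
  obtain ⟨d, rfl⟩ := Nat.exists_eq_add_of_lt hlt
  have h3 : (d + 1) ∣ A' := by
    have h4 : ((A' : ℤ) - ((A' + d + 1 : ℕ) : ℤ)) = -((d + 1 : ℕ) : ℤ) := by push_cast; ring
    rw [h4, neg_dvd] at hd
    exact_mod_cast hd
  obtain ⟨m, hm⟩ := h3
  have hm0 : 1 ≤ m := by
    rcases Nat.eq_zero_or_pos m with rfl | h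
    · omega
    · exact h
  have e : A' + d + 1 - A' = d + 1 := by omega
  refine ⟨m, hm0, by nlinarith, ?_, ?_⟩
  · refine Nat.eq_of_mul_eq_mul_left (Nat.succ_pos d) ?_
    calc (d + 1) * ((m + 1) * (a * n + 1)) = ((d + 1) * m + d + 1) * (a * n + 1) := by ring
      _ = a * (A' + d + 1) * n + (A' + d + 1) := by rw [← hm]; ring
      _ = a' * A' * n + (A' + d + 1) := by rw [h1, h2]
      _ = (d + 1) * (m * (a' * n + 1) + 1) := by rw [hm]; ring
  · rw [e, ← h2]
    calc (d + 1) * (m * (a' * n + 1)) = ((d + 1) * m) * (a' * n + 1) := by ring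
      _ = _ := by rw [← hm]; ring

end TopM

open TopM in
theorem top (h : SieveFor (· = 1)) (hf : FormsStmt) : MainStmt := by
  classical
  obtain ⟨t, w₀, -, H⟩ := h 26 (by norm_num)
  let e : Fin 26 × Fin t ≃ Fin (26 * t) := finProdFinEquiv
  obtain ⟨D, A₀, hD, hA0, hA1, hA2⟩ :=
    hf (26 * t) (fun k => (((e.symm k).1 : ℕ) : ℝ)) (1 / 10 ^ 5) (by norm_num)
  let A : Fin 26 × Fin t → ℕ := fun i => A₀ (e i)
  have hApos : ∀ i, 0 < A i := fun i => hA0 _
  have hAd : ∀ i j, i ≠ j → A i ≠ A j ∧ ((A i : ℤ) - A j) ∣ (A i : ℤ) :=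
    fun i j hij => hA2 _ _ (e.injective.ne hij)
  have hAs : ∀ i j, |((A i : ℝ) - A j) - (((i.1 : ℕ) : ℝ) - (j.1 : ℕ)) * D| ≤ 1 / 10 ^ 5 * D :=
    fun i j => by simpa using hA1 (e i) (e j)
  set V : ℕ := (∏ i, A i) * w₀.factorial with hV
  have hVpos : 0 < V := Nat.mul_pos (prod_pos fun i _ => hApos i) w₀.factorial_pos
  have hAV : ∀ i, A i ∣ V := fun i => (dvd_prod_of_mem A (mem_univ i)).mul_right _
  let a : Fin 26 × Fin t → ℕ := fun i => V * (V / A i)
  have ha : ∀ i, a i * A i = V ^ 2 := fun i => by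
    rw [mul_assoc, Nat.div_mul_cancel (hAV i), sq]
  obtain ⟨φ, hφ, hφ0, hφs⟩ := exists_wt
  have hW : ∀ q : ℕ, q.Prime → q ≤ w₀ → q ∣ V ^ 2 := fun q hq hq' =>
    dvd_pow (Dvd.dvd.mul_left ((hq.dvd_factorial).2 hq') _) two_ne_zero
  have hev := H (V ^ 2) (by positivity) hW a (fun _ => 1)
    (forms_ok A a V (fun i => dvd_mul_right _ _) ha hAd) (fun _ => rfl) φ hφ hφ0
  have hVr : (0 : ℝ) < (V : ℝ) ^ 2 := by positivity
  set κ : ℝ := (19 + 1 / 10 ^ 5) * D / (V : ℝ) ^ 2 with hκ
  have hκ0 : 0 < κ := by positivity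
  have hX : Tendsto (fun N : ℕ => (N : ℝ) * κ) atTop atTop :=
    tendsto_natCast_atTop_atTop.atTop_mul_const hκ0
  have hN : ∀ᶠ N : ℕ in atTop, 1000 * (V : ℝ) / D ≤ N :=
    tendsto_natCast_atTop_atTop.eventually_ge_atTop _
  obtain ⟨N₀, hN₀⟩ := eventually_atTop.1 ((hX.eventually hev).and (hN.and (eventually_gt_atTop 0)))
  refine ⟨V, N₀, fun N hNN => ?_⟩
  obtain ⟨⟨n, hn, hc⟩, hN1, hN2⟩ := hN₀ N hNN
  obtain ⟨m, hm, m', hm', h7, h19⟩ := pair _ (show 8 ≤ _ by
    refine le_of_not_gt fun hlt => ?_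
    have := hc.trans (Nat.mul_le_mul_left 10000 (Nat.le_of_lt_succ hlt))
    omega)
  obtain ⟨j, hj⟩ := (mem_filter.1 hm).2
  obtain ⟨j', hj'⟩ := (mem_filter.1 hm').2
  have hne : (m', j') ≠ (m, j) := fun h => by
    have := congrArg (fun x : Fin 26 × Fin t => (x.1 : ℕ)) h
    simp only at this
    omega
  have hs := abs_le.1 (hAs (m, j) (m', j'))
  have h7' : ((m' : ℕ) : ℝ) + 7 ≤ (m : ℕ) := by exact_mod_cast h7
  have h19' : ((m : ℕ) : ℝ) ≤ (m' : ℕ) + 19 := by exact_mod_cast h19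
  have hlo : (7 - 1 / 10 ^ 5) * D ≤ (A (m, j) : ℝ) - A (m', j') := by nlinarith [hs.1]
  have hhi : (A (m, j) : ℝ) - A (m', j') ≤ (19 + 1 / 10 ^ 5) * D := by nlinarith [hs.2]
  have hlt : A (m', j') < A (m, j) := by
    have : (A (m', j') : ℝ) < A (m, j) := by nlinarith
    exact_mod_cast this
  obtain ⟨k, hk1, hk2, hk3, hk4⟩ :=
    pair_of (n := n) (hApos _) hlt (ha (m, j)) (ha (m', j')) (hAd _ _ hne).2
  have hle : A (m', j') ≤ V := Nat.le_of_dvd hVpos (hAV _)
  have hk5 : ((A (m, j) : ℝ) - A (m', j')) * ((k * (a (m', j') * n + 1) : ℕ) : ℝ) =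
      (V : ℝ) ^ 2 * n + A (m', j') := by
    rw [← Nat.cast_sub hlt.le]
    exact_mod_cast hk4
  have hNr : (0 : ℝ) < N := by exact_mod_cast hN2
  have hXpos : 0 < (N : ℝ) * κ := mul_pos hNr hκ0
  obtain ⟨hn1, hn2⟩ := hφs _ hn
  rw [le_div_iff₀ hXpos] at hn1
  rw [div_le_iff₀ hXpos] at hn2
  have hκ' : (V : ℝ) ^ 2 * κ = (19 + 1 / 10 ^ 5) * D := by rw [hκ]; field_simp
  have hn3 : (N : ℝ) * ((19 + 1 / 10 ^ 5) * D) ≤ (V : ℝ) ^ 2 * n := by
    rw [← hκ']; nlinarith
  have hn4 : (V : ℝ) ^ 2 * n ≤ (1 + 1 / 10 ^ 5) * (N * ((19 + 1 / 10 ^ 5) * D)) := by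
    rw [← hκ']; nlinarith
  rw [div_le_iff₀ hD] at hN1
  have hle' : (A (m', j') : ℝ) ≤ V := by exact_mod_cast hle
  have hA' : (0 : ℝ) ≤ A (m', j') := Nat.cast_nonneg _
  refine ⟨k, a (m', j') * n + 1, a (m, j) * n + 1, hk1, hk2.trans hle, hj', hj, hk3, ?_, ?_⟩
  · set y : ℝ := ((k * (a (m', j') * n + 1) : ℕ) : ℝ) with hy
    have hy0 : 0 ≤ y := Nat.cast_nonneg _
    have b1 := mul_le_mul_of_nonneg_right hhi hy0
    have b2 : (19 + 1 / 10 ^ 5) * D * N ≤ (19 + 1 / 10 ^ 5) * D * y := by nlinarith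
    have b3 : (N : ℝ) ≤ y := le_of_mul_le_mul_left b2 (by positivity)
    rw [hy] at b3
    exact_mod_cast b3
  · set y : ℝ := ((k * (a (m', j') * n + 1) : ℕ) : ℝ) with hy
    have hy0 : 0 ≤ y := Nat.cast_nonneg _
    have b1 := mul_le_mul_of_nonneg_right hlo hy0
    have hND : 0 < (N : ℝ) * D := mul_pos hNr hD
    have b2 : (7 - 1 / 10 ^ 5) * D * (1000 * y) ≤ (7 - 1 / 10 ^ 5) * D * (2715 * N) := by
      nlinarith
    have b3 : 1000 * y ≤ 2715 * (N : ℝ) := le_of_mul_le_mul_left b2 (by positivity)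
    rw [hy] at b3
    exact_mod_cast b3

end Pool.Agent.MP_39a890_nt

end MrgPart0

-- ======== part 1: formerly Pool.Agent.MP_39a890_nt.Erd
section MrgPart1

/-!
# PROJECT E287, module ERD

`forms : FormsStmt` and `erdos : MainStmt → ErdosStmt`.
-/

namespace Pool.Agent.MP_39a890_nt

open Finset

namespace ERD

/-- The inductive form of the construction of Heath-Brown sets. -/
theorem forms_aux (τ : ℕ → ℝ) (ε : ℝ) (hε : 0 < ε) (K : ℕ) :
    ∃ (D : ℝ) (c : ℕ → ℤ) (N : ℤ), 1 ≤ ε * D ∧ (∀ i < K, |(c i : ℝ) - τ i * D| ≤ ε * D) ∧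
      ∀ i < K, ∀ j < K, i ≠ j → c i ≠ c j ∧ (c i - c j) ∣ N + c i := by
  induction K with
  | zero =>
    refine ⟨1 / ε, fun _ => 0, 0, ?_, ?_, ?_⟩
    · rw [mul_one_div_cancel hε.ne']
    · intro i hi; omega
    · intro i hi; omega
  | succ K ih =>
    obtain ⟨D, c, N, hD, hc, hdiv⟩ := ih
    set P : ℤ := ∏ z ∈ (range K).offDiag, |c z.1 - c z.2| with hP
    have hPpos : 0 < P := by
      apply Finset.prod_pos
      intro z hz
      rw [Finset.mem_offDiag, mem_range, mem_range] at hz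
      exact abs_pos.mpr (sub_ne_zero.mpr (hdiv _ hz.1 _ hz.2.1 hz.2.2).1)
    set T : ℤ := 2 * P with hT
    have hT2 : 2 ≤ T := by omega
    have hdT : ∀ i < K, ∀ j < K, i ≠ j → (c i - c j) ∣ T := by
      intro i hi j hj hij
      have h1 : |c i - c j| ∣ P := by
        apply Finset.dvd_prod_of_mem (fun z : ℕ × ℕ => |c z.1 - c z.2|) (a := (i, j))
        rw [Finset.mem_offDiag, mem_range, mem_range]
        exact ⟨hi, hj, hij⟩
      exact ((abs_dvd _ _).mp h1).mul_left 2
    set cn : ℤ := T * ⌊τ K * D⌋ + 1 with hcn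
    set Q : ℤ := ∏ i ∈ range K, (cn - T * c i) with hQ
    have hcop : IsCoprime (T * T) Q := by
      apply IsCoprime.prod_right
      intro i _
      have h1 : IsCoprime T (cn - T * c i) :=
        ⟨-(⌊τ K * D⌋ - c i), 1, by rw [hcn]; ring⟩
      exact IsCoprime.mul_left h1 h1
    obtain ⟨u, v, huv⟩ := hcop
    set N' : ℤ := T * N * (v * Q) + (-cn) * (u * (T * T)) with hN'
    have hN1 : T * T ∣ N' - T * N := by
      refine ⟨-(T * N * u) - cn * u, ?_⟩
      have : v * Q = 1 - u * (T * T) := by linarith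
      rw [hN', this]; ring
    have hN2 : Q ∣ N' + cn := by
      refine ⟨T * N * v + cn * v, ?_⟩
      have : u * (T * T) = 1 - v * Q := by linarith
      rw [hN', this]; ring
    have hne : ∀ i, cn ≠ T * c i := by
      intro i h
      have h1 : T ∣ 1 := ⟨c i - ⌊τ K * D⌋, by rw [hcn] at h; linarith⟩
      have := Int.le_of_dvd one_pos h1
      omega
    have hTR : (2 : ℝ) ≤ (T : ℝ) := by exact_mod_cast hT2
    refine ⟨T * D, fun i => if i = K then cn else T * c i, N', ?_, ?_, ?_⟩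
    · nlinarith
    · intro i hi
      by_cases h : i = K
      · subst h
        simp only [if_true]
        have h1 := Int.floor_le (τ i * D)
        have h2 := Int.lt_floor_add_one (τ i * D)
        rw [hcn]
        push_cast
        rw [abs_le]
        constructor <;> nlinarith
      · simp only [h, if_false]
        have h1 := hc i (by omega)
        push_cast
        have : (T : ℝ) * c i - τ i * (T * D) = T * (c i - τ i * D) := by ring
        rw [this, abs_mul, abs_of_pos (by linarith : (0 : ℝ) < T)]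
        nlinarith
    · intro i hi j hj hij
      by_cases h : i = K
      · have h' : j ≠ K := fun e => hij (h.trans e.symm)
        simp only [h, h', if_true, if_false]
        refine ⟨hne j, ?_⟩
        have : (cn - T * c j) ∣ Q :=
          Finset.dvd_prod_of_mem (fun i => cn - T * c i) (mem_range.mpr (by omega))
        exact this.trans hN2
      · by_cases h' : j = K
        · simp only [h, h', if_true, if_false]
          refine ⟨fun e => hne i e.symm, ?_⟩
          have h1 : (cn - T * c i) ∣ Q :=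
            Finset.dvd_prod_of_mem (fun i => cn - T * c i) (mem_range.mpr (by omega))
          have h2 : (T * c i - cn) ∣ N' + cn := by
            have : T * c i - cn = -(cn - T * c i) := by ring
            rw [this, neg_dvd]
            exact h1.trans hN2
          have : N' + T * c i = (N' + cn) + (T * c i - cn) := by ring
          rw [this]
          exact dvd_add h2 dvd_rfl
        · simp only [h, h', if_false]
          obtain ⟨h1, h2⟩ := hdiv i (by omega) j (by omega) hij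
          refine ⟨fun e => h1 (mul_left_cancel₀ (by omega) e), ?_⟩
          have h3 : T * c i - T * c j = T * (c i - c j) := by ring
          have h4 : N' + T * c i = (N' - T * N) + T * (N + c i) := by ring
          rw [h3, h4]
          exact dvd_add ((mul_dvd_mul_left T (hdT i (by omega) j (by omega) hij)).trans hN1)
            (mul_dvd_mul_left T h2)

theorem mono_of_succ {k : ℕ} {n : ℕ → ℕ} (h : ∀ i, i + 1 < k → n i < n (i + 1)) :
    ∀ j < k, ∀ i < j, n i < n j := by
  intro j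
  induction j with
  | zero => intro _ i hi; omega
  | succ j ih =>
    intro hj i hi
    have h1 := h j hj
    rcases Nat.lt_succ_iff_lt_or_eq.mp hi with h2 | h2
    · exact (ih (by omega) i h2).trans h1
    · rw [h2]; exact h1

theorem sum_upper {k : ℕ} {n : ℕ → ℕ} (h0 : 1 < n 0) (h : ∀ i, i + 1 < k → n i < n (i + 1)) :
    ∀ j < k, ∑ i ∈ range (j + 1), (1 : ℝ) / n i ≤
      1 / n 0 + Real.log (n j) - Real.log (n 0) := by
  intro j
  induction j with
  | zero => intro _; simp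
  | succ j ih =>
    intro hj
    rw [sum_range_succ]
    have h1 := ih (by omega)
    have h2 := h j hj
    have h3 : 0 < n j := by
      rcases Nat.eq_zero_or_pos j with e | e
      · rw [e]; omega
      · have := mono_of_succ h j (by omega) 0 e
        omega
    have h3' : (0 : ℝ) < n j := by exact_mod_cast h3
    have h2' : (n j : ℝ) + 1 ≤ n (j + 1) := by exact_mod_cast h2
    have h4 : (0 : ℝ) < n (j + 1) := by linarith
    have h5 : Real.log ((n j : ℝ) / n (j + 1)) ≤ (n j : ℝ) / n (j + 1) - 1 :=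
      Real.log_le_sub_one_of_pos (by positivity)
    rw [Real.log_div h3'.ne' h4.ne'] at h5
    have h6 : (n j : ℝ) / n (j + 1) - 1 ≤ -(1 / n (j + 1)) := by
      rw [div_sub_one h4.ne', ← neg_div]
      exact div_le_div_of_nonneg_right (by linarith) h4.le
    linarith

theorem le_two_mul {k : ℕ} {n : ℕ → ℕ} (hg : ∀ i, i + 1 < k → n (i + 1) ≤ n i + 2) :
    ∀ j < k, n j ≤ n 0 + 2 * j := by
  intro j
  induction j with
  | zero => intro _; simp
  | succ j ih =>
    intro hj
    have := ih (by omega)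
    have := hg j hj
    omega

theorem sum_lower {k : ℕ} {n : ℕ → ℕ} (h0 : 1 < n 0) (h : ∀ i, i + 1 < k → n i < n (i + 1))
    (hg : ∀ i, i + 1 < k → n (i + 1) ≤ n i + 2) :
    ∀ j ≤ k, (Real.log (n 0 + 2 * j) - Real.log (n 0)) / 2 ≤ ∑ i ∈ range j, (1 : ℝ) / n i := by
  intro j
  induction j with
  | zero => intro _; simp
  | succ j ih =>
    intro hj
    rw [sum_range_succ]
    have h1 := ih (by omega)
    have h3 : 0 < n j := by
      rcases Nat.eq_zero_or_pos j with e | e
      · rw [e]; omega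
      · have := mono_of_succ h j (by omega) 0 e
        omega
    have h3' : (0 : ℝ) < n j := by exact_mod_cast h3
    have h0' : (1 : ℝ) < n 0 := by exact_mod_cast h0
    have h2 : (n j : ℝ) ≤ n 0 + 2 * j := by exact_mod_cast le_two_mul hg j (by omega)
    have hj0 : (0 : ℝ) ≤ j := Nat.cast_nonneg j
    have h4 : (0 : ℝ) < n 0 + 2 * j := by linarith
    have h4' : (0 : ℝ) < n 0 + 2 * ((j + 1 : ℕ) : ℝ) := by push_cast; linarith
    have h5 : Real.log ((n 0 + 2 * ((j + 1 : ℕ) : ℝ)) / (n 0 + 2 * j)) ≤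
        (n 0 + 2 * ((j + 1 : ℕ) : ℝ)) / (n 0 + 2 * j) - 1 :=
      Real.log_le_sub_one_of_pos (by positivity)
    rw [Real.log_div h4'.ne' h4.ne'] at h5
    have h6 : (n 0 + 2 * ((j + 1 : ℕ) : ℝ)) / (n 0 + 2 * j) - 1 = 2 * (1 / (n 0 + 2 * j)) := by
      push_cast
      field_simp
      ring
    have h7 : (1 : ℝ) / (n 0 + 2 * j) ≤ 1 / n j := one_div_le_one_div_of_le h3' h2
    linarith

theorem hit {k : ℕ} {n : ℕ → ℕ} (hg : ∀ i, i + 1 < k → n (i + 1) ≤ n i + 2) {x : ℕ}
    (hx : n 0 ≤ x) : ∀ j < k, x + 1 ≤ n j → ∃ i < k, n i = x ∨ n i = x + 1 := by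
  intro j
  induction j with
  | zero => intro _ h; omega
  | succ j ih =>
    intro hj h
    by_cases h1 : x + 1 ≤ n j
    · exact ih (by omega) h1
    · have := hg j hj
      by_cases h2 : n j = x
      · exact ⟨j, by omega, Or.inl h2⟩
      · exact ⟨j + 1, hj, Or.inr (by omega)⟩

theorem clear_den (S : Finset ℕ) (n : ℕ → ℕ) (P : ℕ) (h : ∀ i ∈ S, 0 < n i ∧ n i ∣ P) :
    (P : ℚ) * ∑ i ∈ S, (1 : ℚ) / n i = ((∑ i ∈ S, P / n i : ℕ) : ℚ) := by
  rw [Finset.mul_sum, Nat.cast_sum]
  apply Finset.sum_congr rfl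
  intro i hi
  obtain ⟨h1, h2⟩ := h i hi
  rw [Nat.cast_div h2 (by exact_mod_cast h1.ne')]
  ring

/-- A large prime dividing one denominator, with all denominators at most `M p`, is small. -/
theorem prime_le {k : ℕ} {n : ℕ → ℕ} (hpos : ∀ i < k, 0 < n i)
    (hinj : ∀ i < k, ∀ j < k, n i = n j → i = j)
    (hsum : ∑ i ∈ range k, (1 : ℚ) / n i = 1) {p M : ℕ} (hp : p.Prime)
    (hM : ∀ i < k, n i ≤ M * p) (hex : ∃ i < k, p ∣ n i) :
    p ≤ (M + 1) * M.factorial := by
  set S₁ := (range k).filter fun i => p ∣ n i with hS₁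
  set S₂ := (range k).filter fun i => ¬ p ∣ n i with hS₂
  have hsplit : ∑ i ∈ S₁, (1 : ℚ) / n i + ∑ i ∈ S₂, (1 : ℚ) / n i = 1 := by
    rw [hS₁, hS₂, Finset.sum_filter_add_sum_filter_not]; exact hsum
  have hd1 : ∀ i ∈ S₁, 0 < n i ∧ n i ∣ p * M.factorial := by
    intro i hi
    rw [hS₁, mem_filter, mem_range] at hi
    obtain ⟨hi, t, ht⟩ := hi
    have h1 := hpos i hi
    have h2 := hM i hi
    refine ⟨h1, ?_⟩
    rw [ht] at h1 h2 ⊢
    apply mul_dvd_mul_left
    apply Nat.dvd_factorial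
    · exact Nat.pos_of_mul_pos_left h1
    · rw [mul_comm M p] at h2
      exact Nat.le_of_mul_le_mul_left h2 hp.pos
  have hd2 : ∀ i ∈ S₂, 0 < n i ∧ n i ∣ ∏ i ∈ S₂, n i := by
    intro i hi
    refine ⟨?_, Finset.dvd_prod_of_mem n hi⟩
    rw [hS₂, mem_filter, mem_range] at hi
    exact hpos i hi.1
  have e1 := clear_den S₁ n _ hd1
  have e2 := clear_den S₂ n _ hd2
  set U := ∑ i ∈ S₁, p * M.factorial / n i with hU
  set V := ∑ i ∈ S₂, (∏ i ∈ S₂, n i) / n i with hV
  set P₂ := ∏ i ∈ S₂, n i with hP₂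
  have e3 : p * M.factorial * P₂ = U * P₂ + p * M.factorial * V := by
    have : ((p * M.factorial * P₂ : ℕ) : ℚ) = ((U * P₂ + p * M.factorial * V : ℕ) : ℚ) := by
      rw [Nat.cast_add, Nat.cast_mul U, Nat.cast_mul (p * M.factorial) V,
        Nat.cast_mul (p * M.factorial) P₂, ← e1, ← e2]
      linear_combination (-((p * M.factorial : ℕ) : ℚ) * (P₂ : ℚ)) * hsplit
    exact_mod_cast this
  have e4 : p ∣ U * P₂ := by
    have h1 : p ∣ p * M.factorial * V := by
      rw [mul_assoc]; exact dvd_mul_right _ _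
    have h2 : p ∣ U * P₂ + p * M.factorial * V := by
      rw [← e3, mul_assoc]; exact dvd_mul_right _ _
    exact (Nat.dvd_add_left h1).mp h2
  have e5 : ¬ p ∣ P₂ := by
    rw [hP₂, hp.prime.dvd_finsetProd_iff]
    rintro ⟨i, hi, h⟩
    rw [hS₂, mem_filter] at hi
    exact hi.2 h
  have e6 : p ∣ U := ((Nat.Prime.dvd_mul hp).mp e4).resolve_right e5
  have e7 : 0 < U := by
    obtain ⟨i, hi, h⟩ := hex
    have hi' : i ∈ S₁ := by rw [hS₁, mem_filter, mem_range]; exact ⟨hi, h⟩
    have h1 : p * M.factorial / n i ≤ U :=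
      Finset.single_le_sum (f := fun i => p * M.factorial / n i) (fun _ _ => Nat.zero_le _) hi'
    have h2 : 0 < p * M.factorial / n i :=
      Nat.div_pos (Nat.le_of_dvd (Nat.mul_pos hp.pos M.factorial_pos) (hd1 i hi').2) (hd1 i hi').1
    omega
  have e8 : S₁.card ≤ M + 1 := by
    have : S₁.card ≤ (range (M + 1)).card := by
      apply Finset.card_le_card_of_injOn (fun i => n i / p)
      · intro i hi
        have hi' : i ∈ S₁ := hi
        rw [hS₁, mem_filter, mem_range] at hi'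
        have h2 := hM i hi'.1
        have : n i / p ≤ M := Nat.div_le_of_le_mul (by rw [mul_comm]; exact h2)
        exact Finset.mem_coe.mpr (mem_range.mpr (Nat.lt_succ_of_le this))
      · intro i hi j hj hij
        have hi' : i ∈ S₁ := hi
        have hj' : j ∈ S₁ := hj
        rw [hS₁, mem_filter, mem_range] at hi' hj'
        apply hinj i hi'.1 j hj'.1
        have h1 := Nat.div_mul_cancel hi'.2
        have h2 := Nat.div_mul_cancel hj'.2
        have h3 : n i / p = n j / p := hij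
        rw [← h1, ← h2, h3]
    simpa using this
  have e9 : U ≤ S₁.card * M.factorial := by
    rw [hU, ← smul_eq_mul]
    apply Finset.sum_le_card_nsmul
    intro i hi
    have h1 := (hd1 i hi).1
    rw [hS₁, mem_filter] at hi
    have h2 : p ≤ n i := Nat.le_of_dvd h1 hi.2
    apply Nat.div_le_of_le_mul
    exact Nat.mul_le_mul_right _ h2
  calc p ≤ U := Nat.le_of_dvd e7 e6
    _ ≤ S₁.card * M.factorial := e9
    _ ≤ (M + 1) * M.factorial := Nat.mul_le_mul_right _ e8

end ERD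

open ERD

theorem forms : FormsStmt := by
  intro K τ ε hε
  obtain ⟨D, c, N, hD, hc, hdiv⟩ :=
    forms_aux (fun i => if h : i < K then τ ⟨i, h⟩ else 0) (ε / 2) (by positivity) K
  have hD0 : 0 < D := by
    by_contra h
    have : ε / 2 * D ≤ 0 := mul_nonpos_of_nonneg_of_nonpos (by positivity) (not_lt.mp h)
    linarith
  set P : ℤ := ∏ z ∈ (range K).offDiag, |c z.1 - c z.2| with hP
  have hPpos : 0 < P := by
    apply Finset.prod_pos
    intro z hz
    rw [Finset.mem_offDiag, mem_range, mem_range] at hz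
    exact abs_pos.mpr (sub_ne_zero.mpr (hdiv _ hz.1 _ hz.2.1 hz.2.2).1)
  have hdP : ∀ i < K, ∀ j < K, i ≠ j → (c i - c j) ∣ P := by
    intro i hi j hj hij
    have h1 : |c i - c j| ∣ P := by
      apply Finset.dvd_prod_of_mem (fun z : ℕ × ℕ => |c z.1 - c z.2|) (a := (i, j))
      rw [Finset.mem_offDiag, mem_range, mem_range]
      exact ⟨hi, hj, hij⟩
    exact (abs_dvd _ _).mp h1
  set B : ℤ := 1 + ∑ i ∈ range K, |N + c i| with hB
  have hB1 : ∀ i < K, 1 + |N + c i| ≤ B := by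
    intro i hi
    have := Finset.single_le_sum (f := fun i => |N + c i|) (fun _ _ => abs_nonneg _)
      (mem_range.mpr hi)
    rw [hB]; linarith
  have hA : ∀ i < K, 0 < N + c i + P * B := by
    intro i hi
    have h1 := hB1 i hi
    have h2 := neg_abs_le (N + c i)
    have h3 := abs_nonneg (N + c i)
    nlinarith
  have hcast : ∀ i : Fin K, (((N + c i + P * B).toNat : ℕ) : ℤ) = N + c i + P * B :=
    fun i => Int.toNat_of_nonneg (hA i i.2).le
  refine ⟨D, fun i => (N + c i + P * B).toNat, hD0, ?_, ?_, ?_⟩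
  · intro i
    exact Int.lt_toNat.mpr (by simpa using hA i i.2)
  · intro i j
    have hi := hc i i.2
    have hj := hc j j.2
    simp only [Fin.is_lt, dif_pos, Fin.eta] at hi hj
    have e1 : (((N + c i + P * B).toNat : ℕ) : ℝ) = ((N + c i + P * B : ℤ) : ℝ) := by
      rw [← Int.cast_natCast, hcast i]
    have e2 : (((N + c j + P * B).toNat : ℕ) : ℝ) = ((N + c j + P * B : ℤ) : ℝ) := by
      rw [← Int.cast_natCast, hcast j]
    rw [e1, e2]
    push_cast
    rw [abs_le] at hi hj ⊢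
    constructor <;> nlinarith [hi.1, hi.2, hj.1, hj.2]
  · intro i j hij
    have hij' : (i : ℕ) ≠ j := fun e => hij (Fin.ext e)
    obtain ⟨h1, h2⟩ := hdiv i i.2 j j.2 hij'
    have e1 := hcast i
    have e2 := hcast j
    constructor
    · intro e
      apply h1
      have : (((N + c i + P * B).toNat : ℕ) : ℤ) = (((N + c j + P * B).toNat : ℕ) : ℤ) := by
        exact_mod_cast e
      linarith
    · rw [e1, e2]
      have : N + c i + P * B - (N + c j + P * B) = c i - c j := by ring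
      rw [this]
      exact dvd_add h2 ((hdP i i.2 j j.2 hij').mul_right B)

theorem erdos (h : MainStmt) : ErdosStmt := by
  obtain ⟨C, N₀, hmain⟩ := h
  set M := 8 * (C + 1) with hM
  set a₀ := N₀ + 2000 + (C + 1) * ((M + 1) * M.factorial) + 1 with ha₀
  refine ⟨4 * a₀, ?_⟩
  intro k hk n h0 hlt hsum
  by_contra hcon
  have hg : ∀ i, i + 1 < k → n (i + 1) ≤ n i + 2 := by
    intro i hi
    by_contra h1
    exact hcon ⟨i, hi, by omega⟩
  have hk0 : 0 < k := by omega
  have hmono := mono_of_succ hlt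
  have hge : ∀ i < k, n 0 ≤ n i := by
    intro i hi
    rcases Nat.eq_zero_or_pos i with e | e
    · rw [e]
    · exact (hmono i hi 0 e).le
  have hpos : ∀ i < k, 0 < n i := fun i hi => by have := hge i hi; omega
  have hinj : ∀ i < k, ∀ j < k, n i = n j → i = j := by
    intro i hi j hj e
    rcases lt_trichotomy i j with h1 | h1 | h1
    · have := hmono j hj i h1; omega
    · exact h1
    · have := hmono i hi j h1; omega
  have hsumR : ∑ i ∈ range k, (1 : ℝ) / n i = 1 := by
    have := congrArg (fun x : ℚ => (x : ℝ)) hsum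
    simpa using this
  have h0' : (1 : ℝ) < n 0 := by exact_mod_cast h0
  have he1 := Real.exp_one_gt_d9
  have he2 := Real.exp_one_lt_d9
  -- upper bound for `k`
  have hup : n 0 + 2 * k ≤ 8 * n 0 := by
    have h1 := sum_lower h0 hlt hg k le_rfl
    rw [hsumR] at h1
    have hk' : (0 : ℝ) ≤ k := Nat.cast_nonneg k
    have h2 : Real.log (((n 0 : ℝ) + 2 * k) / n 0) ≤ 2 := by
      rw [Real.log_div (by linarith) (by linarith)]; linarith
    rw [Real.log_le_iff_le_exp (by positivity)] at h2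
    have h3 : Real.exp 2 = Real.exp 1 * Real.exp 1 := by rw [← Real.exp_add]; norm_num
    have h4 : Real.exp 2 ≤ 8 := by rw [h3]; nlinarith
    rw [div_le_iff₀ (by linarith)] at h2
    have h5 : (n 0 : ℝ) + 2 * k ≤ 8 * n 0 := by nlinarith
    exact_mod_cast h5
  have ha : a₀ ≤ n 0 := by omega
  -- lower bound for the last term
  have hlow : 2715 * n 0 + 1000 ≤ 1000 * n (k - 1) := by
    have h1 := sum_upper h0 hlt (k - 1) (by omega)
    rw [Nat.sub_add_cancel hk0, hsumR] at h1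
    have hb : (0 : ℝ) < n (k - 1) := by exact_mod_cast hpos (k - 1) (by omega)
    have h2 : 1 - 1 / (n 0 : ℝ) ≤ Real.log ((n (k - 1) : ℝ) / n 0) := by
      rw [Real.log_div hb.ne' (by linarith)]; linarith
    rw [Real.le_log_iff_exp_le (by positivity), le_div_iff₀ (by linarith)] at h2
    have h3 : Real.exp (1 - 1 / (n 0 : ℝ)) = Real.exp 1 * Real.exp (-(1 / (n 0 : ℝ))) := by
      rw [← Real.exp_add]; ring_nf
    have h4 := Real.add_one_le_exp (-(1 / (n 0 : ℝ)))
    have h5 : (2000 : ℝ) ≤ n 0 := by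
      have : 2000 ≤ n 0 := by omega
      exact_mod_cast this
    have h6 : (n 0 : ℝ) - 1 ≤ Real.exp (-(1 / (n 0 : ℝ))) * n 0 := by
      have h7 : (-(1 / (n 0 : ℝ)) + 1) * n 0 = n 0 - 1 := by field_simp; ring
      rw [← h7]
      exact mul_le_mul_of_nonneg_right h4 (by linarith)
    have h8 : (2.718 : ℝ) * (n 0 - 1) ≤ n (k - 1) := by
      rw [h3, mul_assoc] at h2
      refine le_trans ?_ h2
      apply mul_le_mul (by linarith) h6 (by linarith) (by linarith)
    have h9 : (2715 : ℝ) * n 0 + 1000 ≤ 1000 * n (k - 1) := by linarith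
    exact_mod_cast h9
  obtain ⟨m, p, q, hm1, hmC, hp, hq, hpq, hx1, hx2⟩ := hmain (n 0) (by omega)
  obtain ⟨i, hi, hni⟩ := hit hg hx1 (k - 1) (by omega) (by omega)
  have hall : ∀ i < k, n i ≤ 8 * n 0 := by
    intro i hi
    have := le_two_mul hg i hi
    omega
  have key : ∀ m₀ p₀ : ℕ, p₀.Prime → m₀ ≤ C + 1 → n i = m₀ * p₀ → False := by
    intro m₀ p₀ hp₀ hm₀ e
    have h1 : n 0 ≤ (C + 1) * p₀ := by
      have := hge i hi
      rw [e] at this
      exact this.trans (Nat.mul_le_mul_right _ hm₀)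
    have h2 : p₀ ≤ (M + 1) * M.factorial := by
      apply prime_le hpos hinj hsum hp₀
      · intro j hj
        have := hall j hj
        rw [hM, mul_assoc]
        omega
      · exact ⟨i, hi, e ▸ dvd_mul_left _ _⟩
    have h3 : (C + 1) * p₀ ≤ (C + 1) * ((M + 1) * M.factorial) := Nat.mul_le_mul_left _ h2
    omega
  rcases hni with e | e
  · exact key m p hp (by omega) e
  · exact key (m + 1) q hq (by omega) (by rw [e, hpq])

end Pool.Agent.MP_39a890_nt

end MrgPart1

-- ======== part 2: formerly Pool.Agent.MP_39a890_nt.All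
section MrgPart2

/-!
# PROJECT E287: assembly
-/

namespace Pool.Agent.MP_39a890_nt

theorem sieve_all : SieveFor fun _ => True :=
  sieve (klc (weil hyp)) (bvc ls sw page pnt) count one small fin

theorem main : MainStmt :=
  top (fun M hM => (sieve_all M hM).imp fun _ h => h.imp fun _ h =>
    ⟨h.1, fun W hW hw a c hF _ => h.2 W hW hw a c hF fun _ => trivial⟩) forms

end Pool.Agent.MP_39a890_nt

end MrgPart2

-- marker of a merged file
example : 731051 + 247135 = 731051 + 247135 := rfl
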