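import Pool.Agent.MP_39a890_nt.Small

-- ======== part 0: formerly Pool.Agent.MP_39a890_nt.Sums2
section MrgPart0

/-!
# The sum over primes
-/

namespace Pool.Agent.MP_39a890_nt.Sums

open Finset Function Pool.Agent.MP_39a890_nt.Core

set_option linter.unusedSectionVars false

variable {ι : Type} [Fintype ι] [DecidableEq ι] {pr : ι → ℕ} {W : ℕ} {Y : ℝ}
variable {κ : Type} [Fintype κ] [DecidableEq κ] {a b : κ → ℕ}
variable {φ : ℝ → ℝ} {L δ lam ε C : ℝ} {p₀ J : ℕ}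

theorem lv_eq_sum (h : PS pr W Y) (u : Finset ι) : lv pr u = ∑ p ∈ u, Real.log (pr p) := by
  rw [lv, cast_val, Real.log_prod fun p _ => by have := two_le h p; positivity]

theorem lv_union_le (h : PS pr W Y) (u v : Finset ι) : lv pr (u ∪ v) ≤ lv pr u + lv pr v := by
  have := sum_union_inter (s₁ := u) (s₂ := v) (f := fun p => Real.log (pr p))
  simp only [← lv_eq_sum h] at this
  linarith [lv_nonneg (pr := pr) (u ∩ v)]

theorem lv_un (h : PS pr W Y) {T : κ → Finset ι} (hT : Fn T) :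
    lv pr (un T) = ∑ k, lv pr (T k) := by
  simp_rw [lv_eq_sum h]
  exact sum_biUnion fun k _ l _ hkl => hT k l hkl

theorem val_le_rpow (h : PS pr W Y) {u : Finset ι} {θ : ℝ} (hu : lv pr u ≤ θ * L) :
    (val pr u : ℝ) ≤ Real.exp L ^ θ := by
  rw [val_eq_exp h, ← Real.exp_mul, mul_comm]
  exact Real.exp_le_exp.2 hu

theorem rpow_le_val (h : PS pr W Y) {u : Finset ι} {θ : ℝ} (hu : θ * L ≤ lv pr u) :
    Real.exp L ^ θ ≤ (val pr u : ℝ) := by
  rw [val_eq_exp h, ← Real.exp_mul, mul_comm]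
  exact Real.exp_le_exp.2 hu

theorem lam_lv (h : PS pr W Y) {c : (κ → Finset ι) → ℝ} {Λ : ℝ}
    (hc : ∀ r, c r ≠ 0 → ∑ k, lv pr (r k) ≤ Λ) {T T' : κ → Finset ι}
    (h1 : Core.lam (tt pr) c T ≠ 0) (h2 : Core.lam (tt pr) c T' ≠ 0) (hT : Fn (T ⊔ T')) :
    lv pr (un (T ⊔ T')) ≤ 2 * Λ := by
  obtain ⟨r, a1, b1⟩ := lam_supp h1
  obtain ⟨r', a2, b2⟩ := lam_supp h2
  rw [lv_un h hT]
  have : ∑ k, lv pr ((T ⊔ T') k) ≤ ∑ k, (lv pr (r k) + lv pr (r' k)) :=
    sum_le_sum fun k _ => (lv_union_le h _ _).trans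
      (add_le_add (lv_mono h (b1 k)) (lv_mono h (b2 k)))
  rw [sum_add_distrib] at this
  linarith [hc r a1, hc r' a2]

theorem lam_empty {t : ι → ℝ} {c : (κ → Finset ι) → ℝ} {i : κ} (hc : ∀ r, c r ≠ 0 → r i = ∅)
    {T T' : κ → Finset ι} (h1 : Core.lam t c T ≠ 0) (h2 : Core.lam t c T' ≠ 0) :
    (T ⊔ T') i = ∅ := by
  obtain ⟨r, a1, b1⟩ := lam_supp h1
  obtain ⟨r', a2, b2⟩ := lam_supp h2
  exact union_eq_empty.2 ⟨subset_empty.1 (hc r a1 ▸ b1 i), subset_empty.1 (hc r' a2 ▸ b2 i)⟩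

theorem zw_p₀ {i : κ} {r : κ → Finset ι} (hr : zw pr L δ lam p₀ J i r ≠ 0) (k : κ) :
    ∀ p ∈ r k, pr p ≠ p₀ := by
  obtain ⟨h1, u, hu⟩ := zed_supp hr
  by_cases hk : k = i
  · subst hk; simp [h1]
  · have := (yy_supp hu).2 k
    rw [update_of_ne hk] at this
    exact gw_supp this

theorem Ctx.S1 (h : Ctx pr a b W φ L δ lam ε C p₀ J) (i : κ) (hp₀ : p₀.Prime) (hδ : δ ≤ 1 / 60)
    {M E H : ℝ} (hM : 0 ≤ M) (hBV : BVat φ (Real.exp L) W p₀ (a i) (b i) (16 ^ Fintype.card κ) M E)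
    (hH : ∑ u ∈ univ.filter (fun u => lv pr u ≤ 272 / 1000 * L),
      Pool.Agent.MP_39a890_nt.wt pr u ≤ H) :
    (1 - ε) * (M * ∑ s, zw pr L δ lam p₀ J i s ^ 2 * wD (tt pr) s) -
        (bet pr p₀ J (lam * L) * H ^ Fintype.card κ) ^ 2 * E ≤
      Sm (NN (Real.exp L)) (μP φ (Real.exp L) (a i) (b i)) (om pr a b)
        (fun w => V (tt pr) (zw pr L δ lam p₀ J i) w ^ 2) := by
  set z := zw pr L δ lam p₀ J i with hz
  set β := bet pr p₀ J (lam * L) with hβ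
  set K := Fintype.card κ with hK
  have hL := h.L0
  have hβ0 : 0 ≤ β := h.gok.be_nonneg
  have h2 := master (meas_P h.ps i) z (fun r hr k hk => by
    have : k = i := by simpa using hk
    subst this; exact zw_supp k r hr) (h.zw_nonneg i) (h.zw_anti i) h.s1
  have h1 := disc (NN (Real.exp L)) (μP φ (Real.exp L) (a i) (b i)) (om pr a b) M (πP pr i) univ _ _ _
    (V_sq_eq (tt pr) z)
  set R := Rm (NN (Real.exp L)) (μP φ (Real.exp L) (a i) (b i)) (om pr a b) M (πP pr i) with hR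
  set l := Core.lam (tt pr) z with hl
  have hl1 : ∀ T, |l T| ≤ β * (∏ k, 2 ^ (T k).card) * H ^ K := by
    intro T
    refine (abs_lam_le (tt pr) h.gok.t0 (tt_le_one h.ps) z
      (fun r => by rw [abs_of_nonneg (h.zw_nonneg i r)]; exact h.zw_le i r)
      (univ.filter fun u => lv pr u ≤ 272 / 1000 * L) (fun u hu v hv => ?_)
      (fun r hr k => ?_) T).trans ?_
    · exact mem_filter.2 ⟨mem_univ _, (lv_mono h.ps hv).trans (mem_filter.1 hu).2⟩
    · refine mem_filter.2 ⟨mem_univ _, ?_⟩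
      have h3 := single_le_sum (f := fun k => lv pr (r k)) (fun k _ => lv_nonneg _) (mem_univ k)
      have h4 := zw_lv i r hr
      nlinarith
    · exact mul_le_mul_of_nonneg_left (pow_le_pow_left₀
        (sum_nonneg fun u _ => (wt_pos h.ps u).le) hH _) (by positivity)
  classical
  set G := univ.filter fun x : (κ → Finset ι) × (κ → Finset ι) =>
    l x.1 ≠ 0 ∧ l x.2 ≠ 0 ∧ Fn (x.1 ⊔ x.2) with hG
  set v : (κ → Finset ι) × (κ → Finset ι) → ℕ := fun x => val pr (un (x.1 ⊔ x.2)) with hv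
  have hmax : ∀ q ∈ G.image v, ∃ n₀ : ℕ, q.Coprime (a i * n₀ + b i) ∧ ∀ x ∈ G.filter (v · = q),
      |R (x.1 ⊔ x.2)| ≤ |pcntC φ (Real.exp L) (a i) (b i) q n₀ - M / q.totient| := by
    intro q hq
    obtain ⟨x0, hx0, e0⟩ := mem_image.1 hq
    obtain ⟨x, hx, hm⟩ := exists_max_image (G.filter (v · = q)) (fun x => |R (x.1 ⊔ x.2)|)
      ⟨x0, mem_filter.2 ⟨hx0, e0⟩⟩
    obtain ⟨hx1, hx2⟩ := mem_filter.1 hx
    obtain ⟨-, b1, b2, b3⟩ := mem_filter.1 hx1
    obtain ⟨n₀, c1, c2⟩ := Rm_P h.ps h.fo φ (Real.exp L) M b3 (lam_empty (zw_supp i) b1 b2)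
    change val pr (un (x.1 ⊔ x.2)) = q at hx2
    rw [hx2] at c1 c2
    exact ⟨n₀, c1, fun y hy => (hm y hy).trans (le_of_eq (congrArg abs c2))⟩
  choose! n₀ hn₀ using hmax
  have h3 := hBV (G.image v) n₀ fun q hq => by
    obtain ⟨x, hx, rfl⟩ := mem_image.1 hq
    obtain ⟨-, b1, b2, b3⟩ := mem_filter.1 hx
    refine ⟨squarefree_val h.ps _, (coprime_val_W h.ps _).mul_right ?_, val_le_rpow h.ps ?_,
      (hn₀ _ hq).1⟩
    · refine (coprime_val_iff h.ps _ _).2 fun p hp hd => ?_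
      have e := (Nat.prime_dvd_prime_iff_eq (h.ps.prime p) hp₀).1 hd
      obtain ⟨k, hk⟩ := mem_un.1 hp
      obtain ⟨r, a1, c1⟩ := lam_supp b1
      obtain ⟨r', a2, c2⟩ := lam_supp b2
      rcases mem_union.1 hk with hk | hk
      exacts [zw_p₀ a1 k p (c1 k hk) e, zw_p₀ a2 k p (c2 k hk) e]
    · have := lam_lv h.ps (zw_lv i) b1 b2 b3
      nlinarith
  have h4 : |∑ x : (κ → Finset ι) × (κ → Finset ι), l x.1 * l x.2 * R (x.1 ⊔ x.2)| ≤
      (β * H ^ K) ^ 2 * E := by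
    have e : ∑ x : (κ → Finset ι) × (κ → Finset ι), l x.1 * l x.2 * R (x.1 ⊔ x.2) =
        ∑ x ∈ G, l x.1 * l x.2 * R (x.1 ⊔ x.2) := (sum_filter_of_ne fun x _ hx =>
      ⟨left_ne_zero_of_mul (left_ne_zero_of_mul hx), right_ne_zero_of_mul (left_ne_zero_of_mul hx),
        by_contra fun hF => right_ne_zero_of_mul hx (Rm_of_not_Fn _ _ _ _ _ hF)⟩).symm
    rw [e]
    refine (abs_sum_le_sum_abs _ _).trans (le_trans ?_
      (mul_le_mul_of_nonneg_left h3 (sq_nonneg _)))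
    rw [← sum_fiberwise_of_maps_to (g := v) (t := G.image v) fun x hx => mem_image_of_mem v hx,
      mul_sum]
    refine sum_le_sum fun q hq => ?_
    obtain ⟨x0, -, e0⟩ := mem_image.1 hq
    set U := un (x0.1 ⊔ x0.2) with hU
    have hqU : q = val pr U := e0.symm
    set B := |pcntC φ (Real.exp L) (a i) (b i) q (n₀ q) - M / q.totient| with hB
    have hsub : ∀ x ∈ G.filter (v · = q), (∀ k, x.1 k ⊆ U) ∧ ∀ k, x.2 k ⊆ U := by
      intro x hx
      have e : un (x.1 ⊔ x.2) = U := val_inj h.ps ((mem_filter.1 hx).2.trans hqU)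
      exact ⟨fun k p hp => e ▸ mem_un.2 ⟨k, mem_union_left _ hp⟩,
        fun k p hp => e ▸ mem_un.2 ⟨k, mem_union_right _ hp⟩⟩
    have hH0 : 0 ≤ H := (sum_nonneg fun u _ => (wt_pos h.ps u).le).trans hH
    have hl2 : ∀ T : κ → Finset ι, (∀ k, T k ⊆ U) → |l T| ≤ β * (2 ^ U.card) ^ K * H ^ K := by
      intro T hT
      refine (hl1 T).trans (mul_le_mul_of_nonneg_right (mul_le_mul_of_nonneg_left ?_ hβ0)
        (by positivity))
      rw [hK, ← card_univ, ← prod_const]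
      exact prod_le_prod (fun _ _ => by positivity) fun k _ =>
        pow_le_pow_right₀ one_le_two (card_le_card (hT k))
    have hcard : (G.filter (v · = q)).card ≤ (2 ^ U.card) ^ K * (2 ^ U.card) ^ K := by
      refine (card_le_card (t := Fintype.piFinset (fun _ : κ => U.powerset) ×ˢ
        Fintype.piFinset (fun _ : κ => U.powerset)) fun x hx => ?_).trans (le_of_eq ?_)
      · simp only [mem_product, Fintype.mem_piFinset, mem_powerset]
        exact hsub x hx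
      · simp [card_product, Fintype.card_piFinset, hK]
    refine (sum_le_card_nsmul _ _ ((β * (2 ^ U.card) ^ K * H ^ K) ^ 2 * B) fun x hx => ?_).trans ?_
    · rw [abs_mul, abs_mul, sq]
      exact mul_le_mul (mul_le_mul (hl2 _ (hsub x hx).1) (hl2 _ (hsub x hx).2) (abs_nonneg _)
        (by positivity)) ((hn₀ q hq).2 x hx) (abs_nonneg _) (by positivity)
    · rw [nsmul_eq_mul]
      have hc : ((G.filter (v · = q)).card : ℝ) ≤ (2 ^ U.card) ^ K * (2 ^ U.card) ^ K := by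
        exact_mod_cast hcard
      have hB0 : 0 ≤ B := abs_nonneg _
      refine (mul_le_mul_of_nonneg_right hc (by positivity)).trans (le_of_eq ?_)
      rw [hqU, card_primeFactors_val h.ps]
      have : ((16 ^ K : ℕ) : ℝ) ^ U.card = ((2 ^ U.card) ^ K) ^ 4 := by
        push_cast
        rw [show (16 : ℝ) = 2 ^ 4 by norm_num, ← pow_mul, ← pow_mul, ← pow_mul, ← pow_mul]
        congr 1; ring
      rw [this]; ring
  have h5 := (abs_le.1 h2).1
  have h6 := (abs_le.1 h4).1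
  have h7 := mul_le_mul_of_nonneg_left h5 hM
  nlinarith

end Pool.Agent.MP_39a890_nt.Sums

end MrgPart0

-- ======== part 1: formerly Pool.Agent.MP_39a890_nt.Sums3
section MrgPart1

/-!
# The sum with two Selberg weights
-/

namespace Pool.Agent.MP_39a890_nt.Sums

open Finset Function Pool.Agent.MP_39a890_nt.Core

set_option linter.unusedSectionVars false

variable {ι : Type} [Fintype ι] [DecidableEq ι] {pr : ι → ℕ} {W : ℕ} {Y : ℝ}
variable {κ : Type} [Fintype κ] [DecidableEq κ] {a b : κ → ℕ}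
variable {φ : ℝ → ℝ} {L δ lam ε C ε₁ : ℝ} {p₀ J : ℕ}

theorem greedy (h : PS pr W Y) {A : ℝ} (hA : 0 < A) (e : Finset ι) (h1 : A ≤ lv pr e)
    (h2 : ∀ p ∈ e, Real.log (pr p) ≤ 2 * A) : ∃ s ⊆ e, A ≤ lv pr s ∧ lv pr s ≤ 2 * A := by
  induction e using Finset.induction_on with
  | empty => rw [lv_empty] at h1; linarith
  | insert p u hp ih =>
    by_cases h3 : A ≤ lv pr u
    · obtain ⟨s, a1, a2⟩ := ih h3 fun q hq => h2 q (mem_insert_of_mem hq)
      exact ⟨s, a1.trans (subset_insert _ _), a2⟩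
    by_cases h4 : A ≤ Real.log (pr p)
    · refine ⟨{p}, by simp, ?_⟩
      rw [lv_eq_sum h, sum_singleton]
      exact ⟨h4, h2 p (mem_insert_self _ _)⟩
    · refine ⟨_, Subset.rfl, h1, ?_⟩
      rw [lv_eq_sum h, sum_insert hp, ← lv_eq_sum h]
      linarith

theorem card_lv_le (h : PS pr W Y) (Λ : ℝ) :
    ((univ.filter fun u => lv pr u ≤ Λ).card : ℝ) ≤ Real.exp Λ := by
  have h1 : (univ.filter fun u => lv pr u ≤ Λ).card ≤ (Icc 1 ⌊Real.exp Λ⌋₊).card :=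
    card_le_card_of_injOn (val pr) (fun u hu => mem_coe.2 (mem_Icc.2 ⟨val_pos h u, Nat.le_floor (by
      rw [val_eq_exp h]; exact Real.exp_le_exp.2 (mem_filter.1 hu).2)⟩)) (val_inj h).injOn
  rw [Nat.card_Icc, Nat.add_sub_cancel] at h1
  exact (Nat.cast_le.2 h1).trans (Nat.floor_le (Real.exp_pos _).le)

theorem pow_card_le (h : PS pr W Y) (h16 : ∀ p, (16 : ℝ) ≤ (pr p : ℝ) ^ ε₁) (u : Finset ι) :
    (16 : ℝ) ^ u.card ≤ Real.exp (ε₁ * lv pr u) := by
  rw [lv_eq_sum h, mul_sum, Real.exp_sum, ← prod_const]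
  refine prod_le_prod (fun _ _ => by norm_num) fun p _ => (h16 p).trans (le_of_eq ?_)
  rw [Real.rpow_def_of_pos (by linarith [two_le h p]), mul_comm]

/-- coefficient of a pair of Selberg variables -/
noncomputable def rr (pr : ι → ℕ) (L : ℝ) (y : Finset ι × Finset ι) : ℝ :=
  rho (tt pr) (eta pr L) y.1 * rho (tt pr) (eta pr L) y.2

/-- the least common multiple -/
def uu (pr : ι → ℕ) (y : Finset ι × Finset ι) : ℕ := val pr (y.1 ∪ y.2)

theorem fiber (h : PS pr W Y) (hL : 0 ≤ L) (hε₁ : 0 ≤ ε₁) (h16 : ∀ p, (16 : ℝ) ≤ (pr p : ℝ) ^ ε₁)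
    (Q : Finset (Finset ι × Finset ι)) (hQ : ∀ y ∈ Q, lv pr (y.1 ∪ y.2) ≤ L) :
    ∃ α : ℕ → ℝ, (∀ d, |α d| ≤ 1) ∧ ∀ F : ℕ → ℝ, ∑ y ∈ Q, rr pr L y * F (uu pr y) =
      Real.exp (ε₁ * L) * ∑ d ∈ Q.image (uu pr), α d * F d := by
  have hE := Real.exp_pos (ε₁ * L)
  refine ⟨fun d => (∑ y ∈ Q.filter (uu pr · = d), rr pr L y) / Real.exp (ε₁ * L), fun d => ?_,
    fun F => ?_⟩
  · rw [abs_div, abs_of_pos hE, div_le_one hE]
    rcases (Q.filter (uu pr · = d)).eq_empty_or_nonempty with h0 | ⟨y0, hy0⟩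
    · simp [h0, hE.le]
    obtain ⟨b1, b2⟩ := mem_filter.1 hy0
    set U := y0.1 ∪ y0.2 with hU
    have hsub : ∀ y ∈ Q.filter (uu pr · = d), y.1 ⊆ U ∧ y.2 ⊆ U := fun y hy => by
      have e : y.1 ∪ y.2 = U := val_inj h ((mem_filter.1 hy).2.trans b2.symm)
      exact ⟨e ▸ subset_union_left, e ▸ subset_union_right⟩
    have hc : ((Q.filter (uu pr · = d)).card : ℝ) ≤ 2 ^ U.card * 2 ^ U.card := by
      have : (Q.filter (uu pr · = d)).card ≤ (U.powerset ×ˢ U.powerset).card :=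
        card_le_card fun y hy => by simpa only [mem_product, mem_powerset] using hsub y hy
      rw [card_product, card_powerset] at this
      exact_mod_cast this
    have h2 : ∀ e ⊆ U, |rho (tt pr) (eta pr L) e| ≤ 2 ^ U.card := fun e he =>
      (abs_rho_le h hL e).trans (pow_le_pow_right₀ one_le_two (card_le_card he))
    refine (abs_sum_le_sum_abs _ _).trans ((sum_le_card_nsmul _ _ (2 ^ U.card * 2 ^ U.card)
      fun y hy => ?_).trans ?_)
    · rw [rr, abs_mul]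
      exact mul_le_mul (h2 _ (hsub y hy).1) (h2 _ (hsub y hy).2) (abs_nonneg _) (by positivity)
    · rw [nsmul_eq_mul]
      refine (mul_le_mul_of_nonneg_right hc (by positivity)).trans (le_trans (le_of_eq ?_)
        ((pow_card_le h h16 U).trans
          (Real.exp_le_exp.2 (mul_le_mul_of_nonneg_left (hQ y0 b1) hε₁))))
      rw [← mul_pow, ← mul_pow]; norm_num
  · rw [← sum_fiberwise_of_maps_to (g := uu pr) (t := Q.image (uu pr))
      fun x hx => mem_image_of_mem _ hx, mul_sum]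
    refine sum_congr rfl fun d _ => ?_
    rw [← mul_assoc, mul_div_cancel₀ _ hE.ne', sum_mul]
    exact sum_congr rfl fun y hy => by rw [(mem_filter.1 hy).2]

theorem bil (h : PS pr W Y) (hF : Forms a b W) (hL : 0 ≤ L) (hε₁ : 0 ≤ ε₁)
    (h16 : ∀ p, (16 : ℝ) ≤ (pr p : ℝ) ^ ε₁) {θ σm σp η : ℝ} (hθ : θ ≤ 1) {i j : κ} (hij : i ≠ j)
    (hK : KLat θ σm σp η φ W (b i) (b j) (Real.exp L)) {U : Finset ι} {n₀ : ℕ}
    (hU : lv pr U ≤ η * L) (c1 : (val pr U).Coprime (a i * n₀ + b i))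
    (c2 : (val pr U).Coprime (a j * n₀ + b j)) (Q Q' : Finset (Finset ι × Finset ι))
    (hQ : ∀ y ∈ Q, lv pr (y.1 ∪ y.2) ≤ θ * L ∧
      ∃ s ⊆ y.1 ∪ y.2, σm * L ≤ lv pr s ∧ lv pr s ≤ σp * L)
    (hQ' : ∀ y ∈ Q', lv pr (y.1 ∪ y.2) ≤ θ * L) :
    |∑ y ∈ Q, ∑ y' ∈ Q', rr pr L y * rr pr L y' *
      remC φ (Real.exp L) (a i) (b i) (a j) (b j) (val pr U) n₀ (uu pr y) (uu pr y')| ≤
      Real.exp (ε₁ * L) ^ 2 * Real.exp L ^ (1 - η) := by
  have hθL : θ * L ≤ L := mul_le_of_le_one_left hL hθ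
  obtain ⟨α, a1, a2⟩ := fiber h hL hε₁ h16 Q fun y hy => (hQ y hy).1.trans hθL
  obtain ⟨α', b1, b2⟩ := fiber h hL hε₁ h16 Q' fun y hy => (hQ' y hy).trans hθL
  have key := hK (a i) (a j) (val pr U) n₀ (Q.image (uu pr)) (Q'.image (uu pr)) α α' (hF.dvd i)
    (hF.dvd j) (hF.diff i j hij) (squarefree_val h U) (coprime_val_W h U) (val_le_rpow h hU) c1 c2
    (fun d hd => by
      obtain ⟨y, hy, rfl⟩ := mem_image.1 hd
      obtain ⟨d1, s, d2, d3, d4⟩ := hQ y hy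
      exact ⟨squarefree_val h _, coprime_val_W h _, val_le_rpow h d1, val pr s, val_dvd_val d2,
        rpow_le_val h d3, val_le_rpow h d4⟩)
    (fun d hd => by
      obtain ⟨y, hy, rfl⟩ := mem_image.1 hd
      exact ⟨val_pos h _, coprime_val_W h _, val_le_rpow h (hQ' y hy)⟩) a1 b1
  simp_rw [mul_assoc, ← mul_sum, b2] at key ⊢
  rw [a2 fun d => Real.exp (ε₁ * L) * ∑ d' ∈ Q'.image (uu pr),
    α' d' * remC φ (Real.exp L) (a i) (b i) (a j) (b j) (val pr U) n₀ d d']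
  simp_rw [mul_left_comm _ (Real.exp (ε₁ * L)), ← mul_sum]
  rw [← mul_assoc, ← sq, abs_mul, abs_of_nonneg (sq_nonneg _)]
  exact mul_le_mul_of_nonneg_left key (sq_nonneg _)

theorem remC_swap (X : ℝ) (a c a' c' q n d d' : ℕ) :
    remC φ X a c a' c' q n d d' = remC φ X a' c' a c q n d' d := by
  unfold remC cntC
  congr 1
  · exact sum_congr rfl fun _ _ => if_congr (by tauto) rfl rfl
  · refine if_congr ?_ (by ring) rfl
    rw [Nat.coprime_comm (n := d)]; tauto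

theorem sum_rho_le (h : PS pr W Y) (hL : 0 ≤ L) (hε₁ : 0 ≤ ε₁)
    (h16 : ∀ p, (16 : ℝ) ≤ (pr p : ℝ) ^ ε₁) (Λ : ℝ) (Q : Finset (Finset ι × Finset ι))
    (hQ : ∀ y ∈ Q, lv pr y.1 ≤ Λ ∧ lv pr y.2 ≤ Λ) :
    ∑ y ∈ Q, |rr pr L y| ≤ Real.exp ((1 + ε₁) * (2 * Λ)) := by
  set S := univ.filter fun u => lv pr u ≤ Λ with hS
  have h1 : ∑ e ∈ S, |rho (tt pr) (eta pr L) e| ≤ Real.exp ((1 + ε₁) * Λ) := by
    refine (sum_le_card_nsmul _ _ (Real.exp (ε₁ * Λ)) fun e he => ?_).trans ?_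
    · exact (abs_rho_le h hL e).trans ((pow_le_pow_left₀ zero_le_two (by norm_num) _).trans
        ((pow_card_le h h16 e).trans
          (Real.exp_le_exp.2 (mul_le_mul_of_nonneg_left (mem_filter.1 he).2 hε₁))))
    · rw [nsmul_eq_mul, add_mul, one_mul, Real.exp_add]
      exact mul_le_mul_of_nonneg_right (card_lv_le h Λ) (Real.exp_pos _).le
  refine (sum_le_sum_of_subset_of_nonneg (t := S ×ˢ S) (fun y hy => ?_)
    fun _ _ _ => abs_nonneg _).trans ?_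
  · simpa [hS] using hQ y hy
  · simp_rw [sum_product, rr, abs_mul]
    rw [← sum_mul_sum, mul_left_comm, two_mul, Real.exp_add]
    exact mul_le_mul h1 h1 (sum_nonneg fun _ _ => abs_nonneg _) (Real.exp_pos _).le

/-- the bilinear input -/
structure KLin (φ : ℝ → ℝ) (W : ℕ) (b : κ → ℕ) (X : ℝ) : Prop where
  k1 : ∀ i j, KLat (533 / 1000) (68 / 1000) (2665 / 10000) (1 / 20000) φ W (b i) (b j) X
  k2 : ∀ i j, KLat (544 / 1000) (95 / 1000) (19 / 100) (1 / 20000) φ W (b i) (b j) X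

/-- remainder of the bilinear forms -/
noncomputable def errB (L ε₁ C : ℝ) : ℝ :=
  3 * (Real.exp (ε₁ * L) ^ 2 * Real.exp L ^ (1 - 1 / 20000 : ℝ)) + C * Real.exp (7 / 10 * L)

theorem bil_all (h : PS pr W Y) (hF : Forms a b W) (hL : 0 < L) (hε₁ : 0 ≤ ε₁) (hε₂ : ε₁ ≤ 1 / 25)
    (h16 : ∀ p, (16 : ℝ) ≤ (pr p : ℝ) ^ ε₁) {i j : κ} (hij : i ≠ j)
    (hK : KLin φ W b (Real.exp L)) {U : Finset ι} {n₀ : ℕ}
    (hU : lv pr U ≤ 1 / 20000 * L) (c1 : (val pr U).Coprime (a i * n₀ + b i))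
    (c2 : (val pr U).Coprime (a j * n₀ + b j)) (hC0 : 0 ≤ C)
    (hC : ∀ y y', |remC φ (Real.exp L) (a i) (b i) (a j) (b j) (val pr U) n₀ (uu pr y)
      (uu pr y')| ≤ C) :
    |∑ y ∈ EE pr L ×ˢ EE pr L, ∑ y' ∈ EE pr L ×ˢ EE pr L, rr pr L y * rr pr L y' *
      remC φ (Real.exp L) (a i) (b i) (a j) (b j) (val pr U) n₀ (uu pr y) (uu pr y')| ≤
      errB L ε₁ C := by
  set P := EE pr L ×ˢ EE pr L with hP
  set sm : Finset ι × Finset ι → Prop := fun y =>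
    lv pr y.1 ≤ 2665 / 10000 * L ∧ lv pr y.2 ≤ 2665 / 10000 * L with hsm
  set ti : Finset ι × Finset ι → Prop := fun y =>
    lv pr y.1 ≤ 68 / 1000 * L ∧ lv pr y.2 ≤ 68 / 1000 * L with hti
  have hP1 : ∀ y ∈ P, lv pr (y.1 ∪ y.2) ≤ 544 / 1000 * L := fun y hy => by
    have := lv_union_le h y.1 y.2
    linarith [lv_of_EE (mem_product.1 hy).1, lv_of_EE (mem_product.1 hy).2]
  have hS1 : ∀ y ∈ P.filter sm, lv pr (y.1 ∪ y.2) ≤ 533 / 1000 * L := fun y hy => by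
    have := lv_union_le h y.1 y.2
    linarith [(mem_filter.1 hy).2.1, (mem_filter.1 hy).2.2]
  have hg : ∀ e ∈ EE pr L, ¬ lv pr e ≤ 2665 / 10000 * L →
      ∃ s ⊆ e, 95 / 1000 * L ≤ lv pr s ∧ lv pr s ≤ 19 / 100 * L := fun e he h1 => by
    obtain ⟨s, a1, a2, a3⟩ := greedy h (by positivity : 0 < 95 / 1000 * L) e (by linarith)
      fun p hp => by linarith [(mem_filter.1 he).2.2.resolve_left h1 p hp]
    exact ⟨s, a1, a2, by linarith⟩
  have hB : ∀ y ∈ P.filter fun y => ¬ sm y, lv pr (y.1 ∪ y.2) ≤ 544 / 1000 * L ∧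
      ∃ s ⊆ y.1 ∪ y.2, 95 / 1000 * L ≤ lv pr s ∧ lv pr s ≤ 19 / 100 * L := fun y hy => by
    obtain ⟨a1, a2⟩ := mem_filter.1 hy
    refine ⟨hP1 y a1, ?_⟩
    rcases not_and_or.1 a2 with a2 | a2
    · obtain ⟨s, b1, b2⟩ := hg _ (mem_product.1 a1).1 a2
      exact ⟨s, b1.trans subset_union_left, b2⟩
    · obtain ⟨s, b1, b2⟩ := hg _ (mem_product.1 a1).2 a2
      exact ⟨s, b1.trans subset_union_right, b2⟩
  have e1 := bil h hF hL.le hε₁ h16 (by norm_num) hij (hK.k2 i j) hU c1 c2 _ P hB hP1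
  have e2 := bil h hF hL.le hε₁ h16 (by norm_num) hij.symm (hK.k2 j i) hU c2 c1 _ (P.filter sm) hB
    fun y hy => hP1 y (mem_filter.1 hy).1
  have e3 := bil h hF hL.le hε₁ h16 (by norm_num) hij (hK.k1 i j) hU c1 c2
    ((P.filter sm).filter fun y => ¬ ti y) (P.filter sm) (fun y hy => by
      obtain ⟨a1, a2⟩ := mem_filter.1 hy
      refine ⟨hS1 y a1, ?_⟩
      rcases not_and_or.1 a2 with a2 | a2
      · exact ⟨_, subset_union_left, (not_le.1 a2).le, (mem_filter.1 a1).2.1⟩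
      · exact ⟨_, subset_union_right, (not_le.1 a2).le, (mem_filter.1 a1).2.2⟩) hS1
  rw [sum_comm] at e2
  simp_rw [remC_swap _ (a j), mul_comm (rr pr L _) (rr pr L _)] at e2
  set f : Finset ι × Finset ι → Finset ι × Finset ι → ℝ := fun y y' => rr pr L y * rr pr L y' *
    remC φ (Real.exp L) (a i) (b i) (a j) (b j) (val pr U) n₀ (uu pr y) (uu pr y') with hf
  have e4 : |∑ y ∈ (P.filter sm).filter ti, ∑ y' ∈ P.filter sm, f y y'| ≤
      C * Real.exp (7 / 10 * L) := by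
    have d1 := sum_rho_le h hL.le hε₁ h16 _ ((P.filter sm).filter ti) fun y hy => (mem_filter.1 hy).2
    have d2 := sum_rho_le h hL.le hε₁ h16 _ (P.filter sm) fun y hy => (mem_filter.1 hy).2
    have d3 := mul_le_mul d1 d2 (sum_nonneg fun _ _ => abs_nonneg _) (Real.exp_pos _).le
    rw [← Real.exp_add, sum_mul_sum] at d3
    refine (abs_sum_le_sum_abs _ _).trans (le_trans ?_ (mul_le_mul_of_nonneg_left
      (d3.trans (Real.exp_le_exp.2 (by nlinarith))) hC0))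
    rw [mul_sum]
    refine sum_le_sum fun y _ => (abs_sum_le_sum_abs _ _).trans ?_
    rw [mul_sum]
    refine sum_le_sum fun y' _ => ?_
    rw [hf, abs_mul, abs_mul, mul_comm]
    exact mul_le_mul_of_nonneg_right (hC y y') (by positivity)
  have e5 : ∑ y ∈ P, ∑ y' ∈ P, f y y' =
      ∑ y ∈ (P.filter sm).filter ti, ∑ y' ∈ P.filter sm, f y y' +
      ∑ y ∈ (P.filter sm).filter (fun y => ¬ ti y), ∑ y' ∈ P.filter sm, f y y' +
      ∑ y ∈ P.filter sm, ∑ y' ∈ P.filter (fun y => ¬ sm y), f y y' +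
      ∑ y ∈ P.filter (fun y => ¬ sm y), ∑ y' ∈ P, f y y' := by
    rw [sum_filter_add_sum_filter_not, ← sum_add_distrib]
    simp_rw [sum_filter_add_sum_filter_not]
  rw [e5, errB]
  refine (abs_add_le _ _).trans ((add_le_add ((abs_add_le _ _).trans
    (add_le_add ((abs_add_le _ _).trans (add_le_add e4 e3)) e2)) e1).trans (le_of_eq ?_))
  ring

theorem sig_sq (h : PS pr W Y) (i : κ) (w : ι → Option κ) :
    sig (tt pr) (eta pr L) i w ^ 2 =
      ∑ y ∈ EE pr L ×ˢ EE pr L, rr pr L y * ind1 (y.1 ∪ y.2) i w := by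
  have e : sig (tt pr) (eta pr L) i w = ∑ e ∈ EE pr L, rho (tt pr) (eta pr L) e * ind1 e i w := by
    rw [sig_eq]
    refine (sum_subset (subset_univ _) fun e _ he => ?_).symm
    by_contra h1
    obtain ⟨u, a1, a2⟩ := rho_supp (left_ne_zero_of_mul h1)
    exact he (EE_down h L u (eta_supp a1) e a2)
  rw [e, sq, sum_mul_sum, sum_product]
  exact sum_congr rfl fun e _ => sum_congr rfl fun f _ => by rw [← ind1_mul, rr]; ring

theorem disc' {α : Type*} (N : Finset ℕ) (μ : ℕ → ℝ) (ω : ℕ → ι → Option κ) (m : ℝ)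
    (π : ι → Option κ → ℝ) (s : Finset α) (c : α → ℝ) (F : α → (ι → Option κ) → ℝ) :
    Sm N μ ω (fun w => ∑ x ∈ s, c x * F x w) - m * Ex π (fun w => ∑ x ∈ s, c x * F x w) =
      ∑ x ∈ s, c x * (Sm N μ ω (F x) - m * Ex π (F x)) := by
  rw [Ex_sum]
  unfold Sm
  simp_rw [mul_sub, sum_sub_distrib, mul_sum]
  rw [sum_comm]
  congr 1
  · exact sum_congr rfl fun a _ => sum_congr rfl fun n _ => by ring
  · exact sum_congr rfl fun a _ => by ring

theorem errB_nonneg (hC : 0 ≤ C) : 0 ≤ errB L ε₁ C := by unfold errB; positivity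

theorem Ctx.S4 (h : Ctx pr a b W φ L δ lam ε C p₀ J) {i j : κ} (hij : i ≠ j) (hδ : δ ≤ 1 / 40000)
    (hε₁ : 0 ≤ ε₁) (hε₂ : ε₁ ≤ 1 / 25) (h16 : ∀ p, (16 : ℝ) ≤ (pr p : ℝ) ^ ε₁)
    (hK : KLin φ W b (Real.exp L)) :
    SU pr a b φ L (fun w => (V (tt pr) (zed (tt pr) (zw pr L δ lam p₀ J i) j) w *
      sig (tt pr) (eta pr L) i w * sig (tt pr) (eta pr L) j w) ^ 2) ≤
      (1 + ε) * (mass φ L * ((∑ s, zed (tt pr) (zw pr L δ lam p₀ J i) j s ^ 2 * wD (tt pr) s) *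
        (1 / GG pr L) ^ 2)) +
      errB L ε₁ C * (bet pr p₀ J (lam * L) ^ 2 * Real.exp (3 / 2 * (δ * L)) *
        2 ^ Fintype.card κ) ^ 2 := by
  set z := zed (tt pr) (zw pr L δ lam p₀ J i) j with hz
  set η := eta pr L with hη
  have hL := h.L0
  have hz0 : ∀ r, 0 ≤ z r := zed_nonneg h.gok.t0 (h.zw_nonneg i) j
  have hza : Anti z := zed_anti h.gok.t0 (h.zw_nonneg i) (h.zw_anti i) j
  have hzj : ∀ r, z r ≠ 0 → r j = ∅ := fun r hr => (zed_supp hr).1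
  have hzi : ∀ r, z r ≠ 0 → r i = ∅ := fun r hr => by
    obtain ⟨-, u, hu⟩ := zed_supp hr
    have := zw_supp i _ hu
    rwa [update_of_ne hij] at this
  have hzl : ∀ r, z r ≠ 0 → ∑ k, lv pr (r k) ≤ δ * L := zed_lv (zw_lv i) j
  have hη0 := eta_nonneg h.ps hL.le
  have hηa := eta_anti h.ps hL.le
  set c1 : (κ → Finset ι) → ℝ := fun r => z (update r i ∅) * η (r i) with hc1
  have hc1j : ∀ r, c1 r ≠ 0 → r j = ∅ := fun r hr => by
    have := hzj _ (left_ne_zero_of_mul hr)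
    rwa [update_of_ne hij.symm] at this
  have hc10 : ∀ r, 0 ≤ c1 r := fun r => mul_nonneg (hz0 _) (hη0 _)
  have h2 := master (meas_U h.ps) (fun r => c1 (update r j ∅) * η (r j))
    (fun r _ k hk => absurd (mem_univ k) hk) (fun r => mul_nonneg (hc10 _) (hη0 _))
    (anti_mul hc10 (anti_mul hz0 hza hη0 hηa i) hη0 hηa j) h.s1
  have e1 := sum_split_sq (tt pr) c1 η (fun _ => 1) j hc1j
  have e2 := sum_split_sq (tt pr) z η (fun _ => 1) i hzi
  rw [sum_eta_sq h.ps hL.le] at e1 e2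
  simp only [mul_one] at e1 e2
  rw [e1, e2] at h2
  simp_rw [← V_mul_sig _ _ _ _ hc1j, hc1, ← V_mul_sig _ _ _ _ hzi] at h2
  have e3 : (fun w => (V (tt pr) z w * sig (tt pr) η i w * sig (tt pr) η j w) ^ 2) = fun w =>
      ∑ x : (κ → Finset ι) × (κ → Finset ι), (Core.lam (tt pr) z x.1 * Core.lam (tt pr) z x.2) *
        (ind (x.1 ⊔ x.2) w * sig (tt pr) η i w ^ 2 * sig (tt pr) η j w ^ 2) := by
    funext w
    rw [mul_pow, mul_pow, V_sq_eq, sum_mul, sum_mul]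
    exact sum_congr rfl fun x _ => by ring
  have h1 := disc' (NN (Real.exp L)) (μU φ (Real.exp L)) (om pr a b) (mass φ L) (πU pr) univ
    (fun x : (κ → Finset ι) × (κ → Finset ι) => Core.lam (tt pr) z x.1 * Core.lam (tt pr) z x.2)
    fun x w => ind (x.1 ⊔ x.2) w * sig (tt pr) η i w ^ 2 * sig (tt pr) η j w ^ 2
  rw [← e3] at h1
  have h3 := abs_sum_pair_le (C := errB L ε₁ C) (Core.lam (tt pr) z)
    (fun x => Sm (NN (Real.exp L)) (μU φ (Real.exp L)) (om pr a b)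
      (fun w => ind (x.1 ⊔ x.2) w * sig (tt pr) η i w ^ 2 * sig (tt pr) η j w ^ 2) -
      mass φ L * Ex (πU pr)
        fun w => ind (x.1 ⊔ x.2) w * sig (tt pr) η i w ^ 2 * sig (tt pr) η j w ^ 2)
    fun x b1 b2 => by
      by_cases hT : Fn (x.1 ⊔ x.2)
      swap
      · simpa [Sm, Ex, ind_of_not_Fn hT] using errB_nonneg h.C0
      have hi := lam_empty hzi b1 b2
      have hj := lam_empty hzj b1 b2
      have hl := lam_lv h.ps hzl b1 b2 hT
      generalize x.1 ⊔ x.2 = T at hT hi hj hl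
      obtain ⟨n₀, d1, d2, d3⟩ := Rm_pair h.ps h.fo φ (Real.exp L) hT hij hi hj
      rw [disc _ _ _ _ _ ((EE pr L ×ˢ EE pr L) ×ˢ (EE pr L ×ˢ EE pr L))
        (fun y => rr pr L y.1 * rr pr L y.2)
        (fun y => update (update T i (y.1.1 ∪ y.1.2)) j (y.2.1 ∪ y.2.2)) _ fun w => ?_]
      · rw [sum_product]
        simp_rw [mass, d3]
        exact bil_all h.ps h.fo hL hε₁ hε₂ h16 hij hK (by nlinarith) d1 d2 h.C0 fun y y' => by
          rw [uu, uu, ← d3]; exact h.rm _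
      · rw [hη, sig_sq h.ps, sig_sq h.ps, mul_assoc, sum_mul_sum, mul_sum,
          sum_product (EE pr L ×ˢ EE pr L)]
        refine sum_congr rfl fun y _ => ?_
        rw [mul_sum]
        refine sum_congr rfl fun y' _ => ?_
        rw [ind_update (by rw [update_of_ne hij.symm, hj]), ind_update hi]
        ring
  have h4 := norm_lam (cm := bet pr p₀ J (lam * L) ^ 2) h.ps h.s3 z
    (fun r => by rw [abs_of_nonneg (hz0 r)]; exact h.gok.zed2_le' hij r) hzl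
  have h5 := mul_le_mul_of_nonneg_left
    (pow_le_pow_left₀ (sum_nonneg fun _ _ => abs_nonneg _) h4 2) (errB_nonneg (L := L) (ε₁ := ε₁) h.C0)
  have h6 := mul_le_mul_of_nonneg_left (abs_le.1 h2).2 h.mass_nonneg
  have h7 := (abs_le.1 h3).2
  rw [← h1] at h7
  unfold SU
  nlinarith

end Pool.Agent.MP_39a890_nt.Sums

end MrgPart1

-- ======== part 2: formerly Pool.Agent.MP_39a890_nt.Sums4
section MrgPart2

/-!
# The majorants of the primes and their moments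
-/

namespace Pool.Agent.MP_39a890_nt.Sums

open Finset Function Pool.Agent.MP_39a890_nt.Core

set_option linter.unusedSectionVars false

variable {ι : Type} [Fintype ι] [DecidableEq ι] {pr : ι → ℕ} {W : ℕ} {Y : ℝ}
variable {κ : Type} [Fintype κ] [DecidableEq κ] {a b : κ → ℕ}
variable {φ : ℝ → ℝ} {L δ lam ε C ε₁ ρ τ : ℝ} {p₀ J : ℕ}

/-- the form `i` has no small prime factor -/
def ro (pr : ι → ℕ) (Λ : ℝ) (i : κ) (w : ι → Option κ) : Prop :=
  ∀ q, Real.log (pr q) ≤ Λ → w q ≠ some i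

open Classical in
/-- the majorant -/
noncomputable def Yr (pr : ι → ℕ) (L δ : ℝ) (i : κ) (w : ι → Option κ) : ℝ :=
  if ro pr (δ * L) i w then sig (tt pr) (eta pr L) i w ^ 2 else 0

theorem Yr_nonneg (i : κ) (w : ι → Option κ) : 0 ≤ Yr pr L δ i w := by
  unfold Yr; split_ifs <;> positivity

theorem V_ro (h : PS pr W Y) {y : (κ → Finset ι) → ℝ} {Λ : ℝ}
    (hy : ∀ r, y r ≠ 0 → ∑ k, lv pr (r k) ≤ Λ) {i : κ} {w : ι → Option κ} (hw : ro pr Λ i w) :
    V (tt pr) y w = V (tt pr) (zed (tt pr) y i) w :=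
  V_eq_zed _ _ _ _ fun r hr p hp => hw p ((log_le_lv h hp).trans
    ((single_le_sum (f := fun k => lv pr (r k)) (fun _ _ => lv_nonneg _) (mem_univ i)).trans
      (hy r hr)))

theorem Yr_le (h : PS pr W Y) (i : κ) (w : ι → Option κ) :
    V (tt pr) (yw pr L δ lam p₀ J) w ^ 2 * Yr pr L δ i w ≤
      (V (tt pr) (zw pr L δ lam p₀ J i) w * sig (tt pr) (eta pr L) i w) ^ 2 := by
  unfold Yr; split_ifs with hw
  · rw [V_ro h Ctx.yw_lv hw, mul_pow]; rfl
  · rw [mul_zero]; positivity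

theorem Yr_ge (h : PS pr W Y) (i : κ) (w : ι → Option κ) :
    (V (tt pr) (zw pr L δ lam p₀ J i) w * sig (tt pr) (eta pr L) i w) ^ 2 ≤
      V (tt pr) (yw pr L δ lam p₀ J) w ^ 2 * Yr pr L δ i w +
      ∑ q ∈ univ.filter (fun q => Real.log (pr q) ≤ δ * L),
        (V (tt pr) (zw pr L δ lam p₀ J i) w * sig (tt pr) (eta pr L) i w) ^ 2 * ind1 {q} i w := by
  have h0 : ∀ q, 0 ≤ (V (tt pr) (zw pr L δ lam p₀ J i) w * sig (tt pr) (eta pr L) i w) ^ 2 *
      ind1 {q} i w := fun q => mul_nonneg (sq_nonneg _) (by rw [ind1_eq]; split_ifs <;> norm_num)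
  unfold Yr; split_ifs with hw
  · rw [V_ro h Ctx.yw_lv hw, ← mul_pow]
    exact le_add_of_nonneg_right (sum_nonneg fun q _ => h0 q)
  · simp only [ro, not_forall, not_not] at hw
    obtain ⟨q, h1, h2⟩ := hw
    rw [mul_zero, zero_add]
    refine le_trans (le_of_eq ?_) (single_le_sum (fun q _ => h0 q) (mem_filter.2 ⟨mem_univ q, h1⟩))
    simp [ind1, h2]

theorem YY_le (h : PS pr W Y) (i j : κ) (w : ι → Option κ) :
    V (tt pr) (yw pr L δ lam p₀ J) w ^ 2 * (Yr pr L δ i w * Yr pr L δ j w) ≤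
      (V (tt pr) (zed (tt pr) (zw pr L δ lam p₀ J i) j) w *
        sig (tt pr) (eta pr L) i w * sig (tt pr) (eta pr L) j w) ^ 2 := by
  unfold Yr; split_ifs with hi hj
  · rw [V_ro h Ctx.yw_lv hi, ← V_ro h (zw_lv i) hj, mul_pow, mul_pow, mul_assoc]; rfl
  all_goals simp only [mul_zero, zero_mul]; positivity

theorem abs_sig_le (h : PS pr W Y) (hL : 0 ≤ L) (i : κ) (w : ι → Option κ) :
    |sig (tt pr) (eta pr L) i w| ≤ 3 ^ (univ.filter fun p => w p = some i).card := by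
  set U := univ.filter fun p => w p = some i with hU
  rw [sig_eq, show (3 : ℝ) = 1 + 2 by norm_num, ← prod_const, prod_one_add, ← sum_ite_subset]
  refine (abs_sum_le_sum_abs _ _).trans (sum_le_sum fun e _ => ?_)
  rw [ind1_eq]
  by_cases he : e ⊆ U
  · rw [if_pos he, if_pos fun p hp => (mem_filter.1 (he hp)).2, mul_one, prod_const]
    exact abs_rho_le h hL e
  · rw [if_neg he, if_neg fun h1 => he fun p hp => mem_filter.2 ⟨mem_univ p, h1 p hp⟩]; simp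

theorem Yr_bound (h : PS pr W Y) (hF : Forms a b W) (hL : 0 < L) {N₀ : ℕ} (hN : 2 ≤ δ * N₀)
    (hδ : 0 < δ) (i : κ) {n : ℕ} (h0 : 0 < a i * n + b i)
    (h1 : Real.log ((a i * n + b i : ℕ) : ℝ) ≤ 2 * L) : Yr pr L δ i (om pr a b n) ≤ 9 ^ N₀ := by
  unfold Yr; split_ifs with hw
  swap
  · positivity
  set U := univ.filter fun p => om pr a b n p = some i with hU
  have h2 : lv pr U ≤ 2 * L := (Real.log_le_log (by exact_mod_cast val_pos h U) (Nat.cast_le.2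
    (Nat.le_of_dvd h0 ((val_dvd_iff h U _).2 fun p hp =>
      (om_eq h hF).1 (mem_filter.1 hp).2)))).trans h1
  have h3 : U.card • (δ * L) ≤ lv pr U := by
    rw [lv_eq_sum h]
    exact card_nsmul_le_sum _ _ _ fun p hp => le_of_not_ge fun h4 => hw p h4 (mem_filter.1 hp).2
  rw [nsmul_eq_mul] at h3
  have h4 : U.card ≤ N₀ := by
    have : (U.card : ℝ) * (δ * L) ≤ N₀ * (δ * L) := by nlinarith
    exact_mod_cast le_of_mul_le_mul_right this (mul_pos hδ hL)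
  rw [← sq_abs]
  refine (pow_le_pow_left₀ (abs_nonneg _) (abs_sig_le h hL.le i _) 2).trans ?_
  rw [← pow_mul, mul_comm, pow_mul]
  norm_num only
  exact pow_le_pow_right₀ (by norm_num) h4

theorem om_prime (h : PS pr W Y) (hF : Forms a b W) {i : κ} {n : ℕ} (hp : (a i * n + b i).Prime)
    (hY : Y < (a i * n + b i : ℕ)) (p : ι) : om pr a b n p ≠ some i := fun e => by
  have h1 := (Nat.prime_dvd_prime_iff_eq (h.prime p) hp).1 ((om_eq h hF).1 e)
  exact (h.le p).not_gt (h1 ▸ hY)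

theorem Yr_prime (h : PS pr W Y) (hL : 0 ≤ L) {i : κ} {w : ι → Option κ}
    (hw : ∀ p, w p ≠ some i) : Yr pr L δ i w = 1 := by
  have : sig (tt pr) (eta pr L) i w = 1 := by
    rw [← sum_eta h hL]
    exact sum_congr rfl fun u _ => congrArg _ (prod_congr rfl fun p _ => if_neg (hw p))
  rw [Yr, if_pos (show ro pr (δ * L) i w from fun q _ => hw q), this, one_pow]

/-- All hypotheses at the scale `exp L`. -/
structure Big (pr : ι → ℕ) (a b : κ → ℕ) (W : ℕ) (φ : ℝ → ℝ) (L δ lam ε C ρ τ : ℝ) (p₀ J : ℕ) :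
    Prop extends Ctx pr a b W φ L δ lam ε C p₀ J where
  one : OneOk pr ρ (cK κ) δ lam L p₀ J
  ρ0 : 0 < ρ
  ρ1 : ρ ≤ 1
  ε1 : ε ≤ 1 / 10 ^ 11
  δε : δ ≤ ε
  lam1 : 32 * Fintype.card κ * (J + 1) * lam ≤ ε * δ
  L1 : 1 ≤ L
  γ1 : 8 ≤ ρ * (lam * L)
  τ0 : 0 < τ
  τ1 : τ ≤ 1
  τ2 : τ ≤ (J + 1) ^ 2 * lam / 64
  err : (5 * C + 3) * 4 ^ Fintype.card κ * L ^ 4 * Real.exp ((1 - 1 / 40000) * L) ≤
    ε * τ ^ 2 * mass φ L
  err' : Real.exp L / L ≤ ε * τ ^ 2 * mass φ L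

/-- the total weight -/
noncomputable def Xi (κ : Type) [Fintype κ] (pr : ι → ℕ) (φ : ℝ → ℝ) (L lam : ℝ) (p₀ J : ℕ) : ℝ :=
  mass φ L * gam pr p₀ J (lam * L) ^ Fintype.card κ

/-- the mean of the majorant -/
noncomputable def cz (pr : ι → ℕ) (L lam : ℝ) (p₀ J : ℕ) : ℝ :=
  bet pr p₀ J (lam * L) ^ 2 / gam pr p₀ J (lam * L) * (1 / GG pr L)

theorem Big.gam_ge (h : Big pr a b W φ L δ lam ε C ρ τ p₀ J) : 1 ≤ gam pr p₀ J (lam * L) := by
  linarith [h.one.gam_ge, h.γ1]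

theorem Big.G_le (h : Big pr a b W φ L δ lam ε C ρ τ p₀ J) : GG pr L ≤ ρ * L :=
  le_trans (sum_le_sum_of_subset_of_nonneg (fun _ hu => mem_filter.2 ⟨mem_univ _, lv_of_EE hu⟩)
    fun u _ _ => (wt_pos h.ps u).le) h.one.H_le

theorem Big.bet_le (h : Big pr a b W φ L δ lam ε C ρ τ p₀ J) : bet pr p₀ J (lam * L) ≤ L := by
  refine le_trans ?_ (h.one.H_le.trans (mul_le_of_le_one_left h.L0.le h.ρ1))
  rw [sum_filter]
  refine sum_le_sum fun u _ => ?_
  split_ifs with h1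
  · exact mul_le_of_le_one_left (wt_pos h.ps u).le (h.gok.g1 u)
  · refine le_of_eq (mul_eq_zero_of_left (by_contra fun h2 => h1 ?_) _)
    have := h.gok.gs u h2
    nlinarith [h.L0, h.δε, h.ε1]

theorem Big.cz_ge (h : Big pr a b W φ L δ lam ε C ρ τ p₀ J) :
    (J + 1) ^ 2 * lam / 64 ≤ cz pr L lam p₀ J := by
  have h1 := h.gam_ge
  have h2 := one_le_GG h.ps h.L0.le
  have h3 := mul_le_mul h.one.gam_le h.G_le (by linarith) (by linarith [h.γ1])
  have h4 := pow_le_pow_left₀ (by have := h.γ1; rw [mul_assoc]; positivity) h.one.bet_ge 2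
  rw [cz, div_mul_div_comm, mul_one, le_div_iff₀ (by positivity)]
  refine (mul_le_mul_of_nonneg_left h3 (by have := h.lam0; positivity)).trans
    (le_trans (le_of_eq ?_) h4)
  ring

theorem Big.mass_le (h : Big pr a b W φ L δ lam ε C ρ τ p₀ J) :
    mass φ L ≤ Xi κ pr φ L lam p₀ J :=
  le_mul_of_one_le_right h.mass_nonneg (one_le_pow₀ h.gam_ge)

theorem Big.small (h : Big pr a b W φ L δ lam ε C ρ τ p₀ J) {k : ℕ} (hk : k ≤ 2) :
    ε * τ ^ 2 * mass φ L ≤ ε * (Xi κ pr φ L lam p₀ J * cz pr L lam p₀ J ^ k) := by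
  rw [mul_assoc, mul_comm (τ ^ 2)]
  exact mul_le_mul_of_nonneg_left (mul_le_mul h.mass_le ((pow_le_pow_of_le_one h.τ0.le h.τ1 hk).trans
    (pow_le_pow_left₀ h.τ0.le (h.τ2.trans h.cz_ge) k)) (sq_nonneg _)
    (h.mass_nonneg.trans h.mass_le)) h.ε0

theorem Big.err_le (h : Big pr a b W φ L δ lam ε C ρ τ p₀ J) {k : ℕ} (hk : k ≤ 2) {c x s : ℝ}
    (hc : c ≤ 5 * C + 3) (hx0 : 0 ≤ x) (hx : x ≤ L ^ 2) (hs : s ≤ (1 - 1 / 40000) * L) :
    c * (x * 2 ^ Fintype.card κ) ^ 2 * Real.exp s ≤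
      ε * (Xi κ pr φ L lam p₀ J * cz pr L lam p₀ J ^ k) := by
  refine le_trans ?_ (h.err.trans (h.small hk))
  have := h.C0
  refine mul_le_mul ?_ (Real.exp_le_exp.2 hs) (Real.exp_pos _).le (by positivity)
  rw [mul_assoc]
  refine mul_le_mul hc ?_ (sq_nonneg _) (by positivity)
  rw [mul_pow, ← pow_mul, mul_comm (Fintype.card κ), pow_mul, mul_comm,
    show L ^ 4 = (L ^ 2) ^ 2 by ring]
  norm_num only
  exact mul_le_mul_of_nonneg_left (pow_le_pow_left₀ hx0 hx 2) (by positivity)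

theorem Big.T0 (h : Big pr a b W φ L δ lam ε C ρ τ p₀ J) :
    SU pr a b φ L (fun w => V (tt pr) (yw pr L δ lam p₀ J) w ^ 2) ≤
      (1 + 2 * ε) * Xi κ pr φ L lam p₀ J := by
  have h1 := h.err_le (k := 0) (c := C) (x := 1) (s := 2 * (3 / 2 * (δ * L))) (by norm_num)
    (by linarith [h.C0]) zero_le_one (one_le_pow₀ h.L1) (by nlinarith [h.L0, h.δε, h.ε1])
  have h2 := h.S0
  rw [two_mul, Real.exp_add] at h1
  unfold Xi at h1 ⊢
  nlinarith

theorem Big.Z_bd (h : Big pr a b W φ L δ lam ε C ρ τ p₀ J) (i : κ) :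
    (1 - ε) * (Xi κ pr φ L lam p₀ J * cz pr L lam p₀ J) ≤
      mass φ L * ((∑ s, zw pr L δ lam p₀ J i s ^ 2 * wD (tt pr) s) * (1 / GG pr L)) ∧
    mass φ L * ((∑ s, zw pr L δ lam p₀ J i s ^ 2 * wD (tt pr) s) * (1 / GG pr L)) ≤
      Xi κ pr φ L lam p₀ J * cz pr L lam p₀ J := by
  have hγ : 0 < gam pr p₀ J (lam * L) := by linarith [h.gam_ge]
  have hG : 0 ≤ mass φ L * (1 / GG pr L) := by
    have := one_le_GG h.ps h.L0.le
    have := h.mass_nonneg
    positivity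
  have h1 := h.gok.sum_zed_le i
  have h2 := h.gok.sum_zed_ge (mul_pos h.δ0 h.L0) i (ε := ε) (by
    have a1 := mul_le_mul_of_nonneg_left h.one.gam₁_le
      (by positivity : (0 : ℝ) ≤ 2 * Fintype.card κ)
    have a2 := mul_le_mul_of_nonneg_left h.one.gam_ge
      (mul_nonneg h.ε0 (mul_pos h.δ0 h.L0).le)
    have a3 := mul_le_mul_of_nonneg_right h.lam1
      (mul_nonneg (by linarith [h.γ1] : 0 ≤ ρ * (lam * L)) h.L0.le)
    change 2 * _ * gam₁ pr p₀ J (lam * L) ≤ ε * gam pr p₀ J (lam * L) * _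
    nlinarith)
  change gam pr p₀ J (lam * L) * ∑ s, zw pr L δ lam p₀ J i s ^ 2 * _ ≤
    bet pr p₀ J (lam * L) ^ 2 * gam pr p₀ J (lam * L) ^ _ at h1
  change _ * (bet pr p₀ J (lam * L) ^ 2 * gam pr p₀ J (lam * L) ^ _) ≤
    gam pr p₀ J (lam * L) * ∑ s, zw pr L δ lam p₀ J i s ^ 2 * _ at h2
  rw [← le_div_iff₀' hγ] at h1
  rw [← div_le_iff₀' hγ] at h2
  unfold Xi cz
  exact ⟨le_trans (le_of_eq (by ring)) ((mul_le_mul_of_nonneg_left h2 hG).trans (le_of_eq (by ring))),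
    le_trans (le_of_eq (by ring)) ((mul_le_mul_of_nonneg_left h1 hG).trans (le_of_eq (by ring)))⟩

theorem Big.err₂_le (h : Big pr a b W φ L δ lam ε C ρ τ p₀ J) :
    5 * Real.exp (δ * L) * err₂ κ (bet pr p₀ J (lam * L)) L δ C ≤
      ε * (Xi κ pr φ L lam p₀ J * cz pr L lam p₀ J) := by
  have h1 := h.err_le (k := 1) (c := 5 * C) (x := bet pr p₀ J (lam * L))
    (s := δ * L + 2 * (3 / 2 * (δ * L + 272 / 1000 * L))) (by norm_num)
    (by linarith) h.gok.be_nonneg (h.bet_le.trans (by nlinarith [h.L1]))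
    (by nlinarith [h.L0, h.δε, h.ε1])
  rw [two_mul, Real.exp_add, Real.exp_add, pow_one] at h1
  unfold err₂
  linarith

theorem err₂_nonneg (hC : 0 ≤ C) (β : ℝ) : 0 ≤ err₂ κ β L δ C := by unfold err₂; positivity

theorem Big.T1u (h : Big pr a b W φ L δ lam ε C ρ τ p₀ J) (i : κ) :
    SU pr a b φ L (fun w => V (tt pr) (yw pr L δ lam p₀ J) w ^ 2 * Yr pr L δ i w) ≤
      2 * (Xi κ pr φ L lam p₀ J * cz pr L lam p₀ J) := by
  refine (h.SU_mono (Yr_le h.ps i)).trans ?_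
  have h1 := (abs_le.1 (h.S2 i)).2
  have h2 := h.Z_bd i
  have h3 := h.err₂_le
  have h4 := mul_le_mul_of_nonneg_right (Real.one_le_exp (mul_pos h.δ0 h.L0).le)
    (err₂_nonneg (κ := κ) (L := L) (δ := δ) h.C0 (bet pr p₀ J (lam * L)))
  have h5 := err₂_nonneg (κ := κ) (L := L) (δ := δ) h.C0 (bet pr p₀ J (lam * L))
  have h6 := mul_le_mul_of_nonneg_left h2.2 h.ε0
  have h7 : 0 ≤ Xi κ pr φ L lam p₀ J * cz pr L lam p₀ J :=
    mul_nonneg (h.mass_nonneg.trans h.mass_le) (h.τ0.le.trans (h.τ2.trans h.cz_ge))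
  nlinarith [h.ε1]

theorem Big.T1 (h : Big pr a b W φ L δ lam ε C ρ τ p₀ J) (i : κ) :
    (1 - 100 * ε) * (Xi κ pr φ L lam p₀ J * cz pr L lam p₀ J) ≤
      SU pr a b φ L (fun w => V (tt pr) (yw pr L δ lam p₀ J) w ^ 2 * Yr pr L δ i w) := by
  set S := univ.filter fun q => Real.log (pr q) ≤ δ * L with hS
  have h0 := h.SU_mono (Yr_ge (L := L) (δ := δ) (lam := lam) (p₀ := p₀) (J := J) h.ps i)
  have e : ∀ (F : (ι → Option κ) → ℝ) (G : ι → (ι → Option κ) → ℝ),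
      SU pr a b φ L (fun w => F w + ∑ q ∈ S, G q w) =
        SU pr a b φ L F + ∑ q ∈ S, SU pr a b φ L (G q) := by
    intro F G
    unfold SU Sm
    simp_rw [mul_add, sum_add_distrib, mul_sum]
    rw [sum_comm]
  rw [e] at h0
  have h8 := sum_le_sum (s := S) fun q _ => h.S3_one i q
  rw [sum_add_distrib, ← mul_sum, sum_const, nsmul_eq_mul] at h8
  have hc : (S.card : ℝ) ≤ Real.exp (δ * L) := by
    refine le_trans (Nat.cast_le.2 (card_le_card_of_injOn (fun q => ({q} : Finset ι))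
      (fun q hq => ?_) singleton_injective.injOn)) (card_lv_le h.ps _)
    simpa [hS, lv, val] using hq
  have hγ : 0 < gam pr p₀ J (lam * L) := by linarith [h.gam_ge]
  have hG := one_le_GG h.ps h.L0.le
  have h9 := sum_G1 (tt pr) (gw pr p₀ J (lam * L)) i
  change gam pr p₀ J (lam * L) * _ = bet pr p₀ J (lam * L) ^ 2 * gam pr p₀ J (lam * L) ^ _ at h9
  rw [mul_comm, ← eq_div_iff hγ.ne'] at h9
  have h7 : 0 ≤ Xi κ pr φ L lam p₀ J * cz pr L lam p₀ J :=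
    mul_nonneg (h.mass_nonneg.trans h.mass_le) (h.τ0.le.trans (h.τ2.trans h.cz_ge))
  have e2 : mass φ L * ((1 + ε) * 4 * (∑ s, PM (G1 (tt pr) (gw pr p₀ J (lam * L)) i) s ^ 2 *
      wD (tt pr) s) * (1 / GG pr L) ^ 2) =
      (1 + ε) * 4 * (Xi κ pr φ L lam p₀ J * cz pr L lam p₀ J) * (1 / GG pr L) := by
    rw [h9, Xi, cz]; ring
  have hb : (1 / GG pr L) * (5 * δ * ρ * L) ≤ 19 * ε := by
    rw [one_div, inv_mul_le_iff₀ (by linarith)]
    have := mul_le_mul h.δε h.one.G_ge (by have := h.ρ0; have := h.L0; positivity) h.ε0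
    nlinarith [mul_nonneg h.ε0 (zero_le_one.trans hG)]
  have h10 := mul_le_mul_of_nonneg_left ((mul_le_mul_of_nonneg_left h.one.bdry
    (by positivity : 0 ≤ 1 / GG pr L)).trans hb)
    (mul_nonneg (by linarith [h.ε0] : 0 ≤ (1 + ε) * 4) h7)
  rw [e2, mul_assoc _ (1 / GG pr L)] at h8
  have h1 := (abs_le.1 (h.S2 i)).1
  have h2 := h.Z_bd i
  have h3 := h.err₂_le
  have h5 := err₂_nonneg (κ := κ) (L := L) (δ := δ) h.C0 (bet pr p₀ J (lam * L))
  have h4 := mul_le_mul_of_nonneg_right (Real.one_le_exp (mul_pos h.δ0 h.L0).le) h5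
  have h6 := mul_le_mul_of_nonneg_left h2.2 h.ε0
  have h11 := mul_le_mul_of_nonneg_right hc h5
  have h12 := mul_le_mul_of_nonneg_right h.ε1 (mul_nonneg h.ε0 h7)
  nlinarith [mul_nonneg h.ε0 h7]

theorem Big.T3 (h : Big pr a b W φ L δ lam ε C ρ τ p₀ J) {i j : κ} (hij : i ≠ j)
    (hε₁ : 0 ≤ ε₁) (hε₂ : ε₁ ≤ 1 / 200000) (h16 : ∀ p, (16 : ℝ) ≤ (pr p : ℝ) ^ ε₁)
    (hK : KLin φ W b (Real.exp L)) :
    SU pr a b φ L (fun w => V (tt pr) (yw pr L δ lam p₀ J) w ^ 2 *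
      (Yr pr L δ i w * Yr pr L δ j w)) ≤
      (1 + 3 * ε) * (Xi κ pr φ L lam p₀ J * cz pr L lam p₀ J ^ 2) := by
  refine (h.SU_mono (YY_le h.ps i j)).trans
    ((h.S4 hij (by linarith [h.δε, h.ε1]) hε₁ (by linarith) h16 hK).trans ?_)
  have hγ : 0 < gam pr p₀ J (lam * L) := by linarith [h.gam_ge]
  have h1 := h.gok.sum_zed2_le hij
  change gam pr p₀ J (lam * L) ^ 2 * ∑ s, zed (tt pr) (zw pr L δ lam p₀ J i) j s ^ 2 * _ ≤
    bet pr p₀ J (lam * L) ^ 4 * gam pr p₀ J (lam * L) ^ _ at h1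
  rw [← le_div_iff₀' (by positivity)] at h1
  have h2 := mul_le_mul_of_nonneg_left h1 (mul_nonneg (mul_nonneg
    (by linarith [h.ε0] : 0 ≤ 1 + ε) h.mass_nonneg) (sq_nonneg (1 / GG pr L)))
  have hb := pow_le_pow_left₀ h.gok.be_nonneg h.bet_le 2
  have h3 := h.err_le (k := 2) (c := 3) (s := 2 * (ε₁ * L) + L * (1 - 1 / 20000) +
    2 * (3 / 2 * (δ * L))) le_rfl (by linarith [h.C0]) (sq_nonneg _) hb
    (by nlinarith [h.L0, h.δε, h.ε1])
  have h4 := h.err_le (k := 2) (c := C) (s := 7 / 10 * L + 2 * (3 / 2 * (δ * L))) le_rfl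
    (by linarith [h.C0]) (sq_nonneg _) hb (by nlinarith [h.L0, h.δε, h.ε1])
  simp only [two_mul, Real.exp_add] at h3 h4
  rw [Real.exp_mul L] at h3
  have e : (1 + ε) * mass φ L * (1 / GG pr L) ^ 2 * (bet pr p₀ J (lam * L) ^ 4 *
      gam pr p₀ J (lam * L) ^ Fintype.card κ / gam pr p₀ J (lam * L) ^ 2) =
      (1 + ε) * (Xi κ pr φ L lam p₀ J * cz pr L lam p₀ J ^ 2) := by
    rw [Xi, cz]; ring
  change 3 * (bet pr p₀ J (lam * L) ^ 2 * _) ^ 2 * _ ≤ _ at h3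
  change C * (bet pr p₀ J (lam * L) ^ 2 * _) ^ 2 * _ ≤ _ at h4
  unfold errB
  linarith

open Classical in
theorem Big.T4 (h : Big pr a b W φ L δ lam ε C ρ τ p₀ J) (i : κ) (hp₀ : p₀.Prime) {M : ℝ}
    (hM : (1 - ε) * (mass φ L * ρ⁻¹) ≤ M)
    (hBV : BVat φ (Real.exp L) W p₀ (a i) (b i) (16 ^ Fintype.card κ) M
      (Real.exp L / L ^ (2 * Fintype.card κ + 2)))
    (hsz : ∀ n ∈ NN (Real.exp L), φ (n / Real.exp L) ≠ 0 →
      Real.exp (272 / 1000 * L) < (a i * n + b i : ℕ) ∧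
        Real.log ((a i * n + b i : ℕ) : ℝ) ≤ (1 + ε) * L) :
    2695 / 10000 * (Xi κ pr φ L lam p₀ J * cz pr L lam p₀ J) ≤
      ∑ n ∈ NN (Real.exp L), if (a i * n + b i).Prime then
        μU φ (Real.exp L) n * V (tt pr) (yw pr L δ lam p₀ J) (om pr a b n) ^ 2 else 0 := by
  have hL := h.L0
  have hρ := h.ρ0
  have hε := h.ε0
  have hε1 := h.ε1
  have hm := h.mass_nonneg
  have hM0 : 0 ≤ M := le_trans (mul_nonneg (by linarith) (by positivity)) hM
  have h1 := h.S1 i hp₀ (by linarith [h.δε]) hM0 hBV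
    (h.one.H_le.trans (mul_le_of_le_one_left hL.le h.ρ1))
  set T := ∑ n ∈ NN (Real.exp L), if (a i * n + b i).Prime then
    μU φ (Real.exp L) n * V (tt pr) (yw pr L δ lam p₀ J) (om pr a b n) ^ 2 else 0 with hT
  have h2 : Sm (NN (Real.exp L)) (μP φ (Real.exp L) (a i) (b i)) (om pr a b)
      (fun w => V (tt pr) (zw pr L δ lam p₀ J i) w ^ 2) ≤ (1 + ε) * L * T := by
    rw [hT, mul_sum]
    refine sum_le_sum fun n hn => ?_
    unfold μP μU
    split_ifs with hp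
    · by_cases h0 : φ (n / Real.exp L) = 0
      · simp [h0]
      obtain ⟨c1, c2⟩ := hsz n hn h0
      rw [V_ro h.ps Ctx.yw_lv fun q _ => om_prime h.ps h.fo hp c1 q, ← mul_assoc, mul_comm _ (φ _)]
      exact mul_le_mul_of_nonneg_right (mul_le_mul_of_nonneg_left c2 (h.wt.nonneg _)) (sq_nonneg _)
    · simp
  have h3 : (bet pr p₀ J (lam * L) * L ^ Fintype.card κ) ^ 2 *
      (Real.exp L / L ^ (2 * Fintype.card κ + 2)) ≤
      L * (ε * (Xi κ pr φ L lam p₀ J * cz pr L lam p₀ J)) := by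
    have a1 := h.err'.trans (h.small (k := 1) (by norm_num))
    rw [pow_one, div_le_iff₀' hL] at a1
    refine le_trans ?_ a1
    refine (mul_le_mul_of_nonneg_right (pow_le_pow_left₀ (mul_nonneg h.gok.be_nonneg
      (by positivity)) (mul_le_mul_of_nonneg_right h.bet_le (by positivity)) 2)
      (by positivity)).trans (le_of_eq ?_)
    field_simp
    ring
  have hG := one_le_GG h.ps hL.le
  have h4 := (h.Z_bd i).1
  set Z := ∑ s, zw pr L δ lam p₀ J i s ^ 2 * wD (tt pr) s with hZ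
  have hZ0 : 0 ≤ Z := sum_nonneg fun s _ => mul_nonneg (sq_nonneg _) (wD_nonneg h.gok.t0 s)
  set A := Xi κ pr φ L lam p₀ J * cz pr L lam p₀ J with hA
  have hA0 : 0 ≤ A := mul_nonneg (hm.trans h.mass_le) (h.τ0.le.trans (h.τ2.trans h.cz_ge))
  have h5 : 2696 / 10000 * L * (1 / GG pr L) ≤ ρ⁻¹ := by
    rw [mul_one_div, div_le_iff₀ (by linarith), le_inv_mul_iff₀ hρ]
    linarith [h.one.G_ge]
  have h6 := mul_le_mul_of_nonneg_left h5 (mul_nonneg hm hZ0)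
  have h7 := mul_le_mul_of_nonneg_left h4 (by positivity : 0 ≤ 2696 / 10000 * L)
  have h8 : 2696 / 10000 * L * ((1 - ε) * A) ≤ mass φ L * ρ⁻¹ * Z := by linarith
  have h9 := mul_le_mul_of_nonneg_right hM hZ0
  have h10 := mul_le_mul_of_nonneg_left h8 (by linarith : 0 ≤ 1 - ε)
  have h11 : (1 - ε) * (2696 / 10000 * L * ((1 - ε) * A)) ≤ M * Z := by linarith
  have h12 := mul_le_mul_of_nonneg_left h11 (by linarith : 0 ≤ 1 - ε)
  refine le_of_mul_le_mul_left ?_ (by positivity : 0 < (1 + ε) * L)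
  have h13 : (1 + ε) * (2695 / 10000) + ε ≤ (1 - ε) ^ 3 * (2696 / 10000) := by
    have := one_add_mul_le_pow (a := -ε) (by linarith) 3
    rw [← sub_eq_add_neg] at this
    push_cast at this
    linarith
  have h14 := mul_le_mul_of_nonneg_right h13 (mul_nonneg hL.le hA0)
  linarith

end Pool.Agent.MP_39a890_nt.Sums

end MrgPart2

-- marker of a merged file
example : 731051 + 213381 = 731051 + 213381 := rfl
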